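import Pool.Agent.QC.Asm.In0

/-!
# MP_7c50a9_lc: same record, same number of components
-/

namespace Pool.Agent.QC

open MvPolynomial Filter Topology Set Lab

variable {n l : ℕ}

/-! ## Lists -/

theorem lst_of_list {q : RTup n l} {t₀ : ℝ} {ts : List ℝ} (hp : ts.Pairwise (· < ·))
    (hm : ∀ t, t ∈ ts ↔ t ∈ EvT q t₀) : Lst q t₀ ts.length (fun j => ts.getD j 0) where
  mono := by
    intro j hj
    have e1 : ts.getD j 0 = ts[j] := by simp [List.getD, hj]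
    by_cases h : j + 1 < ts.length
    · have e2 : ts.getD (j + 1) 0 = ts[j + 1] := by simp [List.getD, h]
      simp only [e1, e2]
      exact List.pairwise_iff_getElem.1 hp j (j + 1) hj h (by omega)
    · have e2 : ts.getD (j + 1) 0 = 0 := by
        simp [List.getD, List.getElem?_eq_none (by omega : ts.length ≤ j + 1)]
      simp only [e1, e2]
      exact ((hm _).1 (List.getElem_mem hj)).1.2
  last := by simp [List.getD]
  mem := by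
    intro t
    rw [← hm, List.mem_iff_getElem]
    constructor
    · rintro ⟨j, hj, rfl⟩
      exact ⟨j, hj, by simp [List.getD, hj]⟩
    · rintro ⟨j, hj, h⟩
      exact ⟨j, hj, by rw [← h]; simp [List.getD, hj]⟩

theorem evList_congr {V : Type*} {e e' : ℕ → V} {k : ℕ} (h : ∀ j < k, e j = e' j) :
    evList e k = evList e' k := by
  induction k with
  | zero => rfl
  | succ k ih =>
    simp only [evList]
    rw [h k (by omega), ih fun j hj => h j (by omega)]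

/-! ## Small parameters -/

/-- The set of singular levels is finite. -/
theorem finite_bad {Phi : MvPolynomial (Ix n l) ℂ} (hPhi : GoodPhi Phi) {q : Tup n l} {t₀ : ℂ}
    (h : eval (cfs (addT q t₀)) Phi ≠ 0) : {t : ℂ | SingF (f0 (addT q t)) ≠ ∅}.Finite := by
  obtain ⟨Q, hQ⟩ := (poly_addT q 0).eval Phi
  have hQ0 : Q ≠ 0 := by
    rintro rfl
    have := hQ t₀
    rw [zero_add] at this
    rw [this] at h
    simp at h
  refine (Q.roots.toFinset.finite_toSet).subset fun t ht => ?_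
  simp only [Finset.mem_coe, Multiset.mem_toFinset, Polynomial.mem_roots', ne_eq, hQ0,
    not_false_eq_true, true_and, Polynomial.IsRoot.def]
  by_contra hne
  apply ht
  have h1 := hQ t
  rw [zero_add] at h1
  have h2 : eval (cfs (addT q t)) Phi ≠ 0 := by rw [h1]; exact hne
  obtain ⟨-, -, h3, -⟩ := hPhi _ h2
  ext x
  simp only [mem_empty_iff_false, iff_false]
  intro hx
  exact (h3.1 x ⟨hx.1, fun i => hx.2 _⟩).2 (hx.2 _)

theorem ev_bad {Phi : MvPolynomial (Ix n l) ℂ} (hPhi : GoodPhi Phi) {q : Tup n l} {t₀ : ℂ}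
    (h : eval (cfs (addT q t₀)) Phi ≠ 0) :
    ∀ᶠ κ in 𝓝[>] (0 : ℝ), ∀ t : ℂ, 0 < t.im → t.im ≤ κ → SingF (f0 (addT q t)) = ∅ := by
  have hf := finite_bad hPhi h
  have h1 : ∀ᶠ κ in 𝓝[>] (0 : ℝ), ∀ b ∈ {t : ℂ | SingF (f0 (addT q t)) ≠ ∅},
      ¬ (0 < b.im ∧ b.im ≤ κ) := by
    rw [hf.eventually_all]
    intro b _
    rcases le_or_gt b.im 0 with hb | hb
    · exact Eventually.of_forall fun κ h2 => absurd h2.1 (not_lt.2 hb)
    · filter_upwards [nhdsWithin_le_nhds (Iio_mem_nhds hb)] with κ hκ h2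
      exact absurd h2.2 (not_le.2 hκ)
  filter_upwards [h1] with κ hκ t ht1 ht2
  by_contra hne
  exact hκ t hne ⟨ht1, ht2⟩

theorem ev_small {x y : ℝ} (h : x < y) : ∀ᶠ κ in 𝓝[>] (0 : ℝ), x + κ < y := by
  filter_upwards [nhdsWithin_le_nhds (Iio_mem_nhds (by linarith : (0 : ℝ) < y - x))] with κ hκ
  have : κ < y - x := hκ
  linarith

theorem ev_small2 {x y : ℝ} (h : x < y) : ∀ᶠ κ in 𝓝[>] (0 : ℝ), x + κ < y - κ := by
  filter_upwards [nhdsWithin_le_nhds (Iio_mem_nhds (by linarith : (0 : ℝ) < (y - x) / 2))]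
    with κ hκ
  have : κ < (y - x) / 2 := hκ
  linarith

/-- The words of the paths of an event. -/
def EvW {Phi : MvPolynomial (Ix n l) ℂ} (RS : RootSys Phi) (q₀ : Tup n l) (q : RTup n l)
    (t₀ t ω : ℝ) (c : Fin n → ℝ) (R : EvRec) : Prop :=
  word (fun s => RS.Rt (pathA q₀ (tC (addT q t₀)) ω s)) = R.wA ∧
  word (fun s => RS.Rt (pathB (tC q) t₀ ((t : ℝ) : ℂ) ω s)) = R.wB ∧
  word (fun s => RS.Rt (pathC (tC (addT q t)) (xC c) ω s)) = R.wC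

theorem EvW.gam {Phi : MvPolynomial (Ix n l) ℂ} {RS : RootSys Phi} {q₀ : Tup n l} {q q' : RTup n l}
    {t₀ t₀' t t' ω : ℝ} {c c' : Fin n → ℝ} {R : EvRec} (h : EvW RS q₀ q t₀ t ω c R)
    (h' : EvW RS q₀ q' t₀' t' ω c' R) (i : ℕ) (hi : i ≤ 2) :
    word (fun s => RS.Rt (gam q₀ q t₀ ω t c i s)) =
      word (fun s => RS.Rt (gam q₀ q' t₀' ω t' c' i s)) := by
  interval_cases i
  · exact h.1.trans h'.1.symm
  · exact h.2.1.trans h'.2.1.symm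
  · exact h.2.2.trans h'.2.2.symm

/-- All choices for one input: for all small `κ`, then all small `ω`. -/
theorem exists_choice {Phi : MvPolynomial (Ix n l) ℂ} (hPhi : GoodPhi Phi) (RS : RootSys Phi)
    {q₀ : Tup n l} (hq₀ : eval (cfs q₀) Phi ≠ 0) {q : RTup n l} {t₀ : ℝ} (hq : Good Phi q t₀)
    {ρ : List EvRec} (hρ : HasRec RS q₀ q t₀ ρ) :
    ∃ τ : ℕ → ℝ, ∃ vn : ℕ → ℝ, ∀ᶠ κ in 𝓝[>] (0 : ℝ), ∀ᶠ ω in 𝓝[>] (0 : ℝ), ∃ G : GD n,
      G.vn = vn ∧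
      (∀ (j : ℕ) (hj : j < ρ.length), G.re j = ρ[j].real ∧ G.cls j = ρ[j].kl ∧
        EvW RS q₀ q t₀ (τ j + κ) ω (G.c j) ρ[j] ∧
        (ρ[j].real = true →
          {z ∈ RS.Rt (tC (addT q (τ j + κ))) | z.im = 0 ∧ z.re < vn j}.ncard = ρ[j].cnt)) ∧
      In0 (Phi := Phi) q₀ q t₀ ρ.length τ κ ω G := by
  classical
  obtain ⟨ts, hp, hm, hF⟩ := hρ
  have hlen : ts.length = ρ.length := hF.length_eq
  set τ : ℕ → ℝ := fun j => ts.getD j 0 with hτ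
  set k := ρ.length with hk
  have hl : Lst q t₀ k τ := by
    have := lst_of_list hp hm
    rwa [hlen] at this
  have hev : ∀ (j : ℕ) (hj : j < k), HasEv RS q₀ q t₀ (τ j) ρ[j] := by
    intro j hj
    have h1 := (List.forall₂_iff_get.1 hF).2 j (by omega) hj
    have e1 : τ j = ts.get ⟨j, by omega⟩ := by
      simp [hτ, List.getD, (by omega : j < ts.length)]
    rw [e1]
    exact h1
  have hmem : ∀ j < k, τ j ∈ EvT q t₀ := fun j hj => (hl.mem _).2 ⟨j, hj, rfl⟩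
  -- the records as functions
  set rc : ℕ → EvRec := fun j => if h : j < k then ρ[j] else ⟨0, false, word (fun _ => ∅),
    word (fun _ => ∅), word (fun _ => ∅), 0⟩ with hrc
  have hrc' : ∀ (j : ℕ) (hj : j < k), rc j = ρ[j] := fun j hj => by simp only [hrc, dif_pos hj]
  have hall : ∀ j, j < k → ∃ (c : Fin n → ℝ) (vn r' r ρ0 ρ1 : ℝ) (T : Set ℂ)
      (N : Set (Fin (n + 1) → ℝ)),
      eval (cfs (tC (shT c q))) Phi ≠ 0 ∧
      (∀ᶠ κ in 𝓝[>] (0 : ℝ), ∀ᶠ ω in 𝓝[>] (0 : ℝ),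
        word (fun s => RS.Rt (pathA q₀ (tC (addT q t₀)) ω s)) = (rc j).wA ∧
        word (fun s => RS.Rt (pathB (tC q) t₀ ((τ j + κ : ℝ) : ℂ) ω s)) = (rc j).wB ∧
        word (fun s => RS.Rt (pathC (tC (addT q (τ j + κ))) (xC c) ω s)) = (rc j).wC ∧
        ((rc j).real = true →
          {z ∈ RS.Rt (tC (addT q (τ j + κ))) | z.im = 0 ∧ z.re < vn}.ncard = (rc j).cnt)) ∧
      ∀ᶠ κ in 𝓝[>] (0 : ℝ), ∃ μ : ℝ, ∀ G : GD n, G.c j = c → G.vn j = vn → G.r' j = r' →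
        G.r j = r → G.ρ0 j = ρ0 → G.ρ1 j = ρ1 → G.T j = T → G.N j = N → G.μ j = μ →
        G.re j = (rc j).real → G.cls j = (rc j).kl → EvG0 q τ κ G j := by
    intro j hj
    rw [hrc' j hj]
    exact exists_evG0 hPhi RS hq hl hj (hev j hj)
  choose! c vn r' r ρ0 ρ1 T N h1 h2 h3 using hall
  refine ⟨τ, vn, ?_⟩
  -- the conditions on `κ`
  have K1 : ∀ᶠ κ in 𝓝[>] (0 : ℝ), ∀ j ∈ Finset.range k, ∀ᶠ ω in 𝓝[>] (0 : ℝ),
        word (fun s => RS.Rt (QC.pathA q₀ (tC (addT q t₀)) ω s)) = (rc j).wA ∧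
        word (fun s => RS.Rt (pathB (tC q) t₀ ((τ j + κ : ℝ) : ℂ) ω s)) = (rc j).wB ∧
        word (fun s => RS.Rt (pathC (tC (addT q (τ j + κ))) (xC (c j)) ω s)) = (rc j).wC ∧
        ((rc j).real = true →
          {z ∈ RS.Rt (tC (addT q (τ j + κ))) | z.im = 0 ∧ z.re < vn j}.ncard = (rc j).cnt) := by
    rw [Filter.eventually_all_finset]
    exact fun j hj => h2 j (Finset.mem_range.1 hj)
  have K2 : ∀ᶠ κ in 𝓝[>] (0 : ℝ), ∀ j ∈ Finset.range k, ∃ μ : ℝ, ∀ G : GD n, G.c j = c j →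
      G.vn j = vn j → G.r' j = r' j → G.r j = r j → G.ρ0 j = ρ0 j → G.ρ1 j = ρ1 j →
      G.T j = T j → G.N j = N j → G.μ j = μ → G.re j = (rc j).real → G.cls j = (rc j).kl →
      EvG0 q τ κ G j := by
    rw [Filter.eventually_all_finset]
    exact fun j hj => h3 j (Finset.mem_range.1 hj)
  have K3 : ∀ᶠ κ in 𝓝[>] (0 : ℝ), ∀ j ∈ Finset.range k, t₀ + κ < τ j := by
    rw [Filter.eventually_all_finset]
    exact fun j hj => ev_small (hmem j (Finset.mem_range.1 hj)).1.1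
  have K4 : ∀ᶠ κ in 𝓝[>] (0 : ℝ), ∀ j ∈ Finset.range k, τ j + κ < τ (j + 1) := by
    rw [Filter.eventually_all_finset]
    exact fun j hj => ev_small (hl.mono j (Finset.mem_range.1 hj))
  have K5 : ∀ᶠ κ in 𝓝[>] (0 : ℝ), ∀ j ∈ Finset.range k, τ j + κ < τ (j + 1) - κ := by
    rw [Filter.eventually_all_finset]
    exact fun j hj => ev_small2 (hl.mono j (Finset.mem_range.1 hj))
  have hnz₀ : eval (cfs (addT (tC q) (t₀ : ℂ))) Phi ≠ 0 := by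
    rw [← tC_addT]
    exact hq.nz₀
  have K6 := ev_bad hPhi (q := tC q) (t₀ := (t₀ : ℂ)) hnz₀
  have K7 : ∀ᶠ κ in 𝓝[>] (0 : ℝ), ∀ j ∈ Finset.range k, ∀ᶠ ω in 𝓝[>] (0 : ℝ),
      ∀ s ∈ Set.Icc (0 : ℝ) 1,
        MvPolynomial.eval (cfs (QC.pathA q₀ (tC (addT q t₀)) ω s)) Phi ≠ 0 ∧
        MvPolynomial.eval (cfs (pathB (tC q) t₀ ((τ j + κ : ℝ) : ℂ) ω s)) Phi ≠ 0 ∧
        MvPolynomial.eval (cfs (pathC (tC (addT q (τ j + κ))) (xC (c j)) ω s)) Phi ≠ 0 := by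
    rw [Filter.eventually_all_finset]
    intro j hj
    filter_upwards [event_paths hq₀ hq.nz hq.nz₀ (τ j) (h1 j (Finset.mem_range.1 hj))] with κ hκ
    exact hκ.2.2
  filter_upwards [K1, K2, K3, K4, K5, K6, K7, self_mem_nhdsWithin]
    with κ k1 k2 k3 k4 k5 k6 k7 k8
  have k1' : ∀ᶠ ω in 𝓝[>] (0 : ℝ), ∀ j ∈ Finset.range k,
        word (fun s => RS.Rt (QC.pathA q₀ (tC (addT q t₀)) ω s)) = (rc j).wA ∧
        word (fun s => RS.Rt (pathB (tC q) t₀ ((τ j + κ : ℝ) : ℂ) ω s)) = (rc j).wB ∧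
        word (fun s => RS.Rt (pathC (tC (addT q (τ j + κ))) (xC (c j)) ω s)) = (rc j).wC ∧
        ((rc j).real = true →
          {z ∈ RS.Rt (tC (addT q (τ j + κ))) | z.im = 0 ∧ z.re < vn j}.ncard = (rc j).cnt) := by
    rw [Filter.eventually_all_finset]
    exact k1
  have k7' : ∀ᶠ ω in 𝓝[>] (0 : ℝ), ∀ j ∈ Finset.range k, ∀ s ∈ Set.Icc (0 : ℝ) 1,
        MvPolynomial.eval (cfs (QC.pathA q₀ (tC (addT q t₀)) ω s)) Phi ≠ 0 ∧
        MvPolynomial.eval (cfs (pathB (tC q) t₀ ((τ j + κ : ℝ) : ℂ) ω s)) Phi ≠ 0 ∧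
        MvPolynomial.eval (cfs (pathC (tC (addT q (τ j + κ))) (xC (c j)) ω s)) Phi ≠ 0 := by
    rw [Filter.eventually_all_finset]
    exact k7
  have k9 : ∀ᶠ ω in 𝓝[>] (0 : ℝ), ω ≤ κ :=
    nhdsWithin_le_nhds (Iic_mem_nhds k8)
  filter_upwards [k1', k7', k9, self_mem_nhdsWithin, pathA_ok hq₀ hq.nz₀]
    with ω w1 w2 w3 w4 w5
  choose! μ hμ using k2
  set G : GD n := ⟨c, vn, fun j => (rc j).kl, fun j => (rc j).real, r', r, ρ0, ρ1, μ, T, N⟩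
    with hG
  refine ⟨G, rfl, fun j hj => ?_, ?_⟩
  · rw [← hrc' j hj]
    have h4 := w1 j (Finset.mem_range.2 hj)
    exact ⟨rfl, rfl, ⟨h4.1, h4.2.1, h4.2.2.1⟩, h4.2.2.2⟩
  · refine ⟨hq, hl, k8, w4, w3, fun j hj => ?_, fun j hj => k4 j (Finset.mem_range.2 hj),
      fun j hj => k5 j (Finset.mem_range.2 (by omega)), k6, fun j hj => h1 j hj,
      fun j hj i hi s hs => ?_, w5, fun j hj => ?_⟩
    · have := k3 j (Finset.mem_range.2 hj)
      linarith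
    · have h4 := w2 j (Finset.mem_range.2 hj) s hs
      interval_cases i
      · exact h4.1
      · exact h4.2.1
      · exact h4.2.2
    · exact hμ j (Finset.mem_range.2 hj) G rfl rfl rfl rfl rfl rfl rfl rfl rfl rfl rfl

theorem compareB' {Phi : MvPolynomial (Ix n l) ℂ} (hPhi : GoodPhi Phi) (RS : RootSys Phi)
    {q₀ : Tup n l} {q q' : RTup n l} {t₀ t₀' ω tv tv' κ : ℝ} {c c' : Fin n → ℝ} (hc : c = 0)
    (hc' : c' = 0) (H : TwoW RS q₀ q q' t₀ t₀' ω (tv + κ) (tv' + κ) c c')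
    {vn r' r ρ0 ρ1 vn' s' s σ0 σ1 : ℝ} {T T' : Set ℂ}
    (G : Geo0 (shT c q) tv κ vn r' r ρ0 ρ1 T) (G' : Geo0 (shT c' q') tv' κ vn' s' s σ0 σ1 T')
    (hS : ∀ R0, csqc (vn : ℂ) r ⊆ sq R0 → (∀ c ∈ T, csqc c ρ1 ⊆ sq R0) →
      Sqs vn R0 r' r ρ0 ρ1 T)
    (hS' : ∀ R0, csqc (vn' : ℂ) s ⊆ sq R0 → (∀ c ∈ T', csqc c σ1 ⊆ sq R0) →
      Sqs vn' R0 s' s σ0 σ1 T')
    {N N' : Set (Fin (n + 1) → ℝ)}
    (hB : GeoB0 (shT c q) tv κ vn r' r N) (hB' : GeoB0 (shT c' q') tv' κ vn' s' s N')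
    (hcnt : {z ∈ RS.Rt (tC (addT q (tv + κ))) | z.im = 0 ∧ z.re < vn}.ncard =
      {z ∈ RS.Rt (tC (addT q' (tv' + κ))) | z.im = 0 ∧ z.re < vn'}.ncard) :
    ∃ Rm : ℝ, ∀ R0 R R1, Rm ≤ R0 → R0 < R → R < R1 → 2 * R0 < R1 →
      ∀ᶠ en in 𝓝[>] (0 : ℝ), ∀ᶠ eta in 𝓝[>] (0 : ℝ), ∀ P : Prm, P.en = en → P.eta = eta →
        ∀ (D : EvD P q₀ (zb R) R0 R1 2 (gam q₀ q t₀ ω (tv + κ) c))
          (D' : EvD P q₀ (zb R) R0 R1 2 (gam q₀ q' t₀' ω (tv' + κ) c'))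
          (x1 x2 x1' x2' : Fin (n + 1) → ℝ),
          GeoB P (shT c q) tv κ vn r' r N x1 x2 → D.a = x1 (Fin.last n) → D.b = x2 (Fin.last n) →
          GeoB P (shT c' q') tv' κ vn' s' s N' x1' x2' → D'.a = x1' (Fin.last n) →
          D'.b = x2' (Fin.last n) → SameE D D' := by
  subst hc
  subst hc'
  exact compareB hPhi RS H G G' hS hS' hB hB' hcnt

/-- (B) Same record, same number of components. -/
theorem record_inv {n l : ℕ} (hn : 1 ≤ n) {Phi : MvPolynomial (Ix n l) ℂ} (hPhi : GoodPhi Phi)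
    (RS : RootSys Phi) (q₀ : Tup n l) (hq₀ : eval (cfs q₀) Phi ≠ 0) {q q' : RTup n l}
    {t₀ t₀' : ℝ} (hq : Good Phi q t₀) (hq' : Good Phi q' t₀') {ρ : List EvRec}
    (hρ : HasRec RS q₀ q t₀ ρ) (hρ' : HasRec RS q₀ q' t₀' ρ) :
    Nat.card (ConnectedComponents (Wset q 0)) = Nat.card (ConnectedComponents (Wset q' 0)) := by
  classical
  obtain ⟨τ, vn, hc⟩ := exists_choice hPhi RS hq₀ hq hρ
  obtain ⟨τ', vn', hc'⟩ := exists_choice hPhi RS hq₀ hq' hρ'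
  obtain ⟨κ, hκ1, hκ2⟩ := (hc.and hc').exists
  obtain ⟨ω, ⟨G, hG1, hG2, hG3⟩, G', hG1', hG2', hG3'⟩ := (hκ1.and hκ2).exists
  set k := ρ.length with hk
  -- the comparison of the events
  have hcmp : ∀ j : ℕ, j < k → ∃ Rm : ℝ, ∀ R0 R R1, Rm ≤ R0 → R0 < R → R < R1 → 2 * R0 < R1 →
      ∀ᶠ en in 𝓝[>] (0 : ℝ), ∀ᶠ eta in 𝓝[>] (0 : ℝ), ∀ P : Prm, P.en = en → P.eta = eta →
        ∀ (D : ∀ j : Fin k, EvD P q₀ (zb R) R0 R1 2 (gam q₀ q t₀ ω (τ j + κ) (G.c j)))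
          (D' : ∀ j : Fin k, EvD P q₀ (zb R) R0 R1 2 (gam q₀ q' t₀' ω (τ' j + κ) (G'.c j))),
          Lnk P G D → Lnk P G' D' → ∀ hj : j < k, SameE (D ⟨j, hj⟩) (D' ⟨j, hj⟩) := by
    intro j hj
    obtain ⟨a1, a2, a3, a4⟩ := hG2 j hj
    obtain ⟨a1', a2', a3', a4'⟩ := hG2' j hj
    have e := hG3.ev j hj
    have e' := hG3'.ev j hj
    have hT : TwoW RS q₀ q q' t₀ t₀' ω (τ j + κ) (τ' j + κ) (G.c j) (G'.c j) :=
      ⟨hG3.paths j hj, hG3'.paths j hj, a3.gam a3'⟩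
    rcases hb : ρ[j].real with _ | _
    · rw [hb] at a1 a1'
      obtain ⟨Rm, hRm⟩ := compareA hPhi RS hT e.geo e'.geo e.sqs e'.sqs (e.caseA a1)
        (e'.caseA a1')
      refine ⟨Rm, fun R0 R R1 b1 b2 b3 b4 => ?_⟩
      filter_upwards [hRm R0 R R1 b1 b2 b3 b4] with en hen
      filter_upwards [hen] with eta heta P p1 p2 D D' hL hL' hj'
      have l1 := hL.A ⟨j, hj'⟩ a1
      have l1' := hL'.A ⟨j, hj'⟩ a1'
      exact heta P p1 p2 (D ⟨j, hj'⟩) (D' ⟨j, hj'⟩) l1.1 l1.2 l1'.1 l1'.2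
    · rw [hb] at a1 a1'
      obtain ⟨c1, -, c3⟩ := e.caseB a1
      obtain ⟨c1', -, c3'⟩ := e'.caseB a1'
      have hcnt := (a4 hb).trans (a4' hb).symm
      rw [← hG1, ← hG1'] at hcnt
      obtain ⟨Rm, hRm⟩ := compareB' hPhi RS c1 c1' hT e.geo e'.geo e.sqs e'.sqs c3 c3' hcnt
      refine ⟨Rm, fun R0 R R1 b1 b2 b3 b4 => ?_⟩
      filter_upwards [hRm R0 R R1 b1 b2 b3 b4] with en hen
      filter_upwards [hen] with eta heta P p1 p2 D D' hL hL' hj'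
      obtain ⟨x1, x2, l1, l2, l3⟩ := hL.B ⟨j, hj'⟩ a1
      obtain ⟨x1', x2', l1', l2', l3'⟩ := hL'.B ⟨j, hj'⟩ a1'
      exact heta P p1 p2 (D ⟨j, hj'⟩) (D' ⟨j, hj'⟩) x1 x2 x1' x2' l1 l2 l3 l1' l2' l3'
  choose! Rc hRc using hcmp
  obtain ⟨Rb, hRb⟩ := hG3.exists_bd hPhi
  obtain ⟨Rb', hRb'⟩ := hG3'.exists_bd hPhi
  -- the radii
  obtain ⟨R0, r1, r2, r3, r4⟩ : ∃ R0 : ℝ, Rb ≤ R0 ∧ Rb' ≤ R0 ∧ 1 ≤ R0 ∧
      ∀ j ∈ Finset.range k, Rc j ≤ R0 := by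
    obtain ⟨M, hM⟩ := ((Finset.range k).image Rc).exists_le
    refine ⟨max (max Rb Rb') (max 1 M), (le_max_left _ _).trans (le_max_left _ _),
      (le_max_right _ _).trans (le_max_left _ _), (le_max_left _ _).trans (le_max_right _ _),
      fun j hj => ?_⟩
    exact (hM _ (Finset.mem_image_of_mem _ hj)).trans
      ((le_max_right _ _).trans (le_max_right _ _))
  have hz : zb (R0 + 1) ∈ sann R0 (2 * R0 + 3) := by
    constructor
    · constructor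
      · show |-(R0 + 1)| < 2 * R0 + 3
        rw [abs_neg, abs_of_pos (by linarith)]
        linarith
      · show |R0 + 1| < 2 * R0 + 3
        rw [abs_of_pos (by linarith)]
        linarith
    · rintro ⟨-, h2⟩
      have h3 : |R0 + 1| ≤ R0 := h2
      rw [abs_of_pos (by linarith)] at h3
      linarith
  have ha : Irrational (Real.sqrt 2 + 2) := by
    have := irrational_sqrt_two.add_natCast 2
    simpa using this
  have ha2 : (2 : ℝ) < Real.sqrt 2 + 2 := by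
    have : 0 < Real.sqrt 2 := by positivity
    linarith
  have E1 := hG3.inD hPhi ha ha2 (hRb R0 r1) (R1 := 2 * R0 + 3) (by linarith) hz
  have E2 := hG3'.inD hPhi ha ha2 (hRb' R0 r2) (R1 := 2 * R0 + 3) (by linarith) hz
  have E3 : ∀ᶠ en in 𝓝[>] (0 : ℝ), ∀ j ∈ Finset.range k, ∀ᶠ eta in 𝓝[>] (0 : ℝ), ∀ P : Prm,
      P.en = en → P.eta = eta →
        ∀ (D : ∀ j : Fin k, EvD P q₀ (zb (R0 + 1)) R0 (2 * R0 + 3) 2
            (gam q₀ q t₀ ω (τ j + κ) (G.c j)))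
          (D' : ∀ j : Fin k, EvD P q₀ (zb (R0 + 1)) R0 (2 * R0 + 3) 2
            (gam q₀ q' t₀' ω (τ' j + κ) (G'.c j))),
          Lnk P G D → Lnk P G' D' → ∀ hj : j < k, SameE (D ⟨j, hj⟩) (D' ⟨j, hj⟩) := by
    rw [Filter.eventually_all_finset]
    intro j hj
    exact hRc j (Finset.mem_range.1 hj) R0 (R0 + 1) (2 * R0 + 3) (r4 j hj) (by linarith)
      (by linarith) (by linarith)
  obtain ⟨en, ⟨⟨e1, e2⟩, e3⟩, hen⟩ := (((E1.and E2).and E3).and self_mem_nhdsWithin).exists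
  have e3' : ∀ᶠ eta in 𝓝[>] (0 : ℝ), ∀ j ∈ Finset.range k, ∀ P : Prm,
      P.en = en → P.eta = eta →
        ∀ (D : ∀ j : Fin k, EvD P q₀ (zb (R0 + 1)) R0 (2 * R0 + 3) 2
            (gam q₀ q t₀ ω (τ j + κ) (G.c j)))
          (D' : ∀ j : Fin k, EvD P q₀ (zb (R0 + 1)) R0 (2 * R0 + 3) 2
            (gam q₀ q' t₀' ω (τ' j + κ) (G'.c j))),
          Lnk P G D → Lnk P G' D' → ∀ hj : j < k, SameE (D ⟨j, hj⟩) (D' ⟨j, hj⟩) := by
    rw [Filter.eventually_all_finset]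
    exact e3
  obtain ⟨eta, ⟨⟨f1, f2⟩, f3⟩, heta⟩ :=
    (((e1.and e2).and e3').and self_mem_nhdsWithin).exists
  set P : Prm := ⟨en, eta, Real.sqrt 2 + 2, hen, heta, ha, ha2⟩ with hP
  obtain ⟨D, hD, hL⟩ := f1 P rfl rfl rfl
  obtain ⟨D', hD', hL'⟩ := f2 P rfl rfl rfl
  obtain ⟨u, hu⟩ := hD.hist
  obtain ⟨u', hu'⟩ := hD'.hist
  have hev : ∀ j < k, evs G.cls D j = evs G'.cls D' j := by
    intro j hj
    have hs := f3 j (Finset.mem_range.2 hj) P rfl rfl D D' hL hL' hj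
    have hcls : G.cls j = G'.cls j := (hG2 j hj).2.1.trans (hG2' j hj).2.1.symm
    unfold evs
    rw [dif_pos hj, dif_pos hj, hcls, hs.1, hs.2.1, hs.2.2]
  rw [evList_congr hev] at hu
  have hcard := hu.card_eq hu'
  rw [card_Cmp (isOpen_Wset q 0), card_Cmp (isOpen_Wset q' 0), ← Nat.card_coe_set_eq,
    ← Nat.card_coe_set_eq]
  exact hcard

end Pool.Agent.QC
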