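import Pool.Agent.QC.Asm.EventDefs
import Pool.Agent.QC.Ev.Basic

/-!
# MP_7c50a9_lc: the maps between the components before and after an event
-/

set_option autoImplicit false

namespace Pool.Agent.QC

open Set

section Top

variable {X : Type*} [TopologicalSpace X] {W W' : Set X}

/-- The component of `W'` which contains the component `U` of `W`. -/
noncomputable def upCmp (h : W ⊆ W') (U : Cmp W) : Cmp W' :=
  ⟨(S4.exists_unique_up h (by rw [← Ev.Cmp_eq_comps]; exact U.2)).choose, by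
    rw [Ev.Cmp_eq_comps]
    exact (S4.exists_unique_up h (by rw [← Ev.Cmp_eq_comps]; exact U.2)).choose_spec.1.1⟩

theorem upCmp_sub (h : W ⊆ W') (U : Cmp W) : (U : Set X) ⊆ (upCmp h U : Set X) :=
  (S4.exists_unique_up h (by rw [← Ev.Cmp_eq_comps]; exact U.2)).choose_spec.1.2

theorem cmp_eq_of_mem {U V : Cmp W} {x : X} (hU : x ∈ (U : Set X)) (hV : x ∈ (V : Set X)) :
    U = V :=
  Subtype.ext (S4.comps_eq_of_mem (by rw [← Ev.Cmp_eq_comps]; exact U.2)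
    (by rw [← Ev.Cmp_eq_comps]; exact V.2) hU hV)

theorem cmp_nonempty (U : Cmp W) : (U : Set X).Nonempty :=
  S4.comps_nonempty (by rw [← Ev.Cmp_eq_comps]; exact U.2)

theorem cmp_subset (U : Cmp W) : (U : Set X) ⊆ W :=
  S4.comps_subset (by rw [← Ev.Cmp_eq_comps]; exact U.2)

theorem cmp_disjoint {U V : Cmp W} (h : U ≠ V) : Disjoint (U : Set X) (V : Set X) :=
  Set.disjoint_left.mpr fun _ hU hV => h (cmp_eq_of_mem hU hV)

/-- The component of a point. -/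
def cmpOf {x : X} (hx : x ∈ W) : Cmp W := ⟨connectedComponentIn W x, x, hx, rfl⟩

theorem mem_cmpOf {x : X} (hx : x ∈ W) : x ∈ (cmpOf hx : Set X) := mem_connectedComponentIn hx

theorem sub_iff_upCmp (h : W ⊆ W') (O : Cmp W') (U : Cmp W) :
    (U : Set X) ⊆ (O : Set X) ↔ upCmp h U = O := by
  constructor
  · intro hU
    obtain ⟨x, hx⟩ := cmp_nonempty U
    exact cmp_eq_of_mem (upCmp_sub h U hx) (hU hx)
  · rintro rfl
    exact upCmp_sub h U

end Top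

variable {n l : ℕ} {q : RTup n l} {t t' : ℝ}

theorem Wset_sub (h : t ≤ t') : Wset q t ⊆ Wset q t' := by
  intro x hx
  rw [Ev.mem_Wset] at hx ⊢
  exact ⟨hx.1, hx.2.trans_le (Ev.ff_mono' h hx.1)⟩

/-- Regular or harmless: a bijection. -/
theorem SameCmp.equiv (h : SameCmp q t t') (ht : t ≤ t') :
    ∃ π : Cmp (Wset q t) ≃ Cmp (Wset q t'), ∀ (k : Cmp (Wset q t')) (i : Cmp (Wset q t)),
      (i : Set (Fin (n + 1) → ℝ)) ⊆ (k : Set (Fin (n + 1) → ℝ)) ↔ π i = k := by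
  have hW := Wset_sub (q := q) ht
  refine ⟨Equiv.ofBijective (upCmp hW) ⟨fun U V hUV => ?_, fun O => ?_⟩,
    fun k i => sub_iff_upCmp hW k i⟩
  · obtain ⟨x, hx⟩ := cmp_nonempty U
    obtain ⟨y, hy⟩ := cmp_nonempty V
    have hxW := cmp_subset U hx
    have hyW := cmp_subset V hy
    have h1 : connectedComponentIn (Wset q t') x = connectedComponentIn (Wset q t') y := by
      have e1 : upCmp hW U = cmpOf (hW hxW) := cmp_eq_of_mem (upCmp_sub hW U hx) (mem_cmpOf _)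
      have e2 : upCmp hW V = cmpOf (hW hyW) := cmp_eq_of_mem (upCmp_sub hW V hy) (mem_cmpOf _)
      exact congrArg Subtype.val (e1.symm.trans (hUV.trans e2))
    have h2 := h.2 x hxW y hyW h1
    have e1 : U = cmpOf hxW := cmp_eq_of_mem hx (mem_cmpOf _)
    have e2 : V = cmpOf hyW := cmp_eq_of_mem hy (mem_cmpOf _)
    rw [e1, e2]
    exact Subtype.ext h2
  · obtain ⟨x, hx⟩ := cmp_nonempty O
    have hxW := cmp_subset O hx
    obtain ⟨y, hy, hyx⟩ := h.1 x hxW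
    refine ⟨cmpOf hy, cmp_eq_of_mem (upCmp_sub hW _ (mem_cmpOf hy)) ?_⟩
    have e1 : O = cmpOf hxW := cmp_eq_of_mem hx (mem_cmpOf _)
    rw [e1]
    exact hyx

/-- A new component. -/
theorem MorZ.equiv {O0 : Set (Fin (n + 1) → ℝ)} (h : MorZ q t t' O0) (ht : t ≤ t') :
    ∃ π : Option (Cmp (Wset q t)) ≃ Cmp (Wset q t'), (∀ (k : Cmp (Wset q t'))
      (i : Cmp (Wset q t)), (i : Set (Fin (n + 1) → ℝ)) ⊆ (k : Set (Fin (n + 1) → ℝ)) ↔
        π (some i) = k) ∧ (π none : Set (Fin (n + 1) → ℝ)) = O0 := by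
  have hW := Wset_sub (q := q) ht
  set f : Option (Cmp (Wset q t)) → Cmp (Wset q t') := fun i =>
    i.elim ⟨O0, h.mem⟩ (upCmp hW) with hf
  have hne : ∀ i, upCmp hW i ≠ ⟨O0, h.mem⟩ := by
    intro i he
    obtain ⟨x, hx⟩ := cmp_nonempty i
    have h1 := upCmp_sub hW i hx
    rw [he] at h1
    exact Set.disjoint_left.mp h.dis h1 (cmp_subset i hx)
  refine ⟨Equiv.ofBijective f ⟨?_, fun O => ?_⟩, fun k i => sub_iff_upCmp hW k i, rfl⟩
  · rintro (_ | U) (_ | V) hUV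
    · rfl
    · exact absurd hUV.symm (hne V)
    · exact absurd hUV (hne U)
    · have h1 : upCmp hW U = upCmp hW V := hUV
      have h2 := h.inj (upCmp hW U) (upCmp hW U).2 U U.2 V V.2 (upCmp_sub hW U)
        (by rw [h1]; exact upCmp_sub hW V)
      rw [Subtype.ext h2]
  · by_cases hO : (O : Set (Fin (n + 1) → ℝ)) = O0
    · exact ⟨none, Subtype.ext hO.symm⟩
    · obtain ⟨U, hU, hUO⟩ := h.ex O O.2 hO
      exact ⟨some ⟨U, hU⟩, (sub_iff_upCmp hW O ⟨U, hU⟩).mp hUO⟩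

/-- Joined components. -/
theorem MorO.map {U1 U2 : Set (Fin (n + 1) → ℝ)} (h : MorO q t t' U1 U2) (ht : t ≤ t') :
    ∃ π : Cmp (Wset q t) → Cmp (Wset q t'), Function.Surjective π ∧
      (∀ (k : Cmp (Wset q t')) (i : Cmp (Wset q t)),
        (i : Set (Fin (n + 1) → ℝ)) ⊆ (k : Set (Fin (n + 1) → ℝ)) ↔ π i = k) ∧
      ∀ i j, π i = π j ↔ i = j ∨ ((i = ⟨U1, h.mem1⟩ ∨ i = ⟨U2, h.mem2⟩) ∧
        (j = ⟨U1, h.mem1⟩ ∨ j = ⟨U2, h.mem2⟩)) := by
  have hW := Wset_sub (q := q) ht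
  refine ⟨upCmp hW, fun O => ?_, fun k i => sub_iff_upCmp hW k i, fun i j => ⟨fun hij => ?_, ?_⟩⟩
  · obtain ⟨U, hU, hUO⟩ := h.ex O O.2
    exact ⟨⟨U, hU⟩, (sub_iff_upCmp hW O ⟨U, hU⟩).mp hUO⟩
  · have h1 := h.inj (upCmp hW i) (upCmp hW i).2 i i.2 j j.2 (upCmp_sub hW i)
      (by rw [hij]; exact upCmp_sub hW j)
    rcases h1 with h1 | ⟨h1, h2⟩
    · exact Or.inl (Subtype.ext h1)
    · exact Or.inr ⟨h1.imp (fun h => Subtype.ext h) (fun h => Subtype.ext h),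
        h2.imp (fun h => Subtype.ext h) (fun h => Subtype.ext h)⟩
  · obtain ⟨O, hO, hO1, hO2⟩ := h.join
    have e1 : upCmp hW ⟨U1, h.mem1⟩ = ⟨O, hO⟩ := (sub_iff_upCmp hW ⟨O, hO⟩ ⟨U1, h.mem1⟩).mp hO1
    have e2 : upCmp hW ⟨U2, h.mem2⟩ = ⟨O, hO⟩ := (sub_iff_upCmp hW ⟨O, hO⟩ ⟨U2, h.mem2⟩).mp hO2
    rintro (h1 | ⟨h1 | h1, h2 | h2⟩)
    · rw [h1]
    · rw [h1, h2]
    · rw [h1, h2, e1, e2]
    · rw [h1, h2, e1, e2]
    · rw [h1, h2]

end Pool.Agent.QC
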