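import Pool.Agent.QC.Asm.CompareP

/-!
# MP_7c50a9_lc: assembly: one event of two inputs with the same words

The definitions are in `Asm/CompareDefs`, the theorems `compareA`, `compareB` in `Asm/CompareP`.
-/
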