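import Pool.Agent.QC.Asm.One

/-!
# MP_7c50a9_lc: assembly: one event of two inputs with the same words (definitions)
-/

namespace Pool.Agent.QC

open MvPolynomial Filter Topology Set

variable {n l : ℕ}

/-- The base point. -/
def zb (R : ℝ) : ℂ := ⟨-R, R⟩

/-- One event of two inputs at `eta = 0`: the words of the three paths agree. -/
structure TwoW {Phi : MvPolynomial (Ix n l) ℂ} (RS : RootSys Phi) (q₀ : Tup n l) (q q' : RTup n l)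
    (t₀ t₀' ω t t' : ℝ) (c c' : Fin n → ℝ) : Prop where
  ne : ∀ i ≤ 2, ∀ s ∈ Icc (0 : ℝ) 1, eval (cfs (gam q₀ q t₀ ω t c i s)) Phi ≠ 0
  ne' : ∀ i ≤ 2, ∀ s ∈ Icc (0 : ℝ) 1, eval (cfs (gam q₀ q' t₀' ω t' c' i s)) Phi ≠ 0
  word : ∀ i ≤ 2, word (fun s => RS.Rt (gam q₀ q t₀ ω t c i s)) =
    word (fun s => RS.Rt (gam q₀ q' t₀' ω t' c' i s))

/-- The spaces of the two planes at the ends agree. -/
def SameE {P : Prm} {q₀ : Tup n l} {z₀ : ℂ} {R0 R1 : ℝ} {m : ℕ} {γ γ' : ℕ → ℝ → Tup n l}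
    (D : EvD P q₀ z₀ R0 R1 m γ) (D' : EvD P q₀ z₀ R0 R1 m γ') : Prop :=
  D.pl.EE = D'.pl.EE ∧ D.pl.UU = D'.pl.UU ∧ D.pl.LL = D'.pl.LL

end Pool.Agent.QC
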