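import Pool.Agent.QC.Asm.Ends
import Pool.Agent.QC.Lab.Match

/-!
# The spaces of an event for two inputs with the same words (sections 7 and 8)

`chain_ev`: the hypotheses of `exists_evD` for small `en` and `eta`.
`MatchL.spaces`: matched labels give `D.EE = D'.EE`, `D.UU = D'.UU`, `D.LL = D'.LL`.
-/

set_option autoImplicit false

open Set Metric Filter Topology

namespace Pool.Agent.QC.Grid

open MvPolynomial

variable {n l : ℕ}

private theorem ev_le {f : Filter ℝ} {m : ℕ} {p : ℕ → ℝ → Prop}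
    (h : ∀ k ≤ m, ∀ᶠ x in f, p k x) : ∀ᶠ x in f, ∀ k ≤ m, p k x :=
  (Filter.eventually_all_finite (Set.finite_Iic m)).2 h

private theorem ev_le2 {f g : Filter ℝ} {m : ℕ} {p : ℕ → ℝ → ℝ → Prop}
    (h : ∀ k ≤ m, ∀ᶠ x in f, ∀ᶠ y in g, p k x y) :
    ∀ᶠ x in f, ∀ᶠ y in g, ∀ k ≤ m, p k x y := by
  filter_upwards [ev_le h] with x hx
  exact ev_le hx

/-- **the hypotheses of `exists_evD`** -/
theorem chain_ev {m : ℕ} {γ : ℕ → ℝ → Tup n l} (hγ : ∀ k ≤ m, ContinuousOn (γ k) (Icc 0 1))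
    (hN : ∀ k ≤ m, ∀ s ∈ Icc (0 : ℝ) 1, Nice (γ k s)) {R0 R1 : ℝ}
    (hS : ∀ k ≤ m, ∀ s ∈ Icc (0 : ℝ) 1, SigF (f0 (γ k s)) ⊆ sq R0)
    (hfin : (SigF (f0 (γ m 1))).Finite) (hR : R0 < R1) :
    ∀ᶠ en in 𝓝[>] (0 : ℝ), ∀ᶠ eta in 𝓝[>] (0 : ℝ), ∀ P : Prm, P.en = en → P.eta = eta →
      (∀ k ≤ m, ∀ s ∈ Icc (0 : ℝ) 1, SingF (P.f (γ k s)) = ∅ ∧
        ∀ z ∈ sann R0 R1, z ∉ SigF (P.f (γ k s))) ∧
      (SigF (P.f (γ m 1)) ∩ sq R1).Finite ∧
      (∀ w ∈ SigF (P.f (γ m 1)) ∩ sq R1, |w.re| < R0 ∧ |w.im| < R0) ∧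
      ∀ w ∈ SigF (P.f (γ m 1)) ∩ sq R1, SimpleCV P (γ m 1) w := by
  have m1 : (1 : ℝ) ∈ Icc (0 : ℝ) 1 := by simp
  have h1 := ev_le2 fun k hk => ann_ev (R1 := R1) (hγ k hk) (hN k hk) (hS k hk)
  have hft := hfin.fintype
  set f : Fin (Fintype.card (SigF (f0 (γ m 1)))) → ℂ :=
    fun i => ((Fintype.equivFin (SigF (f0 (γ m 1)))).symm i : ℂ) with hf
  have hfi : Function.Injective f := fun i j hij =>
    (Fintype.equivFin (SigF (f0 (γ m 1)))).symm.injective (Subtype.ext hij)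
  have h2 := nearQ_ev (hN m le_rfl 1 m1) hfi (fun w hw =>
      ⟨Fintype.equivFin (SigF (f0 (γ m 1))) ⟨w, hw⟩, by rw [hf]; simp⟩)
    (fun j => hS m le_rfl 1 m1 ((Fintype.equivFin (SigF (f0 (γ m 1)))).symm j).2) hR
  obtain ⟨δ, hδ⟩ := h2.exists
  filter_upwards [h1, hδ] with en a1 a2
  filter_upwards [a1, a2] with eta b1 b2
  rintro P rfl rfl
  have H := b2 P rfl rfl
  refine ⟨fun k hk s hs => ⟨(b1 k hk s hs).1, fun z hz => (b1 k hk s hs).2 z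
    ⟨⟨hz.1.1.le, hz.1.2.le⟩, fun h => hz.2 ⟨h.1.le, h.2.le⟩⟩⟩, H.fin, H.sub, H.simple⟩

/-- the transports of a plane at the end of a chain, with a reparametrisation -/
theorem trp_of {P : Prm} {q₀ : Tup n l} {z₀ : ℂ} {R0 R1 : ℝ} {m : ℕ} {γ : ℕ → ℝ → Tup n l}
    (D : EvD P q₀ z₀ R0 R1 m γ) {e : ℕ → ℝ → ℝ} (ec : ∀ k ≤ m, Continuous (e k))
    (em : ∀ k ≤ m, MapsTo (e k) (Icc 0 1) (Icc 0 1)) (e0 : ∀ k ≤ m, e k 0 = 0)
    (e1 : ∀ k ≤ m, e k 1 = 1) {x : Fnl (n + 1)} (hx : x ∈ baseV P q₀ z₀ R0 R1)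
    {J₀ : ℂ → Fnl (n + 1)} (hJ : ∀ z ∈ sann R0 R1, D.U x 0 (z, 0) = J₀ z) :
    Trp (ULS P n l) m (fun k p => (γ k (e k p.1), p.2)) (sann R0 R1) J₀ (D.pl.sol x) := by
  refine ⟨fun k p => D.U x k (p.2, e k p.1), fun k hk => ?_, fun k hk z hz => ?_,
    fun z hz => ?_, fun z hz => ?_⟩
  · exact ((D.tr x hx).par k hk).comp (g := fun p : ℝ × ℂ => (p.2, e k p.1))
      (continuous_snd.prodMk ((ec k hk).comp continuous_fst)).continuousOn
      fun p hp => ⟨hp.2, em k hk hp.1⟩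
  · show D.U x k (z, e k 1) = D.U x (k + 1) (z, e (k + 1) 0)
    rw [e1 k hk.le, e0 (k + 1) hk]
    exact (D.tr x hx).join k hk z hz
  · show D.U x 0 (z, e 0 0) = _
    rw [e0 0 (Nat.zero_le m)]
    exact hJ z hz
  · show D.U x m (z, e m 1) = D.U x m (z, 1)
    rw [e1 m le_rfl]

/-- the sections at the base tuple do not depend on the chain -/
theorem base_eq {P : Prm} {q₀ : Tup n l} {z₀ : ℂ} {R0 R1 : ℝ} {m m' : ℕ}
    {γ γ' : ℕ → ℝ → Tup n l} (D : EvD P q₀ z₀ R0 R1 m γ) (D' : EvD P q₀ z₀ R0 R1 m' γ')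
    {x : Fnl (n + 1)} (hx : x ∈ baseV P q₀ z₀ R0 R1) :
    ∀ z ∈ sann R0 R1, D'.U x 0 (z, 0) = D.U x 0 (z, 0) := by
  have h0 : 0 ≤ R0 := by
    rw [← D.R0_eq]
    exact D.pd.hR0.le
  have m0 : (0 : ℝ) ∈ Icc (0 : ℝ) 1 := by simp
  have key : ∀ {m : ℕ} {γ : ℕ → ℝ → Tup n l} (D : EvD P q₀ z₀ R0 R1 m γ),
      (ULS P n l).Par (fun z => (q₀, z)) (sann R0 R1) fun z => D.U x 0 (z, 0) := by
    intro m γ D
    have h1 := ((D.tr x hx).par 0 (Nat.zero_le m)).comp (g := fun z : ℂ => (z, (0 : ℝ)))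
      (R := sann R0 R1) (by fun_prop) fun z hz => ⟨hz, m0⟩
    have h2 : ((fun p : ℂ × ℝ => (γ 0 p.2, p.1)) ∘ fun z : ℂ => (z, (0 : ℝ))) =
        fun z => (q₀, z) := by
      funext z
      show (γ 0 0, z) = (q₀, z)
      rw [D.base]
    rw [h2] at h1
    exact h1
  have hX : MapsTo (fun z : ℂ => (q₀, z)) (sann R0 R1) (ULS P n l).X := by
    intro z hz
    have h3 := D.reg 0 (Nat.zero_le m) 0 m0 z hz
    rw [D.base] at h3
    exact h3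
  intro z hz
  exact LS.Par.unique (preconn_sann h0) (by fun_prop) hX (key D') (key D) D.z₀_mem
    (by rw [D.start x hx, D'.start x hx]) hz

section Spaces

variable {Phi : MvPolynomial (Ix n l) ℂ} {RS : RootSys Phi} {m : ℕ} {γ γ' : ℕ → ℝ → Tup n l}
  {e : ℕ → ℝ → ℝ} {z z' : ℕ → Fin RS.M → ℝ → ℂ}

/-- THE SPACES OF AN EVENT FOR TWO INPUTS WITH THE SAME WORDS -/
theorem MatchL_spaces (hPhi : GoodPhi Phi) (H : Lab.MatchL RS m γ γ' e z z')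
    (hc : ∀ k ≤ m, Continuous (γ k)) (hc' : ∀ k ≤ m, Continuous (γ' k))
    (hP : ∀ k ≤ m, ∀ s ∈ Icc (0 : ℝ) 1, eval (cfs (γ k s)) Phi ≠ 0)
    (hP' : ∀ k ≤ m, ∀ s ∈ Icc (0 : ℝ) 1, eval (cfs (γ' k s)) Phi ≠ 0)
    (hj : ∀ k < m, γ k 1 = γ (k + 1) 0) (hj' : ∀ k < m, γ' k 1 = γ' (k + 1) 0)
    (h0 : γ 0 0 = γ' 0 0) {q q' : RTup n l} (hq : γ m 1 = tC q) (hq' : γ' m 1 = tC q')
    {α β : Fin RS.M} (a0 : 0 ≤ (z m α 1).im) (b0 : (z m β 1).im ≤ 0)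
    (cola : ∀ w ∈ SigF (f0 (tC q)), w.re = (z m α 1).re → 0 ≤ w.im → ¬ w.im < (z m α 1).im)
    (colb : ∀ w ∈ SigF (f0 (tC q)), w.re = (z m β 1).re → w.im ≤ 0 → ¬ (z m β 1).im < w.im)
    {Ka Kb Ka' Kb' : Set ℂ} (ka : IsCompact Ka) (kb : IsCompact Kb) (ka' : IsCompact Ka')
    (kb' : IsCompact Kb') (sa : Ka ∩ SigF (f0 (tC q)) ⊆ {z m α 1})
    (sb : Kb ∩ SigF (f0 (tC q)) ⊆ {z m β 1}) (sa' : Ka' ∩ SigF (f0 (tC q')) ⊆ {z' m α 1})
    (sb' : Kb' ∩ SigF (f0 (tC q')) ⊆ {z' m β 1}) :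
    ∃ Rm > 0, ∀ R0 R1 : ℝ, Rm ≤ R0 → R0 < R1 →
      ∀ᶠ en in 𝓝[>] (0 : ℝ), ∀ᶠ eta in 𝓝[>] (0 : ℝ), ∀ P : Prm, P.en = en → P.eta = eta →
      ∀ (q₀ : Tup n l) (z₀ : ℂ) (D : EvD P q₀ z₀ R0 R1 m γ) (D' : EvD P q₀ z₀ R0 R1 m γ'),
        D.a ∈ Ka → D.b ∈ Kb → D'.a ∈ Ka' → D'.b ∈ Kb' →
        D.pl.EE = D'.pl.EE ∧ D.pl.UU = D'.pl.UU ∧ D.pl.LL = D'.pl.LL := by
  have m0 : (0 : ℝ) ∈ Icc (0 : ℝ) 1 := by simp
  have m1 : (1 : ℝ) ∈ Icc (0 : ℝ) 1 := by simp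
  obtain ⟨Rm, hRm, hconf⟩ := H.conf
  refine ⟨Rm, hRm, fun R0 R1 hR0 hR1 => ?_⟩
  obtain ⟨R, hR2, hR3⟩ := exists_between hR1
  have hRpos : 0 ≤ R := by linarith
  obtain ⟨B, B', hB, hB', -⟩ := hconf Rm le_rfl
  obtain ⟨C, C', hC, hC', hsame⟩ := hconf R (by linarith)
  -- the true labels are in the small square
  have zR : ∀ j, z m j 1 ∈ sq R0 := fun j => by
    rw [← hB m le_rfl]
    exact ⟨((B m).re_lt 1 m1 j).trans_le hR0, ((B m).im_lt 1 m1 j).trans_le hR0⟩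
  have zR' : ∀ j, z' m j 1 ∈ sq R0 := fun j => by
    rw [← hB' m le_rfl]
    exact ⟨((B' m).re_lt 1 m1 j).trans_le hR0, ((B' m).im_lt 1 m1 j).trans_le hR0⟩
  have sgn := H.sgn hq hq'
  have hsg : SameSgn (C m) (C' m) := fun j => by
    rw [hC m le_rfl, hC' m le_rfl]
    exact sgn j
  have hN : ∀ k ≤ m, ∀ s ∈ Icc (0 : ℝ) 1, Nice (γ k s) := fun k hk s hs => hPhi _ (hP k hk s hs)
  have hN' : ∀ k ≤ m, ∀ s ∈ Icc (0 : ℝ) 1, Nice (γ' k (e k s)) := fun k hk s hs =>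
    hPhi _ (hP' k hk _ (H.e_maps k hk hs))
  have hem := H.e1 m le_rfl
  -- the column conditions of the second input
  have same1 := H.same m le_rfl 1 m1
  have a0' : 0 ≤ (z' m α 1).im := not_lt.1 fun h => not_lt.2 a0 ((sgn α).2.2 h)
  have b0' : (z' m β 1).im ≤ 0 := not_lt.1 fun h => not_lt.2 b0 ((sgn β).1.2 h)
  have re_eq : ∀ i j, (z' m i 1).re = (z' m j 1).re → (z m i 1).re = (z m j 1).re := by
    intro i j h
    have h1 := (same1 i j).1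
    have h2 := (same1 j i).1
    simp only at h1 h2
    rw [h] at h1 h2
    exact le_antisymm (not_lt.1 fun h3 => lt_irrefl _ (h2.1 h3))
      (not_lt.1 fun h3 => lt_irrefl _ (h1.1 h3))
  have tr : ∀ j, z' m j 1 ∈ SigF (f0 (γ' m 1)) → z m j 1 ∈ SigF (f0 (tC q)) := fun j h => by
    rw [← hq]
    exact (H.true_iff j).2 h
  -- the choice of `δ`
  obtain ⟨δ₀, hδ₀, hmatch⟩ := match_spaces (E := Tup n l × ℂ) (F := Fnl (n + 1)) hRpos m C C'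
    hsame (fun j => by rw [hC 0 (Nat.zero_le m), hC' 0 (Nat.zero_le m)]; exact H.start j) hsg
  have e1 : ∀ᶠ δ in 𝓝[>] (0 : ℝ), δ ≤ δ₀ := by
    filter_upwards [Ioo_mem_nhdsGT hδ₀] with δ hδ
    exact hδ.2.le
  have e2 := nearQ_ev (hN m le_rfl 1 m1) H.inj (by
    rw [← H.range]
    exact RS.sub _ (hP m le_rfl 1 m1)) zR hR1
  have e2' := nearQ_ev (hPhi _ (hP' m le_rfl 1 m1)) H.inj' (by
    rw [← H.range']
    exact RS.sub _ (hP' m le_rfl 1 m1)) zR' hR1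
  have gap : ∀ (y : Fin RS.M → ℂ), ∀ᶠ δ in 𝓝[>] (0 : ℝ), ∀ j, (y j).im ≠ 0 → δ ≤ |(y j).im| := by
    intro y
    refine eventually_all.2 fun j => ?_
    by_cases hy : (y j).im = 0
    · exact Eventually.of_forall fun _ h => absurd hy h
    · filter_upwards [Ioo_mem_nhdsGT (abs_pos.2 hy)] with δ hδ _
      exact hδ.2.le
  have s0 : ∀ᶠ δ in 𝓝[>] (0 : ℝ), 0 < δ := eventually_mem_nhdsWithin
  obtain ⟨δ, hδ, hδ1, hδ2, hδ2', g, g'⟩ := (s0.and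
    (e1.and (e2.and (e2'.and ((gap fun j => z m j 1).and (gap fun j => z' m j 1)))))).exists
  -- the conditions on `en`, `eta`
  have u1 := ev_le2 fun k hk => ok_ev (C := C k) hδ (hc k hk).continuousOn (hN k hk) (by
    intro s hs
    rw [hC k hk, ← (H.lab k hk).range s hs]
    exact RS.sub _ (hP k hk s hs))
  have u2 := ev_le2 fun k hk => ok_ev (C := C' k) (γ := fun s => γ' k (e k s)) hδ
    ((hc' k hk).comp (H.e_cont k hk)).continuousOn (hN' k hk) (by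
    intro s hs
    rw [hC' k hk, ← (H.lab' k hk).range s hs]
    exact RS.sub _ (hP' k hk _ (H.e_maps k hk hs)))
  have nq : Nice (tC q) := by rw [← hq]; exact hN m le_rfl 1 m1
  have nq' : Nice (tC q') := by rw [← hq']; exact hPhi _ (hP' m le_rfl 1 m1)
  have v1 := compact_ev nq ka sa hδ
  have v2 := compact_ev nq kb sb hδ
  have v3 := compact_ev nq' ka' sa' hδ
  have v4 := compact_ev nq' kb' sb' hδ
  filter_upwards [hδ2, hδ2', u1, u2, v1, v2, v3, v4] with en x1 x2 x3 x4 x5 x6 x7 x8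
  filter_upwards [x1, x2, x3, x4, x5, x6, x7, x8] with eta y1 y2 y3 y4 y5 y6 y7 y8
  rintro P rfl rfl q₀ z₀ D D' da db da' db'
  have Q1 := y1 P rfl rfl
  have Q2 := y2 P rfl rfl
  have la : At (C m) δ 1 α D.a := by
    have h1 := y5 D.a ⟨by have := D.ha.1; rwa [hq] at this, da⟩
    unfold At
    rw [hC m le_rfl]
    exact h1
  have lb : At (C m) δ 1 β D.b := by
    have h1 := y6 D.b ⟨by have := D.hb.1; rwa [hq] at this, db⟩
    unfold At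
    rw [hC m le_rfl]
    exact h1
  have la' : At (C' m) δ 1 α D'.a := by
    have h1 := y7 D'.a ⟨by have := D'.ha.1; rwa [hq'] at this, da'⟩
    unfold At
    rw [hC' m le_rfl]
    exact h1
  have lb' : At (C' m) δ 1 β D'.b := by
    have h1 := y8 D'.b ⟨by have := D'.hb.1; rwa [hq'] at this, db'⟩
    unfold At
    rw [hC' m le_rfl]
    exact h1
  have L : LabEv (C m) δ D.pl α β := by
    refine NearQ.labEv D hq (by rw [hC m le_rfl]; exact Q1) hR2 hR3 (by rw [hC m le_rfl]; exact g)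
      la lb (by rw [hC m le_rfl]; exact a0) (by rw [hC m le_rfl]; exact b0) ?_ ?_
    · intro j h1
      rw [hC m le_rfl] at h1 ⊢
      rw [hq] at h1
      exact cola _ h1
    · intro j h1
      rw [hC m le_rfl] at h1 ⊢
      rw [hq] at h1
      exact colb _ h1
  have L' : LabEv (C' m) δ D'.pl α β := by
    refine NearQ.labEv D' hq' (by rw [hC' m le_rfl]; exact Q2) hR2 hR3
      (by rw [hC' m le_rfl]; exact g') la' lb' (by rw [hC' m le_rfl]; exact a0')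
      (by rw [hC' m le_rfl]; exact b0') ?_ ?_
    · intro j h1 h2 h3 h4
      rw [hC' m le_rfl] at h1 h2 h3 h4
      refine cola _ (tr j h1) (re_eq j α h2) ?_ ((same1 j α).2.2 h4)
      exact not_lt.1 fun h => not_lt.2 h3 ((sgn j).2.1 h)
    · intro j h1 h2 h3 h4
      rw [hC' m le_rfl] at h1 h2 h3 h4
      refine colb _ (tr j h1) (re_eq j β h2) ?_ ((same1 β j).2.2 h4)
      exact not_lt.1 fun h => not_lt.2 h3 ((sgn j).1.1 h)
  refine hmatch δ hδ hδ1 (ULS P n l) (fun k p => (γ k p.1, p.2))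
    (fun k p => (γ' k (e k p.1), p.2)) ⟨fun k hk => y3 k hk P rfl rfl, ?_, ?_⟩
    ⟨fun k hk => y4 k hk P rfl rfl, ?_, ?_⟩ ?_ D.pl D'.pl rfl (sann R0 R1) ?_ ?_ ?_ ?_ ?_ α β L L'
  · intro k hk j
    rw [hC k hk.le, hC (k + 1) hk]
    exact H.join k hk j
  · intro k hk w
    show (γ k 1, w) = (γ (k + 1) 0, w)
    rw [hj k hk]
  · intro k hk j
    rw [hC' k hk.le, hC' (k + 1) hk]
    exact H.join' k hk j
  · intro k hk w
    show (γ' k (e k 1), w) = (γ' (k + 1) (e (k + 1) 0), w)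
    rw [H.e1 k hk.le, H.e0 (k + 1) hk, hj' k hk]
  · intro w
    show (γ 0 0, w) = (γ' 0 (e 0 0), w)
    rw [H.e0 0 (Nat.zero_le m), h0]
  · refine ⟨⟨?_, ?_⟩, fun h => ?_⟩
    · show |-R| < R1
      rw [abs_neg, abs_of_nonneg hRpos]
      exact hR3
    · show |R| < R1
      rw [abs_of_nonneg hRpos]
      exact hR3
    · have h1 : |R| ≤ R0 := h.2
      rw [abs_of_nonneg hRpos] at h1
      linarith
  · refine ⟨⟨?_, ?_⟩, fun h => ?_⟩
    · show |R| < R1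
      rw [abs_of_nonneg hRpos]
      exact hR3
    · show |-R| < R1
      rw [abs_neg, abs_of_nonneg hRpos]
      exact hR3
    · have h1 : |R| ≤ R0 := h.1
      rw [abs_of_nonneg hRpos] at h1
      linarith
  · intro x hx
    refine ⟨fun w => D.U x 0 (w, 0), ?_, ?_⟩
    · exact trp_of D (e := fun _ s => s) (fun _ _ => continuous_id) (fun _ _ _ h => h)
        (fun _ _ => rfl) (fun _ _ => rfl) hx fun w _ => rfl
    · exact trp_of D' H.e_cont H.e_maps H.e0 H.e1 hx fun w hw => base_eq D D' hx w hw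
  · exact link_toPlane D.pd (ULS_lin P) (ULS_hol P) evQ_inj
  · have h1 := link_toPlane D'.pd (ULS_lin P) (ULS_hol P) evQ_inj
    show Link _ (fun w => (γ' m (e m 1), w)) _
    rw [hem]
    exact h1

end Spaces

end Pool.Agent.QC.Grid
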