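import Pool.Agent.QC.Asm.Event
import Pool.Agent.QC.Cyc.FrameCycle
import Pool.Agent.QC.Cyc.JumpC

/-!
# MP_7c50a9_lc: assembly: y-parts in the frames, connectedness of the square annulus
-/

namespace Pool.Agent.QC

open MvPolynomial Filter Topology Set

/-! ## The square annulus -/

theorem isPreconnected_sann {R0 R1 : ℝ} (h0 : 0 < R0) (h1 : R0 < R1) :
    IsPreconnected (sann R0 R1) :=
  sann_preconn h0 h1

theorem sann_hz {R0 R1 : ℝ} {z : ℂ} (hz : z ∈ sann R0 R1) : z.im ≠ 0 ∨ R0 < |z.re| := by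
  by_cases h : z.im = 0
  · right
    by_contra hc
    exact hz.2 ⟨not_lt.mp hc, by
      rw [h, abs_zero]
      exact (abs_nonneg _).trans (not_lt.mp hc)⟩
  · exact Or.inl h

/-! ## The half circle -/

theorem thc_zero (tv κ : ℝ) : thc tv κ 0 = ((tv - κ : ℝ) : ℂ) := by
  simp [thc]

theorem thc_one (tv κ : ℝ) : thc tv κ 1 = ((tv + κ : ℝ) : ℂ) := by
  simp [thc, Complex.exp_neg, Complex.exp_pi_mul_I]

theorem continuous_thc (tv κ : ℝ) : Continuous (thc tv κ) := by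
  unfold thc
  fun_prop

theorem thc_mem {tv κ : ℝ} (hκ : 0 < κ) {s : ℝ} (hs : s ∈ Icc (0 : ℝ) 1) :
    thc tv κ s ∈ hc tv κ := by
  have e : thc tv κ s - tv = -(κ * Complex.exp (((-(Real.pi * s) : ℝ) : ℂ) * Complex.I)) := by
    simp [thc]
  refine ⟨?_, ?_⟩
  · rw [e, norm_neg, norm_mul, Complex.norm_exp_ofReal_mul_I, mul_one, Complex.norm_real,
      Real.norm_eq_abs, abs_of_pos hκ]
  · have h1 : (thc tv κ s).im = (thc tv κ s - tv).im := by simp
    have h2 : 0 ≤ Real.sin (Real.pi * s) := Real.sin_nonneg_of_nonneg_of_le_pi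
      (mul_nonneg Real.pi_pos.le hs.1) (by nlinarith [Real.pi_pos, hs.2])
    rw [h1, e, Complex.neg_im, Complex.im_ofReal_mul, Complex.exp_ofReal_mul_I_im, Real.sin_neg]
    nlinarith

variable {n l : ℕ} {P : Prm} {q₀ : Tup n l} {z₀ : ℂ} {R0 R1 : ℝ}

theorem shT_addT' {R : Type*} [CommRing R] (c : Fin n → R) (q : Fin (l + 1) → QP R (n + 1))
    (t : R) : shT c (addT q t) = addT (shT c q) t := by
  funext m
  by_cases hm : m = 0
  · subst hm
    simp [shT, shQ, addT]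
  · simp [shT, shQ, addT, hm]

theorem yp_shE (z : ℂ) (J : Fnl (n + 1)) : yp z (shE n z J) = ymap z J := by
  refine LinearMap.ext fun Q => ?_
  simp only [yp, ymap, LinearMap.comp_apply, LinearMap.mulLeft_apply, shE_apply,
    AlgHom.toLinearMap_apply, map_mul, map_sub, Loc.shift_X_last, Loc.shift_C, add_sub_cancel_right]

/-- The y-part of the real cycle. -/
theorem yp_UJ {q : RTup n l} {O : Set (Fin (n + 1) → ℝ)} (h : Pr q O) {R : ℝ}
    (hR : ∀ x ∈ O, 0 ≤ fR 0 0 q x → |x (Fin.last n)| ≤ R) {z : ℂ}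
    (hz : z.im ≠ 0 ∨ R < |z.re|) :
    yp z (UJ P q O z) = yU P.a (fR P.en P.eta q) (cyc P q O) := by
  rw [UJ, yp_shE, JC]
  exact ymap_JU h.piece h.closure.1 (Cyc.cyc_bound hR) hz

theorem continuous_addT2 : Continuous fun p : Tup n l × ℂ => addT p.1 p.2 := by
  refine continuous_pi fun m => ?_
  by_cases hm : m = 0
  · subst hm
    have h1 : Continuous fun p : Tup n l × ℂ => p.1 0 := (continuous_apply 0).comp continuous_fst
    simp only [addT, if_true]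
    exact (continuous_fst.comp h1).prodMk ((continuous_fst.comp (continuous_snd.comp h1)).prodMk
      ((continuous_snd.comp (continuous_snd.comp h1)).add continuous_snd))
  · simp only [addT, hm, if_false]
    exact (continuous_apply m).comp continuous_fst

/-- Transport of the y-part of a real cycle along a path of levels and along the arc of frames. -/
theorem frame_y {q : RTup n l} {O : Set (Fin (n + 1) → ℝ)} {tb : ℝ} (h : Pr (addT q tb) O)
    {c : Fin n → ℝ} {ω : ℝ} (hω : 0 < ω) {θ : ℝ → ℂ} (hθ : ContinuousOn θ (Icc 0 1))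
    (hθ0 : θ 0 = (tb : ℂ))
    (hC : ∀ s ∈ Icc (0 : ℝ) 1, ∀ x y : ℝ, 0 ≤ x → x ≤ 1 → 0 ≤ y → y ≤ ω * x * (1 - x) →
      SingF (P.f (addT (shT (((x : ℂ) + Complex.I * y) • xC c) (tC q)) (θ s))) = ∅)
    {Y0 Y1 Y2 : ℝ → Fnl (n + 1)}
    (hY0 : (ZLS P n l).Par (fun s => addT (tC q) (θ s)) (Icc 0 1) Y0)
    (h00 : Y0 0 = yU P.a (fR P.en P.eta (addT q tb)) (cyc P (addT q tb) O))
    (hY1 : (ZLS P n l).Par (fun s => addT (tC (shT c q)) (θ s)) (Icc 0 1) Y1)
    (h10 : Y1 0 = yU P.a (fR P.en P.eta (addT (shT c q) tb))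
      (cyc P (addT (shT c q) tb) (shX c '' O)))
    (hY2 : (ZLS P n l).Par (fun s => pathC (addT (tC q) (θ 1)) (xC c) ω s) (Icc 0 1) Y2)
    (h20 : Y2 0 = Y0 1) : Y2 1 = Y1 1 := by
  have h0I : (0 : ℝ) ∈ Icc (0 : ℝ) 1 := ⟨le_rfl, zero_le_one⟩
  have h1I : (1 : ℝ) ∈ Icc (0 : ℝ) 1 := ⟨zero_le_one, le_rfl⟩
  set H : ℂ × ℝ → Tup n l := fun p => addT (Cyc.HF q c p.1) (θ p.2) with hH
  have hθ' : ContinuousOn (fun p : ℂ × ℝ => θ p.2) (Cyc.Dω ω ×ˢ Icc (0 : ℝ) 1) :=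
    hθ.comp continuousOn_snd fun p hp => hp.2
  have hHc : ContinuousOn H (Cyc.Dω ω ×ˢ Icc (0 : ℝ) 1) := by
    have h1 : Continuous fun p : Tup n l × ℂ => addT p.1 p.2 := continuous_addT2
    have h2 : ContinuousOn (fun p : ℂ × ℝ => (Cyc.HF q c p.1, θ p.2))
        (Cyc.Dω ω ×ˢ Icc (0 : ℝ) 1) :=
      ((Cyc.continuous_HF q c).comp continuous_fst).continuousOn.prodMk hθ'
    exact h1.comp_continuousOn h2
  have hHX : MapsTo H (Cyc.Dω ω ×ˢ Icc (0 : ℝ) 1) (ZLS P n l).X := by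
    rintro ⟨ζ, s⟩ ⟨⟨g1, g2, g3, g4⟩, hs⟩
    have := hC s hs ζ.re ζ.im g1 g2 g3 g4
    have e : (ζ.re : ℂ) + Complex.I * ζ.im = ζ := by
      rw [mul_comm]
      exact Complex.re_add_im ζ
    rw [e] at this
    exact (mem_ZLS_X P).2 this
  have h0D : (0 : ℂ) ∈ Cyc.Dω ω := by
    have := Cyc.real_mem hω h0I
    rwa [Complex.ofReal_zero] at this
  have h1D : (1 : ℂ) ∈ Cyc.Dω ω := by
    have := Cyc.real_mem hω h1I
    rwa [Complex.ofReal_one] at this
  have hst : StarConvex ℝ ((0 : ℂ), (0 : ℝ)) (Cyc.Dω ω ×ˢ Icc (0 : ℝ) 1) :=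
    (Cyc.star_Dω hω).prod ((convex_Icc (0 : ℝ) 1).starConvex h0I)
  have e0 : Cyc.HF q c 0 = tC q := by
    rw [Cyc.HF, zero_smul, Cyc.shT_zero]
  have e1 : Cyc.HF q c 1 = tC (shT c q) := by
    have := Cyc.HF_real q c 1
    rwa [Complex.ofReal_one, one_smul] at this
  have hmem : Y0 0 ∈ (ZLS P n l).V (H (0, 0)) := by
    have := hY0.mem h0I
    rw [hH]
    simp only [e0]
    exact this
  obtain ⟨U, hU, hU0⟩ := LS.Par.exists_star (A := ZLS P n l) hst ⟨h0D, h0I⟩ hHc hHX hmem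
  -- frame zero
  have a1 : (ZLS P n l).Par (fun s => addT (tC q) (θ s)) (Icc 0 1) (fun s => U (0, s)) := by
    refine (hU.comp (g := fun s : ℝ => ((0 : ℂ), s)) (R := Icc 0 1)
      (Continuous.prodMk_right (0 : ℂ)).continuousOn fun s hs => ⟨h0D, hs⟩).congr_map fun s _ => ?_
    simp only [hH, Function.comp_apply, e0]
  have cA : ∀ q' : Tup n l, ContinuousOn (fun s => addT q' (θ s)) (Icc (0 : ℝ) 1) := fun q' =>
    continuous_addT2.comp_continuousOn (continuousOn_const.prodMk hθ)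
  have a2 : Y0 1 = U (0, 1) := LS.Par.unique isPreconnected_Icc (cA _) (fun s hs => by
      have := hHX (show ((0 : ℂ), s) ∈ Cyc.Dω ω ×ˢ Icc (0 : ℝ) 1 from ⟨h0D, hs⟩)
      simp only [hH, e0] at this
      exact this) hY0 a1 h0I (by rw [hU0]) h1I
  -- the real frames at the first level
  have b1 : Y1 0 = U (1, 0) := by
    set J : Set ℝ := {s | SingF (P.f (tC (shT (s • c) (addT q tb)))) = ∅} with hJ
    have hreal : ∀ s : ℝ, H ((s : ℂ), 0) = tC (shT (s • c) (addT q tb)) := by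
      intro s
      simp only [hH, Cyc.HF_real, hθ0]
      rw [shT_addT', Cyc.tC_addT]
    have hcR : Continuous fun s : ℝ => tC (shT (s • c) (addT q tb)) := by
      have h3 : (fun s : ℝ => tC (shT (s • c) (addT q tb))) =
          fun s : ℝ => Cyc.HF (addT q tb) c (s : ℂ) := by
        funext s
        rw [Cyc.HF_real]
      rw [h3]
      exact (Cyc.continuous_HF _ c).comp Complex.continuous_ofReal
    have hJo : IsOpen J := by
      have h3 : J = (fun s : ℝ => tC (shT (s • c) (addT q tb))) ⁻¹' (ZLS P n l).X := by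
        ext s
        exact (mem_ZLS_X P).symm
      rw [h3]
      exact (ZLS P n l).isOpen_X.preimage hcR
    have hIJ : Icc (0 : ℝ) 1 ⊆ J := fun s hs => by
      have h3 := hHX (show ((s : ℂ), (0 : ℝ)) ∈ Cyc.Dω ω ×ˢ Icc (0 : ℝ) 1 from
        ⟨Cyc.real_mem hω hs, h0I⟩)
      rw [hreal] at h3
      exact (mem_ZLS_X P).1 h3
    have hfam := Cyc.rfam_restrict (Cyc.Pr_frame (P := P) h c) hJo (subset_univ J)
    have hZ := cyc_Z hfam (fun s hs' => hs')
    have hZ1 : (ZLS P n l).Par (fun s : ℝ => tC (shT (s • c) (addT q tb))) (Icc 0 1)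
        (fun s => yU P.a (fR P.en P.eta (shT (s • c) (addT q tb)))
          (cyc P (shT (s • c) (addT q tb)) (shX (s • c) '' O))) := by
      refine (hZ.mono hIJ).congr fun s hs' => ?_
      have h3 := Cyc.fib_restrict (T := {p : ℝ × (Fin (n + 1) → ℝ) |
        p.2 ∈ cyc P (shT (p.1 • c) (addT q tb)) (shX (p.1 • c) '' O)}) (hIJ hs')
      exact congrArg (yU P.a (fR P.en P.eta (shT (s • c) (addT q tb)))) h3
    have hUR : (ZLS P n l).Par (fun s : ℝ => tC (shT (s • c) (addT q tb))) (Icc 0 1)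
        (fun s => U ((s : ℂ), 0)) := by
      refine (hU.comp (g := fun s : ℝ => ((s : ℂ), (0 : ℝ))) (R := Icc (0 : ℝ) 1)
        (Complex.continuous_ofReal.prodMk continuous_const).continuousOn
        fun s hs' => ⟨Cyc.real_mem hω hs', h0I⟩).congr_map fun s _ => hreal s
    have hR1 : yU P.a (fR P.en P.eta (shT ((1 : ℝ) • c) (addT q tb)))
        (cyc P (shT ((1 : ℝ) • c) (addT q tb)) (shX ((1 : ℝ) • c) '' O)) = U (((1 : ℝ) : ℂ), 0) :=
      LS.Par.unique isPreconnected_Icc hcR.continuousOn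
        (fun s hs' => (mem_ZLS_X P).2 (hIJ hs')) hZ1 hUR h0I
        (by
          simp only [Complex.ofReal_zero, zero_smul]
          rw [hU0, h00, Cyc.shT_zero]
          have : shX (0 : Fin n → ℝ) '' O = O := by
            ext x
            constructor
            · rintro ⟨y, hy, rfl⟩
              rwa [Cyc.shX_zero]
            · intro hx
              exact ⟨x, hx, Cyc.shX_zero x⟩
          rw [this]) h1I
    rw [one_smul, Complex.ofReal_one] at hR1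
    rw [← hR1, h10, ← shT_addT']
  -- frame one
  have c1 : (ZLS P n l).Par (fun s => addT (tC (shT c q)) (θ s)) (Icc 0 1)
      (fun s => U (1, s)) := by
    refine (hU.comp (g := fun s : ℝ => ((1 : ℂ), s)) (R := Icc 0 1)
      (Continuous.prodMk_right (1 : ℂ)).continuousOn fun s hs => ⟨h1D, hs⟩).congr_map fun s _ => ?_
    simp only [hH, Function.comp_apply, e1]
  have c2 : Y1 1 = U (1, 1) := LS.Par.unique isPreconnected_Icc (cA _) (fun s hs => by
      have := hHX (show ((1 : ℂ), s) ∈ Cyc.Dω ω ×ˢ Icc (0 : ℝ) 1 from ⟨h1D, hs⟩)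
      simp only [hH, e1] at this
      exact this) hY1 c1 h0I b1 h1I
  -- the arc at the last level
  have hpc : ∀ s, pathC (addT (tC q) (θ 1)) (xC c) ω s = H (arc ω 1 s, 1) := by
    intro s
    simp only [pathC, hH, Cyc.HF]
    rw [shT_addT']
  have d1 : (ZLS P n l).Par (fun s => pathC (addT (tC q) (θ 1)) (xC c) ω s) (Icc 0 1)
      (fun s => U (arc ω 1 s, 1)) := by
    refine (hU.comp (g := fun s : ℝ => (arc ω 1 s, (1 : ℝ))) (R := Icc (0 : ℝ) 1)
      ((Cyc.continuous_arc ω 1).prodMk continuous_const).continuousOn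
      fun s hs' => ⟨Cyc.arc_mem hω hs', h1I⟩).congr_map fun s _ => ?_
    rw [Function.comp_apply, hpc]
  have d2 : Y2 1 = U (arc ω 1 1, 1) := LS.Par.unique isPreconnected_Icc (by
      have h3 : ContinuousOn (fun s : ℝ => H (arc ω 1 s, 1)) (Icc 0 1) :=
        hHc.comp ((Cyc.continuous_arc ω 1).prodMk continuous_const).continuousOn
          fun s hs' => ⟨Cyc.arc_mem hω hs', h1I⟩
      exact h3.congr fun s _ => hpc s) (fun s hs => by
        rw [hpc]
        exact hHX ⟨Cyc.arc_mem hω hs, h1I⟩) hY2 d1 h0I (by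
        simp only [Cyc.arc_zero_eq]
        rw [h20, a2]) h1I
  rw [d2, Cyc.arc_one_eq, c2]

/-! ## Transport along the chain -/

/-- Two OUT sections with the same y-part at one point are equal. -/
theorem outF_eq {R0 R1 : ℝ} (h0 : 0 < R0) (h1 : 2 * R0 < R1) {q : Tup n l}
    (hX : ∀ z ∈ sann R0 R1, (q, z) ∈ (ULS P n l).X) {J J' : ℂ → Fnl (n + 1)}
    (hJ : (ULS P n l).Par (fun z => (q, z)) (sann R0 R1) J) (ho : OutF evQ R0 R1 J)
    (hJ' : (ULS P n l).Par (fun z => (q, z)) (sann R0 R1) J') (ho' : OutF evQ R0 R1 J') {z : ℂ}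
    (hz : z ∈ sann R0 R1) (hy : yp z (J z) = yp z (J' z)) : ∀ z ∈ sann R0 R1, J z = J' z := by
  have a1 : (ULS P n l).Par (fun z => (q, z)) (sann R0 R1) (fun z => J z + (-1 : ℂ) • J' z) :=
    LS.Par.add (ULS_lin P) (cont_mk q _) hJ (LS.Par.smul (ULS_lin P) (-1 : ℂ) hJ')
  have a2 : OutF evQ R0 R1 (fun z => J z + (-1 : ℂ) • J' z) := by
    intro Q
    obtain ⟨h, b1, b2, b3⟩ := ho Q
    obtain ⟨h', b1', b2', b3'⟩ := ho' Q
    refine ⟨fun z => h z + (-1) * h' z, b1.add (b1'.const_mul _), fun z hz => ?_,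
      by simpa using b3.add (b3'.const_mul (-1))⟩
    simp only [map_add, map_smul, smul_eq_mul]
    rw [b2 hz, b2' hz]
  have a3 := outF_eq_zero P h0 h1 hX a1 a2 hz (by
    have e : yp z (J z + (-1 : ℂ) • J' z) = yp z (J z) + (-1 : ℂ) • yp z (J' z) := rfl
    rw [e, hy, neg_one_smul, add_neg_cancel])
  intro z hz
  have := a3 z hz
  rw [neg_one_smul] at this
  exact add_neg_eq_zero.mp this

variable {γ : ℕ → ℝ → Tup n l} (D : EvD P q₀ z₀ R0 R1 2 γ)

include D in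
theorem EvD.pos : 0 < R0 ∧ R0 < R1 := by
  have h1 := D.pd.hR0
  have h2 := D.pd.hR
  rw [D.R0_eq] at h1 h2
  rw [D.R1_eq] at h2
  exact ⟨h1, h2⟩

theorem EvD.par_s {k : ℕ} (hk : k ≤ 2) {x : Fnl (n + 1)} (hx : x ∈ baseV P q₀ z₀ R0 R1) {z : ℂ}
    (hz : z ∈ sann R0 R1) :
    (ULS P n l).Par (fun s => (γ k s, z)) (Icc 0 1) (fun s => D.U x k (z, s)) :=
  ((D.tr x hx).par k hk).comp (g := fun s : ℝ => (z, s)) (R := Icc 0 1)
    (Continuous.prodMk_right z).continuousOn fun _ hs => ⟨hz, hs⟩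

theorem EvD.par_z {k : ℕ} (hk : k ≤ 2) {x : Fnl (n + 1)} (hx : x ∈ baseV P q₀ z₀ R0 R1) {s : ℝ}
    (hs : s ∈ Icc (0 : ℝ) 1) :
    (ULS P n l).Par (fun z => (γ k s, z)) (sann R0 R1) (fun z => D.U x k (z, s)) :=
  ((D.tr x hx).par k hk).comp (g := fun z : ℂ => (z, s)) (R := sann R0 R1)
    (Continuous.prodMk_left s).continuousOn fun _ hz => ⟨hz, hs⟩

include D in
theorem EvD.cont_s {k : ℕ} (hk : k ≤ 2) (z : ℂ) :
    ContinuousOn (fun s => (γ k s, z)) (Icc (0 : ℝ) 1) :=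
  (D.chain.cont k hk).prodMk continuousOn_const

/-- The first two paths. -/
theorem EvD.at2 {q : RTup n l} {t₀ ω t : ℝ} {H : Set ℂ}
    (hA : γ 0 = pathA q₀ (tC (addT q t₀)) ω) (hB' : γ 1 = pathB (tC q) t₀ (t : ℂ) ω)
    (hB : ∀ s ∈ Icc (0 : ℝ) 1, (t₀ : ℂ) + arc ω ((t : ℂ) - t₀) s ∈ H) {x : Fnl (n + 1)}
    (hx : x ∈ baseV P q₀ z₀ R0 R1) {UA : ℂ × ℝ → Fnl (n + 1)} {W : ℂ × ℂ → Fnl (n + 1)}
    (hUA : (ULS P n l).Par (fun p : ℂ × ℝ => (pathA q₀ (tC (addT q t₀)) ω p.2, p.1))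
      (sann R0 R1 ×ˢ Icc 0 1) UA) (hx0 : UA (z₀, 0) = x)
    (hW : (ULS P n l).Par (fun p : ℂ × ℂ => (addT (tC q) p.2, p.1)) (sann R0 R1 ×ˢ H) W)
    (hW0 : ∀ z ∈ sann R0 R1, W (z, (t₀ : ℂ)) = UA (z, 1)) :
    ∀ z ∈ sann R0 R1, D.U x 2 (z, 0) = W (z, (t : ℂ)) := by
  have h0I : (0 : ℝ) ∈ Icc (0 : ℝ) 1 := ⟨le_rfl, zero_le_one⟩
  have h1I : (1 : ℝ) ∈ Icc (0 : ℝ) 1 := ⟨zero_le_one, le_rfl⟩
  -- path A
  have hUA' : (ULS P n l).Par (fun p : ℂ × ℝ => (γ 0 p.2, p.1)) (sann R0 R1 ×ˢ Icc 0 1) UA := by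
    rw [hA]
    exact hUA
  have a1 : EqOn (fun z => D.U x 0 (z, 0)) (fun z => UA (z, 0)) (sann R0 R1) := by
    refine LS.Par.unique (isPreconnected_sann D.pos.1 D.pos.2) (cont_mk (γ 0 0) _)
      (fun z hz => D.reg 0 (by norm_num) 0 h0I z hz) (D.par_z (by norm_num) hx h0I)
      (hUA'.comp (g := fun z : ℂ => (z, (0 : ℝ))) (R := sann R0 R1)
        (Continuous.prodMk_left (0 : ℝ)).continuousOn fun _ hz => ⟨hz, h0I⟩) D.z₀_mem ?_
    rw [D.start x hx, hx0]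
  have a2 : ∀ z ∈ sann R0 R1, D.U x 0 (z, 1) = UA (z, 1) := fun z hz =>
    LS.Par.unique isPreconnected_Icc (D.cont_s (by norm_num) z)
      (fun s hs => D.reg 0 (by norm_num) s hs z hz) (D.par_s (by norm_num) hx hz)
      (hUA'.comp (g := fun s : ℝ => (z, s)) (R := Icc 0 1)
        (Continuous.prodMk_right z).continuousOn fun _ hs => ⟨hz, hs⟩) h0I (a1 hz) h1I
  -- path B
  intro z hz
  have b1 : (ULS P n l).Par (fun s => (γ 1 s, z)) (Icc 0 1)
      (fun s => W (z, (t₀ : ℂ) + arc ω ((t : ℂ) - t₀) s)) := by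
    have h1 := hW.comp (g := fun s : ℝ => (z, (t₀ : ℂ) + arc ω ((t : ℂ) - t₀) s)) (R := Icc 0 1)
      (continuous_const.prodMk (continuous_const.add (Cyc.continuous_arc ω _))).continuousOn
      fun s hs => ⟨hz, hB s hs⟩
    rw [hB']
    exact h1
  have e0 : (t₀ : ℂ) + arc ω ((t : ℂ) - t₀) 0 = t₀ := by simp [arc]
  have e1 : (t₀ : ℂ) + arc ω ((t : ℂ) - t₀) 1 = t := by simp [arc]
  have b2 := LS.Par.unique isPreconnected_Icc (D.cont_s (k := 1) (by norm_num) z)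
      (fun s hs => D.reg 1 (by norm_num) s hs z hz) (D.par_s (by norm_num) hx hz) b1 h0I (by
        simp only [e0]
        rw [hW0 z hz, ← a2 z hz]
        exact ((D.tr x hx).join 0 (by norm_num) z hz).symm) h1I
  simp only [e1] at b2
  rw [← b2]
  exact ((D.tr x hx).join 1 (by norm_num) z hz).symm

/-- The y-part on the last path. -/
theorem EvD.par_y {x : Fnl (n + 1)} (hx : x ∈ baseV P q₀ z₀ R0 R1) {z : ℂ}
    (hz : z ∈ sann R0 R1) :
    (ZLS P n l).Par (γ 2) (Icc 0 1) (fun s => yp z (D.U x 2 (z, s))) :=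
  Par.yp P (h := fun s => (γ 2 s, z)) (fun s hs => D.reg 2 le_rfl s hs z hz) (D.cont_s le_rfl z)
    (D.par_s le_rfl hx hz)

/-- Comparison at the end of the chain. -/
theorem EvD.eq_end (h1 : 2 * R0 < R1) {x : Fnl (n + 1)} (hx : x ∈ baseV P q₀ z₀ R0 R1)
    {J : ℂ → Fnl (n + 1)} (hJ : (ULS P n l).Par (fun z => (γ 2 1, z)) (sann R0 R1) J)
    (ho : OutF evQ R0 R1 J) {z : ℂ} (hz : z ∈ sann R0 R1)
    (hy : yp z (D.U x 2 (z, 1)) = yp z (J z)) : ∀ z ∈ sann R0 R1, D.U x 2 (z, 1) = J z :=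
  outF_eq D.pos.1 h1 (fun z hz => D.reg 2 le_rfl 1 ⟨zero_le_one, le_rfl⟩ z hz)
    (D.par_z le_rfl hx ⟨zero_le_one, le_rfl⟩) (D.out x hx) hJ ho hz hy

end Pool.Agent.QC
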