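import Pool.Agent.QC.Asm.Event
import Pool.Agent.QC.Asm.VecF
import Pool.Agent.QC.LS.ProdStar

/-!
# MP_7c50a9_lc: assembly, statements part 4: the base vectors of the real cycles
-/

namespace Pool.Agent.QC

open MvPolynomial Filter Topology Set

variable {n l : ℕ} {P : Prm} {q₀ : Tup n l} {z₀ : ℂ} {R0 R1 : ℝ}

/-- `x` is the base vector of the section `J` at the level `t`: transport along path A, then in
the region `H` of levels. -/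
def IsVec (P : Prm) (q₀ : Tup n l) (z₀ : ℂ) (R0 R1 : ℝ) (q : RTup n l) (t₀ ω : ℝ) (H : Set ℂ)
    (x : Fnl (n + 1)) (t : ℝ) (J : ℂ → Fnl (n + 1)) : Prop :=
  ∃ (UA : ℂ × ℝ → Fnl (n + 1)) (W : ℂ × ℂ → Fnl (n + 1)),
    (ULS P n l).Par (fun p : ℂ × ℝ => (pathA q₀ (tC (addT q t₀)) ω p.2, p.1))
      (sann R0 R1 ×ˢ Icc 0 1) UA ∧
    OutF evQ R0 R1 (fun z => UA (z, 0)) ∧ UA (z₀, 0) = x ∧
    (ULS P n l).Par (fun p : ℂ × ℂ => (addT (tC q) p.2, p.1)) (sann R0 R1 ×ˢ H) W ∧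
    (∀ z ∈ sann R0 R1, W (z, (t₀ : ℂ)) = UA (z, 1)) ∧ ∀ z ∈ sann R0 R1, W (z, (t : ℂ)) = J z

/-- The regularity of path A and of the region of levels. -/
structure LevReg (P : Prm) (q₀ : Tup n l) (z₀ : ℂ) (R0 R1 : ℝ) (q : RTup n l) (t₀ ω : ℝ)
    (H : Set ℂ) : Prop where
  R0_pos : 0 < R0
  R_lt : 2 * R0 < R1
  z₀_mem : z₀ ∈ sann R0 R1
  star : ∃ p ∈ H, StarConvex ℝ p H
  t₀_mem : (t₀ : ℂ) ∈ H
  regA : ∀ s ∈ Icc (0 : ℝ) 1, SingF (P.f (pathA q₀ (tC (addT q t₀)) ω s)) = ∅ ∧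
    ∀ z ∈ sann R0 R1, z ∉ SigF (P.f (pathA q₀ (tC (addT q t₀)) ω s))
  regH : ∀ t ∈ H, SingF (P.f (addT (tC q) t)) = ∅ ∧
    ∀ z ∈ sann R0 R1, z ∉ SigF (P.f (addT (tC q) t))

variable {q : RTup n l} {t₀ ω : ℝ} {H : Set ℂ}

theorem vec_addT_cont (q : Tup n l) : Continuous fun t : ℂ => addT q t := by
  refine continuous_pi fun m => ?_
  unfold addT
  by_cases hm : m = 0
  · simp only [hm, if_true]
    fun_prop
  · simp only [hm, if_false]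
    exact continuous_const

theorem vec_pathA_cont (q₀ q₁ : Tup n l) (ω : ℝ) : Continuous (pathA q₀ q₁ ω) := by
  unfold pathA arc
  fun_prop

theorem vec_pathA_zero (q₀ q₁ : Tup n l) (ω : ℝ) : pathA q₀ q₁ ω 0 = q₀ := by
  simp [pathA, arc]

theorem vec_pathA_one (q₀ q₁ : Tup n l) (ω : ℝ) : pathA q₀ q₁ ω 1 = q₁ := by
  simp [pathA, arc]

theorem OutF.congr {F : Type*} [AddCommGroup F] [Module ℂ F] {ι : Type}
    {ev : ι → F →ₗ[ℂ] ℂ} {R0 R1 : ℝ} {J J' : ℂ → F} (h : OutF ev R0 R1 J)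
    (he : ∀ z ∈ sann R0 R1, J z = J' z) : OutF ev R0 R1 J' := fun i => by
  obtain ⟨g, a1, a2, a3⟩ := h i
  exact ⟨g, a1, fun z hz => by rw [a2 hz]; exact congrArg (ev i) (he z hz), a3⟩

theorem IsVec.mem {x : Fnl (n + 1)} {t : ℝ} {J : ℂ → Fnl (n + 1)}
    (h : IsVec P q₀ z₀ R0 R1 q t₀ ω H x t J) (_hR : LevReg P q₀ z₀ R0 R1 q t₀ ω H) :
    x ∈ baseV P q₀ z₀ R0 R1 := by
  obtain ⟨UA, W, h1, h2, h3, h4, h5, h6⟩ := h
  refine ⟨fun z => UA (z, 0), ?_, h2, h3⟩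
  have h7 := par_at h1 (s := 0) (by simp)
  simp only [vec_pathA_zero] at h7
  exact h7

/-- (V1) Existence. -/
theorem exists_vec (hR : LevReg P q₀ z₀ R0 R1 q t₀ ω H) {t : ℝ} (ht : (t : ℂ) ∈ H)
    {J : ℂ → Fnl (n + 1)}
    (hJ : (ULS P n l).Par (fun z => (tC (addT q t), z)) (sann R0 R1) J)
    (ho : OutF evQ R0 R1 J) : ∃ x, IsVec P q₀ z₀ R0 R1 q t₀ ω H x t J := by
  obtain ⟨p, hp, hstar⟩ := hR.star
  have hcW : ContinuousOn (fun x : ℂ × ℂ => (addT (tC q) x.2, x.1)) (sann R0 R1 ×ˢ H) :=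
    (((vec_addT_cont (tC q)).comp continuous_snd).prodMk continuous_fst).continuousOn
  have hXW : ∀ s ∈ H, ∀ z ∈ sann R0 R1, (addT (tC q) s, z) ∈ (ULS P n l).X := fun s hs z hz =>
    (mem_ULS_X P).2 ⟨(hR.regH s hs).1, (hR.regH s hs).2 z hz⟩
  have hcA : ContinuousOn (fun x : ℂ × ℝ => (pathA q₀ (tC (addT q t₀)) ω x.2, x.1))
      (sann R0 R1 ×ˢ Icc 0 1) :=
    (((vec_pathA_cont _ _ _).comp continuous_snd).prodMk continuous_fst).continuousOn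
  have hXA : ∀ s ∈ Icc (0 : ℝ) 1, ∀ z ∈ sann R0 R1,
      (pathA q₀ (tC (addT q t₀)) ω s, z) ∈ (ULS P n l).X := fun s hs z hz =>
    (mem_ULS_X P).2 ⟨(hR.regA s hs).1, (hR.regA s hs).2 z hz⟩
  obtain ⟨W, hW, hWt⟩ := LS.Par.exists_prod_star (A := ULS P n l) hstar hp ht hcW
    (fun x hx => hXW x.2 hx.2 x.1 hx.1) (u₀ := J) (by simpa only [Cyc.tC_addT] using hJ)
  have hW0 : (ULS P n l).Par (fun z => (addT (tC q) (t₀ : ℂ), z)) (sann R0 R1)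
      (fun z => W (z, (t₀ : ℂ))) :=
    hW.comp (g := fun z : ℂ => (z, (t₀ : ℂ))) (by fun_prop) (fun z hz => ⟨hz, hR.t₀_mem⟩)
  obtain ⟨UA, hUA, hUA1⟩ := LS.Par.exists_prod_star (A := ULS P n l) (V := ℝ)
    (H := Icc (0 : ℝ) 1) (p := 1) (t := 1) ((convex_Icc (0 : ℝ) 1).starConvex (by simp))
    (by simp) (by simp) hcA (fun x hx => hXA x.2 hx.2 x.1 hx.1)
    (u₀ := fun z => W (z, (t₀ : ℂ)))
    (by simpa only [vec_pathA_one, Cyc.tC_addT] using hW0)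
  refine ⟨UA (z₀, 0), UA, W, hUA, ?_, rfl, hW, fun z hz => (hUA1 z hz).symm,
    fun z hz => hWt z hz⟩
  have o1 : OutF evQ R0 R1 (fun z => W (z, (t : ℂ))) := ho.congr fun z hz => (hWt z hz).symm
  have o2 : OutF evQ R0 R1 (fun z => W (z, (t₀ : ℂ))) :=
    outF_transport P hR.R0_pos hR.R_lt (hstar.isPathConnected hp).isConnected.isPreconnected
      (vec_addT_cont (tC q)).continuousOn hXW hW ht hR.t₀_mem o1
  have o3 : OutF evQ R0 R1 (fun z => UA (z, 1)) := o2.congr fun z hz => (hUA1 z hz).symm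
  exact outF_transport P hR.R0_pos hR.R_lt isPreconnected_Icc
    (vec_pathA_cont q₀ (tC (addT q t₀)) ω).continuousOn hXA hUA (by simp) (by simp) o3

/-- (V2) Gaps. -/
theorem IsVec.gap {x : Fnl (n + 1)} {O : Set (Fin (n + 1) → ℝ)} (hO : IsOpen O)
    (hsub : ∀ x ∈ O, inOm q x) {a b : ℝ} (_hb : b ≤ 0)
    (hc : ∀ t < b, IsCompact {x ∈ O | 0 ≤ fR 0 0 (addT q t) x})
    (hbd : ∀ t < b, ∀ x ∈ O, 0 ≤ fR 0 0 (addT q t) x → |x (Fin.last n)| < R0)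
    (hR : LevReg P q₀ z₀ R0 R1 q t₀ ω H) (hH : ∀ s ∈ Ioo a b, ((s : ℝ) : ℂ) ∈ H) {t t' : ℝ}
    (ht : t ∈ Ioo a b) (ht' : t' ∈ Ioo a b)
    (h : IsVec P q₀ z₀ R0 R1 q t₀ ω H x t (UJ P (addT q t) O)) :
    IsVec P q₀ z₀ R0 R1 q t₀ ω H x t' (UJ P (addT q t') O) := by
  obtain ⟨UA, W, h1, h2, h3, h4, h5, h6⟩ := h
  refine ⟨UA, W, h1, h2, h3, h4, h5, fun z hz => ?_⟩
  have hF0 : RFam P (Iio b) (fun t => addT q t)
    {p : ℝ × (Fin (n + 1) → ℝ) | p.2 ∈ cyc P (addT q p.1) O ∧ p.1 < b} := Pr.level hO hsub hc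
  have hsb : Ioo a b ⊆ Iio b := fun s hs => hs.2
  have hF : RFam P (Ioo a b) (fun t => addT q t)
      ({p : ℝ × (Fin (n + 1) → ℝ) | p.2 ∈ cyc P (addT q p.1) O ∧ p.1 < b} ∩
        Ioo a b ×ˢ univ) := by
    have hsub' : Ioo a b ×ˢ (univ : Set (Fin (n + 1) → ℝ)) ⊆ Iio b ×ˢ univ := prod_mono hsb le_rfl
    refine ⟨isOpen_Ioo, hF0.smooth.mono hsb, ⟨isOpen_Ioo.prod isOpen_univ,
      hF0.piece.isOpen.inter (isOpen_Ioo.prod isOpen_univ), inter_subset_right,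
      fun x hx => hF0.piece.pos x hx.1, fun x hx hxc hxT => hF0.piece.zero x (hsub' hx)
        (closure_mono inter_subset_left hxc) fun hT => hxT ⟨hT, hx⟩⟩, fun s hs => ?_⟩
    obtain ⟨ε, hε, R, hR'⟩ := hF0.bdd s (hsb hs)
    exact ⟨ε, hε, R, fun p hp => hR' p hp.1⟩
  have hreg : ∀ s ∈ Ioo a b, SingF (P.f (tC (addT q s))) = ∅ ∧
      ∀ z ∈ sann R0 R1, z ∉ SigF (P.f (tC (addT q s))) := by
    intro s hs
    rw [Cyc.tC_addT]
    exact hR.regH _ (hH s hs)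
  have hV := cyc_V hF (fun s hs => (hreg s hs).1) (R := R0) (fun p hp =>
    (hbd p.1 hp.1.2 p.2 hp.1.1.1 (hp.1.1.2.le.trans (Cyc.fR_le P _ _))).le)
  have hz' : z.im ≠ 0 ∨ R0 < |z.re| := by
    by_contra hcon
    push Not at hcon
    exact hz.2 ⟨hcon.2, by rw [hcon.1, abs_zero]; exact hR.R0_pos.le⟩
  have p1 : (ULS P n l).Par (fun s : ℝ => (tC (addT q s), z)) (Ioo a b)
      (fun s => UJ P (addT q s) O z) := by
    have e1 := hV.comp (g := fun s : ℝ => (s, z)) (R := Ioo a b) (by fun_prop)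
      (fun s hs => ⟨hs, hz', (hreg s hs).2 z hz⟩)
    have e2 : (ULS P n l).Par (fun s : ℝ => (tC (addT q s), z)) (Ioo a b) _ := ULS_par'.2 e1
    refine e2.congr fun s hs => ?_
    show shE n z (JU P.a (fR P.en P.eta (addT q s)) (fib _ s) z) = UJ P (addT q s) O z
    unfold UJ JC
    congr 2
    ext y
    exact ⟨fun hy => hy.1.1, fun hy => ⟨⟨hy, hs.2⟩, hs, mem_univ _⟩⟩
  have p2 : (ULS P n l).Par (fun s : ℝ => (tC (addT q s), z)) (Ioo a b)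
      (fun s => W (z, (s : ℂ))) := by
    have e1 := h4.comp (g := fun s : ℝ => (z, (s : ℂ))) (R := Ioo a b) (by fun_prop)
      (fun s hs => ⟨hz, hH s hs⟩)
    refine e1.congr_map fun s _ => ?_
    show (addT (tC q) (s : ℂ), z) = _
    rw [Cyc.tC_addT]
  have hcont : ContinuousOn (fun s : ℝ => (tC (addT q s), z)) (Ioo a b) := by
    have e1 : Continuous fun s : ℝ => (addT (tC q) (s : ℂ), z) :=
      ((vec_addT_cont (tC q)).comp Complex.continuous_ofReal).prodMk continuous_const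
    simpa only [Cyc.tC_addT] using e1.continuousOn
  exact LS.Par.unique isPreconnected_Ioo hcont
    (fun s hs => (mem_ULS_X P).2 ⟨(hreg s hs).1, (hreg s hs).2 z hz⟩) p2 p1 ht (h6 z hz) ht'

variable {γ : ℕ → ℝ → Tup n l}

/-- The three paths of an event. -/
structure Gam (q₀ : Tup n l) (q : RTup n l) (t₀ ω t : ℝ) (c : Fin n → ℝ)
    (γ : ℕ → ℝ → Tup n l) : Prop where
  A : γ 0 = pathA q₀ (tC (addT q t₀)) ω
  B : γ 1 = pathB (tC q) t₀ ((t : ℝ) : ℂ) ω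
  C : γ 2 = pathC (tC (addT q t)) (xC c) ω

theorem gam_one {t : ℝ} {c : Fin n → ℝ} (G : Gam q₀ q t₀ ω t c γ) :
    γ 2 1 = tC (addT (shT c q) t) := by
  rw [G.C, Cyc.tC_addT]
  simp only [pathC, Cyc.arc_one_eq, one_smul]
  rw [shT_addT', Cyc.shT_tC, ← Cyc.tC_addT]

theorem gam_two_zero {t : ℝ} {c : Fin n → ℝ} (G : Gam q₀ q t₀ ω t c γ) :
    γ 2 0 = tC (addT q t) := by
  rw [G.C]
  simp only [pathC, Cyc.arc_zero_eq, zero_smul, Cyc.shT_zero]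

/-- (V3) A cycle after the event. -/
theorem IsVec.endV {D : EvD P q₀ z₀ R0 R1 2 γ} {tv κ : ℝ} {c : Fin n → ℝ} (hω : 0 < ω)
    (G : Gam q₀ q t₀ ω (tv + κ) c γ) (hR : LevReg P q₀ z₀ R0 R1 q t₀ ω H)
    (hB : ∀ s ∈ Icc (0 : ℝ) 1, (t₀ : ℂ) + arc ω (((tv + κ : ℝ) : ℂ) - t₀) s ∈ H)
    (hC : ∀ x y : ℝ, 0 ≤ x → x ≤ 1 → 0 ≤ y → y ≤ ω * x * (1 - x) →
      SingF (P.f (shT (((x : ℂ) + Complex.I * y) • xC c) (tC (addT q (tv + κ))))) = ∅)
    {O : Set (Fin (n + 1) → ℝ)} (hO : Pr (addT q (tv + κ)) O)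
    (hbd : ∀ x ∈ O, 0 ≤ fR 0 0 (addT q (tv + κ)) x →
      |x (Fin.last n)| < R0 ∧ |shX c x (Fin.last n)| < R0) {x : Fnl (n + 1)}
    (h : IsVec P q₀ z₀ R0 R1 q t₀ ω H x (tv + κ) (UJ P (addT q (tv + κ)) O)) :
    EndVec D x (UJ P (addT (shT c q) (tv + κ)) (shX c '' O)) := by
  have hx := h.mem hR
  obtain ⟨UA, W, hUA, -, hx0, hW, hW0, hJ⟩ := h
  have a1 := D.at2 G.A G.B hB hx hUA hx0 hW hW0
  have hg1 := gam_one G
  have hX1 : ∀ z ∈ sann R0 R1, SingF (P.f (tC (addT (shT c q) (tv + κ)))) = ∅ ∧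
      z ∉ SigF (P.f (tC (addT (shT c q) (tv + κ)))) := fun z hz => by
    have := (mem_ULS_X P).1 (D.reg 2 le_rfl 1 ⟨zero_le_one, le_rfl⟩ z hz)
    rwa [hg1] at this
  have hs1 := (hX1 z₀ D.z₀_mem).1
  have hPr : Pr (addT (shT c q) (tv + κ)) (shX c '' O) := by
    rw [← shT_addT']
    exact hO.shX c
  have hbd1 : ∀ x ∈ shX c '' O, 0 ≤ fR 0 0 (addT (shT c q) (tv + κ)) x →
      |x (Fin.last n)| < R0 := by
    rintro _ ⟨y, hy, rfl⟩ h1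
    rw [← shT_addT', Cyc.fR0_shT] at h1
    exact (hbd y hy h1).2
  refine ⟨hx, D.eq_end hR.R_lt hx ?_ ?_ D.z₀_mem ?_⟩
  · rw [hg1]
    exact (UJ_par P hPr hs1 (fun x hx h1 => (hbd1 x hx h1).le)).mono fun z hz =>
      ⟨sann_hz hz, (hX1 z hz).2⟩
  · exact UJ_out P hPr hs1 hR.R0_pos hR.R_lt hbd1 fun z hz => (hX1 z hz).2
  · have hy := D.par_y hx D.z₀_mem
    have hm := Par.yp P (h := fun _ : ℝ => (tC (addT (shT c q) (tv + κ)), z₀)) (S := Icc (0 : ℝ) 1)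
      (u := fun _ => UJ P (addT (shT c q) (tv + κ)) (shX c '' O) z₀)
      (fun s hs => (mem_ULS_X P).2 (hX1 z₀ D.z₀_mem)) continuousOn_const
      (((UJ_par P hPr hs1 (fun x hx h1 => (hbd1 x hx h1).le)).comp (g := fun _ : ℝ => z₀)
        (R := Icc (0 : ℝ) 1) continuousOn_const fun s _ => ⟨sann_hz D.z₀_mem,
          (hX1 z₀ D.z₀_mem).2⟩))
    have hyc := hy.comp (g := fun _ : ℝ => (0 : ℝ)) (R := Icc (0 : ℝ) 1) continuousOn_const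
      fun _ _ => ⟨le_rfl, zero_le_one⟩
    refine frame_y (P := P) (tb := tv + κ) hO hω (θ := fun _ => ((tv + κ : ℝ) : ℂ))
      continuousOn_const rfl
      (c := c) (fun s _ x y g1 g2 g3 g4 => ?_) (Y0 := fun _ => yp z₀ (D.U x 2 (z₀, 0)))
      (Y1 := fun _ => yp z₀ (UJ P (addT (shT c q) (tv + κ)) (shX c '' O) z₀))
      (Y2 := fun s => yp z₀ (D.U x 2 (z₀, s))) ?_ ?_ ?_ ?_ ?_ rfl
    · have := hC x y g1 g2 g3 g4
      rwa [Cyc.tC_addT, shT_addT'] at this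
    · refine hyc.congr_map fun s _ => ?_
      show γ 2 0 = _
      rw [gam_two_zero G, Cyc.tC_addT]
    · rw [a1 z₀ D.z₀_mem, hJ z₀ D.z₀_mem]
      exact yp_UJ hO (fun x hx h1 => (hbd x hx h1).1.le) (sann_hz D.z₀_mem)
    · refine hm.congr_map fun s _ => ?_
      rw [Cyc.tC_addT]
    · exact yp_UJ hPr (fun x hx h1 => (hbd1 x hx h1).le) (sann_hz D.z₀_mem)
    · rw [← Cyc.tC_addT, ← G.C]
      exact hy

/-- (V4) A cycle before the event. -/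
theorem IsVec.befV {D : EvD P q₀ z₀ R0 R1 2 γ} {tv κ : ℝ} {c : Fin n → ℝ} (hω : 0 < ω)
    (hκ : 0 < κ) (G : Gam q₀ q t₀ ω (tv + κ) c γ) (hR : LevReg P q₀ z₀ R0 R1 q t₀ ω H)
    (hB : ∀ s ∈ Icc (0 : ℝ) 1, (t₀ : ℂ) + arc ω (((tv + κ : ℝ) : ℂ) - t₀) s ∈ H)
    (hh : hc tv κ ⊆ H)
    (hC : ∀ t ∈ hc tv κ, ∀ x y : ℝ, 0 ≤ x → x ≤ 1 → 0 ≤ y → y ≤ ω * x * (1 - x) →
      SingF (P.f (addT (shT (((x : ℂ) + Complex.I * y) • xC c) (tC q)) t)) = ∅)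
    (hV : ∀ t ∈ hc tv κ, ∀ z ∈ sann R0 R1, z ∉ SigF (P.f (addT (tC (shT c q)) t)))
    {O : Set (Fin (n + 1) → ℝ)} (hO : Pr (addT q (tv - κ)) O)
    (hbd : ∀ x ∈ O, 0 ≤ fR 0 0 (addT q (tv - κ)) x →
      |x (Fin.last n)| < R0 ∧ |shX c x (Fin.last n)| < R0) {x : Fnl (n + 1)}
    (h : IsVec P q₀ z₀ R0 R1 q t₀ ω H x (tv - κ) (UJ P (addT q (tv - κ)) O)) :
    BefVec D (shT c q) tv κ x (UJ P (addT (shT c q) (tv - κ)) (shX c '' O)) := by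
  have hx := h.mem hR
  obtain ⟨UA, W, hUA, -, hx0, hW, hW0, hJ⟩ := h
  have a1 := D.at2 G.A G.B hB hx hUA hx0 hW hW0
  have hg1 : γ 2 1 = addT (tC (shT c q)) (thc tv κ 1) := by
    rw [gam_one G, Cyc.tC_addT, thc_one]
  have h0I : (0 : ℝ) ∈ Icc (0 : ℝ) 1 := ⟨le_rfl, zero_le_one⟩
  have h1I : (1 : ℝ) ∈ Icc (0 : ℝ) 1 := ⟨zero_le_one, le_rfl⟩
  -- frame one
  have hX1 : ∀ s ∈ Icc (0 : ℝ) 1, ∀ z ∈ sann R0 R1,
      (addT (tC (shT c q)) (thc tv κ s), z) ∈ (ULS P n l).X := fun s hs z hz => by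
    refine (mem_ULS_X P).2 ⟨?_, hV _ (thc_mem hκ hs) z hz⟩
    have h1 := hC _ (thc_mem hκ hs) 1 0 zero_le_one le_rfl le_rfl (by simp)
    have e : ((1 : ℝ) : ℂ) + Complex.I * ((0 : ℝ) : ℂ) = 1 := by simp
    rw [e, one_smul, Cyc.shT_tC] at h1
    exact h1
  have et : tC (addT (shT c q) (tv - κ)) = addT (tC (shT c q)) (thc tv κ 0) := by
    rw [Cyc.tC_addT, thc_zero]
  have hs1 : SingF (P.f (tC (addT (shT c q) (tv - κ)))) = ∅ := by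
    rw [et]
    exact ((mem_ULS_X P).1 (hX1 0 h0I z₀ D.z₀_mem)).1
  have hV1 : ∀ z ∈ sann R0 R1, z ∉ SigF (P.f (tC (addT (shT c q) (tv - κ)))) := fun z hz => by
    rw [et]
    exact ((mem_ULS_X P).1 (hX1 0 h0I z hz)).2
  have hPr : Pr (addT (shT c q) (tv - κ)) (shX c '' O) := by
    rw [← shT_addT']
    exact hO.shX c
  have hbd1 : ∀ x ∈ shX c '' O, 0 ≤ fR 0 0 (addT (shT c q) (tv - κ)) x →
      |x (Fin.last n)| < R0 := by
    rintro _ ⟨y, hy, rfl⟩ h1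
    rw [← shT_addT', Cyc.fR0_shT] at h1
    exact (hbd y hy h1).2
  have hUJ : (ULS P n l).Par (fun z => (addT (tC (shT c q)) (thc tv κ 0), z)) (sann R0 R1)
      (UJ P (addT (shT c q) (tv - κ)) (shX c '' O)) := by
    rw [← et]
    exact (UJ_par P hPr hs1 (fun x hx h1 => (hbd1 x hx h1).le)).mono fun z hz =>
      ⟨sann_hz hz, hV1 z hz⟩
  have hcl : ContinuousOn (fun p : ℂ × ℝ => (addT (tC (shT c q)) (thc tv κ p.2), p.1))
      (sann R0 R1 ×ˢ Icc (0 : ℝ) 1) :=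
    ((continuous_addT2.comp (continuous_const.prodMk ((continuous_thc tv κ).comp
      continuous_snd))).prodMk continuous_fst).continuousOn
  obtain ⟨W', hW', hW'0⟩ := LS.Par.lift (A := ULS P n l) (S := sann R0 R1)
    (h := fun p : ℂ × ℝ => (addT (tC (shT c q)) (thc tv κ p.2), p.1)) hcl
    (fun p hp => hX1 p.2 hp.2 p.1 hp.1) hUJ
  refine ⟨hx, W', hW', hW'0, D.eq_end hR.R_lt hx (J := fun z => W' (z, 1)) ?_ ?_ D.z₀_mem ?_⟩
  · have h1 := hW'.comp (g := fun z : ℂ => (z, (1 : ℝ))) (R := sann R0 R1)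
      (Continuous.prodMk_left (1 : ℝ)).continuousOn fun z hz => ⟨hz, h1I⟩
    rw [hg1]
    exact h1
  · refine outF_transport P hR.R0_pos hR.R_lt isPreconnected_Icc
      (h := fun s : ℝ => addT (tC (shT c q)) (thc tv κ s))
      (continuous_addT2.comp (continuous_const.prodMk (continuous_thc tv κ))).continuousOn
      (fun s hs z hz => hX1 s hs z hz) hW' h0I h1I ?_
    intro Q
    obtain ⟨f, b1, b2, b3⟩ := UJ_out P hPr hs1 hR.R0_pos hR.R_lt hbd1 hV1 Q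
    refine ⟨f, b1, fun z hz => ?_, b3⟩
    rw [b2 hz]
    simp only
    rw [hW'0 z hz]
  · have hz₀ := D.z₀_mem
    have hy := D.par_y hx hz₀
    have hWs : (ULS P n l).Par (fun s : ℝ => (addT (tC q) (thc tv κ s), z₀)) (Icc 0 1)
        (fun s => W (z₀, thc tv κ s)) :=
      hW.comp (g := fun s : ℝ => (z₀, thc tv κ s)) (R := Icc 0 1)
        (continuous_const.prodMk (continuous_thc tv κ)).continuousOn
        fun s hs => ⟨hz₀, hh (thc_mem hκ hs)⟩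
    have hW's : (ULS P n l).Par (fun s : ℝ => (addT (tC (shT c q)) (thc tv κ s), z₀)) (Icc 0 1)
        (fun s => W' (z₀, s)) :=
      hW'.comp (g := fun s : ℝ => (z₀, s)) (R := Icc 0 1)
        (Continuous.prodMk_right z₀).continuousOn fun s hs => ⟨hz₀, hs⟩
    have hcs : ∀ q' : Tup n l, ContinuousOn (fun s : ℝ => (addT q' (thc tv κ s), z₀))
        (Icc (0 : ℝ) 1) := fun q' =>
      ((continuous_addT2.comp (continuous_const.prodMk (continuous_thc tv κ))).prodMk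
        continuous_const).continuousOn
    refine frame_y (P := P) (tb := tv - κ) hO hω (θ := thc tv κ) (continuous_thc tv κ).continuousOn
      (thc_zero tv κ) (c := c) (fun s hs x y g1 g2 g3 g4 => hC _ (thc_mem hκ hs) x y g1 g2 g3 g4)
      (Y0 := fun s => yp z₀ (W (z₀, thc tv κ s))) (Y1 := fun s => yp z₀ (W' (z₀, s)))
      (Y2 := fun s => yp z₀ (D.U x 2 (z₀, s))) ?_ ?_ ?_ ?_ ?_ ?_
    · exact Par.yp P (h := fun s : ℝ => (addT (tC q) (thc tv κ s), z₀)) (fun s hs =>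
        (mem_ULS_X P).2 ⟨(hR.regH _ (hh (thc_mem hκ hs))).1,
          (hR.regH _ (hh (thc_mem hκ hs))).2 z₀ hz₀⟩) (hcs _) hWs
    · rw [thc_zero, hJ z₀ hz₀]
      exact yp_UJ hO (fun x hx h1 => (hbd x hx h1).1.le) (sann_hz hz₀)
    · exact Par.yp P (h := fun s : ℝ => (addT (tC (shT c q)) (thc tv κ s), z₀))
        (fun s hs => hX1 s hs z₀ hz₀) (hcs _) hW's
    · rw [hW'0 z₀ hz₀]
      exact yp_UJ hPr (fun x hx h1 => (hbd1 x hx h1).le) (sann_hz hz₀)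
    · rw [thc_one, ← Cyc.tC_addT, ← G.C]
      exact hy
    · rw [thc_one, a1 z₀ hz₀]

end Pool.Agent.QC
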