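import Pool.Agent.QC.Asm.CompareDefs
import Pool.Agent.QC.Asm.Spaces
import Pool.Agent.QC.Lab.Pair

/-!
# MP_7c50a9_lc: assembly: one event of two inputs with the same words
-/

namespace Pool.Agent.QC

open MvPolynomial Filter Topology Set Lab

variable {n l : ℕ}

/-! ## The chain of the paths -/

theorem gam_start (q₀ : Tup n l) (q : RTup n l) (t₀ ω t : ℝ) (c : Fin n → ℝ) :
    gam q₀ q t₀ ω t c 0 0 = q₀ := pathA_zero _ _ _

theorem gam_end (q₀ : Tup n l) (q : RTup n l) (t₀ ω t : ℝ) (c : Fin n → ℝ) :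
    gam q₀ q t₀ ω t c 2 1 = tC (addT (shT c q) t) := by
  show pathC _ _ _ 1 = _
  rw [pathC_one, ← tC_shT, shT_addT]

theorem gam_cont (q₀ : Tup n l) (q : RTup n l) (t₀ ω t : ℝ) (c : Fin n → ℝ) (k : ℕ) :
    Continuous (gam q₀ q t₀ ω t c k) := by
  match k with
  | 0 => exact pathA_cont _ _ _
  | 1 => exact pathB_cont _ _ _ _
  | _ + 2 => exact pathC_cont _ _ _

theorem gam_join (q₀ : Tup n l) (q : RTup n l) (t₀ ω t : ℝ) (c : Fin n → ℝ) :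
    ∀ k < 2, gam q₀ q t₀ ω t c k 1 = gam q₀ q t₀ ω t c (k + 1) 0 := by
  intro k hk
  interval_cases k
  · show pathA _ _ _ 1 = pathB _ _ _ _ 0
    rw [pathA_one, pathB_zero, tC_addT]
  · show pathB _ _ _ _ 1 = pathC _ _ _ 0
    rw [pathB_one, pathC_zero, tC_addT]

section Two

variable {Phi : MvPolynomial (Ix n l) ℂ} {RS : RootSys Phi} {q₀ : Tup n l} {q q' : RTup n l}
  {t₀ t₀' ω t t' : ℝ} {c c' : Fin n → ℝ}

/-- matched labels for an event -/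
theorem TwoW.matchL (hPhi : GoodPhi Phi) (H : TwoW RS q₀ q q' t₀ t₀' ω t t' c c') :
    ∃ e z z', MatchL RS 2 (gam q₀ q t₀ ω t c) (gam q₀ q' t₀' ω t' c') e z z' :=
  exists_matchL hPhi RS 2 (fun k _ => gam_cont _ _ _ _ _ _ k) (fun k _ => gam_cont _ _ _ _ _ _ k)
    H.ne H.ne' (gam_join _ _ _ _ _ _) (gam_join _ _ _ _ _ _) (by rw [gam_start, gam_start]) H.word

theorem TwoW.ok (H : TwoW RS q₀ q q' t₀ t₀' ω t t' c c') :
    eval (cfs (tC (addT (shT c q) t))) Phi ≠ 0 := by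
  rw [← gam_end q₀ q t₀ ω t c]
  exact H.ne 2 le_rfl 1 (by simp)

theorem TwoW.ok' (H : TwoW RS q₀ q q' t₀ t₀' ω t t' c c') :
    eval (cfs (tC (addT (shT c' q') t'))) Phi ≠ 0 := by
  rw [← gam_end q₀ q' t₀' ω t' c']
  exact H.ne' 2 le_rfl 1 (by simp)

end Two

/-! ## The squares -/

/-- the squares are in a large square -/
theorem exists_sqs {Phi : MvPolynomial (Ix n l) ℂ} (RS : RootSys Phi) {q : RTup n l}
    {tv κ vn r' r ρ0 ρ1 : ℝ} {T : Set ℂ} (G : Geo0 q tv κ vn r' r ρ0 ρ1 T)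
    (hok : eval (cfs (tC (addT q (tv + κ)))) Phi ≠ 0)
    (hS : ∀ R0, csqc (vn : ℂ) r ⊆ sq R0 → (∀ c ∈ T, csqc c ρ1 ⊆ sq R0) →
      Sqs vn R0 r' r ρ0 ρ1 T) : ∃ R0, Sqs vn R0 r' r ρ0 ρ1 T := by
  have hfin : (SigF (f0 (tC (addT q (tv + κ))))).Finite := (RS.finite _ hok).subset (RS.sub _ hok)
  obtain ⟨B, hB⟩ := hfin.isBounded.exists_norm_le
  refine ⟨|vn| + |r| + |ρ0| + |ρ1| + |B| + 1, hS _ ?_ ?_⟩
  · rintro z ⟨h1, h2⟩
    simp only [Complex.ofReal_re, Complex.ofReal_im, sub_zero] at h1 h2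
    have h3 := abs_sub_abs_le_abs_sub z.re vn
    have a1 := le_abs_self r
    have a2 := abs_nonneg vn
    have a3 := abs_nonneg ρ0
    have a4 := abs_nonneg ρ1
    have a5 := abs_nonneg B
    exact ⟨by linarith, by linarith⟩
  · intro c hc z hz
    obtain ⟨w, hw, -, hwc, -⟩ := G.one c hc
    have h1 := hB _ ⟨w, hw, rfl⟩
    have h2 := (Complex.abs_re_le_norm (w (Fin.last n))).trans h1
    have h3 := (Complex.abs_im_le_norm (w (Fin.last n))).trans h1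
    have h4 := abs_sub_abs_le_abs_sub z.re c.re
    have h5 := abs_sub_abs_le_abs_sub z.im c.im
    have h6 := abs_sub_abs_le_abs_sub c.re (w (Fin.last n)).re
    have h7 := abs_sub_abs_le_abs_sub c.im (w (Fin.last n)).im
    rw [abs_sub_comm c.re] at h6
    rw [abs_sub_comm c.im] at h7
    have h8 := hwc.1
    have h9 := hwc.2
    have g1 := hz.1
    have g2 := hz.2
    have a1 := abs_nonneg r
    have a2 := abs_nonneg vn
    have a3 := le_abs_self ρ0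
    have a4 := le_abs_self ρ1
    have a5 := le_abs_self B
    exact ⟨by linarith, by linarith⟩

theorem continuous_dg (vn : ℝ) : Continuous (dg vn) := by
  unfold dg
  fun_prop

/-- the compact sets of the pair, case A -/
private theorem setsA {q : RTup n l} {vn r' r μ : ℝ} {a : ℂ} (hμ : 0 < μ)
    (h : PairUp q vn r' r a) (h1 : μ < dg vn a) (h2 : dg vn ((starRingEnd ℂ) a) < -μ) :
    (csqc (vn : ℂ) r ∩ {z | μ ≤ dg vn z}) ∩ SigF (f0 (tC q)) ⊆ {a} ∧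
    (csqc (vn : ℂ) r ∩ {z | dg vn z ≤ -μ}) ∩ SigF (f0 (tC q)) ⊆ {(starRingEnd ℂ) a} := by
  constructor
  · rintro w ⟨⟨hw1, hw2⟩, hw3⟩
    rcases h.only w hw3 hw1 with hw | hw
    · exact hw
    · have hw2' : μ ≤ dg vn w := hw2
      rw [hw] at hw2'
      linarith
  · rintro w ⟨⟨hw1, hw2⟩, hw3⟩
    rcases h.only w hw3 hw1 with hw | hw
    · have hw2' : dg vn w ≤ -μ := hw2
      rw [hw] at hw2'
      linarith
    · exact hw

private theorem cptA (vn r μ : ℝ) : IsCompact (csqc (vn : ℂ) r ∩ {z | μ ≤ dg vn z}) :=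
  (Grid.isCompact_csqc _ _).inter_right (isClosed_le continuous_const (continuous_dg vn))

private theorem cptA' (vn r μ : ℝ) : IsCompact (csqc (vn : ℂ) r ∩ {z | dg vn z ≤ -μ}) :=
  (Grid.isCompact_csqc _ _).inter_right (isClosed_le (continuous_dg vn) continuous_const)

private theorem sub_sq {vn r' r : ℝ} (h : r' < r) : sqc (vn : ℂ) r' ⊆ csqc (vn : ℂ) r := by
  rintro w ⟨a1, a2⟩
  exact ⟨by linarith, by linarith⟩

private theorem memA {P : Prm} {q : RTup n l} {tv κ vn r' r μ : ℝ} {a : ℂ} (h : r' < r)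
    (H : GeoA P q tv κ vn r' r μ a) : a ∈ csqc (vn : ℂ) r ∩ {z | μ ≤ dg vn z} ∧
      (starRingEnd ℂ) a ∈ csqc (vn : ℂ) r ∩ {z | dg vn z ≤ -μ} := by
  have h1 := sub_sq h H.a_sq
  refine ⟨⟨h1, H.a_dg.le⟩, ⟨?_, ?_⟩, H.b_dg.le⟩
  · rw [Complex.conj_re]
    exact h1.1
  · have h2 := h1.2
    rw [Complex.ofReal_im, sub_zero] at h2 ⊢
    rw [Complex.conj_im, abs_neg]
    exact h2

/-- (7) Complex pairs. -/
theorem compareA {Phi : MvPolynomial (Ix n l) ℂ} (hPhi : GoodPhi Phi) (RS : RootSys Phi)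
    {q₀ : Tup n l} {q q' : RTup n l} {t₀ t₀' ω tv tv' κ : ℝ} {c c' : Fin n → ℝ}
    (H : TwoW RS q₀ q q' t₀ t₀' ω (tv + κ) (tv' + κ) c c')
    {vn r' r ρ0 ρ1 μ vn' s' s σ0 σ1 ν : ℝ} {T T' : Set ℂ}
    (G : Geo0 (shT c q) tv κ vn r' r ρ0 ρ1 T) (G' : Geo0 (shT c' q') tv' κ vn' s' s σ0 σ1 T')
    (hS : ∀ R0, csqc (vn : ℂ) r ⊆ sq R0 → (∀ c ∈ T, csqc c ρ1 ⊆ sq R0) →
      Sqs vn R0 r' r ρ0 ρ1 T)
    (hS' : ∀ R0, csqc (vn' : ℂ) s ⊆ sq R0 → (∀ c ∈ T', csqc c σ1 ⊆ sq R0) →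
      Sqs vn' R0 s' s σ0 σ1 T')
    (hA : GeoA0 (shT c q) tv κ vn r' r μ) (hA' : GeoA0 (shT c' q') tv' κ vn' s' s ν) :
    ∃ Rm : ℝ, ∀ R0 R R1, Rm ≤ R0 → R0 < R → R < R1 → 2 * R0 < R1 →
      ∀ᶠ en in 𝓝[>] (0 : ℝ), ∀ᶠ eta in 𝓝[>] (0 : ℝ), ∀ P : Prm, P.en = en → P.eta = eta →
        ∀ (D : EvD P q₀ (zb R) R0 R1 2 (gam q₀ q t₀ ω (tv + κ) c))
          (D' : EvD P q₀ (zb R) R0 R1 2 (gam q₀ q' t₀' ω (tv' + κ) c')),
          GeoA P (shT c q) tv κ vn r' r μ D.a → D.b = (starRingEnd ℂ) D.a →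
          GeoA P (shT c' q') tv' κ vn' s' s ν D'.a → D'.b = (starRingEnd ℂ) D'.a →
          SameE D D' := by
  obtain ⟨e, z, z', L⟩ := H.matchL hPhi
  obtain ⟨_, S1⟩ := exists_sqs RS G H.ok hS
  obtain ⟨_, S2⟩ := exists_sqs RS G' H.ok' hS'
  obtain ⟨a, p1, p2, p3⟩ := pairUp_of_geo G hA S1.r_lt S1.ρ_lt S1.im
  obtain ⟨a', p1', p2', p3'⟩ := pairUp_of_geo G' hA' S2.r_lt S2.ρ_lt S2.im
  have hq := gam_end q₀ q t₀ ω (tv + κ) c
  have hq' := gam_end q₀ q' t₀' ω (tv' + κ) c'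
  obtain ⟨α, β, e1, e2, e3, e4⟩ := L.pairUp hq hq' H.ok H.ok' p1 p1'
  have k1 := setsA hA.μ_pos p1 p2 p3
  have k2 := setsA hA'.μ_pos p1' p2' p3'
  obtain ⟨Rm, -, h⟩ := Grid.MatchL_spaces hPhi L (fun k _ => gam_cont _ _ _ _ _ _ k)
    (fun k _ => gam_cont _ _ _ _ _ _ k) H.ne H.ne' (gam_join _ _ _ _ _ _) (gam_join _ _ _ _ _ _)
    (by rw [gam_start, gam_start]) hq hq' (α := α) (β := β) (by rw [e1]; exact p1.pos.le)
    (by rw [e3, Complex.conj_im]; linarith [p1.pos])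
    (fun w hw h1 h2 h3 => by
      rw [e1] at h1 h3
      exact p1.col hw h1 (by rw [abs_of_nonneg h2]; exact h3))
    (fun w hw h1 h2 h3 => by
      rw [e3] at h1 h3
      rw [Complex.conj_re] at h1
      rw [Complex.conj_im] at h3
      exact p1.col hw h1 (by rw [abs_of_nonpos h2]; linarith))
    (cptA vn r μ) (cptA' vn r μ) (cptA vn' s ν) (cptA' vn' s ν)
    (by rw [e1]; exact k1.1) (by rw [e3]; exact k1.2) (by rw [e2]; exact k2.1)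
    (by rw [e4]; exact k2.2)
  refine ⟨Rm, fun R0 R R1 h0 h1 h2 _ => ?_⟩
  filter_upwards [h R0 R1 h0 (h1.trans h2)] with en b1
  filter_upwards [b1] with eta b2 P hP1 hP2 D D' g1 g2 g3 g4
  have m1 := memA S1.r_lt g1
  have m2 := memA S2.r_lt g3
  exact b2 P hP1 hP2 q₀ (zb R) D D' m1.1 (by rw [g2]; exact m1.2) m2.1 (by rw [g4]; exact m2.2)

/-- the compact sets of the pair, case B -/
private theorem setsB {q : RTup n l} {vn r' r a b : ℝ} (h : PairLR q vn r' r a b) :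
    (csqc (vn : ℂ) r ∩ {z | vn ≤ z.re}) ∩ SigF (f0 (tC q)) ⊆ {(a : ℂ)} ∧
    (csqc (vn : ℂ) r ∩ {z | z.re ≤ vn}) ∩ SigF (f0 (tC q)) ⊆ {(b : ℂ)} := by
  constructor
  · rintro w ⟨⟨hw1, hw2⟩, hw3⟩
    rcases h.only w hw3 hw1 with hw | hw
    · exact hw
    · have hw2' : vn ≤ w.re := hw2
      rw [hw, Complex.ofReal_re] at hw2'
      linarith [h.ltb]
  · rintro w ⟨⟨hw1, hw2⟩, hw3⟩
    rcases h.only w hw3 hw1 with hw | hw
    · have hw2' : w.re ≤ vn := hw2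
      rw [hw, Complex.ofReal_re] at hw2'
      linarith [h.lta]
    · exact hw

private theorem cptB (vn r : ℝ) : IsCompact (csqc (vn : ℂ) r ∩ {z | vn ≤ z.re}) :=
  (Grid.isCompact_csqc _ _).inter_right (isClosed_le continuous_const Complex.continuous_re)

private theorem cptB' (vn r : ℝ) : IsCompact (csqc (vn : ℂ) r ∩ {z | z.re ≤ vn}) :=
  (Grid.isCompact_csqc _ _).inter_right (isClosed_le Complex.continuous_re continuous_const)

/-- (7) Real pairs. -/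
theorem compareB {Phi : MvPolynomial (Ix n l) ℂ} (hPhi : GoodPhi Phi) (RS : RootSys Phi)
    {q₀ : Tup n l} {q q' : RTup n l} {t₀ t₀' ω tv tv' κ : ℝ}
    (H : TwoW RS q₀ q q' t₀ t₀' ω (tv + κ) (tv' + κ) 0 0)
    {vn r' r ρ0 ρ1 vn' s' s σ0 σ1 : ℝ} {T T' : Set ℂ}
    (G : Geo0 (shT 0 q) tv κ vn r' r ρ0 ρ1 T) (G' : Geo0 (shT 0 q') tv' κ vn' s' s σ0 σ1 T')
    (hS : ∀ R0, csqc (vn : ℂ) r ⊆ sq R0 → (∀ c ∈ T, csqc c ρ1 ⊆ sq R0) →
      Sqs vn R0 r' r ρ0 ρ1 T)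
    (hS' : ∀ R0, csqc (vn' : ℂ) s ⊆ sq R0 → (∀ c ∈ T', csqc c σ1 ⊆ sq R0) →
      Sqs vn' R0 s' s σ0 σ1 T')
    {N N' : Set (Fin (n + 1) → ℝ)}
    (hB : GeoB0 (shT 0 q) tv κ vn r' r N) (hB' : GeoB0 (shT 0 q') tv' κ vn' s' s N')
    (hcnt : {z ∈ RS.Rt (tC (addT q (tv + κ))) | z.im = 0 ∧ z.re < vn}.ncard =
      {z ∈ RS.Rt (tC (addT q' (tv' + κ))) | z.im = 0 ∧ z.re < vn'}.ncard) :
    ∃ Rm : ℝ, ∀ R0 R R1, Rm ≤ R0 → R0 < R → R < R1 → 2 * R0 < R1 →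
      ∀ᶠ en in 𝓝[>] (0 : ℝ), ∀ᶠ eta in 𝓝[>] (0 : ℝ), ∀ P : Prm, P.en = en → P.eta = eta →
        ∀ (D : EvD P q₀ (zb R) R0 R1 2 (gam q₀ q t₀ ω (tv + κ) 0))
          (D' : EvD P q₀ (zb R) R0 R1 2 (gam q₀ q' t₀' ω (tv' + κ) 0))
          (x1 x2 x1' x2' : Fin (n + 1) → ℝ),
          GeoB P (shT 0 q) tv κ vn r' r N x1 x2 → D.a = x1 (Fin.last n) → D.b = x2 (Fin.last n) →
          GeoB P (shT 0 q') tv' κ vn' s' s N' x1' x2' → D'.a = x1' (Fin.last n) →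
          D'.b = x2' (Fin.last n) → SameE D D' := by
  obtain ⟨e, z, z', L⟩ := H.matchL hPhi
  obtain ⟨_, S1⟩ := exists_sqs RS G H.ok hS
  obtain ⟨_, S2⟩ := exists_sqs RS G' H.ok' hS'
  obtain ⟨y1, y2, -, -, p1⟩ := pairLR_of_geo hB S1.r_lt
  obtain ⟨y1', y2', -, -, p1'⟩ := pairLR_of_geo hB' S2.r_lt
  have hq := gam_end q₀ q t₀ ω (tv + κ) 0
  have hq' := gam_end q₀ q' t₀' ω (tv' + κ) 0
  obtain ⟨α, β, e1, e2, e3, e4⟩ := L.pairLR hq hq' H.ok H.ok' p1 p1' (by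
    rw [shT_zero, shT_zero]
    exact hcnt)
  have k1 := setsB p1
  have k2 := setsB p1'
  obtain ⟨Rm, -, h⟩ := Grid.MatchL_spaces hPhi L (fun k _ => gam_cont _ _ _ _ _ _ k)
    (fun k _ => gam_cont _ _ _ _ _ _ k) H.ne H.ne' (gam_join _ _ _ _ _ _) (gam_join _ _ _ _ _ _)
    (by rw [gam_start, gam_start]) hq hq' (α := α) (β := β)
    (by rw [e1, Complex.ofReal_im]) (by rw [e3, Complex.ofReal_im])
    (fun w hw h1 h2 h3 => by
      rw [e1, Complex.ofReal_im] at h3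
      linarith)
    (fun w hw h1 h2 h3 => by
      rw [e3, Complex.ofReal_im] at h3
      linarith)
    (cptB vn r) (cptB' vn r) (cptB vn' s) (cptB' vn' s)
    (by rw [e1]; exact k1.1) (by rw [e3]; exact k1.2) (by rw [e2]; exact k2.1)
    (by rw [e4]; exact k2.2)
  refine ⟨Rm, fun R0 R R1 h0 h1 h2 _ => ?_⟩
  filter_upwards [h R0 R1 h0 (h1.trans h2)] with en b1
  filter_upwards [b1] with eta b2 P hP1 hP2 D D' x1 x2 x1' x2' g1 g2 g3 g4 g5 g6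
  refine b2 P hP1 hP2 q₀ (zb R) D D' ?_ ?_ ?_ ?_
  · rw [g2]
    exact ⟨sub_sq S1.r_lt g1.sq1, by simpa using g1.lt1.le⟩
  · rw [g3]
    exact ⟨sub_sq S1.r_lt g1.sq2, by simpa using g1.lt2.le⟩
  · rw [g5]
    exact ⟨sub_sq S2.r_lt g4.sq1, by simpa using g4.lt1.le⟩
  · rw [g6]
    exact ⟨sub_sq S2.r_lt g4.sq2, by simpa using g4.lt2.le⟩

end Pool.Agent.QC
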