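import Pool.Agent.QC.LS.Lift

/-!
# MP_7c50a9_lc: parallel sections over star shaped parameter regions; cones
-/

set_option autoImplicit false

open Set Filter Topology Metric

namespace Pool.Agent.QC

namespace LS

variable {Q Z F : Type*} [TopologicalSpace Q] [TopologicalSpace Z] {A : LS (Q × Z) F}

/-- A section over a slice `{t₁} × S` extends to `G × S` when `G` is star shaped. -/
theorem Par.lift_star {T : Type*} [AddCommGroup T] [Module ℝ T] [TopologicalSpace T]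
    [IsTopologicalAddGroup T] [ContinuousSMul ℝ T] {G : Set T} {p t₁ : T}
    (hG : StarConvex ℝ p G) (ht₁ : t₁ ∈ G) {g : T → Q} (hg : ContinuousOn g G)
    {S : Set Z} (hX : ∀ t ∈ G, ∀ z ∈ S, (g t, z) ∈ A.X) {J : Z → F}
    (hJ : A.Par (fun z => (g t₁, z)) S J) :
    ∃ Y : T × Z → F, A.Par (fun x : T × Z => (g x.1, x.2)) (G ×ˢ S) Y ∧
      ∀ z ∈ S, Y (t₁, z) = J z := by
  have hseg : ∀ t ∈ G, ∀ s ∈ Icc (0 : ℝ) 1, p + s • (t - p) ∈ G := by
    intro t ht s hs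
    have h1 := hG ht (sub_nonneg.mpr hs.2) hs.1 (sub_add_cancel 1 s)
    have h2 : p + s • (t - p) = (1 - s) • p + s • t := by
      rw [smul_sub, sub_smul, one_smul]
      abel
    rw [h2]
    exact h1
  -- first step: from `t₁` to `p`
  have hc1 : ContinuousOn (fun x : Z × ℝ => (g (p + (1 - x.2) • (t₁ - p)), x.1))
      (S ×ˢ Icc (0 : ℝ) 1) := by
    refine ContinuousOn.prodMk (hg.comp (by fun_prop) ?_) continuousOn_fst
    intro x hx
    exact hseg t₁ ht₁ (1 - x.2) ⟨by linarith [hx.2.2], by linarith [hx.2.1]⟩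
  have hX1 : MapsTo (fun x : Z × ℝ => (g (p + (1 - x.2) • (t₁ - p)), x.1))
      (S ×ˢ Icc (0 : ℝ) 1) A.X := fun x hx =>
    hX _ (hseg t₁ ht₁ (1 - x.2) ⟨by linarith [hx.2.2], by linarith [hx.2.1]⟩) _ hx.1
  obtain ⟨U, hU, hU0⟩ := Par.lift (A := A) (S := S)
    (h := fun x : Z × ℝ => (g (p + (1 - x.2) • (t₁ - p)), x.1)) hc1 hX1 (u₀ := J)
    (by simpa using hJ)
  have hU1 : A.Par (fun z => (g p, z)) S (fun z => U (z, 1)) := by
    have h1 := hU.comp (g := fun z : Z => (z, (1 : ℝ))) (R := S) (by fun_prop)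
      fun z hz => ⟨hz, zero_le_one, le_rfl⟩
    refine h1.congr_map fun z _ => ?_
    simp
  -- second step: from `p` to all points of `G`
  have hc2 : ContinuousOn (fun x : (T × Z) × ℝ => (g (p + x.2 • (x.1.1 - p)), x.1.2))
      ((G ×ˢ S) ×ˢ Icc (0 : ℝ) 1) := by
    refine ContinuousOn.prodMk (hg.comp (by fun_prop) ?_) (by fun_prop)
    intro x hx
    exact hseg x.1.1 hx.1.1 x.2 hx.2
  have hX2 : MapsTo (fun x : (T × Z) × ℝ => (g (p + x.2 • (x.1.1 - p)), x.1.2))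
      ((G ×ˢ S) ×ˢ Icc (0 : ℝ) 1) A.X := fun x hx => hX _ (hseg x.1.1 hx.1.1 x.2 hx.2) _ hx.1.2
  obtain ⟨V, hV, hV0⟩ := Par.lift (A := A) (S := G ×ˢ S)
    (h := fun x : (T × Z) × ℝ => (g (p + x.2 • (x.1.1 - p)), x.1.2)) hc2 hX2
    (u₀ := fun x => U (x.2, 1)) (by
      have h1 := hU1.comp (g := fun x : T × Z => x.2) (R := G ×ˢ S) continuousOn_snd
        fun x hx => hx.2
      refine h1.congr_map fun x _ => ?_
      simp)
  refine ⟨fun x => V (x, 1), ?_, ?_⟩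
  · have h1 := hV.comp (g := fun x : T × Z => (x, (1 : ℝ))) (R := G ×ˢ S) (by fun_prop)
      fun x hx => ⟨hx, zero_le_one, le_rfl⟩
    refine h1.congr_map fun x _ => ?_
    simp
  · intro z hz
    -- along the segment from `p` to `t₁`
    have m1 : MapsTo (fun s : ℝ => (((t₁, z) : T × Z), s)) (Icc (0 : ℝ) 1)
        ((G ×ˢ S) ×ˢ Icc (0 : ℝ) 1) := fun s hs => ⟨⟨ht₁, hz⟩, hs⟩
    have m2 : MapsTo (fun s : ℝ => (z, 1 - s)) (Icc (0 : ℝ) 1) (S ×ˢ Icc (0 : ℝ) 1) :=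
      fun s hs => ⟨hz, by linarith [hs.2], by linarith [hs.1]⟩
    have c1 : ContinuousOn (fun s : ℝ => (((t₁, z) : T × Z), s)) (Icc (0 : ℝ) 1) := by fun_prop
    have c2 : ContinuousOn (fun s : ℝ => (z, 1 - s)) (Icc (0 : ℝ) 1) := by fun_prop
    have a1 := hV.comp c1 m1
    have a2 : A.Par ((fun x : (T × Z) × ℝ => (g (p + x.2 • (x.1.1 - p)), x.1.2)) ∘
        fun s : ℝ => (((t₁, z) : T × Z), s)) (Icc (0 : ℝ) 1) (U ∘ fun s : ℝ => (z, 1 - s)) := by
      refine (hU.comp c2 m2).congr_map fun s _ => ?_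
      simp
    have a3 := Par.unique isPreconnected_Icc (hc2.comp c1 m1) (hX2.comp m1) a1 a2
      (left_mem_Icc.2 zero_le_one) (by
        have := hV0 (t₁, z) ⟨ht₁, hz⟩
        simpa using this)
    have a4 := a3 (right_mem_Icc.2 zero_le_one)
    simp only [Function.comp_apply, sub_self] at a4
    exact a4.trans (hU0 z hz)

/-- Uniqueness over `G`. -/
theorem Par.unique_fst {T : Type*} [TopologicalSpace T] {G : Set T} (hG : IsPreconnected G)
    {g : T → Q} (hg : ContinuousOn g G) {S : Set Z} (hX : ∀ t ∈ G, ∀ z ∈ S, (g t, z) ∈ A.X)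
    {Y Y' : T × Z → F} (hY : A.Par (fun x : T × Z => (g x.1, x.2)) (G ×ˢ S) Y)
    (hY' : A.Par (fun x : T × Z => (g x.1, x.2)) (G ×ˢ S) Y') {t₁ : T} (ht₁ : t₁ ∈ G) {z : Z}
    (hz : z ∈ S) (he : Y (t₁, z) = Y' (t₁, z)) : ∀ t ∈ G, Y (t, z) = Y' (t, z) := by
  have c1 : ContinuousOn (fun t : T => (t, z)) G := by fun_prop
  have m1 : MapsTo (fun t : T => (t, z)) G (G ×ˢ S) := fun t ht => ⟨ht, hz⟩
  have a1 := hY.comp c1 m1
  have a2 := hY'.comp c1 m1
  have a3 := Par.unique hG (h := (fun x : T × Z => (g x.1, x.2)) ∘ fun t : T => (t, z))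
    (hg.prodMk continuousOn_const) (fun t ht => hX t ht z hz) a1 a2 ht₁ he
  exact fun t ht => a3 ht

end LS

/-! ## Cones -/

/-- The cone over `K` with apex `i h`. -/
def cone (K : Set ℂ) (h : ℝ) : Set ℂ :=
  (fun x : ℂ × ℝ => (1 - x.2 : ℂ) * (h * Complex.I) + x.2 * x.1) '' (K ×ˢ Icc (0 : ℝ) 1)

variable {K : Set ℂ} {h : ℝ}

lemma isCompact_cone (hK : IsCompact K) : IsCompact (cone K h) :=
  (hK.prod isCompact_Icc).image (by fun_prop)

lemma subset_cone : K ⊆ cone K h := fun z hz => ⟨(z, 1), ⟨hz, zero_le_one, le_rfl⟩, by simp⟩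

lemma starConvex_cone : StarConvex ℝ ((h : ℂ) * Complex.I) (cone K h) := by
  rintro _ ⟨⟨t, s⟩, ⟨ht, hs⟩, rfl⟩ a b ha hb hab
  refine ⟨(t, b * s), ⟨ht, mul_nonneg hb hs.1, ?_⟩, ?_⟩
  · have := hs.1
    have := hs.2
    nlinarith
  · have : a = 1 - b := by linarith
    simp only [Complex.real_smul, this]
    push_cast
    ring

lemma cone_im (hh : 0 < h) (hK : ∀ t ∈ K, 0 ≤ t.im) {z : ℂ} (hz : z ∈ cone K h) :
    0 ≤ z.im ∧ (z.im = 0 → z ∈ K) := by
  obtain ⟨⟨t, s⟩, ⟨ht, hs⟩, rfl⟩ := hz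
  have h1 : ((1 - (s : ℂ)) * (h * Complex.I) + s * t).im = (1 - s) * h + s * t.im := by
    simp
  simp only
  rw [h1]
  have h2 := hK t ht
  have h3 : 0 ≤ s * t.im := mul_nonneg hs.1 h2
  have h4 : 0 ≤ (1 - s) * h := mul_nonneg (by linarith [hs.2]) hh.le
  refine ⟨by linarith, fun h5 => ?_⟩
  have h6 : (1 - s) * h = 0 := by linarith
  have h7 : s = 1 := by
    rcases mul_eq_zero.1 h6 with h | h
    · linarith
    · exact absurd h hh.ne'
  subst h7
  simpa using ht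

lemma cone_im_le {b : ℝ} (hb : h ≤ b) (hK : ∀ t ∈ K, t.im ≤ b) {z : ℂ}
    (hz : z ∈ cone K h) : z.im ≤ b := by
  obtain ⟨⟨t, s⟩, ⟨ht, hs⟩, rfl⟩ := hz
  have h1 : ((1 - (s : ℂ)) * (h * Complex.I) + s * t).im = (1 - s) * h + s * t.im := by
    simp
  simp only
  rw [h1]
  have h2 := hK t ht
  have : (1 - s) * h ≤ (1 - s) * b := mul_le_mul_of_nonneg_left hb (by linarith [hs.2])
  have : s * t.im ≤ s * b := mul_le_mul_of_nonneg_left h2 hs.1
  nlinarith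

lemma cone_re {a b : ℝ} (ha : a ≤ 0) (hb : 0 ≤ b) (hK : ∀ t ∈ K, t.re ∈ Icc a b)
    {z : ℂ} (hz : z ∈ cone K h) : z.re ∈ Icc a b := by
  obtain ⟨⟨t, s⟩, ⟨ht, hs⟩, rfl⟩ := hz
  have h1 : ((1 - (s : ℂ)) * (h * Complex.I) + s * t).re = s * t.re := by
    simp
  simp only
  rw [h1]
  have h2 := hK t ht
  constructor
  · nlinarith [hs.1, hs.2, h2.1]
  · nlinarith [hs.1, hs.2, h2.2]

lemma isPreconnected_cone (hne : K.Nonempty) : IsPreconnected (cone K h) := by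
  have h1 : ((h : ℂ) * Complex.I) ∈ cone K h := by
    obtain ⟨t, ht⟩ := hne
    exact ⟨(t, 0), ⟨ht, le_rfl, zero_le_one⟩, by simp⟩
  exact (starConvex_cone.isPathConnected h1).isConnected.isPreconnected

end Pool.Agent.QC
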