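import Pool.Agent.QC.LS.Lift

/-!
# MP_7c50a9_lc: extension of parallel sections around a point (outwards, inwards), gluing
-/

set_option autoImplicit false

open Set Filter Topology Metric

namespace Pool.Agent.QC

namespace LS

variable {E W : Type*} [TopologicalSpace E] {A : LS E W}

section Glue

variable {T : Type*} [TopologicalSpace T] {h : T → E} {S₁ S₂ : Set T} {u₁ u₂ : T → W}

/-- Gluing over two relatively closed sets with connected intersection. -/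
theorem Par.glue (hh : ContinuousOn h (S₁ ∪ S₂)) (hX : MapsTo h (S₁ ∪ S₂) A.X)
    (h1 : A.Par h S₁ u₁) (h2 : A.Par h S₂ u₂)
    (hc1 : ∃ C, IsClosed C ∧ S₁ = C ∩ (S₁ ∪ S₂)) (hc2 : ∃ C, IsClosed C ∧ S₂ = C ∩ (S₁ ∪ S₂))
    (hP : IsPreconnected (S₁ ∩ S₂)) {t : T} (ht1 : t ∈ S₁) (ht2 : t ∈ S₂) (he : u₁ t = u₂ t) :
    ∃ u, A.Par h (S₁ ∪ S₂) u ∧ EqOn u u₁ S₁ ∧ EqOn u u₂ S₂ := by
  classical
  have hE : EqOn u₁ u₂ (S₁ ∩ S₂) :=
    Par.unique hP (hh.mono fun x hx => Or.inl hx.1) (fun x hx => hX (Or.inl hx.1))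
      (h1.mono inter_subset_left) (h2.mono inter_subset_right) ⟨ht1, ht2⟩ he
  have e1 : EqOn (fun x => if x ∈ S₁ then u₁ x else u₂ x) u₁ S₁ := fun x hx => if_pos hx
  have e2 : EqOn (fun x => if x ∈ S₁ then u₁ x else u₂ x) u₂ S₂ := by
    intro x hx
    by_cases hx1 : x ∈ S₁
    · rw [e1 hx1]
      exact hE ⟨hx1, hx⟩
    · exact if_neg hx1
  exact ⟨fun x => if x ∈ S₁ then u₁ x else u₂ x,
    Par.union hh hX (h1.congr e1.symm) (h2.congr e2.symm) hc1 hc2, e1, e2⟩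

/-- Two closed sets. -/
theorem Par.glue_closed (hh : ContinuousOn h (S₁ ∪ S₂)) (hX : MapsTo h (S₁ ∪ S₂) A.X)
    (h1 : A.Par h S₁ u₁) (h2 : A.Par h S₂ u₂) (hc1 : IsClosed S₁) (hc2 : IsClosed S₂)
    (hP : IsPreconnected (S₁ ∩ S₂)) {t : T} (ht1 : t ∈ S₁) (ht2 : t ∈ S₂) (he : u₁ t = u₂ t) :
    ∃ u, A.Par h (S₁ ∪ S₂) u ∧ EqOn u u₁ S₁ ∧ EqOn u u₂ S₂ :=
  Par.glue hh hX h1 h2 ⟨S₁, hc1, by rw [inter_eq_left.2 subset_union_left]⟩
    ⟨S₂, hc2, by rw [inter_eq_left.2 subset_union_right]⟩ hP ht1 ht2 he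

end Glue

/-- Attaching a star shaped set. -/
theorem Par.attach {T : Type*} [AddCommGroup T] [Module ℝ T] [TopologicalSpace T]
    [IsTopologicalAddGroup T] [ContinuousSMul ℝ T] {h : T → E} {S₁ S₂ : Set T} {u₁ : T → W}
    (hh : ContinuousOn h (S₁ ∪ S₂)) (hX : MapsTo h (S₁ ∪ S₂) A.X)
    (h1 : A.Par h S₁ u₁)
    (hc1 : ∃ C, IsClosed C ∧ S₁ = C ∩ (S₁ ∪ S₂)) (hc2 : ∃ C, IsClosed C ∧ S₂ = C ∩ (S₁ ∪ S₂))
    (hP : IsPreconnected (S₁ ∩ S₂)) {t : T} (ht1 : t ∈ S₁) (ht2 : t ∈ S₂)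
    (hS : StarConvex ℝ t S₂) :
    ∃ u, A.Par h (S₁ ∪ S₂) u ∧ EqOn u u₁ S₁ := by
  obtain ⟨u₂, h2, h3⟩ := Par.exists_star (A := A) hS ht2
    (hh.mono subset_union_right) (hX.mono_left subset_union_right) (h1.mem ht1)
  obtain ⟨u, h4, h5, -⟩ := Par.glue hh hX h1 h2 hc1 hc2 hP ht1 ht2 h3.symm
  exact ⟨u, h4, h5⟩

/-! ## Around a point -/

/-- Extension outwards: from a punctured disc to a punctured star shaped set. -/
theorem Par.extend_out {h : ℂ → E} {C : Set ℂ} {w : ℂ} {r : ℝ} (hr : 0 < r)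
    (hC : StarConvex ℝ w C) (hh : ContinuousOn h (C \ {w})) (hX : MapsTo h (C \ {w}) A.X)
    {K : ℂ → W} (hK : A.Par h (ball w r \ {w}) K) (hb : ball w r ⊆ C) :
    ∃ u, A.Par h (C \ {w}) u ∧ EqOn u K (ball w r \ {w}) := by
  set m : ℂ → ℝ := fun z => min 1 (r / (2 * ‖z - w‖)) with hm
  set g : ℂ × ℝ → ℂ := fun p => w + ((((1 - p.2) * m p.1 + p.2 : ℝ)) : ℂ) * (p.1 - w) with hg
  have hmpos : ∀ z, z ≠ w → 0 < m z := by
    intro z hz
    have : 0 < ‖z - w‖ := norm_pos_iff.2 (sub_ne_zero.2 hz)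
    exact lt_min one_pos (by positivity)
  have hm1 : ∀ z, m z ≤ 1 := fun z => min_le_left _ _
  have hfac : ∀ z, z ≠ w → ∀ s ∈ Icc (0 : ℝ) 1, 0 < (1 - s) * m z + s ∧ (1 - s) * m z + s ≤ 1 := by
    intro z hz s hs
    have h1 := hmpos z hz
    have h2 := hm1 z
    constructor
    · rcases eq_or_lt_of_le hs.1 with h | h
      · rw [← h]
        simpa using h1
      · have : 0 ≤ (1 - s) * m z := mul_nonneg (by linarith [hs.2]) h1.le
        linarith
    · nlinarith [hs.1, hs.2]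
  have hgC : ∀ z ∈ C \ {w}, ∀ s ∈ Icc (0 : ℝ) 1, g (z, s) ∈ C \ {w} := by
    intro z hz s hs
    have hzw : z ≠ w := hz.2
    obtain ⟨f1, f2⟩ := hfac z hzw s hs
    refine ⟨?_, ?_⟩
    · have h3 := hC hz.1 (sub_nonneg.2 f2) f1.le (sub_add_cancel _ _)
      have h4 : g (z, s) = (1 - ((1 - s) * m z + s)) • w + ((1 - s) * m z + s) • z := by
        simp only [hg, Complex.real_smul]
        push_cast
        ring
      rw [h4]
      exact h3
    · intro h3
      have h3' : g (z, s) = w := h3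
      have h4 : ((((1 - s) * m z + s : ℝ)) : ℂ) * (z - w) = 0 := by
        simp only [hg] at h3'
        linear_combination h3'
      rcases mul_eq_zero.1 h4 with h5 | h5
      · exact f1.ne' (by exact_mod_cast h5)
      · exact hzw (sub_eq_zero.1 h5)
  have hgb : ∀ z ∈ ball w r \ {w}, ∀ s ∈ Icc (0 : ℝ) 1, g (z, s) ∈ ball w r \ {w} := by
    intro z hz s hs
    refine ⟨?_, (hgC z ⟨hb hz.1, hz.2⟩ s hs).2⟩
    obtain ⟨f1, f2⟩ := hfac z hz.2 s hs
    have hz1 : ‖z - w‖ < r := by simpa [dist_eq_norm] using hz.1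
    rw [mem_ball, dist_eq_norm]
    have : g (z, s) - w = ((((1 - s) * m z + s : ℝ)) : ℂ) * (z - w) := by
      simp only [hg]
      ring
    rw [this, norm_mul, Complex.norm_real, Real.norm_eq_abs, abs_of_pos f1]
    nlinarith [norm_nonneg (z - w)]
  have hg0 : ∀ z ∈ C \ {w}, g (z, 0) ∈ ball w r \ {w} := by
    intro z hz
    refine ⟨?_, (hgC z hz 0 ⟨le_rfl, zero_le_one⟩).2⟩
    have hzw : 0 < ‖z - w‖ := norm_pos_iff.2 (sub_ne_zero.2 hz.2)
    rw [mem_ball, dist_eq_norm]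
    have : g (z, 0) - w = ((m z : ℝ) : ℂ) * (z - w) := by
      simp only [hg]
      push_cast
      ring
    rw [this, norm_mul, Complex.norm_real, Real.norm_eq_abs, abs_of_pos (hmpos z hz.2)]
    have h1 : m z ≤ r / (2 * ‖z - w‖) := min_le_right _ _
    calc m z * ‖z - w‖ ≤ r / (2 * ‖z - w‖) * ‖z - w‖ := by gcongr
      _ = r / 2 := by field_simp
      _ < r := by linarith
  have hg1 : ∀ z, g (z, 1) = z := by
    intro z
    simp [hg]
  have hmc : ContinuousOn m (C \ {w}) := by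
    intro z hz
    have hzw : ‖z - w‖ ≠ 0 := norm_ne_zero_iff.2 (sub_ne_zero.2 hz.2)
    have h1 : ContinuousAt (fun z : ℂ => min (1 : ℝ) (r / (2 * ‖z - w‖))) z := by
      refine Filter.Tendsto.min tendsto_const_nhds ?_
      refine ContinuousAt.div continuousAt_const (by fun_prop) ?_
      positivity
    exact h1.continuousWithinAt
  have hgc : ContinuousOn g ((C \ {w}) ×ˢ Icc (0 : ℝ) 1) := by
    have h1 : ContinuousOn (fun p : ℂ × ℝ => m p.1) ((C \ {w}) ×ˢ Icc (0 : ℝ) 1) :=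
      hmc.comp continuousOn_fst fun p hp => hp.1
    have h2 : ContinuousOn (fun p : ℂ × ℝ => ((1 - p.2) * m p.1 + p.2 : ℝ))
        ((C \ {w}) ×ˢ Icc (0 : ℝ) 1) := by
      exact ((continuousOn_const.sub continuousOn_snd).mul h1).add continuousOn_snd
    refine continuousOn_const.add (ContinuousOn.mul ?_ (by fun_prop))
    exact Complex.continuous_ofReal.comp_continuousOn h2
  have hmap : MapsTo g ((C \ {w}) ×ˢ Icc (0 : ℝ) 1) (C \ {w}) := fun p hp =>
    hgC p.1 hp.1 p.2 hp.2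
  have hc0 : ContinuousOn (fun z : ℂ => g (z, 0)) (C \ {w}) :=
    hgc.comp (f := fun z : ℂ => (z, (0 : ℝ))) (by fun_prop) fun z hz => ⟨hz, le_rfl, zero_le_one⟩
  have hK0 : A.Par (fun z : ℂ => (h ∘ g) (z, 0)) (C \ {w}) (K ∘ fun z => g (z, 0)) :=
    hK.comp hc0 fun z hz => hg0 z hz
  obtain ⟨U, hU, hU0⟩ := Par.lift (hh.comp hgc hmap) (hX.comp hmap) hK0
  refine ⟨fun z => U (z, 1), ?_, ?_⟩
  · have h1 := hU.comp (g := fun z : ℂ => (z, (1 : ℝ))) (R := C \ {w}) (by fun_prop)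
      fun z hz => ⟨hz, zero_le_one, le_rfl⟩
    refine h1.congr_map fun z _ => ?_
    simp [hg1]
  · intro z hz
    have hzC : z ∈ C \ {w} := ⟨hb hz.1, hz.2⟩
    have hc1 : ContinuousOn (fun s : ℝ => (z, s)) (Icc (0 : ℝ) 1) := by fun_prop
    have hm1 : MapsTo (fun s : ℝ => (z, s)) (Icc (0 : ℝ) 1) ((C \ {w}) ×ˢ Icc (0 : ℝ) 1) :=
      fun s hs => ⟨hzC, hs⟩
    have a1 : A.Par ((h ∘ g) ∘ fun s : ℝ => (z, s)) (Icc (0 : ℝ) 1) (U ∘ fun s : ℝ => (z, s)) :=
      hU.comp hc1 hm1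
    have a2 : A.Par ((h ∘ g) ∘ fun s : ℝ => (z, s)) (Icc (0 : ℝ) 1)
        (K ∘ (g ∘ fun s : ℝ => (z, s))) :=
      hK.comp (hgc.comp hc1 hm1) fun s hs => hgb z hz s hs
    have a3 := Par.unique isPreconnected_Icc (((hh.comp hgc hmap)).comp hc1 hm1)
      ((hX.comp hmap).comp hm1) a1 a2 (left_mem_Icc.2 zero_le_one) (by
        have := hU0 z hzC
        simpa using this)
    have := a3 (right_mem_Icc.2 zero_le_one)
    simp only [Function.comp_apply, hg1] at this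
    exact this

/-- Extension inwards: from the boundary of a compact convex set to the set without an interior
point. -/
theorem Par.extend_in {h : ℂ → E} {C : Set ℂ} {w : ℂ} (hC : Convex ℝ C) (hcl : IsClosed C)
    (hbd : Bornology.IsBounded C) (hw : w ∈ interior C) (hh : ContinuousOn h (C \ {w}))
    (hX : MapsTo h (C \ {w}) A.X) {K : ℂ → W} (hK : A.Par h (frontier C) K) :
    ∃ u, A.Par h (C \ {w}) u ∧ EqOn u K (frontier C) := by
  set C₀ : Set ℂ := (fun x => w + x) ⁻¹' C with hC₀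
  have hC₀c : Convex ℝ C₀ := hC.translate_preimage_right w
  have hC₀n : C₀ ∈ 𝓝 (0 : ℂ) := by
    have h1 : C ∈ 𝓝 w := mem_interior_iff_mem_nhds.1 hw
    have h2 : ContinuousAt (fun x : ℂ => w + x) 0 := by fun_prop
    exact h2.preimage_mem_nhds (by simpa using h1)
  have hC₀cl : IsClosed C₀ := hcl.preimage (by fun_prop)
  have hC₀b : Bornology.IsVonNBounded ℝ C₀ := by
    rw [NormedSpace.isVonNBounded_iff]
    obtain ⟨M, hM⟩ := hbd.exists_norm_le
    refine isBounded_iff_forall_norm_le.2 ⟨M + ‖w‖, fun x hx => ?_⟩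
    have h1 := hM (w + x) hx
    calc ‖x‖ = ‖(w + x) - w‖ := by ring_nf
      _ ≤ ‖w + x‖ + ‖w‖ := norm_sub_le _ _
      _ ≤ M + ‖w‖ := by linarith
  set G : ℂ → ℝ := fun z => gauge C₀ (z - w) with hG
  have hGc : Continuous G := (continuous_gauge hC₀c hC₀n).comp (by fun_prop)
  have hGpos : ∀ z, z ≠ w → 0 < G z := fun z hz =>
    (gauge_pos (absorbent_nhds_zero hC₀n) hC₀b).2 (sub_ne_zero.2 hz)
  have hGle : ∀ z, G z ≤ 1 ↔ z ∈ C := by
    intro z
    rw [hG]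
    simp only
    rw [gauge_le_one_iff_mem_closure hC₀c hC₀n, hC₀cl.closure_eq, hC₀]
    simp
  have hfr : ∀ z, G z = 1 ↔ z ∈ frontier C := by
    intro z
    rw [hG]
    simp only
    rw [gauge_eq_one_iff_mem_frontier hC₀c hC₀n]
    have h1 : frontier C₀ = (fun x => w + x) ⁻¹' frontier C :=
      ((Homeomorph.addLeft w).preimage_frontier C).symm
    rw [h1]
    simp
  have hGmul : ∀ (c : ℝ) (z : ℂ), 0 ≤ c → G (w + (c : ℂ) * (z - w)) = c * G z := by
    intro c z hc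
    simp only [hG]
    have : w + (c : ℂ) * (z - w) - w = c • (z - w) := by
      rw [Complex.real_smul]
      ring
    rw [this, gauge_smul_of_nonneg hc]
    simp
  set g : ℂ × ℝ → ℂ := fun p => w + ((((1 - p.2) / G p.1 + p.2 : ℝ)) : ℂ) * (p.1 - w) with hg
  have hfac : ∀ z ∈ C \ {w}, ∀ s ∈ Icc (0 : ℝ) 1, 1 ≤ (1 - s) / G z + s ∧
      ((1 - s) / G z + s) * G z ≤ 1 := by
    intro z hz s hs
    have h1 := hGpos z hz.2
    have h2 := (hGle z).2 hz.1
    have h3 : (1 - s) ≤ (1 - s) / G z := by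
      rw [le_div_iff₀ h1]
      nlinarith [hs.2]
    refine ⟨by linarith, ?_⟩
    have h4 : ((1 - s) / G z + s) * G z = (1 - s) + s * G z := by
      field_simp
    rw [h4]
    nlinarith [hs.1]
  have hgC : ∀ z ∈ C \ {w}, ∀ s ∈ Icc (0 : ℝ) 1, g (z, s) ∈ C \ {w} := by
    intro z hz s hs
    obtain ⟨f1, f2⟩ := hfac z hz s hs
    refine ⟨?_, ?_⟩
    · rw [← hGle]
      simp only [hg]
      rw [hGmul _ _ (by linarith)]
      exact f2
    · intro h3
      have h3' : g (z, s) = w := h3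
      have h4 : ((((1 - s) / G z + s : ℝ)) : ℂ) * (z - w) = 0 := by
        simp only [hg] at h3'
        linear_combination h3'
      rcases mul_eq_zero.1 h4 with h5 | h5
      · have : (1 - s) / G z + s = 0 := by exact_mod_cast h5
        linarith
      · exact hz.2 (sub_eq_zero.1 h5)
  have hg0 : ∀ z ∈ C \ {w}, g (z, 0) ∈ frontier C := by
    intro z hz
    rw [← hfr]
    simp only [hg]
    rw [hGmul _ _ (by have := hGpos z hz.2; simp only [sub_zero, add_zero]; positivity)]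
    have := hGpos z hz.2
    field_simp
    ring
  have hg1 : ∀ z, g (z, 1) = z := by
    intro z
    simp [hg]
  have hgc : ContinuousOn g ((C \ {w}) ×ˢ Icc (0 : ℝ) 1) := by
    have h2 : ContinuousOn (fun p : ℂ × ℝ => ((1 - p.2) / G p.1 + p.2 : ℝ))
        ((C \ {w}) ×ˢ Icc (0 : ℝ) 1) := by
      refine ContinuousOn.add (ContinuousOn.div (by fun_prop)
        (hGc.comp continuous_fst).continuousOn ?_) continuousOn_snd
      intro p hp
      exact (hGpos p.1 hp.1.2).ne'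
    refine continuousOn_const.add (ContinuousOn.mul ?_ (by fun_prop))
    exact Complex.continuous_ofReal.comp_continuousOn h2
  have hmap : MapsTo g ((C \ {w}) ×ˢ Icc (0 : ℝ) 1) (C \ {w}) := fun p hp =>
    hgC p.1 hp.1 p.2 hp.2
  have hc0 : ContinuousOn (fun z : ℂ => g (z, 0)) (C \ {w}) :=
    hgc.comp (f := fun z : ℂ => (z, (0 : ℝ))) (by fun_prop) fun z hz => ⟨hz, le_rfl, zero_le_one⟩
  have hK0 : A.Par (fun z : ℂ => (h ∘ g) (z, 0)) (C \ {w}) (K ∘ fun z => g (z, 0)) :=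
    hK.comp hc0 fun z hz => hg0 z hz
  obtain ⟨U, hU, hU0⟩ := Par.lift (hh.comp hgc hmap) (hX.comp hmap) hK0
  refine ⟨fun z => U (z, 1), ?_, ?_⟩
  · have h1 := hU.comp (g := fun z : ℂ => (z, (1 : ℝ))) (R := C \ {w}) (by fun_prop)
      fun z hz => ⟨hz, zero_le_one, le_rfl⟩
    refine h1.congr_map fun z _ => ?_
    simp [hg1]
  · intro z hz
    have hzw : z ≠ w := by
      rintro rfl
      exact hz.2 hw
    have hzC : z ∈ C \ {w} := ⟨hcl.frontier_subset hz, hzw⟩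
    have hGz : G z = 1 := (hfr z).2 hz
    have hgz : ∀ s, g (z, s) = z := by
      intro s
      simp only [hg, hGz]
      push_cast
      ring
    have hc1 : ContinuousOn (fun s : ℝ => (z, s)) (Icc (0 : ℝ) 1) := by fun_prop
    have hm1 : MapsTo (fun s : ℝ => (z, s)) (Icc (0 : ℝ) 1) ((C \ {w}) ×ˢ Icc (0 : ℝ) 1) :=
      fun s hs => ⟨hzC, hs⟩
    have a1 : A.Par ((h ∘ g) ∘ fun s : ℝ => (z, s)) (Icc (0 : ℝ) 1) (U ∘ fun s : ℝ => (z, s)) :=
      hU.comp hc1 hm1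
    have a2 : A.Par ((h ∘ g) ∘ fun s : ℝ => (z, s)) (Icc (0 : ℝ) 1) (fun _ => K z) := by
      have a3 : A.Par (h ∘ fun _ : ℝ => z) (Icc (0 : ℝ) 1) (K ∘ fun _ : ℝ => z) :=
        hK.comp (g := fun _ : ℝ => z) continuousOn_const fun s _ => hz
      refine a3.congr_map fun s _ => ?_
      simp [hgz]
    have a3 := Par.unique isPreconnected_Icc (((hh.comp hgc hmap)).comp hc1 hm1)
      ((hX.comp hmap).comp hm1) a1 a2 (left_mem_Icc.2 zero_le_one) (by
        have := hU0 z hzC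
        simpa [hgz] using this)
    have := a3 (right_mem_Icc.2 zero_le_one)
    simpa using this

end LS

end Pool.Agent.QC
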