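import Pool.Agent.QC.Plane.Local
import Pool.Agent.QC.InvThm

/-!
# MP_7c50a9_lc: one event, from the plane system at the end to the transition of vectors

(5.5 and section 6 of QC_Proof.md.)
-/

set_option autoImplicit false

open Set Metric Filter Topology

namespace Pool.Agent.QC

namespace PlaneSys

variable {F : Type*} [AddCommGroup F] [Module ℂ F] (C : PlaneSys F)

lemma regUp_top_ann {lft : Bool} {w : ℂ} {ε : ℝ} : C.regUp lft w ε ∩ up C.R0 ⊆ C.ann :=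
  fun z hz => ⟨hz.1.1, fun h3 => by
    have h4 := (abs_le.mp h3.2).2
    have h5 : C.R0 < z.im := hz.2
    linarith⟩

lemma regDn_bot_ann {lft : Bool} {w : ℂ} {ε : ℝ} : C.regDn lft w ε ∩ dn (-C.R0) ⊆ C.ann :=
  fun z hz => ⟨hz.1.1, fun h3 => by
    have h4 := (abs_le.mp h3.2).1
    have h5 : z.im < -C.R0 := hz.2
    linarith⟩

theorem PUp.congr {lft : Bool} {J J' : ℂ → F} {w : ℂ} (h : C.PUp lft J w)
    (he : EqOn J J' C.ann) : C.PUp lft J' w := by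
  obtain ⟨ε, hε, g, h1, h2⟩ := h
  exact ⟨ε, hε, g, h1, fun z hz => by rw [h2 hz, he (C.regUp_top_ann hz)]⟩

theorem PDn.congr {lft : Bool} {J J' : ℂ → F} {w : ℂ} (h : C.PDn lft J w)
    (he : EqOn J J' C.ann) : C.PDn lft J' w := by
  obtain ⟨ε, hε, g, h1, h2⟩ := h
  exact ⟨ε, hε, g, h1, fun z hz => by rw [h2 hz, he (C.regDn_bot_ann hz)]⟩

theorem PUp.comb {lft : Bool} {J J' : ℂ → F} {w : ℂ} (a b : ℂ) (h : C.PUp lft J w)
    (h' : C.PUp lft J' w) : C.PUp lft (fun z => a • J z + b • J' z) w := by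
  obtain ⟨ε₀, hε₀, h⟩ := PUp.small C h
  obtain ⟨ε₁, hε₁, h'⟩ := PUp.small C h'
  obtain ⟨g, h1, h2⟩ := h (min ε₀ ε₁) (lt_min hε₀ hε₁) (min_le_left _ _)
  obtain ⟨g', h1', h2'⟩ := h' (min ε₀ ε₁) (lt_min hε₀ hε₁) (min_le_right _ _)
  refine ⟨min ε₀ ε₁, lt_min hε₀ hε₁, _, C.comb a b (C.isOpen_regUp _ _ _) h1 h1', ?_⟩
  intro z hz
  simp only
  rw [h2 hz, h2' hz]

theorem PDn.comb {lft : Bool} {J J' : ℂ → F} {w : ℂ} (a b : ℂ) (h : C.PDn lft J w)
    (h' : C.PDn lft J' w) : C.PDn lft (fun z => a • J z + b • J' z) w := by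
  rw [PDn_iff] at *
  exact PUp.comb C.flip a b h h'

/-- A solution on a bigger set gives the top-down condition. -/
theorem PUp.of_sol {lft : Bool} {J g : ℂ → F} {w : ℂ} {ε : ℝ} (hε : 0 < ε) {Ω : Set ℂ}
    (hg : C.Sol Ω g) (he : EqOn g J (C.ann ∩ Ω)) (hsub : C.regUp lft w ε ⊆ Ω) :
    C.PUp lft J w :=
  ⟨ε, hε, g, C.mono (C.isOpen_regUp _ _ _) hsub hg,
    fun z hz => he ⟨C.regUp_top_ann hz, hsub hz.1⟩⟩

lemma isOpen_stripDn (lft : Bool) (w : ℂ) (ε : ℝ) : IsOpen (stripDn lft w ε) := by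
  rw [← neg_preimage_strip]
  exact isOpen_neg_preimage (isOpen_strip _ _ _)

lemma isOpen_regDn (lft : Bool) (w : ℂ) (ε : ℝ) : IsOpen (C.regDn lft w ε) :=
  (isOpen_sq _).inter ((isOpen_stripDn lft w ε).union isOpen_ball)

theorem PDn.of_sol {lft : Bool} {J g : ℂ → F} {w : ℂ} {ε : ℝ} (hε : 0 < ε) {Ω : Set ℂ}
    (hg : C.Sol Ω g) (he : EqOn g J (C.ann ∩ Ω)) (hsub : C.regDn lft w ε ⊆ Ω) :
    C.PDn lft J w :=
  ⟨ε, hε, g, C.mono (C.isOpen_regDn _ _ _) hsub hg,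
    fun z hz => he ⟨C.regDn_bot_ann hz, hsub hz.1⟩⟩

/-- `J` extends to the upper half plane. -/
def ExtUp (J : ℂ → F) : Prop := ∃ g, C.Sol (sq C.R1 ∩ up 0) g ∧ EqOn g J (C.ann ∩ up 0)

/-- `J` extends to the lower half plane. -/
def ExtDn (J : ℂ → F) : Prop := ∃ g, C.Sol (sq C.R1 ∩ dn 0) g ∧ EqOn g J (C.ann ∩ dn 0)

/-- `J` extends to the outside of `K`. -/
def ExtOff (K : Set ℂ) (J : ℂ → F) : Prop := ∃ g, C.Sol (sq C.R1 \ K) g ∧ EqOn g J C.ann

theorem ExtUp.pUp {lft : Bool} {J : ℂ → F} (h : C.ExtUp J) {w : ℂ} (hw : 0 < w.im) :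
    C.PUp lft J w := by
  obtain ⟨g, h1, h2⟩ := h
  refine PUp.of_sol C hw h1 (fun z hz => h2 ⟨hz.1, hz.2.2⟩) ?_
  rintro z ⟨hz1, hz2 | hz2⟩
  · exact ⟨hz1, hw.trans (strip_up hz2)⟩
  · refine ⟨hz1, ?_⟩
    rw [mem_ball, Complex.dist_eq] at hz2
    have h3 := Complex.abs_im_le_norm (z - w)
    rw [Complex.sub_im] at h3
    have h4 := (abs_lt.mp (lt_of_le_of_lt h3 hz2)).1
    change 0 < z.im
    linarith

theorem ExtDn.pDn {lft : Bool} {J : ℂ → F} (h : C.ExtDn J) {w : ℂ} (hw : w.im < 0) :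
    C.PDn lft J w := by
  obtain ⟨g, h1, h2⟩ := h
  refine PDn.of_sol C (ε := -w.im) (by linarith) h1 (fun z hz => h2 ⟨hz.1, hz.2.2⟩) ?_
  rintro z ⟨hz1, hz2 | hz2⟩
  · refine ⟨hz1, ?_⟩
    have : z.im < w.im := by
      cases lft
      · exact hz2.2.2
      · exact hz2.2.2
    change z.im < 0
    linarith
  · refine ⟨hz1, ?_⟩
    rw [mem_ball, Complex.dist_eq] at hz2
    have h3 := Complex.abs_im_le_norm (z - w)
    rw [Complex.sub_im] at h3
    have h4 := (abs_lt.mp (lt_of_le_of_lt h3 hz2)).2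
    change z.im < 0
    linarith

/-- The strip region above a point far from the disc does not meet the disc. -/
theorem regUp_off {lft : Bool} {w : ℂ} {v r : ℝ} (hw : 0 ≤ w.im)
    (h : r < |w.re - v| ∨ r < |w.im|) :
    ∃ ε > 0, C.regUp lft w ε ⊆ sq C.R1 \ csqc (v : ℂ) r := by
  have key : ∀ z : ℂ, z ∈ csqc (v : ℂ) r → |z.re - v| ≤ r ∧ |z.im| ≤ r := by
    intro z hz
    have h1 := hz.1
    have h2 := hz.2
    rw [Complex.ofReal_re] at h1
    rw [Complex.ofReal_im, sub_zero] at h2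
    exact ⟨h1, h2⟩
  rcases h with h | h
  · refine ⟨|w.re - v| - r, by linarith, ?_⟩
    rintro z ⟨hz1, hz2⟩
    refine ⟨hz1, fun hz3 => ?_⟩
    have h1 := (key z hz3).1
    have h2 : |z.re - w.re| < |w.re - v| - r := by
      rcases hz2 with hz2 | hz2
      · cases lft
        · rw [abs_lt]
          exact ⟨by linarith [hz2.1], by linarith [hz2.2.1]⟩
        · rw [abs_lt]
          exact ⟨by linarith [hz2.1], by linarith [hz2.2.1]⟩
      · rw [mem_ball, Complex.dist_eq] at hz2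
        have h3 := Complex.abs_re_le_norm (z - w)
        rw [Complex.sub_re] at h3
        linarith
    have h3 : |w.re - v| ≤ |z.re - v| + |z.re - w.re| := by
      have := abs_sub_le w.re z.re v
      rw [abs_sub_comm w.re z.re] at this
      linarith
    linarith
  · rw [abs_of_nonneg hw] at h
    refine ⟨w.im - r, by linarith, ?_⟩
    rintro z ⟨hz1, hz2⟩
    refine ⟨hz1, fun hz3 => ?_⟩
    have h1 := (abs_le.mp (key z hz3).2).2
    rcases hz2 with hz2 | hz2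
    · have := strip_up hz2
      linarith
    · rw [mem_ball, Complex.dist_eq] at hz2
      have h3 := Complex.abs_im_le_norm (z - w)
      rw [Complex.sub_im] at h3
      have h4 := (abs_lt.mp (lt_of_le_of_lt h3 hz2)).1
      linarith

theorem regDn_off {lft : Bool} {w : ℂ} {v r : ℝ} (hw : w.im ≤ 0)
    (h : r < |w.re - v| ∨ r < |w.im|) :
    ∃ ε > 0, C.regDn lft w ε ⊆ sq C.R1 \ csqc (v : ℂ) r := by
  obtain ⟨ε, hε, h1⟩ := C.flip.regUp_off (lft := !lft) (w := -w) (v := -v) (r := r)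
    (by rw [Complex.neg_im]; linarith) (by
      rw [Complex.neg_re, Complex.neg_im, abs_neg,
        show -w.re - -v = -(w.re - v) by ring, abs_neg]
      exact h)
  refine ⟨ε, hε, ?_⟩
  rw [← regDn_eq]
  refine (preimage_mono h1).trans ?_
  rintro z ⟨hz1, hz2⟩
  refine ⟨?_, fun hz3 => hz2 ?_⟩
  · have : z ∈ (fun z : ℂ => -z) ⁻¹' sq C.R1 := hz1
    rwa [neg_preimage_sq] at this
  · have h2 := hz3.1
    have h3 := hz3.2
    refine ⟨?_, ?_⟩
    · rw [Complex.neg_re, Complex.ofReal_re, ← abs_neg]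
      rw [Complex.ofReal_re] at h2
      rw [show -(-z.re - -v) = z.re - v by ring]
      exact h2
    · rw [Complex.neg_im, Complex.ofReal_im, ← abs_neg]
      rw [Complex.ofReal_im] at h3
      rw [show -(-z.im - 0) = z.im - 0 by ring]
      exact h3

theorem ExtOff.pUp {lft : Bool} {J : ℂ → F} {v r : ℝ} (h : C.ExtOff (csqc (v : ℂ) r) J)
    {w : ℂ} (hw : 0 ≤ w.im) (hwr : r < |w.re - v| ∨ r < |w.im|) : C.PUp lft J w := by
  obtain ⟨g, h1, h2⟩ := h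
  obtain ⟨ε, hε, h3⟩ := C.regUp_off (lft := lft) hw hwr
  exact PUp.of_sol C hε h1 (fun z hz => h2 hz.1) h3

/-- `J` extends to the upper half plane minus `K`. -/
def ExtUpOff (K : Set ℂ) (J : ℂ → F) : Prop :=
  ∃ g, C.Sol ((sq C.R1 ∩ up 0) \ K) g ∧ EqOn g J ((C.ann ∩ up 0) \ K)

/-- `J` extends to the lower half plane minus `K`. -/
def ExtDnOff (K : Set ℂ) (J : ℂ → F) : Prop :=
  ∃ g, C.Sol ((sq C.R1 ∩ dn 0) \ K) g ∧ EqOn g J ((C.ann ∩ dn 0) \ K)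

theorem ExtUpOff.pUp {lft : Bool} {J : ℂ → F} {v r : ℝ}
    (h : C.ExtUpOff (csqc (v : ℂ) r) J)
    {w : ℂ} (hw : 0 < w.im) (hwr : r < |w.re - v| ∨ r < |w.im|) : C.PUp lft J w := by
  obtain ⟨g, h1, h2⟩ := h
  obtain ⟨ε, hε, h3⟩ := C.regUp_off (lft := lft) hw.le hwr
  refine PUp.of_sol C (lt_min hε hw) h1 (fun z hz => h2 ⟨⟨hz.1, hz.2.1.2⟩, hz.2.2⟩) ?_
  intro z hz
  have hz' := h3 (C.regUp_mono (min_le_left _ _) hz)
  refine ⟨⟨hz'.1, ?_⟩, hz'.2⟩
  rcases hz.2 with hz2 | hz2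
  · exact hw.trans (strip_up hz2)
  · rw [mem_ball, Complex.dist_eq] at hz2
    have h3 := Complex.abs_im_le_norm (z - w)
    rw [Complex.sub_im] at h3
    have h4 := (abs_lt.mp (lt_of_le_of_lt h3 (lt_of_lt_of_le hz2 (min_le_right _ _)))).1
    change 0 < z.im
    linarith

theorem ExtDnOff.pDn {lft : Bool} {J : ℂ → F} {v r : ℝ}
    (h : C.ExtDnOff (csqc (v : ℂ) r) J)
    {w : ℂ} (hw : w.im < 0) (hwr : r < |w.re - v| ∨ r < |w.im|) : C.PDn lft J w := by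
  obtain ⟨g, h1, h2⟩ := h
  obtain ⟨ε, hε, h3⟩ := C.regDn_off (lft := lft) hw.le hwr
  have hsub : C.regDn lft w (min ε (-w.im)) ⊆ C.regDn lft w ε := by
    rintro z ⟨hz1, hz2 | hz2⟩
    · refine ⟨hz1, Or.inl ?_⟩
      cases lft
      · exact ⟨hz2.1, by linarith [hz2.2.1, min_le_left ε (-w.im)], hz2.2.2⟩
      · exact ⟨by linarith [hz2.1, min_le_left ε (-w.im)], hz2.2.1, hz2.2.2⟩
    · exact ⟨hz1, Or.inr (ball_subset_ball (min_le_left _ _) hz2)⟩
  refine PDn.of_sol C (lt_min hε (by linarith : 0 < -w.im)) h1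
    (fun z hz => h2 ⟨⟨hz.1, hz.2.1.2⟩, hz.2.2⟩) ?_
  intro z hz
  have hz' := h3 (hsub hz)
  refine ⟨⟨hz'.1, ?_⟩, hz'.2⟩
  rcases hz.2 with hz2 | hz2
  · have : z.im < w.im := by
      cases lft
      · exact hz2.2.2
      · exact hz2.2.2
    change z.im < 0
    linarith
  · rw [mem_ball, Complex.dist_eq] at hz2
    have h3 := Complex.abs_im_le_norm (z - w)
    rw [Complex.sub_im] at h3
    have h4 := (abs_lt.mp (lt_of_le_of_lt h3 (lt_of_lt_of_le hz2 (min_le_right _ _)))).2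
    change z.im < 0
    linarith

theorem ExtOff.pDn {lft : Bool} {J : ℂ → F} {v r : ℝ} (h : C.ExtOff (csqc (v : ℂ) r) J)
    {w : ℂ} (hw : w.im ≤ 0) (hwr : r < |w.re - v| ∨ r < |w.im|) : C.PDn lft J w := by
  obtain ⟨g, h1, h2⟩ := h
  obtain ⟨ε, hε, h3⟩ := C.regDn_off (lft := lft) hw hwr
  exact PDn.of_sol C hε h1 (fun z hz => h2 hz.1) h3

end PlaneSys

/-- The plane at the end of the path of an event, seen from the base: `V₀` is the space of OUT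
elements at the base, `sol w` the OUT solution at the end obtained from `w`. `a`, `b` is the pair
of singular points (upper/lower point, or right/left point in the real case). -/
structure EvPlane (F : Type*) [AddCommGroup F] [Module ℂ F] where
  /-- the plane system at the end -/
  C : PlaneSys F
  /-- the OUT elements at the base -/
  V₀ : Submodule ℂ F
  /-- the OUT solutions at the end -/
  sol : F → ℂ → F
  out : ∀ w ∈ V₀, C.Out (sol w)
  comb : ∀ (x y : ℂ) (w w' : F), w ∈ V₀ → w' ∈ V₀ →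
    EqOn (sol (x • w + y • w')) (fun z => x • sol w z + y • sol w' z) C.ann
  inj : ∀ w ∈ V₀, (∀ z ∈ C.ann, sol w z = 0) → w = 0
  /-- the upper (right) point of the pair -/
  a : ℂ
  /-- the lower (left) point of the pair -/
  b : ℂ
  ha : a ∈ C.S
  hb : b ∈ C.S

namespace EvPlane

variable {F : Type*} [AddCommGroup F] [Module ℂ F] (D : EvPlane F)

/-- Closure under linear combinations. -/
lemma mem_of {P : (ℂ → F) → Prop} (hc : ∀ J J', EqOn J J' D.C.ann → P J → P J')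
    (hl : ∀ (x y : ℂ) (J J' : ℂ → F), P J → P J' → P (fun z => x • J z + y • J' z))
    (x y : ℂ) {w w' : F} (h : w ∈ D.V₀) (h' : w' ∈ D.V₀) (hP : P (D.sol w)) (hP' : P (D.sol w')) :
    P (D.sol (x • w + y • w')) :=
  hc _ _ (D.comb x y w w' h h').symm (hl x y _ _ hP hP')

/-- A submodule from a predicate. -/
def sub (P : (ℂ → F) → Prop) (hc : ∀ J J', EqOn J J' D.C.ann → P J → P J')
    (hl : ∀ (x y : ℂ) (J J' : ℂ → F), P J → P J' → P (fun z => x • J z + y • J' z))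
    (h0 : P (fun _ => 0)) : Submodule ℂ F where
  carrier := {w | w ∈ D.V₀ ∧ P (D.sol w)}
  add_mem' := by
    rintro w w' ⟨h1, h2⟩ ⟨h1', h2'⟩
    refine ⟨D.V₀.add_mem h1 h1', ?_⟩
    have h3 := D.mem_of hc hl 1 1 h1 h1' h2 h2'
    rwa [one_smul, one_smul] at h3
  zero_mem' := by
    refine ⟨D.V₀.zero_mem, ?_⟩
    have h3 := D.comb 0 0 0 0 D.V₀.zero_mem D.V₀.zero_mem
    rw [zero_smul, add_zero] at h3
    refine hc _ _ (fun z hz => ?_) h0
    rw [h3 hz]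
    simp
  smul_mem' := by
    rintro c w ⟨h1, h2⟩
    refine ⟨D.V₀.smul_mem c h1, ?_⟩
    have h3 := D.mem_of hc hl c 0 h1 h1 h2 h2
    rwa [zero_smul, add_zero] at h3

/-- The top-down condition at `w`. -/
def CU (w : ℂ) : Submodule ℂ F :=
  D.sub (fun J => D.C.PUp true J w) (fun _ _ he h => PlaneSys.PUp.congr _ h he)
    (fun x y _ _ h h' => PlaneSys.PUp.comb _ x y h h')
    ⟨1, one_pos, fun _ => 0, D.C.zero (D.C.isOpen_regUp _ _ _), fun _ _ => rfl⟩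

/-- The bottom-up condition at `w`. -/
def CD (w : ℂ) : Submodule ℂ F :=
  D.sub (fun J => D.C.PDn true J w) (fun _ _ he h => PlaneSys.PDn.congr _ h he)
    (fun x y _ _ h h' => PlaneSys.PDn.comb _ x y h h')
    ⟨1, one_pos, fun _ => 0, D.C.zero (D.C.isOpen_regDn _ _ _), fun _ _ => rfl⟩

lemma mem_CU {w : ℂ} {x : F} : x ∈ D.CU w ↔ x ∈ D.V₀ ∧ D.C.PUp true (D.sol x) w := Iff.rfl

lemma mem_CD {w : ℂ} {x : F} : x ∈ D.CD w ↔ x ∈ D.V₀ ∧ D.C.PDn true (D.sol x) w := Iff.rfl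

/-- All conditions except those at the pair; the real points carry both conditions. -/
def EE : Submodule ℂ F :=
  D.V₀ ⊓ (⨅ w ∈ {w | w ∈ D.C.S ∧ w ≠ D.a ∧ w ≠ D.b ∧ 0 ≤ w.im}, D.CU w) ⊓
    ⨅ w ∈ {w | w ∈ D.C.S ∧ w ≠ D.a ∧ w ≠ D.b ∧ w.im ≤ 0}, D.CD w

lemma mem_EE {x : F} : x ∈ D.EE ↔ x ∈ D.V₀ ∧
    (∀ w ∈ D.C.S, w ≠ D.a → w ≠ D.b → 0 ≤ w.im → D.C.PUp true (D.sol x) w) ∧
    (∀ w ∈ D.C.S, w ≠ D.a → w ≠ D.b → w.im ≤ 0 → D.C.PDn true (D.sol x) w) := by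
  unfold EE
  simp only [Submodule.mem_inf, Submodule.mem_iInf, mem_ofPred_eq, mem_CU, mem_CD]
  constructor
  · rintro ⟨⟨h1, h2⟩, h3⟩
    exact ⟨h1, fun w hw ha hb him => (h2 w ⟨hw, ha, hb, him⟩).2,
      fun w hw ha hb him => (h3 w ⟨hw, ha, hb, him⟩).2⟩
  · rintro ⟨h1, h2, h3⟩
    exact ⟨⟨h1, fun w hw => ⟨h1, h2 w hw.1 hw.2.1 hw.2.2.1 hw.2.2.2⟩⟩,
      fun w hw => ⟨h1, h3 w hw.1 hw.2.1 hw.2.2.1 hw.2.2.2⟩⟩

/-- All top-down conditions at the points above the real axis, and the one at `a`. -/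
def UU : Submodule ℂ F := D.V₀ ⊓ ⨅ w ∈ {w | w ∈ D.C.S ∧ (0 < w.im ∨ w = D.a)}, D.CU w

/-- All bottom-up conditions at the points below the real axis, and the one at `b`. -/
def LL : Submodule ℂ F := D.V₀ ⊓ ⨅ w ∈ {w | w ∈ D.C.S ∧ (w.im < 0 ∨ w = D.b)}, D.CD w

lemma mem_UU {x : F} : x ∈ D.UU ↔ x ∈ D.V₀ ∧
    ∀ w ∈ D.C.S, (0 < w.im ∨ w = D.a) → D.C.PUp true (D.sol x) w := by
  unfold UU
  simp only [Submodule.mem_inf, Submodule.mem_iInf, mem_ofPred_eq, mem_CU]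
  constructor
  · rintro ⟨h1, h2⟩
    exact ⟨h1, fun w hw h => (h2 w ⟨hw, h⟩).2⟩
  · rintro ⟨h1, h2⟩
    exact ⟨h1, fun w hw => ⟨h1, h2 w hw.1 hw.2⟩⟩

lemma mem_LL {x : F} : x ∈ D.LL ↔ x ∈ D.V₀ ∧
    ∀ w ∈ D.C.S, (w.im < 0 ∨ w = D.b) → D.C.PDn true (D.sol x) w := by
  unfold LL
  simp only [Submodule.mem_inf, Submodule.mem_iInf, mem_ofPred_eq, mem_CD]
  constructor
  · rintro ⟨h1, h2⟩
    exact ⟨h1, fun w hw h => (h2 w ⟨hw, h⟩).2⟩
  · rintro ⟨h1, h2⟩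
    exact ⟨h1, fun w hw => ⟨h1, h2 w hw.1 hw.2⟩⟩

/-- The pair is a complex pair, nearest to the real axis. -/
structure Cplx : Prop where
  a_pos : 0 < D.a.im
  b_neg : D.b.im < 0
  a_min : ∀ w ∈ D.C.S, w ≠ D.a → 0 < w.im → D.a.im < w.im
  b_max : ∀ w ∈ D.C.S, w ≠ D.b → w.im < 0 → w.im < D.b.im

theorem disj_EU (h : D.Cplx) : Disjoint D.EE D.UU := by
  rw [Submodule.disjoint_def]
  intro x hx hx'
  rw [mem_EE] at hx
  replace hx' : x ∈ D.V₀ ∧ D.C.PUp true (D.sol x) D.a :=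
    ⟨hx.1, (D.mem_UU.mp hx').2 D.a D.ha (Or.inr rfl)⟩
  refine D.inj x hx.1 (D.C.eq_zero (l₁ := true) (l₂ := true) (D.out x hx.1) D.hb ?_ ?_)
  · intro w hw him hne
    by_cases hwa : w = D.a
    · rw [hwa]; exact hx'.2
    · refine hx.2.1 w hw hwa hne ?_
      by_contra hlt
      push Not at hlt
      exact absurd (h.b_max w hw hne hlt) (not_lt.mpr him)
  · intro w hw him
    have hb := h.b_neg
    have ha := h.a_pos
    exact hx.2.2 w hw (fun he => by rw [he] at him; linarith) (fun he => by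
      rw [he] at him; exact lt_irrefl _ him) (by linarith)

theorem disj_EL (h : D.Cplx) : Disjoint D.EE D.LL := by
  rw [Submodule.disjoint_def]
  intro x hx hx'
  rw [mem_EE] at hx
  replace hx' : x ∈ D.V₀ ∧ D.C.PDn true (D.sol x) D.b :=
    ⟨hx.1, (D.mem_LL.mp hx').2 D.b D.hb (Or.inr rfl)⟩
  have hb := h.b_neg
  have ha := h.a_pos
  refine D.inj x hx.1 (D.C.eq_zero (l₁ := true) (l₂ := true) (D.out x hx.1) D.ha ?_ ?_)
  · intro w hw him hne
    exact hx.2.1 w hw hne (fun he => by rw [he] at him; linarith) (by linarith)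
  · intro w hw him
    by_cases hwb : w = D.b
    · rw [hwb]; exact hx'.2
    · have hne : w ≠ D.a := fun he => by rw [he] at him; exact lt_irrefl _ him
      refine hx.2.2 w hw hne hwb ?_
      by_contra hlt
      push Not at hlt
      exact absurd (h.a_min w hw hne hlt) (not_lt.mpr him.le)

/-- The pair is real. -/
structure RealP : Prop where
  a_im : D.a.im = 0
  b_im : D.b.im = 0

theorem disj_EU_real (h : D.RealP) : Disjoint D.EE D.UU := by
  rw [Submodule.disjoint_def]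
  intro x hx hx'
  rw [mem_EE] at hx
  replace hx' : x ∈ D.V₀ ∧ D.C.PUp true (D.sol x) D.a :=
    ⟨hx.1, (D.mem_UU.mp hx').2 D.a D.ha (Or.inr rfl)⟩
  refine D.inj x hx.1 (D.C.eq_zero (l₁ := true) (l₂ := true) (D.out x hx.1) D.hb ?_ ?_)
  · intro w hw him hne
    rw [h.b_im] at him
    by_cases hwa : w = D.a
    · rw [hwa]; exact hx'.2
    · exact hx.2.1 w hw hwa hne him
  · intro w hw him
    rw [h.b_im] at him
    refine hx.2.2 w hw (fun he => ?_) (fun he => ?_) him.le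
    · rw [he, h.a_im] at him; exact lt_irrefl _ him
    · rw [he, h.b_im] at him; exact lt_irrefl _ him

/-- In the real case `EE` is at most one dimensional. -/
theorem EE_dim (h : D.RealP) {x y : F} (hx : x ∈ D.EE) (hy : y ∈ D.EE) (hx0 : x ≠ 0) :
    ∃ c : ℂ, y = c • x := by
  have hx' := hx
  have hy' := hy
  rw [mem_EE] at hx' hy'
  have hne : ∀ w : ℂ, 0 < w.im → w ≠ D.a ∧ w ≠ D.b := fun w hw =>
    ⟨fun he => by rw [he, h.a_im] at hw; exact lt_irrefl _ hw,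
      fun he => by rw [he, h.b_im] at hw; exact lt_irrefl _ hw⟩
  obtain ⟨s, t, hst, hP⟩ := D.C.comb_PUp (l₁ := true) (l₂ := true) (D.out x hx'.1).1
    (D.out y hy'.1).1 D.ha
    (fun w hw him => by
      rw [h.a_im] at him
      exact hx'.2.1 w hw (hne w him).1 (hne w him).2 him.le)
    (fun w hw him => by
      rw [h.a_im] at him
      exact hy'.2.1 w hw (hne w him).1 (hne w him).2 him.le)
  have hE : s • x + t • y ∈ D.EE := D.EE.add_mem (D.EE.smul_mem _ hx) (D.EE.smul_mem _ hy)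
  have hmem : s • x + t • y ∈ D.UU := by
    rw [mem_UU]
    refine ⟨D.V₀.add_mem (D.V₀.smul_mem _ hx'.1) (D.V₀.smul_mem _ hy'.1), fun w hw hw' => ?_⟩
    by_cases hwa : w = D.a
    · rw [hwa]
      exact PlaneSys.PUp.congr _ hP (D.comb s t x y hx'.1 hy'.1).symm
    · have hpos : 0 < w.im := by
        rcases hw' with h1 | h1
        · exact h1
        · exact absurd h1 hwa
      exact (D.mem_EE.mp hE).2.1 w hw (hne w hpos).1 (hne w hpos).2 hpos.le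
  have h0 : s • x + t • y = 0 :=
    Submodule.disjoint_def.mp (D.disj_EU_real h) _ hE hmem
  by_cases ht : t = 0
  · have hs : s ≠ 0 := by
      rcases hst with h1 | h1
      · exact h1
      · exact absurd ht h1
    rw [ht, zero_smul, add_zero] at h0
    exact absurd ((smul_eq_zero.mp h0).resolve_left hs) hx0
  · refine ⟨-(t⁻¹ * s), ?_⟩
    have h1 : t • y = -(s • x) := by
      rw [eq_neg_iff_add_eq_zero, add_comm]
      exact h0
    calc y = t⁻¹ • (t • y) := by rw [smul_smul, inv_mul_cancel₀ ht, one_smul]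
      _ = t⁻¹ • (-(s • x)) := by rw [h1]
      _ = -(t⁻¹ * s) • x := by rw [smul_neg, smul_smul, neg_smul]

/-- Far from the disc, except the pair. -/
def Far (v r : ℝ) : Prop := ∀ w ∈ D.C.S, w ≠ D.a → w ≠ D.b → r < |w.re - v| ∨ r < |w.im|

theorem mem_EE_of_off {v r : ℝ} (hf : D.Far v r) {x : F} (hx : x ∈ D.V₀)
    (h : D.C.ExtOff (csqc (v : ℂ) r) (D.sol x)) : x ∈ D.EE := by
  rw [mem_EE]
  exact ⟨hx, fun w hw ha hb him => PlaneSys.ExtOff.pUp _ h him (hf w hw ha hb),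
    fun w hw ha hb him => PlaneSys.ExtOff.pDn _ h him (hf w hw ha hb)⟩

variable {ι κ : Type}

theorem mem_UU_of_extUp (h : D.Cplx) {x : F} (hx : x ∈ D.V₀) (he : D.C.ExtUp (D.sol x)) :
    x ∈ D.UU := by
  rw [mem_UU]
  refine ⟨hx, fun w _ hw => PlaneSys.ExtUp.pUp _ he ?_⟩
  rcases hw with h1 | rfl
  · exact h1
  · exact h.a_pos

theorem mem_LL_of_extDn (h : D.Cplx) {x : F} (hx : x ∈ D.V₀) (he : D.C.ExtDn (D.sol x)) :
    x ∈ D.LL := by
  rw [mem_LL]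
  refine ⟨hx, fun w _ hw => PlaneSys.ExtDn.pDn _ he ?_⟩
  rcases hw with h1 | rfl
  · exact h1
  · exact h.b_neg

theorem mem_UU_real {x : F} (hx : x ∈ D.V₀) (he : D.C.ExtUp (D.sol x))
    (ha : D.C.PUp true (D.sol x) D.a) : x ∈ D.UU := by
  rw [mem_UU]
  refine ⟨hx, fun w _ hw => ?_⟩
  rcases hw with h1 | rfl
  · exact PlaneSys.ExtUp.pUp _ he h1
  · exact ha

/-- Class `other`, complex pair. -/
theorem trans_other_cplx (h : D.Cplx) {v r : ℝ} (hf : D.Far v r) {u : ι → F} {o : κ → F}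
    (ho : ∀ k, o k ∈ D.V₀) (hup : ∀ k, D.C.ExtUp (D.sol (o k)))
    (π : ι ≃ κ) (hu : ∀ i, u i ∈ D.V₀)
    (hoff : ∀ i, D.C.ExtOff (csqc (v : ℂ) r) (D.sol (o (π i) - u i))) :
    Trans ⟨.other, D.EE, D.UU, D.LL⟩ u o := by
  refine ⟨D.disj_EU h, π, fun i => ⟨?_, ?_⟩⟩
  · exact D.mem_EE_of_off hf (D.V₀.sub_mem (ho _) (hu _)) (hoff i)
  · exact D.mem_UU_of_extUp h (ho _) (hup _)

/-- Class `other`, real pair (a ghost of index zero). -/
theorem trans_other_real (h : D.RealP) {v r : ℝ} (hf : D.Far v r) {u : ι → F} {o : κ → F}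
    (ho : ∀ k, o k ∈ D.V₀) (hup : ∀ k, D.C.ExtUp (D.sol (o k)))
    (hlab : ∀ k, D.C.PUp true (D.sol (o k)) D.a)
    (π : ι ≃ κ) (hu : ∀ i, u i ∈ D.V₀)
    (hoff : ∀ i, D.C.ExtOff (csqc (v : ℂ) r) (D.sol (o (π i) - u i))) :
    Trans ⟨.other, D.EE, D.UU, D.LL⟩ u o := by
  refine ⟨D.disj_EU_real h, π, fun i => ⟨?_, ?_⟩⟩
  · exact D.mem_EE_of_off hf (D.V₀.sub_mem (ho _) (hu _)) (hoff i)
  · exact D.mem_UU_real (ho _) (hup _) (hlab _)

/-- Class `zero`. -/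
theorem trans_zero (h : D.RealP) {v r : ℝ} (hf : D.Far v r) {u : ι → F} {o : κ → F}
    (ho : ∀ k, o k ∈ D.V₀) (hup : ∀ k, D.C.ExtUp (D.sol (o k)))
    (π : Option ι ≃ κ) (hu : ∀ i, u i ∈ D.V₀)
    (hne : o (π none) ≠ 0)
    (hnew : D.C.ExtOff (csqc (v : ℂ) r) (D.sol (o (π none))))
    (hlab : ∀ i, D.C.PUp true (D.sol (o (π (some i)))) D.a)
    (hoff : ∀ i, D.C.ExtOff (csqc (v : ℂ) r) (D.sol (o (π (some i)) - u i))) :
    Trans ⟨.zero, D.EE, D.UU, D.LL⟩ u o := by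
  refine ⟨D.disj_EU_real h, fun x hx y hy hx0 => D.EE_dim h hx hy hx0, π,
    D.mem_EE_of_off hf (ho _) hnew, hne, fun i => ⟨?_, D.mem_UU_real (ho _) (hup _) (hlab i)⟩⟩
  exact D.mem_EE_of_off hf (D.V₀.sub_mem (ho _) (hu _)) (hoff i)

/-- Class `one`. -/
theorem trans_one (h : D.Cplx) {v r : ℝ} (hf : D.Far v r) {u : ι → F} {o : κ → F}
    (ho : ∀ k, o k ∈ D.V₀) (hup : ∀ k, D.C.ExtUp (D.sol (o k)))
    (hdn : ∀ k, D.C.ExtDn (D.sol (o k))) (hu : ∀ i, u i ∈ D.V₀)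
    (huu : ∀ i, D.C.ExtUpOff (csqc (v : ℂ) r) (D.sol (u i)))
    (hud : ∀ i, D.C.ExtDnOff (csqc (v : ℂ) r) (D.sol (u i))) (im ip : ι)
    (him : ∀ i, D.C.PUp true (D.sol (u i)) D.a ↔ i ≠ im)
    (hip : ∀ i, D.C.PDn true (D.sol (u i)) D.b ↔ i ≠ ip)
    (π : ι → κ) (hs : Function.Surjective π)
    (hπ : ∀ i j, π i = π j ↔ i = j ∨ ((i = im ∨ i = ip) ∧ (j = im ∨ j = ip)))
    (h1 : ∀ i, i ≠ im → i ≠ ip → D.C.ExtOff (csqc (v : ℂ) r) (D.sol (o (π i) - u i)))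
    (h2 : im = ip → D.C.ExtOff (csqc (v : ℂ) r) (D.sol (o (π im) - u im)))
    (h3 : im ≠ ip →
      D.C.ExtOff (csqc (v : ℂ) r) (D.sol (o (π im) - (u im + u ip)))) :
    Trans ⟨.one, D.EE, D.UU, D.LL⟩ u o := by
  have hb0 := h.b_neg
  have ha0 := h.a_pos
  refine ⟨D.disj_EU h, D.disj_EL h, fun k => ⟨D.mem_UU_of_extUp h (ho k) (hup k),
    D.mem_LL_of_extDn h (ho k) (hdn k)⟩, im, ip, fun i => ?_, fun i => ?_, π, hs, hπ,
    fun i hi1 hi2 => ?_, fun he => ?_, fun he => ?_⟩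
  · rw [← him i, mem_UU]
    refine ⟨fun h => h.2 D.a D.ha (Or.inr rfl), fun h' => ⟨hu i, fun w hw hw' => ?_⟩⟩
    by_cases hwa : w = D.a
    · rw [hwa]; exact h'
    · have hpos : 0 < w.im := by
        rcases hw' with h1 | h1
        · exact h1
        · exact absurd h1 hwa
      have hwb : w ≠ D.b := fun he => by rw [he] at hpos; linarith
      exact PlaneSys.ExtUpOff.pUp _ (huu i) hpos (hf w hw hwa hwb)
  · rw [← hip i, mem_LL]
    refine ⟨fun h => h.2 D.b D.hb (Or.inr rfl), fun h' => ⟨hu i, fun w hw hw' => ?_⟩⟩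
    by_cases hwb : w = D.b
    · rw [hwb]; exact h'
    · have hneg : w.im < 0 := by
        rcases hw' with h1 | h1
        · exact h1
        · exact absurd h1 hwb
      have hwa : w ≠ D.a := fun he => by rw [he] at hneg; linarith
      exact PlaneSys.ExtDnOff.pDn _ (hud i) hneg (hf w hw hwa hwb)
  · exact D.mem_EE_of_off hf (D.V₀.sub_mem (ho _) (hu _)) (h1 i hi1 hi2)
  · exact D.mem_EE_of_off hf (D.V₀.sub_mem (ho _) (hu _)) (h2 he)
  · exact D.mem_EE_of_off hf (D.V₀.sub_mem (ho _) (D.V₀.add_mem (hu _) (hu _))) (h3 he)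

end EvPlane

end Pool.Agent.QC
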