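import Pool.Agent.QC.Grid.Dn
import Pool.Agent.QC.Asm.EventLA

/-!
# Sections 6 and 7: the spaces `EE, UU, LL` of two inputs with the same words coincide

`match_spaces`: two chains of pieces (paths A, B, C of an event) with the same order types, the
planes `D`, `D'` at the ends, the pair `a, b` near the labels `α, β` for both inputs.  Then
`D.EE = D'.EE`, `D.UU = D'.UU`, `D.LL = D'.LL`.
-/

set_option autoImplicit false

open Set Metric Filter Topology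

namespace Pool.Agent.QC.Grid

variable {M : ℕ} {R : ℝ} {F : Type} [AddCommGroup F] [Module ℂ F]

/-- the labels of the plane of an event: `α, β` are the labels of the pair -/
structure LabEv (C : Conf M R) (δ : ℝ) (D : EvPlane F) (α β : Fin M) : Prop where
  near : NearS C δ 1 D.C
  real : ∀ j, (C.z j 1).im = 0 → ∀ z ∈ D.C.S, At C δ 1 j z → z.im = 0
  gap : ∀ j, (C.z j 1).im ≠ 0 → δ ≤ |(C.z j 1).im|
  ha : At C δ 1 α D.a
  hb : At C δ 1 β D.b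
  a0 : 0 ≤ (C.z α 1).im
  b0 : (C.z β 1).im ≤ 0
  cola : ∀ j, (C.z j 1).re = (C.z α 1).re → 0 ≤ (C.z j 1).im → (C.z j 1).im < (C.z α 1).im →
    ∀ z ∈ D.C.S, ¬ At C δ 1 j z
  colb : ∀ j, (C.z j 1).re = (C.z β 1).re → (C.z j 1).im ≤ 0 → (C.z β 1).im < (C.z j 1).im →
    ∀ z ∈ D.C.S, ¬ At C δ 1 j z

/-- separation of the labels -/
def Sep (C : Conf M R) (δ : ℝ) : Prop :=
  ∀ i j, (∃ z, At C δ 1 i z ∧ At C δ 1 j z) → i = j

theorem sep_of_box {C : Conf M R} {δ : ℝ} (hδ : 0 < δ)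
    (h : ∀ j, ∃ a b c d, Box C δ 1 j a b c d) : Sep C δ := by
  rintro i j ⟨z, hi, hj⟩
  have m1 : (1 : ℝ) ∈ Icc (0 : ℝ) 1 := by simp
  obtain ⟨a, b, c, d, hb⟩ := h j
  obtain ⟨p1, p2, p3, p4⟩ := hb.pos hδ
  have q1 := hi.1
  have q2 := hi.2
  have q3 := hj.1
  have q4 := hj.2
  rw [abs_lt] at q1 q2 q3 q4
  have v1 := hb.v1.2 i
  have v2 := hb.v2.2 i
  have v3 := hb.h1.2 i
  have v4 := hb.h2.2 i
  rw [le_abs] at v1 v2 v3 v4
  refine hb.only m1 ⟨?_, ?_⟩ ⟨?_, ?_⟩ hδ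
  · rcases v1 with v | v <;> linarith
  · rcases v2 with v | v <;> linarith
  · rcases v4 with v | v <;> linarith
  · rcases v3 with v | v <;> linarith

/-- the labels of the top-down conditions of `EE` -/
def La (C : Conf M R) (α β : Fin M) : Set (Fin M) :=
  {j | 0 ≤ (C.z j 1).im ∧ j ≠ α ∧ j ≠ β ∧
    ¬ ((C.z j 1).re = (C.z α 1).re ∧ (C.z j 1).im < (C.z α 1).im)}

/-- the labels of the bottom-up conditions of `EE` -/
def Lb (C : Conf M R) (α β : Fin M) : Set (Fin M) :=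
  {j | (C.z j 1).im ≤ 0 ∧ j ≠ α ∧ j ≠ β ∧
    ¬ ((C.z j 1).re = (C.z β 1).re ∧ (C.z β 1).im < (C.z j 1).im)}

/-- the labels of the conditions of `UU` -/
def Lu (C : Conf M R) (α : Fin M) : Set (Fin M) := {j | 0 < (C.z j 1).im ∨ j = α}

/-- the labels of the conditions of `LL` -/
def Ll (C : Conf M R) (β : Fin M) : Set (Fin M) := {j | (C.z j 1).im < 0 ∨ j = β}

variable {C C' : Conf M R} {δ : ℝ} {D D' : EvPlane F} {α β : Fin M}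

theorem colUp_La (b0 : (C.z β 1).im ≤ 0) : ColUp C 1 (La C α β) := by
  rintro j ⟨h1, h2, h3, h4⟩ i h5 h6
  refine ⟨by linarith, ?_, ?_, ?_⟩
  · rintro rfl
    exact h4 ⟨h5.symm, h6⟩
  · rintro rfl
    linarith
  · rintro ⟨h7, h8⟩
    exact h4 ⟨by rw [← h5, h7], by linarith⟩

theorem colDn_Lb (a0 : 0 ≤ (C.z α 1).im) : ColDn C 1 (Lb C α β) := by
  rintro j ⟨h1, h2, h3, h4⟩ i h5 h6
  refine ⟨by linarith, ?_, ?_, ?_⟩
  · rintro rfl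
    linarith
  · rintro rfl
    exact h4 ⟨h5.symm, h6⟩
  · rintro ⟨h7, h8⟩
    exact h4 ⟨by rw [← h5, h7], by linarith⟩

theorem colUp_Lu (a0 : 0 ≤ (C.z α 1).im) : ColUp C 1 (Lu C α) := by
  rintro j h1 i _ h3
  left
  rcases h1 with h1 | h1
  · linarith
  · rw [h1] at h3; linarith

theorem colDn_Ll (b0 : (C.z β 1).im ≤ 0) : ColDn C 1 (Ll C β) := by
  rintro j h1 i _ h3
  left
  rcases h1 with h1 | h1
  · linarith
  · rw [h1] at h3; linarith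

theorem LabEv.pos (h : LabEv C δ D α β) {j : Fin M} {z : ℂ} (hj : At C δ 1 j z)
    (h0 : 0 < (C.z j 1).im) : 0 < z.im := by
  have h1 := h.gap j h0.ne'
  rw [abs_of_pos h0] at h1
  have h2 := (abs_lt.1 hj.2).1
  linarith

theorem LabEv.neg (h : LabEv C δ D α β) {j : Fin M} {z : ℂ} (hj : At C δ 1 j z)
    (h0 : (C.z j 1).im < 0) : z.im < 0 := by
  have h1 := h.gap j h0.ne
  rw [abs_of_neg h0] at h1
  have h2 := (abs_lt.1 hj.2).2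
  linarith

theorem LabEv.nonneg (h : LabEv C δ D α β) {j : Fin M} {z : ℂ} (hz : z ∈ D.C.S)
    (hj : At C δ 1 j z) : 0 ≤ z.im ↔ 0 ≤ (C.z j 1).im := by
  rcases lt_trichotomy (C.z j 1).im 0 with h1 | h1 | h1
  · exact ⟨fun h2 => absurd (h.neg hj h1) (not_lt.2 h2), fun h2 => absurd h1 (not_lt.2 h2)⟩
  · exact ⟨fun _ => h1.ge, fun _ => (h.real j h1 z hz hj).ge⟩
  · exact ⟨fun _ => h1.le, fun _ => (h.pos hj h1).le⟩

theorem LabEv.nonpos (h : LabEv C δ D α β) {j : Fin M} {z : ℂ} (hz : z ∈ D.C.S)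
    (hj : At C δ 1 j z) : z.im ≤ 0 ↔ (C.z j 1).im ≤ 0 := by
  rcases lt_trichotomy (C.z j 1).im 0 with h1 | h1 | h1
  · exact ⟨fun _ => h1.le, fun _ => (h.neg hj h1).le⟩
  · exact ⟨fun _ => h1.le, fun _ => (h.real j h1 z hz hj).le⟩
  · exact ⟨fun h2 => absurd (h.pos hj h1) (not_lt.2 h2), fun h2 => absurd h1 (not_lt.2 h2)⟩

theorem LabEv.lt (h : LabEv C δ D α β) {j : Fin M} {z : ℂ} (hz : z ∈ D.C.S)
    (hj : At C δ 1 j z) : 0 < z.im ↔ 0 < (C.z j 1).im := by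
  rw [← not_le, ← not_le, h.nonpos hz hj]

theorem LabEv.gt (h : LabEv C δ D α β) {j : Fin M} {z : ℂ} (hz : z ∈ D.C.S)
    (hj : At C δ 1 j z) : z.im < 0 ↔ (C.z j 1).im < 0 := by
  rw [← not_le, ← not_le, h.nonneg hz hj]

/-- the signs of the imaginary parts agree -/
def SameSgn (C C' : Conf M R) : Prop :=
  ∀ j, (0 < (C.z j 1).im ↔ 0 < (C'.z j 1).im) ∧ ((C.z j 1).im < 0 ↔ (C'.z j 1).im < 0)

/-- the transfer of the conditions -/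
def HU (C C' : Conf M R) (δ : ℝ) (D D' : EvPlane F) (x : F) : Prop :=
  ∀ Λ : Set (Fin M), ColUp C 1 Λ →
    (∀ j ∈ Λ, ∀ z ∈ D.C.S, At C δ 1 j z → D.C.PUp true (D.sol x) z) →
    ∀ j ∈ Λ, ∀ z ∈ D'.C.S, At C' δ 1 j z → D'.C.PUp true (D'.sol x) z

/-- the transfer of the conditions -/
def HD (C C' : Conf M R) (δ : ℝ) (D D' : EvPlane F) (x : F) : Prop :=
  ∀ Λ : Set (Fin M), ColDn C 1 Λ →
    (∀ j ∈ Λ, ∀ z ∈ D.C.S, At C δ 1 j z → D.C.PDn true (D.sol x) z) →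
    ∀ j ∈ Λ, ∀ z ∈ D'.C.S, At C' δ 1 j z → D'.C.PDn true (D'.sol x) z

private theorem re_iff {s : ℝ} (ho : SameAt C C' s) (i j : Fin M) :
    (C.z i s).re = (C.z j s).re ↔ (C'.z i s).re = (C'.z j s).re := by
  rw [le_antisymm_iff, le_antisymm_iff, ← not_lt, ← not_lt, ← not_lt (a := (C'.z j s).re),
    ← not_lt (a := (C'.z i s).re), (ho j i).1, (ho i j).1]

/-- one inclusion for `EE` -/
theorem EE_le (hs : Sep C δ) (h : LabEv C δ D α β) (h' : LabEv C' δ D' α β)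
    (ho : SameAt C C' 1) (hsg : SameSgn C C') (hV : D.V₀ = D'.V₀)
    (hU : ∀ x ∈ D.V₀, HU C C' δ D D' x) (hD : ∀ x ∈ D.V₀, HD C C' δ D D' x) :
    D.EE ≤ D'.EE := by
  intro x hx
  rw [EvPlane.mem_EE] at hx ⊢
  obtain ⟨hx0, hx1, hx2⟩ := hx
  have nn : ∀ j, 0 ≤ (C.z j 1).im ↔ 0 ≤ (C'.z j 1).im := fun j => by
    rw [← not_lt, ← not_lt, (hsg j).2]
  have np : ∀ j, (C.z j 1).im ≤ 0 ↔ (C'.z j 1).im ≤ 0 := fun j => by
    rw [← not_lt, ← not_lt, (hsg j).1]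
  refine ⟨hV ▸ hx0, fun w hw ha hb h0 => ?_, fun w hw ha hb h0 => ?_⟩
  · obtain ⟨j, hj⟩ := h'.near.near w hw
    refine hU x hx0 (La C α β) (colUp_La h.b0) ?_ j ?_ w hw hj
    · rintro i ⟨k1, k2, k3, k4⟩ z hz hi
      refine hx1 z hz ?_ ?_ ((h.nonneg hz hi).2 k1)
      · rintro rfl
        exact k2 (hs i α ⟨_, hi, h.ha⟩)
      · rintro rfl
        exact k3 (hs i β ⟨_, hi, h.hb⟩)
    · refine ⟨(nn j).2 ((h'.nonneg hw hj).1 h0), ?_, ?_, ?_⟩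
      · rintro rfl
        exact ha (h'.near.uniq w hw D'.a D'.ha j hj h'.ha)
      · rintro rfl
        exact hb (h'.near.uniq w hw D'.b D'.hb j hj h'.hb)
      · rintro ⟨k1, k2⟩
        exact h'.cola j ((re_iff ho j α).1 k1) ((h'.nonneg hw hj).1 h0) ((ho j α).2.1 k2) w hw hj
  · obtain ⟨j, hj⟩ := h'.near.near w hw
    refine hD x hx0 (Lb C α β) (colDn_Lb h.a0) ?_ j ?_ w hw hj
    · rintro i ⟨k1, k2, k3, k4⟩ z hz hi
      refine hx2 z hz ?_ ?_ ((h.nonpos hz hi).2 k1)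
      · rintro rfl
        exact k2 (hs i α ⟨_, hi, h.ha⟩)
      · rintro rfl
        exact k3 (hs i β ⟨_, hi, h.hb⟩)
    · refine ⟨(np j).2 ((h'.nonpos hw hj).1 h0), ?_, ?_, ?_⟩
      · rintro rfl
        exact ha (h'.near.uniq w hw D'.a D'.ha j hj h'.ha)
      · rintro rfl
        exact hb (h'.near.uniq w hw D'.b D'.hb j hj h'.hb)
      · rintro ⟨k1, k2⟩
        exact h'.colb j ((re_iff ho j β).1 k1) ((h'.nonpos hw hj).1 h0) ((ho β j).2.1 k2) w hw hj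

/-- one inclusion for `UU` -/
theorem UU_le (h : LabEv C δ D α β) (h' : LabEv C' δ D' α β)
    (hsg : SameSgn C C') (hV : D.V₀ = D'.V₀)
    (hU : ∀ x ∈ D.V₀, HU C C' δ D D' x) : D.UU ≤ D'.UU := by
  intro x hx
  rw [EvPlane.mem_UU] at hx ⊢
  obtain ⟨hx0, hx1⟩ := hx
  have key : ∀ j ∈ Lu C α, ∀ z ∈ D'.C.S, At C' δ 1 j z → D'.C.PUp true (D'.sol x) z := by
    refine hU x hx0 (Lu C α) (colUp_Lu h.a0) ?_
    intro j hj z hz hjz
    rcases hj with hj | rfl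
    · exact hx1 z hz (Or.inl (h.pos hjz hj))
    · exact hx1 z hz (Or.inr (h.near.uniq z hz D.a D.ha j hjz h.ha))
  refine ⟨hV ▸ hx0, fun w hw hw' => ?_⟩
  rcases hw' with hw' | rfl
  · obtain ⟨j, hj⟩ := h'.near.near w hw
    exact key j (Or.inl ((hsg j).1.2 ((h'.lt hw hj).1 hw'))) w hw hj
  · exact key α (Or.inr rfl) _ D'.ha h'.ha

/-- one inclusion for `LL` -/
theorem LL_le (h : LabEv C δ D α β) (h' : LabEv C' δ D' α β)
    (hsg : SameSgn C C') (hV : D.V₀ = D'.V₀)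
    (hD : ∀ x ∈ D.V₀, HD C C' δ D D' x) : D.LL ≤ D'.LL := by
  intro x hx
  rw [EvPlane.mem_LL] at hx ⊢
  obtain ⟨hx0, hx1⟩ := hx
  have key : ∀ j ∈ Ll C β, ∀ z ∈ D'.C.S, At C' δ 1 j z → D'.C.PDn true (D'.sol x) z := by
    refine hD x hx0 (Ll C β) (colDn_Ll h.b0) ?_
    intro j hj z hz hjz
    rcases hj with hj | rfl
    · exact hx1 z hz (Or.inl (h.neg hjz hj))
    · exact hx1 z hz (Or.inr (h.near.uniq z hz D.b D.hb j hjz h.hb))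
  refine ⟨hV ▸ hx0, fun w hw hw' => ?_⟩
  rcases hw' with hw' | rfl
  · obtain ⟨j, hj⟩ := h'.near.near w hw
    exact key j (Or.inl ((hsg j).2.2 ((h'.gt hw hj).1 hw'))) w hw hj
  · exact key β (Or.inr rfl) _ D'.hb h'.hb

variable {E : Type*} [TopologicalSpace E]

/-- transport of a solution along the pieces, over the set `K` -/
def Trp (A : QC.LS E F) (n : ℕ) (h : ℕ → ℝ × ℂ → E) (K : Set ℂ) (J₀ J : ℂ → F) : Prop :=
  ∃ U : ℕ → ℝ × ℂ → F, (∀ k ≤ n, A.Par (h k) (Icc (0 : ℝ) 1 ×ˢ K) (U k)) ∧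
    (∀ k < n, ∀ z ∈ K, U k (1, z) = U (k + 1) (0, z)) ∧ (∀ z ∈ K, U 0 (0, z) = J₀ z) ∧
    ∀ z ∈ K, U n (1, z) = J z

/-- the regularity and the joints of the pieces -/
structure Pieces (A : QC.LS E F) (δ : ℝ) (n : ℕ) (C : ℕ → Conf M R) (h : ℕ → ℝ × ℂ → E) :
    Prop where
  ok : ∀ k ≤ n, Ok A (h k) ((C k).X δ)
  jz : ∀ k < n, ∀ j, (C k).z j 1 = (C (k + 1)).z j 0
  jh : ∀ k < n, ∀ z, h k (1, z) = h (k + 1) (0, z)

omit [AddCommGroup F] [Module ℂ F] in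
theorem Pieces.chain {A : QC.LS E F} {δ : ℝ} {n : ℕ} {C : ℕ → Conf M R} {h : ℕ → ℝ × ℂ → E}
    (H : Pieces A δ n C h) {K : Set ℂ} (hK : (⟨-R, R⟩ : ℂ) ∈ K) (hK' : (⟨R, -R⟩ : ℂ) ∈ K)
    {J₀ J : ℂ → F} (hT : Trp A n h K J₀ J) :
    (∃ u, Chain A δ n C h u ∧ u 0 0 = J₀ ⟨-R, R⟩ ∧ u n 1 = J ⟨-R, R⟩) ∧
    ∃ u, ChainD A δ n C h u ∧ u 0 0 = J₀ ⟨R, -R⟩ ∧ u n 1 = J ⟨R, -R⟩ := by
  obtain ⟨U, h1, h2, h3, h4⟩ := hT
  exact ⟨⟨fun k s => U k (s, ⟨-R, R⟩), ⟨H.ok, fun k hk =>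
      (h1 k hk).comp (g := fun s => (s, (⟨-R, R⟩ : ℂ))) (by fun_prop) fun s hs => ⟨hs, hK⟩,
      H.jz, H.jh, fun k hk => h2 k hk _ hK⟩, h3 _ hK, h4 _ hK⟩,
    ⟨fun k s => U k (s, ⟨R, -R⟩), ⟨H.ok, fun k hk =>
      (h1 k hk).comp (g := fun s => (s, (⟨R, -R⟩ : ℂ))) (by fun_prop) fun s hs => ⟨hs, hK'⟩,
      H.jz, H.jh, fun k hk => h2 k hk _ hK'⟩, h3 _ hK', h4 _ hK'⟩⟩

/-- THE SPACES OF TWO INPUTS WITH THE SAME WORDS COINCIDE -/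
theorem match_spaces (hR : 0 ≤ R) (n : ℕ) (C C' : ℕ → Conf M R)
    (ho : ∀ k ≤ n, ∀ s ∈ Icc (0 : ℝ) 1, SameAt (C k) (C' k) s)
    (hz : ∀ j, (C 0).z j 0 = (C' 0).z j 0) (hsg : SameSgn (C n) (C' n)) :
    ∃ δ₀ > 0, ∀ δ, 0 < δ → δ ≤ δ₀ → ∀ (A : QC.LS E F) (h h' : ℕ → ℝ × ℂ → E),
      Pieces A δ n C h → Pieces A δ n C' h' → (∀ z, h 0 (0, z) = h' 0 (0, z)) →
      ∀ (D D' : EvPlane F), D.V₀ = D'.V₀ → ∀ K : Set ℂ, (⟨-R, R⟩ : ℂ) ∈ K → (⟨R, -R⟩ : ℂ) ∈ K →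
      (∀ x ∈ D.V₀, ∃ J₀, Trp A n h K J₀ (D.sol x) ∧ Trp A n h' K J₀ (D'.sol x)) →
      Link A (fun z => h n (1, z)) D.C → Link A (fun z => h' n (1, z)) D'.C →
      ∀ α β, LabEv (C n) δ D α β → LabEv (C' n) δ D' α β →
      D.EE = D'.EE ∧ D.UU = D'.UU ∧ D.LL = D'.LL := by
  have m1 : (1 : ℝ) ∈ Icc (0 : ℝ) 1 := by simp
  have ho' : ∀ k ≤ n, ∀ s ∈ Icc (0 : ℝ) 1, SameAt (C' k) (C k) s := fun k hk s hs i j =>
    ⟨(ho k hk s hs i j).1.symm, (ho k hk s hs i j).2.symm⟩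
  obtain ⟨d1, hd1, g1⟩ := grid_up (E := E) (F := F) hR n C C' ho hz
  obtain ⟨d2, hd2, g2⟩ := grid_dn (E := E) (F := F) hR n C C' ho hz
  obtain ⟨d3, hd3, g3⟩ := grid_up (E := E) (F := F) hR n C' C ho' fun j => (hz j).symm
  obtain ⟨d4, hd4, g4⟩ := grid_dn (E := E) (F := F) hR n C' C ho' fun j => (hz j).symm
  obtain ⟨d5, hd5, g5⟩ := Grid.chain hR n C C' ho
  refine ⟨min d5 (min (min d1 d2) (min d3 d4)), by positivity, ?_⟩
  intro δ hδ hle A h h' H H' hh D D' hV K hK hK' hT hl hl' α β hL hL'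
  have l5 : δ ≤ d5 := hle.trans (min_le_left _ _)
  have hle2 := hle.trans (min_le_right _ _)
  have l1 : δ ≤ d1 := (hle2.trans (min_le_left _ _)).trans (min_le_left _ _)
  have l2 : δ ≤ d2 := (hle2.trans (min_le_left _ _)).trans (min_le_right _ _)
  have l3 : δ ≤ d3 := (hle2.trans (min_le_right _ _)).trans (min_le_left _ _)
  have l4 : δ ≤ d4 := (hle2.trans (min_le_right _ _)).trans (min_le_right _ _)
  have hbx := (g5 δ hδ l5).2.1 n le_rfl 1 (by simp)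
  have hs : Sep (C n) δ := sep_of_box hδ fun j => (hbx j).1
  have hs' : Sep (C' n) δ := sep_of_box hδ fun j => (hbx j).2
  have hsg' : SameSgn (C' n) (C n) := fun j => ⟨(hsg j).1.symm, (hsg j).2.symm⟩
  have hon := ho n le_rfl 1 m1
  have hon' := ho' n le_rfl 1 m1
  have hU : ∀ x ∈ D.V₀, HU (C n) (C' n) δ D D' x := by
    intro x hx Λ hΛ
    obtain ⟨J₀, t, t'⟩ := hT x hx
    obtain ⟨⟨u, c1, c2, c3⟩, -⟩ := H.chain hK hK' t
    obtain ⟨⟨u', c1', c2', c3'⟩, -⟩ := H'.chain hK hK' t'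
    exact g1 δ hδ l1 A h h' u u' c1 c1' hh (c2.trans c2'.symm) D.C D'.C (D.sol x) (D'.sol x)
      hl hl' hL.near hL'.near (D.out x hx).1 (D'.out x (hV ▸ hx)).1 c3.symm c3'.symm Λ hΛ true true
  have hD : ∀ x ∈ D.V₀, HD (C n) (C' n) δ D D' x := by
    intro x hx Λ hΛ
    obtain ⟨J₀, t, t'⟩ := hT x hx
    obtain ⟨-, u, c1, c2, c3⟩ := H.chain hK hK' t
    obtain ⟨-, u', c1', c2', c3'⟩ := H'.chain hK hK' t'
    exact g2 δ hδ l2 A h h' u u' c1 c1' hh (c2.trans c2'.symm) D.C D'.C (D.sol x) (D'.sol x)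
      hl hl' hL.near hL'.near (D.out x hx).1 (D'.out x (hV ▸ hx)).1 c3.symm c3'.symm Λ hΛ true true
  have hU' : ∀ x ∈ D'.V₀, HU (C' n) (C n) δ D' D x := by
    intro x hx Λ hΛ
    obtain ⟨J₀, t, t'⟩ := hT x (hV ▸ hx)
    obtain ⟨⟨u, c1, c2, c3⟩, -⟩ := H.chain hK hK' t
    obtain ⟨⟨u', c1', c2', c3'⟩, -⟩ := H'.chain hK hK' t'
    exact g3 δ hδ l3 A h' h u' u c1' c1 (fun z => (hh z).symm) (c2'.trans c2.symm) D'.C D.C
      (D'.sol x) (D.sol x) hl' hl hL'.near hL.near (D'.out x hx).1 (D.out x (hV ▸ hx)).1 c3'.symm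
      c3.symm Λ hΛ true true
  have hD' : ∀ x ∈ D'.V₀, HD (C' n) (C n) δ D' D x := by
    intro x hx Λ hΛ
    obtain ⟨J₀, t, t'⟩ := hT x (hV ▸ hx)
    obtain ⟨-, u, c1, c2, c3⟩ := H.chain hK hK' t
    obtain ⟨-, u', c1', c2', c3'⟩ := H'.chain hK hK' t'
    exact g4 δ hδ l4 A h' h u' u c1' c1 (fun z => (hh z).symm) (c2'.trans c2.symm) D'.C D.C
      (D'.sol x) (D.sol x) hl' hl hL'.near hL.near (D'.out x hx).1 (D.out x (hV ▸ hx)).1 c3'.symm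
      c3.symm Λ hΛ true true
  refine ⟨le_antisymm (EE_le hs hL hL' hon hsg hV hU hD) (EE_le hs' hL' hL hon' hsg' hV.symm hU'
    hD'), le_antisymm (UU_le hL hL' hsg hV hU) (UU_le hL' hL hsg' hV.symm hU'),
    le_antisymm (LL_le hL hL' hsg hV hD) (LL_le hL' hL hsg' hV.symm hD')⟩

end Pool.Agent.QC.Grid
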