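import Pool.Agent.QC.Asm.Frame
import Pool.Agent.QC.Asm.Match
import Pool.Agent.QC.Tame.Iface

/-!
# The chains of paths and their ends for small `en` and `eta` (sections 3.1 and 7)

`ok_ev`: regularity of the grid points; `ann_ev`: the annulus is free; `nearQ_ev`: near the true
labels there is exactly one critical value, simple, there are no others in the square;
`NearQ.labEv`: the data `LabEv`.
-/

set_option autoImplicit false

open Set Metric Filter Topology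

namespace Pool.Agent.QC.Grid

open MvPolynomial

variable {n l M : ℕ}

/-! ## Conjugation -/

theorem conj_eval {m : ℕ} {f : Pol m} (hf : map (starRingEnd ℂ) f = f) (x : Fin m → ℂ) :
    eval (fun i => (starRingEnd ℂ) (x i)) f = (starRingEnd ℂ) (eval x f) := by
  have h1 : (starRingEnd ℂ) (eval x f) =
      eval₂ ((starRingEnd ℂ).comp (RingHom.id ℂ)) ((starRingEnd ℂ) ∘ x) f :=
    eval₂_comp_left (starRingEnd ℂ) (RingHom.id ℂ) x f
  rw [h1]
  conv_lhs => rw [← hf, eval_map]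
  rfl

theorem map_conj_fpol (en eta : ℝ) (q : RTup n l) :
    map (starRingEnd ℂ) (fpol en eta (tC q)) = fpol en eta (tC q) := by
  simp [fpol, f0, prodT, qpol, tC, Eform, map_prod, map_sum]

/-- critical values of real tuples -/
theorem conj_sig (en eta : ℝ) (q : RTup n l) {z : ℂ} (hz : z ∈ SigF (fpol en eta (tC q))) :
    (starRingEnd ℂ) z ∈ SigF (fpol en eta (tC q)) := by
  obtain ⟨x, ⟨h1, h2⟩, rfl⟩ := hz
  have hf := map_conj_fpol en eta q
  refine ⟨fun i => (starRingEnd ℂ) (x i), ⟨?_, fun i => ?_⟩, rfl⟩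
  · rw [conj_eval hf, h1, map_zero]
  · rw [conj_eval (by rw [← pderiv_map, hf]), h2, map_zero]

/-- `f0` is `fpol` with `eta = 0` -/
theorem fpol_zero (en : ℝ) (q : Tup n l) : fpol en 0 q = f0 q := by
  simp [fpol]

theorem conj_sig0 (q : RTup n l) {z : ℂ} (hz : z ∈ SigF (f0 (tC q))) :
    (starRingEnd ℂ) z ∈ SigF (f0 (tC q)) := by
  have := conj_sig 0 0 q (z := z) (by rwa [fpol_zero])
  rwa [fpol_zero] at this

/-! ## Regularity along a path -/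

theorem sing_of_nice {q : Tup n l} (h : Nice q) : SingF (f0 q) = ∅ := by
  refine eq_empty_of_forall_notMem fun x hx => ?_
  exact (h.2.2.1.1 x ⟨hx.1, fun i => hx.2 i.castSucc⟩).2 (hx.2 (Fin.last n))

theorem isCompact_csq (R : ℝ) : IsCompact (csq R) := by
  refine Metric.isCompact_of_isClosed_isBounded (isClosed_csq R) ?_
  refine (Metric.isBounded_iff_subset_closedBall (0 : ℂ)).2 ⟨R + R, fun z hz => ?_⟩
  rw [mem_closedBall, dist_zero_right]
  exact (Complex.norm_le_abs_re_add_abs_im z).trans (add_le_add hz.1 hz.2)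

theorem isCompact_csqc (c : ℂ) (R : ℝ) : IsCompact (csqc c R) := by
  refine Metric.isCompact_of_isClosed_isBounded (isClosed_csqc c R) ?_
  refine (Metric.isBounded_iff_subset_closedBall c).2 ⟨R + R, fun z hz => ?_⟩
  rw [mem_closedBall, dist_eq_norm]
  refine (Complex.norm_le_abs_re_add_abs_im _).trans (add_le_add ?_ ?_)
  · rw [Complex.sub_re]
    exact hz.1
  · rw [Complex.sub_im]
    exact hz.2

theorem Conf.isCompact_X {R : ℝ} (C : Conf M R) (δ : ℝ) : IsCompact (C.X δ) := by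
  have hS : IsCompact (Icc (0 : ℝ) 1 ×ˢ csq R) := isCompact_Icc.prod (isCompact_csq R)
  have h1 : ∀ j, IsClosed ((Icc (0 : ℝ) 1 ×ˢ csq R) ∩
      (fun p : ℝ × ℂ => max |p.2.re - (C.z j p.1).re| |p.2.im - (C.z j p.1).im|) ⁻¹' Ici δ) := by
    intro j
    have hc : ContinuousOn (fun p : ℝ × ℂ => C.z j p.1) (Icc (0 : ℝ) 1 ×ˢ csq R) :=
      (C.cont j).comp continuous_fst.continuousOn fun p hp => hp.1
    refine ContinuousOn.preimage_isClosed_of_isClosed ?_ hS.isClosed isClosed_Ici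
    refine ContinuousOn.sup ?_ ?_
    · refine ContinuousOn.abs (ContinuousOn.sub (by fun_prop) ?_)
      exact Complex.continuous_re.comp_continuousOn hc
    · refine ContinuousOn.abs (ContinuousOn.sub (by fun_prop) ?_)
      exact Complex.continuous_im.comp_continuousOn hc
  have h2 : C.X δ = (Icc (0 : ℝ) 1 ×ˢ csq R) ∩ ⋂ j, ((Icc (0 : ℝ) 1 ×ˢ csq R) ∩
      (fun p : ℝ × ℂ => max |p.2.re - (C.z j p.1).re| |p.2.im - (C.z j p.1).im|) ⁻¹' Ici δ) := by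
    ext p
    simp only [Conf.X, mem_ofPred_eq, mem_inter_iff, mem_prod, mem_iInter, mem_preimage, mem_Ici,
      le_max_iff]
    constructor
    · rintro ⟨a, b, c, d⟩
      exact ⟨⟨a, b, c⟩, fun j => ⟨⟨a, b, c⟩, d j⟩⟩
    · rintro ⟨⟨a, b, c⟩, d⟩
      exact ⟨a, b, c, fun j => (d j).2⟩
  rw [h2]
  exact hS.inter_right (isClosed_iInter h1)

/-- compact sets of parameters and non-critical values become regular -/
theorem reg_ev {K : Set (ℝ × ℂ)} (hK : IsCompact K) {γ : ℝ → Tup n l} {I : Set ℝ}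
    (hI : IsCompact I) (hKI : ∀ p ∈ K, p.1 ∈ I) (hγ : ContinuousOn γ I)
    (hN : ∀ s ∈ I, Nice (γ s)) (hS : ∀ p ∈ K, p.2 ∉ SigF (f0 (γ p.1))) :
    ∀ᶠ en in 𝓝[>] (0 : ℝ), ∀ᶠ eta in 𝓝[>] (0 : ℝ),
      (∀ s ∈ I, SingF (fpol en eta (γ s)) = ∅) ∧
      ∀ p ∈ K, p.2 ∉ SigF (fpol en eta (γ p.1)) := by
  have h1 : ∀ᶠ en in 𝓝[>] (0 : ℝ), ∀ᶠ eta in 𝓝[>] (0 : ℝ), ∀ q ∈ γ '' I,
      SingF (fpol en eta q) = ∅ := by
    refine tame_sing (hI.image_of_continuousOn hγ) ?_ ?_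
    · rintro _ ⟨s, hs, rfl⟩
      exact (hN s hs).1
    · rintro _ ⟨s, hs, rfl⟩
      exact sing_of_nice (hN s hs)
  have hc : ContinuousOn (fun p : ℝ × ℂ => ((γ p.1, p.2) : Tup n l × ℂ)) K := by
    have h3 : ContinuousOn (fun p : ℝ × ℂ => γ p.1) K :=
      hγ.comp continuous_fst.continuousOn hKI
    exact h3.prodMk continuous_snd.continuousOn
  have h2 : ∀ᶠ en in 𝓝[>] (0 : ℝ), ∀ᶠ eta in 𝓝[>] (0 : ℝ),
      ∀ p ∈ (fun p : ℝ × ℂ => ((γ p.1, p.2) : Tup n l × ℂ)) '' K,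
        p.2 ∉ SigF (fpol en eta p.1) := by
    refine tame_sig (hK.image_of_continuousOn hc) ?_ ?_
    · rintro _ ⟨p, hp, rfl⟩
      exact (hN _ (hKI p hp)).2.1
    · rintro _ ⟨p, hp, rfl⟩
      have h4 := hS p hp
      simpa only using h4
  filter_upwards [h1, h2] with en a1 a2
  filter_upwards [a1, a2] with eta b1 b2
  refine ⟨fun s hs => b1 _ (mem_image_of_mem γ hs), fun p hp => ?_⟩
  have h5 := b2 _ (mem_image_of_mem _ hp)
  simpa only using h5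

/-- the grid points are regular -/
theorem ok_ev {R δ : ℝ} (hδ : 0 < δ) {C : Conf M R} {γ : ℝ → Tup n l}
    (hγ : ContinuousOn γ (Icc 0 1)) (hN : ∀ s ∈ Icc (0 : ℝ) 1, Nice (γ s))
    (hS : ∀ s ∈ Icc (0 : ℝ) 1, SigF (f0 (γ s)) ⊆ range fun j => C.z j s) :
    ∀ᶠ en in 𝓝[>] (0 : ℝ), ∀ᶠ eta in 𝓝[>] (0 : ℝ), ∀ P : Prm, P.en = en → P.eta = eta →
      Ok (ULS P n l) (fun p : ℝ × ℂ => (γ p.1, p.2)) (C.X δ) := by
  have h1 := reg_ev (C.isCompact_X δ) isCompact_Icc (fun p hp => hp.1) hγ hN (by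
    intro p hp h
    obtain ⟨j, hj⟩ := hS _ hp.1 h
    rcases hp.2.2.2 j with h2 | h2
    · rw [← hj] at h2
      simp only [sub_self, abs_zero] at h2
      linarith
    · rw [← hj] at h2
      simp only [sub_self, abs_zero] at h2
      linarith)
  filter_upwards [h1] with en a1
  filter_upwards [a1] with eta a2
  rintro P rfl rfl
  exact ⟨ContinuousOn.prodMk (hγ.comp continuous_fst.continuousOn fun p hp => hp.1)
    continuous_snd.continuousOn, fun p hp => (mem_ULS_X P).2 ⟨a2.1 _ hp.1, a2.2 p hp⟩⟩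

/-- the annulus is free -/
theorem ann_ev {R0 R1 : ℝ} {γ : ℝ → Tup n l} (hγ : ContinuousOn γ (Icc 0 1))
    (hN : ∀ s ∈ Icc (0 : ℝ) 1, Nice (γ s))
    (hS : ∀ s ∈ Icc (0 : ℝ) 1, SigF (f0 (γ s)) ⊆ sq R0) :
    ∀ᶠ en in 𝓝[>] (0 : ℝ), ∀ᶠ eta in 𝓝[>] (0 : ℝ), ∀ s ∈ Icc (0 : ℝ) 1,
      SingF (fpol en eta (γ s)) = ∅ ∧ ∀ z ∈ csq R1 \ sq R0, z ∉ SigF (fpol en eta (γ s)) := by
  have h1 := reg_ev (K := Icc (0 : ℝ) 1 ×ˢ (csq R1 \ sq R0))
    (isCompact_Icc.prod ((isCompact_csq R1).diff (isOpen_sq R0))) isCompact_Icc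
    (fun p hp => hp.1) hγ hN (fun p hp h => hp.2.2 (hS _ hp.1 h))
  filter_upwards [h1] with en a1
  filter_upwards [a1] with eta a2 s hs
  exact ⟨a2.1 s hs, fun z hz => a2.2 (s, z) ⟨hs, hz⟩⟩

/-! ## The end point -/

/-- the critical values at a tuple are near the true labels -/
structure NearQ (P : Prm) (q : Tup n l) (z : Fin M → ℂ) (δ R0 R1 : ℝ) : Prop where
  sing : SingF (P.f q) = ∅
  near : ∀ w ∈ SigF (P.f q) ∩ sq R1, ∃ j, z j ∈ SigF (f0 q) ∧ w ∈ sqc (z j) δ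
  ex : ∀ j, z j ∈ SigF (f0 q) → ∃ w ∈ SigF (P.f q) ∩ sq R1, w ∈ sqc (z j) δ
  fake : ∀ j, z j ∉ SigF (f0 q) → ∀ w ∈ SigF (P.f q) ∩ sq R1, w ∉ sqc (z j) δ
  uniq : ∀ j, ∀ w ∈ SigF (P.f q) ∩ sq R1, ∀ w' ∈ SigF (P.f q) ∩ sq R1, w ∈ sqc (z j) δ →
    w' ∈ sqc (z j) δ → w = w'
  simple : ∀ w ∈ SigF (P.f q) ∩ sq R1, SimpleCV P q w
  fin : (SigF (P.f q) ∩ sq R1).Finite
  sub : ∀ w ∈ SigF (P.f q) ∩ sq R1, |w.re| < R0 ∧ |w.im| < R0

theorem sqc_sub_csqc (c : ℂ) (δ : ℝ) : sqc c δ ⊆ csqc c δ := fun _ h => ⟨h.1.le, h.2.le⟩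

theorem sqc_nhds (c : ℂ) {δ : ℝ} (hδ : 0 < δ) : sqc c δ ∈ 𝓝 c :=
  (isOpen_sqc c δ).mem_nhds ⟨by simpa using hδ, by simpa using hδ⟩

/-- small boxes around the labels are disjoint and inside the square -/
theorem boxes_ev {z : Fin M → ℂ} (hz : Function.Injective z) {R0 : ℝ} (hR0 : ∀ j, z j ∈ sq R0) :
    ∀ᶠ δ in 𝓝[>] (0 : ℝ), (∀ i j, ∀ w ∈ csqc (z i) δ, w ∈ csqc (z j) δ → i = j) ∧
      ∀ j, csqc (z j) δ ⊆ sq R0 := by
  have h1 : ∀ i j, ∀ᶠ δ in 𝓝[>] (0 : ℝ), ∀ w ∈ csqc (z i) δ, w ∈ csqc (z j) δ → i = j := by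
    intro i j
    by_cases hij : i = j
    · exact Eventually.of_forall fun _ _ _ _ => hij
    · have h2 : 0 < max |(z i).re - (z j).re| |(z i).im - (z j).im| := by
        rw [lt_max_iff, abs_pos, abs_pos]
        by_contra hc
        push Not at hc
        exact hij (hz (Complex.ext (sub_eq_zero.1 hc.1) (sub_eq_zero.1 hc.2)))
      filter_upwards [Ioo_mem_nhdsGT (half_pos h2)] with δ hδ w h3 h4
      exfalso
      have h5 := hδ.2
      rcases lt_max_iff.1 (show δ + δ < _ by linarith : δ + δ < max _ _) with h6 | h6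
      · have e : (z i).re - (z j).re = (w.re - (z j).re) - (w.re - (z i).re) := by ring
        rw [e] at h6
        have h7 := abs_sub (w.re - (z j).re) (w.re - (z i).re)
        linarith [h3.1, h4.1]
      · have e : (z i).im - (z j).im = (w.im - (z j).im) - (w.im - (z i).im) := by ring
        rw [e] at h6
        have h7 := abs_sub (w.im - (z j).im) (w.im - (z i).im)
        linarith [h3.2, h4.2]
  have h2 : ∀ j, ∀ᶠ δ in 𝓝[>] (0 : ℝ), csqc (z j) δ ⊆ sq R0 := by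
    intro j
    obtain ⟨h3, h4⟩ := hR0 j
    have h5 : 0 < min (R0 - |(z j).re|) (R0 - |(z j).im|) := by
      rw [lt_min_iff]
      exact ⟨by linarith, by linarith⟩
    filter_upwards [Ioo_mem_nhdsGT h5] with δ hδ w hw
    obtain ⟨h6, h7⟩ := lt_min_iff.1 hδ.2
    refine ⟨?_, ?_⟩
    · have h8 := abs_sub_abs_le_abs_sub w.re (z j).re
      linarith [hw.1]
    · have h8 := abs_sub_abs_le_abs_sub w.im (z j).im
      linarith [hw.2]
  filter_upwards [eventually_all.2 fun i => eventually_all.2 fun j => h1 i j,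
    eventually_all.2 h2] with δ a b
  exact ⟨a, b⟩

/-- **the critical values for small parameters** -/
theorem nearQ_ev {q : Tup n l} (hq : Nice q) {z : Fin M → ℂ} (hz : Function.Injective z)
    (hS : SigF (f0 q) ⊆ range z) {R0 R1 : ℝ} (hR0 : ∀ j, z j ∈ sq R0) (hR : R0 < R1) :
    ∀ᶠ δ in 𝓝[>] (0 : ℝ), ∀ᶠ en in 𝓝[>] (0 : ℝ), ∀ᶠ eta in 𝓝[>] (0 : ℝ), ∀ P : Prm,
      P.en = en → P.eta = eta → NearQ P q z δ R0 R1 := by
  filter_upwards [boxes_ev hz hR0, self_mem_nhdsWithin] with δ ⟨hb, hsq⟩ hδ'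
  have hδ : 0 < δ := hδ'
  have h1 := tame_sing (K := {q}) isCompact_singleton (by rintro _ rfl; exact hq.1)
    (by rintro _ rfl; exact sing_of_nice hq)
  -- no critical values outside of the boxes
  have hKc : IsCompact (csq R1 \ ⋃ j ∈ {j | z j ∈ SigF (f0 q)}, sqc (z j) δ) :=
    (isCompact_csq R1).diff (isOpen_biUnion fun j _ => isOpen_sqc _ _)
  have h2 := tame_sig (K := {q} ×ˢ (csq R1 \ ⋃ j ∈ {j | z j ∈ SigF (f0 q)}, sqc (z j) δ))
    (isCompact_singleton.prod hKc) (by rintro ⟨a, b⟩ ⟨h, -⟩; rw [mem_singleton_iff.1 h]; exact hq.2.1)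
    (by
      rintro ⟨a, b⟩ ⟨h, -, hbb⟩ hc
      have ha : a = q := h
      simp only at hc hbb
      rw [ha] at hc
      obtain ⟨j, rfl⟩ := hS hc
      exact hbb (mem_biUnion (show j ∈ {j | z j ∈ SigF (f0 q)} from hc)
        (mem_of_mem_nhds (sqc_nhds _ hδ))))
  have h3 : ∀ j : Fin M, ∀ᶠ en in 𝓝[>] (0 : ℝ), ∀ᶠ eta in 𝓝[>] (0 : ℝ), z j ∈ SigF (f0 q) →
      ∃ x ∈ CritF (fpol en eta q), x (Fin.last n) ∈ sqc (z j) δ ∧ NonDegC (fpol en eta q) x ∧
        ∀ y ∈ CritF (fpol en eta q), y (Fin.last n) ∈ csqc (z j) δ → y = x := by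
    intro j
    by_cases hj : z j ∈ SigF (f0 q)
    · obtain ⟨w, hw, hwj⟩ := hj
      simp only at hwj
      have h4 := tame_cell hq.2.1 hw (hq.2.2.1.1 w hw) (isCompact_csqc (z j) δ)
        (by rw [hwj]; exact mem_of_superset (sqc_nhds _ hδ) (sqc_sub_csqc _ _))
        (by
          intro x hx hxn
          obtain ⟨i, hi⟩ := hS ⟨x, hx, rfl⟩
          simp only at hi
          have hij : i = j := hb i j (x (Fin.last n))
            (by rw [← hi]; exact sqc_sub_csqc _ _ (mem_of_mem_nhds (sqc_nhds _ hδ))) hxn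
          refine hq.2.2.1.2 hx hw ?_
          simp only
          rw [← hi, hij, hwj])
        (O := {x | x (Fin.last n) ∈ sqc (z j) δ})
        (((isOpen_sqc (z j) δ).preimage (continuous_apply (Fin.last n))).mem_nhds (by
          show w (Fin.last n) ∈ sqc (z j) δ
          rw [hwj]
          exact mem_of_mem_nhds (sqc_nhds _ hδ)))
      filter_upwards [h4] with en a1
      filter_upwards [a1] with eta a2 _
      exact a2
    · exact Eventually.of_forall fun _ => Eventually.of_forall fun _ h => absurd h hj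
  filter_upwards [h1, h2, eventually_all.2 h3] with en a1 a2 a3
  filter_upwards [a1, a2, eventually_all.2 a3] with eta b1 b2 b3
  rintro P rfl rfl
  have near : ∀ w ∈ SigF (P.f q) ∩ sq R1, ∃ j, z j ∈ SigF (f0 q) ∧ w ∈ sqc (z j) δ := by
    rintro w ⟨hw, hwR⟩
    by_contra hc
    push Not at hc
    refine b2 (q, w) ⟨rfl, ⟨hwR.1.le, hwR.2.le⟩, ?_⟩ hw
    simp only [mem_iUnion, not_exists]
    exact fun j hj => hc j hj
  have uniq : ∀ j, ∀ w ∈ SigF (P.f q) ∩ sq R1, ∀ w' ∈ SigF (P.f q) ∩ sq R1,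
      w ∈ sqc (z j) δ → w' ∈ sqc (z j) δ → w = w' := by
    rintro j w hw w' hw' h5 h6
    obtain ⟨i, hi, hi'⟩ := near w hw
    have hij := hb i j w (sqc_sub_csqc _ _ hi') (sqc_sub_csqc _ _ h5)
    obtain ⟨x, -, -, -, hx⟩ := b3 j (hij ▸ hi)
    obtain ⟨⟨y, hy, rfl⟩, -⟩ := hw
    obtain ⟨⟨y', hy', rfl⟩, -⟩ := hw'
    have e1 := hx y hy (sqc_sub_csqc _ _ h5)
    have e2 := hx y' hy' (sqc_sub_csqc _ _ h6)
    rw [e1, e2]
  refine ⟨b1 q rfl, near, ?_, ?_, uniq, ?_, ?_, ?_⟩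
  · intro j hj
    obtain ⟨x, hx1, hx2, -, -⟩ := b3 j hj
    have h5 := hsq j (sqc_sub_csqc _ _ hx2)
    exact ⟨x (Fin.last n), ⟨⟨x, hx1, rfl⟩, h5.1.trans hR, h5.2.trans hR⟩, hx2⟩
  · intro j hj w hw hwj
    obtain ⟨i, hi, hi'⟩ := near w hw
    exact hj (hb i j w (sqc_sub_csqc _ _ hi') (sqc_sub_csqc _ _ hwj) ▸ hi)
  · intro w hw
    obtain ⟨j, hj, hj'⟩ := near w hw
    obtain ⟨x, hx1, hx2, hx3, hx4⟩ := b3 j hj
    obtain ⟨⟨y, hy, rfl⟩, hyR⟩ := hw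
    have e1 := hx4 y hy (sqc_sub_csqc _ _ hj')
    refine ⟨b1 q rfl, x, hx1, by rw [e1], hx3, fun y' hy' h6 => hx4 y' hy' ?_⟩
    rw [h6]
    exact sqc_sub_csqc _ _ hj'
  · have h5 : SigF (P.f q) ∩ sq R1 ⊆ ⋃ j, (SigF (P.f q) ∩ sq R1) ∩ sqc (z j) δ := by
      intro w hw
      obtain ⟨j, -, hj⟩ := near w hw
      exact mem_iUnion.2 ⟨j, hw, hj⟩
    refine (finite_iUnion fun j => ?_).subset h5
    exact Set.Subsingleton.finite fun w hw w' hw' => uniq j w hw.1 w' hw'.1 hw.2 hw'.2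
  · intro w hw
    obtain ⟨j, -, hj⟩ := near w hw
    exact hsq j (sqc_sub_csqc _ _ hj)

/-- the critical values in a compact set which contains one critical value for `eta = 0` -/
theorem compact_ev {q : Tup n l} (hq : Nice q) {K : Set ℂ} (hK : IsCompact K) {a : ℂ}
    (hKa : K ∩ SigF (f0 q) ⊆ {a}) {δ : ℝ} (hδ : 0 < δ) :
    ∀ᶠ en in 𝓝[>] (0 : ℝ), ∀ᶠ eta in 𝓝[>] (0 : ℝ), ∀ w ∈ SigF (fpol en eta q) ∩ K,
      w ∈ sqc a δ := by
  have h2 := tame_sig (K := {q} ×ˢ (K \ sqc a δ))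
    (isCompact_singleton.prod (hK.diff (isOpen_sqc _ _)))
    (by rintro ⟨a, b⟩ ⟨h, -⟩; rw [mem_singleton_iff.1 h]; exact hq.2.1)
    (by
      rintro ⟨x, b⟩ ⟨h, hb1, hb2⟩ hc
      have ha : x = q := h
      simp only at hc hb1 hb2
      rw [ha] at hc
      have h3 : b = a := hKa ⟨hb1, hc⟩
      rw [h3] at hb2
      exact hb2 (mem_of_mem_nhds (sqc_nhds _ hδ)))
  filter_upwards [h2] with en a1
  filter_upwards [a1] with eta a2 w hw
  by_contra hc
  exact a2 (q, w) ⟨rfl, hw.2, hc⟩ hw.1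

/-! ## The labels of the plane -/

/-- **the data of the labels at the end** -/
theorem NearQ.labEv {P : Prm} {q₀ : Tup n l} {z₀ : ℂ} {R0 R R1 δ : ℝ} {m : ℕ}
    {γ : ℕ → ℝ → Tup n l} (D : EvD P q₀ z₀ R0 R1 m γ) {C : Conf M R} {q : RTup n l}
    (hq : γ m 1 = tC q) (H : NearQ P (γ m 1) (fun j => C.z j 1) δ R0 R1) (hR0 : R0 < R)
    (hR1 : R < R1) (gap : ∀ j, (C.z j 1).im ≠ 0 → δ ≤ |(C.z j 1).im|) {α β : Fin M}
    (ha : At C δ 1 α D.a) (hb : At C δ 1 β D.b) (a0 : 0 ≤ (C.z α 1).im)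
    (b0 : (C.z β 1).im ≤ 0)
    (cola : ∀ j, C.z j 1 ∈ SigF (f0 (γ m 1)) → (C.z j 1).re = (C.z α 1).re → 0 ≤ (C.z j 1).im →
      ¬ (C.z j 1).im < (C.z α 1).im)
    (colb : ∀ j, C.z j 1 ∈ SigF (f0 (γ m 1)) → (C.z j 1).re = (C.z β 1).re → (C.z j 1).im ≤ 0 →
      ¬ (C.z β 1).im < (C.z j 1).im) : LabEv C δ D.pl α β := by
  have eS : D.pl.C.S = SigF (P.f (γ m 1)) ∩ sq R1 := D.S_eq
  have e0 : D.pl.C.R0 = R0 := D.R0_eq
  have e1 : D.pl.C.R1 = R1 := D.R1_eq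
  refine ⟨⟨by rw [e0]; exact hR0, by rw [e1]; exact hR1, ?_, ?_⟩, ?_, gap, ha, hb, a0, b0, ?_, ?_⟩
  · intro z hz
    rw [eS] at hz
    obtain ⟨j, -, hj⟩ := H.near z hz
    exact ⟨j, hj⟩
  · intro z hz z' hz' j h1 h2
    rw [eS] at hz hz'
    exact H.uniq j z hz z' hz' h1 h2
  · intro j hj z hz hzj
    rw [eS] at hz
    have h1 : (starRingEnd ℂ) z ∈ SigF (P.f (γ m 1)) ∩ sq R1 := by
      refine ⟨?_, ?_⟩
      · have h2 := hz.1
        rw [hq] at h2 ⊢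
        exact conj_sig P.en P.eta q h2
      · refine ⟨by rw [Complex.conj_re]; exact hz.2.1, ?_⟩
        rw [Complex.conj_im, abs_neg]
        exact hz.2.2
    have h2 : (starRingEnd ℂ) z ∈ sqc (C.z j 1) δ := by
      refine ⟨by rw [Complex.conj_re]; exact hzj.1, ?_⟩
      have h3 := hzj.2
      rw [hj, sub_zero] at h3 ⊢
      rw [Complex.conj_im, abs_neg]
      exact h3
    have h3 := H.uniq j _ h1 z hz h2 hzj
    have h4 := congrArg Complex.im h3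
    rw [Complex.conj_im] at h4
    linarith
  · intro j h1 h2 h3 z hz hzj
    rw [eS] at hz
    by_cases h4 : C.z j 1 ∈ SigF (f0 (γ m 1))
    · exact cola j h4 h1 h2 h3
    · exact H.fake j h4 z hz hzj
  · intro j h1 h2 h3 z hz hzj
    rw [eS] at hz
    by_cases h4 : C.z j 1 ∈ SigF (f0 (γ m 1))
    · exact colb j h4 h1 h2 h3
    · exact H.fake j h4 z hz hzj

end Pool.Agent.QC.Grid
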