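import Pool.Agent.QC.Asm.Geo33
import Pool.Agent.QC.Rec.Frame

/-!
# MP_7c50a9_lc: bad levels are isolated; real singular points in a frame
-/

namespace Pool.Agent.QC.Geo33

open MvPolynomial Filter Topology Set

variable {n l : ℕ}

theorem f0_addT (q : Tup n l) (t : ℂ) :
    f0 (addT q t) = f0 q + C t * ∏ m : Fin l, qpol (q m.succ) := by
  have h0 : qpol (addT q t 0) = qpol (q 0) + C t := by
    simp only [addT, if_true, qpol, map_add]
    ring
  have h1 : ∀ m : Fin l, addT q t m.succ = q m.succ := fun m => by simp [addT]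
  rw [f0, f0, prodT, prodT, Fin.prod_univ_succ, Fin.prod_univ_succ, h0]
  simp only [h1]
  ring

/-- Near a nondegenerate singular point of `F` there is no singular point of `F + s G`, `s ≠ 0`. -/
theorem sing_isolated {m : ℕ} (F G : Pol m) (v : Fin m → ℂ) (hv : v ∈ SingF F)
    (hH : (hess F v).det ≠ 0) (hG : eval v G ≠ 0) :
    ∀ᶠ x in 𝓝 v, ∀ s : ℂ, x ∈ SingF (F + C s * G) → s = 0 := by
  classical
  obtain ⟨C0, hC0, hCb⟩ := Ev.exists_bound hH
  obtain ⟨g, hgp, hg⟩ : ∃ g > 0, g < ‖eval v G‖ :=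
    ⟨‖eval v G‖ / 2, half_pos (norm_pos_iff.mpr hG), half_lt_self (norm_pos_iff.mpr hG)⟩
  obtain ⟨K, hKp, hK⟩ : ∃ K > 0, ∀ i, ‖eval v (pderiv i G)‖ < K := by
    have h0 : 0 ≤ ∑ i, ‖eval v (pderiv i G)‖ := Finset.sum_nonneg fun _ _ => norm_nonneg _
    refine ⟨1 + ∑ i, ‖eval v (pderiv i G)‖, by linarith, fun i => ?_⟩
    have h1 : ‖eval v (pderiv i G)‖ ≤ ∑ i, ‖eval v (pderiv i G)‖ :=
      Finset.single_le_sum (f := fun i => ‖eval v (pderiv i G)‖) (fun _ _ => norm_nonneg _)
        (Finset.mem_univ i)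
    linarith
  have hKg1 : 0 < 1 + K / g := by positivity
  obtain ⟨ε, hεp, hε2⟩ : ∃ ε > 0, C0 * (ε * (1 + K / g)) = 1 / 2 := by
    refine ⟨1 / (2 * C0 * (1 + K / g)), by positivity, ?_⟩
    generalize 1 + K / g = A at hKg1 ⊢
    field_simp
  have a1 : ∀ᶠ x in 𝓝 v, g < ‖eval x G‖ :=
    (Ev.continuous_evalC G).norm.continuousAt.eventually_const_lt hg
  have a2 : ∀ᶠ x in 𝓝 v, ∀ i, ‖eval x (pderiv i G)‖ < K :=
    eventually_all.mpr fun i =>
      (Ev.continuous_evalC (pderiv i G)).norm.continuousAt.eventually_lt_const (hK i)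
  have a3 : ∀ᶠ x in 𝓝 v, ∀ i : Fin m, ‖eval x (pderiv i F) - eval v (pderiv i F) -
      ∑ j, eval v (pderiv j (pderiv i F)) * (x j - v j)‖ ≤ ε * ‖x - v‖ :=
    eventually_all.mpr fun i => Ev.eval_expand (pderiv i F) v hεp
  have a4 := Ev.eval_expand F v hεp
  have hKg : 0 ≤ ε * (1 + K / g) := mul_nonneg hεp.le hKg1.le
  filter_upwards [a1, a2, a3, a4] with x b1 b2 b3 b4 s hs
  have e0 : eval x F + s * eval x G = 0 := by
    have := hs.1
    simpa using this
  have e1 : ∀ i, eval x (pderiv i F) + s * eval x (pderiv i G) = 0 := by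
    intro i
    have := hs.2 i
    simpa [Derivation.leibniz] using this
  have c1 : ‖eval x F‖ ≤ ε * ‖x - v‖ := by
    rw [hv.1] at b4
    simpa [hv.2] using b4
  have c2 : ‖s‖ * g ≤ ε * ‖x - v‖ := by
    have h1 : ‖s‖ * ‖eval x G‖ = ‖eval x F‖ := by
      have h2 : eval x F = -(s * eval x G) := by linear_combination e0
      rw [h2, norm_neg, norm_mul]
    calc ‖s‖ * g ≤ ‖s‖ * ‖eval x G‖ := mul_le_mul_of_nonneg_left b1.le (norm_nonneg _)
      _ = ‖eval x F‖ := h1
      _ ≤ _ := c1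
  have c3 : ‖s‖ ≤ ε * ‖x - v‖ / g := by rwa [le_div_iff₀ hgp]
  have c4 : ∀ i, ‖eval x (pderiv i F)‖ ≤ ε * ‖x - v‖ / g * K := by
    intro i
    have h2 : eval x (pderiv i F) = -(s * eval x (pderiv i G)) := by linear_combination e1 i
    rw [h2, norm_neg, norm_mul]
    exact mul_le_mul c3 (b2 i).le (norm_nonneg _) ((norm_nonneg _).trans c3)
  have c5 : ‖(hess F v).mulVec (x - v)‖ ≤ ε * (1 + K / g) * ‖x - v‖ := by
    rw [pi_norm_le_iff_of_nonneg (mul_nonneg hKg (norm_nonneg _))]
    intro i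
    have hmv : (hess F v).mulVec (x - v) i =
        ∑ j, eval v (pderiv j (pderiv i F)) * (x j - v j) := by
      rw [Matrix.mulVec, dotProduct]
      refine Finset.sum_congr rfl fun j _ => ?_
      rw [hess, Ev.pderiv_comm']
      rfl
    rw [hmv]
    have e2 := b3 i
    rw [hv.2 i, sub_zero] at e2
    have e3 : ‖∑ j, eval v (pderiv j (pderiv i F)) * (x j - v j)‖ ≤
        ‖eval x (pderiv i F)‖ + ‖eval x (pderiv i F) -
          ∑ j, eval v (pderiv j (pderiv i F)) * (x j - v j)‖ := by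
      have := norm_sub_le (eval x (pderiv i F)) (eval x (pderiv i F) -
        ∑ j, eval v (pderiv j (pderiv i F)) * (x j - v j))
      rwa [sub_sub_cancel] at this
    have e4 : ε * (1 + K / g) * ‖x - v‖ = ε * ‖x - v‖ / g * K + ε * ‖x - v‖ := by
      field_simp
      ring
    rw [e4]
    linarith [c4 i]
  have c6 : ‖x - v‖ ≤ 1 / 2 * ‖x - v‖ := by
    calc ‖x - v‖ ≤ C0 * ‖(hess F v).mulVec (x - v)‖ := hCb _
      _ ≤ C0 * (ε * (1 + K / g) * ‖x - v‖) := mul_le_mul_of_nonneg_left c5 hC0.le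
      _ = C0 * (ε * (1 + K / g)) * ‖x - v‖ := by ring
      _ = _ := by rw [hε2]
  have c7 : ‖x - v‖ = 0 := by
    have := norm_nonneg (x - v)
    linarith
  rw [c7, mul_zero, zero_div] at c3
  exact norm_le_zero_iff.mp c3

/-- Bad levels are isolated. -/
theorem lev_isolated {q : Tup n l} (h0 : T0 q) (h1 : T1 q) {tv : ℂ} {v : Fin (n + 1) → ℂ}
    (hv : v ∈ SingF (f0 (addT q tv))) (h3 : N3at (addT q tv)) :
    ∀ᶠ t in 𝓝[≠] tv, SingF (f0 (addT q t)) = ∅ := by
  classical
  obtain ⟨hH, -, huniq, -, -⟩ := h3 v hv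
  set G : Pol (n + 1) := ∏ m : Fin l, qpol (q m.succ) with hGdef
  set F : Pol (n + 1) := f0 (addT q tv) with hF
  have hFt : ∀ t, f0 (addT q t) = F + C (t - tv) * G := by
    intro t
    rw [hF, f0_addT, f0_addT, map_sub]
    ring
  have hG : eval v G ≠ 0 := by
    intro h
    have h4 : eval v (qpol (q 0) + C tv) * eval v G = 1 := by
      have h5 := hv.1
      rw [hF, f0_addT, f0, prodT, Fin.prod_univ_succ] at h5
      simp only [map_add, map_mul, map_sub, map_one, ← hGdef] at h5 ⊢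
      linear_combination h5
    rw [h, mul_zero] at h4
    exact zero_ne_one h4
  -- boundedness
  have hK : IsCompact ((fun t : ℂ => addT q t) '' Metric.closedBall tv 1) :=
    (isCompact_closedBall _ _).image (S5.continuous_addTC q)
  obtain ⟨R, hR⟩ := sig_bounded hK (by
    rintro _ ⟨t, -, rfl⟩
    exact T0_addT h0 t) (by
    rintro _ ⟨t, -, rfl⟩
    exact S5.T1_addT h1 t)
  have hR' : ∀ t ∈ Metric.closedBall tv 1, ∀ x ∈ SingF (f0 (addT q t)),
      x ∈ Metric.closedBall (0 : Fin (n + 1) → ℂ) (max R 0) := by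
    intro t ht x hx
    rw [mem_closedBall_zero_iff, pi_norm_le_iff_of_nonneg (le_max_right _ _)]
    exact fun i => (hR _ ⟨t, ht, rfl⟩ x ⟨hx.1, fun i => hx.2 i.castSucc⟩ i).le.trans
      (le_max_left _ _)
  have key : ∀ᶠ t in 𝓝 tv, ∀ x ∈ Metric.closedBall (0 : Fin (n + 1) → ℂ) (max R 0),
      x ∈ SingF (F + C (t - tv) * G) → t = tv := by
    refine (isCompact_closedBall _ _).eventually_forall_of_forall_eventually fun x _ => ?_
    by_cases hxv : x = v
    · subst hxv
      have h4 := sing_isolated F G x hv hH hG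
      have h5 : Tendsto (fun z : ℂ × (Fin (n + 1) → ℂ) => z.2) (𝓝 (tv, x)) (𝓝 x) :=
        continuous_snd.tendsto _
      filter_upwards [h5.eventually h4] with z hz hs
      exact sub_eq_zero.mp (hz _ hs)
    · have hx : x ∉ SingF F := fun h => hxv (huniq x h)
      have hcont : ∀ A B : Pol (n + 1), Continuous fun z : ℂ × (Fin (n + 1) → ℂ) =>
          eval z.2 A + (z.1 - tv) * eval z.2 B := fun A B =>
        ((Ev.continuous_evalC A).comp continuous_snd).add
          ((continuous_fst.sub continuous_const).mul ((Ev.continuous_evalC B).comp continuous_snd))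
      have hnz : ∀ A B : Pol (n + 1), eval x A ≠ 0 →
          ∀ᶠ z : ℂ × (Fin (n + 1) → ℂ) in 𝓝 (tv, x),
            eval z.2 A + (z.1 - tv) * eval z.2 B ≠ 0 := by
        intro A B hA
        refine (hcont A B).continuousAt.eventually_ne ?_
        simpa using hA
      have h4 : eval x F ≠ 0 ∨ ∃ i, eval x (pderiv i F) ≠ 0 := by
        by_contra hcon
        push Not at hcon
        exact hx hcon
      rcases h4 with h4 | ⟨i, h4⟩
      · filter_upwards [hnz F G h4] with z hz hs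
        exact absurd (by simpa using hs.1) hz
      · filter_upwards [hnz (pderiv i F) (pderiv i G) h4] with z hz hs
        exact absurd (by simpa [Derivation.leibniz] using hs.2 i) hz
  rw [eventually_nhdsWithin_iff]
  filter_upwards [key, Metric.closedBall_mem_nhds tv one_pos] with t ht htb hne
  rw [eq_empty_iff_forall_notMem]
  intro x hx
  refine hne (ht x (hR' t htb x hx) ?_)
  rw [← hFt]
  exact hx

/-- A real singular point in a frame gives one in the frame `0`. -/
theorem sing_of_shT {q : RTup n l} {c : Fin n → ℝ} {s : ℝ} {x : Fin (n + 1) → ℝ}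
    (h : xC x ∈ SingF (f0 (tC (addT (shT c q) s)))) :
    (SingF (f0 (tC (addT q s)))).Nonempty := by
  rw [Ev.addT_shT, mem_SingF_xC, fF_shT] at h
  refine ⟨xC ((shM c).mulVec x), ?_⟩
  rw [mem_SingF_xC]
  refine ⟨h.1, ?_⟩
  set g : Fin (n + 1) → ℝ := fG (addT q s) ((shM c).mulVec x) with hg
  have h2 : Matrix.vecMul g (shM c) = 0 := by
    funext i
    have := h.2 i
    rw [fG_shT] at this
    rw [Matrix.vecMul, dotProduct, Pi.zero_apply, ← this]
    exact Finset.sum_congr rfl fun j _ => mul_comm _ _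
  have h3 : g = 0 := by
    have : Matrix.vecMul (Matrix.vecMul g (shM c)) (shN c) = g := by
      rw [Matrix.vecMul_vecMul, shM_mul_shN, Matrix.vecMul_one]
    rw [← this, h2, Matrix.zero_vecMul]
  intro i
  rw [h3]
  rfl

end Pool.Agent.QC.Geo33
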