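import Pool.Agent.QC.Asm.In0Defs
import Pool.Agent.QC.Asm.IsoLev33

/-!
# MP_7c50a9_lc: the geometry of one event at `eta = 0`
-/

namespace Pool.Agent.QC.Geo33

open MvPolynomial Filter Topology Set

variable {n l : ℕ}

theorem negDef_inv {m : ℕ} {H : Matrix (Fin m) (Fin m) ℝ} (h : NegDef H) (i : Fin m) :
    ¬ 0 < (H⁻¹ : Matrix _ _ ℝ) i i := by
  intro h0
  have hu : IsUnit H.det := by
    by_contra hu
    rw [Matrix.nonsing_inv_apply_not_isUnit H hu] at h0
    exact lt_irrefl _ h0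
  set a : Fin m → ℝ := (H⁻¹ : Matrix _ _ ℝ).mulVec (Pi.single i 1) with ha
  have h1 : H.mulVec a = Pi.single i 1 := by
    rw [ha, Matrix.mulVec_mulVec, Matrix.mul_nonsing_inv _ hu, Matrix.one_mulVec]
  have h2 : a i = (H⁻¹ : Matrix _ _ ℝ) i i := by
    rw [ha, Matrix.mulVec_single_one]
    rfl
  have h3 : a ≠ 0 := by
    intro h4
    rw [← h2, h4] at h0
    exact lt_irrefl _ h0
  have h4 := h a h3
  rw [h1, dotProduct_single, mul_one, h2] at h4
  exact lt_asymm h0 h4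

theorem not_negDef_of_onePos {m : ℕ} {H : Matrix (Fin m) (Fin m) ℝ} (h : OnePos H) :
    ¬ NegDef H := by
  obtain ⟨a, ha, -⟩ := h
  intro hN
  have ha0 : a ≠ 0 := by
    rintro rfl
    simp at ha
  exact absurd ha (hN a ha0).le.not_gt

theorem Lst.lt {q : RTup n l} {t₀ : ℝ} {k : ℕ} {τ : ℕ → ℝ} (hl : Lst q t₀ k τ) {i j : ℕ}
    (hij : i < j) (hj : j ≤ k) : τ i < τ j := by
  induction j, hij using Nat.le_induction with
  | base => exact hl.mono i (by omega)
  | succ m hm ih => exact (ih (by omega)).trans (hl.mono m (by omega))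

theorem Lst.le {q : RTup n l} {t₀ : ℝ} {k : ℕ} {τ : ℕ → ℝ} (hl : Lst q t₀ k τ) {i j : ℕ}
    (hij : i ≤ j) (hj : j ≤ k) : τ i ≤ τ j := by
  rcases hij.eq_or_lt with rfl | h
  · exact le_rfl
  · exact (Lst.lt hl h hj).le

theorem xC_inj {m : ℕ} {x y : Fin m → ℝ} (h : xC x = xC y) : x = y := by
  funext i
  exact Complex.ofReal_injective (congrFun h i)

theorem prod_of_sing {q : RTup n l} {v : Fin (n + 1) → ℝ} (hv : xC v ∈ SingF (f0 (tC q))) :
    ∏ m, qvR (q m) v = 1 := by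
  have h1 : eval (fun i => (v i : ℂ)) (f0 (tC q)) = 0 := hv.1
  rw [Red.eval_f0] at h1
  have h2 := Complex.ofReal_eq_zero.mp h1
  linarith

/-- The morse data of an event in the frame of the event. -/
theorem exists_key {qc : RTup n l} {tv t' : ℝ} {v : Fin (n + 1) → ℝ} (hcomp : CompLev qc)
    (h1 : T1 (tC qc)) (hlt : tv < t') (hle : t' ≤ 0)
    (hv : xC v ∈ SingF (f0 (tC (addT qc tv)))) (h3 : N3at (tC (addT qc tv)))
    (honly : ∀ s ∈ Ico tv t', ∀ x, xC x ∈ SingF (f0 (tC (addT qc s))) → s = tv ∧ x = v)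
    (c : Fin n → ℝ) (re : Bool) (cls : Fin 3)
    (hre : re = true → c = 0 ∧ NegDef (HR (addT qc tv) v))
    (hnr : re = false → 0 < ((HR (addT qc tv) v)⁻¹ : Matrix _ _ ℝ) (Fin.last n) (Fin.last n))
    (hc0 : cls = 0 ↔ inOm qc v ∧ NegDef (HR (addT qc tv) v))
    (hc1 : cls = 1 ↔ inOm qc v ∧ OnePos (HR (addT qc tv) v)) :
    ∃ r₁ > 0, ∃ N : Set (Fin (n + 1) → ℝ), ∀ r < r₁, ∀ r' > 0, r' < r →
      ∀ᶠ κ in 𝓝[>] (0 : ℝ), ∃ μ,
        (re = false → GeoA0 qc tv κ (v (Fin.last n)) r' r μ) ∧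
        (re = true → c = 0 ∧ IsOpen N ∧ GeoB0 qc tv κ (v (Fin.last n)) r' r N) ∧
        Mor0 qc tv κ t' (v (Fin.last n)) r' r N re
          (if cls = 0 then .zero else if cls = 1 then .one else .other) := by
  have hEv : inOm qc v → EvHyp qc tv t' v := fun hom =>
    { comp := hcomp, lt := hlt, le := hle, om := hom, sing := hv, det := (h3 _ hv).1
      only := fun s hs x _ hx => honly s hs x hx }
  have hnotOm : ¬ inOm qc v → SameCmp qc tv t' := fun hom => by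
    refine morse_reg hcomp hlt hle fun s hs x hx hxs => ?_
    obtain ⟨-, rfl⟩ := honly s hs x hxs
    exact hom hx
  cases re with
  | false =>
    have hA := hnr rfl
    have hnd : ¬ NegDef (HR (addT qc tv) v) := fun h => negDef_inv h _ hA
    have hc0' : cls ≠ 0 := fun h => hnd (hc0.mp h).2
    obtain ⟨r1, hr1, hgA⟩ := exists_geoA0 h1 hv h3 hA
    by_cases hcls : cls = 1
    · obtain ⟨hom, hone⟩ := hc1.mp hcls
      have H := hEv hom
      obtain ⟨r2, hr2, hgM⟩ := exists_geoM0 h1 H h3 hone hA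
      obtain ⟨hsur, -⟩ := morse_one H hone hA
      refine ⟨min r1 r2, lt_min hr1 hr2, univ, fun r hr r' hr' hr'r => ?_⟩
      filter_upwards [hgA r (hr.trans_le (min_le_left _ _)) r' hr' hr'r,
        hgM r (hr.trans_le (min_le_right _ _)) r' hr' hr'r] with κ ⟨μ, hμ⟩
        ⟨U1, hU1, U2, hU2, hGM, hs1, hs2, hinj⟩
      refine ⟨μ, fun _ => hμ, fun h => Bool.noConfusion h, ?_⟩
      rw [if_neg hc0', if_pos hcls]
      have hvW : v ∈ Wset qc t' := by
        by_contra hvW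
        obtain ⟨x, hx, rfl⟩ := hU1
        have := hs1 (mem_connectedComponentIn hx)
        rw [connectedComponentIn_eq_empty hvW] at this
        exact this
      have hsub : Wset qc tv ⊆ Wset qc t' := Ev.Wset_mono hlt.le
      refine Mor0.one (U1 := U1) (U2 := U2) hGM ⟨hU1, hU2, ?_, ⟨_, ⟨v, hvW, rfl⟩, hs1, hs2⟩, hinj⟩
      rintro _ ⟨x, hx, rfl⟩
      obtain ⟨y, hy, hyx⟩ := hsur x hx
      refine ⟨_, ⟨y, hy, rfl⟩, ?_⟩
      rw [connectedComponentIn_eq hyx]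
      exact connectedComponentIn_mono y hsub
    · have hs : SameCmp qc tv t' := by
        by_cases hom : inOm qc v
        · exact morse_other (hEv hom) hnd fun h => hcls (hc1.mpr ⟨hom, h⟩)
        · exact hnotOm hom
      refine ⟨r1, hr1, univ, fun r hr r' hr' hr'r => ?_⟩
      filter_upwards [hgA r hr r' hr' hr'r] with κ ⟨μ, hμ⟩
      refine ⟨μ, fun _ => hμ, fun h => Bool.noConfusion h, ?_⟩
      rw [if_neg hc0', if_neg hcls]
      exact Mor0.otherA hs
  | true =>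
    obtain ⟨hc, hB⟩ := hre rfl
    have hcls1 : cls ≠ 1 := fun h => not_negDef_of_onePos (hc1.mp h).2 hB
    by_cases hom : inOm qc v
    · have hcls0 : cls = 0 := hc0.mpr ⟨hom, hB⟩
      obtain ⟨hM, hvW⟩ := morZ (hEv hom) hB
      have hopen : IsOpen (connectedComponentIn (Wset qc t') v) :=
        (isOpen_Wset qc t').connectedComponentIn
      obtain ⟨r1, hr1, hgB⟩ := exists_geoB0 h1 hv h3 hB
        (hopen.mem_nhds (mem_connectedComponentIn hvW))
      refine ⟨r1, hr1, connectedComponentIn (Wset qc t') v, fun r hr r' hr' hr'r => ?_⟩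
      filter_upwards [hgB r hr r' hr' hr'r] with κ hκ
      refine ⟨0, fun h => Bool.noConfusion h, fun _ => ⟨hc, hopen, hκ⟩, ?_⟩
      rw [if_pos hcls0]
      exact Mor0.zero hM subset_rfl
    · have hcls0 : cls ≠ 0 := fun h => hom (hc0.mp h).1
      obtain ⟨m, hm⟩ : ∃ m : Fin l, ¬ 0 < qvR (qc m.succ) v := by
        by_contra hcon
        push Not at hcon
        exact hom hcon
      have hne : qvR (qc m.succ) v ≠ 0 := by
        intro h4
        have h5 := prod_of_sing hv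
        have h6 : ∏ m, qvR (addT qc tv m) v = 0 := by
          refine Finset.prod_eq_zero (Finset.mem_univ m.succ) ?_
          have : addT qc tv m.succ = qc m.succ := by simp [addT]
          rw [this, h4]
        rw [h6] at h5
        exact zero_ne_one h5
      have hlt0 : qvR (qc m.succ) v < 0 := lt_of_le_of_ne (not_lt.mp hm) hne
      have hopen : IsOpen {x : Fin (n + 1) → ℝ | qvR (qc m.succ) x < 0} :=
        isOpen_lt (Red.contDiff_qvR (qc m.succ) (k := 1)).continuous continuous_const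
      obtain ⟨r1, hr1, hgB⟩ := exists_geoB0 h1 hv h3 hB (hopen.mem_nhds hlt0)
      refine ⟨r1, hr1, {x : Fin (n + 1) → ℝ | qvR (qc m.succ) x < 0}, fun r hr r' hr' hr'r => ?_⟩
      filter_upwards [hgB r hr r' hr' hr'r] with κ hκ
      refine ⟨0, fun h => Bool.noConfusion h, fun _ => ⟨hc, hopen, hκ⟩, ?_⟩
      rw [if_neg hcls0, if_neg hcls1]
      exact Mor0.otherB (fun x hx hxo => lt_asymm (hxo m) hx) (hnotOm hom)

/-- One event: the squares do not depend on `κ`. -/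
theorem exists_evG0 {Phi : MvPolynomial (Ix n l) ℂ} (hPhi : GoodPhi Phi) (RS : RootSys Phi)
    {q₀ : Tup n l} {q : RTup n l} {t₀ : ℝ} (hq : Good Phi q t₀) {k : ℕ} {τ : ℕ → ℝ}
    (hl : Lst q t₀ k τ) {j : ℕ} (hj : j < k) {R : EvRec} (hR : HasEv RS q₀ q t₀ (τ j) R) :
    ∃ (c : Fin n → ℝ) (vn r' r ρ0 ρ1 : ℝ) (T : Set ℂ) (N : Set (Fin (n + 1) → ℝ)),
      eval (cfs (tC (shT c q))) Phi ≠ 0 ∧
      (∀ᶠ κ in 𝓝[>] (0 : ℝ), ∀ᶠ ω in 𝓝[>] (0 : ℝ),
        word (fun s => RS.Rt (pathA q₀ (tC (addT q t₀)) ω s)) = R.wA ∧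
        word (fun s => RS.Rt (pathB (tC q) t₀ ((τ j + κ : ℝ) : ℂ) ω s)) = R.wB ∧
        word (fun s => RS.Rt (pathC (tC (addT q (τ j + κ))) (xC c) ω s)) = R.wC ∧
        (R.real = true →
          {z ∈ RS.Rt (tC (addT q (τ j + κ))) | z.im = 0 ∧ z.re < vn}.ncard = R.cnt)) ∧
      ∀ᶠ κ in 𝓝[>] (0 : ℝ), ∃ μ : ℝ, ∀ G : GD n, G.c j = c → G.vn j = vn → G.r' j = r' →
        G.r j = r → G.ρ0 j = ρ0 → G.ρ1 j = ρ1 → G.T j = T → G.N j = N → G.μ j = μ →
        G.re j = R.real → G.cls j = R.kl → EvG0 q τ κ G j := by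
  obtain ⟨c, v, hv, hΦ, hre, hnr, hc0, hc1, hw⟩ := hR
  obtain ⟨h0, h1, -, h3⟩ := hPhi _ hΦ
  simp only [← Ev.addT_shT] at hv hre hnr hc0 hc1
  -- the times
  have ht₀ : t₀ < τ j := ((hl.mem (τ j)).mpr ⟨j, hj, rfl⟩).1.1
  have hlt : τ j < τ (j + 1) := hl.mono j hj
  have hle : τ (j + 1) ≤ 0 := by
    rw [← hl.last]
    exact Lst.le hl (by omega) le_rfl
  have h3v : N3at (tC (addT (shT c q) (τ j))) := by
    rw [tC_addT]
    exact h3 _
  have honly : ∀ s ∈ Ico (τ j) (τ (j + 1)), ∀ x,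
      xC x ∈ SingF (f0 (tC (addT (shT c q) s))) → s = τ j ∧ x = v := by
    intro s hs x hx
    have h4 : s ∈ EvT q t₀ := ⟨⟨ht₀.trans_le hs.1, hs.2.trans_le hle⟩, sing_of_shT hx⟩
    obtain ⟨i, hi, his⟩ := (hl.mem s).mp h4
    have hij : i = j := by
      rcases lt_trichotomy i j with h | h | h
      · have := Lst.lt hl h hj.le
        exact absurd hs.1 (by rw [← his]; exact not_le.mpr this)
      · exact h
      · have := Lst.le hl (show j + 1 ≤ i from h) hi.le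
        exact absurd hs.2 (by rw [← his]; exact not_lt.mpr this)
    subst hij
    subst his
    exact ⟨rfl, xC_inj ((h3v _ hv).2.2.1 _ hx)⟩
  have hcomp : CompLev (shT c q) := (compLev hq.compact).shT c
  have hiso : ∀ᶠ t in 𝓝[≠] (τ j : ℂ), SingF (f0 (addT (tC (shT c q)) t)) = ∅ := by
    have hv' := hv
    rw [tC_addT] at hv'
    exact lev_isolated h0 h1 hv' (h3 _)
  obtain ⟨r₁, hr₁, N, hkey⟩ := exists_key hcomp h1 hlt hle hv h3v honly c R.real R.cls hre hnr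
    hc0 hc1
  obtain ⟨r, hr, hrr₁, ρ1, hρ1, T, hT, hdis, hdisK, him, hgeo⟩ :=
    exists_geo0 h0 h1 h3 hv hiso hr₁
  refine ⟨c, v (Fin.last n), r / 2, r, min (r / 2) (ρ1 / 2), ρ1, T, N, hΦ, hw, ?_⟩
  have hr2 : r / 2 < r := by linarith
  have hρ : min (r / 2) (ρ1 / 2) < ρ1 := (min_le_right _ _).trans_lt (by linarith)
  filter_upwards [hkey r hrr₁ (r / 2) (by linarith) hr2,
    hgeo (r / 2) (by linarith) hr2 (min (r / 2) (ρ1 / 2)) (lt_min (by linarith) (by linarith))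
      hρ] with κ ⟨μ, hA, hB, hM⟩ hG
  refine ⟨μ, fun G e1 e2 e3 e4 e5 e6 e7 e8 e9 e10 e11 => ?_⟩
  refine ⟨?_, ?_, ?_, ?_, ?_⟩
  · rw [e1, e2, e3, e4, e5, e6, e7]
    exact hG
  · rw [e2, e3, e4, e5, e6, e7]
    intro R0 hK hTs
    exact ⟨by linarith, hr2, lt_min (by linarith) (by linarith), hρ, hT, hK, hTs, hdis, hdisK,
      him, min_le_left _ _⟩
  · rw [e10, e1, e2, e3, e4, e9]
    exact hA
  · rw [e10, e1, e2, e3, e4, e8]
    exact hB
  · rw [e10, e11, e1, e2, e3, e4, e8]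
    exact hM

end Pool.Agent.QC.Geo33
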