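import Pool.Agent.QC.Asm.EventC

/-!
# MP_7c50a9_lc: one event with a complex pair: classes `other` and `one`
-/

set_option autoImplicit false

namespace Pool.Agent.QC

open MvPolynomial Filter Topology Set Metric EvC

variable {n l : ℕ} {P : Prm} {q₀ : Tup n l} {z₀ : ℂ} {R0 R1 : ℝ} {m : ℕ} {γ : ℕ → ℝ → Tup n l}

/-! ## The complex pair -/

variable {D : EvD P q₀ z₀ R0 R1 m γ} {q : RTup n l} {tv κ vn t' r' r ρ0 ρ1 : ℝ} {T : Set ℂ}
  {u : Cmp (Wset q tv) → Fnl (n + 1)} {o : Cmp (Wset q t') → Fnl (n + 1)}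

theorem EvIn.S_sig (E : EvIn D q tv κ vn t' r' r ρ0 ρ1 T u o) {w : ℂ} (hw : w ∈ D.pd.S) :
    w ∈ SigF (P.f (tC (addT q (tv + κ)))) ∧ w ∈ sq R1 := by
  rw [D.S_eq, E.fin] at hw
  exact hw

theorem EvIn.mem_S (E : EvIn D q tv κ vn t' r' r ρ0 ρ1 T u o) {w : ℂ}
    (hw : w ∈ SigF (P.f (tC (addT q (tv + κ))))) (hw1 : w ∈ csqc (vn : ℂ) r) : w ∈ D.pd.S := by
  rw [D.S_eq, E.fin]
  exact ⟨hw, sq_mono (E.geo.R01 E.R0_pos).le (E.geo.sqs.Ksub hw1)⟩

/-- The singular points outside the square are real or far from the real axis. -/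
theorem EvIn.far_im (E : EvIn D q tv κ vn t' r' r ρ0 ρ1 T u o) {w : ℂ} (hw : w ∈ D.pd.S)
    (hwK : w ∉ csqc (vn : ℂ) r') : w.im = 0 ∨ r < |w.im| := by
  obtain ⟨h1, h2⟩ := E.S_sig hw
  have h3 := h1
  rw [Cyc.tC_addT] at h3
  rcases E.geo.sig _ (hc_sub_hd _ _ (hc_right tv E.geo.κ_pos)) w h3 h2 with h4 | ⟨c, hc, h4⟩
  · exact absurd (sqc_sub_csqc _ _ h4) hwK
  · rcases E.geo.sqs.im c hc with h5 | h5
    · left
      obtain ⟨x, hx1, hx2, hx3⟩ := E.geo.one c hc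
      have hs := csqc_mono (c := c) E.geo.sqs.ρ_lt.le
      have e1 : w = x := hx3 w h1 (hs (sqc_sub_csqc _ _ h4))
      have e2 : (starRingEnd ℂ) w = x := by
        refine hx3 _ (SigF_conj _ h1) (hs (sqc_sub_csqc _ _ ?_))
        refine ⟨?_, ?_⟩
        · rw [Complex.conj_re]
          exact h4.1
        · have := h4.2
          rw [h5, sub_zero] at this ⊢
          rw [Complex.conj_im, abs_neg]
          exact this
      exact Complex.conj_eq_iff_im.1 (e2.trans e1.symm)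
    · right
      have h6 := h4.2
      have h7 : |c.im| ≤ |w.im| + |w.im - c.im| := by
        have := abs_sub_abs_le_abs_sub c.im w.im
        rw [abs_sub_comm c.im w.im] at this
        linarith
      have := E.geo.sqs.ρ_lt
      linarith

section A

variable {μ : ℝ} {a : ℂ}

theorem GeoA.far (E : EvIn D q tv κ vn t' r' r ρ0 ρ1 T u o) (GA : GeoA P q tv κ vn r' r μ a)
    (hDa : D.a = a) (hDb : D.b = (starRingEnd ℂ) a) {ρ : ℝ} (hρ : ρ ≤ r) :
    ∀ w ∈ D.pd.S, w ≠ D.a → w ≠ D.b → w ∉ csqc (vn : ℂ) ρ := by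
  intro w hw ha hb hK
  rcases GA.only w (E.S_sig hw).1 (csqc_mono hρ hK) with h | h
  · exact ha (by rw [h, hDa])
  · exact hb (by rw [h, hDb])

theorem GeoA.im_lt (GA : GeoA P q tv κ vn r' r μ a) : a.im < r' := by
  have h := GA.a_sq.2
  rw [Complex.ofReal_im, sub_zero] at h
  exact (abs_lt.1 h).2

theorem GeoA.hIm (E : EvIn D q tv κ vn t' r' r ρ0 ρ1 T u o) (GA : GeoA P q tv κ vn r' r μ a)
    (hDa : D.a = a) (hDb : D.b = (starRingEnd ℂ) a) :
    ∀ w ∈ D.pd.S, w ≠ D.a → w ≠ D.b → w.im = 0 ∨ r < |w.im| := fun w hw ha hb =>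
  E.far_im hw (GA.far E hDa hDb E.geo.sqs.r_lt.le w hw ha hb)

theorem GeoA.cplx (E : EvIn D q tv κ vn t' r' r ρ0 ρ1 T u o) (GA : GeoA P q tv κ vn r' r μ a)
    (hDa : D.a = a) (hDb : D.b = (starRingEnd ℂ) a) : D.pl.Cplx := by
  have hr := E.geo.sqs.r_lt
  have hlt := GA.im_lt
  have hap := GA.a_pos
  have ea : D.pl.a = a := hDa
  have eb : D.pl.b = (starRingEnd ℂ) a := hDb
  refine ⟨by rw [ea]; exact hap, by rw [eb, Complex.conj_im]; linarith, ?_, ?_⟩
  · intro w hw hne hpos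
    rw [ea] at hne ⊢
    have hwb : w ≠ D.b := fun h => by
      rw [h, hDb, Complex.conj_im] at hpos
      linarith
    rcases GA.hIm E hDa hDb w hw (by rw [hDa]; exact hne) hwb with h | h
    · rw [h] at hpos
      exact absurd hpos (lt_irrefl _)
    · rw [abs_of_pos hpos] at h
      linarith
  · intro w hw hne hneg
    rw [eb] at hne ⊢
    have hwa : w ≠ D.a := fun h => by
      rw [h, hDa] at hneg
      linarith
    rcases GA.hIm E hDa hDb w hw hwa (by rw [hDb]; exact hne) with h | h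
    · rw [h] at hneg
      exact absurd hneg (lt_irrefl _)
    · rw [abs_of_neg hneg] at h
      rw [Complex.conj_im]
      linarith

end A

/-! ## The bijection in the class `other` -/

theorem SameCmp.bijU {q : RTup n l} {s t : ℝ} (h : SameCmp q s t) (hst : s ≤ t) :
    Function.Bijective (upC (q := q) hst) := by
  constructor
  · intro U V hUV
    obtain ⟨y, hy⟩ := Cmp_nonempty U
    obtain ⟨y', hy'⟩ := Cmp_nonempty V
    have h1 := S4.comps_eq (Cmp_mem (upC hst U)) (sub_upC hst U hy)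
    have h2 := S4.comps_eq (Cmp_mem (upC hst V)) (sub_upC hst V hy')
    have h3 := h.2 y (Cmp_subset U hy) y' (Cmp_subset V hy') (by rw [← h1, ← h2, hUV])
    refine Subtype.ext ?_
    rw [S4.comps_eq (Cmp_mem U) hy, S4.comps_eq (Cmp_mem V) hy', h3]
  · intro O
    obtain ⟨x, hx⟩ := Cmp_nonempty O
    obtain ⟨y, hy, hyx⟩ := h.1 x (Cmp_subset O hx)
    obtain ⟨U, hU⟩ := exists_Cmp hy
    refine ⟨U, (upC_iff hst U O).1 ?_⟩
    rw [← S4.comps_eq (Cmp_mem O) hx] at hyx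
    exact S4.subset_of_mem (Wset_mono q hst) (Cmp_mem U) (Cmp_mem O) hU hyx

/-- The fibres, if they are finite. -/
theorem EvC.exists_fib {q : RTup n l} {s t : ℝ} (hst : s ≤ t)
    (h : ∀ O : Cmp (Wset q t), {U : Cmp (Wset q s) | upC hst U = O}.Finite) :
    ∃ fib : Cmp (Wset q t) → Finset (Cmp (Wset q s)), (∀ O U, U ∈ fib O ↔ upC hst U = O) ∧
      ∀ O U, U ∈ fib O ↔ (U : Set (Fin (n + 1) → ℝ)) ⊆ (O : Set (Fin (n + 1) → ℝ)) := by
  refine ⟨fun O => (h O).toFinset, fun O U => by simp, fun O U => ?_⟩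
  rw [upC_iff hst]
  simp

/-- Class `other`, complex pair. -/
theorem evIn_otherA' (E : EvIn D q tv κ vn t' r' r ρ0 ρ1 T u o) {μ : ℝ} {a : ℂ}
    (GA : GeoA P q tv κ vn r' r μ a) (hDa : D.a = a) (hDb : D.b = (starRingEnd ℂ) a)
    (hs : SameCmp q tv t') : Trans ⟨.other, D.pl.EE, D.pl.UU, D.pl.LL⟩ u o := by
  have hb := hs.bijU E.kt.le
  obtain ⟨fib, hf1, hf2⟩ := exists_fib (q := q) E.kt.le fun O => by
    refine Set.Subsingleton.finite ?_
    rintro U rfl V hV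
    exact hb.1 (by rw [hV])
  exact (E.toAbs E.geo.sqs.r_lt le_rfl (GA.far E hDa hDb le_rfl) fib hf2).other_cplx
    (GA.cplx E hDa hDb) (Equiv.ofBijective _ hb) hf1

/-! ## Class `one` -/

namespace EvC

/-- The label of a real cycle at a real critical value, before the event. -/
theorem label_iff {q' : RTup n l} {O : Set (Fin (n + 1) → ℝ)} (h : Pr q' O)
    {x : Fin (n + 1) → ℝ} (hx : xC x ∈ CritF (P.f (tC q')))
    (hs : SimpleCV P (tC q') (x (Fin.last n) : ℂ)) (hneg : NegH (P.f (tC q')) x) {ε : ℝ}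
    (hε : 0 < ε) (hX : ∀ z ∈ ball (x (Fin.last n) : ℂ) ε, z ≠ (x (Fin.last n) : ℂ) →
      z ∉ SigF (P.f (tC q'))) {σ : ℝ} (hσ : σ = 1 ∨ σ = -1) :
    (∃ r > 0, ∃ K, (ULS P n l).Par (fun z => (tC q', z))
        (ball (x (Fin.last n) : ℂ) r \ {(x (Fin.last n) : ℂ)}) K ∧
      ∀ z ∈ hDisc (x (Fin.last n) : ℂ) r σ, K z = UJ P q' O z) ↔ x ∉ O := by
  constructor
  · rintro ⟨r, hr, K, hK, hKJ⟩ hxO
    have hmin : 0 < min r ε := lt_min hr hε
    refine UJ_label2 (P := P) h hmin hs (fun z hz => hX z (ball_subset_ball (min_le_right _ _) hz))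
      hx rfl hxO hneg hσ ⟨K, hK.mono ?_, fun z hz => hKJ z ⟨hz.1.trans_le (min_le_left _ _), hz.2⟩⟩
    exact sdiff_subset_sdiff_left (ball_subset_ball (min_le_left _ _))
  · intro hxO
    obtain ⟨K, h1, h2⟩ := UJ_label_of_notMem (P := P) h hε hs hX hx rfl hxO hσ
    exact ⟨ε, hε, K, h1, h2⟩

theorem eqOn_up {x r : ℝ} {K J : ℂ → Fnl (n + 1)} :
    EqOn K J (ball (x : ℂ) r ∩ up 0) ↔ ∀ z ∈ hDisc (x : ℂ) r 1, K z = J z := by
  constructor
  · rintro h z ⟨h1, h2⟩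
    rw [Complex.sub_im, Complex.ofReal_im] at h2
    refine h ⟨by rwa [mem_ball, Complex.dist_eq], ?_⟩
    change 0 < z.im
    linarith
  · rintro h z ⟨h1, h2⟩
    have h3 : 0 < z.im := h2
    refine h z ⟨by rwa [mem_ball, Complex.dist_eq] at h1, ?_⟩
    rw [Complex.sub_im, Complex.ofReal_im]
    linarith

theorem eqOn_dn {x r : ℝ} {K J : ℂ → Fnl (n + 1)} :
    EqOn K J (ball (x : ℂ) r ∩ dn 0) ↔ ∀ z ∈ hDisc (x : ℂ) r (-1), K z = J z := by
  constructor
  · rintro h z ⟨h1, h2⟩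
    rw [Complex.sub_im, Complex.ofReal_im] at h2
    refine h ⟨by rwa [mem_ball, Complex.dist_eq], ?_⟩
    change z.im < 0
    linarith
  · rintro h z ⟨h1, h2⟩
    have h3 : z.im < 0 := h2
    refine h z ⟨by rwa [mem_ball, Complex.dist_eq] at h1, ?_⟩
    rw [Complex.sub_im, Complex.ofReal_im]
    linarith

theorem continuous_dg (vn : ℝ) : Continuous (dg vn) := by
  unfold dg
  fun_prop

theorem dg_comb (vn : ℝ) {s t : ℝ} (hst : s + t = 1) (x y : ℂ) :
    dg vn (s • x + t • y) = s * dg vn x + t * dg vn y := by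
  simp only [dg, Complex.add_im, Complex.add_re, Complex.smul_im, Complex.smul_re, smul_eq_mul]
  have : vn = (s + t) * vn := by rw [hst, one_mul]
  linear_combination this

theorem convex_sqc (c : ℂ) (R : ℝ) : Convex ℝ (sqc c R) := by
  rw [sqc_eq]
  exact convex_tr (convex_sq R) c

theorem convex_csq' (R : ℝ) : Convex ℝ (csq R) := by
  have : csq R = {z : ℂ | -R ≤ z.re} ∩ {z : ℂ | z.re ≤ R} ∩
      ({z : ℂ | -R ≤ z.im} ∩ {z : ℂ | z.im ≤ R}) := by
    ext z
    simp only [csq, mem_ofPred_eq, mem_inter_iff, abs_le]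
  rw [this]
  exact ((convex_halfSpace_re_ge _).inter (convex_halfSpace_re_le _)).inter
    ((convex_halfSpace_im_ge _).inter (convex_halfSpace_im_le _))

theorem convex_csqc (c : ℂ) (R : ℝ) : Convex ℝ (csqc c R) := by
  rw [csqc_eq]
  exact convex_tr (convex_csq' R) c

theorem isCompact_csqc' (c : ℂ) (R : ℝ) : IsCompact (csqc c R) := by
  refine Metric.isCompact_of_isClosed_isBounded (isClosed_csqc c R) ?_
  refine (Metric.isBounded_closedBall (x := c) (r := 2 * |R|)).subset fun z hz => ?_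
  rw [mem_closedBall, Complex.dist_eq]
  refine (Complex.norm_le_abs_re_add_abs_im _).trans ?_
  rw [Complex.sub_re, Complex.sub_im]
  have := hz.1
  have := hz.2
  have := le_abs_self R
  linarith

theorem rho_le {vn R0 ρ : ℝ} (hρ : 0 ≤ ρ) (h : csqc (vn : ℂ) ρ ⊆ csq R0) : ρ ≤ R0 := by
  have h1 : (⟨vn, ρ⟩ : ℂ) ∈ csqc (vn : ℂ) ρ := by
    refine ⟨?_, ?_⟩
    · simpa using hρ
    · simp [abs_of_nonneg hρ]
  have h2 := (h h1).2
  exact (le_abs_self _).trans h2

end EvC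

section Lab

variable {μ : ℝ} {a : ℂ} {U1 U2 : Set (Fin (n + 1) → ℝ)} {x1 x2 : Fin (n + 1) → ℝ}

/-- The half of the square above the diagonal. -/
def Zup (vn r : ℝ) : Set ℂ := {z | 0 < dg vn z} ∩ sqc (vn : ℂ) r

/-- The half of the square below the diagonal. -/
def Zdn (vn r : ℝ) : Set ℂ := {z | dg vn z < 0} ∩ sqc (vn : ℂ) r

theorem isOpen_Zup (vn r : ℝ) : IsOpen (Zup vn r) :=
  (isOpen_lt continuous_const (continuous_dg vn)).inter (isOpen_sqc _ _)

theorem isOpen_Zdn (vn r : ℝ) : IsOpen (Zdn vn r) :=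
  (isOpen_lt (continuous_dg vn) continuous_const).inter (isOpen_sqc _ _)

/-- Singular points in the square, at levels on the half circle. -/
theorem GeoA.reg_aux (E : EvIn D q tv κ vn t' r' r ρ0 ρ1 T u o)
    (GA : GeoA P q tv κ vn r' r μ a) {t : ℂ} (ht : t ∈ hc tv κ) {z : ℂ}
    (hz : z ∈ csqc (vn : ℂ) r) (hs : z ∈ SigF (P.f (addT (tC q) t))) :
    z ∈ sqc (vn : ℂ) r' ∧ (μ < dg vn z ∨ dg vn z < -μ) := by
  refine ⟨?_, GA.diag t ht z hs hz⟩
  rcases E.geo.sig t (hc_sub_hd _ _ ht) z hs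
    (sq_mono (E.geo.R01 E.R0_pos).le (E.geo.sqs.Ksub hz)) with h | ⟨c, hc, h⟩
  · exact h
  · exact absurd hz (Set.disjoint_left.1 (E.geo.sqs.disK c hc)
      (csqc_mono E.geo.sqs.ρ_lt.le (sqc_sub_csqc _ _ h)))

theorem GeoA.labUp (E : EvIn D q tv κ vn t' r' r ρ0 ρ1 T u o) (GA : GeoA P q tv κ vn r' r μ a)
    (hDa : D.a = a) (GM : GeoM P q tv κ vn r' r U1 U2 x1 x2) {ρ : ℝ} (h1 : r' < ρ)
    (h2 : ρ < r) : LabData (ULS P n l) evQ (evG q tv κ) D.pd vn ρ (Zup vn r)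
      ({z | μ ≤ dg vn z} ∩ csqc (vn : ℂ) r') (x1 (Fin.last n)) D.pl.a := by
  have hμ := GA.μ_pos
  have hr := E.geo.sqs.r_lt
  have hr' := E.geo.sqs.r'_pos
  have hint : {z | μ < dg vn z} ∩ sqc (vn : ℂ) r' ⊆
      interior ({z | μ ≤ dg vn z} ∩ csqc (vn : ℂ) r') := by
    refine interior_maximal ?_ ((isOpen_lt continuous_const (continuous_dg vn)).inter
      (isOpen_sqc _ _))
    rintro z ⟨h3, h4⟩
    have h3' : μ < dg vn z := h3
    exact ⟨show μ ≤ dg vn z from h3'.le, sqc_sub_csqc _ _ h4⟩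
  have ea : D.pl.a = a := hDa
  have hlt := GM.lt1
  have hlt2 := GM.lt2
  have hx1s : (x1 (Fin.last n) : ℂ) ∈ SigF (P.f (addT (tC q) ((tv - κ : ℝ) : ℂ))) := by
    rw [← Cyc.tC_addT]
    exact ⟨_, GM.mem1, rfl⟩
  have hx1d : μ < dg vn (x1 (Fin.last n) : ℂ) := by
    rcases (GA.reg_aux E (hc_left tv E.geo.κ_pos) (csqc_mono hr.le (sqc_sub_csqc _ _ GM.sq1))
      hx1s).2 with h | h
    · exact h
    · have : dg vn (x1 (Fin.last n) : ℂ) = vn - x1 (Fin.last n) := by simp [dg]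
      linarith
  have hZr : Zup vn r ⊆ csqc (vn : ℂ) r := fun z hz => sqc_sub_csqc _ _ hz.2
  refine ⟨?_, (continuous_evG q tv κ).continuousOn, isOpen_Zup vn r, ?_, ?_, ?_, ?_, ?_, ?_, ?_,
    ?_, Complex.ofReal_im _, ?_, ?_, ?_, (hr'.trans h1).le, ?_⟩
  · rw [evG_one, E.fin]
  · refine Convex.inter ?_ (convex_sqc _ _)
    intro x hx y hy s t hs ht hst
    rw [mem_ofPred_eq] at hx hy ⊢
    rw [dg_comb vn hst]
    rcases hs.eq_or_lt with rfl | hs
    · rw [zero_add] at hst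
      rw [hst]
      linarith
    · have := mul_pos hs hx
      have := mul_nonneg ht hy.le
      linarith
  · refine Convex.inter ?_ (convex_csqc _ _)
    intro x hx y hy s t hs ht hst
    rw [mem_ofPred_eq] at hx hy ⊢
    rw [dg_comb vn hst]
    have h3 := mul_le_mul_of_nonneg_left hx hs
    have h4 := mul_le_mul_of_nonneg_left hy ht
    have : μ = s * μ + t * μ := by rw [← add_mul, hst, one_mul]
    linarith
  · exact (isCompact_csqc' _ _).inter_left (isClosed_le continuous_const (continuous_dg vn))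
  · rintro z ⟨h3, h4⟩
    refine ⟨lt_of_lt_of_le hμ h3, ?_⟩
    exact ⟨h4.1.trans_lt hr, h4.2.trans_lt hr⟩
  · intro s hs z hz
    have hs' := thc_mem (tv := tv) E.geo.κ_pos hs
    refine (mem_ULS_X P).2 ⟨E.geo.sing _ hs', fun h3 => hz.2 (hint ?_)⟩
    obtain ⟨h4, h5⟩ := GA.reg_aux E hs' (hZr hz.1) h3
    refine ⟨?_, h4⟩
    rcases h5 with h5 | h5
    · exact h5
    · have h6 : 0 < dg vn z := hz.1.1
      linarith
  · exact hint ⟨hx1d, GM.sq1⟩
  · rw [ea]
    exact hint ⟨GA.a_dg, GA.a_sq⟩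
  · intro z hz hne
    rw [evG_zero]
    refine (mem_ULS_X P).2 ⟨E.sing_left, fun h3 => ?_⟩
    rcases GM.only z h3 (hZr hz) with h4 | h4
    · exact hne h4
    · have h5 : 0 < dg vn z := hz.1
      rw [h4] at h5
      have : dg vn (x2 (Fin.last n) : ℂ) = vn - x2 (Fin.last n) := by simp [dg]
      linarith
  · rw [D.R1_eq]
    exact fun z hz => sq_mono (E.geo.R01 E.R0_pos).le (E.geo.sqs.Ksub (hZr hz))
  · ext z
    constructor
    · rintro ⟨hz, hzS⟩
      rcases GA.only z (E.S_sig hzS).1 (hZr hz) with h3 | h3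
      · rw [ea]
        exact h3
      · exfalso
        have h5 : 0 < dg vn z := hz.1
        have := GA.b_dg
        rw [h3] at h5
        linarith
    · intro hz
      have hz' : z = a := by rw [← ea]; exact hz
      subst hz'
      have hK : z ∈ csqc (vn : ℂ) r := csqc_mono hr.le (sqc_sub_csqc _ _ GA.a_sq)
      exact ⟨⟨hμ.trans GA.a_dg, sqc_mono hr.le GA.a_sq⟩, E.mem_S GA.a_mem hK⟩
  · rintro z ⟨-, h4⟩
    exact csqc_mono h1.le h4
  · rw [D.R0_eq]
    exact rho_le (hr'.trans h1).le (E.geo.csub h2.le)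

theorem GeoA.labDn (E : EvIn D q tv κ vn t' r' r ρ0 ρ1 T u o) (GA : GeoA P q tv κ vn r' r μ a)
    (hDb : D.b = (starRingEnd ℂ) a) (GM : GeoM P q tv κ vn r' r U1 U2 x1 x2) {ρ : ℝ}
    (h1 : r' < ρ) (h2 : ρ < r) : LabData (ULS P n l) evQ (evG q tv κ) D.pd vn ρ (Zdn vn r)
      ({z | dg vn z ≤ -μ} ∩ csqc (vn : ℂ) r') (x2 (Fin.last n)) D.pl.b := by
  have hμ := GA.μ_pos
  have hr := E.geo.sqs.r_lt
  have hr' := E.geo.sqs.r'_pos
  have hint : {z | dg vn z < -μ} ∩ sqc (vn : ℂ) r' ⊆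
      interior ({z | dg vn z ≤ -μ} ∩ csqc (vn : ℂ) r') := by
    refine interior_maximal ?_ ((isOpen_lt (continuous_dg vn) continuous_const).inter
      (isOpen_sqc _ _))
    rintro z ⟨h3, h4⟩
    have h3' : dg vn z < -μ := h3
    exact ⟨show dg vn z ≤ -μ from h3'.le, sqc_sub_csqc _ _ h4⟩
  have eb : D.pl.b = (starRingEnd ℂ) a := hDb
  have hlt := GM.lt1
  have hlt2 := GM.lt2
  have hb_sq : (starRingEnd ℂ) a ∈ sqc (vn : ℂ) r' := by
    refine ⟨?_, ?_⟩
    · rw [Complex.conj_re]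
      exact GA.a_sq.1
    · have := GA.a_sq.2
      rw [Complex.ofReal_im, sub_zero] at this ⊢
      rw [Complex.conj_im, abs_neg]
      exact this
  have hx2s : (x2 (Fin.last n) : ℂ) ∈ SigF (P.f (addT (tC q) ((tv - κ : ℝ) : ℂ))) := by
    rw [← Cyc.tC_addT]
    exact ⟨_, GM.mem2, rfl⟩
  have hx2d : dg vn (x2 (Fin.last n) : ℂ) < -μ := by
    rcases (GA.reg_aux E (hc_left tv E.geo.κ_pos) (csqc_mono hr.le (sqc_sub_csqc _ _ GM.sq2))
      hx2s).2 with h | h
    · have : dg vn (x2 (Fin.last n) : ℂ) = vn - x2 (Fin.last n) := by simp [dg]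
      linarith
    · exact h
  have hZr : Zdn vn r ⊆ csqc (vn : ℂ) r := fun z hz => sqc_sub_csqc _ _ hz.2
  refine ⟨?_, (continuous_evG q tv κ).continuousOn, isOpen_Zdn vn r, ?_, ?_, ?_, ?_, ?_, ?_, ?_,
    ?_, Complex.ofReal_im _, ?_, ?_, ?_, (hr'.trans h1).le, ?_⟩
  · rw [evG_one, E.fin]
  · refine Convex.inter ?_ (convex_sqc _ _)
    intro x hx y hy s t hs ht hst
    rw [mem_ofPred_eq] at hx hy ⊢
    rw [dg_comb vn hst]
    rcases hs.eq_or_lt with rfl | hs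
    · rw [zero_add] at hst
      rw [hst]
      linarith
    · have := mul_neg_of_pos_of_neg hs hx
      have := mul_nonpos_of_nonneg_of_nonpos ht hy.le
      linarith
  · refine Convex.inter ?_ (convex_csqc _ _)
    intro x hx y hy s t hs ht hst
    rw [mem_ofPred_eq] at hx hy ⊢
    rw [dg_comb vn hst]
    have h3 := mul_le_mul_of_nonneg_left hx hs
    have h4 := mul_le_mul_of_nonneg_left hy ht
    have : μ = s * μ + t * μ := by rw [← add_mul, hst, one_mul]
    linarith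
  · exact (isCompact_csqc' _ _).inter_left (isClosed_le (continuous_dg vn) continuous_const)
  · rintro z ⟨h3, h4⟩
    have h3' : dg vn z ≤ -μ := h3
    refine ⟨?_, h4.1.trans_lt hr, h4.2.trans_lt hr⟩
    show dg vn z < 0
    linarith
  · intro s hs z hz
    have hs' := thc_mem (tv := tv) E.geo.κ_pos hs
    refine (mem_ULS_X P).2 ⟨E.geo.sing _ hs', fun h3 => hz.2 (hint ?_)⟩
    obtain ⟨h4, h5⟩ := GA.reg_aux E hs' (hZr hz.1) h3
    refine ⟨?_, h4⟩
    rcases h5 with h5 | h5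
    · have h6 : dg vn z < 0 := hz.1.1
      linarith
    · exact h5
  · exact hint ⟨hx2d, GM.sq2⟩
  · rw [eb]
    exact hint ⟨GA.b_dg, hb_sq⟩
  · intro z hz hne
    rw [evG_zero]
    refine (mem_ULS_X P).2 ⟨E.sing_left, fun h3 => ?_⟩
    rcases GM.only z h3 (hZr hz) with h4 | h4
    · have h5 : dg vn z < 0 := hz.1
      rw [h4] at h5
      have : dg vn (x1 (Fin.last n) : ℂ) = vn - x1 (Fin.last n) := by simp [dg]
      linarith
    · exact hne h4
  · rw [D.R1_eq]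
    exact fun z hz => sq_mono (E.geo.R01 E.R0_pos).le (E.geo.sqs.Ksub (hZr hz))
  · ext z
    constructor
    · rintro ⟨hz, hzS⟩
      rcases GA.only z (E.S_sig hzS).1 (hZr hz) with h3 | h3
      · exfalso
        have h5 : dg vn z < 0 := hz.1
        have := GA.a_dg
        rw [h3] at h5
        linarith
      · rw [eb]
        exact h3
    · intro hz
      have hz' : z = (starRingEnd ℂ) a := by rw [← eb]; exact hz
      rw [hz']
      have hK : (starRingEnd ℂ) a ∈ csqc (vn : ℂ) r :=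
        csqc_mono hr.le (sqc_sub_csqc _ _ hb_sq)
      have h6 := GA.b_dg
      refine ⟨⟨?_, sqc_mono hr.le hb_sq⟩, E.mem_S GA.b_mem hK⟩
      show dg vn ((starRingEnd ℂ) a) < 0
      linarith
  · rintro z ⟨-, h4⟩
    exact csqc_mono h1.le h4
  · rw [D.R0_eq]
    exact rho_le (hr'.trans h1).le (E.geo.csub h2.le)

/-- Class `one`. -/
theorem evIn_one' (E : EvIn D q tv κ vn t' r' r ρ0 ρ1 T u o) (GA : GeoA P q tv κ vn r' r μ a)
    (hDa : D.a = a) (hDb : D.b = (starRingEnd ℂ) a)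
    (GM : GeoM P q tv κ vn r' r U1 U2 x1 x2) (hM : MorO q tv t' U1 U2) :
    Trans ⟨.one, D.pl.EE, D.pl.UU, D.pl.LL⟩ u o := by
  have hμ := GA.μ_pos
  have hr := E.geo.sqs.r_lt
  have hr' := E.geo.sqs.r'_pos
  obtain ⟨ρ, h1, h2⟩ := exists_between hr
  have hle := E.kt.le
  set im : Cmp (Wset q tv) := ⟨U1, hM.mem1⟩ with him
  set ip : Cmp (Wset q tv) := ⟨U2, hM.mem2⟩ with hip
  have hinj : ∀ U V : Cmp (Wset q tv), upC hle U = upC hle V →
      U = V ∨ ((U = im ∨ U = ip) ∧ (V = im ∨ V = ip)) := by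
    intro U V hUV
    rcases hM.inj _ (upC hle V).2 U U.2 V V.2 (by rw [← hUV]; exact sub_upC hle U)
      (sub_upC hle V) with h | ⟨h, h'⟩
    · exact Or.inl (Subtype.ext h)
    · exact Or.inr ⟨h.imp (fun h => Subtype.ext h) (fun h => Subtype.ext h),
        h'.imp (fun h => Subtype.ext h) (fun h => Subtype.ext h)⟩
  obtain ⟨fib, hf1, hf2⟩ := exists_fib (q := q) hle fun O => by
    rcases {U : Cmp (Wset q tv) | upC hle U = O}.eq_empty_or_nonempty with h | ⟨U0, hU0⟩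
    · rw [h]
      exact Set.finite_empty
    · refine (Set.toFinite {U0, im, ip}).subset fun V hV => ?_
      have hV' : upC hle V = O := hV
      have hU0' : upC hle U0 = O := hU0
      rcases hinj V U0 (hV'.trans hU0'.symm) with h | ⟨h | h, -⟩
      · exact Or.inl h
      · exact Or.inr (Or.inl h)
      · exact Or.inr (Or.inr h)
  have hjoin : upC hle im = upC hle ip := by
    obtain ⟨O, hO, hO1, hO2⟩ := hM.join
    rw [(upC_iff hle im ⟨O, hO⟩).1 hO1, (upC_iff hle ip ⟨O, hO⟩).1 hO2]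
  have LU := GA.labUp E hDa GM h1 h2
  have LD := GA.labDn E hDb GM h1 h2
  have hT : ∀ c ∈ T, c.im = 0 ∨ ρ + ρ1 ≤ |c.im| := fun c hc =>
    (E.geo.sqs.im c hc).imp id fun h => by linarith
  have hρ0 : ρ0 ≤ ρ := E.geo.sqs.ρ_le.trans h1.le
  have ea : D.pl.a = a := hDa
  have eb : D.pl.b = (starRingEnd ℂ) a := hDb
  have hare : |a.re - vn| < r' := by
    have := GA.a_sq.1
    rwa [Complex.ofReal_re] at this
  have hare' := abs_lt.1 hare
  have hmem : ∀ (U : Cmp (Wset q tv)) (V : Set (Fin (n + 1) → ℝ)) (hV : V ∈ Cmp (Wset q tv))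
      (x : Fin (n + 1) → ℝ), x ∈ V → (x ∉ (U : Set (Fin (n + 1) → ℝ)) ↔
        U ≠ (⟨V, hV⟩ : Cmp (Wset q tv))) := by
    intro U V hV x hx
    rw [not_iff_not]
    constructor
    · intro h
      exact Cmp_eq (x := x) h hx
    · rintro rfl
      exact hx
  refine (E.toAbs h1 h2.le (GA.far E hDa hDb h2.le) fib hf2).one (GA.cplx E hDa hDb) hT hρ0
    (fun w hw hwa hwb => (GA.hIm E hDa hDb w hw hwa hwb).imp id fun h => h2.trans h) im ip
    (fun i => ?_) (fun i => ?_) (upC hle) (fun O => ?_) hf1 (fun i j => ⟨hinj i j, ?_⟩)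
  · rw [(E.toAbs h1 h2.le (GA.far E hDa hDb h2.le) fib hf2).label_up LU hT hρ0 ?_ ?_ i,
      ← hmem i U1 hM.mem1 x1 GM.N1]
    · obtain ⟨ε, hε, hεZ⟩ := Metric.isOpen_iff.1 LU.open_Z _ (LU.sub (interior_subset LU.w_mem))
      rw [← label_iff (P := P) (E.pr_before i) GM.mem1 GM.simple1 GM.neg1 hε (fun z hz hne => ?_)
        (σ := 1) (Or.inl rfl)]
      · rw [evG_zero]
        constructor
        · rintro ⟨s, hs, K, hK, hKJ⟩
          exact ⟨s, hs, K, hK, eqOn_up.1 hKJ⟩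
        · rintro ⟨s, hs, K, hK, hKJ⟩
          exact ⟨s, hs, K, hK, eqOn_up.2 hKJ⟩
      · have := LU.reg_w z (hεZ hz) hne
        rw [evG_zero] at this
        exact ((mem_ULS_X P).1 this).2
    · rw [ea]
      refine ⟨?_, ?_, ?_⟩
      · show 0 < ρ - (a.re - vn)
        linarith
      · show |a.re - (vn : ℂ).re| < r
        rw [Complex.ofReal_re]
        linarith
      · show |ρ - (vn : ℂ).im| < r
        rw [Complex.ofReal_im, sub_zero, abs_of_pos (hr'.trans h1)]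
        exact h2
    · intro c hc
      exact ((E.geo.sqs.disK c hc).mono (csqc_mono E.geo.sqs.ρ_lt.le)
        (fun z hz => sqc_sub_csqc _ _ hz.2)).symm
  · rw [(E.toAbs h1 h2.le (GA.far E hDa hDb h2.le) fib hf2).label_dn LD hT hρ0 ?_ ?_ i,
      ← hmem i U2 hM.mem2 x2 GM.N2]
    · obtain ⟨ε, hε, hεZ⟩ := Metric.isOpen_iff.1 LD.open_Z _ (LD.sub (interior_subset LD.w_mem))
      rw [← label_iff (P := P) (E.pr_before i) GM.mem2 GM.simple2 GM.neg2 hε (fun z hz hne => ?_)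
        (σ := -1) (Or.inr rfl)]
      · rw [evG_zero]
        constructor
        · rintro ⟨s, hs, K, hK, hKJ⟩
          exact ⟨s, hs, K, hK, eqOn_dn.1 hKJ⟩
        · rintro ⟨s, hs, K, hK, hKJ⟩
          exact ⟨s, hs, K, hK, eqOn_dn.2 hKJ⟩
      · have := LD.reg_w z (hεZ hz) hne
        rw [evG_zero] at this
        exact ((mem_ULS_X P).1 this).2
    · rw [eb, Complex.conj_re]
      refine ⟨?_, ?_, ?_⟩
      · show -ρ - (a.re - vn) < 0
        linarith
      · show |a.re - (vn : ℂ).re| < r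
        rw [Complex.ofReal_re]
        linarith
      · show |-ρ - (vn : ℂ).im| < r
        rw [Complex.ofReal_im, sub_zero, abs_neg, abs_of_pos (hr'.trans h1)]
        exact h2
    · intro c hc
      exact ((E.geo.sqs.disK c hc).mono (csqc_mono E.geo.sqs.ρ_lt.le)
        (fun z hz => sqc_sub_csqc _ _ hz.2)).symm
  · obtain ⟨U, hU, hUO⟩ := hM.ex O O.2
    exact ⟨⟨U, hU⟩, (upC_iff hle ⟨U, hU⟩ O).1 hUO⟩
  · rintro (rfl | ⟨rfl | rfl, rfl | rfl⟩)
    · rfl
    · rfl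
    · exact hjoin
    · exact hjoin.symm
    · rfl

end Lab

end Pool.Agent.QC
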