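import Pool.Agent.QC.Asm.GeoDefs

/-!
# MP_7c50a9_lc: assembly part 3: the event theorem, definitions

`q` is the tuple in the frame of the event.
-/

namespace Pool.Agent.QC

open MvPolynomial Filter Topology Set

variable {n l : ℕ} {P : Prm} {q₀ : Tup n l} {z₀ : ℂ} {R0 R1 : ℝ} {m : ℕ} {γ : ℕ → ℝ → Tup n l}

/-- `x` is the base vector of the section `J` at the end of the chain. -/
def EndVec (D : EvD P q₀ z₀ R0 R1 m γ) (x : Fnl (n + 1)) (J : ℂ → Fnl (n + 1)) : Prop :=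
  x ∈ baseV P q₀ z₀ R0 R1 ∧ ∀ z ∈ sann R0 R1, D.U x m (z, 1) = J z

/-- `x` is the base vector of the section `J` at the level `tv - κ`, transported along the upper
half circle to the end of the chain. -/
def BefVec (D : EvD P q₀ z₀ R0 R1 m γ) (q : RTup n l) (tv κ : ℝ) (x : Fnl (n + 1))
    (J : ℂ → Fnl (n + 1)) : Prop :=
  x ∈ baseV P q₀ z₀ R0 R1 ∧ ∃ W : ℂ × ℝ → Fnl (n + 1),
    (ULS P n l).Par (fun p : ℂ × ℝ => (addT (tC q) (thc tv κ p.2), p.1))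
      (sann R0 R1 ×ˢ Icc 0 1) W ∧
    (∀ z ∈ sann R0 R1, W (z, 0) = J z) ∧ ∀ z ∈ sann R0 R1, D.U x m (z, 1) = W (z, 1)

/-- The hypotheses on an event which do not depend on its class. -/
structure EvIn (D : EvD P q₀ z₀ R0 R1 m γ) (q : RTup n l) (tv κ vn t' r' r ρ0 ρ1 : ℝ)
    (T : Set ℂ) (u : Cmp (Wset q tv) → Fnl (n + 1)) (o : Cmp (Wset q t') → Fnl (n + 1)) :
    Prop where
  geo : Geo P q tv κ vn R0 R1 r' r ρ0 ρ1 T
  R0_pos : 0 < R0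
  lt : tv + κ < t'
  le : t' ≤ 0
  comp : CompLev q
  fin : γ m 1 = tC (addT q (tv + κ))
  bef : ∀ O : Cmp (Wset q tv), BefVec D q tv κ (u O) (UJ P (addT q (tv - κ)) O)
  aft : ∀ O : Cmp (Wset q t'), EndVec D (o O) (UJ P (addT q (tv + κ)) O)

/-- A new component `O0`. -/
structure MorZ (q : RTup n l) (tv t' : ℝ) (O0 : Set (Fin (n + 1) → ℝ)) : Prop where
  mem : O0 ∈ Cmp (Wset q t')
  dis : Disjoint O0 (Wset q tv)
  ex : ∀ O ∈ Cmp (Wset q t'), O ≠ O0 → ∃ U ∈ Cmp (Wset q tv), U ⊆ O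
  inj : ∀ O ∈ Cmp (Wset q t'), ∀ U ∈ Cmp (Wset q tv), ∀ U' ∈ Cmp (Wset q tv), U ⊆ O → U' ⊆ O →
    U = U'

/-- The components `U1`, `U2` are joined. -/
structure MorO (q : RTup n l) (tv t' : ℝ) (U1 U2 : Set (Fin (n + 1) → ℝ)) : Prop where
  mem1 : U1 ∈ Cmp (Wset q tv)
  mem2 : U2 ∈ Cmp (Wset q tv)
  ex : ∀ O ∈ Cmp (Wset q t'), ∃ U ∈ Cmp (Wset q tv), U ⊆ O
  join : ∃ O ∈ Cmp (Wset q t'), U1 ⊆ O ∧ U2 ⊆ O
  inj : ∀ O ∈ Cmp (Wset q t'), ∀ U ∈ Cmp (Wset q tv), ∀ U' ∈ Cmp (Wset q tv), U ⊆ O → U' ⊆ O →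
    U = U' ∨ ((U = U1 ∨ U = U2) ∧ (U' = U1 ∨ U' = U2))

end Pool.Agent.QC
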