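import Pool.Agent.QC.Asm.Geo
import Pool.Agent.QC.Cyc.JReal
import Pool.Agent.QC.Cyc.Eta
import Pool.Agent.QC.Ev.Basic

/-!
# MP_7c50a9_lc: real cycles in `ULS`: labels, nonvanishing, disjoint unions, components
-/

set_option autoImplicit false

namespace Pool.Agent.QC

open MvPolynomial Filter Topology Set Metric

variable {n l : ℕ} {P : Prm}

section Label

variable {q : RTup n l} {O : Set (Fin (n + 1) → ℝ)} {ζ r : ℝ}

/-- (L1) The real cycle of `O` has trivial holonomy at a simple real critical value if the critical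
point is not in `O`. -/
theorem UJ_label1 (h : Pr q O) (hr : 0 < r) (hζ : SimpleCV P (tC q) (ζ : ℂ))
    (hX : ∀ z ∈ ball (ζ : ℂ) r, z ≠ (ζ : ℂ) → z ∉ SigF (P.f (tC q)))
    (hno : ∀ x ∈ O, 0 ≤ fR 0 0 q x → x (Fin.last n) = ζ → xC x ∉ CritF (P.f (tC q))) {σ : ℝ}
    (hσ : σ = 1 ∨ σ = -1) :
    ∃ K, (ULS P n l).Par (fun z => (tC q, z)) (ball (ζ : ℂ) r \ {(ζ : ℂ)}) K ∧
      ∀ z ∈ hDisc ζ r σ, K z = UJ P q O z := by
  obtain ⟨hc, hcl⟩ := Pr.closure (P := P) h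
  obtain ⟨K, h1, h2⟩ := JU_label1 (P := P) (T := cyc P q O) (Pr.piece h) hc hr hζ hX
    (fun x hx hxζ => hno x (hcl hx).1 (hcl hx).2 hxζ) hσ
  refine ⟨fun z => shE n z (K z), ULS_par'.mpr h1, fun z hz => ?_⟩
  show shE n z (K z) = UJ P q O z
  rw [h2 z hz]
  rfl

/-- (L1) from a unique critical point `x1` over `ζ` which is not in `O`. -/
theorem UJ_label_of_notMem (h : Pr q O) {x1 : Fin (n + 1) → ℝ} (hr : 0 < r)
    (hζ : SimpleCV P (tC q) (ζ : ℂ))
    (hX : ∀ z ∈ ball (ζ : ℂ) r, z ≠ (ζ : ℂ) → z ∉ SigF (P.f (tC q)))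
    (hx1 : xC x1 ∈ CritF (P.f (tC q))) (hx1ζ : x1 (Fin.last n) = ζ) (hO : x1 ∉ O) {σ : ℝ}
    (hσ : σ = 1 ∨ σ = -1) :
    ∃ K, (ULS P n l).Par (fun z => (tC q, z)) (ball (ζ : ℂ) r \ {(ζ : ℂ)}) K ∧
      ∀ z ∈ hDisc ζ r σ, K z = UJ P q O z := by
  refine UJ_label1 h hr hζ hX (fun x hx _ hxζ hxc => ?_) hσ
  obtain ⟨-, w, -, hwz, -, hu⟩ := hζ
  have h1 : xC x = w := hu _ hxc (by
    show ((x (Fin.last n) : ℝ) : ℂ) = _
    rw [hxζ])
  have h2 : xC x1 = w := hu _ hx1 (by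
    show ((x1 (Fin.last n) : ℝ) : ℂ) = _
    rw [hx1ζ])
  have h3 : x = x1 := Cyc.xC_injective (h1.trans h2.symm)
  exact hO (h3 ▸ hx)

/-- (L2) The holonomy is not trivial if the critical point is in `O` and a maximum of the slice. -/
theorem UJ_label2 (h : Pr q O) (hr : 0 < r) (hζ : SimpleCV P (tC q) (ζ : ℂ))
    (hX : ∀ z ∈ ball (ζ : ℂ) r, z ≠ (ζ : ℂ) → z ∉ SigF (P.f (tC q)))
    {w : Fin (n + 1) → ℝ} (hw : xC w ∈ CritF (P.f (tC q))) (hwζ : w (Fin.last n) = ζ)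
    (hwO : w ∈ O) (hneg : NegH (P.f (tC q)) w) {σ : ℝ} (hσ : σ = 1 ∨ σ = -1) :
    ¬ ∃ K, (ULS P n l).Par (fun z => (tC q, z)) (ball (ζ : ℂ) r \ {(ζ : ℂ)}) K ∧
      ∀ z ∈ hDisc ζ r σ, K z = UJ P q O z := by
  rintro ⟨K, h1, h2⟩
  obtain ⟨hc, hcl⟩ := Pr.closure (P := P) h
  refine JU_label2 (P := P) (T := cyc P q O) (Pr.piece h) hc hr hζ hX hw hwζ
    ⟨O, h.isOpen.mem_nhds hwO, fun x hx hpos => ⟨hx, hpos⟩⟩ hneg hσ
    ⟨fun z => (shE n z).symm (K z), (ULS_par).mp h1, fun z hz => ?_⟩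
  show (shE n z).symm (K z) = _
  rw [h2 z hz, LinearEquiv.symm_apply_eq]
  rfl

end Label

/-- (L3) The real cycle is not zero if `O` contains a critical point. -/
theorem UJ_ne {q : RTup n l} {O : Set (Fin (n + 1) → ℝ)} (h : Pr q O)
    (hs : SingF (P.f (tC q)) = ∅) {R0 R1 : ℝ} (h0 : 0 < R0) (h1 : R0 < R1)
    (hR : ∀ x ∈ O, 0 ≤ fR 0 0 q x → |x (Fin.last n)| < R0) {w : Fin (n + 1) → ℝ} (hwO : w ∈ O)
    (hw : xC w ∈ CritF (P.f (tC q))) : ¬ ∀ z ∈ sann R0 R1, UJ P q O z = 0 := by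
  intro hz
  obtain ⟨hc, hcl⟩ := Pr.closure (P := P) h
  -- `cyc` is not empty
  have hne : (cyc P q O).Nonempty := by
    have hcr := (Cyc.critF_iff q w).mp hw
    have hd : fderiv ℝ (fR P.en P.eta q) w (Pi.single (Fin.last n) 1) ≠ 0 := by
      intro h2
      have h3 : xC w ∈ SingF (P.f (tC q)) := by
        refine ⟨hw.1, fun i => ?_⟩
        refine Fin.lastCases ?_ (fun i => hw.2 i) i
        rw [Cyc.eval_pderiv_real, h2, Complex.ofReal_zero]
      rw [hs] at h3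
      exact h3
    -- along the last coordinate
    have hdiff : HasDerivAt (fun t : ℝ => fR P.en P.eta q (w + t • Pi.single (Fin.last n) 1))
        (fderiv ℝ (fR P.en P.eta q) w (Pi.single (Fin.last n) 1)) 0 := by
      have h2 : HasFDerivAt (fR P.en P.eta q) (fderiv ℝ (fR P.en P.eta q) w)
          (w + (0 : ℝ) • Pi.single (Fin.last n) 1) := by
        rw [zero_smul, add_zero]
        exact (((Cyc.contDiff_fR q (k := 1)).differentiable one_ne_zero) w).hasFDerivAt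
      have h3 : HasDerivAt (fun t : ℝ => w + t • (Pi.single (Fin.last n) 1 : Fin (n + 1) → ℝ))
          (Pi.single (Fin.last n) 1) 0 := by
        have h4 := ((hasDerivAt_id (0 : ℝ)).smul_const
          (Pi.single (Fin.last n) 1 : Fin (n + 1) → ℝ)).const_add w
        rw [one_smul] at h4
        exact h4
      exact h2.comp_hasDerivAt 0 h3
    have hOn : ∀ᶠ t : ℝ in 𝓝 0, w + t • (Pi.single (Fin.last n) 1 : Fin (n + 1) → ℝ) ∈ O := by
      have h2 : Continuous fun t : ℝ => w + t • (Pi.single (Fin.last n) 1 : Fin (n + 1) → ℝ) := by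
        fun_prop
      refine h2.continuousAt.eventually (h.isOpen.mem_nhds ?_)
      show w + (0 : ℝ) • (Pi.single (Fin.last n) 1 : Fin (n + 1) → ℝ) ∈ O
      rw [zero_smul, add_zero]; exact hwO
    have h0' : fR P.en P.eta q (w + (0 : ℝ) • Pi.single (Fin.last n) 1) = 0 := by
      rw [zero_smul, add_zero]; exact hcr.1
    rcases lt_or_gt_of_ne hd with hneg | hpos
    · have h2 := hdiff.tendsto_slope
      have h3 : ∀ᶠ t : ℝ in 𝓝[<] 0,
          slope (fun t : ℝ => fR P.en P.eta q (w + t • Pi.single (Fin.last n) 1)) 0 t < 0 :=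
        (h2.mono_left (nhdsWithin_mono _ fun t (ht : t < 0) => ht.ne)).eventually
          (gt_mem_nhds hneg)
      have h4 : ∀ᶠ t : ℝ in 𝓝[<] 0, t < 0 := self_mem_nhdsWithin
      obtain ⟨t, ht1, ht2, ht3⟩ := (h3.and (h4.and (hOn.filter_mono nhdsWithin_le_nhds))).exists
      refine ⟨_, ht3, ?_⟩
      rw [slope_def_field, h0', sub_zero, sub_zero] at ht1
      by_contra hle
      push Not at hle
      have := div_nonneg_of_nonpos hle ht2.le
      linarith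
    · have h2 := hdiff.tendsto_slope
      have h3 : ∀ᶠ t : ℝ in 𝓝[>] 0,
          0 < slope (fun t : ℝ => fR P.en P.eta q (w + t • Pi.single (Fin.last n) 1)) 0 t :=
        (h2.mono_left (nhdsWithin_mono _ fun t (ht : 0 < t) => ht.ne')).eventually
          (lt_mem_nhds hpos)
      have h4 : ∀ᶠ t : ℝ in 𝓝[>] 0, 0 < t := self_mem_nhdsWithin
      obtain ⟨t, ht1, ht2, ht3⟩ := (h3.and (h4.and (hOn.filter_mono nhdsWithin_le_nhds))).exists
      refine ⟨_, ht3, ?_⟩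
      rw [slope_def_field, h0', sub_zero, sub_zero] at ht1
      exact (div_pos_iff_of_pos_right ht2).mp ht1
  -- the point
  set z : ℂ := ((R0 + R1) / 2 : ℝ) * Complex.I with hzdef
  have hre : z.re = 0 := by simp [hzdef]
  have him : z.im = (R0 + R1) / 2 := by simp [hzdef]
  have hzm : z ∈ sann R0 R1 := by
    refine ⟨⟨by rw [hre, abs_zero]; linarith, by rw [him, abs_of_pos (by linarith)]; linarith⟩,
      fun h2 => ?_⟩
    have h3 := h2.2
    rw [him, abs_of_pos (by linarith)] at h3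
    linarith
  have h2 : JC P q O z = 0 := by
    have h3 := hz z hzm
    have h4 : shE n z (JC P q O z) = 0 := h3
    exact (LinearEquiv.map_eq_zero_iff _).mp h4
  have h3 : yU P.a (fR P.en P.eta q) (cyc P q O) = 0 := by
    rw [← ymap_JU (P := P) (T := cyc P q O) (Pr.piece h) hc
      (fun x hx => (hR x hx.1 (hx.2.le.trans (Cyc.fR_le P q x))).le) (z := z)
      (Or.inl (by rw [him]; linarith))]
    have h4 : JU P.a (fR P.en P.eta q) (cyc P q O) z = 0 := h2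
    rw [h4]
    rfl
  exact yU_one_ne (P := P) (T := cyc P q O) (Pr.piece h) hc hne (by rw [h3]; rfl)

/-- (L4) Disjoint unions. -/
theorem UJ_union {q : RTup n l} {O : Set (Fin (n + 1) → ℝ)}
    (Us : Finset (Set (Fin (n + 1) → ℝ))) (hU : ∀ U ∈ Us, Pr q U)
    (hd : ∀ U ∈ Us, ∀ V ∈ Us, U ≠ V → Disjoint U V)
    (hO : ∀ x, (x ∈ O ∧ 0 < fR P.en P.eta q x) ↔ ∃ U ∈ Us, x ∈ U ∧ 0 < fR P.en P.eta q x)
    {R : ℝ} (hR : ∀ U ∈ Us, ∀ x ∈ U, 0 ≤ fR 0 0 q x → |x (Fin.last n)| ≤ R) {z : ℂ}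
    (hz : z.im ≠ 0 ∨ R < |z.re|) : UJ P q O z = ∑ U ∈ Us, UJ P q U z := by
  have h1 : cyc P q O = ⋃ U ∈ Us, cyc P q U := by
    ext x
    simp only [mem_iUnion, exists_prop]
    exact hO x
  have h2 := JU_union (P := P) (q := q) Us (fun U => cyc P q U) (fun U hU' => Pr.piece (hU U hU'))
    (fun U hU' => (Pr.closure (P := P) (hU U hU')).1)
    (fun U hU' V hV hne => (hd U hU' V hV hne).mono (fun x hx => hx.1) (fun x hx => hx.1))
    (fun U hU' x hx => hR U hU' x hx.1 (hx.2.le.trans (Cyc.fR_le P q x))) hz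
  unfold UJ JC
  rw [h1, h2, map_sum]

/-- (L5) The critical values of a real polynomial are closed under conjugation. -/
theorem SigF_conj (q : RTup n l) {z : ℂ} (hz : z ∈ SigF (P.f (tC q))) :
    (starRingEnd ℂ) z ∈ SigF (P.f (tC q)) := by
  have key : ∀ (p : MvPolynomial (Fin (n + 1)) ℝ) (x : Fin (n + 1) → ℂ),
      eval (fun i => (starRingEnd ℂ) (x i)) (map Complex.ofRealHom p) =
        (starRingEnd ℂ) (eval x (map Complex.ofRealHom p)) := by
    intro p x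
    rw [eval_map, eval_map, eval₂_comp_left (starRingEnd ℂ)]
    congr 1
    ext r
    simp
  obtain ⟨x, ⟨hx1, hx2⟩, rfl⟩ := hz
  rw [← Cyc.map_fP] at hx1 hx2 ⊢
  refine ⟨fun i => (starRingEnd ℂ) (x i), ⟨?_, fun i => ?_⟩, rfl⟩
  · rw [key, hx1, map_zero]
  · have h1 := hx2 i
    rw [pderiv_map] at h1 ⊢
    rw [key, h1, map_zero]

/-- (L6) Components of a level are proper at the levels below. -/
theorem Pr_comp {q : RTup n l} (hq : CompLev q) {t t' : ℝ} (ht : t < t') (ht' : t' ≤ 0)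
    {O : Set (Fin (n + 1) → ℝ)} (hO : O ∈ Cmp (Wset q t')) : Pr (addT q t) O := by
  rw [Ev.Cmp_eq_comps] at hO
  have hOo : IsOpen O := S4.comps_isOpen (Ev.isOpen_Wset q t') hO
  have hin : ∀ x ∈ O, inOm q x := fun x hx => (Ev.mem_Wset.mp (S4.comps_subset hO hx)).1
  have hin' : ∀ x, inOm (addT q t) x ↔ inOm q x := by
    intro x
    unfold inOm
    simp only [Cyc.qvR_addT_succ]
  refine ⟨hOo, fun x hx => (hin' x).mpr (hin x hx), ?_⟩
  have hC := hq t (ht.le.trans ht')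
  set C : Set (Fin (n + 1) → ℝ) := {x | inOm q x ∧ 0 ≤ fR 0 0 (addT q t) x} with hCdef
  have hCW : C ⊆ Wset q t' := by
    rintro x ⟨hx1, hx2⟩
    rw [Ev.mem_Wset]
    refine ⟨hx1, ?_⟩
    have h1 : 0 < ∏ i : Fin l, qvR (q i.succ) x := Finset.prod_pos fun i _ => hx1 i
    rw [Cyc.fR_addT] at hx2
    have h2 : fR 0 0 (addT q t') x = fR 0 0 (addT q t) x +
        (t' - t) * ∏ i : Fin l, qvR (q i.succ) x := by
      rw [Cyc.fR_addT, Cyc.fR_addT]; ring
    have h3 : 0 < fR 0 0 (addT q t') x := by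
      rw [h2, Cyc.fR_addT]
      have := mul_pos (sub_pos.mpr ht) h1
      linarith
    exact h3
  have h1 : {x ∈ O | 0 ≤ fR 0 0 (addT q t) x} = C ∩ O := by
    ext x
    exact ⟨fun hx => ⟨⟨hin x hx.1, hx.2⟩, hx.1⟩, fun hx => ⟨hx.2, hx.1.2⟩⟩
  rw [h1]
  -- relatively closed
  have h2 : C ∩ O = C \ ⋃₀ {V | V ∈ S4.comps (Wset q t') ∧ V ≠ O} := by
    ext x
    constructor
    · rintro ⟨hxC, hxO⟩
      refine ⟨hxC, ?_⟩
      rintro ⟨V, ⟨hV, hVO⟩, hxV⟩
      exact hVO (S4.comps_eq_of_mem hV hO hxV hxO)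
    · rintro ⟨hxC, hx⟩
      refine ⟨hxC, ?_⟩
      by_contra hxO
      refine hx ⟨_, ⟨S4.mem_comps (hCW hxC), fun he => hxO ?_⟩, mem_connectedComponentIn (hCW hxC)⟩
      rw [← he]
      exact mem_connectedComponentIn (hCW hxC)
  rw [h2]
  exact hC.diff (isOpen_sUnion fun V hV => S4.comps_isOpen (Ev.isOpen_Wset q t') hV.1)

end Pool.Agent.QC
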