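import Pool.Agent.QC.Asm.EventC
import Pool.Agent.QC.Asm.EventDefs
import Pool.Agent.QC.Asm.UJLab
import Pool.Agent.QC.Asm.CmpMap

/-!
# MP_7c50a9_lc: events with a real pair (ghosts and new components)
-/

set_option autoImplicit false

namespace Pool.Agent.QC

open MvPolynomial Filter Topology Set Metric

variable {n l : ℕ} {P : Prm} {q₀ : Tup n l} {z₀ : ℂ} {R0 R1 : ℝ} {m : ℕ} {γ : ℕ → ℝ → Tup n l}
  {D : EvD P q₀ z₀ R0 R1 m γ} {q : RTup n l} {tv κ vn t' r' r ρ0 ρ1 : ℝ} {T : Set ℂ}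
  {u : Cmp (Wset q tv) → Fnl (n + 1)} {o : Cmp (Wset q t') → Fnl (n + 1)}

theorem EvD.pl_ann (D : EvD P q₀ z₀ R0 R1 m γ) : D.pl.C.ann = sann R0 R1 := by
  show sq D.pd.R1 \ csq D.pd.R0 = _
  rw [D.R0_eq, D.R1_eq]
  rfl

theorem EvIn.pr (E : EvIn D q tv κ vn t' r' r ρ0 ρ1 T u o) (k : Cmp (Wset q t')) :
    Pr (addT q (tv + κ)) (k : Set (Fin (n + 1) → ℝ)) :=
  Pr_comp E.comp E.lt E.le k.2

theorem EvIn.sing_end (E : EvIn D q tv κ vn t' r' r ρ0 ρ1 T u o) :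
    SingF (P.f (tC (addT q (tv + κ)))) = ∅ := by
  have h1 : ((tv + κ : ℝ) : ℂ) ∈ hc tv κ := by
    refine ⟨?_, by simp⟩
    have h2 : (((tv + κ : ℝ) : ℂ) - tv) = ((κ : ℝ) : ℂ) := by push_cast; ring
    rw [h2, Complex.norm_real, Real.norm_of_nonneg E.geo.κ_pos.le]
  have h2 := E.geo.sing _ h1
  have h3 : tC (addT q (tv + κ)) = addT (tC q) ((tv + κ : ℝ) : ℂ) := by
    funext i
    simp only [tC, addT]
    split_ifs <;> simp
  rw [h3]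
  exact h2

theorem EvIn.inOm_of_mem {k : Cmp (Wset q t')} {x : Fin (n + 1) → ℝ}
    (hx : x ∈ (k : Set (Fin (n + 1) → ℝ))) : inOm q x :=
  (Ev.mem_Wset.mp (cmp_subset k hx)).1

/-- The label at the real point `a`: trivial if the critical point is not in the component. -/
theorem EvIn.label (E : EvIn D q tv κ vn t' r' r ρ0 ρ1 T u o) {x1 : Fin (n + 1) → ℝ}
    (h1 : xC x1 ∈ CritF (P.f (tC (addT q (tv + κ))))) (hDa : D.a = x1 (Fin.last n))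
    (k : Cmp (Wset q t')) (hx1 : x1 ∉ (k : Set (Fin (n + 1) → ℝ))) :
    ∃ ε > 0, ball D.a ε ⊆ sq D.pd.R1 ∧ ball D.a ε ∩ D.pd.S = {D.a} ∧ ∃ K,
      (ULS P n l).Par (fun z => (γ m 1, z)) (ball D.a ε \ {D.a}) K ∧
      EqOn K (UJ P (addT q (tv + κ)) (k : Set (Fin (n + 1) → ℝ))) (ball D.a ε ∩ up 0) := by
  have haS : D.a ∈ D.pd.S := by rw [D.S_eq]; exact D.ha
  have haR : D.a ∈ sq D.pd.R1 := by rw [D.R1_eq]; exact D.ha.2
  have hop : IsOpen (sq D.pd.R1 \ (D.pd.S \ {D.a})) :=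
    (isOpen_sq _).sdiff (D.pd.S_fin.subset sdiff_subset).isClosed
  obtain ⟨ε, hε, hεb⟩ := Metric.isOpen_iff.mp hop D.a ⟨haR, fun h => h.2 rfl⟩
  have hb1 : ball D.a ε ⊆ sq D.pd.R1 := fun z hz => (hεb hz).1
  have hb2 : ball D.a ε ∩ D.pd.S = {D.a} := by
    ext z
    constructor
    · rintro ⟨hz1, hz2⟩
      by_contra hne
      exact (hεb hz1).2 ⟨hz2, hne⟩
    · rintro rfl
      exact ⟨mem_ball_self hε, haS⟩
  have hfin := E.fin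
  have ha2 : D.a ∈ SigF (P.f (tC (addT q (tv + κ)))) ∩ sq R1 := by rw [← hfin]; exact D.ha
  have hsim := E.geo.simple _ ha2
  have hX : ∀ z ∈ ball D.a ε, z ≠ D.a → z ∉ SigF (P.f (tC (addT q (tv + κ)))) := by
    intro z hz hne hzS
    refine (hεb hz).2 ⟨?_, hne⟩
    rw [D.S_eq, hfin]
    refine ⟨hzS, ?_⟩
    have := hb1 hz
    rwa [D.R1_eq] at this
  rw [hDa] at hsim hX
  obtain ⟨K, hK1, hK2⟩ := UJ_label_of_notMem (P := P) (E.pr k) hε hsim hX h1 rfl hx1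
    (σ := 1) (Or.inl rfl)
  refine ⟨ε, hε, hb1, hb2, K, ?_, ?_⟩
  · rw [hDa, hfin]
    exact hK1
  · intro z hz
    refine hK2 z ⟨?_, ?_⟩
    · rw [← dist_eq_norm]
      have := hz.1
      rwa [hDa] at this
    · rw [one_mul, Complex.sub_im, Complex.ofReal_im, sub_zero]
      exact hz.2

section Abs

variable {γ' : ℝ → Tup n l} {v r₂ ρ0' ρ1' : ℝ} {T' : Set ℂ}
  {fib' : Cmp (Wset q t') → Finset (Cmp (Wset q tv))}

theorem EvIn.pUp (E : EvIn D q tv κ vn t' r' r ρ0 ρ1 T u o)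
    (H : EvAbs (ULS P n l) evQ γ' D.pd v r₂ ρ0' ρ1' T' D.pl (Cmp (Wset q tv)) (Cmp (Wset q t'))
      u o fib')
    (hJp : ∀ k, H.Jp k = UJ P (addT q (tv + κ)) (k : Set (Fin (n + 1) → ℝ)))
    {x1 : Fin (n + 1) → ℝ} (h1 : xC x1 ∈ CritF (P.f (tC (addT q (tv + κ)))))
    (hDa : D.a = x1 (Fin.last n)) (k : Cmp (Wset q t'))
    (hx1 : x1 ∉ (k : Set (Fin (n + 1) → ℝ))) : D.pl.C.PUp true (D.pl.sol (o k)) D.pl.a := by
  obtain ⟨ε, hε, hb1, hb2, K, hK1, hK2⟩ := E.label h1 hDa k hx1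
  refine H.o_pUp_real k (a := D.a) ?_ ?_ hε hb1 hb2 hK1 ?_
  · rw [hDa, Complex.ofReal_im]
  · rw [D.S_eq]; exact D.ha
  · rw [hJp]; exact hK2

theorem evIn_otherB_of (E : EvIn D q tv κ vn t' r' r ρ0 ρ1 T u o)
    (H : EvAbs (ULS P n l) evQ γ' D.pd v r₂ ρ0' ρ1' T' D.pl (Cmp (Wset q tv)) (Cmp (Wset q t'))
      u o fib')
    (hJp : ∀ k, H.Jp k = UJ P (addT q (tv + κ)) (k : Set (Fin (n + 1) → ℝ)))
    (hfib : ∀ k i, i ∈ fib' k ↔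
      (i : Set (Fin (n + 1) → ℝ)) ⊆ (k : Set (Fin (n + 1) → ℝ)))
    {N : Set (Fin (n + 1) → ℝ)} {x1 x2 : Fin (n + 1) → ℝ} (GB : GeoB P q tv κ vn r' r N x1 x2)
    (hDa : D.a = x1 (Fin.last n)) (hDb : D.b = x2 (Fin.last n)) (hN : ∀ x ∈ N, ¬ inOm q x)
    (hs : SameCmp q tv t') : Trans ⟨.other, D.pl.EE, D.pl.UU, D.pl.LL⟩ u o := by
  have hlt : tv ≤ t' := by linarith [E.lt, E.geo.κ_pos]
  obtain ⟨π, hπ⟩ := hs.equiv hlt
  refine H.other_real ⟨?_, ?_⟩ (fun k => E.pUp H hJp GB.mem1 hDa k fun hx => ?_) π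
    (fun k i => (hfib k i).trans (hπ k i))
  · show D.a.im = 0
    rw [hDa, Complex.ofReal_im]
  · show D.b.im = 0
    rw [hDb, Complex.ofReal_im]
  · exact hN x1 GB.N1 (EvIn.inOm_of_mem hx)

theorem evIn_zero_of (E : EvIn D q tv κ vn t' r' r ρ0 ρ1 T u o)
    (H : EvAbs (ULS P n l) evQ γ' D.pd v r₂ ρ0' ρ1' T' D.pl (Cmp (Wset q tv)) (Cmp (Wset q t'))
      u o fib')
    (hJp : ∀ k, H.Jp k = UJ P (addT q (tv + κ)) (k : Set (Fin (n + 1) → ℝ)))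
    (hfib : ∀ k i, i ∈ fib' k ↔
      (i : Set (Fin (n + 1) → ℝ)) ⊆ (k : Set (Fin (n + 1) → ℝ)))
    {N O0 : Set (Fin (n + 1) → ℝ)}
    {x1 x2 : Fin (n + 1) → ℝ} (GB : GeoB P q tv κ vn r' r N x1 x2)
    (hDa : D.a = x1 (Fin.last n)) (hDb : D.b = x2 (Fin.last n)) (hM : MorZ q tv t' O0)
    (hN : N ⊆ O0) : Trans ⟨.zero, D.pl.EE, D.pl.UU, D.pl.LL⟩ u o := by
  have hlt : tv ≤ t' := by linarith [E.lt, E.geo.κ_pos]
  obtain ⟨π, hπ, hπ0⟩ := hM.equiv hlt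
  have hx1O : x1 ∈ ((π none : Cmp (Wset q t')) : Set (Fin (n + 1) → ℝ)) := by
    rw [hπ0]; exact hN GB.N1
  refine H.zero ⟨?_, ?_⟩ π (fun k i => (hfib k i).trans (hπ k i)) (fun h0 => ?_) (fun i =>
    E.pUp H hJp GB.mem1 hDa _ fun hx => ?_)
  · show D.a.im = 0
    rw [hDa, Complex.ofReal_im]
  · show D.b.im = 0
    rw [hDb, Complex.ofReal_im]
  · have h01 : R0 < R1 := by linarith [E.geo.R_lt, E.R0_pos]
    refine UJ_ne (P := P) (E.pr (π none)) E.sing_end E.R0_pos h01 ?_ hx1O GB.mem1 ?_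
    · intro x hx hf
      exact E.geo.bdd _ le_rfl x (EvIn.inOm_of_mem hx) hf
    · intro z hz
      rw [← (E.aft (π none)).2 z hz, h0]
      exact D.pl.sol_zero (by rw [D.pl_ann]; exact hz)
  · have h1 := cmp_eq_of_mem hx1O hx
    have h2 := π.injective h1
    simp at h2

end Abs

theorem EvIn.farB (E : EvIn D q tv κ vn t' r' r ρ0 ρ1 T u o) {N : Set (Fin (n + 1) → ℝ)}
    {x1 x2 : Fin (n + 1) → ℝ} (GB : GeoB P q tv κ vn r' r N x1 x2)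
    (hDa : D.a = x1 (Fin.last n)) (hDb : D.b = x2 (Fin.last n)) :
    ∀ w ∈ D.pd.S, w ≠ D.a → w ≠ D.b → w ∉ csqc (vn : ℂ) r := by
  intro w hw ha hb hwr
  rw [D.S_eq, E.fin] at hw
  rcases GB.only w hw.1 hwr with h | h
  · exact ha (h.trans hDa.symm)
  · exact hb (h.trans hDb.symm)

/-- Class `other`, real pair (a ghost). -/
theorem evIn_otherB' (E : EvIn D q tv κ vn t' r' r ρ0 ρ1 T u o) {N : Set (Fin (n + 1) → ℝ)}
    {x1 x2 : Fin (n + 1) → ℝ} (GB : GeoB P q tv κ vn r' r N x1 x2)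
    (hDa : D.a = x1 (Fin.last n)) (hDb : D.b = x2 (Fin.last n)) (hN : ∀ x ∈ N, ¬ inOm q x)
    (hs : SameCmp q tv t') : Trans ⟨.other, D.pl.EE, D.pl.UU, D.pl.LL⟩ u o := by
  have hlt : tv ≤ t' := by linarith [E.lt, E.geo.κ_pos]
  obtain ⟨π, hπ⟩ := hs.equiv hlt
  have hfib : ∀ (k : Cmp (Wset q t')) (i : Cmp (Wset q tv)), i ∈ ({π.symm k} : Finset _) ↔
      (i : Set (Fin (n + 1) → ℝ)) ⊆ (k : Set (Fin (n + 1) → ℝ)) := by
    intro k i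
    rw [Finset.mem_singleton, hπ k i]
    exact π.eq_symm_apply
  exact evIn_otherB_of E (E.toAbs E.geo.sqs.r_lt le_rfl (E.farB GB hDa hDb)
    (fun k => {π.symm k}) hfib) (fun _ => rfl) hfib GB hDa hDb hN hs

/-- Class `zero`. -/
theorem evIn_zero' (E : EvIn D q tv κ vn t' r' r ρ0 ρ1 T u o) {N O0 : Set (Fin (n + 1) → ℝ)}
    {x1 x2 : Fin (n + 1) → ℝ} (GB : GeoB P q tv κ vn r' r N x1 x2)
    (hDa : D.a = x1 (Fin.last n)) (hDb : D.b = x2 (Fin.last n)) (hM : MorZ q tv t' O0)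
    (hN : N ⊆ O0) : Trans ⟨.zero, D.pl.EE, D.pl.UU, D.pl.LL⟩ u o := by
  have hlt : tv ≤ t' := by linarith [E.lt, E.geo.κ_pos]
  obtain ⟨π, hπ, -⟩ := hM.equiv hlt
  have hfib : ∀ (k : Cmp (Wset q t')) (i : Cmp (Wset q tv)), i ∈ (π.symm k).toFinset ↔
      (i : Set (Fin (n + 1) → ℝ)) ⊆ (k : Set (Fin (n + 1) → ℝ)) := by
    intro k i
    rw [Option.mem_toFinset, Option.mem_def, hπ k i, Equiv.symm_apply_eq]
    exact eq_comm
  exact evIn_zero_of E (E.toAbs E.geo.sqs.r_lt le_rfl (E.farB GB hDa hDb)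
    (fun k => (π.symm k).toFinset) hfib) (fun _ => rfl) hfib GB hDa hDb hM hN

end Pool.Agent.QC
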