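import Pool.Agent.QC.Ev.Iface
import Pool.Agent.QC.InvThm

/-!
# MP_7c50a9_lc: `Trans` under a change of the index sets; Morse theory, index zero, in terms of sets
-/

namespace Pool.Agent.QC

open MvPolynomial Filter Topology Set

/-- A change of the index sets. -/
theorem Trans.equiv_aux {V : Type*} [AddCommGroup V] [Module ℂ V] {d : Ev V} {ι κ ι' κ' : Type}
    {u : ι → V} {o : κ → V} (h : Trans d u o) (e : ι' ≃ ι) (e' : κ' ≃ κ) :
    Trans d (fun i => u (e i)) (fun k => o (e' k)) := by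
  obtain ⟨c, dE, dU, dL⟩ := d
  cases c with
  | zero =>
    obtain ⟨h1, h2, π, h3, h4, h5⟩ := h
    refine ⟨h1, h2, ((Equiv.optionCongr e).trans π).trans e'.symm, ?_, ?_, ?_⟩
    · simpa using h3
    · simpa using h4
    · intro i
      simpa using h5 (e i)
  | one =>
    obtain ⟨h1, h2, h3, im, ip, h4, h5, π, hs, h6, h7, h8, h9⟩ := h
    refine ⟨h1, h2, fun k => h3 (e' k), e.symm im, e.symm ip, ?_, ?_, fun i => e'.symm (π (e i)),
      ?_, ?_, ?_, ?_, ?_⟩
    · intro i
      have := h4 (e i)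
      rw [this, ne_eq, ne_eq, Equiv.eq_symm_apply]
    · intro i
      have := h5 (e i)
      rw [this, ne_eq, ne_eq, Equiv.eq_symm_apply]
    · exact e'.symm.surjective.comp (hs.comp e.surjective)
    · intro i j
      simp only [Equiv.eq_symm_apply]
      simpa using h6 (e i) (e j)
    · intro i hi hi'
      have := h7 (e i) (fun h => hi ((Equiv.eq_symm_apply e).2 h))
        (fun h => hi' ((Equiv.eq_symm_apply e).2 h))
      simpa using this
    · intro hi
      have := h8 (e.symm.injective hi)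
      simpa using this
    · intro hi
      have := h9 (fun h => hi (by rw [h]))
      simpa using this
  | other =>
    obtain ⟨h1, π, h2⟩ := h
    refine ⟨h1, (e.trans π).trans e'.symm, ?_⟩
    intro i
    simpa using h2 (e i)

variable {n l : ℕ} {q : RTup n l}

theorem morZ_aux {tv t' : ℝ} {v : Fin (n + 1) → ℝ} (H : EvHyp q tv t' v)
    (h0 : NegDef (HR (addT q tv) v)) :
    v ∈ Wset q t' ∧ connectedComponentIn (Wset q t') v ∈ Cmp (Wset q t') ∧
    Disjoint (connectedComponentIn (Wset q t') v) (Wset q tv) ∧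
    (∀ O ∈ Cmp (Wset q t'), O ≠ connectedComponentIn (Wset q t') v →
      ∃ U ∈ Cmp (Wset q tv), U ⊆ O) ∧
    (∀ O ∈ Cmp (Wset q t'), ∀ U ∈ Cmp (Wset q tv), ∀ U' ∈ Cmp (Wset q tv), U ⊆ O → U' ⊆ O →
      U = U') := by
  obtain ⟨h1, h2, h3, h4⟩ := morse_new H h0
  have hmono : Wset q tv ⊆ Wset q t' := Ev.Wset_mono H.lt.le
  refine ⟨h1, ⟨v, h1, rfl⟩, h2, ?_, ?_⟩
  · rintro O ⟨x, hx, rfl⟩ hne
    obtain ⟨y, hy, hyx⟩ := h3 x hx fun hxv => hne (connectedComponentIn_eq hxv).symm
    refine ⟨_, ⟨y, hy, rfl⟩, ?_⟩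
    rw [connectedComponentIn_eq hyx]
    exact connectedComponentIn_mono y hmono
  · rintro O ⟨x, hx, rfl⟩ U ⟨y, hy, rfl⟩ U' ⟨y', hy', rfl⟩ hU hU'
    refine h4 y hy y' hy' ?_
    have e1 := connectedComponentIn_eq (hU (mem_connectedComponentIn hy))
    have e2 := connectedComponentIn_eq (hU' (mem_connectedComponentIn hy'))
    rw [← e1, ← e2]

end Pool.Agent.QC
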