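import Pool.Agent.QC.Asm.Geo
import Pool.Agent.QC.Asm.EventA
import Pool.Agent.QC.Asm.EventB
import Pool.Agent.QC.Asm.MorTrans

/-!
# MP_7c50a9_lc: assembly, statements part 3: the event theorem (one event, one input)

`q` is the tuple in the frame of the event.
-/

namespace Pool.Agent.QC

open MvPolynomial Filter Topology Set

variable {n l : ℕ} {P : Prm} {q₀ : Tup n l} {z₀ : ℂ} {R0 R1 : ℝ} {m : ℕ} {γ : ℕ → ℝ → Tup n l}

variable {D : EvD P q₀ z₀ R0 R1 m γ} {q : RTup n l} {tv κ vn t' r' r ρ0 ρ1 : ℝ} {T : Set ℂ}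
  {u : Cmp (Wset q tv) → Fnl (n + 1)} {o : Cmp (Wset q t') → Fnl (n + 1)}

/-- Class `other`, complex pair. -/
theorem evIn_otherA (E : EvIn D q tv κ vn t' r' r ρ0 ρ1 T u o) {μ : ℝ} {a : ℂ}
    (GA : GeoA P q tv κ vn r' r μ a) (hDa : D.a = a) (hDb : D.b = (starRingEnd ℂ) a)
    (hs : SameCmp q tv t') : Trans ⟨.other, D.pl.EE, D.pl.UU, D.pl.LL⟩ u o :=
  evIn_otherA' E GA hDa hDb hs

/-- Class `other`, real pair (a ghost). -/
theorem evIn_otherB (E : EvIn D q tv κ vn t' r' r ρ0 ρ1 T u o) {N : Set (Fin (n + 1) → ℝ)}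
    {x1 x2 : Fin (n + 1) → ℝ} (GB : GeoB P q tv κ vn r' r N x1 x2)
    (hDa : D.a = x1 (Fin.last n)) (hDb : D.b = x2 (Fin.last n)) (hN : ∀ x ∈ N, ¬ inOm q x)
    (hs : SameCmp q tv t') : Trans ⟨.other, D.pl.EE, D.pl.UU, D.pl.LL⟩ u o :=
  evIn_otherB' E GB hDa hDb hN hs

/-- Class `zero`. -/
theorem evIn_zero (E : EvIn D q tv κ vn t' r' r ρ0 ρ1 T u o) {N O0 : Set (Fin (n + 1) → ℝ)}
    {x1 x2 : Fin (n + 1) → ℝ} (GB : GeoB P q tv κ vn r' r N x1 x2)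
    (hDa : D.a = x1 (Fin.last n)) (hDb : D.b = x2 (Fin.last n)) (hM : MorZ q tv t' O0)
    (hN : N ⊆ O0) : Trans ⟨.zero, D.pl.EE, D.pl.UU, D.pl.LL⟩ u o :=
  evIn_zero' E GB hDa hDb hM hN

/-- Class `one`. -/
theorem evIn_one (E : EvIn D q tv κ vn t' r' r ρ0 ρ1 T u o) {μ : ℝ} {a : ℂ}
    (GA : GeoA P q tv κ vn r' r μ a) (hDa : D.a = a) (hDb : D.b = (starRingEnd ℂ) a)
    {U1 U2 : Set (Fin (n + 1) → ℝ)} {x1 x2 : Fin (n + 1) → ℝ}
    (GM : GeoM P q tv κ vn r' r U1 U2 x1 x2) (hM : MorO q tv t' U1 U2) :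
    Trans ⟨.one, D.pl.EE, D.pl.UU, D.pl.LL⟩ u o :=
  evIn_one' E GA hDa hDb GM hM

/-! ## Consequences of Morse theory -/

theorem morZ {tv t' : ℝ} {v : Fin (n + 1) → ℝ} (H : EvHyp q tv t' v)
    (h0 : NegDef (HR (addT q tv) v)) :
    MorZ q tv t' (connectedComponentIn (Wset q t') v) ∧ v ∈ Wset q t' := by
  obtain ⟨h1, h2, h3, h4, h5⟩ := morZ_aux H h0
  exact ⟨⟨h2, h3, h4, h5⟩, h1⟩

/-- A change of the index sets. -/
theorem Trans.equiv {V : Type*} [AddCommGroup V] [Module ℂ V] {d : Ev V} {ι κ ι' κ' : Type}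
    {u : ι → V} {o : κ → V} (h : Trans d u o) (e : ι' ≃ ι) (e' : κ' ≃ κ) :
    Trans d (fun i => u (e i)) (fun k => o (e' k)) :=
  Trans.equiv_aux h e e'

end Pool.Agent.QC
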