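import Pool.Agent.QC.Asm.Label

/-!
# MP_7c50a9_lc: one event, abstract form

Everything about one event for one input, from parallel sections of a local system over
(tuple, z): the real cycles before and after the event, the transport along a path `γ` above the
event, the singular points at the end.
-/

set_option autoImplicit false

open Set Metric Filter Topology

namespace Pool.Agent.QC

variable {Q : Type*} [TopologicalSpace Q] {F : Type*} [AddCommGroup F] [Module ℂ F]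
  {A : LS (Q × ℂ) F} {ι : Type} {ev : ι → F →ₗ[ℂ] ℂ}

/-! ## Solutions from parallel sections -/

/-- A parallel section outside the singular points is a solution after changing the values at the
singular points. -/
theorem sol_of_par {q : Q} (D : PlaneData A ev q) (hA : A.Lin) (hol : HolZ A ev)
    (ev_inj : ∀ x, (∀ i, ev i x = 0) → x = 0) {U : Set ℂ} (hU : IsOpen U) (hUR : U ⊆ sq D.R1)
    {g : ℂ → F} (hg : A.Par (fun z => (q, z)) (U \ D.S) g) :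
    ∃ g', (D.toPlane hA hol ev_inj).Sol U g' ∧ EqOn g' g (U \ D.S) := by
  classical
  have hloc : ∀ w ∈ U ∩ D.S, ∃ r > 0, ball w r ⊆ U ∧ ball w r ∩ D.S = {w} := by
    intro w hw
    have h1 : IsOpen (U \ (D.S \ {w})) :=
      hU.sdiff (D.S_fin.subset sdiff_subset).isClosed
    obtain ⟨r, hr, hsub⟩ := Metric.isOpen_iff.1 h1 w ⟨hw.1, fun h => h.2 rfl⟩
    refine ⟨r, hr, fun z hz => (hsub hz).1, ?_⟩
    ext z
    constructor
    · intro h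
      by_contra hne
      exact (hsub h.1).2 ⟨h.2, hne⟩
    · intro h
      rw [show z = w from h]
      exact ⟨mem_ball_self hr, hw.2⟩
  choose! r hr hrU hrS using hloc
  have hfill : ∀ w ∈ U ∩ D.S, ∃ g₁ : ℂ → F,
      (∀ i, DifferentiableOn ℂ (fun z => ev i (g₁ z)) (ball w (r w))) ∧
      EqOn g₁ g (ball w (r w) \ {w}) := by
    intro w hw
    refine D.fill hw.2 (hr w hw) ((hrU w hw).trans hUR) (hrS w hw) (hg.mono ?_)
    rintro z ⟨h1, h2⟩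
    refine ⟨hrU w hw h1, fun h3 => h2 ?_⟩
    have : z ∈ ball w (r w) ∩ D.S := ⟨h1, h3⟩
    rw [hrS w hw] at this
    exact this
  choose! G hG1 hG2 using hfill
  set g' : ℂ → F := fun z => if z ∈ D.S then G z z else g z with hg'
  have e1 : EqOn g' g (U \ D.S) := fun z hz => by simp only [hg', if_neg hz.2]
  have e2 : ∀ w ∈ U ∩ D.S, EqOn g' (G w) (ball w (r w)) := by
    intro w hw z hz
    by_cases hzS : z ∈ D.S
    · have h1 : z ∈ ball w (r w) ∩ D.S := ⟨hz, hzS⟩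
      rw [hrS w hw] at h1
      have h2 : z = w := h1
      rw [h2]
      simp only [hg', if_pos hw.2]
    · simp only [hg', if_neg hzS]
      refine (hG2 w hw ⟨hz, fun h => hzS ?_⟩).symm
      rw [show z = w from h]
      exact hw.2
  refine ⟨g', ⟨fun i z hz => ?_, hg.congr e1.symm⟩, e1⟩
  by_cases hzS : z ∈ D.S
  · have hw : z ∈ U ∩ D.S := ⟨hz, hzS⟩
    refine (((hG1 z hw i).differentiableAt
      (isOpen_ball.mem_nhds (mem_ball_self (hr z hw)))).congr_of_eventuallyEq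
      ?_).differentiableWithinAt
    filter_upwards [isOpen_ball.mem_nhds (mem_ball_self (hr z hw))] with x hx
    rw [e2 z hw hx]
  · have hZa : IsOpen (U \ D.S) := hU.sdiff D.S_fin.isClosed
    have h5 := (hol.diffOn hZa hg i).differentiableAt (hZa.mem_nhds ⟨hz, hzS⟩)
    refine (h5.congr_of_eventuallyEq ?_).differentiableWithinAt
    filter_upwards [hZa.mem_nhds ⟨hz, hzS⟩] with x hx
    rw [e1 hx]

/-- A parallel section on an open set is a solution. -/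
theorem sol_of_par' {q : Q} (D : PlaneData A ev q) (hA : A.Lin) (hol : HolZ A ev)
    (ev_inj : ∀ x, (∀ i, ev i x = 0) → x = 0) {U : Set ℂ} (hU : IsOpen U)
    {g : ℂ → F} (hg : A.Par (fun z => (q, z)) U g) : (D.toPlane hA hol ev_inj).Sol U g :=
  ⟨fun i => hol.diffOn hU hg i, hg.mono sdiff_subset⟩

/-! ## Real cycles -/

/-- A real cycle at the tuple `q`: parallel off the real axis, with the jumps `j`. -/
structure RCyc (A : LS (Q × ℂ) F) (ev : ι → F →ₗ[ℂ] ℂ) (q : Q) (R0 R1 : ℝ) (J : ℂ → F)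
    (j : ℝ → F) : Prop where
  par : A.Par (fun z => (q, z)) {z | z ∈ sq R1 ∧ z.im ≠ 0 ∧ (q, z) ∈ A.X} J
  ann : A.Par (fun z => (q, z)) (sq R1 \ csq R0) J
  jump : ∀ τ : ℝ, (τ : ℂ) ∈ sq R1 → (q, (τ : ℂ)) ∈ A.X → JumpLim ev J τ (j τ)

section RC

variable {q : Q} {D : PlaneData A ev q} {J : ℂ → F} {j : ℝ → F}

theorem RCyc.sol_up (h : RCyc A ev q D.R0 D.R1 J j) (hA : A.Lin) (hol : HolZ A ev)
    (ev_inj : ∀ x, (∀ i, ev i x = 0) → x = 0) :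
    ∃ g, (D.toPlane hA hol ev_inj).Sol (sq D.R1 ∩ up 0) g ∧
      EqOn g J ((sq D.R1 ∩ up 0) \ D.S) := by
  refine sol_of_par D hA hol ev_inj ((isOpen_sq _).inter (isOpen_up _)) inter_subset_left
    (h.par.mono ?_)
  rintro z ⟨⟨h1, h2⟩, h3⟩
  exact ⟨h1, ne_of_gt h2, D.reg z h1 h3⟩

theorem RCyc.sol_dn (h : RCyc A ev q D.R0 D.R1 J j) (hA : A.Lin) (hol : HolZ A ev)
    (ev_inj : ∀ x, (∀ i, ev i x = 0) → x = 0) :
    ∃ g, (D.toPlane hA hol ev_inj).Sol (sq D.R1 ∩ dn 0) g ∧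
      EqOn g J ((sq D.R1 ∩ dn 0) \ D.S) := by
  refine sol_of_par D hA hol ev_inj ((isOpen_sq _).inter (isOpen_dn _)) inter_subset_left
    (h.par.mono ?_)
  rintro z ⟨⟨h1, h2⟩, h3⟩
  exact ⟨h1, ne_of_lt h2, D.reg z h1 h3⟩

theorem RCyc.extUp (h : RCyc A ev q D.R0 D.R1 J j) (hA : A.Lin) (hol : HolZ A ev)
    (ev_inj : ∀ x, (∀ i, ev i x = 0) → x = 0) : (D.toPlane hA hol ev_inj).ExtUp J := by
  obtain ⟨g, h1, h2⟩ := h.sol_up hA hol ev_inj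
  exact ⟨g, h1, fun z hz => h2 ⟨⟨hz.1.1, hz.2⟩,
    (D.toPlane hA hol ev_inj).S_disj_ann hz.1⟩⟩

theorem RCyc.extDn (h : RCyc A ev q D.R0 D.R1 J j) (hA : A.Lin) (hol : HolZ A ev)
    (ev_inj : ∀ x, (∀ i, ev i x = 0) → x = 0) : (D.toPlane hA hol ev_inj).ExtDn J := by
  obtain ⟨g, h1, h2⟩ := h.sol_dn hA hol ev_inj
  exact ⟨g, h1, fun z hz => h2 ⟨⟨hz.1.1, hz.2⟩,
    (D.toPlane hA hol ev_inj).S_disj_ann hz.1⟩⟩

end RC

namespace PlaneSys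

variable (C : PlaneSys F)

/-- The condition at a real point from the upper half plane and a disc. -/
theorem pUp_of_real {lft : Bool} {J g k : ℂ → F} {a : ℂ} (ha : a.im = 0)
    (hg : C.Sol (sq C.R1 ∩ up 0) g) (hgJ : EqOn g J (C.ann ∩ up 0)) {ε : ℝ} (hε : 0 < ε)
    (hk : C.Sol (ball a ε) k) (hkg : EqOn k g (ball a ε ∩ up 0)) : C.PUp lft J a := by
  set g' : ℂ → F := fun z => if 0 < z.im then g z else k z with hg'
  have oreg := C.isOpen_regUp lft a ε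
  have hR0 := C.hR0
  refine ⟨ε, hε, g', ?_, ?_⟩
  · refine C.local' oreg fun z hz => ?_
    by_cases hzi : 0 < z.im
    · have o1 : IsOpen (C.regUp lft a ε ∩ up 0) := oreg.inter (isOpen_up _)
      refine ⟨C.regUp lft a ε ∩ up 0, o1, ⟨hz, hzi⟩, inter_subset_left, ?_⟩
      refine C.congr o1 (C.mono (V := sq C.R1 ∩ up 0) o1 (fun x hx => ⟨hx.1.1, hx.2⟩) hg) ?_
      intro x hx
      have : 0 < x.im := hx.2
      simp only [hg', if_pos this]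
    · have o1 : IsOpen (C.regUp lft a ε ∩ ball a ε) := oreg.inter isOpen_ball
      refine ⟨C.regUp lft a ε ∩ ball a ε, o1, ⟨hz, ?_⟩, inter_subset_left, ?_⟩
      · rcases hz.2 with h | h
        · exact absurd (lt_of_le_of_lt ha.ge (strip_up h)) hzi
        · exact h
      · refine C.congr o1 (C.mono o1 inter_subset_right hk) ?_
        intro x hx
        by_cases hxi : 0 < x.im
        · simp only [hg', if_pos hxi]
          exact hkg ⟨hx.2, hxi⟩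
        · simp only [hg', if_neg hxi]
  · intro z hz
    have hzR : C.R0 < z.im := hz.2
    have hz0 : 0 < z.im := by linarith
    simp only [hg', if_pos hz0]
    exact hgJ ⟨C.regUp_top_ann hz, hz0⟩

/-- `J` extends to the part above the height `h`. -/
def ExtAb (h : ℝ) (J : ℂ → F) : Prop :=
  ∃ g, C.Sol (sq C.R1 ∩ up h) g ∧ EqOn g J (C.ann ∩ up h)

/-- `J` extends to the part below the height `-h`. -/
def ExtBe (h : ℝ) (J : ℂ → F) : Prop :=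
  ∃ g, C.Sol (sq C.R1 ∩ dn (-h)) g ∧ EqOn g J (C.ann ∩ dn (-h))

theorem ExtAb.pUp {lft : Bool} {h : ℝ} {J : ℂ → F} (H : C.ExtAb h J) {w : ℂ} (hw : h < w.im) :
    C.PUp lft J w := by
  obtain ⟨g, h1, h2⟩ := H
  refine PUp.of_sol C (ε := w.im - h) (by linarith) h1 (fun z hz => h2 ⟨hz.1, hz.2.2⟩) ?_
  rintro z ⟨hz1, hz2 | hz2⟩
  · exact ⟨hz1, hw.trans (strip_up hz2)⟩
  · refine ⟨hz1, ?_⟩
    rw [mem_ball, Complex.dist_eq] at hz2
    have h3 := Complex.abs_im_le_norm (z - w)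
    rw [Complex.sub_im] at h3
    have h4 := (abs_lt.mp (lt_of_le_of_lt h3 hz2)).1
    change h < z.im
    linarith

theorem ExtBe.pDn {lft : Bool} {h : ℝ} {J : ℂ → F} (H : C.ExtBe h J) {w : ℂ}
    (hw : w.im < -h) : C.PDn lft J w := by
  obtain ⟨g, h1, h2⟩ := H
  refine PDn.of_sol C (ε := -h - w.im) (by linarith) h1 (fun z hz => h2 ⟨hz.1, hz.2.2⟩) ?_
  rintro z ⟨hz1, hz2 | hz2⟩
  · refine ⟨hz1, ?_⟩
    have : z.im < w.im := by
      cases lft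
      · exact hz2.2.2
      · exact hz2.2.2
    change z.im < -h
    linarith
  · refine ⟨hz1, ?_⟩
    rw [mem_ball, Complex.dist_eq] at hz2
    have h3 := Complex.abs_im_le_norm (z - w)
    rw [Complex.sub_im] at h3
    have h4 := (abs_lt.mp (lt_of_le_of_lt h3 hz2)).2
    change z.im < -h
    linarith

end PlaneSys

/-! ## The geometry of one event -/

/-- The geometry above an event: `K = csqc v r` contains the pair, the small squares with centres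
`T` contain the other singular points. -/
structure EvGeo (A : LS (Q × ℂ) F) (γ : ℝ → Q) {q : Q} (D : PlaneData A ev q) (v r ρ0 ρ1 : ℝ)
    (T : Set ℂ) : Prop where
  cont : ContinuousOn γ (Icc 0 1)
  end_ : γ 1 = q
  r_nonneg : 0 ≤ r
  K_sub : csqc (v : ℂ) r ⊆ csq D.R0
  fin : T.Finite
  ρ0_pos : 0 < ρ0
  ρ01 : ρ0 < ρ1
  T_sub : ∀ c ∈ T, csqc c ρ0 ⊆ csq D.R0
  T_K : ∀ c ∈ T, sqc c ρ1 ⊆ sq D.R1 \ csqc (v : ℂ) r
  disj : ∀ c ∈ T, ∀ c' ∈ T, c ≠ c' → Disjoint (sqc c ρ1) (sqc c' ρ1)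
  T_S : ∀ c ∈ T, ∃ w ∈ D.S, w ∈ sqc c ρ0 ∧ ∀ x ∈ D.S, x ∈ sqc c ρ1 → x = w
  reg : ∀ s ∈ Icc (0 : ℝ) 1, ∀ z ∈ (sq D.R1 \ csqc (v : ℂ) r) \ ⋃ c ∈ T, csqc c ρ0,
    (γ s, z) ∈ A.X

namespace EvGeo

variable {γ : ℝ → Q} {q : Q} {D : PlaneData A ev q} {v r ρ0 ρ1 : ℝ} {T : Set ℂ}

omit [AddCommGroup F] [Module ℂ F] in
lemma ann_sub' {R0 R1 : ℝ} {K : Set ℂ} (hK : K ⊆ csq R0) {T : Set ℂ} {ρ0 : ℝ}
    (hT : ∀ c ∈ T, csqc c ρ0 ⊆ csq R0) :
    sq R1 \ csq R0 ⊆ (sq R1 \ K) \ ⋃ c ∈ T, csqc c ρ0 := by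
  rintro z ⟨hz1, hz2⟩
  refine ⟨⟨hz1, fun h => hz2 (hK h)⟩, ?_⟩
  simp only [mem_iUnion, not_exists]
  exact fun c hc h => hz2 (hT c hc h)

/-- (5.2) The jump lemma. -/
theorem extOff (G : EvGeo A γ D v r ρ0 ρ1 T) (hA : A.Lin) (hol : HolZ A ev)
    (ev_inj : ∀ x, (∀ i, ev i x = 0) → x = 0) {Jm Jp : ℂ → F} {jm jp : ℝ → F}
    (hm : RCyc A ev (γ 0) D.R0 D.R1 Jm jm) (hp : RCyc A ev q D.R0 D.R1 Jp jp)
    (htr : ∀ τ : ℝ, (τ : ℂ) ∈ (sq D.R1 \ csqc (v : ℂ) r) \ ⋃ c ∈ T, csqc c ρ0 →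
      ∃ u : ℝ → F, A.Par (fun s : ℝ => (γ s, (τ : ℂ))) (Icc 0 1) u ∧ u 0 = jm τ ∧ u 1 = jp τ)
    {um : ℂ × ℝ → F}
    (hum : A.Par (fun p : ℂ × ℝ => (γ p.2, p.1)) ((sq D.R1 \ csq D.R0) ×ˢ Icc 0 1) um)
    (hum0 : ∀ z ∈ sq D.R1 \ csq D.R0, um (z, 0) = Jm z) :
    (D.toPlane hA hol ev_inj).ExtOff (csqc (v : ℂ) r) (fun z => Jp z - um (z, 1)) := by
  obtain rfl := G.end_
  have h0 : (0 : ℝ) ∈ Icc (0 : ℝ) 1 := ⟨le_rfl, zero_le_one⟩
  have h1 : (1 : ℝ) ∈ Icc (0 : ℝ) 1 := ⟨zero_le_one, le_rfl⟩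
  exact jump G.cont hA hol ev_inj D (isClosed_csqc _ _) G.fin G.K_sub G.ρ0_pos G.ρ01 G.T_sub
    G.T_K G.disj G.T_S G.reg
    (hm.par.mono fun z hz => ⟨hz.1.1.1, hz.2, G.reg 0 h0 z hz.1⟩)
    (hp.par.mono fun z hz => ⟨hz.1.1.1, hz.2, G.reg 1 h1 z hz.1⟩) hp.ann
    (fun τ hτ => hm.jump τ hτ.1.1 (G.reg 0 h0 _ hτ)) (fun τ hτ => hp.jump τ hτ.1.1 (G.reg 1 h1 _ hτ))
    htr hum hum0

/-- The region above the height `r`, outside the squares. -/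
def Ou (R1 r ρ0 : ℝ) (T : Set ℂ) : Set ℂ := (sq R1 ∩ up r) \ ⋃ c ∈ T, csqc c ρ0

/-- The region below the height `-r`, outside the squares. -/
def Od (R1 r ρ0 : ℝ) (T : Set ℂ) : Set ℂ := (sq R1 ∩ dn (-r)) \ ⋃ c ∈ T, csqc c ρ0

lemma up_K {z : ℂ} {v r : ℝ} (hz : r < z.im) : z ∉ csqc (v : ℂ) r := by
  intro h
  have h2 := h.2
  rw [Complex.ofReal_im, sub_zero] at h2
  linarith [(abs_le.1 h2).2]

lemma dn_K {z : ℂ} {v r : ℝ} (hz : z.im < -r) : z ∉ csqc (v : ℂ) r := by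
  intro h
  have h2 := h.2
  rw [Complex.ofReal_im, sub_zero] at h2
  linarith [(abs_le.1 h2).1]

/-- The transport of a real cycle above the height `r`. -/
theorem extAb (G : EvGeo A γ D v r ρ0 ρ1 T) (hT : ∀ c ∈ T, c.im = 0 ∨ r + ρ1 ≤ |c.im|)
    (hρ0r : ρ0 ≤ r) (hA : A.Lin) (hol : HolZ A ev)
    (ev_inj : ∀ x, (∀ i, ev i x = 0) → x = 0) {Jm : ℂ → F} {jm : ℝ → F}
    (hm : RCyc A ev (γ 0) D.R0 D.R1 Jm jm) {um : ℂ × ℝ → F}
    (hum : A.Par (fun p : ℂ × ℝ => (γ p.2, p.1)) ((sq D.R1 \ csq D.R0) ×ˢ Icc 0 1) um)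
    (hum0 : ∀ z ∈ sq D.R1 \ csq D.R0, um (z, 0) = Jm z) :
    ∃ (g : ℂ → F) (Y : ℂ × ℝ → F), (D.toPlane hA hol ev_inj).Sol (sq D.R1 ∩ up r) g ∧
      A.Par (fun p : ℂ × ℝ => (γ p.2, p.1)) (Ou D.R1 r ρ0 T ×ˢ Icc 0 1) Y ∧
      (∀ z ∈ Ou D.R1 r ρ0 T, Y (z, 0) = Jm z) ∧ EqOn g (fun z => Y (z, 1)) (Ou D.R1 r ρ0 T) ∧
      EqOn g (fun z => um (z, 1)) ((D.toPlane hA hol ev_inj).ann ∩ up r) := by
  obtain rfl := G.end_
  have hr := G.r_nonneg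
  have h0 : (0 : ℝ) ∈ Icc (0 : ℝ) 1 := ⟨le_rfl, zero_le_one⟩
  have h1 : (1 : ℝ) ∈ Icc (0 : ℝ) 1 := ⟨zero_le_one, le_rfl⟩
  have hN : IsClosed (⋃ c ∈ T, csqc c ρ0) :=
    G.fin.isClosed_biUnion fun c _ => isClosed_csqc c ρ0
  have hsub : Ou D.R1 r ρ0 T ⊆ (sq D.R1 \ csqc (v : ℂ) r) \ ⋃ c ∈ T, csqc c ρ0 :=
    fun z hz => ⟨⟨hz.1.1, up_K hz.1.2⟩, hz.2⟩
  have oOu : IsOpen (Ou D.R1 r ρ0 T) := ((isOpen_sq _).inter (isOpen_up _)).sdiff hN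
  have hX : ∀ s ∈ Icc (0 : ℝ) 1, ∀ z ∈ Ou D.R1 r ρ0 T, (γ s, z) ∈ A.X := fun s hs z hz =>
    G.reg s hs z (hsub hz)
  have hJ0 : A.Par (fun z => (γ 0, z)) (Ou D.R1 r ρ0 T) Jm := hm.par.mono fun z hz => by
    have h2 : r < z.im := hz.1.2
    exact ⟨hz.1.1, ne_of_gt (by linarith), hX 0 h0 z hz⟩
  obtain ⟨Y, hY, hY0⟩ := LS.Par.lift (A := A) (h := fun p : ℂ × ℝ => (γ p.2, p.1))
    (cont_fam G.cont _) (fun p hp => hX p.2 hp.2 p.1 hp.1) hJ0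
  have hY1 := par_at hY h1
  have hsol := sol_of_par' D hA hol ev_inj oOu hY1
  -- fill the squares above the height `r`
  have hK : IsClosed {z : ℂ | z.im ≤ r} := isClosed_le Complex.continuous_im continuous_const
  have hsd : sq D.R1 \ {z : ℂ | z.im ≤ r} = sq D.R1 ∩ up r := by
    ext z
    simp [up]
  set T' : Set ℂ := {c ∈ T | r + ρ1 ≤ c.im} with hT'
  have hOu : (sq D.R1 \ {z : ℂ | z.im ≤ r}) \ ⋃ c ∈ T', csqc c ρ0 = Ou D.R1 r ρ0 T := by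
    rw [hsd]
    unfold Ou
    ext z
    simp only [Set.mem_sdiff, mem_iUnion, not_exists]
    constructor
    · rintro ⟨h2, h3⟩
      refine ⟨h2, fun c hc hz => ?_⟩
      have h4 : r < z.im := h2.2
      have h5 := abs_le.1 hz.2
      rcases hT c hc with h6 | h6
      · linarith
      · rcases le_abs.1 h6 with h7 | h7
        · exact h3 c ⟨hc, h7⟩ hz
        · have := G.ρ01
          have := G.ρ0_pos
          linarith
    · rintro ⟨h2, h3⟩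
      exact ⟨h2, fun c hc hz => h3 c hc.1 hz⟩
  obtain ⟨g, hg1, hg2⟩ := (D.toPlane hA hol ev_inj).fill_squares hK T'
    (G.fin.subset fun c hc => hc.1) G.ρ0_pos G.ρ01
    (fun c hc z hz => ⟨(G.T_K c hc.1 hz).1, fun h2 => by
      have h3 := (abs_lt.1 hz.2).1
      have h4 : z.im ≤ r := h2
      have h5 := hc.2
      linarith⟩)
    (fun c hc c' hc' => G.disj c hc.1 c' hc'.1) (fun c hc => G.T_S c hc.1)
    (g := fun z => Y (z, 1)) (by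
      change (D.toPlane hA hol ev_inj).Sol ((sq D.R1 \ {z : ℂ | z.im ≤ r}) \ _) _
      rw [hOu]
      exact hsol)
  have hg1' : (D.toPlane hA hol ev_inj).Sol (sq D.R1 ∩ up r) g := by
    rw [← hsd]
    exact hg1
  have hg2' : EqOn g (fun z => Y (z, 1)) (Ou D.R1 r ρ0 T) := by
    rw [← hOu]
    exact hg2
  refine ⟨g, Y, hg1', hY, hY0, hg2', ?_⟩
  rintro z ⟨hz, hzr⟩
  have hz' : z ∈ sq D.R1 \ csq D.R0 := hz
  have hzO : z ∈ Ou D.R1 r ρ0 T := ⟨⟨hz'.1, hzr⟩, by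
    have := ann_sub' G.K_sub G.T_sub hz'
    exact this.2⟩
  rw [hg2' hzO]
  refine LS.Par.time_unique G.cont (z := z) (fun s hs => hX s hs z hzO) hY hum hzO hz' ?_ 1 h1
  rw [hY0 z hzO, hum0 z hz']

/-- The transport of a real cycle below the height `-r`. -/
theorem extBe (G : EvGeo A γ D v r ρ0 ρ1 T) (hT : ∀ c ∈ T, c.im = 0 ∨ r + ρ1 ≤ |c.im|)
    (hρ0r : ρ0 ≤ r) (hA : A.Lin) (hol : HolZ A ev)
    (ev_inj : ∀ x, (∀ i, ev i x = 0) → x = 0) {Jm : ℂ → F} {jm : ℝ → F}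
    (hm : RCyc A ev (γ 0) D.R0 D.R1 Jm jm) {um : ℂ × ℝ → F}
    (hum : A.Par (fun p : ℂ × ℝ => (γ p.2, p.1)) ((sq D.R1 \ csq D.R0) ×ˢ Icc 0 1) um)
    (hum0 : ∀ z ∈ sq D.R1 \ csq D.R0, um (z, 0) = Jm z) :
    ∃ (g : ℂ → F) (Y : ℂ × ℝ → F), (D.toPlane hA hol ev_inj).Sol (sq D.R1 ∩ dn (-r)) g ∧
      A.Par (fun p : ℂ × ℝ => (γ p.2, p.1)) (Od D.R1 r ρ0 T ×ˢ Icc 0 1) Y ∧
      (∀ z ∈ Od D.R1 r ρ0 T, Y (z, 0) = Jm z) ∧ EqOn g (fun z => Y (z, 1)) (Od D.R1 r ρ0 T) ∧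
      EqOn g (fun z => um (z, 1)) ((D.toPlane hA hol ev_inj).ann ∩ dn (-r)) := by
  obtain rfl := G.end_
  have hr := G.r_nonneg
  have h0 : (0 : ℝ) ∈ Icc (0 : ℝ) 1 := ⟨le_rfl, zero_le_one⟩
  have h1 : (1 : ℝ) ∈ Icc (0 : ℝ) 1 := ⟨zero_le_one, le_rfl⟩
  have hN : IsClosed (⋃ c ∈ T, csqc c ρ0) :=
    G.fin.isClosed_biUnion fun c _ => isClosed_csqc c ρ0
  have hsub : Od D.R1 r ρ0 T ⊆ (sq D.R1 \ csqc (v : ℂ) r) \ ⋃ c ∈ T, csqc c ρ0 :=
    fun z hz => ⟨⟨hz.1.1, dn_K hz.1.2⟩, hz.2⟩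
  have oOu : IsOpen (Od D.R1 r ρ0 T) := ((isOpen_sq _).inter (isOpen_dn _)).sdiff hN
  have hX : ∀ s ∈ Icc (0 : ℝ) 1, ∀ z ∈ Od D.R1 r ρ0 T, (γ s, z) ∈ A.X := fun s hs z hz =>
    G.reg s hs z (hsub hz)
  have hJ0 : A.Par (fun z => (γ 0, z)) (Od D.R1 r ρ0 T) Jm := hm.par.mono fun z hz => by
    have h2 : z.im < -r := hz.1.2
    exact ⟨hz.1.1, ne_of_lt (by linarith), hX 0 h0 z hz⟩
  obtain ⟨Y, hY, hY0⟩ := LS.Par.lift (A := A) (h := fun p : ℂ × ℝ => (γ p.2, p.1))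
    (cont_fam G.cont _) (fun p hp => hX p.2 hp.2 p.1 hp.1) hJ0
  have hY1 := par_at hY h1
  have hsol := sol_of_par' D hA hol ev_inj oOu hY1
  have hK : IsClosed {z : ℂ | -r ≤ z.im} := isClosed_le continuous_const Complex.continuous_im
  have hsd : sq D.R1 \ {z : ℂ | -r ≤ z.im} = sq D.R1 ∩ dn (-r) := by
    ext z
    simp [dn]
  set T' : Set ℂ := {c ∈ T | r + ρ1 ≤ -c.im} with hT'
  have hOu : (sq D.R1 \ {z : ℂ | -r ≤ z.im}) \ ⋃ c ∈ T', csqc c ρ0 = Od D.R1 r ρ0 T := by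
    rw [hsd]
    unfold Od
    ext z
    simp only [Set.mem_sdiff, mem_iUnion, not_exists]
    constructor
    · rintro ⟨h2, h3⟩
      refine ⟨h2, fun c hc hz => ?_⟩
      have h4 : z.im < -r := h2.2
      have h5 := abs_le.1 hz.2
      rcases hT c hc with h6 | h6
      · linarith
      · rcases le_abs.1 h6 with h7 | h7
        · have := G.ρ01
          have := G.ρ0_pos
          linarith
        · exact h3 c ⟨hc, h7⟩ hz
    · rintro ⟨h2, h3⟩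
      exact ⟨h2, fun c hc hz => h3 c hc.1 hz⟩
  obtain ⟨g, hg1, hg2⟩ := (D.toPlane hA hol ev_inj).fill_squares hK T'
    (G.fin.subset fun c hc => hc.1) G.ρ0_pos G.ρ01
    (fun c hc z hz => ⟨(G.T_K c hc.1 hz).1, fun h2 => by
      have h3 := (abs_lt.1 hz.2).2
      have h4 : -r ≤ z.im := h2
      have h5 := hc.2
      linarith⟩)
    (fun c hc c' hc' => G.disj c hc.1 c' hc'.1) (fun c hc => G.T_S c hc.1)
    (g := fun z => Y (z, 1)) (by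
      change (D.toPlane hA hol ev_inj).Sol ((sq D.R1 \ {z : ℂ | -r ≤ z.im}) \ _) _
      rw [hOu]
      exact hsol)
  have hg1' : (D.toPlane hA hol ev_inj).Sol (sq D.R1 ∩ dn (-r)) g := by
    rw [← hsd]
    exact hg1
  have hg2' : EqOn g (fun z => Y (z, 1)) (Od D.R1 r ρ0 T) := by
    rw [← hOu]
    exact hg2
  refine ⟨g, Y, hg1', hY, hY0, hg2', ?_⟩
  rintro z ⟨hz, hzr⟩
  have hz' : z ∈ sq D.R1 \ csq D.R0 := hz
  have hzO : z ∈ Od D.R1 r ρ0 T := ⟨⟨hz'.1, hzr⟩, by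
    have := ann_sub' G.K_sub G.T_sub hz'
    exact this.2⟩
  rw [hg2' hzO]
  refine LS.Par.time_unique G.cont (z := z) (fun s hs => hX s hs z hzO) hY hum hzO hz' ?_ 1 h1
  rw [hY0 z hzO, hum0 z hz']

end EvGeo

end Pool.Agent.QC
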