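import Pool.Agent.QC.Asm.EventAbs

/-!
# MP_7c50a9_lc: one event, abstract form: the transition of the vectors
-/

set_option autoImplicit false

open Set Metric Filter Topology

namespace Pool.Agent.QC

namespace EvPlane

variable {F : Type*} [AddCommGroup F] [Module ℂ F] (D : EvPlane F)

theorem sol_zero {z : ℂ} (hz : z ∈ D.C.ann) : D.sol 0 z = 0 := by
  have h := D.comb 0 0 0 0 D.V₀.zero_mem D.V₀.zero_mem hz
  simpa using h

theorem sol_add {w w' : F} (hw : w ∈ D.V₀) (hw' : w' ∈ D.V₀) {z : ℂ} (hz : z ∈ D.C.ann) :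
    D.sol (w + w') z = D.sol w z + D.sol w' z := by
  have h := D.comb 1 1 w w' hw hw' hz
  simpa using h

theorem sol_sub {w w' : F} (hw : w ∈ D.V₀) (hw' : w' ∈ D.V₀) {z : ℂ} (hz : z ∈ D.C.ann) :
    D.sol (w - w') z = D.sol w z - D.sol w' z := by
  have h := D.comb 1 (-1) w w' hw hw' hz
  simpa [sub_eq_add_neg] using h

theorem sol_sum {ι : Type*} (s : Finset ι) (u : ι → F) (hu : ∀ i ∈ s, u i ∈ D.V₀) {z : ℂ}
    (hz : z ∈ D.C.ann) : D.sol (∑ i ∈ s, u i) z = ∑ i ∈ s, D.sol (u i) z := by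
  classical
  induction s using Finset.induction_on with
  | empty => simpa using D.sol_zero hz
  | insert i s hi ih =>
    rw [Finset.sum_insert hi, Finset.sum_insert hi,
      D.sol_add (hu i (Finset.mem_insert_self _ _)) (D.V₀.sum_mem fun j hj =>
        hu j (Finset.mem_insert_of_mem hj)) hz, ih fun j hj => hu j (Finset.mem_insert_of_mem hj)]

end EvPlane

/-- Finite sums of parallel sections. -/
theorem LS.Par.sum {E W : Type*} [TopologicalSpace E] [AddCommGroup W] [Module ℂ W] {A : LS E W}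
    (hA : A.Lin) {T : Type*} [TopologicalSpace T] {h : T → E} {S : Set T}
    (hh : ContinuousOn h S) {ι : Type*} (s : Finset ι) (u : ι → T → W)
    (hu : ∀ i ∈ s, A.Par h S (u i)) : A.Par h S (fun t => ∑ i ∈ s, u i t) := by
  classical
  induction s using Finset.induction_on with
  | empty =>
    have h1 := LS.Par.of_sol (A := A) (h := h) (S := S) (hA.zero (N := univ) isOpen_univ)
      (fun _ _ => mem_univ _)
    refine h1.congr fun t _ => ?_
    simp
  | insert i s hi ih =>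
    have h1 := LS.Par.add hA hh (hu i (Finset.mem_insert_self _ _))
      (ih fun j hj => hu j (Finset.mem_insert_of_mem hj))
    refine h1.congr fun t _ => ?_
    simp [Finset.sum_insert hi]

variable {Q : Type*} [TopologicalSpace Q] {F : Type*} [AddCommGroup F] [Module ℂ F]
  {A : LS (Q × ℂ) F} {ι : Type} {ev : ι → F →ₗ[ℂ] ℂ}

/-- The event data for one input. `u i`: the vectors of the components before, `o k`: the vectors
of the components after the event, `fib k`: the components before which lie in `k`. -/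
structure EvAbs (A : LS (Q × ℂ) F) (ev : ι → F →ₗ[ℂ] ℂ) (γ : ℝ → Q) {q : Q}
    (pd : PlaneData A ev q) (v r ρ0 ρ1 : ℝ) (T : Set ℂ) (D : EvPlane F) (I κ : Type)
    (u : I → F) (o : κ → F) (fib : κ → Finset I) where
  lin : A.Lin
  hol : HolZ A ev
  inj : ∀ x, (∀ i, ev i x = 0) → x = 0
  geo : EvGeo A γ pd v r ρ0 ρ1 T
  pl : D.C = pd.toPlane lin hol inj
  far : ∀ w ∈ pd.S, w ≠ D.a → w ≠ D.b → w ∉ csqc (v : ℂ) r
  u_mem : ∀ i, u i ∈ D.V₀
  o_mem : ∀ k, o k ∈ D.V₀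
  /-- the cycles before the event -/
  Jm : I → ℂ → F
  jm : I → ℝ → F
  cm : ∀ i, RCyc A ev (γ 0) pd.R0 pd.R1 (Jm i) (jm i)
  /-- their transports -/
  um : I → ℂ × ℝ → F
  um_par : ∀ i, A.Par (fun p : ℂ × ℝ => (γ p.2, p.1)) ((sq pd.R1 \ csq pd.R0) ×ˢ Icc 0 1) (um i)
  um_zero : ∀ i, ∀ z ∈ sq pd.R1 \ csq pd.R0, um i (z, 0) = Jm i z
  um_one : ∀ i, ∀ z ∈ sq pd.R1 \ csq pd.R0, D.sol (u i) z = um i (z, 1)
  /-- the cycles after the event -/
  Jp : κ → ℂ → F
  jp : κ → ℝ → F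
  cp : ∀ k, RCyc A ev q pd.R0 pd.R1 (Jp k) (jp k)
  o_sol : ∀ k, ∀ z ∈ sq pd.R1 \ csq pd.R0, D.sol (o k) z = Jp k z
  /-- the cycles of the parts of the new components before the event -/
  Jt : κ → ℂ → F
  jt : κ → ℝ → F
  ct : ∀ k, RCyc A ev (γ 0) pd.R0 pd.R1 (Jt k) (jt k)
  Jt_sum : ∀ k, ∀ z ∈ sq pd.R1 \ csq pd.R0, Jt k z = ∑ i ∈ fib k, Jm i z
  tr : ∀ k, ∀ τ : ℝ, (τ : ℂ) ∈ (sq pd.R1 \ csqc (v : ℂ) r) \ ⋃ c ∈ T, csqc c ρ0 →
    ∃ x : ℝ → F, A.Par (fun s : ℝ => (γ s, (τ : ℂ))) (Icc 0 1) x ∧ x 0 = jt k τ ∧ x 1 = jp k τ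

namespace EvAbs

variable {γ : ℝ → Q} {q : Q} {pd : PlaneData A ev q} {v r ρ0 ρ1 : ℝ} {T : Set ℂ}
  {D : EvPlane F} {I κ : Type} {u : I → F} {o : κ → F} {fib : κ → Finset I}
  (H : EvAbs A ev γ pd v r ρ0 ρ1 T D I κ u o fib)

include H

theorem ann_eq : D.C.ann = sq pd.R1 \ csq pd.R0 := by
  rw [H.pl]
  rfl

theorem hFar : D.Far v r := by
  intro w hw ha hb
  have hw' : w ∈ pd.S := by
    have := hw
    rw [H.pl] at this
    exact this
  by_contra hcon
  push Not at hcon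
  refine H.far w hw' ha hb ⟨?_, ?_⟩
  · rw [Complex.ofReal_re]
    exact hcon.1
  · rw [Complex.ofReal_im, sub_zero]
    exact hcon.2

theorem diff_mem (k : κ) : o k - ∑ i ∈ fib k, u i ∈ D.V₀ :=
  D.V₀.sub_mem (H.o_mem k) (D.V₀.sum_mem fun i _ => H.u_mem i)

/-- (5.2) -/
theorem diff_EE (k : κ) : o k - ∑ i ∈ fib k, u i ∈ D.EE := by
  refine D.mem_EE_of_off H.hFar (H.diff_mem k) ?_
  have hc := cont_fam H.geo.cont (sq pd.R1 \ csq pd.R0)
  obtain ⟨g, hg1, hg2⟩ := H.geo.extOff H.lin H.hol H.inj (H.ct k) (H.cp k) (H.tr k)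
    (um := fun p => ∑ i ∈ fib k, H.um i p)
    (LS.Par.sum H.lin hc (fib k) H.um fun i _ => H.um_par i)
    (fun z hz => by
      rw [H.Jt_sum k z hz]
      exact Finset.sum_congr rfl fun i _ => H.um_zero i z hz)
  rw [H.pl]
  refine ⟨g, hg1, fun z hz => ?_⟩
  have hz' : z ∈ sq pd.R1 \ csq pd.R0 := hz
  have hz2 : z ∈ D.C.ann := by
    rw [H.ann_eq]
    exact hz'
  rw [hg2 hz, D.sol_sub (H.o_mem k) (D.V₀.sum_mem fun i _ => H.u_mem i) hz2,
    D.sol_sum _ _ (fun i _ => H.u_mem i) hz2, H.o_sol k z hz']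
  simp only
  congr 1
  exact Finset.sum_congr rfl fun i _ => (H.um_one i z hz').symm

theorem o_extUp (k : κ) : D.C.ExtUp (D.sol (o k)) := by
  obtain ⟨g, h1, h2⟩ := (H.cp k).extUp H.lin H.hol H.inj
  rw [H.pl]
  exact ⟨g, h1, fun z hz => by rw [h2 hz, H.o_sol k z hz.1]⟩

theorem o_extDn (k : κ) : D.C.ExtDn (D.sol (o k)) := by
  obtain ⟨g, h1, h2⟩ := (H.cp k).extDn H.lin H.hol H.inj
  rw [H.pl]
  exact ⟨g, h1, fun z hz => by rw [h2 hz, H.o_sol k z hz.1]⟩

/-- The condition at a real point from the label of the cycle. -/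
theorem o_pUp_real (k : κ) {a : ℂ} (ha : a.im = 0) (haS : a ∈ pd.S) {ε : ℝ} (hε : 0 < ε)
    (hb : ball a ε ⊆ sq pd.R1) (hS : ball a ε ∩ pd.S = {a}) {K : ℂ → F}
    (hK : A.Par (fun z => (q, z)) (ball a ε \ {a}) K)
    (hKJ : EqOn K (H.Jp k) (ball a ε ∩ up 0)) {lft : Bool} :
    D.C.PUp lft (D.sol (o k)) a := by
  obtain ⟨g, h1, h2⟩ := (H.cp k).sol_up H.lin H.hol H.inj
  obtain ⟨K', h3, h4⟩ := sol_of_par pd H.lin H.hol H.inj (U := ball a ε) isOpen_ball hb
    (g := K) (hK.mono (fun z hz => ⟨hz.1, fun h => hz.2 (by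
      rw [show z = a from h]; exact haS)⟩))
  rw [H.pl]
  refine (pd.toPlane H.lin H.hol H.inj).pUp_of_real ha h1 (fun z hz => ?_) hε h3
    (fun z hz => ?_)
  · rw [h2 ⟨⟨hz.1.1, hz.2⟩, (pd.toPlane H.lin H.hol H.inj).S_disj_ann hz.1⟩,
      H.o_sol k z hz.1]
  · have hzS : z ∉ pd.S := by
      intro h
      have h5 : z ∈ ball a ε ∩ pd.S := ⟨hz.1, h⟩
      rw [hS] at h5
      have h6 : z = a := h5
      have h7 : 0 < z.im := hz.2
      rw [h6, ha] at h7
      exact lt_irrefl _ h7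
    rw [h4 ⟨hz.1, hzS⟩, h2 ⟨⟨hb hz.1, hz.2⟩, hzS⟩, hKJ hz]

/-- Class `other`, complex pair. -/
theorem other_cplx (hc : D.Cplx) (π : I ≃ κ) (hfib : ∀ k i, i ∈ fib k ↔ π i = k) :
    Trans ⟨.other, D.EE, D.UU, D.LL⟩ u o := by
  refine ⟨D.disj_EU hc, π, fun i => ⟨?_, D.mem_UU_of_extUp hc (H.o_mem _) (H.o_extUp _)⟩⟩
  have h1 := H.diff_EE (π i)
  have h2 : fib (π i) = {i} := by
    ext j
    rw [hfib, Finset.mem_singleton, π.injective.eq_iff]
  rwa [h2, Finset.sum_singleton] at h1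

/-- Class `other`, real pair. -/
theorem other_real (hc : D.RealP) (hlab : ∀ k, D.C.PUp true (D.sol (o k)) D.a) (π : I ≃ κ)
    (hfib : ∀ k i, i ∈ fib k ↔ π i = k) : Trans ⟨.other, D.EE, D.UU, D.LL⟩ u o := by
  refine ⟨D.disj_EU_real hc, π, fun i => ⟨?_, D.mem_UU_real (H.o_mem _) (H.o_extUp _) (hlab _)⟩⟩
  have h1 := H.diff_EE (π i)
  have h2 : fib (π i) = {i} := by
    ext j
    rw [hfib, Finset.mem_singleton, π.injective.eq_iff]
  rwa [h2, Finset.sum_singleton] at h1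

/-- Class `zero`. -/
theorem zero (hc : D.RealP) (π : Option I ≃ κ) (hfib : ∀ k i, i ∈ fib k ↔ π (some i) = k)
    (hne : o (π none) ≠ 0) (hlab : ∀ i, D.C.PUp true (D.sol (o (π (some i)))) D.a) :
    Trans ⟨.zero, D.EE, D.UU, D.LL⟩ u o := by
  have h0 : fib (π none) = ∅ := by
    ext j
    rw [hfib, π.injective.eq_iff]
    simp
  have hs : ∀ i, fib (π (some i)) = {i} := by
    intro i
    ext j
    rw [hfib, π.injective.eq_iff]
    simp
  refine ⟨D.disj_EU_real hc, fun x hx y hy hx0 => D.EE_dim hc hx hy hx0, π, ?_, hne,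
    fun i => ⟨?_, D.mem_UU_real (H.o_mem _) (H.o_extUp _) (hlab i)⟩⟩
  · have h1 := H.diff_EE (π none)
    rwa [h0, Finset.sum_empty, sub_zero] at h1
  · have h1 := H.diff_EE (π (some i))
    rwa [hs, Finset.sum_singleton] at h1

/-- The label at the upper point after the event. -/
theorem label_up {Z Z' : Set ℂ} {w a : ℂ} (L : LabData A ev γ pd v r Z Z' w a)
    (hT : ∀ c ∈ T, c.im = 0 ∨ r + ρ1 ≤ |c.im|) (hρ0r : ρ0 ≤ r)
    (htop : (⟨a.re, r⟩ : ℂ) ∈ Z) (hZT : ∀ c ∈ T, Disjoint Z (csqc c ρ0)) (i : I) {lft : Bool} :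
    D.C.PUp lft (D.sol (u i)) a ↔
      ∃ r' > 0, ∃ K, A.Par (fun z => (γ 0, z)) (ball w r' \ {w}) K ∧
        EqOn K (H.Jm i) (ball w r' ∩ up 0) := by
  obtain ⟨g, Y, h1, h2, h3, h4, h5⟩ := H.geo.extAb hT hρ0r H.lin H.hol H.inj (H.cm i)
    (H.um_par i) (H.um_zero i)
  have hsub : Z ∩ up r ⊆ EvGeo.Ou pd.R1 r ρ0 T := by
    rintro z ⟨hz1, hz2⟩
    refine ⟨⟨L.Z_R1 hz1, hz2⟩, ?_⟩
    simp only [mem_iUnion, not_exists]
    exact fun c hc h => Set.disjoint_left.1 (hZT c hc) hz1 h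
  have key := L.up H.lin H.hol H.inj (lft := lft) (J := D.sol (u i)) (g := g) htop h1
    (fun z hz => by
      rw [h5 hz]
      exact (H.um_one i z hz.1).symm)
    (Y := Y) (h2.mono (prod_mono hsub le_rfl)) (h4.mono hsub) (Jm := H.Jm i)
    ((H.cm i).par.mono ?_) (fun z hz => h3 z (hsub hz))
  · rw [H.pl]
    exact key
  · rintro z ⟨hz1, hz2⟩
    have h6 : 0 < z.im := hz2
    refine ⟨L.Z_R1 hz1, ne_of_gt h6, L.reg_w z hz1 fun h => ?_⟩
    rw [h, L.w_im] at h6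
    exact lt_irrefl _ h6

/-- The label at the lower point after the event. -/
theorem label_dn {Z Z' : Set ℂ} {w a : ℂ} (L : LabData A ev γ pd v r Z Z' w a)
    (hT : ∀ c ∈ T, c.im = 0 ∨ r + ρ1 ≤ |c.im|) (hρ0r : ρ0 ≤ r)
    (htop : (⟨a.re, -r⟩ : ℂ) ∈ Z) (hZT : ∀ c ∈ T, Disjoint Z (csqc c ρ0)) (i : I)
    {lft : Bool} :
    D.C.PDn lft (D.sol (u i)) a ↔
      ∃ r' > 0, ∃ K, A.Par (fun z => (γ 0, z)) (ball w r' \ {w}) K ∧
        EqOn K (H.Jm i) (ball w r' ∩ dn 0) := by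
  obtain ⟨g, Y, h1, h2, h3, h4, h5⟩ := H.geo.extBe hT hρ0r H.lin H.hol H.inj (H.cm i)
    (H.um_par i) (H.um_zero i)
  have hsub : Z ∩ dn (-r) ⊆ EvGeo.Od pd.R1 r ρ0 T := by
    rintro z ⟨hz1, hz2⟩
    refine ⟨⟨L.Z_R1 hz1, hz2⟩, ?_⟩
    simp only [mem_iUnion, not_exists]
    exact fun c hc h => Set.disjoint_left.1 (hZT c hc) hz1 h
  have key := L.dn H.lin H.hol H.inj (lft := lft) (J := D.sol (u i)) (g := g) htop h1
    (fun z hz => by
      rw [h5 hz]
      exact (H.um_one i z hz.1).symm)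
    (Y := Y) (h2.mono (prod_mono hsub le_rfl)) (h4.mono hsub) (Jm := H.Jm i)
    ((H.cm i).par.mono ?_) (fun z hz => h3 z (hsub hz))
  · rw [H.pl]
    exact key
  · rintro z ⟨hz1, hz2⟩
    have h6 : z.im < 0 := hz2
    refine ⟨L.Z_R1 hz1, ne_of_lt h6, L.reg_w z hz1 fun h => ?_⟩
    rw [h, L.w_im] at h6
    exact lt_irrefl _ h6

/-- Class `one`. -/
theorem one (hc : D.Cplx) (hT : ∀ c ∈ T, c.im = 0 ∨ r + ρ1 ≤ |c.im|) (hρ0r : ρ0 ≤ r)
    (hIm : ∀ w ∈ pd.S, w ≠ D.a → w ≠ D.b → w.im = 0 ∨ r < |w.im|) (im ip : I)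
    (him : ∀ i, D.C.PUp true (D.sol (u i)) D.a ↔ i ≠ im)
    (hip : ∀ i, D.C.PDn true (D.sol (u i)) D.b ↔ i ≠ ip)
    (π : I → κ) (hs : Function.Surjective π) (hfib : ∀ k i, i ∈ fib k ↔ π i = k)
    (hπ : ∀ i j, π i = π j ↔ i = j ∨ ((i = im ∨ i = ip) ∧ (j = im ∨ j = ip))) :
    Trans ⟨.one, D.EE, D.UU, D.LL⟩ u o := by
  classical
  have hb0 := hc.b_neg
  have ha0 := hc.a_pos
  have hE : ∀ i, ∀ s : Finset I, (∀ j, j ∈ s ↔ π j = π i) → o (π i) - ∑ j ∈ s, u j ∈ D.EE := by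
    intro i s hsi
    have h1 := H.diff_EE (π i)
    have h2 : fib (π i) = s := by
      ext j
      rw [hfib, hsi]
    rwa [h2] at h1
  refine ⟨D.disj_EU hc, D.disj_EL hc, fun k => ⟨D.mem_UU_of_extUp hc (H.o_mem k) (H.o_extUp k),
    D.mem_LL_of_extDn hc (H.o_mem k) (H.o_extDn k)⟩, im, ip, fun i => ?_, fun i => ?_, π, hs, hπ,
    fun i hi1 hi2 => ?_, fun he => ?_, fun he => ?_⟩
  · rw [← him i, D.mem_UU]
    refine ⟨fun h => h.2 D.a D.ha (Or.inr rfl), fun h' => ⟨H.u_mem i, fun w hw hw' => ?_⟩⟩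
    by_cases hwa : w = D.a
    · rw [hwa]; exact h'
    · have hpos : 0 < w.im := by
        rcases hw' with h1 | h1
        · exact h1
        · exact absurd h1 hwa
      have hwb : w ≠ D.b := fun he => by rw [he] at hpos; linarith
      have hwS : w ∈ pd.S := by
        have := hw
        rw [H.pl] at this
        exact this
      obtain ⟨g, Y, h1, h2, h3, h4, h5⟩ := H.geo.extAb hT hρ0r H.lin H.hol H.inj (H.cm i)
        (H.um_par i) (H.um_zero i)
      rw [H.pl]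
      refine PlaneSys.ExtAb.pUp (h := r) _ ⟨g, h1, fun z hz => ?_⟩ ?_
      · rw [h5 hz]
        exact (H.um_one i z hz.1).symm
      · rcases hIm w hwS hwa hwb with h6 | h6
        · rw [h6] at hpos
          exact absurd hpos (lt_irrefl _)
        · rwa [abs_of_pos hpos] at h6
  · rw [← hip i, D.mem_LL]
    refine ⟨fun h => h.2 D.b D.hb (Or.inr rfl), fun h' => ⟨H.u_mem i, fun w hw hw' => ?_⟩⟩
    by_cases hwb : w = D.b
    · rw [hwb]; exact h'
    · have hneg : w.im < 0 := by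
        rcases hw' with h1 | h1
        · exact h1
        · exact absurd h1 hwb
      have hwa : w ≠ D.a := fun he => by rw [he] at hneg; linarith
      have hwS : w ∈ pd.S := by
        have := hw
        rw [H.pl] at this
        exact this
      obtain ⟨g, Y, h1, h2, h3, h4, h5⟩ := H.geo.extBe hT hρ0r H.lin H.hol H.inj (H.cm i)
        (H.um_par i) (H.um_zero i)
      rw [H.pl]
      refine PlaneSys.ExtBe.pDn (h := r) _ ⟨g, h1, fun z hz => ?_⟩ ?_
      · rw [h5 hz]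
        exact (H.um_one i z hz.1).symm
      · rcases hIm w hwS hwa hwb with h6 | h6
        · rw [h6] at hneg
          exact absurd hneg (lt_irrefl _)
        · rw [abs_of_neg hneg] at h6
          linarith
  · have := hE i {i} (fun j => by
      rw [Finset.mem_singleton, hπ]
      constructor
      · intro h
        exact Or.inl h
      · rintro (h | ⟨-, h | h⟩)
        · exact h
        · exact absurd h hi1
        · exact absurd h hi2)
    rwa [Finset.sum_singleton] at this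
  · have := hE im {im} (fun j => by
      rw [Finset.mem_singleton, hπ]
      constructor
      · intro h
        exact Or.inl h
      · rintro (h | ⟨h | h, -⟩)
        · exact h
        · exact h
        · rw [h, he])
    rwa [Finset.sum_singleton] at this
  · have := hE im {im, ip} (fun j => by
      rw [Finset.mem_insert, Finset.mem_singleton, hπ]
      constructor
      · intro h
        exact Or.inr ⟨h, Or.inl rfl⟩
      · rintro (h | ⟨h, -⟩)
        · exact Or.inl h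
        · exact h)
    rwa [Finset.sum_pair he] at this

end EvAbs

end Pool.Agent.QC
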