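import Pool.Agent.QC.Asm.EventDefs
import Pool.Agent.QC.Asm.UJLab
import Pool.Agent.QC.Asm.EventTr

/-!
# MP_7c50a9_lc: one event: from the geometry to the abstract event data
-/

set_option autoImplicit false

namespace Pool.Agent.QC

open MvPolynomial Filter Topology Set Metric

variable {n l : ℕ}

namespace EvC

/-! ## The half circle -/

theorem thc_zero (tv κ : ℝ) : thc tv κ 0 = ((tv - κ : ℝ) : ℂ) := by
  simp [thc]

theorem thc_eq (tv κ s : ℝ) : thc tv κ s =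
    tv - κ * Complex.exp (((-(Real.pi * s) : ℝ) : ℂ) * Complex.I) := by
  rw [thc]
  push_cast
  ring_nf

theorem thc_one (tv κ : ℝ) : thc tv κ 1 = ((tv + κ : ℝ) : ℂ) := by
  have h : Complex.exp (-(Real.pi : ℂ) * Complex.I) = -1 := by
    rw [neg_mul, Complex.exp_neg, Complex.exp_pi_mul_I]
    norm_num
  have h2 : (-(Real.pi * (1 : ℝ) : ℝ) : ℂ) = -(Real.pi : ℂ) := by push_cast; ring
  rw [thc, h2, h]
  push_cast
  ring

theorem continuous_thc (tv κ : ℝ) : Continuous (thc tv κ) := by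
  unfold thc
  fun_prop

theorem thc_mem {tv κ : ℝ} (hκ : 0 < κ) {s : ℝ} (hs : s ∈ Icc (0 : ℝ) 1) :
    thc tv κ s ∈ hc tv κ := by
  refine ⟨?_, ?_⟩
  · rw [thc_eq, show (tv : ℂ) - κ * Complex.exp (((-(Real.pi * s) : ℝ) : ℂ) * Complex.I) - tv =
      -(κ * Complex.exp (((-(Real.pi * s) : ℝ) : ℂ) * Complex.I)) by ring, norm_neg, norm_mul,
      Complex.norm_exp_ofReal_mul_I, mul_one, Complex.norm_real, Real.norm_eq_abs, abs_of_pos hκ]
  · rw [thc_eq, Complex.sub_im, Complex.ofReal_im, Complex.mul_im, Complex.ofReal_re,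
      Complex.ofReal_im, Complex.exp_ofReal_mul_I_im, Real.sin_neg]
    have : 0 ≤ Real.sin (Real.pi * s) := by
      refine Real.sin_nonneg_of_nonneg_of_le_pi (mul_nonneg Real.pi_pos.le hs.1) ?_
      have := mul_le_mul_of_nonneg_left hs.2 Real.pi_pos.le
      linarith
    have := mul_nonneg hκ.le this
    linarith

theorem hc_sub_hd (tv κ : ℝ) : hc tv κ ⊆ hd tv κ := fun _ h => ⟨h.1.le, h.2⟩

theorem hc_left (tv : ℝ) {κ : ℝ} (hκ : 0 < κ) : ((tv - κ : ℝ) : ℂ) ∈ hc tv κ := by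
  rw [← thc_zero]
  exact thc_mem hκ ⟨le_rfl, zero_le_one⟩

theorem hc_right (tv : ℝ) {κ : ℝ} (hκ : 0 < κ) : ((tv + κ : ℝ) : ℂ) ∈ hc tv κ := by
  rw [← thc_one]
  exact thc_mem hκ ⟨zero_le_one, le_rfl⟩

/-! ## Squares -/

theorem csqc_mono {c : ℂ} {r r' : ℝ} (h : r ≤ r') : csqc c r ⊆ csqc c r' :=
  fun _ hz => ⟨hz.1.trans h, hz.2.trans h⟩

theorem sqc_sub_csqc (c : ℂ) (r : ℝ) : sqc c r ⊆ csqc c r := fun _ hz => ⟨hz.1.le, hz.2.le⟩

theorem sqc_mono {c : ℂ} {r r' : ℝ} (h : r ≤ r') : sqc c r ⊆ sqc c r' :=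
  fun _ hz => ⟨hz.1.trans_le h, hz.2.trans_le h⟩

theorem sq_sub_csq (R : ℝ) : sq R ⊆ csq R := fun _ hz => ⟨hz.1.le, hz.2.le⟩

theorem sq_mono {R R' : ℝ} (h : R ≤ R') : sq R ⊆ sq R' :=
  fun _ hz => ⟨hz.1.trans_le h, hz.2.trans_le h⟩

/-! ## Real cycles -/

theorem rcyc_of {P : Prm} {q : RTup n l} {O : Set (Fin (n + 1) → ℝ)} (h : Pr q O)
    (hs : SingF (P.f (tC q)) = ∅) {R0 R1 : ℝ} (h0 : 0 < R0)
    (hR : ∀ x ∈ O, 0 ≤ fR 0 0 q x → |x (Fin.last n)| < R0)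
    (hX : ∀ z ∈ sann R0 R1, z ∉ SigF (P.f (tC q))) :
    RCyc (ULS P n l) evQ (tC q) R0 R1 (UJ P q O) (UA P q O) := by
  obtain ⟨R, hR0, hRR, hR'⟩ := exists_boundR h h0 hR
  have h1 := UJ_par P h hs hR'
  refine ⟨h1.mono ?_, h1.mono ?_, fun τ _ hτ => UJ_jump P h hs ((mem_ULS_X P).1 hτ).2⟩
  · rintro z ⟨-, hz1, hz2⟩
    exact ⟨Or.inl hz1, ((mem_ULS_X P).1 hz2).2⟩
  · intro z hz
    refine ⟨?_, hX z hz⟩
    by_cases him : z.im = 0
    · right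
      by_contra hcon
      push Not at hcon
      refine hz.2 ⟨by linarith, ?_⟩
      rw [him, abs_zero]
      exact h0.le
    · exact Or.inl him

/-! ## Components -/

theorem Wset_mono (q : RTup n l) {s t : ℝ} (h : s ≤ t) : Wset q s ⊆ Wset q t := by
  intro x hx
  rw [Ev.mem_Wset] at hx ⊢
  exact ⟨hx.1, hx.2.trans_le (Ev.ff_mono' h hx.1)⟩

theorem Cmp_mem {W : Set (Fin (n + 1) → ℝ)} (U : Cmp W) :
    (U : Set (Fin (n + 1) → ℝ)) ∈ S4.comps W := by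
  obtain ⟨U, hU⟩ := U
  rw [Ev.Cmp_eq_comps] at hU
  exact hU

section Up

variable {q : RTup n l} {s t : ℝ}

theorem exists_upC (h : s ≤ t) (U : Cmp (Wset q s)) :
    ∃! O, O ∈ S4.comps (Wset q t) ∧ (U : Set (Fin (n + 1) → ℝ)) ⊆ O :=
  S4.exists_unique_up (Wset_mono q h) (Cmp_mem U)

/-- The component after the event which contains a given one. -/
noncomputable def upC (h : s ≤ t) (U : Cmp (Wset q s)) : Cmp (Wset q t) :=
  ⟨(exists_upC h U).choose, by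
    rw [Ev.Cmp_eq_comps]
    exact (exists_upC h U).choose_spec.1.1⟩

theorem sub_upC (h : s ≤ t) (U : Cmp (Wset q s)) :
    (U : Set (Fin (n + 1) → ℝ)) ⊆ (upC h U : Set (Fin (n + 1) → ℝ)) :=
  (exists_upC h U).choose_spec.1.2

theorem upC_iff (h : s ≤ t) (U : Cmp (Wset q s)) (O : Cmp (Wset q t)) :
    (U : Set (Fin (n + 1) → ℝ)) ⊆ (O : Set (Fin (n + 1) → ℝ)) ↔ upC h U = O := by
  constructor
  · intro hUO
    exact Subtype.ext ((exists_upC h U).choose_spec.2 O ⟨Cmp_mem O, hUO⟩).symm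
  · rintro rfl
    exact sub_upC h U

/-- Components are equal if they have a common point. -/
theorem Cmp_eq {W : Set (Fin (n + 1) → ℝ)} {U V : Cmp W} {x : Fin (n + 1) → ℝ}
    (hU : x ∈ (U : Set (Fin (n + 1) → ℝ))) (hV : x ∈ (V : Set (Fin (n + 1) → ℝ))) : U = V :=
  Subtype.ext (S4.comps_eq_of_mem (Cmp_mem U) (Cmp_mem V) hU hV)

theorem Cmp_nonempty {W : Set (Fin (n + 1) → ℝ)} (U : Cmp W) :
    (U : Set (Fin (n + 1) → ℝ)).Nonempty := S4.comps_nonempty (Cmp_mem U)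

theorem Cmp_subset {W : Set (Fin (n + 1) → ℝ)} (U : Cmp W) :
    (U : Set (Fin (n + 1) → ℝ)) ⊆ W := S4.comps_subset (Cmp_mem U)

/-- The component of a point. -/
theorem exists_Cmp {W : Set (Fin (n + 1) → ℝ)} {x : Fin (n + 1) → ℝ} (hx : x ∈ W) :
    ∃ U : Cmp W, x ∈ (U : Set (Fin (n + 1) → ℝ)) :=
  ⟨⟨connectedComponentIn W x, x, hx, rfl⟩, mem_connectedComponentIn hx⟩

end Up

end EvC

open EvC

/-! ## The geometry -/

section Geo

variable {P : Prm} {q : RTup n l} {tv κ vn R0 R1 r' r ρ0 ρ1 : ℝ} {T : Set ℂ}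

theorem Geo.not_sig (G : Geo P q tv κ vn R0 R1 r' r ρ0 ρ1 T) {t : ℂ} (ht : t ∈ hd tv κ) {z : ℂ}
    (hz : z ∈ (sq R1 \ csqc (vn : ℂ) r') \ ⋃ c ∈ T, csqc c ρ0) :
    z ∉ SigF (P.f (addT (tC q) t)) := by
  intro h
  rcases G.sig t ht z h hz.1.1 with h1 | ⟨c, hc, h1⟩
  · exact hz.1.2 (sqc_sub_csqc _ _ h1)
  · exact hz.2 (mem_biUnion hc (sqc_sub_csqc _ _ h1))

theorem Geo.csub (G : Geo P q tv κ vn R0 R1 r' r ρ0 ρ1 T) {ρ : ℝ} (hρ : ρ ≤ r) :
    csqc (vn : ℂ) ρ ⊆ csq R0 := (csqc_mono hρ).trans (G.sqs.Ksub.trans (sq_sub_csq _))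

theorem Geo.Tsub' (G : Geo P q tv κ vn R0 R1 r' r ρ0 ρ1 T) :
    ∀ c ∈ T, csqc c ρ0 ⊆ csq R0 := fun c hc =>
  (csqc_mono G.sqs.ρ_lt.le).trans ((G.sqs.Tsub c hc).trans (sq_sub_csq _))

theorem Geo.ann (G : Geo P q tv κ vn R0 R1 r' r ρ0 ρ1 T) {t : ℂ} (ht : t ∈ hd tv κ) {z : ℂ}
    (hz : z ∈ sann R0 R1) : z ∉ SigF (P.f (addT (tC q) t)) :=
  G.not_sig ht (EvGeo.ann_sub' (G.csub G.sqs.r_lt.le) G.Tsub' hz)

theorem Geo.R01 (G : Geo P q tv κ vn R0 R1 r' r ρ0 ρ1 T) (h0 : 0 < R0) : R0 < R1 := by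
  have := G.R_lt
  linarith

end Geo

/-! ## The conversion -/

section Conv

variable {P : Prm} {q₀ : Tup n l} {z₀ : ℂ} {R0 R1 : ℝ} {m : ℕ} {γ : ℕ → ℝ → Tup n l}
  {D : EvD P q₀ z₀ R0 R1 m γ} {q : RTup n l} {tv κ vn t' r' r ρ0 ρ1 : ℝ} {T : Set ℂ}
  {u : Cmp (Wset q tv) → Fnl (n + 1)} {o : Cmp (Wset q t') → Fnl (n + 1)}

/-- The path of the event. -/
noncomputable def evG (q : RTup n l) (tv κ : ℝ) (s : ℝ) : Tup n l := addT (tC q) (thc tv κ s)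

theorem evG_zero (q : RTup n l) (tv κ : ℝ) : evG q tv κ 0 = tC (addT q (tv - κ)) := by
  rw [evG, thc_zero, Cyc.tC_addT]

theorem evG_one (q : RTup n l) (tv κ : ℝ) : evG q tv κ 1 = tC (addT q (tv + κ)) := by
  rw [evG, thc_one, Cyc.tC_addT]

theorem continuous_evG (q : RTup n l) (tv κ : ℝ) : Continuous (evG q tv κ) :=
  (Cyc.continuous_addTC (tC q)).comp (continuous_thc tv κ)

theorem EvIn.ann_eq (D : EvD P q₀ z₀ R0 R1 m γ) : sq D.pd.R1 \ csq D.pd.R0 = sann R0 R1 := by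
  rw [D.R0_eq, D.R1_eq]
  rfl

/-- The geometry. -/
theorem EvIn.evGeo (E : EvIn D q tv κ vn t' r' r ρ0 ρ1 T u o) {ρ : ℝ} (h1 : r' < ρ)
    (h2 : ρ ≤ r) : EvGeo (ULS P n l) (evG q tv κ) D.pd vn ρ ρ0 ρ1 T where
  cont := (continuous_evG q tv κ).continuousOn
  end_ := by rw [evG_one, E.fin]
  r_nonneg := (E.geo.sqs.r'_pos.trans h1).le
  K_sub := by
    rw [D.R0_eq]
    exact E.geo.csub h2
  fin := E.geo.sqs.fin
  ρ0_pos := E.geo.sqs.ρ_pos
  ρ01 := E.geo.sqs.ρ_lt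
  T_sub := by
    rw [D.R0_eq]
    exact E.geo.Tsub'
  T_K := by
    intro c hc z hz
    rw [D.R1_eq]
    exact ⟨sq_mono (E.geo.R01 E.R0_pos).le (E.geo.sqs.Tsub c hc (sqc_sub_csqc _ _ hz)),
      fun h => Set.disjoint_left.1 (E.geo.sqs.disK c hc) (sqc_sub_csqc _ _ hz) (csqc_mono h2 h)⟩
  disj := fun c hc c' hc' hne =>
    (E.geo.sqs.dis c hc c' hc' hne).mono (sqc_sub_csqc _ _) (sqc_sub_csqc _ _)
  T_S := by
    intro c hc
    obtain ⟨w, hw1, hw2, hw3⟩ := E.geo.one c hc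
    have hSw : ∀ x, x ∈ D.pd.S → x ∈ SigF (P.f (tC (addT q (tv + κ)))) := by
      intro x hx
      rw [D.S_eq, E.fin] at hx
      exact hx.1
    refine ⟨w, ?_, hw2, fun x hx hxc => hw3 x (hSw x hx) (sqc_sub_csqc _ _ hxc)⟩
    rw [D.S_eq, E.fin]
    exact ⟨hw1, sq_mono (E.geo.R01 E.R0_pos).le (E.geo.sqs.Tsub c hc
      (csqc_mono E.geo.sqs.ρ_lt.le (sqc_sub_csqc _ _ hw2)))⟩
  reg := by
    intro s hs z hz
    rw [D.R1_eq] at hz
    have hs' := thc_mem (tv := tv) E.geo.κ_pos hs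
    exact (mem_ULS_X P).2 ⟨E.geo.sing _ hs', E.geo.not_sig (hc_sub_hd _ _ hs')
      ⟨⟨hz.1.1, fun h => hz.1.2 (csqc_mono h1.le h)⟩, hz.2⟩⟩

theorem EvIn.kt (E : EvIn D q tv κ vn t' r' r ρ0 ρ1 T u o) : tv < t' := by
  have := E.geo.κ_pos
  have := E.lt
  linarith

theorem EvIn.sing_left (E : EvIn D q tv κ vn t' r' r ρ0 ρ1 T u o) :
    SingF (P.f (tC (addT q (tv - κ)))) = ∅ := by
  rw [Cyc.tC_addT]
  exact E.geo.sing _ (hc_left tv E.geo.κ_pos)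

theorem EvIn.sing_right (E : EvIn D q tv κ vn t' r' r ρ0 ρ1 T u o) :
    SingF (P.f (tC (addT q (tv + κ)))) = ∅ := by
  rw [Cyc.tC_addT]
  exact E.geo.sing _ (hc_right tv E.geo.κ_pos)

/-- The components before the event are proper. -/
theorem EvIn.pr_before (E : EvIn D q tv κ vn t' r' r ρ0 ρ1 T u o) (U : Cmp (Wset q tv)) :
    Pr (addT q (tv - κ)) (U : Set (Fin (n + 1) → ℝ)) := by
  have := E.geo.κ_pos
  exact Pr_comp E.comp (by linarith) (E.kt.le.trans E.le) U.2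

theorem EvIn.pr_left (E : EvIn D q tv κ vn t' r' r ρ0 ρ1 T u o) (O : Cmp (Wset q t')) :
    Pr (addT q (tv - κ)) (O : Set (Fin (n + 1) → ℝ)) := by
  have := E.geo.κ_pos
  exact Pr_comp E.comp (by linarith [E.kt]) E.le O.2

theorem EvIn.pr_after (E : EvIn D q tv κ vn t' r' r ρ0 ρ1 T u o) (O : Cmp (Wset q t')) :
    Pr (addT q (tv + κ)) (O : Set (Fin (n + 1) → ℝ)) :=
  Pr_comp E.comp E.lt E.le O.2

theorem EvIn.bdd_left (E : EvIn D q tv κ vn t' r' r ρ0 ρ1 T u o) (x : Fin (n + 1) → ℝ)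
    (hx : inOm q x) (h : 0 ≤ fR 0 0 (addT q (tv - κ)) x) : |x (Fin.last n)| < R0 := by
  have := E.geo.κ_pos
  exact E.geo.bdd _ (by linarith) x hx h

theorem EvIn.in_before (E : EvIn D q tv κ vn t' r' r ρ0 ρ1 T u o) (U : Cmp (Wset q tv))
    {x : Fin (n + 1) → ℝ} (hx : x ∈ (U : Set (Fin (n + 1) → ℝ))) : inOm q x :=
  (inOm_addT q (tv - κ) x).1 ((E.pr_before U).sub x hx)

theorem EvIn.in_after (E : EvIn D q tv κ vn t' r' r ρ0 ρ1 T u o) (O : Cmp (Wset q t'))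
    {x : Fin (n + 1) → ℝ} (hx : x ∈ (O : Set (Fin (n + 1) → ℝ))) : inOm q x :=
  (inOm_addT q (tv + κ) x).1 ((E.pr_after O).sub x hx)

theorem EvIn.ann_left (E : EvIn D q tv κ vn t' r' r ρ0 ρ1 T u o) :
    ∀ z ∈ sann R0 R1, z ∉ SigF (P.f (tC (addT q (tv - κ)))) := by
  intro z hz
  rw [Cyc.tC_addT]
  exact E.geo.ann (hc_sub_hd _ _ (hc_left tv E.geo.κ_pos)) hz

theorem EvIn.ann_right (E : EvIn D q tv κ vn t' r' r ρ0 ρ1 T u o) :
    ∀ z ∈ sann R0 R1, z ∉ SigF (P.f (tC (addT q (tv + κ)))) := by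
  intro z hz
  rw [Cyc.tC_addT]
  exact E.geo.ann (hc_sub_hd _ _ (hc_right tv E.geo.κ_pos)) hz

/-- The part of a new component before the event. -/
theorem EvIn.union (E : EvIn D q tv κ vn t' r' r ρ0 ρ1 T u o) (O : Cmp (Wset q t'))
    (s : Finset (Cmp (Wset q tv))) (hs : ∀ U, U ∈ s ↔
      (U : Set (Fin (n + 1) → ℝ)) ⊆ (O : Set (Fin (n + 1) → ℝ))) {z : ℂ}
    (hz : z ∈ sann R0 R1) : UJ P (addT q (tv - κ)) O z =
      ∑ U ∈ s, UJ P (addT q (tv - κ)) (U : Set (Fin (n + 1) → ℝ)) z := by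
  classical
  have hκ := E.geo.κ_pos
  obtain ⟨R, hR0, hRR, hR'⟩ := exists_boundR (E.pr_left O) E.R0_pos fun x hx h =>
    E.bdd_left x (E.in_after O hx) h
  have hz' : z.im ≠ 0 ∨ R < |z.re| := by
    by_cases him : z.im = 0
    · right
      by_contra hcon
      push Not at hcon
      refine hz.2 ⟨by linarith, ?_⟩
      rw [him, abs_zero]
      exact E.R0_pos.le
    · exact Or.inl him
  rw [UJ_union (P := P) (q := addT q (tv - κ)) (O := (O : Set (Fin (n + 1) → ℝ)))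
    (s.map (Function.Embedding.subtype _)) (R := R) ?_ ?_ ?_ ?_ hz', Finset.sum_map]
  · rfl
  · intro U hU
    obtain ⟨U, -, rfl⟩ := Finset.mem_map.1 hU
    exact E.pr_before U
  · intro U hU V hV hne
    obtain ⟨U, -, rfl⟩ := Finset.mem_map.1 hU
    obtain ⟨V, -, rfl⟩ := Finset.mem_map.1 hV
    rw [Set.disjoint_left]
    intro x hxU hxV
    exact hne (congrArg Subtype.val (Cmp_eq (U := U) (V := V) hxU hxV))
  · intro x
    constructor
    · rintro ⟨hxO, hx⟩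
      have h1 : 0 < fR 0 0 (addT q (tv - κ)) x := hx.trans_le (Cyc.fR_le P _ x)
      have h2 : x ∈ Wset q tv := by
        rw [Ev.mem_Wset]
        have h3 := Ev.ff_mono (q := q) (s := tv - κ) (t := tv) (by linarith) (E.in_after O hxO)
        exact ⟨E.in_after O hxO, h1.trans h3⟩
      obtain ⟨U, hU⟩ := exists_Cmp h2
      refine ⟨U, Finset.mem_map.2 ⟨U, (hs U).2 ?_, rfl⟩, hU, hx⟩
      exact S4.subset_of_mem (Wset_mono q E.kt.le) (Cmp_mem U) (Cmp_mem O) hU hxO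
    · rintro ⟨U, hU, hxU, hx⟩
      obtain ⟨U, hUs, rfl⟩ := Finset.mem_map.1 hU
      exact ⟨(hs U).1 hUs hxU, hx⟩
  · intro U hU x hx h
    obtain ⟨U, hUs, rfl⟩ := Finset.mem_map.1 hU
    exact hR' x ((hs U).1 hUs hx) h

/-- The abstract event data. -/
noncomputable def EvIn.toAbs (E : EvIn D q tv κ vn t' r' r ρ0 ρ1 T u o) {ρ : ℝ} (h1 : r' < ρ)
    (h2 : ρ ≤ r) (hfar : ∀ w ∈ D.pd.S, w ≠ D.a → w ≠ D.b → w ∉ csqc (vn : ℂ) ρ)
    (fib : Cmp (Wset q t') → Finset (Cmp (Wset q tv)))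
    (hfib : ∀ O U, U ∈ fib O ↔ (U : Set (Fin (n + 1) → ℝ)) ⊆ (O : Set (Fin (n + 1) → ℝ))) :
    EvAbs (ULS P n l) evQ (evG q tv κ) D.pd vn ρ ρ0 ρ1 T D.pl (Cmp (Wset q tv))
      (Cmp (Wset q t')) u o fib where
  lin := ULS_lin P
  hol := ULS_hol P
  inj := evQ_inj
  geo := E.evGeo h1 h2
  pl := rfl
  far := hfar
  u_mem := fun i => (E.bef i).1
  o_mem := fun k => (E.aft k).1
  Jm := fun i => UJ P (addT q (tv - κ)) i
  jm := fun i => UA P (addT q (tv - κ)) i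
  cm := fun i => by
    rw [evG_zero, D.R0_eq, D.R1_eq]
    exact rcyc_of (E.pr_before i) E.sing_left E.R0_pos
      (fun x hx h => E.bdd_left x (E.in_before i hx) h) E.ann_left
  um := fun i => (E.bef i).2.choose
  um_par := fun i => by
    rw [EvIn.ann_eq]
    exact (E.bef i).2.choose_spec.1
  um_zero := fun i => by
    rw [EvIn.ann_eq]
    exact (E.bef i).2.choose_spec.2.1
  um_one := fun i => by
    rw [EvIn.ann_eq]
    exact (E.bef i).2.choose_spec.2.2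
  Jp := fun k => UJ P (addT q (tv + κ)) k
  jp := fun k => UA P (addT q (tv + κ)) k
  cp := fun k => by
    rw [D.R0_eq, D.R1_eq, E.fin]
    exact rcyc_of (E.pr_after k) E.sing_right E.R0_pos
      (fun x hx h => E.geo.bdd _ le_rfl x (E.in_after k hx) h) E.ann_right
  o_sol := fun k => by
    rw [EvIn.ann_eq]
    exact (E.aft k).2
  Jt := fun k => UJ P (addT q (tv - κ)) k
  jt := fun k => UA P (addT q (tv - κ)) k
  ct := fun k => by
    rw [evG_zero, D.R0_eq, D.R1_eq]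
    exact rcyc_of (E.pr_left k) E.sing_left E.R0_pos
      (fun x hx h => E.bdd_left x (E.in_after k hx) h) E.ann_left
  Jt_sum := fun k => by
    rw [EvIn.ann_eq]
    exact fun z hz => E.union k (fib k) (hfib k) hz
  tr := fun k τ hτ => by
    rw [D.R1_eq] at hτ
    have hτ' : (τ : ℂ) ∈ (sq R1 \ csqc (vn : ℂ) r') \ ⋃ c ∈ T, csqc c ρ0 :=
      ⟨⟨hτ.1.1, fun h => hτ.1.2 (csqc_mono h1.le h)⟩, hτ.2⟩
    obtain ⟨x, hx1, hx2, hx3⟩ := UA_par (P := P) (q := q) (O := k) (E.pr_after k).isOpen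
      (fun x hx => E.in_after k hx) E.geo.κ_pos E.lt
      (fun t ht => by
        have h3 := (Pr_comp E.comp ht E.le k.2).compact
        exact h3) (τ := τ)
      (fun t ht1 ht2 => E.geo.not_sig ⟨ht1, ht2⟩ hτ') (fun t ht1 ht2 => E.geo.sing t ⟨ht1, ht2⟩)
      (θ := thc tv κ) (continuous_thc tv κ).continuousOn
      (fun s hs => thc_mem E.geo.κ_pos hs) (thc_zero tv κ) (thc_one tv κ)
    exact ⟨x, hx1, hx2, hx3⟩

end Conv

end Pool.Agent.QC
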