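import Pool.Agent.QC.Asm.OutT

/-!
# MP_7c50a9_lc: assembly: uniqueness of the transport along a chain of paths
-/

namespace Pool.Agent.QC

open Filter Topology Set

/-- The square annulus is connected. -/
theorem sann_preconn {R0 R1 : ℝ} (h0 : 0 < R0) (h1 : R0 < R1) :
    IsPreconnected (sann R0 R1) := by
  have hc : ∀ a b c d : ℝ, IsPreconnected (Ioo a b ×ℂ Ioo c d) := fun a b c d =>
    (Convex.inter (Convex.linear_preimage (convex_Ioo a b) Complex.reLm)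
      (Convex.linear_preimage (convex_Ioo c d) Complex.imLm)).isPreconnected
  set m : ℝ := (R0 + R1) / 2 with hm
  have hm0 : R0 < m := by rw [hm]; linarith
  have hm1 : m < R1 := by rw [hm]; linarith
  have e : sann R0 R1 = ((Ioo R0 R1 ×ℂ Ioo (-R1) R1 ∪ Ioo (-R1) R1 ×ℂ Ioo R0 R1) ∪
      Ioo (-R1) (-R0) ×ℂ Ioo (-R1) R1) ∪ Ioo (-R1) R1 ×ℂ Ioo (-R1) (-R0) := by
    ext z
    simp only [sann, sq, csq, Set.mem_sdiff, Set.mem_ofPred_eq, mem_union, Complex.mem_reProdIm,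
      mem_Ioo, abs_lt, abs_le, not_and_or, not_le]
    constructor
    · rintro ⟨⟨⟨a1, a2⟩, a3, a4⟩, (h | h) | h | h⟩
      · exact Or.inl (Or.inr ⟨⟨a1, h⟩, a3, a4⟩)
      · exact Or.inl (Or.inl (Or.inl ⟨⟨h, a2⟩, a3, a4⟩))
      · exact Or.inr ⟨⟨a1, a2⟩, a3, h⟩
      · exact Or.inl (Or.inl (Or.inr ⟨⟨a1, a2⟩, h, a4⟩))
    · rintro (((⟨⟨a1, a2⟩, a3, a4⟩ | ⟨⟨a1, a2⟩, a3, a4⟩) | ⟨⟨a1, a2⟩, a3, a4⟩) |
        ⟨⟨a1, a2⟩, a3, a4⟩)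
      · exact ⟨⟨⟨by linarith, a2⟩, a3, a4⟩, Or.inl (Or.inr a1)⟩
      · exact ⟨⟨⟨a1, a2⟩, by linarith, a4⟩, Or.inr (Or.inr a3)⟩
      · exact ⟨⟨⟨a1, by linarith⟩, a3, a4⟩, Or.inl (Or.inl a2)⟩
      · exact ⟨⟨⟨a1, a2⟩, a3, by linarith⟩, Or.inr (Or.inl a4)⟩
  rw [e]
  refine IsPreconnected.union (⟨m, -m⟩ : ℂ) ?_ ?_ (IsPreconnected.union (⟨-m, m⟩ : ℂ) ?_ ?_
    (IsPreconnected.union (⟨m, m⟩ : ℂ) ?_ ?_ (hc _ _ _ _) (hc _ _ _ _)) (hc _ _ _ _)) (hc _ _ _ _)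
  · refine Or.inl (Or.inl ⟨⟨hm0, hm1⟩, ?_, ?_⟩)
    · show -R1 < -m
      linarith
    · show -m < R1
      linarith
  · refine ⟨⟨?_, hm1⟩, ?_, ?_⟩
    · show -R1 < m
      linarith
    · show -R1 < -m
      linarith
    · show -m < -R0
      linarith
  · refine Or.inr ⟨⟨?_, ?_⟩, hm0, hm1⟩
    · show -R1 < -m
      linarith
    · show -m < R1
      linarith
  · refine ⟨⟨?_, ?_⟩, ?_, hm1⟩
    · show -R1 < -m
      linarith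
    · show -m < -R0
      linarith
    · show -R1 < m
      linarith
  · exact ⟨⟨hm0, hm1⟩, by show -R1 < m; linarith, hm1⟩
  · exact ⟨⟨by show -R1 < m; linarith, hm1⟩, hm0, hm1⟩

section Abs

variable {Q : Type*} [TopologicalSpace Q] {F : Type*} {A : LS (Q × ℂ) F} {R0 R1 : ℝ} {m : ℕ}
  {γ : ℕ → ℝ → Q} {U U' : ℕ → ℂ × ℝ → F}

/-- uniqueness along one path -/
theorem trc_step {g : ℝ → Q} (hg : ContinuousOn g (Icc 0 1))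
    (hX : ∀ s ∈ Icc (0 : ℝ) 1, ∀ z ∈ sann R0 R1, (g s, z) ∈ A.X) {V V' : ℂ × ℝ → F}
    (hV : A.Par (fun p : ℂ × ℝ => (g p.2, p.1)) (sann R0 R1 ×ˢ Icc 0 1) V)
    (hV' : A.Par (fun p : ℂ × ℝ => (g p.2, p.1)) (sann R0 R1 ×ˢ Icc 0 1) V') {s₀ : ℝ}
    (hs₀ : s₀ ∈ Icc (0 : ℝ) 1) {z : ℂ} (hz : z ∈ sann R0 R1) (h : V (z, s₀) = V' (z, s₀)) :
    ∀ s ∈ Icc (0 : ℝ) 1, V (z, s) = V' (z, s) := fun _ hs =>
  LS.Par.unique (h := fun s => (g s, z)) isPreconnected_Icc (hg.prodMk continuousOn_const)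
    (fun s hs => hX s hs z hz)
    (hV.comp (g := fun s : ℝ => (z, s)) (R := Icc 0 1)
      (Continuous.prodMk_right z).continuousOn fun _ hs => ⟨hz, hs⟩)
    (hV'.comp (g := fun s : ℝ => (z, s)) (R := Icc 0 1)
      (Continuous.prodMk_right z).continuousOn fun _ hs => ⟨hz, hs⟩) hs₀ h hs

/-- Uniqueness from the start. -/
theorem trc_unique (h0 : 0 < R0) (h1 : R0 < R1) (hγ : ∀ k ≤ m, ContinuousOn (γ k) (Icc 0 1))
    (hX : ∀ k ≤ m, ∀ s ∈ Icc (0 : ℝ) 1, ∀ z ∈ sann R0 R1, (γ k s, z) ∈ A.X)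
    (hU : ∀ k ≤ m, A.Par (fun p : ℂ × ℝ => (γ k p.2, p.1)) (sann R0 R1 ×ˢ Icc 0 1) (U k))
    (hj : ∀ k < m, ∀ z ∈ sann R0 R1, U k (z, 1) = U (k + 1) (z, 0))
    (hU' : ∀ k ≤ m, A.Par (fun p : ℂ × ℝ => (γ k p.2, p.1)) (sann R0 R1 ×ˢ Icc 0 1) (U' k))
    (hj' : ∀ k < m, ∀ z ∈ sann R0 R1, U' k (z, 1) = U' (k + 1) (z, 0)) {z₀ : ℂ}
    (hz₀ : z₀ ∈ sann R0 R1) (h : U 0 (z₀, 0) = U' 0 (z₀, 0)) :
    ∀ k ≤ m, ∀ z ∈ sann R0 R1, ∀ s ∈ Icc (0 : ℝ) 1, U k (z, s) = U' k (z, s) := by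
  have h0I : (0 : ℝ) ∈ Icc (0 : ℝ) 1 := ⟨le_rfl, zero_le_one⟩
  have h1I : (1 : ℝ) ∈ Icc (0 : ℝ) 1 := ⟨zero_le_one, le_rfl⟩
  intro k
  induction k with
  | zero =>
    intro hk z hz
    have hc : ContinuousOn (fun z : ℂ => (γ 0 0, z)) (sann R0 R1) :=
      (Continuous.prodMk_right (γ 0 0)).continuousOn
    have a1 : EqOn (fun z => U 0 (z, 0)) (fun z => U' 0 (z, 0)) (sann R0 R1) :=
      LS.Par.unique (h := fun z : ℂ => (γ 0 0, z)) (sann_preconn h0 h1) hc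
        (fun z hz => hX 0 hk 0 h0I z hz)
        ((hU 0 hk).comp (g := fun z : ℂ => (z, (0 : ℝ))) (R := sann R0 R1)
          (Continuous.prodMk_left (0 : ℝ)).continuousOn fun _ hz => ⟨hz, h0I⟩)
        ((hU' 0 hk).comp (g := fun z : ℂ => (z, (0 : ℝ))) (R := sann R0 R1)
          (Continuous.prodMk_left (0 : ℝ)).continuousOn fun _ hz => ⟨hz, h0I⟩) hz₀ h
    exact trc_step (hγ 0 hk) (hX 0 hk) (hU 0 hk) (hU' 0 hk) h0I hz (a1 hz)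
  | succ k ih =>
    intro hk z hz
    refine trc_step (hγ _ hk) (hX _ hk) (hU _ hk) (hU' _ hk) h0I hz ?_
    rw [← hj k (by omega) z hz, ← hj' k (by omega) z hz]
    exact ih (by omega) z hz 1 h1I

/-- Uniqueness from the end. -/
theorem trc_unique_end (hγ : ∀ k ≤ m, ContinuousOn (γ k) (Icc 0 1))
    (hX : ∀ k ≤ m, ∀ s ∈ Icc (0 : ℝ) 1, ∀ z ∈ sann R0 R1, (γ k s, z) ∈ A.X)
    (hU : ∀ k ≤ m, A.Par (fun p : ℂ × ℝ => (γ k p.2, p.1)) (sann R0 R1 ×ˢ Icc 0 1) (U k))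
    (hj : ∀ k < m, ∀ z ∈ sann R0 R1, U k (z, 1) = U (k + 1) (z, 0))
    (hU' : ∀ k ≤ m, A.Par (fun p : ℂ × ℝ => (γ k p.2, p.1)) (sann R0 R1 ×ˢ Icc 0 1) (U' k))
    (hj' : ∀ k < m, ∀ z ∈ sann R0 R1, U' k (z, 1) = U' (k + 1) (z, 0))
    (h : ∀ z ∈ sann R0 R1, U m (z, 1) = U' m (z, 1)) :
    ∀ j k, k + j = m → ∀ z ∈ sann R0 R1, ∀ s ∈ Icc (0 : ℝ) 1, U k (z, s) = U' k (z, s) := by
  have h0I : (0 : ℝ) ∈ Icc (0 : ℝ) 1 := ⟨le_rfl, zero_le_one⟩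
  have h1I : (1 : ℝ) ∈ Icc (0 : ℝ) 1 := ⟨zero_le_one, le_rfl⟩
  intro j
  induction j with
  | zero =>
    intro k hk z hz
    have hk' : k = m := by omega
    subst hk'
    exact trc_step (hγ k le_rfl) (hX k le_rfl) (hU k le_rfl) (hU' k le_rfl) h1I hz (h z hz)
  | succ j ih =>
    intro k hk z hz
    have hk' : k ≤ m := by omega
    refine trc_step (hγ _ hk') (hX _ hk') (hU _ hk') (hU' _ hk') h1I hz ?_
    rw [hj k (by omega) z hz, hj' k (by omega) z hz]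
    exact ih (k + 1) (by omega) z hz 0 h0I

end Abs

end Pool.Agent.QC
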