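import Pool.Agent.QC.Plane.OfLS
import Pool.Agent.QC.Plane.Local
import Pool.Agent.QC.Asm.EventLA

/-!
# MP_7c50a9_lc: the jump lemma (5.2), abstract form

`γ` is the path in the space of tuples above the event.  `Jm`, `Jp` are the real cycles before and
after the event: solutions outside the real axis, whose jumps `jm τ`, `jp τ` at real `τ` correspond
under the transport along `γ`.  Then `Jp - T Jm` extends over the real axis, and is a solution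
outside the region `K ∪ N` in which singular points move.
-/

set_option autoImplicit false

open Set Metric Filter Topology

namespace Pool.Agent.QC

namespace LS

variable {Q : Type*} [TopologicalSpace Q] {F : Type*} [AddCommGroup F] [Module ℂ F]
  {A : LS (Q × ℂ) F}

omit [AddCommGroup F] [Module ℂ F] in
/-- Uniqueness in the time direction. -/
theorem Par.time_unique {γ : ℝ → Q} (hγ : ContinuousOn γ (Icc 0 1)) {z : ℂ}
    (hX : ∀ s ∈ Icc (0 : ℝ) 1, (γ s, z) ∈ A.X) {S S' : Set ℂ} {U U' : ℂ × ℝ → F}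
    (hU : A.Par (fun p : ℂ × ℝ => (γ p.2, p.1)) (S ×ˢ Icc 0 1) U)
    (hU' : A.Par (fun p : ℂ × ℝ => (γ p.2, p.1)) (S' ×ˢ Icc 0 1) U')
    (hz : z ∈ S) (hz' : z ∈ S') (h : U (z, 0) = U' (z, 0)) :
    ∀ s ∈ Icc (0 : ℝ) 1, U (z, s) = U' (z, s) := by
  have c1 : ContinuousOn (fun s : ℝ => (z, s)) (Icc (0 : ℝ) 1) := by fun_prop
  have h1 : A.Par (fun s : ℝ => (γ s, z)) (Icc 0 1) (fun s => U (z, s)) :=
    hU.comp (g := fun s : ℝ => (z, s)) c1 (fun s hs => ⟨hz, hs⟩)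
  have h2 : A.Par (fun s : ℝ => (γ s, z)) (Icc 0 1) (fun s => U' (z, s)) :=
    hU'.comp (g := fun s : ℝ => (z, s)) c1 (fun s hs => ⟨hz', hs⟩)
  exact Par.unique isPreconnected_Icc (hγ.prodMk continuousOn_const) hX h1 h2
    (left_mem_Icc.mpr zero_le_one) h

end LS

variable {Q : Type*} [TopologicalSpace Q] {F : Type*} [AddCommGroup F] [Module ℂ F]
  {A : LS (Q × ℂ) F} {ι : Type} {ev : ι → F →ₗ[ℂ] ℂ}

lemma cont_fam {γ : ℝ → Q} (hγ : ContinuousOn γ (Icc 0 1)) (S : Set ℂ) :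
    ContinuousOn (fun p : ℂ × ℝ => (γ p.2, p.1)) (S ×ˢ Icc 0 1) :=
  (hγ.comp continuousOn_snd (fun _ hp => hp.2)).prodMk continuousOn_fst

omit [AddCommGroup F] [Module ℂ F] in
lemma par_at {γ : ℝ → Q} {S : Set ℂ} {U : ℂ × ℝ → F}
    (hU : A.Par (fun p : ℂ × ℝ => (γ p.2, p.1)) (S ×ˢ Icc 0 1) U) {s : ℝ}
    (hs : s ∈ Icc (0 : ℝ) 1) : A.Par (fun z : ℂ => (γ s, z)) S (fun z => U (z, s)) :=
  hU.comp (g := fun z : ℂ => (z, s)) (by fun_prop) (fun _ hz => ⟨hz, hs⟩)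

omit [AddCommGroup F] [Module ℂ F] in
/-- Extension of a parallel section from a convex open part of a ball in the regular set. -/
theorem exists_ball_ext {q : Q} {B V : Set ℂ} (hcB : Convex ℝ B)
    (hX : ∀ z ∈ B, (q, z) ∈ A.X) (hcV : Convex ℝ V) (hVB : V ⊆ B) (hne : V.Nonempty)
    {g : ℂ → F} (hg : A.Par (fun z => (q, z)) V g) :
    ∃ y, A.Par (fun z => (q, z)) B y ∧ EqOn y g V := by
  obtain ⟨z₀, hz₀⟩ := hne
  obtain ⟨y, h1, h2⟩ := LS.Par.exists_star (A := A) (h := fun z => (q, z))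
    (hcB.starConvex (hVB hz₀)) (hVB hz₀) (cont_mk q B) hX (hg.mem hz₀)
  exact ⟨y, h1, LS.Par.unique hcV.isPreconnected (cont_mk q V) (fun z hz => hX z (hVB hz))
    (h1.mono hVB) hg hz₀ h2⟩

/-- The limit form of the jump at a real point. -/
def JumpLim (ev : ι → F →ₗ[ℂ] ℂ) (J : ℂ → F) (τ : ℝ) (j : F) : Prop :=
  ∀ i, Tendsto (fun ε : ℝ => ev i (J (τ + ε * Complex.I)) - ev i (J (τ - ε * Complex.I)))
    (𝓝[>] 0) (𝓝 (ev i j))

theorem JumpLim.eq {q : Q} (hol : HolZ A ev) (ev_inj : ∀ x, (∀ i, ev i x = 0) → x = 0)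
    {J yu yl : ℂ → F} {τ : ℝ} {j : F} {ε : ℝ} (hε : 0 < ε) (h : JumpLim ev J τ j)
    (hu : A.Par (fun z => (q, z)) (ball (τ : ℂ) ε) yu)
    (hl : A.Par (fun z => (q, z)) (ball (τ : ℂ) ε) yl)
    (hu' : EqOn yu J (ball (τ : ℂ) ε ∩ up 0)) (hl' : EqOn yl J (ball (τ : ℂ) ε ∩ dn 0)) :
    yu τ - yl τ = j := by
  have hext : ∀ x y : F, (∀ i, ev i x = ev i y) → x = y := fun x y hxy =>
    sub_eq_zero.mp (ev_inj _ fun i => by rw [map_sub, hxy i, sub_self])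
  refine hext _ _ fun i => ?_
  have c1 : ContinuousAt (fun z => ev i (yu z)) (τ : ℂ) :=
    ((hol.diffOn isOpen_ball hu i).differentiableAt (isOpen_ball.mem_nhds
      (mem_ball_self hε))).continuousAt
  have c2 : ContinuousAt (fun z => ev i (yl z)) (τ : ℂ) :=
    ((hol.diffOn isOpen_ball hl i).differentiableAt (isOpen_ball.mem_nhds
      (mem_ball_self hε))).continuousAt
  have t1 : Tendsto (fun δ : ℝ => (τ : ℂ) + δ * Complex.I) (𝓝[>] 0) (𝓝 (τ : ℂ)) := by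
    have : Tendsto (fun δ : ℝ => (τ : ℂ) + δ * Complex.I) (𝓝 0) (𝓝 ((τ : ℂ) + (0 : ℝ) * Complex.I)) :=
      (Continuous.tendsto (by fun_prop) 0)
    simp only [Complex.ofReal_zero, zero_mul, add_zero] at this
    exact this.mono_left nhdsWithin_le_nhds
  have t2 : Tendsto (fun δ : ℝ => (τ : ℂ) - δ * Complex.I) (𝓝[>] 0) (𝓝 (τ : ℂ)) := by
    have : Tendsto (fun δ : ℝ => (τ : ℂ) - δ * Complex.I) (𝓝 0) (𝓝 ((τ : ℂ) - (0 : ℝ) * Complex.I)) :=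
      (Continuous.tendsto (by fun_prop) 0)
    simp only [Complex.ofReal_zero, zero_mul, sub_zero] at this
    exact this.mono_left nhdsWithin_le_nhds
  have l1 := (c1.tendsto.comp t1).sub (c2.tendsto.comp t2)
  have l2 : Tendsto (fun δ : ℝ => ev i (yu (τ + δ * Complex.I)) - ev i (yl (τ - δ * Complex.I)))
      (𝓝[>] 0) (𝓝 (ev i j)) := by
    refine (h i).congr' ?_
    have e1 : ∀ᶠ δ : ℝ in 𝓝[>] 0, δ < ε :=
      nhdsWithin_le_nhds (Iio_mem_nhds hε)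
    filter_upwards [e1, self_mem_nhdsWithin] with δ hδ1 hδ2
    have hδ3 : (0 : ℝ) < δ := hδ2
    rw [hu' ⟨?_, ?_⟩, hl' ⟨?_, ?_⟩]
    · rw [mem_ball, Complex.dist_eq, sub_sub_cancel_left, norm_neg, norm_mul, Complex.norm_real,
        Complex.norm_I, mul_one, Real.norm_of_nonneg hδ3.le]
      exact hδ1
    · simp [dn, hδ3]
    · rw [mem_ball, Complex.dist_eq, add_sub_cancel_left, norm_mul, Complex.norm_real,
        Complex.norm_I, mul_one, Real.norm_of_nonneg hδ3.le]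
      exact hδ1
    · simp [up, hδ3]
  have := tendsto_nhds_unique l2 l1
  rw [this, map_sub]

/-- **Jump lemma**, first part: the difference extends over the real axis. -/
theorem jump_aux {γ : ℝ → Q} (hγ : ContinuousOn γ (Icc 0 1)) (hA : A.Lin) (hol : HolZ A ev)
    (ev_inj : ∀ x, (∀ i, ev i x = 0) → x = 0) (D : PlaneData A ev (γ 1)) {Ω : Set ℂ}
    (hΩ : IsOpen Ω)
    (hX : ∀ s ∈ Icc (0 : ℝ) 1, ∀ z ∈ Ω, (γ s, z) ∈ A.X)
    (hann : sq D.R1 \ csq D.R0 ⊆ Ω) {Jm Jp : ℂ → F}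
    (hJm : A.Par (fun z => (γ 0, z)) (Ω ∩ {z | z.im ≠ 0}) Jm)
    (hJp : A.Par (fun z => (γ 1, z)) (Ω ∩ {z | z.im ≠ 0}) Jp)
    (hJp' : A.Par (fun z => (γ 1, z)) (sq D.R1 \ csq D.R0) Jp)
    {jm jp : ℝ → F} (hjm : ∀ τ : ℝ, (τ : ℂ) ∈ Ω → JumpLim ev Jm τ (jm τ))
    (hjp : ∀ τ : ℝ, (τ : ℂ) ∈ Ω → JumpLim ev Jp τ (jp τ))
    (htr : ∀ τ : ℝ, (τ : ℂ) ∈ Ω → ∃ u : ℝ → F, A.Par (fun s : ℝ => (γ s, (τ : ℂ))) (Icc 0 1) u ∧
      u 0 = jm τ ∧ u 1 = jp τ)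
    {um : ℂ × ℝ → F}
    (hum : A.Par (fun p : ℂ × ℝ => (γ p.2, p.1)) ((sq D.R1 \ csq D.R0) ×ˢ Icc 0 1) um)
    (hum0 : ∀ z ∈ sq D.R1 \ csq D.R0, um (z, 0) = Jm z) :
    ∃ e, (D.toPlane hA hol ev_inj).Sol Ω e ∧
      EqOn e (fun z => Jp z - um (z, 1)) (sq D.R1 \ csq D.R0) := by
  classical
  set C := D.toPlane hA hol ev_inj with hC
  have h01 : (1 : ℝ) ∈ Icc (0 : ℝ) 1 := right_mem_Icc.mpr zero_le_one
  have h00 : (0 : ℝ) ∈ Icc (0 : ℝ) 1 := left_mem_Icc.mpr zero_le_one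
  have oI : IsOpen {z : ℂ | z.im ≠ 0} := isOpen_ne_fun Complex.continuous_im continuous_const
  have oΩ' : IsOpen (Ω ∩ {z : ℂ | z.im ≠ 0}) := hΩ.inter oI
  have oann : IsOpen (sq D.R1 \ csq D.R0) := (isOpen_sq _).sdiff (isClosed_csq _)
  -- solutions from parallel sections
  have solOf : ∀ {U : Set ℂ} {g : ℂ → F}, IsOpen U → U ⊆ Ω →
      A.Par (fun z => (γ 1, z)) U g → C.Sol U g := by
    intro U g hU hUΩ hg
    exact ⟨fun i => hol.diffOn hU hg i, hg.mono sdiff_subset⟩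
  -- the lift of Jm
  have hm0 : A.Par (fun z : ℂ => ((fun p : ℂ × ℝ => (γ p.2, p.1)) (z, (0 : ℝ))))
      (Ω ∩ {z | z.im ≠ 0}) Jm := hJm
  obtain ⟨U, hU, hU0⟩ := LS.Par.lift (A := A) (h := fun p : ℂ × ℝ => (γ p.2, p.1))
    (cont_fam hγ _) (fun p hp => hX p.2 hp.2 p.1 hp.1.1) hm0
  have parSub : ∀ {U : Set ℂ} {g g' : ℂ → F}, A.Par (fun z => (γ 1, z)) U g →
      A.Par (fun z => (γ 1, z)) U g' → A.Par (fun z => (γ 1, z)) U (fun z => g z - g' z) := by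
    intro U g g' hg hg'
    have h1 := LS.Par.add hA (cont_mk (γ 1) U) hg (LS.Par.smul hA (-1) hg')
    refine h1.congr fun z _ => ?_
    simp [sub_eq_add_neg]
  have tparSub : ∀ {τ : ℂ} {g g' : ℝ → F}, A.Par (fun s => (γ s, τ)) (Icc 0 1) g →
      A.Par (fun s => (γ s, τ)) (Icc 0 1) g' →
      A.Par (fun s => (γ s, τ)) (Icc 0 1) (fun s => g s - g' s) := by
    intro τ g g' hg hg'
    have h1 := LS.Par.add hA (hγ.prodMk continuousOn_const) hg (LS.Par.smul hA (-1) hg')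
    refine h1.congr fun z _ => ?_
    simp [sub_eq_add_neg]
  set e0 : ℂ → F := fun z => Jp z - U (z, 1) with he0
  have hpar0 : A.Par (fun z => (γ 1, z)) (Ω ∩ {z | z.im ≠ 0}) e0 := parSub hJp (par_at hU h01)
  have hsol0 : C.Sol (Ω ∩ {z | z.im ≠ 0}) e0 := solOf oΩ' inter_subset_left hpar0
  have supp : Ω ∩ up 0 ⊆ Ω ∩ {z | z.im ≠ 0} := fun z hz => ⟨hz.1, (ne_of_gt hz.2 : z.im ≠ 0)⟩
  have sdnn : Ω ∩ dn 0 ⊆ Ω ∩ {z | z.im ≠ 0} := fun z hz => ⟨hz.1, (ne_of_lt hz.2 : z.im ≠ 0)⟩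
  -- the local extension at a real point
  have hloc : ∀ z ∈ Ω, z.im = 0 → ∃ ε > 0, ball z ε ⊆ Ω ∧ ∃ gz, C.Sol (ball z ε) gz ∧
      EqOn gz e0 (ball z ε ∩ up 0) ∧ EqOn gz e0 (ball z ε ∩ dn 0) := by
    intro z hz hz0
    obtain ⟨ε, hε, hsub⟩ := Metric.isOpen_iff.mp hΩ z hz
    obtain ⟨τ, rfl⟩ : ∃ τ : ℝ, z = (τ : ℂ) := ⟨z.re, Complex.ext rfl (by simpa using hz0)⟩
    have hτ0 : (τ : ℂ).im = 0 := Complex.ofReal_im τ
    have hBu : ball (τ : ℂ) ε ∩ up 0 ⊆ Ω ∩ {z | z.im ≠ 0} := fun x hx => supp ⟨hsub hx.1, hx.2⟩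
    have hBl : ball (τ : ℂ) ε ∩ dn 0 ⊆ Ω ∩ {z | z.im ≠ 0} := fun x hx => sdnn ⟨hsub hx.1, hx.2⟩
    have nu : (ball (τ : ℂ) ε ∩ up 0).Nonempty := by
      have := PlaneSys.half_up_nonempty (z := (τ : ℂ)) isOpen_ball (mem_ball_self hε)
      rwa [hτ0] at this
    have nl : (ball (τ : ℂ) ε ∩ dn 0).Nonempty := by
      have := PlaneSys.half_dn_nonempty (z := (τ : ℂ)) isOpen_ball (mem_ball_self hε)
      rwa [hτ0] at this
    have cu : Convex ℝ (ball (τ : ℂ) ε ∩ up 0) := (convex_ball _ _).inter (convex_up _)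
    have cl : Convex ℝ (ball (τ : ℂ) ε ∩ dn 0) := (convex_ball _ _).inter (convex_dn _)
    obtain ⟨ymu, ymu1, ymu2⟩ := exists_ball_ext (q := γ 0) (B := ball (τ : ℂ) ε)
      (convex_ball _ _) (fun x hx => hX 0 h00 x (hsub hx)) cu inter_subset_left nu
      (hJm.mono hBu)
    obtain ⟨yml, yml1, yml2⟩ := exists_ball_ext (q := γ 0) (B := ball (τ : ℂ) ε)
      (convex_ball _ _) (fun x hx => hX 0 h00 x (hsub hx)) cl inter_subset_left nl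
      (hJm.mono hBl)
    obtain ⟨ypu, ypu1, ypu2⟩ := exists_ball_ext (q := γ 1) (B := ball (τ : ℂ) ε)
      (convex_ball _ _) (fun x hx => hX 1 h01 x (hsub hx)) cu inter_subset_left nu
      (hJp.mono hBu)
    obtain ⟨ypl, ypl1, ypl2⟩ := exists_ball_ext (q := γ 1) (B := ball (τ : ℂ) ε)
      (convex_ball _ _) (fun x hx => hX 1 h01 x (hsub hx)) cl inter_subset_left nl
      (hJp.mono hBl)
    have jm1 := JumpLim.eq (q := γ 0) hol ev_inj hε (hjm τ hz) ymu1 yml1 ymu2 yml2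
    have jp1 := JumpLim.eq (q := γ 1) hol ev_inj hε (hjp τ hz) ypu1 ypl1 ypu2 ypl2
    -- lifts
    have hmu0 : A.Par (fun z : ℂ => ((fun p : ℂ × ℝ => (γ p.2, p.1)) (z, (0 : ℝ))))
      (ball (τ : ℂ) ε) ymu := ymu1
    have hml0 : A.Par (fun z : ℂ => ((fun p : ℂ × ℝ => (γ p.2, p.1)) (z, (0 : ℝ))))
      (ball (τ : ℂ) ε) yml := yml1
    obtain ⟨Yu, Yu1, Yu2⟩ := LS.Par.lift (A := A) (h := fun p : ℂ × ℝ => (γ p.2, p.1))
      (cont_fam hγ _) (fun p hp => hX p.2 hp.2 p.1 (hsub hp.1)) hmu0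
    obtain ⟨Yl, Yl1, Yl2⟩ := LS.Par.lift (A := A) (h := fun p : ℂ × ℝ => (γ p.2, p.1))
      (cont_fam hγ _) (fun p hp => hX p.2 hp.2 p.1 (hsub hp.1)) hml0
    set eu : ℂ → F := fun z => ypu z - Yu (z, 1) with heu
    set el : ℂ → F := fun z => ypl z - Yl (z, 1) with hel
    have peu : A.Par (fun z => (γ 1, z)) (ball (τ : ℂ) ε) eu := parSub ypu1 (par_at Yu1 h01)
    have pel : A.Par (fun z => (γ 1, z)) (ball (τ : ℂ) ε) el := parSub ypl1 (par_at Yl1 h01)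
    -- values at τ
    have hτB : (τ : ℂ) ∈ ball (τ : ℂ) ε := mem_ball_self hε
    have key : eu τ = el τ := by
      obtain ⟨u, hu1, hu2, hu3⟩ := htr τ hz
      have c1 : ContinuousOn (fun s : ℝ => ((τ : ℂ), s)) (Icc (0 : ℝ) 1) := by fun_prop
      have p1 : A.Par (fun s : ℝ => (γ s, (τ : ℂ))) (Icc 0 1) (fun s => Yu ((τ : ℂ), s)) :=
        Yu1.comp (g := fun s : ℝ => ((τ : ℂ), s)) c1 (fun s hs => ⟨hτB, hs⟩)
      have p2 : A.Par (fun s : ℝ => (γ s, (τ : ℂ))) (Icc 0 1) (fun s => Yl ((τ : ℂ), s)) :=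
        Yl1.comp (g := fun s : ℝ => ((τ : ℂ), s)) c1 (fun s hs => ⟨hτB, hs⟩)
      have p3 := tparSub p1 p2
      have p4 := LS.Par.unique isPreconnected_Icc (hγ.prodMk continuousOn_const)
        (fun s hs => hX s hs _ hz) p3 hu1 h00 (by
          rw [Yu2 _ hτB, Yl2 _ hτB, jm1, hu2])
      have p5 := p4 h01
      simp only at p5
      rw [hu3, ← jp1] at p5
      have : eu τ - el τ = 0 := by
        simp only [heu, hel]
        rw [show ypu τ - Yu ((τ : ℂ), 1) - (ypl τ - Yl ((τ : ℂ), 1)) =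
          (ypu τ - ypl τ) - (Yu ((τ : ℂ), 1) - Yl ((τ : ℂ), 1)) by abel, p5, sub_self]
      exact sub_eq_zero.mp this
    have heq : EqOn eu el (ball (τ : ℂ) ε) := LS.Par.unique (convex_ball _ _).isPreconnected
      (cont_mk _ _) (fun x hx => hX 1 h01 x (hsub hx)) peu pel hτB key
    refine ⟨ε, hε, hsub, eu, solOf isOpen_ball hsub peu, ?_, ?_⟩
    · intro x hx
      have h2 : U (x, 1) = Yu (x, 1) := LS.Par.time_unique hγ (fun s hs => hX s hs x (hsub hx.1))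
        hU Yu1 (hBu hx) hx.1 (by rw [hU0 x (hBu hx), Yu2 x hx.1, ymu2 hx]) 1 h01
      simp only [heu, he0]
      rw [ypu2 hx, h2]
    · intro x hx
      rw [heq hx.1]
      have h2 : U (x, 1) = Yl (x, 1) := LS.Par.time_unique hγ (fun s hs => hX s hs x (hsub hx.1))
        hU Yl1 (hBl hx) hx.1 (by rw [hU0 x (hBl hx), Yl2 x hx.1, yml2 hx]) 1 h01
      simp only [hel, he0]
      rw [ypl2 hx, h2]
  obtain ⟨e, he1, he2, he3⟩ := C.glue_line hΩ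
    (C.mono (hΩ.inter (isOpen_up 0)) supp hsol0)
    (C.mono (hΩ.inter (isOpen_dn 0)) sdnn hsol0) hloc
  refine ⟨e, he1, ?_⟩
  -- comparison on the annulus
  have hA1 : A.Par (fun z => (γ 1, z)) (sq D.R1 \ csq D.R0) (fun z => Jp z - um (z, 1)) :=
    parSub hJp' (par_at hum h01)
  have hA2 : C.Sol (sq D.R1 \ csq D.R0) (fun z => Jp z - um (z, 1)) := solOf oann hann hA1
  have hne : ∀ z ∈ sq D.R1 \ csq D.R0, z.im ≠ 0 → e z = Jp z - um (z, 1) := by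
    intro z hz hz0
    have h1 : e z = e0 z := by
      rcases lt_or_gt_of_ne hz0 with h | h
      · exact he3 ⟨hann hz, h⟩
      · exact he2 ⟨hann hz, h⟩
    rw [h1]
    have hzΩ : z ∈ Ω ∩ {z | z.im ≠ 0} := ⟨hann hz, hz0⟩
    have h2 : U (z, 1) = um (z, 1) := LS.Par.time_unique hγ (fun s hs => hX s hs z (hann hz))
      hU hum hzΩ hz (by rw [hU0 z hzΩ, hum0 z hz]) 1 h01
    simp only [he0, h2]
  intro z hz
  by_cases hz0 : z.im = 0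
  · obtain ⟨δ, hδ, hsub⟩ := Metric.isOpen_iff.mp oann z hz
    have hnb : (ball z δ ∩ up 0).Nonempty := by
      rw [← hz0]
      exact PlaneSys.half_up_nonempty isOpen_ball (mem_ball_self hδ)
    refine C.uniqc isOpen_ball (convex_ball z δ)
      (C.mono (V := Ω) isOpen_ball (hsub.trans hann) he1)
      (C.mono (V := sq D.R1 \ csq D.R0) isOpen_ball hsub hA2)
      (isOpen_ball.inter (isOpen_up 0)) inter_subset_left hnb ?_ (mem_ball_self hδ)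
    intro x hx
    exact hne x (hsub hx.1) (ne_of_gt hx.2)
  · exact hne z hz hz0

/-- **Jump lemma** (5.2).  `K` is the disc of the event, `T` the centres of the small squares in
which the other singular points move. -/
theorem jump {γ : ℝ → Q} (hγ : ContinuousOn γ (Icc 0 1)) (hA : A.Lin) (hol : HolZ A ev)
    (ev_inj : ∀ x, (∀ i, ev i x = 0) → x = 0) (D : PlaneData A ev (γ 1)) {K T : Set ℂ}
    (hK : IsClosed K) (hT : T.Finite) (hKs : K ⊆ csq D.R0) {ρ0 ρ1 : ℝ} (h0 : 0 < ρ0)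
    (h1 : ρ0 < ρ1) (hTs : ∀ c ∈ T, csqc c ρ0 ⊆ csq D.R0)
    (hTK : ∀ c ∈ T, sqc c ρ1 ⊆ sq D.R1 \ K)
    (hdis : ∀ c ∈ T, ∀ c' ∈ T, c ≠ c' → Disjoint (sqc c ρ1) (sqc c' ρ1))
    (hS : ∀ c ∈ T, ∃ w ∈ D.S, w ∈ sqc c ρ0 ∧ ∀ x ∈ D.S, x ∈ sqc c ρ1 → x = w)
    (hX : ∀ s ∈ Icc (0 : ℝ) 1, ∀ z ∈ (sq D.R1 \ K) \ ⋃ c ∈ T, csqc c ρ0, (γ s, z) ∈ A.X)
    {Jm Jp : ℂ → F}
    (hJm : A.Par (fun z => (γ 0, z))
      (((sq D.R1 \ K) \ ⋃ c ∈ T, csqc c ρ0) ∩ {z | z.im ≠ 0}) Jm)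
    (hJp : A.Par (fun z => (γ 1, z))
      (((sq D.R1 \ K) \ ⋃ c ∈ T, csqc c ρ0) ∩ {z | z.im ≠ 0}) Jp)
    (hJp' : A.Par (fun z => (γ 1, z)) (sq D.R1 \ csq D.R0) Jp)
    {jm jp : ℝ → F}
    (hjm : ∀ τ : ℝ, (τ : ℂ) ∈ (sq D.R1 \ K) \ ⋃ c ∈ T, csqc c ρ0 → JumpLim ev Jm τ (jm τ))
    (hjp : ∀ τ : ℝ, (τ : ℂ) ∈ (sq D.R1 \ K) \ ⋃ c ∈ T, csqc c ρ0 → JumpLim ev Jp τ (jp τ))
    (htr : ∀ τ : ℝ, (τ : ℂ) ∈ (sq D.R1 \ K) \ ⋃ c ∈ T, csqc c ρ0 →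
      ∃ u : ℝ → F, A.Par (fun s : ℝ => (γ s, (τ : ℂ))) (Icc 0 1) u ∧ u 0 = jm τ ∧ u 1 = jp τ)
    {um : ℂ × ℝ → F}
    (hum : A.Par (fun p : ℂ × ℝ => (γ p.2, p.1)) ((sq D.R1 \ csq D.R0) ×ˢ Icc 0 1) um)
    (hum0 : ∀ z ∈ sq D.R1 \ csq D.R0, um (z, 0) = Jm z) :
    (D.toPlane hA hol ev_inj).ExtOff K (fun z => Jp z - um (z, 1)) := by
  have hN : IsClosed (⋃ c ∈ T, csqc c ρ0) :=
    hT.isClosed_biUnion fun c _ => isClosed_csqc c ρ0
  have hann : sq D.R1 \ csq D.R0 ⊆ (sq D.R1 \ K) \ ⋃ c ∈ T, csqc c ρ0 := by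
    rintro z ⟨hz1, hz2⟩
    refine ⟨⟨hz1, fun h => hz2 (hKs h)⟩, ?_⟩
    simp only [mem_iUnion, not_exists]
    exact fun c hc h => hz2 (hTs c hc h)
  obtain ⟨e, he1, he2⟩ := jump_aux hγ hA hol ev_inj D
    (((isOpen_sq _).sdiff hK).sdiff hN) hX hann hJm hJp hJp' hjm hjp htr hum hum0
  obtain ⟨e', he3, he4⟩ := (D.toPlane hA hol ev_inj).fill_squares hK T hT h0 h1 hTK hdis hS he1
  refine ⟨e', he3, fun z hz => ?_⟩
  rw [he4 (hann hz), he2 hz]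

end Pool.Agent.QC
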