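import Pool.Agent.QC.Asm.OutT
import Pool.Agent.QC.Asm.Jump

/-!
# MP_7c50a9_lc: assembly: existence of the transport along a chain of paths
-/

namespace Pool.Agent.QC

open Filter Topology Set

section Abs

variable {Q : Type*} [TopologicalSpace Q] {F : Type*} {A : LS (Q × ℂ) F} {R0 R1 : ℝ} {m : ℕ}
  {γ : ℕ → ℝ → Q}

/-- Existence. -/
theorem exists_trC (hcont : ∀ k ≤ m, ContinuousOn (γ k) (Icc 0 1))
    (hjoin : ∀ k < m, γ k 1 = γ (k + 1) 0)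
    (hX : ∀ k ≤ m, ∀ s ∈ Icc (0 : ℝ) 1, ∀ z ∈ sann R0 R1, (γ k s, z) ∈ A.X) {J : ℂ → F}
    (hJ : A.Par (fun z => (γ 0 0, z)) (sann R0 R1) J) :
    ∃ U : ℕ → ℂ × ℝ → F,
      (∀ k ≤ m, A.Par (fun p : ℂ × ℝ => (γ k p.2, p.1)) (sann R0 R1 ×ˢ Icc 0 1) (U k)) ∧
      (∀ k < m, ∀ z ∈ sann R0 R1, U k (z, 1) = U (k + 1) (z, 0)) ∧
      ∀ z ∈ sann R0 R1, U 0 (z, 0) = J z := by
  classical
  have H : ∀ (k : ℕ) (J : ℂ → F), ∃ u : ℂ × ℝ → F, k ≤ m →
      A.Par (fun z => (γ k 0, z)) (sann R0 R1) J →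
      A.Par (fun p : ℂ × ℝ => (γ k p.2, p.1)) (sann R0 R1 ×ˢ Icc 0 1) u ∧
      ∀ z ∈ sann R0 R1, u (z, 0) = J z := by
    intro k J
    by_cases hk : k ≤ m
    · by_cases hJ : A.Par (fun z => (γ k 0, z)) (sann R0 R1) J
      · obtain ⟨u, h1, h2⟩ := LS.Par.lift (A := A) (h := fun p : ℂ × ℝ => (γ k p.2, p.1))
          (((hcont k hk).comp continuousOn_snd fun _ hp => hp.2).prodMk continuousOn_fst)
          (fun p hp => hX k hk p.2 hp.2 p.1 hp.1) hJ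
        exact ⟨u, fun _ _ => ⟨h1, h2⟩⟩
      · exact ⟨fun p => J p.1, fun _ h => absurd h hJ⟩
    · exact ⟨fun p => J p.1, fun h => absurd h hk⟩
  choose L hL using H
  set U : ℕ → ℂ × ℝ → F := fun k =>
    Nat.rec (L 0 J) (fun k u => L (k + 1) (fun z => u (z, 1))) k with hU
  have hU0 : U 0 = L 0 J := rfl
  have hU1 : ∀ k, U (k + 1) = L (k + 1) (fun z => U k (z, 1)) := fun _ => rfl
  have hpar : ∀ k ≤ m, A.Par (fun p : ℂ × ℝ => (γ k p.2, p.1)) (sann R0 R1 ×ˢ Icc 0 1)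
      (U k) := by
    intro k
    induction k with
    | zero =>
      intro hk
      rw [hU0]
      exact (hL 0 J hk hJ).1
    | succ k ih =>
      intro hk
      rw [hU1]
      refine (hL (k + 1) _ hk ?_).1
      have h1 := par_at (ih (Nat.le_of_succ_le hk)) (s := 1) ⟨zero_le_one, le_rfl⟩
      rw [← hjoin k hk]
      exact h1
  refine ⟨U, hpar, ?_, ?_⟩
  · intro k hk z hz
    rw [hU1]
    refine ((hL (k + 1) (fun z => U k (z, 1)) hk ?_).2 z hz).symm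
    have h1 := par_at (hpar k hk.le) (s := 1) ⟨zero_le_one, le_rfl⟩
    rw [← hjoin k hk]
    exact h1
  · intro z hz
    rw [hU0]
    exact (hL 0 J (Nat.zero_le m) hJ).2 z hz

end Abs

/-- OUT depends only on the values on the annulus. -/
theorem OutF.congrOn {F : Type*} [AddCommGroup F] [Module ℂ F] {ι : Type}
    {ev : ι → F →ₗ[ℂ] ℂ} {R0 R1 : ℝ} {J J' : ℂ → F} (h : OutF ev R0 R1 J)
    (he : EqOn J J' (sann R0 R1)) : OutF ev R0 R1 J' := by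
  intro i
  obtain ⟨k, h1, h2, h3⟩ := h i
  refine ⟨k, h1, fun z hz => ?_, h3⟩
  rw [h2 hz]
  simp only
  rw [he hz]

end Pool.Agent.QC
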