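import Pool.Agent.QC.An.ULSLoc
import Pool.Agent.QC.Plane.OfLS

/-!
# MP_7c50a9_lc: OUT sections on the square annulus
-/

set_option autoImplicit false

namespace Pool.Agent.QC

open MvPolynomial Filter Topology Set Metric

/-! ### Regions given by a gauge function -/

/-- A positive, homogeneous, continuous function. -/
structure NN (N : ℂ → ℝ) : Prop where
  cont : Continuous N
  pos : ∀ z, z ≠ 0 → 0 < N z
  smul : ∀ (t : ℝ), 0 ≤ t → ∀ z : ℂ, N (t • z) = t * N z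

/-- The square norm. -/
def sqn (z : ℂ) : ℝ := max |z.re| |z.im|

theorem nn_norm : NN (fun z : ℂ => ‖z‖) where
  cont := continuous_norm
  pos z hz := norm_pos_iff.mpr hz
  smul t ht z := by rw [norm_smul, Real.norm_of_nonneg ht]

theorem nn_sqn : NN sqn where
  cont := (Complex.continuous_re.abs).max (Complex.continuous_im.abs)
  pos z hz := by
    by_contra h
    push Not at h
    have h1 := (max_le_iff.mp h).1
    have h2 := (max_le_iff.mp h).2
    exact hz (Complex.ext (abs_nonpos_iff.mp h1) (abs_nonpos_iff.mp h2))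
  smul t ht z := by
    simp only [sqn, Complex.smul_re, Complex.smul_im, smul_eq_mul, abs_mul, abs_of_nonneg ht]
    rw [mul_max_of_nonneg _ _ ht]

theorem sqn_le_norm (z : ℂ) : sqn z ≤ ‖z‖ :=
  max_le (Complex.abs_re_le_norm z) (Complex.abs_im_le_norm z)

theorem NN.zero {N : ℂ → ℝ} (h : NN N) : N 0 = 0 := by
  have := h.smul 0 le_rfl 0
  simpa using this

theorem NN.ne {N : ℂ → ℝ} (h : NN N) {z : ℂ} {a : ℝ} (ha : 0 ≤ a) (hz : a < N z) : z ≠ 0 := by
  rintro rfl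
  rw [h.zero] at hz
  linarith

/-- Annuli and exteriors are connected. -/
theorem NN.preconn {N : ℂ → ℝ} (h : NN N) {I : Set ℝ} (hI : IsPreconnected I)
    (hI0 : ∀ t ∈ I, 0 < t) : IsPreconnected {z | N z ∈ I} := by
  set f : ℝ × ℝ → ℂ := fun p =>
    (p.1 / N (Complex.exp (p.2 * Complex.I))) • Complex.exp (p.2 * Complex.I) with hf
  have hpos : ∀ θ : ℝ, 0 < N (Complex.exp (θ * Complex.I)) := fun θ => h.pos _ (Complex.exp_ne_zero _)
  have hc : Continuous f := by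
    have h1 : Continuous fun p : ℝ × ℝ => Complex.exp (p.2 * Complex.I) := by fun_prop
    exact (continuous_fst.div (h.cont.comp h1) fun p => (hpos p.2).ne').smul h1
  have himg : {z | N z ∈ I} = f '' (I ×ˢ univ) := by
    ext z
    constructor
    · intro hz
      have hz0 : z ≠ 0 := h.ne le_rfl (hI0 _ hz)
      refine ⟨(N z, z.arg), ⟨hz, mem_univ _⟩, ?_⟩
      have e : z = ‖z‖ • Complex.exp (z.arg * Complex.I) := by
        rw [Complex.real_smul, Complex.norm_mul_exp_arg_mul_I]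
      have e2 : N z = ‖z‖ * N (Complex.exp (z.arg * Complex.I)) := by
        conv_lhs => rw [e]
        exact h.smul _ (norm_nonneg z) _
      simp only [hf]
      rw [e2, mul_div_assoc, div_self (hpos _).ne', mul_one]
      exact e.symm
    · rintro ⟨⟨t, θ⟩, ⟨ht, -⟩, rfl⟩
      show N (f (t, θ)) ∈ I
      simp only [hf]
      rw [h.smul _ (div_nonneg (hI0 t ht).le (hpos θ).le), div_mul_cancel₀ _ (hpos θ).ne']
      exact ht
  rw [himg]
  exact (hI.prod isPreconnected_univ).image f hc.continuousOn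

theorem NN.preconn_ann {N : ℂ → ℝ} (h : NN N) {a b : ℝ} (ha : 0 ≤ a) :
    IsPreconnected {z | a < N z ∧ N z < b} :=
  h.preconn (I := Ioo a b) isPreconnected_Ioo fun _ ht => lt_of_le_of_lt ha ht.1

theorem NN.preconn_ext {N : ℂ → ℝ} (h : NN N) {a : ℝ} (ha : 0 ≤ a) :
    IsPreconnected {z | a < N z} :=
  h.preconn (I := Ioi a) isPreconnected_Ioi fun _ ht => lt_of_le_of_lt ha ht

theorem NN.isOpen_ext {N : ℂ → ℝ} (h : NN N) (a : ℝ) : IsOpen {z | a < N z} :=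
  isOpen_lt continuous_const h.cont

theorem NN.nonempty_ann {N : ℂ → ℝ} (h : NN N) {a b : ℝ} (ha : 0 ≤ a) (hab : a < b) :
    {z | a < N z ∧ N z < b}.Nonempty := by
  have h1 : 0 < N 1 := h.pos 1 one_ne_zero
  refine ⟨((a + b) / 2 / N 1) • (1 : ℂ), ?_⟩
  show a < N _ ∧ N _ < b
  rw [h.smul _ (div_nonneg (by linarith) h1.le), div_mul_cancel₀ _ h1.ne']
  constructor <;> linarith

/-- `O(1 / z)`. -/
theorem bound_of_tendsto {g : ℂ → ℂ} {ρ0 ρ1 : ℝ} (h0 : 0 ≤ ρ0) (h1 : ρ0 < ρ1)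
    (hg : DifferentiableOn ℂ g {z | ρ0 < ‖z‖}) (hl : Tendsto g (cocompact ℂ) (𝓝 0)) :
    ∃ C : ℝ, ∀ z, ρ1 ≤ ‖z‖ → ‖z‖ * ‖g z‖ ≤ C := by
  classical
  set ρ := (ρ0 + ρ1) / 2 with hρ
  have hρ0 : ρ0 < ρ := by rw [hρ]; linarith
  have hρ1 : ρ < ρ1 := by rw [hρ]; linarith
  have hρp : 0 < ρ := by linarith
  set φ : ℂ → ℂ := fun w => if w = 0 then 0 else g w⁻¹ with hφ
  have hopen : IsOpen {z : ℂ | ρ0 < ‖z‖} := isOpen_lt continuous_const continuous_norm
  have hinv : ∀ w : ℂ, w ≠ 0 → ‖w‖ < 1 / ρ → ρ < ‖w⁻¹‖ := by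
    intro w hw h
    rw [norm_inv]
    have hw0 : 0 < ‖w‖ := norm_pos_iff.mpr hw
    rw [lt_inv_comm₀ hρp hw0]
    simpa [one_div] using h
  have hd1 : DifferentiableOn ℂ φ (ball 0 (1 / ρ) \ {0}) := by
    have h2 : DifferentiableOn ℂ (fun w : ℂ => g w⁻¹) (ball 0 (1 / ρ) \ {0}) := by
      refine hg.comp (fun w hw => (differentiableAt_inv hw.2).differentiableWithinAt) ?_
      intro w hw
      exact lt_trans hρ0 (hinv w hw.2 (by simpa using hw.1))
    refine h2.congr fun w hw => ?_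
    have : w ≠ 0 := hw.2
    simp only [hφ, this, if_false]
  have hc1 : ContinuousAt φ 0 := by
    rw [continuousAt_iff_punctured_nhds]
    have h2 : Tendsto (fun w : ℂ => g w⁻¹) (𝓝[≠] 0) (𝓝 0) := by
      refine hl.comp ?_
      rw [← cobounded_eq_cocompact]
      exact tendsto_inv₀_nhdsNE_zero
    have e : φ 0 = 0 := by simp [hφ]
    rw [e]
    refine h2.congr' ?_
    filter_upwards [self_mem_nhdsWithin] with w hw
    have : w ≠ 0 := hw
    simp only [hφ, this, if_false]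
  have hnh : ball (0 : ℂ) (1 / ρ) ∈ 𝓝 (0 : ℂ) := ball_mem_nhds _ (by positivity)
  have hd : DifferentiableOn ℂ φ (ball 0 (1 / ρ)) :=
    (Complex.differentiableOn_compl_singleton_and_continuousAt_iff hnh).mp ⟨hd1, hc1⟩
  have hds : DifferentiableOn ℂ (dslope φ 0) (ball 0 (1 / ρ)) :=
    (Complex.differentiableOn_dslope hnh).mpr hd
  have hsub : closedBall (0 : ℂ) (1 / ρ1) ⊆ ball 0 (1 / ρ) :=
    closedBall_subset_ball (one_div_lt_one_div_of_lt hρp hρ1)
  obtain ⟨C, hC⟩ := (isCompact_closedBall (0 : ℂ) (1 / ρ1)).exists_bound_of_continuousOn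
    (hds.continuousOn.mono hsub)
  refine ⟨C, fun z hz => ?_⟩
  have hρ1p : 0 < ρ1 := by linarith
  have hz0 : z ≠ 0 := norm_pos_iff.mp (by linarith)
  have h3 : z⁻¹ ∈ closedBall (0 : ℂ) (1 / ρ1) := by
    rw [mem_closedBall, dist_zero_right, norm_inv, one_div]
    exact inv_anti₀ hρ1p hz
  have h4 := hC _ h3
  rw [dslope_of_ne _ (inv_ne_zero hz0), slope_def_field] at h4
  have e : φ 0 = 0 := by simp [hφ]
  have e2 : φ z⁻¹ = g z := by simp [hφ, hz0]
  rw [e, e2, sub_zero, sub_zero, div_inv_eq_mul, norm_mul] at h4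
  linarith [mul_comm ‖g z‖ ‖z‖]

/-! ### The square annulus -/

/-- The square annulus. -/
def sann (R0 R1 : ℝ) : Set ℂ := sq R1 \ csq R0

theorem mem_csq_iff {R : ℝ} {z : ℂ} : z ∈ csq R ↔ sqn z ≤ R := max_le_iff.symm

theorem mem_sq_iff {R : ℝ} {z : ℂ} : z ∈ sq R ↔ sqn z < R := max_lt_iff.symm

theorem mem_sann_iff {R0 R1 : ℝ} {z : ℂ} : z ∈ sann R0 R1 ↔ R0 < sqn z ∧ sqn z < R1 := by
  rw [sann, Set.mem_sdiff, mem_csq_iff, mem_sq_iff, not_le]
  exact and_comm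

theorem sann_eq (R0 R1 : ℝ) : sann R0 R1 = {z | R0 < sqn z ∧ sqn z < R1} :=
  Set.ext fun _ => mem_sann_iff

theorem isOpen_sann (R0 R1 : ℝ) : IsOpen (sann R0 R1) := (isOpen_sq _).sdiff (isClosed_csq _)

theorem preconn_sann {R0 R1 : ℝ} (h0 : 0 ≤ R0) : IsPreconnected (sann R0 R1) := by
  rw [sann_eq]
  exact nn_sqn.preconn_ann h0

theorem preconn_ann {R0 R1 : ℝ} (h0 : 0 ≤ R0) : IsPreconnected (ann R0 R1) :=
  nn_norm.preconn_ann h0

theorem isOpen_ann' (R0 R1 : ℝ) : IsOpen (ann R0 R1) :=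
  (isOpen_lt continuous_const continuous_norm).inter (isOpen_lt continuous_norm continuous_const)

theorem norm_le_sqrt (z : ℂ) : ‖z‖ ≤ √2 * sqn z := by
  have h1 : |z.re| ≤ sqn z := le_max_left _ _
  have h2 : |z.im| ≤ sqn z := le_max_right _ _
  have h0 : 0 ≤ sqn z := (abs_nonneg _).trans h1
  refine abs_le_of_sq_le_sq' ?_ (by positivity) |>.2
  rw [Complex.sq_norm, Complex.normSq_apply, mul_pow, Real.sq_sqrt (by norm_num)]
  have h3 : z.re * z.re ≤ sqn z ^ 2 := by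
    rw [← abs_mul_abs_self z.re, pow_two]
    exact mul_self_le_mul_self (abs_nonneg _) h1
  have h4 : z.im * z.im ≤ sqn z ^ 2 := by
    rw [← abs_mul_abs_self z.im, pow_two]
    exact mul_self_le_mul_self (abs_nonneg _) h2
  linarith

/-- A round annulus in the square annulus. -/
theorem exists_round {R0 R1 : ℝ} (h0 : 0 < R0) (h1 : 2 * R0 < R1) :
    ∃ r0 r1 : ℝ, 0 < r0 ∧ r0 < r1 ∧ r1 < R1 ∧
      (∀ z : ℂ, r0 ≤ ‖z‖ → R0 < sqn z) ∧ ∀ z : ℂ, ‖z‖ ≤ r1 → sqn z < R1 := by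
  have hs : √2 < 2 := by
    rw [Real.sqrt_lt' (by norm_num)]
    norm_num
  refine ⟨2 * R0, (2 * R0 + R1) / 2, by linarith, by linarith, by linarith, fun z hz => ?_,
    fun z hz => ?_⟩
  · by_contra h
    push Not at h
    have h3 := norm_le_sqrt z
    have h4 : √2 * sqn z ≤ √2 * R0 := mul_le_mul_of_nonneg_left h (Real.sqrt_nonneg 2)
    have h5 : √2 * R0 < 2 * R0 := mul_lt_mul_of_pos_right hs h0
    linarith
  · exact lt_of_le_of_lt (sqn_le_norm z) (by linarith)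

section Abs

variable {F : Type*} [AddCommGroup F] [Module ℂ F] {ι : Type}

/-- OUT: all coordinates extend to the outside and tend to zero at infinity. -/
def OutF (ev : ι → F →ₗ[ℂ] ℂ) (R0 R1 : ℝ) (J : ℂ → F) : Prop :=
  ∀ i, ∃ h : ℂ → ℂ, DifferentiableOn ℂ h (csq R0)ᶜ ∧
    EqOn h (fun z => ev i (J z)) (sann R0 R1) ∧ Tendsto h (cocompact ℂ) (𝓝 0)

end Abs

variable {n l : ℕ} (P : Prm)

/-- Solutions are holomorphic in the direction of `z`. -/
theorem ULS_hol : HolZ (ULS P n l) evQ := fun _ _ hy _ _ hz Q => ULS_diff hy hz Q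

/-- The y-part of a functional of `ULS`: `Q ↦ J[(x_n - z) Q]`. -/
noncomputable def yp (z : ℂ) (J : Fnl (n + 1)) : Fnl (n + 1) :=
  J ∘ₗ LinearMap.mulLeft ℂ (X (Fin.last n) - C z)

theorem ymap_symm (z : ℂ) (U : Fnl (n + 1)) : ymap z ((shE n z).symm U) = yp z U := by
  refine LinearMap.ext fun Q => ?_
  simp only [ymap, yp, LinearMap.comp_apply, LinearMap.mulLeft_apply, shE_symm_apply,
    AlgHom.toLinearMap_apply]
  rw [map_mul, shift_shift, neg_add_cancel, shift_zero, Loc.shift_X_last, C_neg, sub_eq_add_neg]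

/-- The y-part of a parallel section is parallel. -/
theorem Par.yp {T : Type*} [TopologicalSpace T] {h : T → Tup n l × ℂ} {S : Set T}
    {u : T → Fnl (n + 1)} (hX : MapsTo h S (ULS P n l).X) (hh : ContinuousOn h S)
    (hu : (ULS P n l).Par h S u) :
    (ZLS P n l).Par (fun t => (h t).1) S (fun t => yp (h t).2 (u t)) := by
  have h1 := Par.ymap P (h := h) (S := S) hX hh (ULS_par.1 hu)
  exact h1.congr fun t _ => ymap_symm _ _

section Trans

variable {P} {q : Tup n l}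

theorem zero_par {E W : Type*} [TopologicalSpace E] [AddCommGroup W] [Module ℂ W] {A : LS E W}
    (hA : A.Lin) {T : Type*} [TopologicalSpace T] (h : T → E) (S : Set T) :
    A.Par h S (fun _ => 0) :=
  LS.Par.of_sol (A := A) (h := h) (S := S) (hA.zero (N := univ) isOpen_univ) fun _ _ => mem_univ _

/-- From the square annulus to the round annulus. -/
theorem OutF.toSec {R0 R1 r0 r1 : ℝ} (hr0 : 0 ≤ r0) (hr : r0 < r1)
    (hin : ∀ z : ℂ, r0 ≤ ‖z‖ → R0 < sqn z) (hout : ∀ z : ℂ, ‖z‖ ≤ r1 → sqn z < R1)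
    {J : ℂ → Fnl (n + 1)} (hJ : (ULS P n l).Par (fun z => (q, z)) (sann R0 R1) J)
    (ho : OutF (evQ) R0 R1 J) : OutSec P r0 r1 q (fun z => (shE n z).symm (J z)) := by
  have hsub : ann r0 r1 ⊆ sann R0 R1 := fun z hz =>
    mem_sann_iff.2 ⟨hin z hz.1.le, hout z hz.2.le⟩
  have hsub2 : {z : ℂ | r0 < ‖z‖} ⊆ (csq R0)ᶜ := fun z (hz : r0 < ‖z‖) => by
    rw [mem_compl_iff, mem_csq_iff, not_le]
    exact hin z hz.le
  refine ⟨ULS_par.1 (hJ.mono hsub), fun Q => ?_⟩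
  obtain ⟨g, g1, g2, g3⟩ := ho Q
  refine ⟨g, g1.mono hsub2, fun z hz => ?_, ?_⟩
  · rw [g2 (hsub hz)]
    show J z Q = J z (shift (-z) (shift z Q))
    rw [shift_shift, neg_add_cancel, shift_zero]
  · exact bound_of_tendsto hr0 hr (g1.mono hsub2) g3

/-- From the round annulus to the square annulus. -/
theorem OutF.ofSec {R0 R1 r0 r1 : ℝ} (hR0 : 0 ≤ R0) (hr0 : 0 ≤ r0) (hr : r0 < r1)
    (hin : ∀ z : ℂ, r0 ≤ ‖z‖ → R0 < sqn z) (hout : ∀ z : ℂ, ‖z‖ ≤ r1 → sqn z < R1)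
    {J : ℂ → Fnl (n + 1)} (hJ : (ULS P n l).Par (fun z => (q, z)) (sann R0 R1) J)
    {K : ℂ → Fnl (n + 1)} (hK : OutSec P r0 r1 q K) (he : ∀ z ∈ ann r0 r1, J z = shE n z (K z)) :
    OutF (evQ) R0 R1 J := by
  classical
  intro Q
  obtain ⟨g, g1, g2, C, hC⟩ := hK.2 Q
  have hsub : ann r0 r1 ⊆ sann R0 R1 := fun z hz =>
    mem_sann_iff.2 ⟨hin z hz.1.le, hout z hz.2.le⟩
  have hgJ : ∀ z ∈ ann r0 r1, g z = J z Q := fun z hz => by
    rw [g2 z hz, he z hz]
    rfl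
  have hJd : DifferentiableOn ℂ (fun z => evQ Q (J z)) (sann R0 R1) :=
    (ULS_hol P).diffOn (isOpen_sann R0 R1) hJ Q
  set H : ℂ → ℂ := fun z => if ‖z‖ < r1 then J z Q else g z with hH
  have e1 : ∀ z, r0 < ‖z‖ → H z = g z := by
    intro z hz
    by_cases h : ‖z‖ < r1
    · simp only [hH, h, if_true]
      exact (hgJ z ⟨hz, h⟩).symm
    · simp only [hH, h, if_false]
  have e2 : ∀ z, ‖z‖ < r1 → H z = J z Q := fun z hz => by simp only [hH, hz, if_true]
  have hHd : DifferentiableOn ℂ H (csq R0)ᶜ := by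
    intro z hz
    rw [mem_compl_iff, mem_csq_iff, not_le] at hz
    by_cases h : r0 < ‖z‖
    · have ho : IsOpen {z : ℂ | r0 < ‖z‖} := isOpen_lt continuous_const continuous_norm
      refine ((g1.differentiableAt (ho.mem_nhds h)).congr_of_eventuallyEq
        ?_).differentiableWithinAt
      filter_upwards [ho.mem_nhds h] with x hx
      exact e1 x hx
    · have h2 : ‖z‖ < r1 := lt_of_le_of_lt (not_lt.mp h) hr
      have ho : IsOpen {z : ℂ | ‖z‖ < r1} := isOpen_lt continuous_norm continuous_const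
      have hzs : z ∈ sann R0 R1 := mem_sann_iff.2 ⟨hz, hout z h2.le⟩
      refine ((hJd.differentiableAt ((isOpen_sann R0 R1).mem_nhds hzs)).congr_of_eventuallyEq
        ?_).differentiableWithinAt
      filter_upwards [ho.mem_nhds h2] with x hx
      exact e2 x hx
  refine ⟨H, hHd, ?_, ?_⟩
  · obtain ⟨z₀, hz₀⟩ := nn_norm.nonempty_ann hr0 hr
    have hsc : sann R0 R1 ⊆ (csq R0)ᶜ := fun z hz => hz.2
    refine ((hHd.mono hsc).analyticOnNhd (isOpen_sann R0 R1)).eqOn_of_preconnected_of_eventuallyEq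
      (hJd.analyticOnNhd (isOpen_sann R0 R1)) (preconn_sann hR0) (hsub hz₀) ?_
    filter_upwards [(isOpen_ann' r0 r1).mem_nhds hz₀] with x hx
    exact e2 x hx.2
  · have hl : Tendsto g (cocompact ℂ) (𝓝 0) := by
      rw [tendsto_zero_iff_norm_tendsto_zero]
      have h4 : Tendsto (fun z : ℂ => C * ‖z‖⁻¹) (cocompact ℂ) (𝓝 0) := by
        have h5 : Tendsto (fun z : ℂ => ‖z‖⁻¹) (cocompact ℂ) (𝓝 0) :=
          tendsto_inv_atTop_zero.comp tendsto_norm_cocompact_atTop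
        simpa using h5.const_mul C
      refine squeeze_zero' (Eventually.of_forall fun z => norm_nonneg _) ?_ h4
      have h5 : ∀ᶠ z : ℂ in cocompact ℂ, max r1 1 ≤ ‖z‖ :=
        (tendsto_norm_cocompact_atTop (E := ℂ)).eventually_ge_atTop _
      filter_upwards [h5] with z hz
      have h6 : 0 < ‖z‖ := by linarith [le_max_right r1 1]
      rw [← div_eq_mul_inv, le_div_iff₀ h6, mul_comm]
      exact hC z ((le_max_left _ _).trans hz)
    refine hl.congr' ?_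
    have h5 : ∀ᶠ z : ℂ in cocompact ℂ, r0 < ‖z‖ :=
      (tendsto_norm_cocompact_atTop (E := ℂ)).eventually_gt_atTop _
    filter_upwards [h5] with z hz
    exact (e1 z hz).symm

variable (P) in
/-- (3.2) OUT is preserved by transport. -/
theorem outF_transport {R0 R1 : ℝ} (h0 : 0 < R0) (h1 : 2 * R0 < R1) {T : Type*}
    [TopologicalSpace T] {S : Set T} (hS : IsPreconnected S) {h : T → Tup n l}
    (hh : ContinuousOn h S) (hX : ∀ t ∈ S, ∀ z ∈ sann R0 R1, (h t, z) ∈ (ULS P n l).X)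
    {U : ℂ × T → Fnl (n + 1)}
    (hU : (ULS P n l).Par (fun p : ℂ × T => (h p.2, p.1)) (sann R0 R1 ×ˢ S) U) {t t' : T}
    (ht : t ∈ S) (ht' : t' ∈ S) (ho : OutF (evQ) R0 R1 (fun z => U (z, t))) :
    OutF (evQ) R0 R1 (fun z => U (z, t')) := by
  obtain ⟨r0, r1, hr0, hr, hr1, hin, hout⟩ := exists_round h0 h1
  have hsub : ann r0 r1 ⊆ sann R0 R1 := fun z hz =>
    mem_sann_iff.2 ⟨hin z hz.1.le, hout z hz.2.le⟩
  have hfix : ∀ t ∈ S, (ULS P n l).Par (fun z => (h t, z)) (sann R0 R1) (fun z => U (z, t)) :=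
    fun t ht => hU.comp (g := fun z : ℂ => (z, t)) (Continuous.prodMk_left t).continuousOn
      fun z hz => ⟨hz, ht⟩
  obtain ⟨z₀, hz₀⟩ := nn_norm.nonempty_ann hr0.le hr
  have hz₀s : z₀ ∈ sann R0 R1 := hsub hz₀
  have hu : (ULS P n l).Par (fun t => (h t, z₀)) S (fun t => U (z₀, t)) :=
    hU.comp (g := fun t : T => (z₀, t)) (Continuous.prodMk_right z₀).continuousOn
      fun t ht => ⟨hz₀s, ht⟩
  have hs : ∀ t ∈ S, SingF (P.f (h t)) = ∅ := fun t ht =>
    ((mem_ULS_X P).1 (hX t ht z₀ hz₀s)).1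
  have hf : ∀ t ∈ S, ∀ z : ℂ, r0 ≤ ‖z‖ → ‖z‖ ≤ r1 → z ∉ SigF (P.f (h t)) := fun t ht z h2 h3 =>
    ((mem_ULS_X P).1 (hX t ht z (mem_sann_iff.2 ⟨hin z h2, hout z h3⟩))).2
  have hsec := ho.toSec hr0.le hr hin hout (hfix t ht)
  obtain ⟨K, hK1, hK2⟩ := Out.transport P hr0 hr hS hh hs hf (z₀ := z₀) hz₀
    (u := fun t => (shE n z₀).symm (U (z₀, t))) (ULS_par.1 hu) ht ht' ⟨_, hsec, rfl⟩
  refine OutF.ofSec h0.le hr0.le hr hin hout (hfix t' ht') hK1 ?_
  have hUV : (VLS P n l).Par (fun z => (h t', z)) (ann r0 r1)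
      (fun z => (shE n z).symm (U (z, t'))) := ULS_par.1 ((hfix t' ht').mono hsub)
  have heq := LS.Par.unique (A := VLS P n l) (preconn_ann hr0.le) (by fun_prop)
    (fun z hz => hX t' ht' z (hsub hz)) hK1.1 hUV hz₀ hK2
  intro z hz
  rw [heq hz]
  exact ((shE n z).apply_symm_apply _).symm

variable (P) in
/-- (3.2) An OUT section with vanishing y-part at a point is zero. -/
theorem outF_eq_zero {R0 R1 : ℝ} (h0 : 0 < R0) (h1 : 2 * R0 < R1) {q : Tup n l}
    (hX : ∀ z ∈ sann R0 R1, (q, z) ∈ (ULS P n l).X) {J : ℂ → Fnl (n + 1)}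
    (hJ : (ULS P n l).Par (fun z => (q, z)) (sann R0 R1) J) (ho : OutF (evQ) R0 R1 J) {z : ℂ}
    (hz : z ∈ sann R0 R1) (hy : yp z (J z) = 0) : ∀ z ∈ sann R0 R1, J z = 0 := by
  obtain ⟨r0, r1, hr0, hr, hr1, hin, hout⟩ := exists_round h0 h1
  have hsub : ann r0 r1 ⊆ sann R0 R1 := fun z hz =>
    mem_sann_iff.2 ⟨hin z hz.1.le, hout z hz.2.le⟩
  obtain ⟨z₀, hz₀⟩ := nn_norm.nonempty_ann hr0.le hr
  have hz₀s : z₀ ∈ sann R0 R1 := hsub hz₀
  have hs : SingF (P.f q) = ∅ := ((mem_ULS_X P).1 (hX z₀ hz₀s)).1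
  have hf : ∀ z : ℂ, r0 ≤ ‖z‖ → ‖z‖ ≤ r1 → z ∉ SigF (P.f q) := fun z h2 h3 =>
    ((mem_ULS_X P).1 (hX z (mem_sann_iff.2 ⟨hin z h2, hout z h3⟩))).2
  have hyp := Par.yp P (h := fun z : ℂ => (q, z)) (S := sann R0 R1) (fun z hz => hX z hz)
    (by fun_prop) hJ
  have hy0 := LS.Par.unique (preconn_sann h0.le) continuousOn_const
    (fun z hz => (mem_ZLS_X P).2 hs) hyp (zero_par (ZLS_lin P) _ _) hz hy
  have hsec := ho.toSec hr0.le hr hin hout hJ
  have h2 := Out.eq_zero P hr0 hr hs hf (z := z₀) hz₀ ⟨_, hsec, rfl⟩ (by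
    rw [ymap_symm]
    exact hy0 hz₀s)
  have h3 : J z₀ = 0 := by
    have := congrArg (shE n z₀) h2
    rwa [(shE n z₀).apply_symm_apply, map_zero] at this
  exact LS.Par.unique (preconn_sann h0.le) (by fun_prop) (fun z hz => hX z hz) hJ
    (zero_par (ULS_lin P) _ _) hz₀s h3

end Trans

end Pool.Agent.QC
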