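import Pool.Agent.QC.Asm.OutT
import Pool.Agent.QC.Asm.Jump
import Pool.Agent.QC.Cyc.Iface
import Pool.Agent.QC.Cyc.Single
import Pool.Agent.QC.S4.Jump
import Pool.Agent.QC.S4.Fnl

/-!
# MP_7c50a9_lc: real cycles in the gauge of `ULS`
-/

set_option autoImplicit false

namespace Pool.Agent.QC

open MvPolynomial Filter Topology Set MeasureTheory

variable {n l : ℕ} (P : Prm)

/-- The real cycle of `O` in `ULS`: `Q ↦ ∫ f^a Q / (x_n - z)`. -/
noncomputable def UJ (q : RTup n l) (O : Set (Fin (n + 1) → ℝ)) (z : ℂ) : Fnl (n + 1) :=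
  shE n z (JC P q O z)

/-- The jump of the real cycle. -/
noncomputable def UA (q : RTup n l) (O : Set (Fin (n + 1) → ℝ)) (τ : ℝ) : Fnl (n + 1) :=
  shE n τ ((2 * Real.pi * Complex.I) • sl (aU P.a (fR P.en P.eta q) (cyc P q O) τ))

theorem cyc_sub {q : RTup n l} {O : Set (Fin (n + 1) → ℝ)} {x : Fin (n + 1) → ℝ}
    (hx : x ∈ cyc P q O) : x ∈ O ∧ 0 ≤ fR 0 0 q x :=
  ⟨hx.1, hx.2.le.trans (Cyc.fR_le P q x)⟩

theorem UJ_par {q : RTup n l} {O : Set (Fin (n + 1) → ℝ)} (h : Pr q O)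
    (hs : SingF (P.f (tC q)) = ∅) {R : ℝ} (hR : ∀ x ∈ O, 0 ≤ fR 0 0 q x → |x (Fin.last n)| ≤ R) :
    (ULS P n l).Par (fun z => (tC q, z))
      {z | (z.im ≠ 0 ∨ R < |z.re|) ∧ z ∉ SigF (P.f (tC q))} (UJ P q O) := by
  have h1 := cyc_V (Cyc.rfam_const (P := P) (Cyc.Pr_piece h) (Cyc.Pr_closure h).1)
    (fun _ _ => hs) (R := R) fun p hp => hR p.2 (cyc_sub P hp).1 (cyc_sub P hp).2
  have h2 := h1.comp (g := fun z : ℂ => ((0 : ℝ), z))
    (R := {z | (z.im ≠ 0 ∨ R < |z.re|) ∧ z ∉ SigF (P.f (tC q))})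
    (Continuous.prodMk_right (0 : ℝ)).continuousOn fun z hz => ⟨mem_univ _, hz.1, hz.2⟩
  exact (ULS_par' (h := fun z => (tC q, z))).2 h2

theorem UJ_apply {q : RTup n l} {O : Set (Fin (n + 1) → ℝ)} (h : Pr q O) {R : ℝ}
    (hR : ∀ x ∈ O, 0 ≤ fR 0 0 q x → |x (Fin.last n)| ≤ R) {z : ℂ} (hz : z.im ≠ 0 ∨ R < |z.re|)
    (Q : Pol (n + 1)) : UJ P q O z Q = Cyc.gQ P q (cyc P q O) Q z :=
  Cyc.JU_shift (Cyc.Pr_piece h) (Cyc.Pr_closure h).1
    (fun x hx => hR x (cyc_sub P hx).1 (cyc_sub P hx).2) hz Q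

theorem exists_boundR {q : RTup n l} {O : Set (Fin (n + 1) → ℝ)} (h : Pr q O) {R0 : ℝ}
    (h0 : 0 < R0) (hR : ∀ x ∈ O, 0 ≤ fR 0 0 q x → |x (Fin.last n)| < R0) :
    ∃ R, 0 ≤ R ∧ R < R0 ∧ ∀ x ∈ O, 0 ≤ fR 0 0 q x → |x (Fin.last n)| ≤ R := by
  rcases {x ∈ O | 0 ≤ fR 0 0 q x}.eq_empty_or_nonempty with he | hne
  · refine ⟨0, le_rfl, h0, fun x hx hx' => ?_⟩
    have : x ∈ {x ∈ O | 0 ≤ fR 0 0 q x} := ⟨hx, hx'⟩
    rw [he] at this
    exact absurd this (notMem_empty x)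
  · obtain ⟨x₀, hx₀, hmax⟩ := h.compact.exists_isMaxOn hne
      (f := fun x : Fin (n + 1) → ℝ => |x (Fin.last n)|) (continuous_apply _).abs.continuousOn
    exact ⟨|x₀ (Fin.last n)|, abs_nonneg _, hR x₀ hx₀.1 hx₀.2, fun x hx hx' => hmax ⟨hx, hx'⟩⟩

theorem UJ_out {q : RTup n l} {O : Set (Fin (n + 1) → ℝ)} (h : Pr q O)
    (hs : SingF (P.f (tC q)) = ∅) {R0 R1 : ℝ} (h0 : 0 < R0) (h1 : 2 * R0 < R1)
    (hR : ∀ x ∈ O, 0 ≤ fR 0 0 q x → |x (Fin.last n)| < R0)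
    (hX : ∀ z ∈ sann R0 R1, z ∉ SigF (P.f (tC q))) : OutF (evQ) R0 R1 (UJ P q O) := by
  have _ := hs
  have _ := h1
  have _ := hX
  obtain ⟨R, hR0, hRR, hR'⟩ := exists_boundR h h0 hR
  have hcyc : ∀ x ∈ cyc P q O, |x (Fin.last n)| ≤ R := fun x hx =>
    hR' x (cyc_sub P hx).1 (cyc_sub P hx).2
  intro Q
  refine ⟨Cyc.gQ P q (cyc P q O) Q, fun z hz => ?_, fun z hz => ?_, ?_⟩
  · rw [mem_compl_iff, mem_csq_iff, not_le] at hz
    exact (Cyc.hasDerivAt_gQ (Cyc.Pr_piece h) (Cyc.Pr_closure h).1 hcyc Q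
      (hRR.trans (hz.trans_le (sqn_le_norm z)))).differentiableWithinAt
  · have hz1 := (mem_sann_iff.1 hz).1
    refine (UJ_apply P h hR' ?_ Q).symm
    by_cases him : z.im = 0
    · right
      rw [sqn, him, abs_zero, max_eq_left (abs_nonneg _)] at hz1
      exact hRR.trans hz1
    · exact Or.inl him
  · obtain ⟨C, hC⟩ := Cyc.norm_gQ_le (Cyc.Pr_piece h) (Cyc.Pr_closure h).1 hcyc Q hRR
    rw [tendsto_zero_iff_norm_tendsto_zero]
    have h4 : Tendsto (fun z : ℂ => C * ‖z‖⁻¹) (cocompact ℂ) (𝓝 0) := by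
      have h5 : Tendsto (fun z : ℂ => ‖z‖⁻¹) (cocompact ℂ) (𝓝 0) :=
        tendsto_inv_atTop_zero.comp tendsto_norm_cocompact_atTop
      simpa using h5.const_mul C
    refine squeeze_zero' (Eventually.of_forall fun z => norm_nonneg _) ?_ h4
    have h5 : ∀ᶠ z : ℂ in cocompact ℂ, R0 ≤ ‖z‖ :=
      (tendsto_norm_cocompact_atTop (E := ℂ)).eventually_ge_atTop _
    filter_upwards [h5] with z hz
    have h6 : 0 < ‖z‖ := by linarith
    rw [← div_eq_mul_inv, le_div_iff₀ h6, mul_comm]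
    exact hC z hz

/-! ### The jump -/

theorem continuous_snocR (n : ℕ) (τ : ℝ) :
    Continuous fun x : Fin n → ℝ => (Fin.snoc x τ : Fin (n + 1) → ℝ) := by
  refine continuous_pi fun i => ?_
  refine Fin.lastCases ?_ (fun j => ?_) i
  · simpa using continuous_const
  · simpa using continuous_apply j

theorem slice_piece {f : (Fin (n + 1) → ℝ) → ℝ} {T : Set (Fin (n + 1) → ℝ)}
    (hT : S4.Piece f T univ) (τ : ℝ) : S4.Piece (fun x : Fin n → ℝ => f (Fin.snoc x τ))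
      {x : Fin n → ℝ | (Fin.snoc x τ : Fin (n + 1) → ℝ) ∈ T} univ where
  isOpenD := isOpen_univ
  isOpen := hT.isOpen.preimage (continuous_snocR n τ)
  sub := subset_univ _
  pos _ hx := hT.pos _ hx
  zero x _ hx hx' := by
    have h1 : (Fin.snoc x τ : Fin (n + 1) → ℝ) ∈ closure T :=
      map_mem_closure (f := fun x : Fin n → ℝ => (Fin.snoc x τ : Fin (n + 1) → ℝ))
        (continuous_snocR n τ) hx fun _ hy => hy
    exact hT.zero _ (mem_univ _) h1 hx'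

theorem slice_compact {T : Set (Fin (n + 1) → ℝ)} (hc : IsCompact (closure T)) (τ : ℝ) :
    IsCompact (closure {x : Fin n → ℝ | (Fin.snoc x τ : Fin (n + 1) → ℝ) ∈ T}) := by
  have h1 : IsCompact ((fun x : Fin (n + 1) → ℝ => fun i : Fin n => x i.castSucc) '' closure T) :=
    hc.image (by fun_prop)
  refine h1.of_isClosed_subset isClosed_closure (closure_minimal (fun x hx => ?_) h1.isClosed)
  refine ⟨Fin.snoc x τ, subset_closure hx, ?_⟩
  funext i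
  simp

theorem xC_snoc (x : Fin n → ℝ) (τ : ℝ) :
    Loc.sx (τ : ℂ) (Fin.snoc (xC x) 0 : Fin (n + 1) → ℂ) =
      xC (Fin.snoc x τ : Fin (n + 1) → ℝ) := by
  funext i
  refine Fin.lastCases ?_ (fun j => ?_) i
  · simp [xC]
  · simp [xC]

theorem UA_apply {q : RTup n l} {O : Set (Fin (n + 1) → ℝ)} (h : Pr q O) (τ : ℝ)
    (Q : Pol (n + 1)) : UA P q O τ Q = 2 * Real.pi * Complex.I *
      S4.slI (fR P.en P.eta q) (cyc P q O) P.a (fun x => eval (xC x) Q) τ := by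
  have ha : 0 < P.a := by linarith [P.two_lt]
  have hp : S4.Piece (fR P.en P.eta q) (cyc P q O) univ := Cyc.Pr_piece h
  have h1 := S4.yU_apply' (slice_piece hp τ) (slice_compact (Cyc.Pr_closure h).1 τ) ha
    ((Cyc.continuous_fR q P.en P.eta).comp (continuous_snocR n τ)) (slice (shift τ Q))
  have h2 : UA P q O τ Q = 2 * Real.pi * Complex.I *
      aU P.a (fR P.en P.eta q) (cyc P q O) τ (slice (shift τ Q)) := rfl
  rw [h2, aU, h1]
  congr 1
  refine integral_congr_ae (Eventually.of_forall fun x => ?_)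
  simp only [Loc.eval_slice, Loc.eval_shift, xC_snoc, S4.sn_apply, Complex.real_smul]
  congr 2

theorem UJ_jump {q : RTup n l} {O : Set (Fin (n + 1) → ℝ)} (h : Pr q O)
    (hs : SingF (P.f (tC q)) = ∅) {τ : ℝ} (hτ : (τ : ℂ) ∉ SigF (P.f (tC q))) :
    JumpLim (evQ) (UJ P q O) τ (UA P q O τ) := by
  have _ := hs
  have _ := hτ
  have ha : 0 < P.a := by linarith [P.two_lt]
  have hp : S4.Piece (fR P.en P.eta q) (cyc P q O) univ := Cyc.Pr_piece h
  intro Q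
  have h1 := hp.tendsto_cauchy_jump (Cyc.Pr_closure h).1 ha (Cyc.continuous_fR q P.en P.eta)
    (Cyc.continuous_eval_xC Q) τ
  obtain ⟨B, hB⟩ := (h.compact.image (f := fun x : Fin (n + 1) → ℝ => |x (Fin.last n)|)
    (continuous_apply _).abs).bddAbove
  have hR : ∀ x ∈ O, 0 ≤ fR 0 0 q x → |x (Fin.last n)| ≤ B := fun x hx hx' =>
    hB ⟨x, ⟨hx, hx'⟩, rfl⟩
  have hval : ∀ z : ℂ, z.im ≠ 0 → evQ Q (UJ P q O z) =
      S4.cauchy (fR P.en P.eta q) (cyc P q O) P.a (fun x => eval (xC x) Q) z := by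
    intro z hz
    rw [evQ_apply, UJ_apply P h hR (Or.inl hz) Q, Cyc.gQ, S4.cauchy]
    refine integral_congr_ae (Eventually.of_forall fun x => ?_)
    simp only [Complex.real_smul, mul_div_assoc]
  rw [evQ_apply, UA_apply P h]
  refine h1.congr' ?_
  filter_upwards [self_mem_nhdsWithin] with y hy
  have hy' : 0 < y := hy
  rw [hval _ (by simpa using hy'.ne'), hval _ (by simpa using hy'.ne')]

end Pool.Agent.QC
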