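import Pool.Agent.QC.An.ULS
import Pool.Agent.QC.Cyc.JumpC

/-!
# MP_7c50a9_lc: the jumps of a real cycle correspond under the transport above the event
-/

namespace Pool.Agent.QC.Cyc

open MvPolynomial Filter Topology Set

variable {n l : ℕ} {P : Prm}

/-- `UA_par` of Asm/Frame.lean, with `UA` unfolded. -/
theorem UA_par_aux {q : RTup n l} {O : Set (Fin (n + 1) → ℝ)} (hO : IsOpen O)
    (hsub : ∀ x ∈ O, inOm q x) {t₁ tv κ : ℝ} (hκ : 0 < κ) (ht : tv + κ < t₁)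
    (h : ∀ t < t₁, IsCompact {x ∈ O | 0 ≤ fR 0 0 (addT q t) x}) {τ : ℝ}
    (hX : ∀ t : ℂ, ‖t - tv‖ ≤ κ → 0 ≤ t.im → (τ : ℂ) ∉ SigF (P.f (addT (tC q) t)))
    (hs : ∀ t : ℂ, ‖t - tv‖ = κ → 0 ≤ t.im → SingF (P.f (addT (tC q) t)) = ∅) {θ : ℝ → ℂ}
    (hθ : ContinuousOn θ (Icc 0 1)) (hθ1 : ∀ s ∈ Icc (0 : ℝ) 1, ‖θ s - tv‖ = κ ∧ 0 ≤ (θ s).im)
    (hθ0 : θ 0 = ((tv - κ : ℝ) : ℂ)) (hθ2 : θ 1 = ((tv + κ : ℝ) : ℂ)) :
    ∃ u : ℝ → Fnl (n + 1),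
      (ULS P n l).Par (fun s : ℝ => (addT (tC q) (θ s), (τ : ℂ))) (Icc 0 1) u ∧
      u 0 = shE n τ ((2 * Real.pi * Complex.I) •
        sl (aU P.a (fR P.en P.eta (addT q (tv - κ))) (cyc P (addT q (tv - κ)) O) τ)) ∧
      u 1 = shE n τ ((2 * Real.pi * Complex.I) •
        sl (aU P.a (fR P.en P.eta (addT q (tv + κ))) (cyc P (addT q (tv + κ)) O) τ)) := by
  obtain ⟨u, h1, h2, h3⟩ := slice_transport (P := P) hO hsub hκ ht h hX hs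
  have h4 : (VLS P n l).Par (fun s : ℝ => (addT (tC q) (θ s), (τ : ℂ))) (Icc 0 1)
      (fun s => (2 * Real.pi * Complex.I) • u (θ s)) :=
    LS.Par.smul (VLS_lin P) _ (h1.comp (g := θ) hθ fun s hs' => hθ1 s hs')
  refine ⟨fun s => shE n τ ((2 * Real.pi * Complex.I) • u (θ s)), ?_, ?_, ?_⟩
  · exact ULS_par'.2 h4
  · simp only [hθ0, h2]
  · simp only [hθ2, h3]

end Pool.Agent.QC.Cyc
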