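import Pool.Agent.QC.An.ULSLoc
import Pool.Agent.QC.Asm.Jump
import Pool.Agent.QC.Asm.UAPar
import Pool.Agent.QC.Asm.FrameC
import Pool.Agent.QC.Asm.FrameX
import Pool.Agent.QC.Asm.OutT
import Pool.Agent.QC.Asm.Real
import Pool.Agent.QC.Cyc.Iface
import Pool.Agent.QC.Ev.Iface

/-!
# MP_7c50a9_lc: assembly, definitions and statements, part 1

The base space, the plane at the end of a chain of paths.  The square annulus, OUT sections,
`outF_transport`, `outF_eq_zero`, `Par.yp` are in `OutT`, the real cycles `UJ`, `UA` in `Real`.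
-/

namespace Pool.Agent.QC

open MvPolynomial Filter Topology Set

section Abs

variable {Q : Type*} [TopologicalSpace Q] {F : Type*} [AddCommGroup F] [Module ℂ F] {ι : Type}

/-- A chain of paths `γ 0, ..., γ m`. -/
structure Chain (m : ℕ) (γ : ℕ → ℝ → Q) : Prop where
  cont : ∀ k ≤ m, ContinuousOn (γ k) (Icc 0 1)
  join : ∀ k < m, γ k 1 = γ (k + 1) 0

/-- Transport of sections on the annulus along a chain. -/
structure TrC (A : LS (Q × ℂ) F) (R0 R1 : ℝ) (m : ℕ) (γ : ℕ → ℝ → Q) (U : ℕ → ℂ × ℝ → F) :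
    Prop where
  par : ∀ k ≤ m, A.Par (fun p : ℂ × ℝ => (γ k p.2, p.1)) (sann R0 R1 ×ˢ Icc 0 1) (U k)
  join : ∀ k < m, ∀ z ∈ sann R0 R1, U k (z, 1) = U (k + 1) (z, 0)

end Abs

variable {n l : ℕ} (P : Prm)

/-! ## Facts about `ULS` (block U) -/

/-- Single valued sections extend over a simple critical value. -/
theorem loc_fill {P : Prm} {q : Tup n l} {w : ℂ} (h : SimpleCV P q w) {ε : ℝ} (hε : 0 < ε)
    {g : ℂ → Fnl (n + 1)}
    (hg : (ULS P n l).Par (fun z => (q, z)) (Metric.ball w ε \ {w}) g) :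
    ∃ g' : ℂ → Fnl (n + 1), (∀ Q, DifferentiableOn ℂ (fun z => evQ Q (g' z)) (Metric.ball w ε)) ∧
      EqOn g' g (Metric.ball w ε \ {w}) :=
  ULS_fill h hε hg

/-- Two sections near a simple critical value have a combination which is single valued. -/
theorem loc_rank1 {P : Prm} {q : Tup n l} {w : ℂ} (h : SimpleCV P q w) {ε : ℝ} (hε : 0 < ε)
    (hX : ∀ z ∈ Metric.ball w ε, z ≠ w → (q, z) ∈ (ULS P n l).X) {V : Set ℂ} (hV : IsOpen V)
    (hVc : Convex ℝ V) (hVb : V ⊆ Metric.ball w ε) (hwV : w ∉ V) (hne : V.Nonempty)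
    {g g' : ℂ → Fnl (n + 1)} (hg : (ULS P n l).Par (fun z => (q, z)) V g)
    (hg' : (ULS P n l).Par (fun z => (q, z)) V g') :
    ∃ a b : ℂ, (a ≠ 0 ∨ b ≠ 0) ∧ ∃ k : ℂ → Fnl (n + 1),
      (∀ Q, DifferentiableOn ℂ (fun z => evQ Q (k z)) (Metric.ball w ε)) ∧
      (ULS P n l).Par (fun z => (q, z)) (Metric.ball w ε \ {w}) k ∧
      EqOn k (fun z => a • g z + b • g' z) V :=
  ULS_rank1 h hε hX hV hVc hVb hwV hne hg hg'

/-- The plane data of `ULS` at a tuple. -/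
noncomputable def planeD {q : Tup n l} {R0 R1 : ℝ} (h0 : 0 < R0) (h1 : R0 < R1)
    (hs : SingF (P.f q) = ∅) (hfin : (SigF (P.f q) ∩ sq R1).Finite)
    (hsub : ∀ w ∈ SigF (P.f q) ∩ sq R1, |w.re| < R0 ∧ |w.im| < R0)
    (hcv : ∀ w ∈ SigF (P.f q) ∩ sq R1, SimpleCV P q w) : PlaneData (ULS P n l) evQ q where
  R0 := R0
  R1 := R1
  hR0 := h0
  hR := h1
  S := SigF (P.f q) ∩ sq R1
  S_fin := hfin
  S_sub := hsub
  reg := fun z hz hzS => (mem_ULS_X P).2 ⟨hs, fun h => hzS ⟨h, hz⟩⟩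
  fill := fun hw hε _ _ hg => loc_fill (hcv _ hw) hε hg
  rank1 := fun {w ε V g g'} hw hε hb hS hV hVc hVb hwV hne hg hg' =>
    loc_rank1 (hcv _ hw) hε (fun z hz hzw => (mem_ULS_X P).2 ⟨hs, fun h => hzw (by
      have : z ∈ Metric.ball w ε ∩ (SigF (P.f q) ∩ sq R1) := ⟨hz, h, hb hz⟩
      rw [hS] at this
      exact this)⟩) hV hVc hVb hwV hne hg hg'

/-- The jumps at a real point which is not critical correspond under the transport along the half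
circle, also if there is a singular level inside. -/
theorem UA_par {q : RTup n l} {O : Set (Fin (n + 1) → ℝ)} (hO : IsOpen O)
    (hsub : ∀ x ∈ O, inOm q x) {t₁ tv κ : ℝ} (hκ : 0 < κ) (ht : tv + κ < t₁)
    (h : ∀ t < t₁, IsCompact {x ∈ O | 0 ≤ fR 0 0 (addT q t) x}) {τ : ℝ}
    (hX : ∀ t : ℂ, ‖t - tv‖ ≤ κ → 0 ≤ t.im → (τ : ℂ) ∉ SigF (P.f (addT (tC q) t)))
    (hs : ∀ t : ℂ, ‖t - tv‖ = κ → 0 ≤ t.im → SingF (P.f (addT (tC q) t)) = ∅) {θ : ℝ → ℂ}
    (hθ : ContinuousOn θ (Icc 0 1)) (hθ1 : ∀ s ∈ Icc (0 : ℝ) 1, ‖θ s - tv‖ = κ ∧ 0 ≤ (θ s).im)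
    (hθ0 : θ 0 = ((tv - κ : ℝ) : ℂ)) (hθ2 : θ 1 = ((tv + κ : ℝ) : ℂ)) :
    ∃ u : ℝ → Fnl (n + 1),
      (ULS P n l).Par (fun s : ℝ => (addT (tC q) (θ s), (τ : ℂ))) (Icc 0 1) u ∧
      u 0 = UA P (addT q (tv - κ)) O τ ∧ u 1 = UA P (addT q (tv + κ)) O τ := by
  exact Cyc.UA_par_aux hO hsub hκ ht h hX hs hθ hθ1 hθ0 hθ2

/-! ## The base space and the plane at the end of a chain -/

/-- The base space: OUT elements over `q₀` at `z₀`. -/
noncomputable def baseV (q₀ : Tup n l) (z₀ : ℂ) (R0 R1 : ℝ) : Submodule ℂ (Fnl (n + 1)) where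
  carrier := {x | ∃ J, (ULS P n l).Par (fun z => (q₀, z)) (sann R0 R1) J ∧
    OutF evQ R0 R1 J ∧ J z₀ = x}
  add_mem' := by
    rintro _ _ ⟨J, h1, h2, rfl⟩ ⟨J', h1', h2', rfl⟩
    refine ⟨fun z => J z + J' z, LS.Par.add (ULS_lin P) (cont_mk q₀ _) h1 h1', fun Q => ?_, rfl⟩
    obtain ⟨h, a1, a2, a3⟩ := h2 Q
    obtain ⟨h', a1', a2', a3'⟩ := h2' Q
    refine ⟨fun z => h z + h' z, a1.add a1', fun z hz => ?_, by simpa using a3.add a3'⟩
    simp only [map_add]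
    rw [a2 hz, a2' hz]
  zero_mem' := by
    refine ⟨fun _ => 0, ?_, fun Q => ⟨fun _ => 0, differentiableOn_const 0, fun z _ => by simp,
      tendsto_const_nhds⟩, rfl⟩
    exact LS.Par.of_sol (A := ULS P n l) (h := fun z : ℂ => (q₀, z)) (S := sann R0 R1)
      ((ULS_lin P).zero (N := univ) isOpen_univ) (fun _ _ => mem_univ _)
  smul_mem' := by
    rintro c _ ⟨J, h1, h2, rfl⟩
    refine ⟨fun z => c • J z, LS.Par.smul (ULS_lin P) c h1, fun Q => ?_, rfl⟩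
    obtain ⟨h, a1, a2, a3⟩ := h2 Q
    refine ⟨fun z => c * h z, a1.const_mul c, fun z hz => ?_, by simpa using a3.const_mul c⟩
    simp only [map_smul, smul_eq_mul]
    rw [a2 hz]

/-- The plane at the end of a chain of paths, with the transports of the base space. -/
structure EvD (q₀ : Tup n l) (z₀ : ℂ) (R0 R1 : ℝ) (m : ℕ) (γ : ℕ → ℝ → Tup n l) where
  /-- the plane data at the end -/
  pd : PlaneData (ULS P n l) evQ (γ m 1)
  R0_eq : pd.R0 = R0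
  R1_eq : pd.R1 = R1
  S_eq : pd.S = SigF (P.f (γ m 1)) ∩ sq R1
  chain : Chain m γ
  base : γ 0 0 = q₀
  z₀_mem : z₀ ∈ sann R0 R1
  reg : ∀ k ≤ m, ∀ s ∈ Icc (0 : ℝ) 1, ∀ z ∈ sann R0 R1, (γ k s, z) ∈ (ULS P n l).X
  /-- the transports -/
  U : Fnl (n + 1) → ℕ → ℂ × ℝ → Fnl (n + 1)
  tr : ∀ x ∈ baseV P q₀ z₀ R0 R1, TrC (ULS P n l) R0 R1 m γ (U x)
  start : ∀ x ∈ baseV P q₀ z₀ R0 R1, U x 0 (z₀, 0) = x
  out0 : ∀ x ∈ baseV P q₀ z₀ R0 R1, OutF evQ R0 R1 (fun z => U x 0 (z, 0))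
  out : ∀ x ∈ baseV P q₀ z₀ R0 R1, OutF evQ R0 R1 (fun z => U x m (z, 1))
  /-- the upper (right) point of the pair -/
  a : ℂ
  /-- the lower (left) point of the pair -/
  b : ℂ
  ha : a ∈ SigF (P.f (γ m 1)) ∩ sq R1
  hb : b ∈ SigF (P.f (γ m 1)) ∩ sq R1

variable {P} {q₀ : Tup n l} {z₀ : ℂ} {R0 R1 : ℝ} {m : ℕ} {γ : ℕ → ℝ → Tup n l}

theorem EvD.R_pos (D : EvD P q₀ z₀ R0 R1 m γ) : 0 < R0 ∧ R0 < R1 := by
  have h1 := D.pd.hR0
  have h2 := D.pd.hR
  rw [D.R0_eq] at h1 h2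
  rw [D.R1_eq] at h2
  exact ⟨h1, h2⟩

theorem EvD.comb_aux (D : EvD P q₀ z₀ R0 R1 m γ) (x y : ℂ) {w w' : Fnl (n + 1)}
    (hw : w ∈ baseV P q₀ z₀ R0 R1) (hw' : w' ∈ baseV P q₀ z₀ R0 R1) :
    ∀ z ∈ sann R0 R1, D.U (x • w + y • w') m (z, 1) = x • D.U w m (z, 1) + y • D.U w' m (z, 1) := by
  have h3 : x • w + y • w' ∈ baseV P q₀ z₀ R0 R1 :=
    Submodule.add_mem _ (Submodule.smul_mem _ _ hw) (Submodule.smul_mem _ _ hw')
  have h4 := trc_unique (A := ULS P n l) (U := D.U (x • w + y • w'))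
    (U' := fun k p => x • D.U w k p + y • D.U w' k p) D.R_pos.1 D.R_pos.2 D.chain.cont D.reg
    (D.tr _ h3).par (D.tr _ h3).join (fun k hk => ?_) (fun k hk z hz => ?_) D.z₀_mem ?_
  · exact fun z hz => h4 m le_rfl z hz 1 ⟨zero_le_one, le_rfl⟩
  · have hc : ContinuousOn (fun p : ℂ × ℝ => (γ k p.2, p.1)) (sann R0 R1 ×ˢ Icc (0 : ℝ) 1) :=
      ((D.chain.cont k hk).comp continuousOn_snd fun p hp => hp.2).prodMk continuousOn_fst
    exact LS.Par.add (ULS_lin P) hc (LS.Par.smul (ULS_lin P) x ((D.tr w hw).par k hk))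
      (LS.Par.smul (ULS_lin P) y ((D.tr w' hw').par k hk))
  · rw [(D.tr w hw).join k hk z hz, (D.tr w' hw').join k hk z hz]
  · rw [D.start _ h3, D.start _ hw, D.start _ hw']

theorem EvD.inj_aux (D : EvD P q₀ z₀ R0 R1 m γ) {w : Fnl (n + 1)}
    (hw : w ∈ baseV P q₀ z₀ R0 R1) (h : ∀ z ∈ sann R0 R1, D.U w m (z, 1) = 0) : w = 0 := by
  have h4 := trc_unique_end (A := ULS P n l) (U := D.U w) (U' := fun _ _ => 0) D.chain.cont D.reg
    (D.tr w hw).par (D.tr w hw).join (fun k _ => LS.Par.of_sol ((ULS_lin P).zero (N := univ)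
      isOpen_univ) (fun _ _ => mem_univ _)) (fun _ _ _ _ => rfl) h m 0 (by omega) z₀ D.z₀_mem 0
      ⟨le_rfl, zero_le_one⟩
  rw [← D.start w hw]
  exact h4

/-- The plane of helper17's event theory. -/
noncomputable def EvD.pl (D : EvD P q₀ z₀ R0 R1 m γ) : EvPlane (Fnl (n + 1)) where
  C := D.pd.toPlane (ULS_lin P) (ULS_hol P) evQ_inj
  V₀ := baseV P q₀ z₀ R0 R1
  sol := fun x z => D.U x m (z, 1)
  out := fun x hx => by
    have h1 := (D.tr x hx).par m le_rfl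
    have h2 := par_at h1 (s := 1) (by simp)
    have e : (D.pd.toPlane (ULS_lin P) (ULS_hol P) evQ_inj).ann = sann R0 R1 := by
      show sq D.pd.R1 \ csq D.pd.R0 = _
      rw [D.R0_eq, D.R1_eq]
      rfl
    have h3 : IsOpen (sann R0 R1) := (isOpen_sq _).sdiff (isClosed_csq _)
    refine ⟨?_, fun Q => ?_⟩
    · rw [e]
      exact ⟨fun Q => (ULS_hol P).diffOn h3 h2 Q, h2.mono sdiff_subset⟩
    · obtain ⟨h, a1, a2, a3⟩ := D.out x hx Q
      refine ⟨h, ?_, ?_, a3⟩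
      · show DifferentiableOn ℂ h (csq D.pd.R0)ᶜ
        rw [D.R0_eq]
        exact a1
      · rw [e]
        exact a2
  comb := fun x y w w' hw hw' z hz => by
    have e : (D.pd.toPlane (ULS_lin P) (ULS_hol P) evQ_inj).ann = sann R0 R1 := by
      show sq D.pd.R1 \ csq D.pd.R0 = _
      rw [D.R0_eq, D.R1_eq]
      rfl
    rw [e] at hz
    exact D.comb_aux x y hw hw' z hz
  inj := fun w hw h => by
    have e : (D.pd.toPlane (ULS_lin P) (ULS_hol P) evQ_inj).ann = sann R0 R1 := by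
      show sq D.pd.R1 \ csq D.pd.R0 = _
      rw [D.R0_eq, D.R1_eq]
      rfl
    rw [e] at h
    exact D.inj_aux hw h
  a := D.a
  b := D.b
  ha := by
    show D.a ∈ D.pd.S
    rw [D.S_eq]
    exact D.ha
  hb := by
    show D.b ∈ D.pd.S
    rw [D.S_eq]
    exact D.hb

/-- Existence of the plane at the end. -/
theorem exists_evD (h0 : 0 < R0) (h1 : 2 * R0 < R1) (hc : Chain m γ) (hb : γ 0 0 = q₀)
    (hz : z₀ ∈ sann R0 R1)
    (hX : ∀ k ≤ m, ∀ s ∈ Icc (0 : ℝ) 1, SingF (P.f (γ k s)) = ∅ ∧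
      ∀ z ∈ sann R0 R1, z ∉ SigF (P.f (γ k s)))
    (hfin : (SigF (P.f (γ m 1)) ∩ sq R1).Finite)
    (hsub : ∀ w ∈ SigF (P.f (γ m 1)) ∩ sq R1, |w.re| < R0 ∧ |w.im| < R0)
    (hcv : ∀ w ∈ SigF (P.f (γ m 1)) ∩ sq R1, SimpleCV P (γ m 1) w) {a b : ℂ}
    (ha : a ∈ SigF (P.f (γ m 1)) ∩ sq R1) (hb' : b ∈ SigF (P.f (γ m 1)) ∩ sq R1) :
    ∃ D : EvD P q₀ z₀ R0 R1 m γ, D.a = a ∧ D.b = b := by
  classical
  have hR : R0 < R1 := by linarith
  have hreg : ∀ k ≤ m, ∀ s ∈ Icc (0 : ℝ) 1, ∀ z ∈ sann R0 R1,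
      (γ k s, z) ∈ (ULS P n l).X := fun k hk s hs z hz =>
    (mem_ULS_X P).2 ⟨(hX k hk s hs).1, (hX k hk s hs).2 z hz⟩
  have H : ∀ x : Fnl (n + 1), ∃ U : ℕ → ℂ × ℝ → Fnl (n + 1), x ∈ baseV P q₀ z₀ R0 R1 →
      TrC (ULS P n l) R0 R1 m γ U ∧ U 0 (z₀, 0) = x ∧
      OutF (evQ (m := n + 1)) R0 R1 (fun z => U 0 (z, 0)) ∧
      OutF (evQ (m := n + 1)) R0 R1 (fun z => U m (z, 1)) := by
    intro x
    by_cases hx : x ∈ baseV P q₀ z₀ R0 R1
    · obtain ⟨J, hJ, ho, hJx⟩ := hx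
      obtain ⟨U, hUp, hUj, hU0⟩ := exists_trC (A := ULS P n l) (R0 := R0) (R1 := R1) hc.cont
        hc.join hreg (J := J) (by rw [hb]; exact hJ)
      have hU : TrC (ULS P n l) R0 R1 m γ U := ⟨hUp, hUj⟩
      have o0 : OutF (evQ (m := n + 1)) R0 R1 (fun z => U 0 (z, 0)) :=
        OutF.congrOn ho fun z hz => (hU0 z hz).symm
      have step : ∀ k ≤ m, OutF (evQ (m := n + 1)) R0 R1 (fun z => U k (z, 0)) →
          OutF (evQ (m := n + 1)) R0 R1 (fun z => U k (z, 1)) := fun k hk h =>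
        outF_transport P h0 h1 isPreconnected_Icc (hc.cont k hk)
          (fun s hs z hz => hreg k hk s hs z hz) (hU.par k hk) ⟨le_rfl, zero_le_one⟩
          ⟨zero_le_one, le_rfl⟩ h
      have all : ∀ k ≤ m, OutF (evQ (m := n + 1)) R0 R1 (fun z => U k (z, 0)) := by
        intro k
        induction k with
        | zero => exact fun _ => o0
        | succ k ih =>
          exact fun hk => OutF.congrOn (step k (Nat.le_of_succ_le hk) (ih (Nat.le_of_succ_le hk)))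
            fun z hz => hU.join k hk z hz
      exact ⟨U, fun _ => ⟨hU, by rw [hU0 z₀ hz, hJx], o0, step m le_rfl (all m le_rfl)⟩⟩
    · exact ⟨fun _ _ => 0, fun h => absurd h hx⟩
  choose U hU using H
  exact ⟨{  pd := planeD P h0 hR (hX m le_rfl 1 ⟨zero_le_one, le_rfl⟩).1 hfin hsub hcv
            R0_eq := rfl
            R1_eq := rfl
            S_eq := rfl
            chain := hc
            base := hb
            z₀_mem := hz
            reg := hreg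
            U := U
            tr := fun x hx => (hU x hx).1
            start := fun x hx => (hU x hx).2.1
            out0 := fun x hx => (hU x hx).2.2.1
            out := fun x hx => (hU x hx).2.2.2
            a := a
            b := b
            ha := ha
            hb := hb' }, rfl, rfl⟩

end Pool.Agent.QC
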