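import Pool.Agent.QC.Asm.Geo33

/-!
# MP_7c50a9_lc: geometry before an event of index one (`eta = 0`)
-/

namespace Pool.Agent.QC.Geo33

open MvPolynomial Filter Topology Set

variable {n l : ℕ}

theorem mem_sqc_of_norm {c z : ℂ} {r : ℝ} (h : ‖z - c‖ < r) : z ∈ sqc c r := by
  constructor
  · have := Complex.abs_re_le_norm (z - c)
    rw [Complex.sub_re] at this
    linarith
  · have := Complex.abs_im_le_norm (z - c)
    rw [Complex.sub_im] at this
    linarith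

theorem dist_xC {m : ℕ} (x y : Fin m → ℝ) : dist (xC x) (xC y) = dist x y := by
  rw [dist_pi_def, dist_pi_def]
  congr 1
  refine Finset.sup_congr rfl fun i _ => ?_
  apply NNReal.coe_injective
  rw [coe_nndist, coe_nndist, xC, xC, Complex.dist_eq, Real.dist_eq, ← Complex.ofReal_sub,
    Complex.norm_real, Real.norm_eq_abs]

theorem exists_geoM0 {q : RTup n l} (h1 : T1 (tC q)) {tv t' : ℝ} {v : Fin (n + 1) → ℝ}
    (H : EvHyp q tv t' v) (h3 : N3at (tC (addT q tv))) (hone : OnePos (HR (addT q tv) v))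
    (hA : 0 < ((HR (addT q tv) v)⁻¹ : Matrix _ _ ℝ) (Fin.last n) (Fin.last n)) :
    ∃ r₁ > 0, ∀ r < r₁, ∀ r' > 0, r' < r → ∀ᶠ κ in 𝓝[>] (0 : ℝ), ∃ U1 ∈ Cmp (Wset q tv),
      ∃ U2 ∈ Cmp (Wset q tv), GeoM0 q tv κ (v (Fin.last n)) r' r U1 U2 ∧
        U1 ⊆ connectedComponentIn (Wset q t') v ∧ U2 ⊆ connectedComponentIn (Wset q t') v ∧
        ∀ O ∈ Cmp (Wset q t'), ∀ U ∈ Cmp (Wset q tv), ∀ U' ∈ Cmp (Wset q tv), U ⊆ O → U' ⊆ O →
          U = U' ∨ ((U = U1 ∨ U = U2) ∧ (U' = U1 ∨ U' = U2)) := by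
  obtain ⟨rA, hrA, hpair⟩ := pairA h1 H.sing h3 hA
  obtain ⟨-, rM, hrM, κM, hκM, hmorse⟩ := morse_one H hone hA
  refine ⟨rA / 2, by positivity, fun r hr r' hr' hr'r => ?_⟩
  obtain ⟨κA, hκA, hp⟩ := hpair (min r' rM) (lt_min hr' hrM)
  have hev : ∀ᶠ κ in 𝓝[>] (0 : ℝ), 0 < κ ∧ κ < min κA κM := by
    have := Ioo_mem_nhdsGT (lt_min hκA hκM)
    filter_upwards [this] with κ hκ
    exact ⟨hκ.1, hκ.2⟩
  filter_upwards [hev] with κ ⟨hκ, hκ2⟩
  have hκ3 : κ < κA := hκ2.trans_le (min_le_left _ _)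
  have hκ4 : κ < κM := hκ2.trans_le (min_le_right _ _)
  obtain ⟨w1, w2, hP, -, -, hreal, -⟩ := hp ((tv - κ : ℝ) : ℂ) (by
      intro h
      have := Complex.ofReal_injective h
      linarith) (by
      rw [← Complex.ofReal_sub, Complex.norm_real, Real.norm_eq_abs]
      have : tv - κ - tv = -κ := by ring
      rw [this, abs_neg, abs_of_pos hκ]
      exact hκ3) (by simp)
  obtain ⟨x1, x2, rfl, rfl, hl1, hl2⟩ := hreal (by simp) (by
    rw [Complex.ofReal_re]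
    linarith)
  have hsub := Ev.Wset_mono (q := q) H.lt.le
  have e0 : tC (addT q (tv - κ)) = addT (tC q) ((tv - κ : ℝ) : ℂ) := tC_addT q (tv - κ)
  have hd1 : dist x1 v < min r' rM := by rw [← dist_xC]; exact hP.near1
  have hd2 : dist x2 v < min r' rM := by rw [← dist_xC]; exact hP.near2
  have hc1 : CritNear q (tv - κ) v rM x1 :=
    ⟨by rw [e0]; exact hP.mem1, hd1.trans_le (min_le_right _ _)⟩
  have hc2 : CritNear q (tv - κ) v rM x2 :=
    ⟨by rw [e0]; exact hP.mem2, hd2.trans_le (min_le_right _ _)⟩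
  obtain ⟨hW1, hW2, hvW, hcc1, hcc2, hneg1, hneg2, hcomp⟩ :=
    hmorse (tv - κ) (by linarith) (by linarith) x1 x2 hc1 hc2 hl1 hl2
  have hsq : ∀ x : Fin (n + 1) → ℝ, dist x v < min r' rM →
      (x (Fin.last n) : ℂ) ∈ sqc ((v (Fin.last n) : ℝ) : ℂ) r' := by
    intro x hx
    apply mem_sqc_of_norm
    rw [← Complex.ofReal_sub, Complex.norm_real, ← dist_eq_norm]
    exact ((dist_le_pi_dist x v (Fin.last n)).trans_lt hx).trans_le (min_le_left _ _)
  have hccsub : ∀ x ∈ Wset q tv, x ∈ connectedComponentIn (Wset q t') v →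
      connectedComponentIn (Wset q tv) x ⊆ connectedComponentIn (Wset q t') v := by
    intro x hx hxv
    rw [connectedComponentIn_eq hxv]
    exact connectedComponentIn_mono x hsub
  refine ⟨_, ⟨x1, hW1, rfl⟩, _, ⟨x2, hW2, rfl⟩, ⟨x1, x2, hc1.1, hc2.1, ?_, ?_, hl1, hl2,
    hsq x1 hd1, hsq x2 hd2, mem_connectedComponentIn hW1, mem_connectedComponentIn hW2, hneg1,
    hneg2, ?_⟩, hccsub x1 hW1 hcc1, hccsub x2 hW2 hcc2, ?_⟩
  · rw [e0]; exact hP.nd1
  · rw [e0]; exact hP.nd2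
  · intro x hx hxr
    rw [e0] at hx
    refine hP.only x hx ?_
    have := csqc_norm hxr
    exact this.trans_lt (by linarith)
  · rintro _ ⟨z, hz, rfl⟩ _ ⟨y, hy, rfl⟩ _ ⟨y', hy', rfl⟩ hyO hyO'
    have h4 : connectedComponentIn (Wset q t') y = connectedComponentIn (Wset q t') y' := by
      rw [← connectedComponentIn_eq (hyO (mem_connectedComponentIn hy)),
        ← connectedComponentIn_eq (hyO' (mem_connectedComponentIn hy'))]
    rcases hcomp y hy y' hy' h4 with h5 | ⟨h5, h6⟩ | ⟨h5, h6⟩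
    · exact Or.inl h5
    · exact Or.inr ⟨Or.inl h5, Or.inr h6⟩
    · exact Or.inr ⟨Or.inr h5, Or.inl h6⟩

end Pool.Agent.QC.Geo33
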