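import Pool.Agent.QC.Asm.RealCell
import Pool.Agent.QC.Cyc.JumpC
import Pool.Agent.QC.Plane.Local

set_option autoImplicit false

/-!
# MP_7c50a9_lc: two real critical points before an event, at `eta > 0` (5.1)
-/

namespace Pool.Agent.QC.Asm

open MvPolynomial Filter Topology Set Pool.Agent.QC

variable {n l : ℕ}

theorem addT_fst (q : Tup n l) (t : ℂ) (m : Fin (l + 1)) : (addT q t m).1 = (q m).1 := by
  by_cases h : m = 0
  · subst h
    simp [addT]
  · simp [addT, h]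

theorem qform_addT (q : Tup n l) (t : ℂ) (m : Fin (l + 1)) (x : Fin (n + 1) → ℂ) :
    qform (addT q t m) x = qform (q m) x := by
  unfold qform
  rw [addT_fst]

theorem qfgrad_addT (q : Tup n l) (t : ℂ) (m : Fin (l + 1)) (k : Fin (n + 1))
    (x : Fin (n + 1) → ℂ) : qfgrad (addT q t m) k x = qfgrad (q m) k x := by
  unfold qfgrad
  rw [addT_fst]

theorem T1_addT {q : Tup n l} (h : T1 q) (t : ℂ) : T1 (addT q t) := by
  intro ξ h0 h1 c κ h2 h3
  simp only [qform_addT, qfgrad_addT] at h2 h3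
  exact h ξ h0 h1 c κ h2 h3

theorem T0_addT {q : Tup n l} (h : T0 q) (t : ℂ) : T0 (addT q t) := by
  refine ⟨fun ξ h0 c κ h2 h3 h4 => ?_, fun m => ?_⟩
  · simp only [qform_addT, qfgrad_addT] at h2 h3 h4
    exact h.1 ξ h0 c κ h2 h3 h4
  · rw [addT_fst]
    exact h.2 m

theorem T1_tC_addT {q : RTup n l} (h : T1 (tC q)) (t : ℝ) : T1 (tC (addT q t)) := by
  rw [Cyc.tC_addT]
  exact T1_addT h t

theorem T0_tC_addT {q : RTup n l} (h : T0 (tC q)) (t : ℝ) : T0 (tC (addT q t)) := by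
  rw [Cyc.tC_addT]
  exact T0_addT h t

/-- A small closed disc round a point of an open set. -/
theorem exists_cb {c : ℂ} {U : Set ℂ} (hU : IsOpen U) (hc : c ∈ U) :
    ∃ ε > 0, Metric.closedBall c ε ⊆ U := by
  obtain ⟨ε, hε, h⟩ := Metric.isOpen_iff.1 hU c hc
  exact ⟨ε / 2, half_pos hε, (Metric.closedBall_subset_ball (half_lt_self hε)).trans h⟩

theorem isOpen_sqc' (c : ℂ) (r : ℝ) : IsOpen (sqc c r) := by
  have h1 : Continuous fun z : ℂ => |z.re - c.re| := by fun_prop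
  have h2 : Continuous fun z : ℂ => |z.im - c.im| := by fun_prop
  exact (isOpen_lt h1 continuous_const).inter (isOpen_lt h2 continuous_const)

theorem isCompact_csqc' (c : ℂ) (r : ℝ) : IsCompact (csqc c r) := by
  have h1 : Continuous fun z : ℂ => |z.re - c.re| := by fun_prop
  have h2 : Continuous fun z : ℂ => |z.im - c.im| := by fun_prop
  have hcl : IsClosed (csqc c r) :=
    (isClosed_le h1 continuous_const).inter (isClosed_le h2 continuous_const)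
  refine Metric.isCompact_of_isClosed_isBounded hcl ?_
  refine (Metric.isBounded_closedBall (x := c) (r := r + r)).subset fun z hz => ?_
  rw [Metric.mem_closedBall, dist_eq_norm]
  refine (Complex.norm_le_abs_re_add_abs_im _).trans (add_le_add ?_ ?_)
  · simpa using hz.1
  · simpa using hz.2

/-- Two real critical points at `eta > 0`. -/
theorem geoM_gen {q : RTup n l} (h1 : T1 (tC q)) (h0 : T0 (tC q))
    (hs : SingF (f0 (tC q)) = ∅) {vn r' r : ℝ} (h : r' < r) {N1 N2 : Set (Fin (n + 1) → ℝ)}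
    (hN1 : IsOpen N1) (hN2 : IsOpen N2) {x1 x2 : Fin (n + 1) → ℝ}
    (hx1 : xC x1 ∈ CritF (f0 (tC q))) (hx2 : xC x2 ∈ CritF (f0 (tC q)))
    (hn1 : NonDegC (f0 (tC q)) (xC x1)) (hn2 : NonDegC (f0 (tC q)) (xC x2))
    (hl1 : x1 (Fin.last n) < vn) (hl2 : vn < x2 (Fin.last n))
    (hq1 : (x1 (Fin.last n) : ℂ) ∈ sqc (vn : ℂ) r') (hq2 : (x2 (Fin.last n) : ℂ) ∈ sqc (vn : ℂ) r')
    (hm1 : x1 ∈ N1) (hm2 : x2 ∈ N2)
    (hg1 : ∀ b : Fin n → ℝ, b ≠ 0 →
      ∑ i, ∑ j, b i * b j * (hess' (f0 (tC q)) (xC x1) i j).re < 0)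
    (hg2 : ∀ b : Fin n → ℝ, b ≠ 0 →
      ∑ i, ∑ j, b i * b j * (hess' (f0 (tC q)) (xC x2) i j).re < 0)
    (ho : ∀ x ∈ CritF (f0 (tC q)), x (Fin.last n) ∈ csqc (vn : ℂ) r → x = xC x1 ∨ x = xC x2) :
    ∀ᶠ en in 𝓝[>] (0 : ℝ), ∀ᶠ eta in 𝓝[>] (0 : ℝ), ∀ P : Prm, P.en = en → P.eta = eta →
      ∃ x1 x2 : Fin (n + 1) → ℝ, xC x1 ∈ CritF (P.f (tC q)) ∧ xC x2 ∈ CritF (P.f (tC q)) ∧
        SimpleCV P (tC q) (x1 (Fin.last n)) ∧ SimpleCV P (tC q) (x2 (Fin.last n)) ∧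
        x1 (Fin.last n) < vn ∧ vn < x2 (Fin.last n) ∧
        (x1 (Fin.last n) : ℂ) ∈ sqc (vn : ℂ) r' ∧ (x2 (Fin.last n) : ℂ) ∈ sqc (vn : ℂ) r' ∧
        x1 ∈ N1 ∧ x2 ∈ N2 ∧
        (∀ b : Fin n → ℝ, b ≠ 0 →
          ∑ i, ∑ j, b i * b j * (hess' (P.f (tC q)) (xC x1) i j).re < 0) ∧
        (∀ b : Fin n → ℝ, b ≠ 0 →
          ∑ i, ∑ j, b i * b j * (hess' (P.f (tC q)) (xC x2) i j).re < 0) ∧
        ∀ z ∈ SigF (P.f (tC q)), z ∈ csqc (vn : ℂ) r →
          z = x1 (Fin.last n) ∨ z = x2 (Fin.last n) := by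
  have hsub : sqc (vn : ℂ) r' ⊆ csqc (vn : ℂ) r := fun z hz =>
    ⟨(hz.1.trans h).le, (hz.2.trans h).le⟩
  have hL : IsOpen {z : ℂ | z.re < vn} := isOpen_lt Complex.continuous_re continuous_const
  have hR : IsOpen {z : ℂ | vn < z.re} := isOpen_lt continuous_const Complex.continuous_re
  obtain ⟨ε1, hε1, hb1⟩ := exists_cb ((isOpen_sqc' (vn : ℂ) r').inter hL)
    (c := (x1 (Fin.last n) : ℂ)) ⟨hq1, by simpa using hl1⟩
  obtain ⟨ε2, hε2, hb2⟩ := exists_cb ((isOpen_sqc' (vn : ℂ) r').inter hR)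
    (c := (x2 (Fin.last n) : ℂ)) ⟨hq2, by simpa using hl2⟩
  have hu1 : ∀ y ∈ CritF (f0 (tC q)),
      y (Fin.last n) ∈ Metric.closedBall (x1 (Fin.last n) : ℂ) ε1 → y = xC x1 := by
    intro y hy hyb
    have h2 := hb1 hyb
    rcases ho y hy (hsub h2.1) with h3 | h3
    · exact h3
    · exfalso
      have h4 : (y (Fin.last n)).re < vn := h2.2
      rw [h3] at h4
      have h5 : x2 (Fin.last n) < vn := h4
      exact lt_asymm h5 hl2
  have hu2 : ∀ y ∈ CritF (f0 (tC q)),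
      y (Fin.last n) ∈ Metric.closedBall (x2 (Fin.last n) : ℂ) ε2 → y = xC x2 := by
    intro y hy hyb
    have h2 := hb2 hyb
    rcases ho y hy (hsub h2.1) with h3 | h3
    · exfalso
      have h4 : vn < (y (Fin.last n)).re := h2.2
      rw [h3] at h4
      have h5 : vn < x1 (Fin.last n) := h4
      exact lt_asymm h5 hl1
    · exact h3
  obtain ⟨O1, hO1, hng1⟩ := tame_neg hg1
  obtain ⟨O2, hO2, hng2⟩ := tame_neg hg2
  have hc1 := real_cell h1 hx1 hn1 hε1 hu1 (inter_mem (hN1.mem_nhds hm1) hO1)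
  have hc2 := real_cell h1 hx2 hn2 hε2 hu2 (inter_mem (hN2.mem_nhds hm2) hO2)
  have hsi := tame_sing (K := {tC q}) isCompact_singleton (fun p hp => by
    rw [mem_singleton_iff.1 hp]; exact h0) (fun p hp => by rw [mem_singleton_iff.1 hp]; exact hs)
  have hK : IsCompact (({tC q} : Set (Tup n l)) ×ˢ (csqc (vn : ℂ) r \
      (Metric.ball (x1 (Fin.last n) : ℂ) ε1 ∪ Metric.ball (x2 (Fin.last n) : ℂ) ε2))) :=
    isCompact_singleton.prod
      ((isCompact_csqc' (vn : ℂ) r).diff (Metric.isOpen_ball.union Metric.isOpen_ball))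
  have hsg := tame_sig hK (fun p hp => by rw [mem_singleton_iff.1 hp.1]; exact h1) (by
    rintro ⟨p, z⟩ ⟨hp, hz, hz'⟩ ⟨x, hx, hxz⟩
    have hp' : p = tC q := mem_singleton_iff.1 hp
    subst hp'
    have hxz' : x (Fin.last n) = z := hxz
    rcases ho x hx (by rw [hxz']; exact hz) with h3 | h3
    · refine hz' (Or.inl ?_)
      show z ∈ _
      rw [← hxz', h3]
      exact Metric.mem_ball_self hε1
    · refine hz' (Or.inr ?_)
      show z ∈ _
      rw [← hxz', h3]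
      exact Metric.mem_ball_self hε2)
  filter_upwards [hc1, hc2, hsi, hsg, hng1, hng2] with en a1 a2 a3 a4 a5 a6
  filter_upwards [a1, a2, a3, a4, a5, a6] with eta b1 b2 b3 b4 b5 b6
  intro P hen heta
  subst hen heta
  obtain ⟨y1, c1, c2, c3, c4, c5⟩ := b1
  obtain ⟨y2, d1, d2, d3, d4, d5⟩ := b2
  have hSing : SingF (P.f (tC q)) = ∅ := b3 _ rfl
  refine ⟨y1, y2, c1, d1, ⟨hSing, xC y1, c1, rfl, c4, fun x hx hxl => c5 x hx ?_⟩,
    ⟨hSing, xC y2, d1, rfl, d4, fun x hx hxl => d5 x hx ?_⟩, ?_, ?_, (hb1 c3).1, (hb2 d3).1,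
    c2.1, d2.1, b5 y1 c2.2, b6 y2 d2.2, ?_⟩
  · rw [hxl]
    exact c3
  · rw [hxl]
    exact d3
  · have := (hb1 c3).2
    simpa using this
  · have := (hb2 d3).2
    simpa using this
  · rintro z ⟨x, hx, hxz⟩ hz
    have hxz' : x (Fin.last n) = z := hxz
    by_cases hz1 : z ∈ Metric.ball (x1 (Fin.last n) : ℂ) ε1
    · left
      have := c5 x hx (by rw [hxz']; exact Metric.ball_subset_closedBall hz1)
      rw [← hxz', this]
      rfl
    · by_cases hz2 : z ∈ Metric.ball (x2 (Fin.last n) : ℂ) ε2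
      · right
        have := d5 x hx (by rw [hxz']; exact Metric.ball_subset_closedBall hz2)
        rw [← hxz', this]
        rfl
      · exfalso
        exact b4 (tC q, z) ⟨rfl, hz, fun h' => h'.elim hz1 hz2⟩ ⟨x, hx, hxz⟩

/-- The left end of the half disc is not singular. -/
theorem sing_left {q : RTup n l} {tv κ : ℝ} (hκ : 0 < κ)
    (h : ∀ t ∈ {t : ℂ | ‖t - tv‖ ≤ κ ∧ 0 ≤ t.im}, t ≠ tv → SingF (f0 (addT (tC q) t)) = ∅) :
    SingF (f0 (tC (addT q (tv - κ)))) = ∅ := by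
  rw [Cyc.tC_addT]
  refine h _ ⟨?_, ?_⟩ ?_
  · have e : ((tv - κ : ℝ) : ℂ) - (tv : ℂ) = ((-κ : ℝ) : ℂ) := by
      push_cast
      ring
    rw [e, Complex.norm_real, Real.norm_eq_abs, abs_neg, abs_of_pos hκ]
  · rw [Complex.ofReal_im]
  · intro e
    have := Complex.ofReal_injective e
    linarith

end Pool.Agent.QC.Asm
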