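import Pool.Agent.QC.Asm.GeoDefs
import Pool.Agent.QC.Tame.Conj

/-!
# MP_7c50a9_lc: the geometry of an event, cases A and B, from `eta = 0` to `eta > 0`
-/

namespace Pool.Agent.QC

open MvPolynomial Filter Topology Set

variable {n l : ℕ}

private lemma tC_addT' (q : RTup n l) (t : ℝ) : tC (addT q t) = addT (tC q) (t : ℂ) := by
  funext m
  by_cases h : m = 0
  · subst h
    simp [tC, addT]
  · simp [tC, addT, h]

private lemma continuous_addTC' (q : Tup n l) : Continuous fun t : ℂ => addT q t := by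
  refine continuous_pi fun m => ?_
  unfold addT
  split_ifs
  · exact continuous_const.prodMk (continuous_const.prodMk (continuous_const.add continuous_id))
  · exact continuous_const

private lemma csqc_compact (c : ℂ) (R : ℝ) : IsCompact (csqc c R) := by
  refine Metric.isCompact_of_isClosed_isBounded (isClosed_csqc c R) ?_
  refine (Metric.isBounded_closedBall (x := c) (r := R + R)).subset fun z hz => ?_
  rw [Metric.mem_closedBall, Complex.dist_eq]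
  refine (Complex.norm_le_abs_re_add_abs_im _).trans ?_
  rw [Complex.sub_re, Complex.sub_im]
  exact add_le_add hz.1 hz.2

private lemma hc_compact (tv κ : ℝ) : IsCompact (hc tv κ) := by
  refine Metric.isCompact_of_isClosed_isBounded ?_ ?_
  · refine IsClosed.inter ?_ ?_
    · exact isClosed_eq (by fun_prop) continuous_const
    · exact isClosed_le continuous_const Complex.continuous_im
  · refine (Metric.isBounded_closedBall (x := (tv : ℂ)) (r := κ)).subset fun z hz => ?_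
    rw [Metric.mem_closedBall, Complex.dist_eq]
    exact hz.1.le

private lemma continuous_dg (vn : ℝ) : Continuous (dg vn) := by
  unfold dg
  exact Complex.continuous_im.sub (Complex.continuous_re.sub continuous_const)

private lemma last_nhds {w : Fin (n + 1) → ℂ} {Q : Set ℂ} (h : Q ∈ 𝓝 (w (Fin.last n))) :
    (fun x : Fin (n + 1) → ℂ => x (Fin.last n)) ⁻¹' Q ∈ 𝓝 w :=
  (continuous_apply (Fin.last n)).continuousAt.preimage_mem_nhds h

/-- The part of the critical values away from two cells. -/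
private lemma rest_free {q : Tup n l} (h1 : T1 q) {c : ℂ} {r : ℝ} {Q1 Q2 : Set ℂ}
    (h : ∀ x ∈ CritF (f0 q), x (Fin.last n) ∈ csqc c r →
      x (Fin.last n) ∈ interior Q1 ∨ x (Fin.last n) ∈ interior Q2) :
    ∀ᶠ en in 𝓝[>] (0 : ℝ), ∀ᶠ eta in 𝓝[>] (0 : ℝ), ∀ z ∈ SigF (fpol en eta q), z ∈ csqc c r →
      z ∈ Q1 ∨ z ∈ Q2 := by
  have hK : IsCompact ((fun z : ℂ => (q, z)) '' (csqc c r \ (interior Q1 ∪ interior Q2))) := by
    refine ((csqc_compact c r).diff (isOpen_interior.union isOpen_interior)).image ?_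
    fun_prop
  have h2 := tame_sig hK (by
    rintro p ⟨z, -, rfl⟩
    exact h1) (by
    rintro p ⟨z, ⟨hz, hz'⟩, rfl⟩ ⟨x, hx, hxz⟩
    simp only at hxz hz'
    rw [← hxz] at hz hz'
    rcases h x hx hz with h | h
    · exact hz' (Or.inl h)
    · exact hz' (Or.inr h))
  filter_upwards [h2] with en h3
  filter_upwards [h3] with eta h4 z hz hzc
  by_contra hcon
  push Not at hcon
  refine h4 (q, z) ⟨z, ⟨hzc, ?_⟩, rfl⟩ hz
  rintro (h | h)
  · exact hcon.1 (interior_subset h)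
  · exact hcon.2 (interior_subset h)

theorem geoA_of_geoA0' {q : RTup n l} {tv κ vn r' r ρ0 ρ1 μ : ℝ} {T : Set ℂ}
    (G : Geo0 q tv κ vn r' r ρ0 ρ1 T) (h : r' < r) (hA : GeoA0 q tv κ vn r' r μ) :
    ∀ᶠ en in 𝓝[>] (0 : ℝ), ∀ᶠ eta in 𝓝[>] (0 : ℝ), ∀ P : Prm, P.en = en → P.eta = eta →
      ∃ a, GeoA P q tv κ vn r' r μ a := by
  obtain ⟨w1, w2, hw1, hw2, hn1, hn2, him, hsq, hcj, hd1, hd2, honly⟩ := hA.plus
  have hμ := hA.μ_pos
  have hT1 : T1 (tC (addT q (tv + κ))) := by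
    rw [tC_addT']
    exact T1_addT G.T1 _
  -- the open set around `w1`
  set U1 : Set ℂ := {z | z ∈ sqc (vn : ℂ) r' ∧ μ < dg vn z ∧ 0 < z.im ∧
    dg vn ((starRingEnd ℂ) z) < -μ} with hU1
  have hU1o : IsOpen U1 := by
    refine (isOpen_sqc _ _).inter (IsOpen.inter ?_ (IsOpen.inter ?_ ?_))
    · exact isOpen_lt continuous_const (continuous_dg vn)
    · exact isOpen_lt continuous_const Complex.continuous_im
    · exact isOpen_lt ((continuous_dg vn).comp Complex.continuous_conj) continuous_const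
  have hw1U : w1 (Fin.last n) ∈ U1 := ⟨hsq, hd1, him, by rw [← hcj]; exact hd2⟩
  obtain ⟨Q1, hQ1c, hQ1n, hQ1U⟩ := exists_compact_subset hU1o hw1U
  have hconj : Continuous (starRingEnd ℂ : ℂ → ℂ) := Complex.continuous_conj
  set Q2 : Set ℂ := (starRingEnd ℂ : ℂ → ℂ) '' Q1 with hQ2
  have hQ2c : IsCompact Q2 := hQ1c.image hconj
  have hQ2pre : Q2 = (starRingEnd ℂ : ℂ → ℂ) ⁻¹' Q1 := by
    ext z
    constructor
    · rintro ⟨y, hy, rfl⟩
      simpa using hy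
    · intro hz
      exact ⟨(starRingEnd ℂ) z, hz, by simp⟩
  have hQ1nhds : Q1 ∈ 𝓝 (w1 (Fin.last n)) := mem_interior_iff_mem_nhds.1 hQ1n
  have hQ2nhds : Q2 ∈ 𝓝 (w2 (Fin.last n)) := by
    rw [hQ2pre, hcj]
    refine hconj.continuousAt.preimage_mem_nhds ?_
    simpa using hQ1nhds
  have hmem2 : ∀ z ∈ Q2, (starRingEnd ℂ) z ∈ Q1 := by
    intro z hz
    rw [hQ2pre] at hz
    exact hz
  have hw2Q1 : w2 (Fin.last n) ∉ Q1 := by
    intro hmem
    have := (hQ1U hmem).2.1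
    linarith
  have hw1Q2 : w1 (Fin.last n) ∉ Q2 := by
    intro hmem
    have := (hQ1U (hmem2 _ hmem)).2.2.2
    rw [starRingEnd_self_apply] at this
    linarith
  have hQ1sq : ∀ z ∈ Q1, z ∈ csqc (vn : ℂ) r := fun z hz =>
    ⟨((hQ1U hz).1.1.trans h).le, ((hQ1U hz).1.2.trans h).le⟩
  have hQ2sq : ∀ z ∈ Q2, z ∈ csqc (vn : ℂ) r := by
    intro z hz
    have h1 := hQ1sq _ (hmem2 z hz)
    refine ⟨by simpa using h1.1, ?_⟩
    have h2 := h1.2
    simp only [Complex.conj_im, Complex.ofReal_im, sub_zero, abs_neg] at h2 ⊢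
    exact h2
  have hu1 : ∀ x ∈ CritF (f0 (tC (addT q (tv + κ)))), x (Fin.last n) ∈ Q1 → x = w1 := by
    intro x hx hxQ
    rcases honly x hx (hQ1sq _ hxQ) with h | h
    · exact h
    · rw [h] at hxQ
      exact absurd hxQ hw2Q1
  have hu2 : ∀ x ∈ CritF (f0 (tC (addT q (tv + κ)))), x (Fin.last n) ∈ Q2 → x = w2 := by
    intro x hx hxQ
    rcases honly x hx (hQ2sq _ hxQ) with h | h
    · rw [h] at hxQ
      exact absurd hxQ hw1Q2
    · exact h
  have e1 := tame_cell hT1 hw1 hn1 hQ1c hQ1nhds hu1 (last_nhds hQ1nhds)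
  have e2 := tame_cell hT1 hw2 hn2 hQ2c hQ2nhds hu2 (last_nhds hQ2nhds)
  have e3 := rest_free hT1 (c := (vn : ℂ)) (r := r) (Q1 := Q1) (Q2 := Q2) (by
    intro x hx hxr
    rcases honly x hx hxr with h | h
    · rw [h]
      exact Or.inl hQ1n
    · rw [h]
      exact Or.inr (mem_interior_iff_mem_nhds.2 hQ2nhds))
  -- the diagonal
  have hK : IsCompact ((fun p : ℂ × ℂ => (addT (tC q) p.1, p.2)) ''
      (hc tv κ ×ˢ (csqc (vn : ℂ) r ∩ {z | -μ ≤ dg vn z ∧ dg vn z ≤ μ}))) := by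
    refine IsCompact.image ?_ (((continuous_addTC' (tC q)).comp continuous_fst).prodMk
      continuous_snd)
    refine (hc_compact tv κ).prod ((csqc_compact _ _).inter_right ?_)
    exact (isClosed_le continuous_const (continuous_dg vn)).inter
      (isClosed_le (continuous_dg vn) continuous_const)
  have e4 := tame_sig hK (by
    rintro p ⟨⟨t, z⟩, -, rfl⟩
    exact T1_addT G.T1 _) (by
    rintro p ⟨⟨t, z⟩, ⟨ht, hz1, hz2, hz3⟩, rfl⟩ hsig
    rcases hA.diag t ht z hsig hz1 with h | h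
    · exact absurd hz3 (not_le.2 h)
    · exact absurd hz2 (not_le.2 h))
  filter_upwards [e1, e2, e3, e4] with en f1 f2 f3 f4
  filter_upwards [f1, f2, f3, f4] with eta g1 g2 g3 g4 P hP1 hP2
  subst hP1 hP2
  obtain ⟨x1, hx1, hx1Q, hx1n, hx1u⟩ := g1
  obtain ⟨x2, hx2, hx2Q, hx2n, hx2u⟩ := g2
  simp only [mem_preimage] at hx1Q hx2Q
  have hx12 : cj x1 = x2 := by
    refine hx2u _ (cj_mem_CritF hx1) ?_
    rw [hQ2pre]
    simpa using hx1Q
  have hlast : x2 (Fin.last n) = (starRingEnd ℂ) (x1 (Fin.last n)) := by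
    rw [← hx12, cj_apply]
  refine ⟨x1 (Fin.last n), hμ, ?_, ⟨x1, hx1, rfl⟩, ⟨x2, hx2, hlast⟩, (hQ1U hx1Q).2.2.1,
    (hQ1U hx1Q).1, (hQ1U hx1Q).2.1, (hQ1U hx1Q).2.2.2, ?_⟩
  · intro t ht z hz hzr
    by_contra hcon
    push Not at hcon
    exact g4 _ ⟨(t, z), ⟨ht, hzr, hcon.2, hcon.1⟩, rfl⟩ hz
  · intro z hz hzr
    obtain ⟨x, hx, rfl⟩ := hz
    rcases g3 _ ⟨x, hx, rfl⟩ hzr with h | h
    · left
      rw [hx1u x hx h]
    · right
      rw [← hlast, hx2u x hx h]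

theorem geoB_of_geoB0' {q : RTup n l} {tv κ vn r' r ρ0 ρ1 : ℝ} {T : Set ℂ}
    (G : Geo0 q tv κ vn r' r ρ0 ρ1 T) (h : r' < r) {N : Set (Fin (n + 1) → ℝ)}
    (hN : IsOpen N) (hB : GeoB0 q tv κ vn r' r N) :
    ∀ᶠ en in 𝓝[>] (0 : ℝ), ∀ᶠ eta in 𝓝[>] (0 : ℝ), ∀ P : Prm, P.en = en → P.eta = eta →
      ∃ x1 x2, GeoB P q tv κ vn r' r N x1 x2 := by
  obtain ⟨w1, w2, hw1, hw2, hn1, hn2, hlt2, hlt1, hsq1, hsq2, hN1, hN2, honly⟩ := hB.plus
  have hT1 : T1 (tC (addT q (tv + κ))) := by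
    rw [tC_addT']
    exact T1_addT G.T1 _
  have hw1v : xC w1 (Fin.last n) = (w1 (Fin.last n) : ℂ) := rfl
  have hw2v : xC w2 (Fin.last n) = (w2 (Fin.last n) : ℂ) := rfl
  have hconj : Continuous (starRingEnd ℂ : ℂ → ℂ) := Complex.continuous_conj
  -- symmetric cells
  have cell : ∀ (w : ℝ) (U : Set ℂ), IsOpen U → (w : ℂ) ∈ U → ∃ Q : Set ℂ, IsCompact Q ∧
      Q ∈ 𝓝 (w : ℂ) ∧ Q ⊆ U ∧ ∀ z ∈ Q, (starRingEnd ℂ) z ∈ Q := by
    intro w U hU hw
    obtain ⟨Q, hQc, hQn, hQU⟩ := exists_compact_subset hU hw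
    refine ⟨Q ∩ (starRingEnd ℂ : ℂ → ℂ) ⁻¹' Q, hQc.inter_right (hQc.isClosed.preimage hconj),
      inter_mem (mem_interior_iff_mem_nhds.1 hQn) ?_, fun z hz => hQU hz.1, fun z hz => ⟨hz.2, ?_⟩⟩
    · refine hconj.continuousAt.preimage_mem_nhds ?_
      rw [Complex.conj_ofReal]
      exact mem_interior_iff_mem_nhds.1 hQn
    · simpa using hz.1
  obtain ⟨Q1, hQ1c, hQ1n, hQ1U, hQ1s⟩ := cell (w1 (Fin.last n))
    (sqc (vn : ℂ) r' ∩ {z | vn < z.re})
    ((isOpen_sqc _ _).inter (isOpen_lt continuous_const Complex.continuous_re))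
    ⟨hsq1, by simpa using hlt1⟩
  obtain ⟨Q2, hQ2c, hQ2n, hQ2U, hQ2s⟩ := cell (w2 (Fin.last n))
    (sqc (vn : ℂ) r' ∩ {z | z.re < vn})
    ((isOpen_sqc _ _).inter (isOpen_lt Complex.continuous_re continuous_const))
    ⟨hsq2, by simpa using hlt2⟩
  have hw2Q1 : xC w2 (Fin.last n) ∉ Q1 := by
    intro hmem
    have h1 : vn < (xC w2 (Fin.last n)).re := (hQ1U hmem).2
    rw [hw2v, Complex.ofReal_re] at h1
    linarith
  have hw1Q2 : xC w1 (Fin.last n) ∉ Q2 := by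
    intro hmem
    have h1 : (xC w1 (Fin.last n)).re < vn := (hQ2U hmem).2
    rw [hw1v, Complex.ofReal_re] at h1
    linarith
  have hQ1sq : ∀ z ∈ Q1, z ∈ csqc (vn : ℂ) r := fun z hz =>
    ⟨((hQ1U hz).1.1.trans h).le, ((hQ1U hz).1.2.trans h).le⟩
  have hQ2sq : ∀ z ∈ Q2, z ∈ csqc (vn : ℂ) r := fun z hz =>
    ⟨((hQ2U hz).1.1.trans h).le, ((hQ2U hz).1.2.trans h).le⟩
  have hu1 : ∀ x ∈ CritF (f0 (tC (addT q (tv + κ)))), x (Fin.last n) ∈ Q1 → x = xC w1 := by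
    intro x hx hxQ
    rcases honly x hx (hQ1sq _ hxQ) with h | h
    · exact h
    · rw [h] at hxQ
      exact absurd hxQ hw2Q1
  have hu2 : ∀ x ∈ CritF (f0 (tC (addT q (tv + κ)))), x (Fin.last n) ∈ Q2 → x = xC w2 := by
    intro x hx hxQ
    rcases honly x hx (hQ2sq _ hxQ) with h | h
    · rw [h] at hxQ
      exact absurd hxQ hw1Q2
    · exact h
  -- neighbourhoods of the points
  have hre : Continuous (fun x : Fin (n + 1) → ℂ => fun i => (x i).re) := by fun_prop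
  have nb : ∀ (w : Fin (n + 1) → ℝ) (Q : Set ℂ), Q ∈ 𝓝 (w (Fin.last n) : ℂ) → w ∈ N →
      {x : Fin (n + 1) → ℂ | x (Fin.last n) ∈ Q ∧ (fun i => (x i).re) ∈ N} ∈ 𝓝 (xC w) := by
    intro w Q hQ hw
    refine inter_mem (last_nhds (w := xC w) hQ) ?_
    refine hre.continuousAt.preimage_mem_nhds ?_
    have : (fun i => (xC w i).re) = w := by
      funext i
      simp [xC]
    rw [this]
    exact hN.mem_nhds hw
  have e1 := tame_cell hT1 hw1 hn1 hQ1c hQ1n hu1 (nb w1 Q1 hQ1n hN1)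
  have e2 := tame_cell hT1 hw2 hn2 hQ2c hQ2n hu2 (nb w2 Q2 hQ2n hN2)
  have e3 := rest_free hT1 (c := (vn : ℂ)) (r := r) (Q1 := Q1) (Q2 := Q2) (by
    intro x hx hxr
    rcases honly x hx hxr with h | h
    · rw [h]
      exact Or.inl (mem_interior_iff_mem_nhds.2 hQ1n)
    · rw [h]
      exact Or.inr (mem_interior_iff_mem_nhds.2 hQ2n))
  filter_upwards [e1, e2, e3] with en f1 f2 f3
  filter_upwards [f1, f2, f3] with eta g1 g2 g3 P hP1 hP2
  subst hP1 hP2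
  obtain ⟨x1, hx1, ⟨hx1Q, hx1N⟩, hx1n, hx1u⟩ := g1
  obtain ⟨x2, hx2, ⟨hx2Q, hx2N⟩, hx2n, hx2u⟩ := g2
  have hr1 : xC (fun i => (x1 i).re) = x1 :=
    xC_of_cj_eq (hx1u _ (cj_mem_CritF hx1) (hQ1s _ hx1Q))
  have hr2 : xC (fun i => (x2 i).re) = x2 :=
    xC_of_cj_eq (hx2u _ (cj_mem_CritF hx2) (hQ2s _ hx2Q))
  have hv1 : (((x1 (Fin.last n)).re : ℝ) : ℂ) = x1 (Fin.last n) := congrFun hr1 (Fin.last n)
  have hv2 : (((x2 (Fin.last n)).re : ℝ) : ℂ) = x2 (Fin.last n) := congrFun hr2 (Fin.last n)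
  refine ⟨fun i => (x1 i).re, fun i => (x2 i).re, ?_, ?_, (hQ1U hx1Q).2, (hQ2U hx2Q).2, ?_, ?_,
    hx1N, hx2N, ?_⟩
  · rw [hr1]
    exact hx1
  · rw [hr2]
    exact hx2
  · rw [hv1]
    exact (hQ1U hx1Q).1
  · rw [hv2]
    exact (hQ2U hx2Q).1
  · intro z hz hzr
    obtain ⟨x, hx, rfl⟩ := hz
    rcases g3 _ ⟨x, hx, rfl⟩ hzr with h | h
    · left
      show x (Fin.last n) = _
      rw [hx1u x hx h, hv1]
    · right
      show x (Fin.last n) = _
      rw [hx2u x hx h, hv2]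

end Pool.Agent.QC
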