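import Pool.Agent.QC.Tame.Iface
import Pool.Agent.QC.Tame.Conj
import Pool.Agent.QC.Plane.Local

set_option autoImplicit false

/-!
# MP_7c50a9_lc: the geometry near an event, from `eta = 0` to `eta > 0`
-/

namespace Pool.Agent.QC.GeoT

open MvPolynomial Filter Topology Set

variable {n l : ℕ}

/-- `T0` does not depend on the level. -/
theorem T0_addT {q : Tup n l} (h : T0 q) (t : ℂ) : T0 (addT q t) := by
  have h1 : ∀ (m : Fin (l + 1)) (ξ : Fin (n + 1) → ℂ), qform (addT q t m) ξ = qform (q m) ξ := by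
    intro m ξ
    by_cases hm : m = 0
    · subst hm
      simp [addT, qform]
    · simp [addT, hm]
  have h2 : ∀ (m : Fin (l + 1)) (k : Fin (n + 1)) (ξ : Fin (n + 1) → ℂ),
      qfgrad (addT q t m) k ξ = qfgrad (q m) k ξ := by
    intro m k ξ
    by_cases hm : m = 0
    · subst hm
      simp [addT, qfgrad]
    · simp [addT, hm]
  refine ⟨fun ξ hξ c κ hc hc' hc'' => ?_, fun m => ?_⟩
  · simp only [h1, h2] at hc hc' hc''
    exact h.1 ξ hξ c κ hc hc' hc''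
  · have h3 := h.2 m
    by_cases hm : m = 0
    · subst hm
      simpa [addT] using h3
    · simpa [addT, hm] using h3

theorem continuous_addT_c (q : Tup n l) : Continuous fun t : ℂ => addT q t := by
  refine continuous_pi fun m => ?_
  unfold addT
  split_ifs
  · exact continuous_const.prodMk (continuous_const.prodMk (continuous_const.add continuous_id))
  · exact continuous_const

theorem addT_tC (q : RTup n l) (t : ℝ) : addT (tC q) (t : ℂ) = tC (addT q t) := by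
  funext m
  by_cases hm : m = 0
  · subst hm
    simp [addT, tC]
  · simp [addT, tC, hm]

lemma isCompact_csq (R : ℝ) : IsCompact (csq R) := by
  refine Metric.isCompact_of_isClosed_isBounded (isClosed_csq R) ?_
  refine (Metric.isBounded_closedBall (x := (0 : ℂ)) (r := R + R)).subset fun z hz => ?_
  rw [mem_closedBall_zero_iff]
  exact (Complex.norm_le_abs_re_add_abs_im z).trans (add_le_add hz.1 hz.2)

lemma isCompact_csqc (c : ℂ) (R : ℝ) : IsCompact (csqc c R) := by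
  refine Metric.isCompact_of_isClosed_isBounded (isClosed_csqc c R) ?_
  refine (Metric.isBounded_closedBall (x := c) (r := R + R)).subset fun z hz => ?_
  rw [mem_closedBall_iff_norm]
  refine (Complex.norm_le_abs_re_add_abs_im _).trans (add_le_add ?_ ?_)
  · simpa using hz.1
  · simpa using hz.2

lemma isCompact_disc (a : ℂ) (κ : ℝ) : IsCompact {t : ℂ | ‖t - a‖ ≤ κ ∧ 0 ≤ t.im} := by
  have h1 : {t : ℂ | ‖t - a‖ ≤ κ ∧ 0 ≤ t.im} = Metric.closedBall a κ ∩ {t | 0 ≤ t.im} := by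
    ext t
    rw [mem_inter_iff, mem_closedBall_iff_norm]
    rfl
  rw [h1]
  exact (isCompact_closedBall a κ).inter_right
    (isClosed_le continuous_const Complex.continuous_im)

lemma isCompact_circ (a : ℂ) (κ : ℝ) : IsCompact {t : ℂ | ‖t - a‖ = κ ∧ 0 ≤ t.im} := by
  have h1 : {t : ℂ | ‖t - a‖ = κ ∧ 0 ≤ t.im} = Metric.sphere a κ ∩ {t | 0 ≤ t.im} := by
    ext t
    rw [mem_inter_iff, mem_sphere_iff_norm]
    rfl
  rw [h1]
  exact (isCompact_sphere a κ).inter_right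
    (isClosed_le continuous_const Complex.continuous_im)

/-- No singular levels on a compact set of levels. -/
theorem tame_level {q : Tup n l} (h0 : T0 q) {A : Set ℂ} (hA : IsCompact A)
    (hs : ∀ t ∈ A, SingF (f0 (addT q t)) = ∅) :
    ∀ᶠ en in 𝓝[>] (0 : ℝ), ∀ᶠ eta in 𝓝[>] (0 : ℝ), ∀ t ∈ A,
      SingF (fpol en eta (addT q t)) = ∅ := by
  have h := tame_sing (K := (fun t => addT q t) '' A) (hA.image (continuous_addT_c q))
    (by rintro _ ⟨t, -, rfl⟩; exact T0_addT h0 t)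
    (by rintro _ ⟨t, ht, rfl⟩; exact hs t ht)
  filter_upwards [h] with en h1
  filter_upwards [h1] with eta h2 t ht
  exact h2 _ ⟨t, ht, rfl⟩

/-- The critical values over a compact set of levels stay in an open set. -/
theorem tame_val {q : Tup n l} (h1 : T1 q) {A : Set ℂ} (hA : IsCompact A) {B : Set ℂ}
    (hB : IsCompact B) {O : Set ℂ} (hO : IsOpen O)
    (hs : ∀ t ∈ A, ∀ z ∈ SigF (f0 (addT q t)), z ∈ O) :
    ∀ᶠ en in 𝓝[>] (0 : ℝ), ∀ᶠ eta in 𝓝[>] (0 : ℝ), ∀ t ∈ A,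
      ∀ z ∈ SigF (fpol en eta (addT q t)), z ∈ B → z ∈ O := by
  have hc : Continuous fun p : ℂ × ℂ => (addT q p.1, p.2) :=
    ((continuous_addT_c q).comp continuous_fst).prodMk continuous_snd
  have h := tame_sig (K := (fun p : ℂ × ℂ => (addT q p.1, p.2)) '' (A ×ˢ (B \ O)))
    ((hA.prod (hB.diff hO)).image hc)
    (by rintro _ ⟨p, -, rfl⟩; exact T1_addT h1 p.1)
    (by rintro _ ⟨p, hp, rfl⟩ h2; exact hp.2.2 (hs _ hp.1 _ h2))
  filter_upwards [h] with en h1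
  filter_upwards [h1] with eta h2 t ht z hz hzB
  by_contra hzO
  exact h2 (addT q t, z) ⟨(t, z), ⟨ht, hzB, hzO⟩, rfl⟩ hz

/-- If all critical points at `eta = 0` are nondegenerate, they are finitely many. -/
theorem crit0_finite {q : Tup n l} (h0 : T0 q) (h1 : T1 q)
    (hp : ∀ x ∈ CritF (f0 q), NonDegC (f0 q) x) : (CritF (f0 q)).Finite := by
  obtain ⟨C, hC⟩ := crit0_bounded (K := {q}) isCompact_singleton (by simpa using h0)
    (by simpa using h1)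
  have hcl : IsClosed (CritF (f0 q)) := by
    have h2 := isClosed_critF (n := n) (l := l) 0
    have h3 : Continuous fun x : Fin (n + 1) → ℂ => ((0 : ℝ), q, x) := by fun_prop
    have h4 := h2.preimage h3
    convert h4 using 1
    ext x
    simp [fpol_zero]
  have hcp : IsCompact (CritF (f0 q)) := by
    refine Metric.isCompact_of_isClosed_isBounded hcl ?_
    refine (Metric.isBounded_closedBall (x := (0 : Fin (n + 1) → ℂ)) (r := C)).subset
      fun x hx => ?_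
    rw [mem_closedBall_zero_iff]
    exact hC q rfl x hx
  have hO : ∀ x ∈ CritF (f0 q), ∃ O ∈ 𝓝 x, ∀ y ∈ CritF (f0 q) ∩ O, y = x := by
    intro x hx
    obtain ⟨O, hO, h⟩ := crit_near hx (hp x hx)
    obtain ⟨y, -, -, hy⟩ := (h O hO).self_of_nhds
    refine ⟨O, hO, fun z hz => ?_⟩
    rw [hy z hz, hy x ⟨hx, mem_of_mem_nhds hO⟩]
  choose! O hO1 hO2 using hO
  obtain ⟨t, ht, hcov⟩ := hcp.elim_nhds_subcover O hO1
  refine t.finite_toSet.subset fun x hx => ?_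
  obtain ⟨y, hy, hxy⟩ := mem_iUnion₂.1 (hcov hx)
  rw [hO2 y (ht y hy) x ⟨hx, hxy⟩]
  exact hy

/-- All critical points are nondegenerate with distinct values: this is stable over compact sets
of values. -/
theorem tame_all {q : Tup n l} (h0 : T0 q) (h1 : T1 q)
    (hp : ∀ x ∈ CritF (f0 q), NonDegC (f0 q) x)
    (hi : InjOn (fun x => x (Fin.last n)) (CritF (f0 q))) {B : Set ℂ} (hB : IsCompact B) :
    ∀ᶠ en in 𝓝[>] (0 : ℝ), ∀ᶠ eta in 𝓝[>] (0 : ℝ), (SigF (fpol en eta q) ∩ B).Finite ∧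
      ∀ z ∈ SigF (fpol en eta q) ∩ B, ∃ w ∈ CritF (fpol en eta q), w (Fin.last n) = z ∧
        NonDegC (fpol en eta q) w ∧ ∀ x ∈ CritF (fpol en eta q), x (Fin.last n) = z → x = w := by
  have hf := crit0_finite h0 h1 hp
  -- the cells
  have hQ : ∀ w ∈ CritF (f0 q), ∃ δ > 0, ∀ x ∈ CritF (f0 q),
      x (Fin.last n) ∈ Metric.closedBall (w (Fin.last n)) δ → x = w := by
    intro w hw
    have hf' : (SigF (f0 q) \ {w (Fin.last n)}).Finite := (hf.image _).subset sdiff_subset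
    obtain ⟨δ, hδ, h⟩ := Metric.isOpen_iff.1 hf'.isClosed.isOpen_compl (w (Fin.last n))
      (fun h => h.2 rfl)
    refine ⟨δ / 2, half_pos hδ, fun x hx hxb => ?_⟩
    have h2 : x (Fin.last n) ∉ SigF (f0 q) \ {w (Fin.last n)} :=
      h (Metric.closedBall_subset_ball (half_lt_self hδ) hxb)
    have h3 : x (Fin.last n) = w (Fin.last n) := by
      by_contra h4
      exact h2 ⟨⟨x, hx, rfl⟩, h4⟩
    exact hi hx hw h3
  choose! δ hδ hδ' using hQ
  have hcell : ∀ᶠ en in 𝓝[>] (0 : ℝ), ∀ᶠ eta in 𝓝[>] (0 : ℝ), ∀ w ∈ CritF (f0 q),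
      ∃ x ∈ CritF (fpol en eta q), NonDegC (fpol en eta q) x ∧ ∀ y ∈ CritF (fpol en eta q),
        y (Fin.last n) ∈ Metric.closedBall (w (Fin.last n)) (δ w) → y = x := by
    have h : ∀ w ∈ CritF (f0 q), ∀ᶠ en in 𝓝[>] (0 : ℝ), ∀ᶠ eta in 𝓝[>] (0 : ℝ),
        ∃ x ∈ CritF (fpol en eta q), NonDegC (fpol en eta q) x ∧ ∀ y ∈ CritF (fpol en eta q),
          y (Fin.last n) ∈ Metric.closedBall (w (Fin.last n)) (δ w) → y = x := by
      intro w hw
      filter_upwards [tame_cell h1 hw (hp w hw) (isCompact_closedBall _ _)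
        (Metric.closedBall_mem_nhds _ (hδ w hw)) (hδ' w hw) univ_mem] with en h2
      filter_upwards [h2] with eta h3
      obtain ⟨x, h4, -, h5, h6⟩ := h3
      exact ⟨x, h4, h5, h6⟩
    filter_upwards [(Filter.eventually_all_finite hf).2 h] with en h2
    exact (Filter.eventually_all_finite hf).2 h2
  -- the rest
  have hrest : ∀ᶠ en in 𝓝[>] (0 : ℝ), ∀ᶠ eta in 𝓝[>] (0 : ℝ), ∀ z ∈ SigF (fpol en eta q),
      z ∈ B → ∃ w ∈ CritF (f0 q), z ∈ Metric.closedBall (w (Fin.last n)) (δ w) := by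
    set U : Set ℂ := ⋃ w ∈ CritF (f0 q), Metric.ball (w (Fin.last n)) (δ w) with hU
    have hUo : IsOpen U := isOpen_biUnion fun _ _ => Metric.isOpen_ball
    have h := tame_sig (K := (fun z : ℂ => (q, z)) '' (B \ U))
      ((hB.diff hUo).image (by fun_prop))
      (by rintro _ ⟨z, -, rfl⟩; exact h1)
      (by
        rintro _ ⟨z, hz, rfl⟩ h2
        obtain ⟨w, hw, rfl⟩ := h2
        exact hz.2 (mem_iUnion₂.2 ⟨w, hw, Metric.mem_ball_self (hδ w hw)⟩))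
    filter_upwards [h] with en h1
    filter_upwards [h1] with eta h2 z hz hzB
    by_cases hzU : z ∈ U
    · obtain ⟨w, hw, hzw⟩ := mem_iUnion₂.1 hzU
      exact ⟨w, hw, Metric.ball_subset_closedBall hzw⟩
    · exact absurd hz (h2 (q, z) ⟨z, ⟨hzB, hzU⟩, rfl⟩)
  filter_upwards [hcell, hrest] with en h2 h3
  filter_upwards [h2, h3] with eta h4 h5
  choose! x hx1 hx2 hx3 using h4
  refine ⟨(hf.image fun w => x w (Fin.last n)).subset ?_, ?_⟩
  · rintro z ⟨hz, hzB⟩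
    obtain ⟨w, hw, hzw⟩ := h5 z hz hzB
    obtain ⟨y, hy, rfl⟩ := hz
    exact ⟨w, hw, by rw [hx3 w hw y hy hzw]⟩
  · rintro z ⟨hz, hzB⟩
    obtain ⟨w, hw, hzw⟩ := h5 z hz hzB
    obtain ⟨y, hy, rfl⟩ := hz
    have hyx := hx3 w hw y hy hzw
    refine ⟨y, hy, rfl, ?_, fun y' hy' he => ?_⟩
    · rw [hyx]
      exact hx2 w hw
    · rw [hyx]
      refine hx3 w hw y' hy' ?_
      rw [he]
      exact hzw

/-- One critical value in a cell. -/
theorem tame_one {q : Tup n l} (h1 : T1 q) {c : ℂ} {ρ0 ρ1 : ℝ} (hρ : ρ0 < ρ1)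
    {w : Fin (n + 1) → ℂ} (hw : w ∈ CritF (f0 q)) (hn : NonDegC (f0 q) w)
    (hwc : w (Fin.last n) ∈ sqc c ρ0)
    (hu : ∀ x ∈ CritF (f0 q), x (Fin.last n) ∈ csqc c ρ1 → x = w) :
    ∀ᶠ en in 𝓝[>] (0 : ℝ), ∀ᶠ eta in 𝓝[>] (0 : ℝ), ∃ z ∈ SigF (fpol en eta q), z ∈ sqc c ρ0 ∧
      ∀ x ∈ SigF (fpol en eta q), x ∈ csqc c ρ1 → x = z := by
  have hsub : sqc c ρ0 ⊆ csqc c ρ1 := fun z hz =>
    ⟨(hz.1.trans hρ).le, (hz.2.trans hρ).le⟩
  have hc : Continuous fun x : Fin (n + 1) → ℂ => x (Fin.last n) := by fun_prop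
  filter_upwards [tame_cell h1 hw hn (isCompact_csqc c ρ1)
    (mem_of_superset ((isOpen_sqc c ρ0).mem_nhds hwc) hsub) hu
    (hc.continuousAt ((isOpen_sqc c ρ0).mem_nhds hwc))] with en h2
  filter_upwards [h2] with eta h3
  obtain ⟨x, h4, h5, -, h6⟩ := h3
  refine ⟨x (Fin.last n), ⟨x, h4, rfl⟩, h5, ?_⟩
  rintro _ ⟨y, hy, rfl⟩ hy'
  rw [h6 y hy hy']

/-- All together: the geometry near an event. -/
theorem geo_core {q : RTup n l} {tv κ vn R1 r' ρ0 ρ1 : ℝ} {T : Set ℂ} (hκ : 0 < κ)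
    (h1 : T1 (tC q)) (h0 : T0 (tC q))
    (sing : ∀ t : ℂ, ‖t - tv‖ ≤ κ ∧ 0 ≤ t.im → t ≠ tv → SingF (f0 (addT (tC q) t)) = ∅)
    (sig : ∀ t : ℂ, ‖t - tv‖ ≤ κ ∧ 0 ≤ t.im → ∀ z ∈ SigF (f0 (addT (tC q) t)),
      z ∈ sqc (vn : ℂ) r' ∨ ∃ c ∈ T, z ∈ sqc c ρ0)
    (one : ∀ c ∈ T, ∃ w ∈ CritF (f0 (tC (addT q (tv + κ)))),
      NonDegC (f0 (tC (addT q (tv + κ)))) w ∧ w (Fin.last n) ∈ sqc c ρ0 ∧
      ∀ x ∈ CritF (f0 (tC (addT q (tv + κ)))), x (Fin.last n) ∈ csqc c ρ1 → x = w)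
    (hT : T.Finite) (hρ : ρ0 < ρ1)
    (hp : ∀ x ∈ CritF (f0 (tC (addT q (tv + κ)))), NonDegC (f0 (tC (addT q (tv + κ)))) x)
    (hi : InjOn (fun x => x (Fin.last n)) (CritF (f0 (tC (addT q (tv + κ)))))) :
    ∀ᶠ en in 𝓝[>] (0 : ℝ), ∀ᶠ eta in 𝓝[>] (0 : ℝ),
      (∀ t : ℂ, ‖t - tv‖ = κ ∧ 0 ≤ t.im → SingF (fpol en eta (addT (tC q) t)) = ∅) ∧
      (∀ t : ℂ, ‖t - tv‖ ≤ κ ∧ 0 ≤ t.im → ∀ z ∈ SigF (fpol en eta (addT (tC q) t)), z ∈ sq R1 →
        z ∈ sqc (vn : ℂ) r' ∨ ∃ c ∈ T, z ∈ sqc c ρ0) ∧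
      (SigF (fpol en eta (tC (addT q (tv + κ)))) ∩ sq R1).Finite ∧
      (∀ z ∈ SigF (fpol en eta (tC (addT q (tv + κ)))) ∩ sq R1,
        SingF (fpol en eta (tC (addT q (tv + κ)))) = ∅ ∧
        ∃ w ∈ CritF (fpol en eta (tC (addT q (tv + κ)))), w (Fin.last n) = z ∧
          NonDegC (fpol en eta (tC (addT q (tv + κ)))) w ∧
          ∀ x ∈ CritF (fpol en eta (tC (addT q (tv + κ)))), x (Fin.last n) = z → x = w) ∧
      (∀ c ∈ T, ∃ w ∈ SigF (fpol en eta (tC (addT q (tv + κ)))), w ∈ sqc c ρ0 ∧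
        ∀ x ∈ SigF (fpol en eta (tC (addT q (tv + κ)))), x ∈ csqc c ρ1 → x = w) := by
  have hq0 : T0 (tC (addT q (tv + κ))) := by
    rw [← addT_tC]
    exact T0_addT h0 _
  have hq1 : T1 (tC (addT q (tv + κ))) := by
    rw [← addT_tC]
    exact T1_addT h1 _
  -- `sing`
  have a1 := tame_level h0 (isCompact_circ (tv : ℂ) κ) (fun t ht => sing t ⟨ht.1.le, ht.2⟩ (by
    rintro rfl
    have h2 := ht.1
    rw [sub_self, norm_zero] at h2
    exact hκ.ne h2))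
  -- `sig`
  have a2 := tame_val h1 (isCompact_disc (tv : ℂ) κ) (isCompact_csq R1)
    (O := sqc (vn : ℂ) r' ∪ ⋃ c ∈ T, sqc c ρ0)
    ((isOpen_sqc _ _).union (isOpen_biUnion fun c _ => isOpen_sqc c ρ0))
    (fun t ht z hz => by
      rcases sig t ht z hz with h2 | ⟨c, hc, h2⟩
      · exact Or.inl h2
      · exact Or.inr (mem_iUnion₂.2 ⟨c, hc, h2⟩))
  -- `fin`, `simple`
  have a3 := tame_all hq0 hq1 hp hi (isCompact_csq R1)
  -- `one`
  have a4 : ∀ᶠ en in 𝓝[>] (0 : ℝ), ∀ᶠ eta in 𝓝[>] (0 : ℝ), ∀ c ∈ T,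
      ∃ w ∈ SigF (fpol en eta (tC (addT q (tv + κ)))), w ∈ sqc c ρ0 ∧
        ∀ x ∈ SigF (fpol en eta (tC (addT q (tv + κ)))), x ∈ csqc c ρ1 → x = w := by
    have h : ∀ c ∈ T, ∀ᶠ en in 𝓝[>] (0 : ℝ), ∀ᶠ eta in 𝓝[>] (0 : ℝ),
      ∃ w ∈ SigF (fpol en eta (tC (addT q (tv + κ)))), w ∈ sqc c ρ0 ∧
        ∀ x ∈ SigF (fpol en eta (tC (addT q (tv + κ)))), x ∈ csqc c ρ1 → x = w := by
      intro c hc
      obtain ⟨w, hw, hn, hwc, hu⟩ := one c hc
      exact tame_one hq1 hρ hw hn hwc hu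
    filter_upwards [(Filter.eventually_all_finite hT).2 h] with en h2
    exact (Filter.eventually_all_finite hT).2 h2
  have hsq : ∀ z ∈ sq R1, z ∈ csq R1 := fun z hz => ⟨hz.1.le, hz.2.le⟩
  filter_upwards [a1, a2, a3, a4] with en b1 b2 b3 b4
  filter_upwards [b1, b2, b3, b4] with eta c1 c2 c3 c4
  refine ⟨c1, fun t ht z hz hzR => ?_, c3.1.subset fun z hz => ⟨hz.1, hsq z hz.2⟩,
    fun z hz => ⟨?_, c3.2 z ⟨hz.1, hsq z hz.2⟩⟩, c4⟩
  · rcases c2 t ht z hz (hsq z hzR) with h2 | h2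
    · exact Or.inl h2
    · obtain ⟨c, hc, h3⟩ := mem_iUnion₂.1 h2
      exact Or.inr ⟨c, hc, h3⟩
  · rw [← addT_tC]
    refine c1 _ ⟨?_, ?_⟩
    · push_cast
      rw [add_sub_cancel_left, Complex.norm_real, Real.norm_of_nonneg hκ.le]
    · simp

end Pool.Agent.QC.GeoT
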