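import Pool.Agent.QC.Asm.GeoAB0
import Pool.Agent.QC.Asm.GeoPlus
import Pool.Agent.QC.Asm.GeoMX
import Pool.Agent.QC.Asm.GeoM33
import Pool.Agent.QC.Asm.GeoTame

/-!
# MP_7c50a9_lc: assembly, statements part 2: the geometry of an event

The definitions are in `Asm/GeoDefs.lean`.
-/

namespace Pool.Agent.QC

open MvPolynomial Filter Topology Set

variable {n l : ℕ}

/-! ## The geometry at `eta = 0` -/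

/-- Existence of the squares (independent of `κ`), the same for all small `κ`. -/
theorem exists_geo0 {q : RTup n l} (h0 : T0 (tC q)) (h1 : T1 (tC q))
    (h3 : ∀ t : ℂ, N3at (addT (tC q) t)) {tv : ℝ} {v : Fin (n + 1) → ℝ}
    (hv : xC v ∈ SingF (f0 (tC (addT q tv))))
    (hiso : ∀ᶠ t in 𝓝[≠] (tv : ℂ), SingF (f0 (addT (tC q) t)) = ∅) {r₁ : ℝ} (hr₁ : 0 < r₁) :
    ∃ r > 0, r < r₁ ∧ ∃ ρ1 > 0, ∃ T : Set ℂ, T.Finite ∧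
      (∀ c ∈ T, ∀ c' ∈ T, c ≠ c' → Disjoint (csqc c ρ1) (csqc c' ρ1)) ∧
      (∀ c ∈ T, Disjoint (csqc c ρ1) (csqc (v (Fin.last n) : ℂ) r)) ∧
      (∀ c ∈ T, c.im = 0 ∨ r + ρ1 < |c.im|) ∧
      ∀ r' > 0, r' < r → ∀ ρ0 > 0, ρ0 < ρ1 →
        ∀ᶠ κ in 𝓝[>] (0 : ℝ), Geo0 q tv κ (v (Fin.last n)) r' r ρ0 ρ1 T :=
  Geo33.exists_geo0 h0 h1 h3 hv hiso hr₁

/-- Case A. -/
theorem exists_geoA0 {q : RTup n l} (h1 : T1 (tC q)) {tv : ℝ} {v : Fin (n + 1) → ℝ}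
    (hv : xC v ∈ SingF (f0 (tC (addT q tv)))) (h3 : N3at (tC (addT q tv)))
    (hA : 0 < ((HR (addT q tv) v)⁻¹ : Matrix _ _ ℝ) (Fin.last n) (Fin.last n)) :
    ∃ r₁ > 0, ∀ r < r₁, ∀ r' > 0, r' < r → ∀ᶠ κ in 𝓝[>] (0 : ℝ), ∃ μ,
      GeoA0 q tv κ (v (Fin.last n)) r' r μ :=
  exists_geoA0' h1 hv h3 hA

/-- Case A, index one, before the event; `N1`, `N2` are the components of the two real points. -/
theorem exists_geoM0 {q : RTup n l} (h1 : T1 (tC q)) {tv t' : ℝ} {v : Fin (n + 1) → ℝ}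
    (H : EvHyp q tv t' v) (h3 : N3at (tC (addT q tv))) (hone : OnePos (HR (addT q tv) v))
    (hA : 0 < ((HR (addT q tv) v)⁻¹ : Matrix _ _ ℝ) (Fin.last n) (Fin.last n)) :
    ∃ r₁ > 0, ∀ r < r₁, ∀ r' > 0, r' < r → ∀ᶠ κ in 𝓝[>] (0 : ℝ), ∃ U1 ∈ Cmp (Wset q tv),
      ∃ U2 ∈ Cmp (Wset q tv), GeoM0 q tv κ (v (Fin.last n)) r' r U1 U2 ∧
        U1 ⊆ connectedComponentIn (Wset q t') v ∧ U2 ⊆ connectedComponentIn (Wset q t') v ∧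
        ∀ O ∈ Cmp (Wset q t'), ∀ U ∈ Cmp (Wset q tv), ∀ U' ∈ Cmp (Wset q tv), U ⊆ O → U' ⊆ O →
          U = U' ∨ ((U = U1 ∨ U = U2) ∧ (U' = U1 ∨ U' = U2)) :=
  Geo33.exists_geoM0 h1 H h3 hone hA

/-- Case B. -/
theorem exists_geoB0 {q : RTup n l} (h1 : T1 (tC q)) {tv : ℝ} {v : Fin (n + 1) → ℝ}
    (hv : xC v ∈ SingF (f0 (tC (addT q tv)))) (h3 : N3at (tC (addT q tv)))
    (hB : NegDef (HR (addT q tv) v)) {N : Set (Fin (n + 1) → ℝ)} (hN : N ∈ 𝓝 v) :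
    ∃ r₁ > 0, ∀ r < r₁, ∀ r' > 0, r' < r → ∀ᶠ κ in 𝓝[>] (0 : ℝ),
      GeoB0 q tv κ (v (Fin.last n)) r' r N :=
  exists_geoB0' h1 hv h3 hB hN

/-! ## The geometry at `eta > 0` -/

/-- From `eta = 0` to `eta > 0`. -/
theorem geo_of_geo0 {a : ℝ} (ha : Irrational a) (ha2 : 2 < a) {q : RTup n l}
    {tv κ vn R0 R1 r' r ρ0 ρ1 : ℝ} {T : Set ℂ} (G : Geo0 q tv κ vn r' r ρ0 ρ1 T)
    (hR : 2 * R0 < R1) (hs : Sqs vn R0 r' r ρ0 ρ1 T)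
    (hp : ∀ x ∈ CritF (f0 (tC (addT q (tv + κ)))), NonDegC (f0 (tC (addT q (tv + κ)))) x)
    (hi : InjOn (fun x => x (Fin.last n)) (CritF (f0 (tC (addT q (tv + κ))))))
    (hb : ∀ t ≤ tv + κ, ∀ x, inOm q x → 0 ≤ fR 0 0 (addT q t) x → |x (Fin.last n)| < R0) :
    ∀ᶠ en in 𝓝[>] (0 : ℝ), ∀ᶠ eta in 𝓝[>] (0 : ℝ), ∀ P : Prm, P.en = en → P.eta = eta → P.a = a →
      Geo P q tv κ vn R0 R1 r' r ρ0 ρ1 T := by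
  filter_upwards [GeoT.geo_core (R1 := R1) G.κ_pos G.T1 G.T0 G.sing G.sig G.one hs.fin hs.ρ_lt hp hi]
    with en h
  filter_upwards [h] with eta h2
  rintro P rfl rfl -
  exact ⟨G.κ_pos, hR, hs, h2.1, h2.2.1, h2.2.2.1, h2.2.2.2.1, h2.2.2.2.2, hb⟩

theorem geoA_of_geoA0 {q : RTup n l} {tv κ vn r' r ρ0 ρ1 μ : ℝ} {T : Set ℂ}
    (G : Geo0 q tv κ vn r' r ρ0 ρ1 T) (h : r' < r) (hA : GeoA0 q tv κ vn r' r μ) :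
    ∀ᶠ en in 𝓝[>] (0 : ℝ), ∀ᶠ eta in 𝓝[>] (0 : ℝ), ∀ P : Prm, P.en = en → P.eta = eta →
      ∃ a, GeoA P q tv κ vn r' r μ a :=
  geoA_of_geoA0' G h hA

theorem geoM_of_geoM0 {q : RTup n l} {tv κ vn r' r ρ0 ρ1 : ℝ} {T : Set ℂ}
    (G : Geo0 q tv κ vn r' r ρ0 ρ1 T) (h : r' < r) {N1 N2 : Set (Fin (n + 1) → ℝ)}
    (hN1 : IsOpen N1) (hN2 : IsOpen N2) (hM : GeoM0 q tv κ vn r' r N1 N2) :
    ∀ᶠ en in 𝓝[>] (0 : ℝ), ∀ᶠ eta in 𝓝[>] (0 : ℝ), ∀ P : Prm, P.en = en → P.eta = eta →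
      ∃ x1 x2, GeoM P q tv κ vn r' r N1 N2 x1 x2 := by
  obtain ⟨x1, x2, a1, a2, a3, a4, a5, a6, a7, a8, a9, a10, a11, a12, a13⟩ := hM.minus
  refine (Asm.geoM_gen (Asm.T1_tC_addT G.T1 _) (Asm.T0_tC_addT G.T0 _)
    (Asm.sing_left G.κ_pos G.sing) h hN1 hN2 a1 a2 a3 a4 a5 a6 a7 a8 a9 a10 a11 a12 a13).mono
    fun en h1 => h1.mono fun eta h2 P hen heta => ?_
  obtain ⟨y1, y2, b1, b2, b3, b4, b5, b6, b7, b8, b9, b10, b11, b12, b13⟩ := h2 P hen heta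
  exact ⟨y1, y2, ⟨b1, b2, b3, b4, b5, b6, b7, b8, b9, b10, b11, b12, b13⟩⟩

theorem geoB_of_geoB0 {q : RTup n l} {tv κ vn r' r ρ0 ρ1 : ℝ} {T : Set ℂ}
    (G : Geo0 q tv κ vn r' r ρ0 ρ1 T) (h : r' < r) {N : Set (Fin (n + 1) → ℝ)}
    (hN : IsOpen N) (hB : GeoB0 q tv κ vn r' r N) :
    ∀ᶠ en in 𝓝[>] (0 : ℝ), ∀ᶠ eta in 𝓝[>] (0 : ℝ), ∀ P : Prm, P.en = en → P.eta = eta →
      ∃ x1 x2, GeoB P q tv κ vn r' r N x1 x2 :=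
  geoB_of_geoB0' G h hN hB

end Pool.Agent.QC
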