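import Pool.Agent.QC.Asm.GeoDefs
import Pool.Agent.QC.Ev.Isolated
import Pool.Agent.QC.S5.PairM

/-!
# MP_7c50a9_lc: the squares around the critical values at an event (`eta = 0`)
-/

namespace Pool.Agent.QC.Geo33

open MvPolynomial Filter Topology Set

variable {n l : ℕ}

theorem csqc_norm {c z : ℂ} {r : ℝ} (h : z ∈ csqc c r) : ‖z - c‖ ≤ 2 * r := by
  have h1 := Complex.norm_le_abs_re_add_abs_im (z - c)
  rw [Complex.sub_re, Complex.sub_im] at h1
  have := h.1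
  have := h.2
  linarith

theorem self_mem_sqc {c : ℂ} {r : ℝ} (h : 0 < r) : c ∈ sqc c r := by
  constructor <;> simpa using h

theorem self_mem_csqc {c : ℂ} {r : ℝ} (h : 0 ≤ r) : c ∈ csqc c r := by
  constructor <;> simpa using h

theorem isOpen_sqc' (c : ℂ) (r : ℝ) : IsOpen (sqc c r) := by
  rw [sqc_eq]
  exact (isOpen_sq r).preimage (by fun_prop)

theorem isCompact_csqc' (c : ℂ) (r : ℝ) : IsCompact (csqc c r) := by
  refine (isCompact_closedBall c (2 * r)).of_isClosed_subset ?_ ?_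
  · have h1 : IsClosed {z : ℂ | |z.re - c.re| ≤ r} :=
      isClosed_le ((Complex.continuous_re.sub continuous_const).abs) continuous_const
    have h2 : IsClosed {z : ℂ | |z.im - c.im| ≤ r} :=
      isClosed_le ((Complex.continuous_im.sub continuous_const).abs) continuous_const
    exact h1.inter h2
  · intro z hz
    rw [Metric.mem_closedBall, dist_eq_norm]
    exact csqc_norm hz

theorem tC_addT (q : RTup n l) (t : ℝ) : tC (addT q t) = addT (tC q) (t : ℂ) := by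
  funext m
  by_cases hm : m = 0
  · subst hm
    simp [tC, addT]
  · simp [tC, addT, hm]

theorem addT_ne {R : Type*} [CommRing R] (q : Fin (l + 1) → QP R (n + 1)) (t : R)
    {m : Fin (l + 1)} (hm : m ≠ 0) : addT q t m = q m := by
  simp [addT, hm]

theorem T0_addT {q : Tup n l} (h : T0 q) (t : ℂ) : T0 (addT q t) := by
  have e0 : ∀ m, (addT q t m).1 = (q m).1 := by
    intro m
    by_cases hm : m = 0
    · subst hm; simp [addT]
    · rw [addT_ne q t hm]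
  have e1 : ∀ m ξ, qform (addT q t m) ξ = qform (q m) ξ := by
    intro m ξ
    simp only [qform, e0]
  have e2 : ∀ m k ξ, qfgrad (addT q t m) k ξ = qfgrad (q m) k ξ := by
    intro m k ξ
    simp only [qfgrad, e0]
  refine ⟨fun ξ hξ c κ h1 h2 h3 => h.1 ξ hξ c κ (fun m => ?_) (fun i => ?_) ?_, fun m => ?_⟩
  · rw [← e1]; exact h1 m
  · simpa only [e2] using h2 i
  · simpa only [e2] using h3
  · rw [e0]; exact h.2 m

theorem isClosed_CritF (f : Pol (n + 1)) : IsClosed (CritF f) := by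
  have : CritF f = {x | eval x f = 0} ∩ ⋂ i : Fin n, {x | eval x (pderiv i.castSucc f) = 0} := by
    ext x
    simp [CritF]
  rw [this]
  exact (isClosed_eq (Ev.continuous_evalC _) continuous_const).inter
    (isClosed_iInter fun i => isClosed_eq (Ev.continuous_evalC _) continuous_const)

theorem exists_lb {α : Type*} {T : Set α} (hT : T.Finite) (φ : α → ℝ) (h : ∀ c ∈ T, 0 < φ c) :
    ∃ ε > 0, ∀ c ∈ T, ε ≤ φ c := by
  rcases T.eq_empty_or_nonempty with rfl | hne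
  · exact ⟨1, one_pos, fun c hc => hc.elim⟩
  · obtain ⟨a, ha, hmin⟩ := Set.exists_min_image T φ hT hne
    exact ⟨φ a, h a ha, hmin⟩

/-- The critical set at the event is finite. -/
theorem crit_finite {Q : Tup n l} (h0 : T0 Q) (h1 : T1 Q) {v : Fin (n + 1) → ℂ}
    (hv : v ∈ SingF (f0 Q)) (h3 : N3at Q) : (CritF (f0 Q)).Finite := by
  obtain ⟨hH, hH', -, hcrit, -⟩ := h3 v hv
  obtain ⟨R, hR⟩ := sig_bounded (K := {Q}) isCompact_singleton (by simpa using h0)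
    (by simpa using h1)
  have hK : IsCompact (CritF (f0 Q)) := by
    refine (isCompact_closedBall (0 : Fin (n + 1) → ℂ) (max R 0)).of_isClosed_subset
      (isClosed_CritF _) ?_
    intro x hx
    rw [mem_closedBall_zero_iff, pi_norm_le_iff_of_nonneg (le_max_right _ _)]
    exact fun i => (hR Q rfl x hx i).le.trans (le_max_left _ _)
  have hiso : ∀ x ∈ CritF (f0 Q), ∃ O ∈ 𝓝 x, CritF (f0 Q) ∩ O ⊆ {x} := by
    intro x hx
    by_cases hxv : x = v
    · subst hxv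
      exact ⟨_, Ev.crit_isolated _ x hv hH hH', fun y hy => hy.2 hy.1⟩
    · obtain ⟨O, hO, h⟩ := crit_near hx (hcrit x hx hxv).1
      obtain ⟨y, -, -, hy⟩ := (h O hO).self_of_nhds
      refine ⟨O, hO, fun z hz => ?_⟩
      rw [mem_singleton_iff, hy z hz, hy x ⟨hx, mem_of_mem_nhds hO⟩]
  choose! O hO hOs using hiso
  obtain ⟨s, hsK, hs⟩ := hK.elim_nhds_subcover O fun x hx => hO x hx
  refine s.finite_toSet.subset fun x hx => ?_
  obtain ⟨y, hy, hxy⟩ := mem_iUnion₂.mp (hs hx)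
  have : x = y := hOs y (hsK y hy) ⟨hx, hxy⟩
  rw [this]
  exact hy

theorem hd_eventually {tv : ℝ} {p : ℂ → Prop} (h : ∀ᶠ t in 𝓝 (tv : ℂ), p t) :
    ∀ᶠ κ in 𝓝[>] (0 : ℝ), ∀ t ∈ hd tv κ, p t := by
  obtain ⟨ε, hε, hp⟩ := Metric.eventually_nhds_iff.mp h
  filter_upwards [Ioo_mem_nhdsGT hε] with κ hκ t ht
  refine hp ?_
  rw [dist_eq_norm]
  exact ht.1.trans_lt hκ.2

theorem sum_csqc_lt {c c' z : ℂ} {r r' : ℝ} (h : z ∈ csqc c r) (h' : z ∈ csqc c' r') :
    ‖c - c'‖ ≤ 2 * r + 2 * r' := by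
  have h1 := csqc_norm h
  have h2 := csqc_norm h'
  have h3 : ‖c - c'‖ ≤ ‖z - c'‖ + ‖z - c‖ := by
    have := norm_sub_le (z - c') (z - c)
    rwa [sub_sub_sub_cancel_left] at this
  linarith

theorem exists_geo0 {q : RTup n l} (h0 : T0 (tC q)) (h1 : T1 (tC q))
    (h3 : ∀ t : ℂ, N3at (addT (tC q) t)) {tv : ℝ} {v : Fin (n + 1) → ℝ}
    (hv : xC v ∈ SingF (f0 (tC (addT q tv))))
    (hiso : ∀ᶠ t in 𝓝[≠] (tv : ℂ), SingF (f0 (addT (tC q) t)) = ∅) {r₁ : ℝ} (hr₁ : 0 < r₁) :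
    ∃ r > 0, r < r₁ ∧ ∃ ρ1 > 0, ∃ T : Set ℂ, T.Finite ∧
      (∀ c ∈ T, ∀ c' ∈ T, c ≠ c' → Disjoint (csqc c ρ1) (csqc c' ρ1)) ∧
      (∀ c ∈ T, Disjoint (csqc c ρ1) (csqc (v (Fin.last n) : ℂ) r)) ∧
      (∀ c ∈ T, c.im = 0 ∨ r + ρ1 < |c.im|) ∧
      ∀ r' > 0, r' < r → ∀ ρ0 > 0, ρ0 < ρ1 →
        ∀ᶠ κ in 𝓝[>] (0 : ℝ), Geo0 q tv κ (v (Fin.last n)) r' r ρ0 ρ1 T := by
  set Q : Tup n l := addT (tC q) tv with hQ
  have hv' : xC v ∈ SingF (f0 Q) := by rw [hQ, ← tC_addT]; exact hv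
  have hT0 : T0 Q := T0_addT h0 tv
  have hT1 : T1 Q := S5.T1_addT h1 tv
  obtain ⟨-, -, -, hcrit, hinj⟩ := h3 tv (xC v) hv'
  have hvC : xC v ∈ CritF (f0 Q) := ⟨hv'.1, fun i => hv'.2 i.castSucc⟩
  have hfin := crit_finite hT0 hT1 hv' (h3 tv)
  set vn : ℂ := (v (Fin.last n) : ℂ) with hvn
  have hvn' : xC v (Fin.last n) = vn := rfl
  set T : Set ℂ := (fun x : Fin (n + 1) → ℂ => x (Fin.last n)) '' (CritF (f0 Q) \ {xC v}) with hT
  have hTfin : T.Finite := (hfin.subset sdiff_subset).image _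
  have hTne : ∀ c ∈ T, c ≠ vn := by
    rintro _ ⟨x, ⟨hx, hxv⟩, rfl⟩
    exact (hcrit x hx hxv).2
  have hmemT : ∀ x ∈ CritF (f0 Q), x ≠ xC v → x (Fin.last n) ∈ T := fun x hx hxv =>
    ⟨x, ⟨hx, hxv⟩, rfl⟩
  obtain ⟨ε1, hε1, hlb1⟩ := exists_lb hTfin (fun c => ‖c - vn‖) fun c hc =>
    norm_pos_iff.mpr (sub_ne_zero.mpr (hTne c hc))
  obtain ⟨ε2, hε2, hlb2⟩ := exists_lb (hTfin.prod hTfin)
    (fun p : ℂ × ℂ => if p.1 = p.2 then 1 else ‖p.1 - p.2‖) (by
      rintro ⟨c, c'⟩ -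
      by_cases h : c = c'
      · simp [h]
      · simp only [h, if_false]
        exact norm_pos_iff.mpr (sub_ne_zero.mpr h))
  obtain ⟨ε3, hε3, hlb3⟩ := exists_lb hTfin (fun c => if c.im = 0 then 1 else |c.im|) (by
    intro c _
    by_cases h : c.im = 0
    · simp [h]
    · simp only [h, if_false]
      exact abs_pos.mpr h)
  set ε0 := min (min ε1 ε2) (min ε3 r₁) with hε0
  have hε0p : 0 < ε0 := lt_min (lt_min hε1 hε2) (lt_min hε3 hr₁)
  have hεa : ε0 ≤ ε1 := (min_le_left _ _).trans (min_le_left _ _)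
  have hεb : ε0 ≤ ε2 := (min_le_left _ _).trans (min_le_right _ _)
  have hεc : ε0 ≤ ε3 := (min_le_right _ _).trans (min_le_left _ _)
  have hεd : ε0 ≤ r₁ := (min_le_right _ _).trans (min_le_right _ _)
  have hdis : ∀ c ∈ T, ∀ c' ∈ T, c ≠ c' → Disjoint (csqc c (ε0 / 8)) (csqc c' (ε0 / 8)) := by
    intro c hc c' hc' hne
    rw [disjoint_left]
    intro z hz hz'
    have h4 := sum_csqc_lt hz hz'
    have h5 : ε2 ≤ ‖c - c'‖ := by
      have := hlb2 (c, c') ⟨hc, hc'⟩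
      simpa [hne] using this
    linarith
  have hdisK : ∀ c ∈ T, Disjoint (csqc c (ε0 / 8)) (csqc vn (ε0 / 8)) := by
    intro c hc
    rw [disjoint_left]
    intro z hz hz'
    have h4 := sum_csqc_lt hz hz'
    have h5 := hlb1 c hc
    linarith
  refine ⟨ε0 / 8, by positivity, by linarith, ε0 / 8, by positivity, T, hTfin, hdis, hdisK, ?_, ?_⟩
  · intro c hc
    by_cases h : c.im = 0
    · exact Or.inl h
    · right
      have := hlb3 c hc
      simp only [h, if_false] at this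
      linarith
  intro r' hr' hr'r ρ0 hρ0 hρ01
  have hcont : Tendsto (fun t : ℂ => addT (tC q) t) (𝓝 (tv : ℂ)) (𝓝 Q) :=
    (S5.continuous_addTC (tC q)).tendsto tv
  -- boundedness
  have hb : ∃ R : ℝ, ∀ᶠ t in 𝓝 (tv : ℂ), ∀ x ∈ CritF (f0 (addT (tC q) t)),
      ‖x (Fin.last n)‖ < R := by
    have hK : IsCompact ((fun t : ℂ => addT (tC q) t) '' Metric.closedBall (tv : ℂ) 1) :=
      (isCompact_closedBall _ _).image (S5.continuous_addTC (tC q))
    obtain ⟨R, hR⟩ := sig_bounded hK (by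
      rintro _ ⟨t, -, rfl⟩
      exact T0_addT h0 t) (by
      rintro _ ⟨t, -, rfl⟩
      exact S5.T1_addT h1 t)
    refine ⟨R, ?_⟩
    filter_upwards [Metric.closedBall_mem_nhds (tv : ℂ) one_pos] with t ht x hx
    exact hR _ ⟨t, ht, rfl⟩ x hx _
  obtain ⟨R, hR⟩ := hb
  -- the values
  have hU : IsOpen (sqc vn r' ∪ ⋃ c ∈ T, sqc c ρ0) :=
    (isOpen_sqc' _ _).union (isOpen_biUnion fun c _ => isOpen_sqc' c ρ0)
  have hsig : ∀ᶠ t in 𝓝 (tv : ℂ), ∀ x ∈ CritF (f0 (addT (tC q) t)),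
      x (Fin.last n) ∈ sqc vn r' ∪ ⋃ c ∈ T, sqc c ρ0 := by
    have h4 := hcont.eventually (crit_usc0 hT1 (isCompact_closedBall (0 : ℂ) R)
      (hU.preimage (continuous_apply (Fin.last n))) (fun x hx _ => by
        show x (Fin.last n) ∈ sqc vn r' ∪ ⋃ c ∈ T, sqc c ρ0
        by_cases hxv : x = xC v
        · left
          rw [hxv, hvn']
          exact self_mem_sqc hr'
        · right
          exact mem_iUnion₂.mpr ⟨_, hmemT x hx hxv, self_mem_sqc hρ0⟩))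
    filter_upwards [h4, hR] with t ht htR x hx
    exact ht x hx (by
      rw [mem_closedBall_zero_iff]
      exact (htR x hx).le)
  -- the points over the small squares
  have hone : ∀ c ∈ T, ∀ᶠ t in 𝓝 (tv : ℂ), ∃ w ∈ CritF (f0 (addT (tC q) t)),
      NonDegC (f0 (addT (tC q) t)) w ∧ w (Fin.last n) ∈ sqc c ρ0 ∧
      ∀ x ∈ CritF (f0 (addT (tC q) t)), x (Fin.last n) ∈ csqc c (ε0 / 8) → x = w := by
    rintro _ ⟨w0, ⟨hw0, hw0v⟩, rfl⟩
    obtain ⟨O, hO, h⟩ := crit_near hw0 (hcrit w0 hw0 hw0v).1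
    have h4 := hcont.eventually (h {x | x (Fin.last n) ∈ sqc (w0 (Fin.last n)) ρ0}
      (((isOpen_sqc' (w0 (Fin.last n)) ρ0).preimage (continuous_apply (Fin.last n))).mem_nhds
        (self_mem_sqc hρ0)))
    have h5 := hcont.eventually (crit_usc0 hT1 (isCompact_csqc' (w0 (Fin.last n)) (ε0 / 8))
      isOpen_interior (O := interior O) (fun x hx hxs => by
        have hcT : w0 (Fin.last n) ∈ T := hmemT w0 hw0 hw0v
        have hxv : x ≠ xC v := by
          rintro rfl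
          exact disjoint_left.mp (hdisK _ hcT) hxs (self_mem_csqc (by positivity))
        have hxT := hmemT x hx hxv
        have : x (Fin.last n) = w0 (Fin.last n) := by
          by_contra hne
          exact disjoint_left.mp (hdis _ hxT _ hcT hne) (self_mem_csqc (by positivity)) hxs
        rw [hinj hx hw0 this]
        exact mem_interior_iff_mem_nhds.mpr hO))
    filter_upwards [h4, h5] with t ⟨y, ⟨hy1, hy2⟩, hy3, hy4⟩ ht5
    exact ⟨y, hy1, hy3, hy2, fun x hx hxs => hy4 x ⟨hx, interior_subset (ht5 x hx hxs)⟩⟩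
  have hone' := (eventually_all_finite hTfin).mpr hone
  -- real levels
  have hκt : Tendsto (fun κ : ℝ => ((tv + κ : ℝ) : ℂ)) (𝓝[>] (0:ℝ)) (𝓝 ((tv : ℝ) : ℂ)) := by
    have : Continuous fun κ : ℝ => ((tv + κ : ℝ) : ℂ) := by fun_prop
    have h4 := this.tendsto 0
    simp only [add_zero] at h4
    exact h4.mono_left nhdsWithin_le_nhds
  have hsing : ∀ᶠ t : ℂ in 𝓝 (tv : ℂ), t ≠ (tv : ℂ) → SingF (f0 (addT (tC q) t)) = ∅ := by
    rw [eventually_nhdsWithin_iff] at hiso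
    exact hiso
  filter_upwards [self_mem_nhdsWithin, hd_eventually hsing, hd_eventually hsig,
    hκt.eventually hone'] with κ hκ h4 h5 h6
  refine ⟨hκ, h1, h0, h4, ?_, ?_⟩
  · rintro t ht _ ⟨x, hx, rfl⟩
    rcases h5 t ht x hx with h7 | h7
    · exact Or.inl h7
    · obtain ⟨c, hc, h8⟩ := mem_iUnion₂.mp h7
      exact Or.inr ⟨c, hc, h8⟩
  · intro c hc
    rw [tC_addT]
    exact h6 c hc

end Pool.Agent.QC.Geo33
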