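import Pool.Agent.QC.Asm.GeoDefs

/-!
# MP_7c50a9_lc: the geometry of an event at `eta = 0`, cases A and B (from `pairA`, `pairB`)
-/

namespace Pool.Agent.QC

open MvPolynomial Filter Topology Set

variable {n l : ℕ}

private theorem csqc_norm {c z : ℂ} {r : ℝ} (h : z ∈ csqc c r) : ‖z - c‖ ≤ 2 * r := by
  obtain ⟨h1, h2⟩ := h
  have h3 := Complex.norm_le_abs_re_add_abs_im (z - c)
  rw [Complex.sub_re, Complex.sub_im] at h3
  linarith

private theorem sqc_of_norm {c z : ℂ} {r : ℝ} (h : ‖z - c‖ < r) : z ∈ sqc c r := by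
  refine ⟨?_, ?_⟩
  · have := Complex.abs_re_le_norm (z - c)
    rw [Complex.sub_re] at this
    linarith
  · have := Complex.abs_im_le_norm (z - c)
    rw [Complex.sub_im] at this
    linarith

private theorem sqc_subset_csqc {c : ℂ} {r' r : ℝ} (h : r' ≤ r) : sqc c r' ⊆ csqc c r :=
  fun _ hz => ⟨hz.1.le.trans h, hz.2.le.trans h⟩

private theorem isCompact_hc (tv κ : ℝ) : IsCompact (hc tv κ) := by
  refine (isCompact_closedBall (tv : ℂ) κ).of_isClosed_subset ?_ fun t ht => ?_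
  · refine IsClosed.inter ?_ ?_
    · exact isClosed_eq (by fun_prop) continuous_const
    · exact isClosed_le continuous_const Complex.continuous_im
  · rw [Metric.mem_closedBall, dist_eq_norm]
    exact ht.1.le

private theorem dist_last {w : Fin (n + 1) → ℂ} {v : Fin (n + 1) → ℝ} {r : ℝ}
    (h : dist w (xC v) < r) : ‖w (Fin.last n) - (v (Fin.last n) : ℂ)‖ < r := by
  have := dist_le_pi_dist w (xC v) (Fin.last n)
  rw [dist_eq_norm] at this
  exact this.trans_lt h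

private theorem dist_xC (x v : Fin (n + 1) → ℝ) : dist (xC x) (xC v) = dist x v := by
  rw [dist_pi_def, dist_pi_def]
  congr 2
  funext k
  rw [nndist_eq_nnnorm, nndist_eq_nnnorm]
  simp only [xC]
  rw [← Complex.ofReal_sub, Complex.nnnorm_real]

theorem exists_geoA0' {q : RTup n l} (h1 : T1 (tC q)) {tv : ℝ} {v : Fin (n + 1) → ℝ}
    (hv : xC v ∈ SingF (f0 (tC (addT q tv)))) (h3 : N3at (tC (addT q tv)))
    (hA : 0 < ((HR (addT q tv) v)⁻¹ : Matrix _ _ ℝ) (Fin.last n) (Fin.last n)) :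
    ∃ r₁ > 0, ∀ r < r₁, ∀ r' > 0, r' < r → ∀ᶠ κ in 𝓝[>] (0 : ℝ), ∃ μ,
      GeoA0 q tv κ (v (Fin.last n)) r' r μ := by
  obtain ⟨r₁, hr₁, hpair⟩ := pairA h1 hv h3 hA
  refine ⟨r₁ / 2, by positivity, fun r hr r' hr' hrr => ?_⟩
  obtain ⟨κ₀, hκ₀, hpair⟩ := hpair r' hr'
  filter_upwards [Ioo_mem_nhdsGT hκ₀] with κ hκ
  -- the pair
  have hcsq : ∀ z ∈ csqc (v (Fin.last n) : ℂ) r, ‖z - v (Fin.last n)‖ < r₁ := fun z hz =>
    (csqc_norm hz).trans_lt (by linarith)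
  have hne : ∀ t ∈ hc tv κ, t ≠ (tv : ℂ) := by
    rintro t ht rfl
    have := ht.1
    rw [sub_self, norm_zero] at this
    exact hκ.1.ne this
  -- signs
  have hsign : ∀ t ∈ hc tv κ, ∀ x ∈ CritF (f0 (addT (tC q) t)),
      x (Fin.last n) ∈ csqc (v (Fin.last n) : ℂ) r → dg (v (Fin.last n)) (x (Fin.last n)) ≠ 0 := by
    intro t ht x hx hxr
    obtain ⟨w1, w2, hP, hp1, hp2, -, -⟩ := hpair t (hne t ht) (by rw [ht.1]; exact hκ.2) ht.2
    have e1 : ∀ w : Fin (n + 1) → ℂ, (w (Fin.last n) - v (Fin.last n)).im -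
        (w (Fin.last n) - v (Fin.last n)).re = dg (v (Fin.last n)) (w (Fin.last n)) := by
      intro w
      simp [dg]
    rw [e1] at hp1 hp2
    rcases hP.only x hx (hcsq _ hxr) with rfl | rfl
    · exact hp1.ne'
    · exact hp2.ne
  -- compactness
  have hKc : IsCompact ((fun t : ℂ => addT (tC q) t) '' hc tv κ) :=
    (isCompact_hc tv κ).image (S5.continuous_addTC (tC q))
  obtain ⟨C, hC⟩ := crit_bounded hKc (by
    rintro _ ⟨t, -, rfl⟩
    exact S5.T1_addT h1 t) zero_lt_one (|v (Fin.last n)| + r₁) 0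
  let S : Set (ℂ × (Fin (n + 1) → ℂ)) := {p | p.1 ∈ hc tv κ ∧ p.2 ∈ CritF (f0 (addT (tC q) p.1)) ∧
    p.2 (Fin.last n) ∈ csqc (v (Fin.last n) : ℂ) r}
  have hScl : IsClosed S := by
    refine IsClosed.inter ((isCompact_hc tv κ).isClosed.preimage continuous_fst)
      (IsClosed.inter ?_ ?_)
    · have := (isClosed_critF (n := n) (l := l) 1).preimage
        (f := fun p : ℂ × (Fin (n + 1) → ℂ) => ((0 : ℝ), addT (tC q) p.1, p.2)) (by
          have := S5.continuous_addTC (tC q)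
          fun_prop)
      have h2 : (fun p : ℂ × (Fin (n + 1) → ℂ) => ((0 : ℝ), addT (tC q) p.1, p.2)) ⁻¹'
          {r : ℝ × Tup n l × (Fin (n + 1) → ℂ) | r.2.2 ∈ CritF (fpol 1 r.1 r.2.1)} =
          {p | p.2 ∈ CritF (f0 (addT (tC q) p.1))} := by
        ext p
        show p.2 ∈ CritF (fpol 1 0 (addT (tC q) p.1)) ↔ _
        rw [fpol_zero]
        rfl
      rwa [h2] at this
    · exact (isClosed_csqc (v (Fin.last n) : ℂ) r).preimage
        (f := fun p : ℂ × (Fin (n + 1) → ℂ) => p.2 (Fin.last n)) (by fun_prop)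
  have hSK : IsCompact S := by
    refine ((isCompact_hc tv κ).prod (isCompact_closedBall (0 : Fin (n + 1) → ℂ) C)).of_isClosed_subset
      hScl ?_
    rintro ⟨t, x⟩ ⟨ht, hx, hxr⟩
    refine ⟨ht, ?_⟩
    have h4 := hC _ ⟨t, ht, rfl⟩ 0 le_rfl le_rfl x (by rw [fpol_zero]; exact hx) (by
      have h5 := hcsq _ hxr
      have h6 := norm_sub_norm_le (x (Fin.last n)) (v (Fin.last n) : ℂ)
      rw [Complex.norm_real, Real.norm_eq_abs] at h6
      linarith)
    simpa using h4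
  -- the margin
  obtain ⟨μ, hμ, hmar⟩ : ∃ μ > 0, ∀ t ∈ hc tv κ, ∀ x ∈ CritF (f0 (addT (tC q) t)),
      x (Fin.last n) ∈ csqc (v (Fin.last n) : ℂ) r → μ < |dg (v (Fin.last n)) (x (Fin.last n))| := by
    rcases S.eq_empty_or_nonempty with hS | hS
    · refine ⟨1, one_pos, fun t ht x hx hxr => ?_⟩
      have : (t, x) ∈ S := ⟨ht, hx, hxr⟩
      rw [hS] at this
      exact absurd this (Set.notMem_empty _)
    · obtain ⟨p, hp, hmin⟩ := hSK.exists_isMinOn hS
        (f := fun p : ℂ × (Fin (n + 1) → ℂ) => |dg (v (Fin.last n)) (p.2 (Fin.last n))|) (by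
          unfold dg
          fun_prop)
      have hp0 : 0 < |dg (v (Fin.last n)) (p.2 (Fin.last n))| :=
        abs_pos.mpr (hsign p.1 hp.1 p.2 hp.2.1 hp.2.2)
      refine ⟨|dg (v (Fin.last n)) (p.2 (Fin.last n))| / 2, by positivity,
        fun t ht x hx hxr => ?_⟩
      have h4 : |dg (v (Fin.last n)) (p.2 (Fin.last n))| ≤
          |dg (v (Fin.last n)) (x (Fin.last n))| := hmin (show (t, x) ∈ S from ⟨ht, hx, hxr⟩)
      linarith
  refine ⟨μ, hμ, ?_, ?_⟩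
  · rintro t ht _ ⟨x, hx, rfl⟩ hxr
    have h4 := hmar t ht x hx hxr
    rcases lt_abs.mp h4 with h5 | h5
    · exact Or.inl h5
    · exact Or.inr (by simp only at h5 ⊢; linarith)
  · -- after the event
    have ht : ((tv + κ : ℝ) : ℂ) ∈ hc tv κ := by
      refine ⟨?_, by simp⟩
      have : ((tv + κ : ℝ) : ℂ) - tv = (κ : ℂ) := by push_cast; ring
      rw [this, Complex.norm_real, Real.norm_of_nonneg hκ.1.le]
    obtain ⟨w1, w2, hP, hp1, hp2, -, hp4⟩ := hpair _ (hne _ ht) (by rw [ht.1]; exact hκ.2) ht.2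
    obtain ⟨him, hconj⟩ := hp4 (by simp) (by simpa using hκ.1)
    have e1 : ∀ w : Fin (n + 1) → ℂ, (w (Fin.last n) - v (Fin.last n)).im -
        (w (Fin.last n) - v (Fin.last n)).re = dg (v (Fin.last n)) (w (Fin.last n)) := by
      intro w
      simp [dg]
    rw [e1] at hp1 hp2
    have hq1 : w1 (Fin.last n) ∈ sqc (v (Fin.last n) : ℂ) r' := sqc_of_norm (dist_last hP.near1)
    have hq2 : w2 (Fin.last n) ∈ sqc (v (Fin.last n) : ℂ) r' := sqc_of_norm (dist_last hP.near2)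
    have hm1 := hmar _ ht w1 hP.mem1 (sqc_subset_csqc hrr.le hq1)
    have hm2 := hmar _ ht w2 hP.mem2 (sqc_subset_csqc hrr.le hq2)
    rw [abs_of_pos hp1] at hm1
    rw [abs_of_neg hp2] at hm2
    rw [Lab.tC_addT]
    exact ⟨w1, w2, hP.mem1, hP.mem2, hP.nd1, hP.nd2, him, hq1, hconj, hm1, by linarith,
      fun x hx hxr => hP.only x hx (hcsq _ hxr)⟩

theorem exists_geoB0' {q : RTup n l} (h1 : T1 (tC q)) {tv : ℝ} {v : Fin (n + 1) → ℝ}
    (hv : xC v ∈ SingF (f0 (tC (addT q tv)))) (h3 : N3at (tC (addT q tv)))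
    (hB : NegDef (HR (addT q tv) v)) {N : Set (Fin (n + 1) → ℝ)} (hN : N ∈ 𝓝 v) :
    ∃ r₁ > 0, ∀ r < r₁, ∀ r' > 0, r' < r → ∀ᶠ κ in 𝓝[>] (0 : ℝ),
      GeoB0 q tv κ (v (Fin.last n)) r' r N := by
  obtain ⟨r₁, hr₁, hpair⟩ := pairB h1 hv h3 hB
  obtain ⟨δ, hδ, hball⟩ := Metric.mem_nhds_iff.mp hN
  refine ⟨r₁ / 2, by positivity, fun r hr r' hr' hrr => ?_⟩
  obtain ⟨κ₀, hκ₀, -, hpair⟩ := hpair (min r' δ) (lt_min hr' hδ)
  filter_upwards [Ioo_mem_nhdsGT hκ₀] with κ hκ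
  obtain ⟨x1, x2, hP, hl2, hl1⟩ := hpair (tv + κ) (by linarith [hκ.1]) (by linarith [hκ.2])
  have hcsq : ∀ z ∈ csqc (v (Fin.last n) : ℂ) r, ‖z - v (Fin.last n)‖ < r₁ := fun z hz =>
    (csqc_norm hz).trans_lt (by linarith)
  refine ⟨x1, x2, ?_⟩
  rw [Lab.tC_addT]
  refine ⟨hP.mem1, hP.mem2, hP.nd1, hP.nd2, hl2, hl1, ?_, ?_, ?_, ?_,
    fun x hx hxr => hP.only x hx (hcsq _ hxr)⟩
  · exact sqc_of_norm (dist_last (hP.near1.trans_le (min_le_left _ _)))
  · exact sqc_of_norm (dist_last (hP.near2.trans_le (min_le_left _ _)))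
  · exact hball (by
      rw [Metric.mem_ball, ← dist_xC]
      exact hP.near1.trans_le (min_le_right _ _))
  · exact hball (by
      rw [Metric.mem_ball, ← dist_xC]
      exact hP.near2.trans_le (min_le_right _ _))

end Pool.Agent.QC
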