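import Pool.Agent.QC.Asm.Cvx
import Pool.Agent.QC.Asm.Jump

/-!
# MP_7c50a9_lc: transport of labels above an event
-/

set_option autoImplicit false

open Set Metric Filter Topology

namespace Pool.Agent.QC

lemma cont_mk' {Q : Type*} [TopologicalSpace Q] (q : Q) (S : Set ℂ) :
    ContinuousOn (fun z : ℂ => (q, z)) S := by fun_prop

namespace PlaneSys

variable {F : Type*} [AddCommGroup F] [Module ℂ F] (C : PlaneSys F)

/-- In a convex open set which contains the vertical segment above `a` up to the height `ρ'`, a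
thin rectangle is contained. -/
lemma exists_rect {Z : Set ℂ} (hZo : IsOpen Z) (hZc : Convex ℝ Z) {a : ℂ} {ρ : ℝ}
    (ha : a ∈ Z) (htop : (⟨a.re, ρ⟩ : ℂ) ∈ Z) : ∃ δ > 0, ball a δ ⊆ Z ∧
      ∀ z : ℂ, |z.re - a.re| < δ → a.im < z.im → z.im < ρ + δ → z ∈ Z := by
  obtain ⟨r1, hr1, h1⟩ := Metric.isOpen_iff.1 hZo a ha
  obtain ⟨r2, hr2, h2⟩ := Metric.isOpen_iff.1 hZo _ htop
  set δ := min r1 r2 / 2 with hδ
  have hδp : 0 < δ := by
    have := lt_min hr1 hr2
    positivity
  have hd1 : 2 * δ ≤ r1 := by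
    have := min_le_left r1 r2
    rw [hδ]; linarith
  have hd2 : 2 * δ ≤ r2 := by
    have := min_le_right r1 r2
    rw [hδ]; linarith
  refine ⟨δ, hδp, (ball_subset_ball (by linarith)).trans h1, ?_⟩
  intro z hz1 hz2 hz3
  by_cases hz4 : z.im ≤ ρ
  · -- convex combination of `(x, a.im)` and `(x, ρ)`
    have m1 : (⟨z.re, a.im⟩ : ℂ) ∈ Z := by
      refine h1 ?_
      rw [mem_ball, Complex.dist_eq]
      have e : ‖(⟨z.re, a.im⟩ : ℂ) - a‖ ≤ |z.re - a.re| + 0 := by
        refine (Complex.norm_le_abs_re_add_abs_im _).trans ?_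
        simp
      linarith
    have m2 : (⟨z.re, ρ⟩ : ℂ) ∈ Z := by
      refine h2 ?_
      rw [mem_ball, Complex.dist_eq]
      have e : ‖(⟨z.re, ρ⟩ : ℂ) - (⟨a.re, ρ⟩ : ℂ)‖ ≤ |z.re - a.re| + 0 := by
        refine (Complex.norm_le_abs_re_add_abs_im _).trans ?_
        simp
      linarith
    have hρ : a.im < ρ := lt_of_lt_of_le hz2 hz4
    have hd : 0 < ρ - a.im := by linarith
    have key := hZc m1 m2 (a := (ρ - z.im) / (ρ - a.im)) (b := (z.im - a.im) / (ρ - a.im))
      (by apply div_nonneg <;> linarith) (by apply div_nonneg <;> linarith)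
      (by field_simp; ring)
    have e : ((ρ - z.im) / (ρ - a.im)) • (⟨z.re, a.im⟩ : ℂ) +
        ((z.im - a.im) / (ρ - a.im)) • (⟨z.re, ρ⟩ : ℂ) = z := by
      apply Complex.ext
      · simp only [Complex.real_smul, Complex.add_re, Complex.mul_re, Complex.ofReal_re,
          Complex.ofReal_im, zero_mul, sub_zero]
        field_simp
        ring
      · simp only [Complex.real_smul, Complex.add_im, Complex.mul_im, Complex.ofReal_re,
          Complex.ofReal_im, zero_mul, add_zero]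
        field_simp
        ring
    rwa [e] at key
  · push Not at hz4
    refine h2 ?_
    rw [mem_ball, Complex.dist_eq]
    have e := Complex.norm_le_abs_re_add_abs_im (z - (⟨a.re, ρ⟩ : ℂ))
    rw [Complex.sub_re, Complex.sub_im] at e
    simp only at e
    have e2 : |z.im - ρ| < δ := by
      rw [abs_lt]
      constructor <;> linarith
    linarith

/-- The top-down condition at `a`, seen inside a convex neighbourhood `Z` which contains the
vertical segment above `a` up to the height `ρ`. -/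
theorem pUp_iff {lft : Bool} {J g : ℂ → F} {a : ℂ} {ρ : ℝ} (_hρ : 0 ≤ ρ)
    (hg : C.Sol (sq C.R1 ∩ up ρ) g) (hgJ : EqOn g J (C.ann ∩ up ρ))
    {Z : Set ℂ} (hZo : IsOpen Z) (hZc : Convex ℝ Z) (hZR : Z ⊆ sq C.R1) (hSZ : Z ∩ C.S = {a})
    (hρR : ρ ≤ C.R0) (htop : (⟨a.re, ρ⟩ : ℂ) ∈ Z) (haρ : a.im ≤ ρ) :
    C.PUp lft J a ↔ ∃ k, C.Sol Z k ∧ EqOn k g (Z ∩ up ρ) := by
  have haZS : a ∈ Z ∩ C.S := by rw [hSZ]; rfl
  have haZ : a ∈ Z := haZS.1
  obtain ⟨δ, hδ, hbδ, hrect⟩ := exists_rect hZo hZc haZ htop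
  have hR0 := C.hR0
  have hR := C.hR
  have osq : IsOpen (sq C.R1 ∩ up ρ) := (isOpen_sq _).inter (isOpen_up _)
  have hgu : C.Sol (sq C.R1 ∩ up ρ) g := hg
  have oZu : IsOpen (Z ∩ up ρ) := hZo.inter (isOpen_up _)
  have cZu : Convex ℝ (Z ∩ up ρ) := hZc.inter (convex_up _)
  -- one point in the thin strip above `ρ` and in `Z`
  have haR := hZR haZ
  have haR1 := abs_lt.1 haR.1
  constructor
  · intro hP
    obtain ⟨ε₀, hε₀, hP⟩ := PUp.small C hP
    set ε := min ε₀ δ with hε
    have hεp : 0 < ε := lt_min hε₀ hδ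
    have hεδ : ε ≤ δ := min_le_right _ _
    obtain ⟨g', hg'1, hg'2⟩ := hP ε hεp (min_le_left _ _)
    have hbR : ball a ε ⊆ C.regUp lft a ε := fun z hz =>
      ⟨hZR (hbδ (ball_subset_ball hεδ hz)), Or.inr hz⟩
    -- `g'` on the part of the strip in `Z`
    set T : Set ℂ := strip lft a ε with hT
    have oT : IsOpen T := isOpen_strip lft a ε
    have cT : Convex ℝ T := convex_strip lft a ε
    -- agreement of `g'` and `g` on the strip above `ρ`
    obtain ⟨x, hx1, hx2, hx3, hx4⟩ : ∃ x, -C.R1 < x ∧ x < C.R1 ∧ |x - a.re| < ε ∧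
        ∀ y, a.im < y → (⟨x, y⟩ : ℂ) ∈ T := by
      rcases lft with _ | _
      · obtain ⟨x, ha1, ha2⟩ := exists_between (lt_min (by linarith : a.re < a.re + ε) haR1.2)
        have ha3 : x < a.re + ε := lt_of_lt_of_le ha2 (min_le_left _ _)
        have ha4 : x < C.R1 := lt_of_lt_of_le ha2 (min_le_right _ _)
        exact ⟨x, by linarith, ha4, by rw [abs_lt]; constructor <;> linarith,
          fun y hy => ⟨ha1, ha3, hy⟩⟩
      · obtain ⟨x, ha1, ha2⟩ := exists_between (max_lt (by linarith : a.re - ε < a.re) haR1.1)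
        have ha3 : a.re - ε < x := lt_of_le_of_lt (le_max_left _ _) ha1
        have ha4 : -C.R1 < x := lt_of_le_of_lt (le_max_right _ _) ha1
        exact ⟨x, ha4, by linarith, by rw [abs_lt]; constructor <;> linarith,
          fun y hy => ⟨ha3, ha2, hy⟩⟩
    have hTre : ∀ z ∈ T, |z.re - a.re| < ε := by
      intro z hz
      rcases lft with _ | _
      · have h1 := hz.1
        have h2 := hz.2.1
        rw [abs_lt]; constructor <;> linarith
      · have h1 := hz.1
        have h2 := hz.2.1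
        rw [abs_lt]; constructor <;> linarith
    have e1 : EqOn g' g (sq C.R1 ∩ up ρ ∩ T) := by
      have o1 : IsOpen (sq C.R1 ∩ up ρ ∩ T) := osq.inter oT
      refine C.uniqc o1 (((convex_sq _).inter (convex_up _)).inter cT)
        (C.mono (V := C.regUp lft a ε) o1 (fun z hz => ⟨hz.1.1, Or.inl hz.2⟩) hg'1)
        (C.mono o1 inter_subset_left hgu) (V := sq C.R1 ∩ up ρ ∩ T ∩ up C.R0) (o1.inter (isOpen_up _)) inter_subset_left ?_ ?_
      · obtain ⟨y, hy1, hy2⟩ := exists_between hR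
        refine ⟨⟨x, y⟩, ⟨⟨⟨abs_lt.2 ⟨hx1, hx2⟩, abs_lt.2 ⟨by simp only; linarith, hy2⟩⟩, ?_⟩,
          hx4 y (by linarith)⟩, hy1⟩
        change ρ < y
        linarith
      · intro z hz
        rw [hg'2 ⟨⟨hz.1.1.1, Or.inl hz.1.2⟩, hz.2⟩]
        refine (hgJ ⟨⟨hz.1.1.1, fun h3 => ?_⟩, hz.1.1.2⟩).symm
        have h4 := (abs_le.mp h3.2).2
        have h5 : C.R0 < z.im := hz.2
        linarith
    -- local extension of `g'` to `Z`: first the part above `a`
    have oU : IsOpen (Z ∩ up a.im) := hZo.inter (isOpen_up _)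
    have cU : Convex ℝ (Z ∩ up a.im) := hZc.inter (convex_up _)
    have hdU : Disjoint (Z ∩ up a.im) C.S := Set.disjoint_left.2 fun z hz hzS => by
      have : z ∈ Z ∩ C.S := ⟨hz.1, hzS⟩
      rw [hSZ] at this
      have h1 : z = a := this
      have h2 : a.im < z.im := hz.2
      rw [h1] at h2
      exact lt_irrefl _ h2
    have oL : IsOpen (Z ∩ dn a.im) := hZo.inter (isOpen_dn _)
    have cL : Convex ℝ (Z ∩ dn a.im) := hZc.inter (convex_dn _)
    have hdL : Disjoint (Z ∩ dn a.im) C.S := Set.disjoint_left.2 fun z hz hzS => by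
      have : z ∈ Z ∩ C.S := ⟨hz.1, hzS⟩
      rw [hSZ] at this
      have h1 : z = a := this
      have h2 : z.im < a.im := hz.2
      rw [h1] at h2
      exact lt_irrefl _ h2
    have hbZ : ball a ε ⊆ Z := (ball_subset_ball hεδ).trans hbδ
    have hneu : (ball a ε ∩ up a.im).Nonempty := half_up_nonempty isOpen_ball (mem_ball_self hεp)
    have hned : (ball a ε ∩ dn a.im).Nonempty := half_dn_nonempty isOpen_ball (mem_ball_self hεp)
    obtain ⟨k1, hk1, hk1e⟩ := C.ext (U := Z ∩ up a.im) (V := ball a ε ∩ up a.im) (g := g') oU cU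
      (inter_subset_left.trans hZR) hdU (isOpen_ball.inter (isOpen_up _))
      ((convex_ball _ _).inter (convex_up _)) (inter_subset_inter_left _ hbZ) hneu
      (C.mono (isOpen_ball.inter (isOpen_up _)) (inter_subset_left.trans hbR) hg'1)
    obtain ⟨k2, hk2, hk2e⟩ := C.ext (U := Z ∩ dn a.im) (V := ball a ε ∩ dn a.im) (g := g') oL cL
      (inter_subset_left.trans hZR) hdL (isOpen_ball.inter (isOpen_dn _))
      ((convex_ball _ _).inter (convex_dn _)) (inter_subset_inter_left _ hbZ) hned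
      (C.mono (isOpen_ball.inter (isOpen_dn _)) (inter_subset_left.trans hbR) hg'1)
    have hfull0 : C.Full Z a.im k1 k2 a.re :=
      ⟨ε, hεp, hbZ, g', C.mono isOpen_ball hbR hg'1, hk1e.symm, hk2e.symm⟩
    have hfull : ∀ z ∈ Z, z.im = a.im → C.Full Z a.im k1 k2 z.re := by
      intro z hz hzi
      -- the interval between z.re and a.re, slightly enlarged
      obtain ⟨r, hr, hrZ⟩ := Metric.isOpen_iff.1 hZo z hz
      have hz' : (⟨z.re, a.im⟩ : ℂ) = z := Complex.ext rfl hzi.symm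
      have hmem : ∀ x ∈ Ioo (min z.re a.re - min r ε) (max z.re a.re + min r ε),
          (⟨x, a.im⟩ : ℂ) ∈ Z := by
        intro x hx
        have hre : 0 < min r ε := lt_min hr hεp
        by_cases c1 : |x - z.re| < r
        · refine hrZ ?_
          rw [mem_ball, Complex.dist_eq]
          refine (Complex.norm_le_abs_re_add_abs_im _).trans_lt ?_
          simp only [Complex.sub_re, Complex.sub_im]
          rw [hzi, sub_self, abs_zero, add_zero]
          exact c1
        by_cases c2 : |x - a.re| < ε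
        · refine hbZ ?_
          rw [mem_ball, Complex.dist_eq]
          refine (Complex.norm_le_abs_re_add_abs_im _).trans_lt ?_
          simp only [Complex.sub_re, Complex.sub_im]
          rw [sub_self, abs_zero, add_zero]
          exact c2
        push Not at c1 c2
        have m1 := min_le_left r ε
        have m2 := min_le_right r ε
        have hconv := hZc.segment_subset hz haZ
        refine hconv ?_
        rw [← hz', show a = (⟨a.re, a.im⟩ : ℂ) from rfl]
        rcases le_total z.re a.re with h | h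
        · rw [min_eq_left h, max_eq_right h] at hx
          have b1 : z.re ≤ x := by
            by_contra hlt
            push Not at hlt
            rw [abs_of_neg (by linarith)] at c1
            linarith [hx.1]
          have b2 : x ≤ a.re := by
            by_contra hlt
            push Not at hlt
            rw [abs_of_pos (by linarith)] at c2
            linarith [hx.2]
          rcases eq_or_lt_of_le h with he | hlt
          · have : x = z.re := by linarith
            rw [this]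
            exact left_mem_segment _ _ _
          · refine ⟨(a.re - x) / (a.re - z.re), (x - z.re) / (a.re - z.re),
              div_nonneg (by linarith) (by linarith), div_nonneg (by linarith) (by linarith), ?_, ?_⟩
            · have : a.re - z.re ≠ 0 := by linarith
              field_simp
              ring
            · have : a.re - z.re ≠ 0 := by linarith
              apply Complex.ext
              · simp only [Complex.real_smul, Complex.add_re, Complex.mul_re, Complex.ofReal_re,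
                  Complex.ofReal_im, zero_mul, sub_zero]
                field_simp
                ring
              · simp only [Complex.real_smul, Complex.add_im, Complex.mul_im, Complex.ofReal_re,
                  Complex.ofReal_im, zero_mul, add_zero]
                field_simp
                ring
        · rw [min_eq_right h, max_eq_left h] at hx
          have b1 : a.re ≤ x := by
            by_contra hlt
            push Not at hlt
            rw [abs_of_neg (by linarith)] at c2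
            linarith [hx.1]
          have b2 : x ≤ z.re := by
            by_contra hlt
            push Not at hlt
            rw [abs_of_pos (by linarith)] at c1
            linarith [hx.2]
          rcases eq_or_lt_of_le h with he | hlt
          · have : x = z.re := by linarith
            rw [this]
            exact left_mem_segment _ _ _
          · refine ⟨(x - a.re) / (z.re - a.re), (z.re - x) / (z.re - a.re),
              div_nonneg (by linarith) (by linarith), div_nonneg (by linarith) (by linarith), ?_, ?_⟩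
            · have : z.re - a.re ≠ 0 := by linarith
              field_simp
              ring
            · have : z.re - a.re ≠ 0 := by linarith
              apply Complex.ext
              · simp only [Complex.real_smul, Complex.add_re, Complex.mul_re, Complex.ofReal_re,
                  Complex.ofReal_im, zero_mul, sub_zero]
                field_simp
                ring
              · simp only [Complex.real_smul, Complex.add_im, Complex.mul_im, Complex.ofReal_re,
                  Complex.ofReal_im, zero_mul, add_zero]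
                field_simp
                ring
      have hre : 0 < min r ε := lt_min hr hεp
      refine C.full_of_full (a := min z.re a.re - min r ε) (b := max z.re a.re + min r ε)
        (x₀ := a.re) hk2 ?_ ⟨by linarith [min_le_right z.re a.re],
          by linarith [le_max_right z.re a.re]⟩ hfull0 z.re
          ⟨by linarith [min_le_left z.re a.re], by linarith [le_max_left z.re a.re]⟩
      intro x hx
      by_cases hxa : x = a.re
      · subst hxa
        exact ⟨ε, hεp, hbZ, g', C.mono isOpen_ball hbR hg'1, hk1e.symm⟩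
      · refine C.local_regular hZo hZR hk1 (hmem x hx) fun hxS => hxa ?_
        have : (⟨x, a.im⟩ : ℂ) ∈ Z ∩ C.S := ⟨hmem x hx, hxS⟩
        rw [hSZ] at this
        have h3 : (⟨x, a.im⟩ : ℂ) = a := this
        exact congrArg Complex.re h3
    obtain ⟨k, hk, hku, hkd⟩ := C.glue_line hZo hk1 hk2 (fun z hz hzh => by
      have h1 : z = (⟨z.re, a.im⟩ : ℂ) := Complex.ext rfl hzh
      obtain ⟨ε', hε', h2⟩ := hfull z hz hzh
      rw [← h1] at h2
      exact ⟨ε', hε', h2⟩)
    refine ⟨k, hk, ?_⟩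
    -- `k = g'` on the strip inside `Z`
    have e2 : EqOn k g' (Z ∩ up a.im ∩ T) := by
      have o2 : IsOpen (Z ∩ up a.im ∩ T) := oU.inter oT
      refine C.uniqc o2 (cU.inter cT) (C.mono o2 (fun z hz => hz.1.1) hk)
        (C.mono (V := C.regUp lft a ε) o2 (fun z hz => ⟨hZR hz.1.1, Or.inl hz.2⟩) hg'1)
        (V := ball a ε ∩ up a.im ∩ T) ((isOpen_ball.inter (isOpen_up _)).inter oT)
        (fun z hz => ⟨⟨hbZ hz.1.1, hz.1.2⟩, hz.2⟩) ?_ ?_
      · obtain ⟨s, hs1, hs2⟩ : ∃ s : ℝ, |s| = ε / 4 ∧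
            a + ((s : ℝ) + (ε / 4 : ℝ) * Complex.I) ∈ T := by
          rcases lft with _ | _
          · refine ⟨ε / 4, abs_of_pos (by linarith), ?_⟩
            simp only [hT, strip, mem_ofPred_eq, Complex.add_im, Complex.add_re, Complex.mul_im,
              Complex.mul_re, Complex.ofReal_re, Complex.I_im, Complex.ofReal_im, Complex.I_re]
            refine ⟨by linarith, by linarith, by linarith⟩
          · refine ⟨-(ε / 4), by rw [abs_neg, abs_of_pos (by linarith)], ?_⟩
            simp only [hT, strip, mem_ofPred_eq, Complex.add_im, Complex.add_re, Complex.mul_im,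
              Complex.mul_re, Complex.ofReal_re, Complex.I_im, Complex.ofReal_im, Complex.I_re]
            refine ⟨by linarith, by linarith, by linarith⟩
        refine ⟨a + ((s : ℝ) + (ε / 4 : ℝ) * Complex.I), ⟨⟨?_, strip_up hs2⟩, hs2⟩⟩
        rw [mem_ball, dist_eq_norm, add_sub_cancel_left]
        refine lt_of_le_of_lt (norm_add_le _ _) ?_
        rw [norm_mul, Complex.norm_real, Complex.norm_real, Complex.norm_I, mul_one,
          Real.norm_of_nonneg (by linarith : (0 : ℝ) ≤ ε / 4), Real.norm_eq_abs, hs1]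
        linarith
      · intro z hz
        rw [hku ⟨hbZ hz.1.1, hz.1.2⟩, hk1e ⟨hz.1.1, hz.1.2⟩]
    refine C.uniqc oZu cZu (C.mono oZu inter_subset_left hk)
      (C.mono (V := sq C.R1 ∩ up ρ) oZu (inter_subset_inter_left _ hZR) hgu)
      (V := Z ∩ up ρ ∩ T) (oZu.inter oT) inter_subset_left ?_ ?_
    · refine ⟨⟨x, ρ + δ / 2⟩, ⟨hrect _ (lt_of_lt_of_le hx3 hεδ) ?_ ?_, ?_⟩, hx4 _ ?_⟩
      · simp only; linarith
      · simp only; linarith
      · change ρ < ρ + δ / 2
        linarith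
      · linarith
    · intro z hz
      have hzu : z ∈ up a.im := lt_of_le_of_lt haρ hz.1.2
      rw [e2 ⟨⟨hz.1.1, hzu⟩, hz.2⟩, e1 ⟨⟨hZR hz.1.1, hz.1.2⟩, hz.2⟩]
  · rintro ⟨k, hk, hkg⟩
    set g' : ℂ → F := fun z => if ρ < z.im then g z else k z with hg'
    have oreg := C.isOpen_regUp lft a δ
    refine ⟨δ, hδ, g', ?_, ?_⟩
    · refine C.local' oreg fun z hz => ?_
      by_cases hzi : ρ < z.im
      · have o1 : IsOpen (C.regUp lft a δ ∩ up ρ) := oreg.inter (isOpen_up _)
        refine ⟨C.regUp lft a δ ∩ up ρ, o1, ⟨hz, hzi⟩, inter_subset_left, ?_⟩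
        refine C.congr o1 (C.mono (V := sq C.R1 ∩ up ρ) o1 (fun x hx => ⟨hx.1.1, hx.2⟩) hgu) ?_
        intro x hx
        have : ρ < x.im := hx.2
        simp only [hg', if_pos this]
      · have o1 : IsOpen (C.regUp lft a δ ∩ dn (ρ + δ)) := oreg.inter (isOpen_dn _)
        have hsubZ : C.regUp lft a δ ∩ dn (ρ + δ) ⊆ Z := by
          rintro x ⟨⟨hx1, hx2⟩, hx3⟩
          rcases hx2 with hx2 | hx2
          · refine hrect x ?_ (strip_up hx2) hx3
            rcases lft with _ | _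
            · have h1 := hx2.1
              have h2 := hx2.2.1
              rw [abs_lt]; constructor <;> linarith
            · have h1 := hx2.1
              have h2 := hx2.2.1
              rw [abs_lt]; constructor <;> linarith
          · exact hbδ hx2
        refine ⟨C.regUp lft a δ ∩ dn (ρ + δ), o1, ⟨hz, ?_⟩, inter_subset_left, ?_⟩
        · change z.im < ρ + δ
          linarith
        · refine C.congr o1 (C.mono o1 hsubZ hk) ?_
          intro x hx
          by_cases hxi : ρ < x.im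
          · simp only [hg', if_pos hxi]
            exact hkg ⟨hsubZ hx, hxi⟩
          · simp only [hg', if_neg hxi]
    · intro z hz
      have hzR : C.R0 < z.im := hz.2
      have hzρ : ρ < z.im := by linarith
      simp only [hg', if_pos hzρ]
      exact hgJ ⟨C.regUp_top_ann hz, hzρ⟩

/-- The same from below. -/
theorem pDn_iff {lft : Bool} {J g : ℂ → F} {a : ℂ} {ρ : ℝ} (hρ : 0 ≤ ρ)
    (hg : C.Sol (sq C.R1 ∩ dn (-ρ)) g) (hgJ : EqOn g J (C.ann ∩ dn (-ρ)))
    {Z : Set ℂ} (hZo : IsOpen Z) (hZc : Convex ℝ Z) (hZR : Z ⊆ sq C.R1) (hSZ : Z ∩ C.S = {a})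
    (hρR : ρ ≤ C.R0) (htop : (⟨a.re, -ρ⟩ : ℂ) ∈ Z) (haρ : -ρ ≤ a.im) :
    C.PDn lft J a ↔ ∃ k, C.Sol Z k ∧ EqOn k g (Z ∩ dn (-ρ)) := by
  have hset : (fun z : ℂ => -z) ⁻¹' (sq C.flip.R1 ∩ up ρ) = sq C.R1 ∩ dn (-ρ) := by
    rw [preimage_inter, neg_preimage_up]
    congr 1
    exact neg_preimage_sq C.R1
  rw [PDn_iff]
  have key := C.flip.pUp_iff (lft := !lft) (J := fun z => J (-z)) (g := fun z => g (-z)) (a := -a)
    (ρ := ρ) hρ (by
      change C.Sol ((fun z : ℂ => -z) ⁻¹' (sq C.flip.R1 ∩ up ρ)) (fun z => g (- -z))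
      rw [hset]
      simpa using hg) (by
      intro z hz
      refine hgJ ?_
      have h1 : -z ∈ (fun z : ℂ => -z) ⁻¹' (C.flip.ann ∩ up ρ) := by
        rw [mem_preimage, neg_neg]
        exact hz
      rwa [preimage_inter, neg_preimage_up, flip_ann] at h1)
    (Z := (fun z : ℂ => -z) ⁻¹' Z) (isOpen_neg_preimage hZo) (convex_neg_preimage hZc)
    (by
      change (fun z : ℂ => -z) ⁻¹' Z ⊆ sq C.R1
      rw [← neg_preimage_sq]
      exact preimage_mono hZR)
    (by
      have h1 : (fun z : ℂ => -z) ⁻¹' Z ∩ C.flip.S = (fun z : ℂ => -z) ⁻¹' (Z ∩ C.S) := rfl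
      rw [h1, hSZ]
      ext z
      simp)
    hρR (by
      change -(⟨(-a).re, ρ⟩ : ℂ) ∈ Z
      have : -(⟨(-a).re, ρ⟩ : ℂ) = ⟨a.re, -ρ⟩ := by
        apply Complex.ext <;> simp
      rwa [this]) (by rw [Complex.neg_im]; linarith)
  rw [key]
  constructor
  · rintro ⟨k, h1, h2⟩
    refine ⟨fun z => k (-z), ?_, ?_⟩
    · have h3 : C.Sol ((fun z : ℂ => -z) ⁻¹' ((fun z : ℂ => -z) ⁻¹' Z)) (fun z => k (-z)) := h1
      simpa [← preimage_comp, Function.comp_def] using h3
    · intro z hz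
      have h3 : -z ∈ (fun z : ℂ => -z) ⁻¹' Z ∩ up ρ := by
        refine ⟨by simpa using hz.1, ?_⟩
        have h4 : z.im < -ρ := hz.2
        change ρ < (-z).im
        rw [Complex.neg_im]
        linarith
      have := h2 h3
      simpa using this
  · rintro ⟨k, h1, h2⟩
    refine ⟨fun z => k (-z), ?_, ?_⟩
    · change C.Sol ((fun z : ℂ => -z) ⁻¹' ((fun z : ℂ => -z) ⁻¹' Z)) (fun z => k (- -z))
      simpa [← preimage_comp, Function.comp_def] using h1
    · intro z hz
      refine h2 ⟨hz.1, ?_⟩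
      have h4 : ρ < z.im := hz.2
      change (-z).im < -ρ
      rw [Complex.neg_im]
      linarith

end PlaneSys

/-! ## Transport in the direction of the time -/

section LSpart

variable {Q : Type*} [TopologicalSpace Q] {F : Type*} {A : LS (Q × ℂ) F}

/-- Single valued sections near the moving point are transported. -/
theorem transport_single {γ : ℝ → Q} (hγ : ContinuousOn γ (Icc 0 1)) {Z Z' H : Set ℂ}
    (hZ'c : Convex ℝ Z') (hZ'k : IsCompact Z') (hZ'Z : Z' ⊆ Z)
    (hreg : ∀ s ∈ Icc (0 : ℝ) 1, ∀ z ∈ Z \ interior Z', (γ s, z) ∈ A.X) {w a : ℂ}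
    (hw : w ∈ interior Z') (ha : a ∈ interior Z') (hXa : ∀ z ∈ Z, z ≠ a → (γ 1, z) ∈ A.X)
    {Y : ℂ × ℝ → F} (hY : A.Par (fun p : ℂ × ℝ => (γ p.2, p.1)) (H ×ˢ Icc 0 1) Y)
    (hH : H ⊆ Z \ interior Z') {k₀ : ℂ → F}
    (hk : A.Par (fun z => (γ 0, z)) (Z \ {w}) k₀) (he : EqOn k₀ (fun z => Y (z, 0)) H) :
    ∃ k, A.Par (fun z => (γ 1, z)) (Z \ {a}) k ∧ EqOn k (fun z => Y (z, 1)) H := by
  classical
  set S : Set ℂ := Z \ interior Z' with hS
  have hSw : S ⊆ Z \ {w} := fun z hz => ⟨hz.1, fun h => hz.2 (by rw [show z = w from h]; exact hw)⟩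
  have hSa : S ⊆ Z \ {a} := fun z hz => ⟨hz.1, fun h => hz.2 (by rw [show z = a from h]; exact ha)⟩
  have hcf : ContinuousOn (fun p : ℂ × ℝ => (γ p.2, p.1)) (S ×ˢ Icc 0 1) :=
    (hγ.comp continuousOn_snd (fun _ hp => hp.2)).prodMk continuousOn_fst
  have hX : MapsTo (fun p : ℂ × ℝ => (γ p.2, p.1)) (S ×ˢ Icc 0 1) A.X := fun p hp =>
    hreg p.2 hp.2 p.1 hp.1
  obtain ⟨U, hU, hU0⟩ := LS.Par.lift (A := A) (S := S) (h := fun p : ℂ × ℝ => (γ p.2, p.1))
    hcf hX (u₀ := k₀) (hk.mono hSw)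
  have hU1 : A.Par (fun z => (γ 1, z)) S (fun z => U (z, 1)) :=
    hU.comp (g := fun z : ℂ => (z, (1 : ℝ))) (by fun_prop) fun z hz => ⟨hz, zero_le_one, le_rfl⟩
  have hfr : frontier Z' ⊆ S := by
    intro z hz
    rw [hZ'k.isClosed.frontier_eq] at hz
    exact ⟨hZ'Z hz.1, hz.2⟩
  obtain ⟨u2, h2, h2e⟩ := LS.Par.extend_in (A := A) (h := fun z => (γ 1, z)) hZ'c hZ'k.isClosed
    hZ'k.isBounded ha (cont_mk' _ _) (fun z hz => hXa z (hZ'Z hz.1) hz.2) (hU1.mono hfr)
  set u : ℂ → F := fun z => if z ∈ Z' then u2 z else U (z, 1) with hu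
  have e1 : EqOn u (fun z => U (z, 1)) S := by
    intro z hz
    by_cases hz' : z ∈ Z'
    · simp only [hu, if_pos hz']
      refine h2e ?_
      rw [hZ'k.isClosed.frontier_eq]
      exact ⟨hz', hz.2⟩
    · simp only [hu, if_neg hz']
  have e2 : EqOn u u2 (Z' \ {a}) := fun z hz => by simp only [hu, if_pos hz.1]
  have hun : S ∪ (Z' \ {a}) = Z \ {a} := by
    ext z
    constructor
    · rintro (h | h)
      · exact hSa h
      · exact ⟨hZ'Z h.1, h.2⟩
    · intro h
      by_cases hz : z ∈ Z'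
      · exact Or.inr ⟨hz, h.2⟩
      · exact Or.inl ⟨h.1, fun h' => hz (interior_subset h')⟩
  refine ⟨u, ?_, ?_⟩
  · rw [← hun]
    refine LS.Par.union (cont_mk' _ _) ?_ (hU1.congr e1.symm) (h2.congr e2.symm)
      ⟨(interior Z')ᶜ, isOpen_interior.isClosed_compl, ?_⟩ ⟨Z', hZ'k.isClosed, ?_⟩
    · rw [hun]
      exact fun z hz => hXa z hz.1 hz.2
    · ext z
      constructor
      · intro h
        exact ⟨h.2, Or.inl h⟩
      · rintro ⟨h1, h | h⟩
        · exact h
        · exact ⟨hZ'Z h.1, h1⟩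
    · ext z
      constructor
      · intro h
        exact ⟨h.1, Or.inr h⟩
      · rintro ⟨h1, h | h⟩
        · exact ⟨h1, (hSa h).2⟩
        · exact h
  · intro z hz
    have hzS := hH hz
    rw [e1 hzS]
    refine LS.Par.time_unique hγ (z := z) (fun s hs => hreg s hs z hzS) hU hY hzS hz ?_ 1
      ⟨zero_le_one, le_rfl⟩
    rw [hU0 z hzS]
    exact he hz

/-- Labels: single valued near the point `w` before the event, seen from the side `P`, iff single
valued near `a` after the event. -/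
theorem label_ls {γ : ℝ → Q} (hγ : ContinuousOn γ (Icc 0 1)) {Z Z' : Set ℂ} (hZo : IsOpen Z)
    (hZc : Convex ℝ Z) (hZ'c : Convex ℝ Z') (hZ'k : IsCompact Z') (hZ'Z : Z' ⊆ Z)
    (hreg : ∀ s ∈ Icc (0 : ℝ) 1, ∀ z ∈ Z \ interior Z', (γ s, z) ∈ A.X) {w a : ℂ}
    (hw : w ∈ interior Z') (ha : a ∈ interior Z') (hXw : ∀ z ∈ Z, z ≠ w → (γ 0, z) ∈ A.X)
    (hXa : ∀ z ∈ Z, z ≠ a → (γ 1, z) ∈ A.X) {P P' : Set ℂ} (hPc : Convex ℝ P)
    (hP'P : P' ⊆ P) (hwP : w ∉ P) (hP' : Z ∩ P' ⊆ Z \ interior Z') (hne : (Z ∩ P').Nonempty)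
    (hnear : ∀ r > 0, (ball w r ∩ P).Nonempty) {Y : ℂ × ℝ → F}
    (hY : A.Par (fun p : ℂ × ℝ => (γ p.2, p.1)) ((Z ∩ P') ×ˢ Icc 0 1) Y) {Jm : ℂ → F}
    (hJ : A.Par (fun z => (γ 0, z)) (Z ∩ P) Jm) (hYJ : EqOn (fun z => Y (z, 0)) Jm (Z ∩ P')) :
    (∃ r > 0, ∃ K, A.Par (fun z => (γ 0, z)) (ball w r \ {w}) K ∧ EqOn K Jm (ball w r ∩ P)) ↔
      ∃ k, A.Par (fun z => (γ 1, z)) (Z \ {a}) k ∧ EqOn k (fun z => Y (z, 1)) (Z ∩ P') := by
  have hwZ : w ∈ Z := hZ'Z (interior_subset hw)
  have hZP : Z ∩ P ⊆ Z \ {w} := fun z hz => ⟨hz.1, fun h => hwP (by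
    rw [← show z = w from h]; exact hz.2)⟩
  have hZP' : Z ∩ P' ⊆ Z ∩ P := inter_subset_inter_right _ hP'P
  have hXw' : MapsTo (fun z => (γ 0, z)) (Z \ {w}) A.X := fun z hz => hXw z hz.1 hz.2
  -- the intermediate statement
  have hmid : (∃ r > 0, ∃ K, A.Par (fun z => (γ 0, z)) (ball w r \ {w}) K ∧
      EqOn K Jm (ball w r ∩ P)) ↔
      ∃ k, A.Par (fun z => (γ 0, z)) (Z \ {w}) k ∧ EqOn k (fun z => Y (z, 0)) (Z ∩ P') := by
    constructor
    · rintro ⟨r, hr, K, hK, hKJ⟩
      obtain ⟨r', hr', hrZ⟩ := Metric.isOpen_iff.1 hZo w hwZ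
      set ρ := min r r' with hρ
      have hρp : 0 < ρ := lt_min hr hr'
      have hbr : ball w ρ ⊆ ball w r := ball_subset_ball (min_le_left _ _)
      have hbZ : ball w ρ ⊆ Z := (ball_subset_ball (min_le_right _ _)).trans hrZ
      obtain ⟨k, hk, hkK⟩ := LS.Par.extend_out (A := A) (h := fun z => (γ 0, z)) hρp
        (hZc.starConvex hwZ) (cont_mk' _ _) hXw'
        (hK.mono (sdiff_subset_sdiff_left hbr)) hbZ
      refine ⟨k, hk, ?_⟩
      obtain ⟨x, hx1, hx2⟩ := hnear ρ hρp
      have hxw : x ≠ w := fun h => hwP (by rw [← h]; exact hx2)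
      have e1 : EqOn k Jm (Z ∩ P) :=
        LS.Par.unique (hZc.inter hPc).isPreconnected (cont_mk' _ _)
          (hXw'.mono_left hZP) (hk.mono hZP) hJ ⟨hbZ hx1, hx2⟩
          (by rw [hkK ⟨hx1, hxw⟩, hKJ ⟨hbr hx1, hx2⟩])
      exact fun z hz => by rw [e1 (hZP' hz)]; exact (hYJ hz).symm
    · rintro ⟨k, hk, hkY⟩
      obtain ⟨x, hx⟩ := hne
      have e1 : EqOn k Jm (Z ∩ P) :=
        LS.Par.unique (hZc.inter hPc).isPreconnected (cont_mk' _ _)
          (hXw'.mono_left hZP) (hk.mono hZP) hJ (hZP' hx)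
          (by rw [hkY hx]; exact hYJ hx)
      obtain ⟨r', hr', hrZ⟩ := Metric.isOpen_iff.1 hZo w hwZ
      exact ⟨r', hr', k, hk.mono (sdiff_subset_sdiff_left hrZ),
        e1.mono (inter_subset_inter_left _ hrZ)⟩
  rw [hmid]
  constructor
  · rintro ⟨k, hk, hkY⟩
    exact transport_single hγ hZ'c hZ'k hZ'Z hreg hw ha hXa hY hP' hk hkY
  · rintro ⟨k, hk, hkY⟩
    -- the reversed path
    have hm : MapsTo (fun s : ℝ => 1 - s) (Icc (0 : ℝ) 1) (Icc 0 1) := fun s hs =>
      ⟨by linarith [hs.2], by linarith [hs.1]⟩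
    have hγ' : ContinuousOn (fun s => γ (1 - s)) (Icc 0 1) := hγ.comp (by fun_prop) hm
    have hY' : A.Par (fun p : ℂ × ℝ => (γ (1 - p.2), p.1)) ((Z ∩ P') ×ˢ Icc 0 1)
        (fun p => Y (p.1, 1 - p.2)) :=
      hY.comp (g := fun p : ℂ × ℝ => (p.1, 1 - p.2)) (by fun_prop) fun p hp => ⟨hp.1, hm hp.2⟩
    obtain ⟨k', h1, h2⟩ := transport_single (γ := fun s => γ (1 - s)) hγ' hZ'c hZ'k hZ'Z
      (fun s hs z hz => hreg (1 - s) (hm hs) z hz) ha hw
      (fun z hz hne => by simpa using hXw z hz hne) hY' hP' (k₀ := k) (by simpa using hk)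
      (fun z hz => by simpa using hkY hz)
    exact ⟨k', by simpa using h1, fun z hz => by simpa using h2 hz⟩

end LSpart

section Final

variable {Q : Type*} [TopologicalSpace Q] {F : Type*} [AddCommGroup F] [Module ℂ F]
  {A : LS (Q × ℂ) F} {ι : Type} {ev : ι → F →ₗ[ℂ] ℂ}

/-- Solutions of the plane system on a neighbourhood of one singular point. -/
theorem sol_iff {q : Q} (D : PlaneData A ev q) (hA : A.Lin) (hol : HolZ A ev)
    (ev_inj : ∀ x, (∀ i, ev i x = 0) → x = 0) {Z : Set ℂ} (hZo : IsOpen Z) (hZR : Z ⊆ sq D.R1)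
    {a : ℂ} (hSZ : Z ∩ D.S = {a}) {P : Set ℂ} (haP : a ∉ P) {g g' : ℂ → F}
    (hg : EqOn g g' (Z ∩ P)) :
    (∃ k, (D.toPlane hA hol ev_inj).Sol Z k ∧ EqOn k g (Z ∩ P)) ↔
      ∃ k, A.Par (fun z => (q, z)) (Z \ {a}) k ∧ EqOn k g' (Z ∩ P) := by
  classical
  have haZS : a ∈ Z ∩ D.S := by rw [hSZ]; rfl
  have hZS : Z \ D.S = Z \ {a} := by
    ext z
    constructor
    · intro h
      exact ⟨h.1, fun h3 => h.2 (by rw [show z = a from h3]; exact haZS.2)⟩
    · intro h
      refine ⟨h.1, fun h3 => h.2 ?_⟩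
      have : z ∈ Z ∩ D.S := ⟨h.1, h3⟩
      rw [hSZ] at this
      exact this
  constructor
  · rintro ⟨k, ⟨h1, h2⟩, h3⟩
    rw [hZS] at h2
    exact ⟨k, h2, fun z hz => by rw [h3 hz, hg hz]⟩
  · rintro ⟨k, h1, h2⟩
    obtain ⟨r, hr, hrZ⟩ := Metric.isOpen_iff.1 hZo a haZS.1
    have hbS : ball a r ∩ D.S = {a} := by
      ext z
      constructor
      · intro h
        have : z ∈ Z ∩ D.S := ⟨hrZ h.1, h.2⟩
        rw [hSZ] at this
        exact this
      · intro h
        rw [show z = a from h]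
        exact ⟨mem_ball_self hr, haZS.2⟩
    obtain ⟨g₁, h3, h4⟩ := D.fill haZS.2 hr (hrZ.trans hZR) hbS
      (h1.mono (sdiff_subset_sdiff_left hrZ))
    set k' : ℂ → F := fun z => if z = a then g₁ a else k z with hk'
    have e1 : EqOn k' k (Z \ {a}) := fun z hz => by
      have : z ≠ a := hz.2
      simp only [hk', if_neg this]
    have e2 : EqOn k' g₁ (ball a r) := by
      intro z hz
      by_cases hza : z = a
      · subst hza
        simp only [hk', if_true]
      · simp only [hk', if_neg hza]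
        exact (h4 ⟨hz, hza⟩).symm
    refine ⟨k', ⟨fun i z hz => ?_, ?_⟩, fun z hz => ?_⟩
    · by_cases hza : z = a
      · subst hza
        refine (((h3 i).differentiableAt (isOpen_ball.mem_nhds (mem_ball_self hr))).congr_of_eventuallyEq
          ?_).differentiableWithinAt
        filter_upwards [isOpen_ball.mem_nhds (mem_ball_self hr)] with x hx
        rw [e2 hx]
      · have hZa : IsOpen (Z \ {a}) := hZo.sdiff isClosed_singleton
        have h5 := (hol.diffOn hZa h1 i).differentiableAt (hZa.mem_nhds ⟨hz, hza⟩)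
        refine (h5.congr_of_eventuallyEq ?_).differentiableWithinAt
        filter_upwards [hZa.mem_nhds ⟨hz, hza⟩] with x hx
        rw [e1 hx]
    · rw [hZS]
      exact h1.congr e1.symm
    · have hza : z ≠ a := fun h => haP (by rw [← h]; exact hz.2)
      rw [e1 ⟨hz.1, hza⟩, h2 hz, hg hz]

/-- The data of the transport of a label. -/
structure LabData (A : LS (Q × ℂ) F) (ev : ι → F →ₗ[ℂ] ℂ) (γ : ℝ → Q) {q : Q}
    (D : PlaneData A ev q) (v ρ : ℝ) (Z Z' : Set ℂ) (w a : ℂ) : Prop where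
  end_ : γ 1 = q
  cont : ContinuousOn γ (Icc 0 1)
  open_Z : IsOpen Z
  convex_Z : Convex ℝ Z
  convex_Z' : Convex ℝ Z'
  compact_Z' : IsCompact Z'
  sub : Z' ⊆ Z
  reg : ∀ s ∈ Icc (0 : ℝ) 1, ∀ z ∈ Z \ interior Z', (γ s, z) ∈ A.X
  w_mem : w ∈ interior Z'
  a_mem : a ∈ interior Z'
  reg_w : ∀ z ∈ Z, z ≠ w → (γ 0, z) ∈ A.X
  w_im : w.im = 0
  Z_R1 : Z ⊆ sq D.R1
  Z_S : Z ∩ D.S = {a}
  Z'_K : Z' ⊆ csqc (v : ℂ) ρ
  ρ_nonneg : 0 ≤ ρ
  ρ_le : ρ ≤ D.R0

namespace LabData

variable {γ : ℝ → Q} {q : Q} {D : PlaneData A ev q} {v ρ : ℝ} {Z Z' : Set ℂ} {w a : ℂ}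

/-- Transport of a label, from above. -/
theorem up (L : LabData A ev γ D v ρ Z Z' w a) (hA : A.Lin) (hol : HolZ A ev)
    (ev_inj : ∀ x, (∀ i, ev i x = 0) → x = 0) (htop : (⟨a.re, ρ⟩ : ℂ) ∈ Z) {lft : Bool}
    {J g : ℂ → F}
    (hg : (D.toPlane hA hol ev_inj).Sol (sq D.R1 ∩ QC.up ρ) g)
    (hgJ : EqOn g J ((D.toPlane hA hol ev_inj).ann ∩ QC.up ρ))
    {Y : ℂ × ℝ → F}
    (hY : A.Par (fun p : ℂ × ℝ => (γ p.2, p.1)) ((Z ∩ QC.up ρ) ×ˢ Icc 0 1) Y)
    (hgY : EqOn g (fun z => Y (z, 1)) (Z ∩ QC.up ρ)) {Jm : ℂ → F}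
    (hJ : A.Par (fun z => (γ 0, z)) (Z ∩ QC.up 0) Jm)
    (hYJ : EqOn (fun z => Y (z, 0)) Jm (Z ∩ QC.up ρ)) :
    (D.toPlane hA hol ev_inj).PUp lft J a ↔
      ∃ r > 0, ∃ K, A.Par (fun z => (γ 0, z)) (ball w r \ {w}) K ∧
        EqOn K Jm (ball w r ∩ QC.up 0) := by
  obtain rfl := L.end_
  have haZS : a ∈ Z ∩ D.S := by rw [L.Z_S]; rfl
  have haK := L.Z'_K (interior_subset L.a_mem)
  have haim := haK.2
  rw [Complex.ofReal_im, sub_zero] at haim
  have haim' := abs_le.1 haim
  have hXa : ∀ z ∈ Z, z ≠ a → (γ 1, z) ∈ A.X := by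
    intro z hz hza
    refine D.reg z (L.Z_R1 hz) fun h => hza ?_
    have : z ∈ Z ∩ D.S := ⟨hz, h⟩
    rw [L.Z_S] at this
    exact this
  have h1 := (D.toPlane hA hol ev_inj).pUp_iff (lft := lft) (J := J) (g := g) (a := a)
    (ρ := ρ) L.ρ_nonneg hg hgJ L.open_Z L.convex_Z L.Z_R1 L.Z_S L.ρ_le htop haim'.2
  rw [h1, sol_iff D hA hol ev_inj L.open_Z L.Z_R1 L.Z_S (P := QC.up ρ)
    (fun h => by
      have : ρ < a.im := h
      linarith) hgY]
  refine (label_ls L.cont L.open_Z L.convex_Z L.convex_Z' L.compact_Z' L.sub L.reg L.w_mem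
    L.a_mem L.reg_w hXa (P := QC.up 0) (P' := QC.up ρ) (convex_up 0) ?_ ?_ ?_ ?_ ?_ hY hJ hYJ).symm
  · intro z hz
    exact lt_of_le_of_lt L.ρ_nonneg hz
  · intro h
    have : 0 < w.im := h
    rw [L.w_im] at this
    exact lt_irrefl _ this
  · intro z hz
    refine ⟨hz.1, fun h => ?_⟩
    have h2 := (L.Z'_K (interior_subset h)).2
    rw [Complex.ofReal_im, sub_zero] at h2
    have h3 : ρ < z.im := hz.2
    linarith [(abs_le.1 h2).2]
  · have := PlaneSys.half_up_nonempty (z := (⟨a.re, ρ⟩ : ℂ)) L.open_Z htop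
    exact this
  · intro r hr
    have := PlaneSys.half_up_nonempty (z := w) isOpen_ball (mem_ball_self hr)
    rwa [L.w_im] at this

/-- Transport of a label, from below. -/
theorem dn (L : LabData A ev γ D v ρ Z Z' w a) (hA : A.Lin) (hol : HolZ A ev)
    (ev_inj : ∀ x, (∀ i, ev i x = 0) → x = 0) (htop : (⟨a.re, -ρ⟩ : ℂ) ∈ Z) {lft : Bool}
    {J g : ℂ → F}
    (hg : (D.toPlane hA hol ev_inj).Sol (sq D.R1 ∩ QC.dn (-ρ)) g)
    (hgJ : EqOn g J ((D.toPlane hA hol ev_inj).ann ∩ QC.dn (-ρ)))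
    {Y : ℂ × ℝ → F}
    (hY : A.Par (fun p : ℂ × ℝ => (γ p.2, p.1)) ((Z ∩ QC.dn (-ρ)) ×ˢ Icc 0 1) Y)
    (hgY : EqOn g (fun z => Y (z, 1)) (Z ∩ QC.dn (-ρ))) {Jm : ℂ → F}
    (hJ : A.Par (fun z => (γ 0, z)) (Z ∩ QC.dn 0) Jm)
    (hYJ : EqOn (fun z => Y (z, 0)) Jm (Z ∩ QC.dn (-ρ))) :
    (D.toPlane hA hol ev_inj).PDn lft J a ↔
      ∃ r > 0, ∃ K, A.Par (fun z => (γ 0, z)) (ball w r \ {w}) K ∧
        EqOn K Jm (ball w r ∩ QC.dn 0) := by
  obtain rfl := L.end_
  have haZS : a ∈ Z ∩ D.S := by rw [L.Z_S]; rfl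
  have haK := L.Z'_K (interior_subset L.a_mem)
  have haim := haK.2
  rw [Complex.ofReal_im, sub_zero] at haim
  have haim' := abs_le.1 haim
  have hXa : ∀ z ∈ Z, z ≠ a → (γ 1, z) ∈ A.X := by
    intro z hz hza
    refine D.reg z (L.Z_R1 hz) fun h => hza ?_
    have : z ∈ Z ∩ D.S := ⟨hz, h⟩
    rw [L.Z_S] at this
    exact this
  have h1 := (D.toPlane hA hol ev_inj).pDn_iff (lft := lft) (J := J) (g := g) (a := a)
    (ρ := ρ) L.ρ_nonneg hg hgJ L.open_Z L.convex_Z L.Z_R1 L.Z_S L.ρ_le htop haim'.1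
  rw [h1, sol_iff D hA hol ev_inj L.open_Z L.Z_R1 L.Z_S (P := QC.dn (-ρ))
    (fun h => by
      have : a.im < -ρ := h
      linarith) hgY]
  refine (label_ls L.cont L.open_Z L.convex_Z L.convex_Z' L.compact_Z' L.sub L.reg L.w_mem
    L.a_mem L.reg_w hXa (P := QC.dn 0) (P' := QC.dn (-ρ)) (convex_dn 0) ?_ ?_ ?_ ?_ ?_ hY hJ
    hYJ).symm
  · intro z hz
    have h2 : z.im < -ρ := hz
    have := L.ρ_nonneg
    change z.im < 0
    linarith
  · intro h
    have : w.im < 0 := h
    rw [L.w_im] at this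
    exact lt_irrefl _ this
  · intro z hz
    refine ⟨hz.1, fun h => ?_⟩
    have h2 := (L.Z'_K (interior_subset h)).2
    rw [Complex.ofReal_im, sub_zero] at h2
    have h3 : z.im < -ρ := hz.2
    linarith [(abs_le.1 h2).1]
  · have := PlaneSys.half_dn_nonempty (z := (⟨a.re, -ρ⟩ : ℂ)) L.open_Z htop
    exact this
  · intro r hr
    have := PlaneSys.half_dn_nonempty (z := w) isOpen_ball (mem_ball_self hr)
    rwa [L.w_im] at this

end LabData

end Final

end Pool.Agent.QC
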