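import Pool.Agent.QC.Asm.Frame
import Pool.Agent.QC.Asm.Label

/-!
# MP_7c50a9_lc: assembly, definitions: the geometry of an event

`q` is a real tuple in the frame of the event, `tv` the event time, `vn` the value of `x_n` at the
singular point.
-/

namespace Pool.Agent.QC

open MvPolynomial Filter Topology Set

variable {n l : ℕ}

/-- The closed upper half disc of levels. -/
def hd (tv κ : ℝ) : Set ℂ := {t | ‖t - tv‖ ≤ κ ∧ 0 ≤ t.im}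

/-- The upper half circle of levels. -/
def hc (tv κ : ℝ) : Set ℂ := {t | ‖t - tv‖ = κ ∧ 0 ≤ t.im}

/-- The standard parametrisation of the half circle, from `tv - κ` to `tv + κ`. -/
noncomputable def thc (tv κ : ℝ) (s : ℝ) : ℂ :=
  tv - κ * Complex.exp (-(Real.pi * s : ℝ) * Complex.I)

/-- The squares around the critical values near an event: `csqc vn r` contains the pair, the
squares around the points of `T` the other ones. -/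
structure Sqs (vn R0 r' r ρ0 ρ1 : ℝ) (T : Set ℂ) : Prop where
  r'_pos : 0 < r'
  r_lt : r' < r
  ρ_pos : 0 < ρ0
  ρ_lt : ρ0 < ρ1
  fin : T.Finite
  Ksub : csqc (vn : ℂ) r ⊆ sq R0
  Tsub : ∀ c ∈ T, csqc c ρ1 ⊆ sq R0
  dis : ∀ c ∈ T, ∀ c' ∈ T, c ≠ c' → Disjoint (csqc c ρ1) (csqc c' ρ1)
  disK : ∀ c ∈ T, Disjoint (csqc c ρ1) (csqc (vn : ℂ) r)
  im : ∀ c ∈ T, c.im = 0 ∨ r + ρ1 < |c.im|
  ρ_le : ρ0 ≤ r'

/-- The diagonal coordinate. -/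
def dg (vn : ℝ) (z : ℂ) : ℝ := z.im - (z.re - vn)

/-- Negative definite Hessian in `x'`. -/
def NegH (f : Pol (n + 1)) (x : Fin (n + 1) → ℝ) : Prop :=
  ∀ b : Fin n → ℝ, b ≠ 0 → ∑ i, ∑ j, b i * b j * (hess' f (xC x) i j).re < 0

/-! ## The geometry at `eta = 0` -/

/-- Geometry near an event at `eta = 0`. -/
structure Geo0 (q : RTup n l) (tv κ vn r' r ρ0 ρ1 : ℝ) (T : Set ℂ) : Prop where
  κ_pos : 0 < κ
  T1 : T1 (tC q)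
  T0 : T0 (tC q)
  sing : ∀ t ∈ hd tv κ, t ≠ tv → SingF (f0 (addT (tC q) t)) = ∅
  sig : ∀ t ∈ hd tv κ, ∀ z ∈ SigF (f0 (addT (tC q) t)),
    z ∈ sqc (vn : ℂ) r' ∨ ∃ c ∈ T, z ∈ sqc c ρ0
  one : ∀ c ∈ T, ∃ w ∈ CritF (f0 (tC (addT q (tv + κ)))), NonDegC (f0 (tC (addT q (tv + κ)))) w ∧
    w (Fin.last n) ∈ sqc c ρ0 ∧
    ∀ x ∈ CritF (f0 (tC (addT q (tv + κ)))), x (Fin.last n) ∈ csqc c ρ1 → x = w

/-- Case A at `eta = 0`: a complex pair after the event. -/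
structure GeoA0 (q : RTup n l) (tv κ vn r' r μ : ℝ) : Prop where
  μ_pos : 0 < μ
  diag : ∀ t ∈ hc tv κ, ∀ z ∈ SigF (f0 (addT (tC q) t)), z ∈ csqc (vn : ℂ) r →
    μ < dg vn z ∨ dg vn z < -μ
  plus : ∃ w1 w2, w1 ∈ CritF (f0 (tC (addT q (tv + κ)))) ∧
    w2 ∈ CritF (f0 (tC (addT q (tv + κ)))) ∧ NonDegC (f0 (tC (addT q (tv + κ)))) w1 ∧
    NonDegC (f0 (tC (addT q (tv + κ)))) w2 ∧ 0 < (w1 (Fin.last n)).im ∧
    w1 (Fin.last n) ∈ sqc (vn : ℂ) r' ∧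
    w2 (Fin.last n) = (starRingEnd ℂ) (w1 (Fin.last n)) ∧ μ < dg vn (w1 (Fin.last n)) ∧
    dg vn (w2 (Fin.last n)) < -μ ∧ ∀ x ∈ CritF (f0 (tC (addT q (tv + κ)))),
      x (Fin.last n) ∈ csqc (vn : ℂ) r → x = w1 ∨ x = w2

/-- Case A before the event at `eta = 0` (index one): two real critical points, in the open sets
`N1`, `N2`. -/
structure GeoM0 (q : RTup n l) (tv κ vn r' r : ℝ) (N1 N2 : Set (Fin (n + 1) → ℝ)) : Prop where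
  minus : ∃ x1 x2 : Fin (n + 1) → ℝ, xC x1 ∈ CritF (f0 (tC (addT q (tv - κ)))) ∧
    xC x2 ∈ CritF (f0 (tC (addT q (tv - κ)))) ∧ NonDegC (f0 (tC (addT q (tv - κ)))) (xC x1) ∧
    NonDegC (f0 (tC (addT q (tv - κ)))) (xC x2) ∧ x1 (Fin.last n) < vn ∧ vn < x2 (Fin.last n) ∧
    (x1 (Fin.last n) : ℂ) ∈ sqc (vn : ℂ) r' ∧ (x2 (Fin.last n) : ℂ) ∈ sqc (vn : ℂ) r' ∧
    x1 ∈ N1 ∧ x2 ∈ N2 ∧ NegH (f0 (tC (addT q (tv - κ)))) x1 ∧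
    NegH (f0 (tC (addT q (tv - κ)))) x2 ∧ ∀ x ∈ CritF (f0 (tC (addT q (tv - κ)))),
      x (Fin.last n) ∈ csqc (vn : ℂ) r → x = xC x1 ∨ x = xC x2

/-- Case B at `eta = 0`: a real pair after the event, in the open set `N`. -/
structure GeoB0 (q : RTup n l) (tv κ vn r' r : ℝ) (N : Set (Fin (n + 1) → ℝ)) : Prop where
  plus : ∃ x1 x2 : Fin (n + 1) → ℝ, xC x1 ∈ CritF (f0 (tC (addT q (tv + κ)))) ∧
    xC x2 ∈ CritF (f0 (tC (addT q (tv + κ)))) ∧ NonDegC (f0 (tC (addT q (tv + κ)))) (xC x1) ∧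
    NonDegC (f0 (tC (addT q (tv + κ)))) (xC x2) ∧ x2 (Fin.last n) < vn ∧ vn < x1 (Fin.last n) ∧
    (x1 (Fin.last n) : ℂ) ∈ sqc (vn : ℂ) r' ∧ (x2 (Fin.last n) : ℂ) ∈ sqc (vn : ℂ) r' ∧
    x1 ∈ N ∧ x2 ∈ N ∧ ∀ x ∈ CritF (f0 (tC (addT q (tv + κ)))),
      x (Fin.last n) ∈ csqc (vn : ℂ) r → x = xC x1 ∨ x = xC x2

/-! ## The geometry at `eta > 0` -/

variable (P : Prm)

/-- Geometry near an event at `eta > 0`. -/
structure Geo (q : RTup n l) (tv κ vn R0 R1 r' r ρ0 ρ1 : ℝ) (T : Set ℂ) : Prop where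
  κ_pos : 0 < κ
  R_lt : 2 * R0 < R1
  sqs : Sqs vn R0 r' r ρ0 ρ1 T
  sing : ∀ t ∈ hc tv κ, SingF (P.f (addT (tC q) t)) = ∅
  sig : ∀ t ∈ hd tv κ, ∀ z ∈ SigF (P.f (addT (tC q) t)), z ∈ sq R1 →
    z ∈ sqc (vn : ℂ) r' ∨ ∃ c ∈ T, z ∈ sqc c ρ0
  fin : (SigF (P.f (tC (addT q (tv + κ)))) ∩ sq R1).Finite
  simple : ∀ z ∈ SigF (P.f (tC (addT q (tv + κ)))) ∩ sq R1,
    SimpleCV P (tC (addT q (tv + κ))) z
  one : ∀ c ∈ T, ∃ w ∈ SigF (P.f (tC (addT q (tv + κ)))), w ∈ sqc c ρ0 ∧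
    ∀ x ∈ SigF (P.f (tC (addT q (tv + κ)))), x ∈ csqc c ρ1 → x = w
  bdd : ∀ t ≤ tv + κ, ∀ x, inOm q x → 0 ≤ fR 0 0 (addT q t) x → |x (Fin.last n)| < R0

/-- Case A. -/
structure GeoA (q : RTup n l) (tv κ vn r' r μ : ℝ) (a : ℂ) : Prop where
  μ_pos : 0 < μ
  diag : ∀ t ∈ hc tv κ, ∀ z ∈ SigF (P.f (addT (tC q) t)), z ∈ csqc (vn : ℂ) r →
    μ < dg vn z ∨ dg vn z < -μ
  a_mem : a ∈ SigF (P.f (tC (addT q (tv + κ))))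
  b_mem : (starRingEnd ℂ) a ∈ SigF (P.f (tC (addT q (tv + κ))))
  a_pos : 0 < a.im
  a_sq : a ∈ sqc (vn : ℂ) r'
  a_dg : μ < dg vn a
  b_dg : dg vn ((starRingEnd ℂ) a) < -μ
  only : ∀ z ∈ SigF (P.f (tC (addT q (tv + κ)))), z ∈ csqc (vn : ℂ) r →
    z = a ∨ z = (starRingEnd ℂ) a

/-- Case A, index one, before the event. -/
structure GeoM (q : RTup n l) (tv κ vn r' r : ℝ) (N1 N2 : Set (Fin (n + 1) → ℝ))
    (x1 x2 : Fin (n + 1) → ℝ) : Prop where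
  mem1 : xC x1 ∈ CritF (P.f (tC (addT q (tv - κ))))
  mem2 : xC x2 ∈ CritF (P.f (tC (addT q (tv - κ))))
  simple1 : SimpleCV P (tC (addT q (tv - κ))) (x1 (Fin.last n))
  simple2 : SimpleCV P (tC (addT q (tv - κ))) (x2 (Fin.last n))
  lt1 : x1 (Fin.last n) < vn
  lt2 : vn < x2 (Fin.last n)
  sq1 : (x1 (Fin.last n) : ℂ) ∈ sqc (vn : ℂ) r'
  sq2 : (x2 (Fin.last n) : ℂ) ∈ sqc (vn : ℂ) r'
  N1 : x1 ∈ N1
  N2 : x2 ∈ N2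
  neg1 : NegH (P.f (tC (addT q (tv - κ)))) x1
  neg2 : NegH (P.f (tC (addT q (tv - κ)))) x2
  only : ∀ z ∈ SigF (P.f (tC (addT q (tv - κ)))), z ∈ csqc (vn : ℂ) r →
    z = x1 (Fin.last n) ∨ z = x2 (Fin.last n)

/-- Case B. -/
structure GeoB (q : RTup n l) (tv κ vn r' r : ℝ) (N : Set (Fin (n + 1) → ℝ))
    (x1 x2 : Fin (n + 1) → ℝ) : Prop where
  mem1 : xC x1 ∈ CritF (P.f (tC (addT q (tv + κ))))
  mem2 : xC x2 ∈ CritF (P.f (tC (addT q (tv + κ))))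
  lt1 : vn < x1 (Fin.last n)
  lt2 : x2 (Fin.last n) < vn
  sq1 : (x1 (Fin.last n) : ℂ) ∈ sqc (vn : ℂ) r'
  sq2 : (x2 (Fin.last n) : ℂ) ∈ sqc (vn : ℂ) r'
  N1 : x1 ∈ N
  N2 : x2 ∈ N
  only : ∀ z ∈ SigF (P.f (tC (addT q (tv + κ)))), z ∈ csqc (vn : ℂ) r →
    z = x1 (Fin.last n) ∨ z = x2 (Fin.last n)

end Pool.Agent.QC
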