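import Pool.Agent.QC.Asm.Compare
import Pool.Agent.QC.Asm.Cone

/-!
# MP_7c50a9_lc: assembly, definitions: one input at `eta = 0`, and the passage to `eta > 0`

The statements are in `Asm/In0.lean`.
-/

namespace Pool.Agent.QC

open MvPolynomial Filter Topology Set

variable {n l : ℕ}

/-- The event times of an input. -/
structure Lst (q : RTup n l) (t₀ : ℝ) (k : ℕ) (τ : ℕ → ℝ) : Prop where
  mono : ∀ j < k, τ j < τ (j + 1)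
  last : τ k = 0
  mem : ∀ t, t ∈ EvT q t₀ ↔ ∃ j < k, τ j = t

/-- The Morse theory of an event at `eta = 0`; `B` says that the pair is real after the event. -/
inductive Mor0 (q : RTup n l) (tv κ t' vn r' r : ℝ) (N : Set (Fin (n + 1) → ℝ)) :
    Bool → Cls → Prop
  | otherA (hs : SameCmp q tv t') : Mor0 q tv κ t' vn r' r N false .other
  | otherB (hN : ∀ x ∈ N, ¬ inOm q x) (hs : SameCmp q tv t') :
      Mor0 q tv κ t' vn r' r N true .other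
  | zero {O0 : Set (Fin (n + 1) → ℝ)} (hM : MorZ q tv t' O0) (hN : N ⊆ O0) :
      Mor0 q tv κ t' vn r' r N true .zero
  | one {U1 U2 : Set (Fin (n + 1) → ℝ)} (GM : GeoM0 q tv κ vn r' r U1 U2)
      (hM : MorO q tv t' U1 U2) : Mor0 q tv κ t' vn r' r N false .one

/-- The geometric data of the events: squares, margins, neighbourhoods, frames, classes. -/
structure GD (n : ℕ) where
  /-- frame -/
  c : ℕ → Fin n → ℝ
  /-- value of the singular point -/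
  vn : ℕ → ℝ
  /-- class -/
  cls : ℕ → Cls
  /-- real pair after the event -/
  re : ℕ → Bool
  /-- half side of the inner square of the pair -/
  r' : ℕ → ℝ
  /-- half side of the outer square of the pair -/
  r : ℕ → ℝ
  /-- half side of the inner squares -/
  ρ0 : ℕ → ℝ
  /-- half side of the outer squares -/
  ρ1 : ℕ → ℝ
  /-- margin of the diagonal -/
  μ : ℕ → ℝ
  /-- centres of the squares -/
  T : ℕ → Set ℂ
  /-- neighbourhood of the singular point -/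
  N : ℕ → Set (Fin (n + 1) → ℝ)

/-- Geometry of one event at `eta = 0`. -/
structure EvG0 (q : RTup n l) (τ : ℕ → ℝ) (κ : ℝ) (G : GD n) (j : ℕ) : Prop where
  geo : Geo0 (shT (G.c j) q) (τ j) κ (G.vn j) (G.r' j) (G.r j) (G.ρ0 j) (G.ρ1 j) (G.T j)
  sqs : ∀ R0, csqc (G.vn j : ℂ) (G.r j) ⊆ sq R0 → (∀ w ∈ G.T j, csqc w (G.ρ1 j) ⊆ sq R0) →
    Sqs (G.vn j) R0 (G.r' j) (G.r j) (G.ρ0 j) (G.ρ1 j) (G.T j)
  caseA : G.re j = false → GeoA0 (shT (G.c j) q) (τ j) κ (G.vn j) (G.r' j) (G.r j) (G.μ j)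
  caseB : G.re j = true → G.c j = 0 ∧ IsOpen (G.N j) ∧
    GeoB0 (shT (G.c j) q) (τ j) κ (G.vn j) (G.r' j) (G.r j) (G.N j)
  mor : Mor0 (shT (G.c j) q) (τ j) κ (τ (j + 1)) (G.vn j) (G.r' j) (G.r j) (G.N j) (G.re j)
    (G.cls j)

/-- One input at `eta = 0`, everything chosen. -/
structure In0 {Phi : MvPolynomial (Ix n l) ℂ} (q₀ : Tup n l) (q : RTup n l) (t₀ : ℝ) (k : ℕ)
    (τ : ℕ → ℝ) (κ ω : ℝ) (G : GD n) : Prop where
  good : Good Phi q t₀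
  lst : Lst q t₀ k τ
  κ_pos : 0 < κ
  ω_pos : 0 < ω
  ω_le : ω ≤ κ
  gap0 : ∀ j < k, t₀ < τ j - κ
  gap : ∀ j < k, τ j + κ < τ (j + 1)
  gap' : ∀ j, j + 1 < k → τ j + κ < τ (j + 1) - κ
  bad : ∀ t : ℂ, 0 < t.im → t.im ≤ κ → SingF (f0 (addT (tC q) t)) = ∅
  frame : ∀ j < k, eval (cfs (tC (shT (G.c j) q))) Phi ≠ 0
  paths : ∀ j < k, ∀ i ≤ 2, ∀ s ∈ Icc (0 : ℝ) 1,
    eval (cfs (gam q₀ q t₀ ω (τ j + κ) (G.c j) i s)) Phi ≠ 0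
  pathA : ∀ s ∈ Icc (0 : ℝ) 1, eval (cfs (pathA q₀ (tC (addT q t₀)) ω s)) Phi ≠ 0
  ev : ∀ j < k, EvG0 q τ κ G j

/-- The compact set of levels. -/
def KH (t₀ : ℝ) (k : ℕ) (τ : ℕ → ℝ) (κ ω : ℝ) : Set ℂ :=
  {(t₀ : ℂ)} ∪ ⋃ j ∈ {j | j < k}, (((fun s : ℝ => (t₀ : ℂ) + arc ω (((τ j + κ : ℝ) : ℂ) - t₀) s) ''
    Icc 0 1) ∪ hc (τ j) κ ∪ ⋃ _ : j + 1 < k, (fun s : ℝ => (s : ℂ)) ''
      Icc (τ j + κ / 2) (τ (j + 1) - κ / 2))

/-- The region of levels. -/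
def HH (t₀ : ℝ) (k : ℕ) (τ : ℕ → ℝ) (κ ω : ℝ) : Set ℂ := cone (KH t₀ k τ κ ω) κ

/-- Bounds at `eta = 0`. -/
structure Bd0 (q₀ : Tup n l) (q : RTup n l) (t₀ : ℝ) (k : ℕ) (τ : ℕ → ℝ) (κ ω : ℝ) (G : GD n)
    (R0 : ℝ) : Prop where
  pos : 0 < R0
  regA : ∀ s ∈ Icc (0 : ℝ) 1, SigF (f0 (pathA q₀ (tC (addT q t₀)) ω s)) ⊆ sq R0
  paths : ∀ j < k, ∀ i ≤ 2, ∀ s ∈ Icc (0 : ℝ) 1,
    SigF (f0 (gam q₀ q t₀ ω (τ j + κ) (G.c j) i s)) ⊆ sq R0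
  lev : ∀ t ∈ HH t₀ k τ κ ω, SigF (f0 (addT (tC q) t)) ⊆ sq R0
  K : ∀ j < k, csqc (G.vn j : ℂ) (G.r j) ⊆ sq R0
  T : ∀ j < k, ∀ w ∈ G.T j, csqc w (G.ρ1 j) ⊆ sq R0
  bdd : ∀ x, inOm q x → 0 ≤ fR 0 0 q x → |x (Fin.last n)| < R0
  bddc : ∀ j < k, ∀ x, inOm q x → 0 ≤ fR 0 0 q x → |shX (G.c j) x (Fin.last n)| < R0

/-- The links between the planes `D j` and the geometry at `eta = 0`. -/
structure Lnk (P : Prm) {q₀ : Tup n l} {z₀ : ℂ} {R0 R1 : ℝ} {q : RTup n l} {t₀ : ℝ} {k : ℕ}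
    {τ : ℕ → ℝ} {κ ω : ℝ} (G : GD n)
    (D : ∀ j : Fin k, EvD P q₀ z₀ R0 R1 2 (gam q₀ q t₀ ω (τ j + κ) (G.c j))) : Prop where
  A : ∀ j : Fin k, G.re j = false →
    GeoA P (shT (G.c j) q) (τ j) κ (G.vn j) (G.r' j) (G.r j) (G.μ j) (D j).a ∧
      (D j).b = (starRingEnd ℂ) (D j).a
  B : ∀ j : Fin k, G.re j = true → ∃ x1 x2 : Fin (n + 1) → ℝ,
    GeoB P (shT (G.c j) q) (τ j) κ (G.vn j) (G.r' j) (G.r j) (G.N j) x1 x2 ∧
      (D j).a = x1 (Fin.last n) ∧ (D j).b = x2 (Fin.last n)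

/-- The class of a record. -/
def EvRec.kl (R : EvRec) : Cls := if R.cls = 0 then .zero else if R.cls = 1 then .one else .other

end Pool.Agent.QC
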