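import Pool.Agent.QC.Asm.In0Reg

/-!
# MP_7c50a9_lc: assembly: the first gap has no components
-/

set_option autoImplicit false

namespace Pool.Agent.QC

open MvPolynomial Filter Topology Set

variable {n l : ℕ}

theorem first_aux {Phi : MvPolynomial (Ix n l) ℂ} (hPhi : GoodPhi Phi) {q : RTup n l}
    {t₀ : ℝ} {k : ℕ} {τ : ℕ → ℝ} (hg : Good Phi q t₀) (hl : Lst q t₀ k τ) :
    Cmp (Wset q (τ 0)) = ∅ := by
  have h1 : t₀ < τ 0 ∧ τ 0 ≤ 0 ∧ ∀ s, t₀ < s → s < τ 0 →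
      SingF (f0 (addT (tC q) (s : ℂ))) = ∅ := by
    rcases Nat.eq_zero_or_pos k with rfl | hk
    · refine ⟨by rw [hl.last]; exact hg.neg, hl.last.le, fun s hs hs' =>
        RegH.reg_real hs (by rw [hl.last] at hs'; exact hs') fun h => ?_⟩
      obtain ⟨j, hj, _⟩ := (hl.mem s).1 h
      exact absurd hj (Nat.not_lt_zero j)
    · have h2 : τ 0 ∈ EvT q t₀ := (hl.mem _).2 ⟨0, hk, rfl⟩
      exact ⟨h2.1.1, h2.1.2.le, fun s hs hs' => RegH.reg_first hl hk hs hs'⟩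
  obtain ⟨h2, h3, h4⟩ := h1
  have h5 : SameCmp q t₀ (τ 0) := by
    refine morse_reg (compLev hg.compact) h2 h3 fun s hs v _ hv => ?_
    have h6 : SingF (f0 (tC (addT q s))) = ∅ := by
      rcases hs.1.eq_or_lt with rfl | h7
      · exact RegH.SingF_empty_of_Nice (hPhi _ hg.nz₀)
      · rw [Lab.tC_addT]
        exact h4 s h7 hs.2
    rw [h6] at hv
    exact hv
  refine Set.eq_empty_of_forall_notMem fun U hU => ?_
  obtain ⟨x, hx, _⟩ := hU
  obtain ⟨y, hy, _⟩ := h5.1 x hx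
  rw [hg.empty] at hy
  exact hy

end Pool.Agent.QC
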