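import Pool.Agent.QC.Asm.GeoTame
import Pool.Agent.QC.Asm.GeoDefs
import Pool.Agent.QC.Rec.Frame
import Pool.Agent.QC.Cyc.FrameCycle
import Pool.Agent.QC.Lab.Paths

set_option autoImplicit false

/-!
# MP_7c50a9_lc: the frames for small `eta`
-/

namespace Pool.Agent.QC

open MvPolynomial Filter Topology Set GeoT

variable {n l : ℕ}

/-- A singular point in a complex frame gives one in the first frame. -/
theorem SingF_shT_nonempty {q : Tup n l} {c : Fin n → ℂ} (h : (SingF (f0 (shT c q))).Nonempty) :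
    (SingF (f0 q)).Nonempty := by
  obtain ⟨y, hy1, hy2⟩ := h
  rw [eval_f0_fF, fF_shT] at hy1
  refine ⟨(shM c).mulVec y, ?_, ?_⟩
  · rw [eval_f0_fF]
    exact hy1
  · intro i
    rw [eval_pderiv_f0]
    have h3 : ∀ k, ∑ j, shM c j k * fG q ((shM c).mulVec y) j = 0 := by
      intro k
      rw [← fG_shT, ← eval_pderiv_f0]
      exact hy2 k
    have h4 : (shM c).transpose.mulVec (fG q ((shM c).mulVec y)) = 0 := by
      funext k
      rw [Matrix.mulVec, dotProduct]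
      exact h3 k
    have h5 : (shN c).transpose.mulVec ((shM c).transpose.mulVec
        (fG q ((shM c).mulVec y))) = fG q ((shM c).mulVec y) := by
      rw [Matrix.mulVec_mulVec, ← Matrix.transpose_mul, shM_mul_shN, Matrix.transpose_one,
        Matrix.one_mulVec]
    rw [h4, Matrix.mulVec_zero] at h5
    exact (congrFun h5 i).symm

theorem SingF_shT_empty {q : Tup n l} (h : SingF (f0 q) = ∅) (c : Fin n → ℂ) :
    SingF (f0 (shT c q)) = ∅ := by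
  by_contra h1
  have h2 := SingF_shT_nonempty (Set.nonempty_iff_ne_empty.2 h1)
  rw [h] at h2
  exact Set.not_nonempty_empty h2

/-- The region under the arc is compact. -/
theorem isCompact_Dω {ω : ℝ} (hω : 0 ≤ ω) :
    IsCompact {p : ℝ × ℝ | 0 ≤ p.1 ∧ p.1 ≤ 1 ∧ 0 ≤ p.2 ∧ p.2 ≤ ω * p.1 * (1 - p.1)} := by
  have hcl : IsClosed {p : ℝ × ℝ | 0 ≤ p.1 ∧ p.1 ≤ 1 ∧ 0 ≤ p.2 ∧ p.2 ≤ ω * p.1 * (1 - p.1)} := by
    have h1 : IsClosed {p : ℝ × ℝ | 0 ≤ p.1} := isClosed_le continuous_const continuous_fst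
    have h2 : IsClosed {p : ℝ × ℝ | p.1 ≤ 1} := isClosed_le continuous_fst continuous_const
    have h3 : IsClosed {p : ℝ × ℝ | 0 ≤ p.2} := isClosed_le continuous_const continuous_snd
    have h4 : IsClosed {p : ℝ × ℝ | p.2 ≤ ω * p.1 * (1 - p.1)} :=
      isClosed_le continuous_snd (by fun_prop)
    exact h1.inter (h2.inter (h3.inter h4))
  refine (isCompact_Icc.prod (isCompact_Icc (a := (0 : ℝ)) (b := ω))).of_isClosed_subset hcl
    (s := Icc (0 : ℝ) 1 ×ˢ Icc (0 : ℝ) ω) ?_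
  rintro ⟨x, y⟩ ⟨h1, h2, h3, h4⟩
  refine ⟨⟨h1, h2⟩, h3, h4.trans ?_⟩
  show ω * x * (1 - x) ≤ ω
  have h5 : x * (1 - x) ≤ 1 := by nlinarith
  nlinarith

/-- The frames of one compact set of levels for small `eta`. -/
theorem tame_frames {q : Tup n l} (h0 : T0 q) {H : Set ℂ} (hH : IsCompact H)
    (hs : ∀ t ∈ H, SingF (f0 (addT q t)) = ∅) (c : Fin n → ℂ) {ω : ℝ} (hω : 0 ≤ ω) :
    ∀ᶠ en in 𝓝[>] (0 : ℝ), ∀ᶠ eta in 𝓝[>] (0 : ℝ), ∀ t ∈ H, ∀ x y : ℝ, 0 ≤ x → x ≤ 1 →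
      0 ≤ y → y ≤ ω * x * (1 - x) →
        SingF (fpol en eta (addT (shT (((x : ℂ) + Complex.I * y) • c) q) t)) = ∅ := by
  have hg : Continuous fun p : ℂ × (ℝ × ℝ) =>
      shT (((p.2.1 : ℂ) + Complex.I * p.2.2) • c) (addT q p.1) := by
    refine Cyc.continuous_shT ?_ ((continuous_addT_c q).comp continuous_fst)
    fun_prop
  have h := tame_sing (K := (fun p : ℂ × (ℝ × ℝ) =>
      shT (((p.2.1 : ℂ) + Complex.I * p.2.2) • c) (addT q p.1)) ''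
      (H ×ˢ {p : ℝ × ℝ | 0 ≤ p.1 ∧ p.1 ≤ 1 ∧ 0 ≤ p.2 ∧ p.2 ≤ ω * p.1 * (1 - p.1)}))
    ((hH.prod (isCompact_Dω hω)).image hg)
    (by rintro _ ⟨p, -, rfl⟩; exact T0_shT (T0_addT h0 p.1) _)
    (by rintro _ ⟨p, hp, rfl⟩; exact SingF_shT_empty (hs p.1 hp.1) _)
  filter_upwards [h] with en h1
  filter_upwards [h1] with eta h2 t ht x y hx0 hx1 hy0 hy1
  rw [← Lab.shT_addT]
  exact h2 _ ⟨(t, (x, y)), ⟨ht, hx0, hx1, hy0, hy1⟩, rfl⟩

/-- The frames of all events for small `eta`. -/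
theorem tame_frames_all {q : Tup n l} (h0 : T0 q) {k : ℕ} {τ : ℕ → ℝ} {κ ω : ℝ} (hω : 0 ≤ ω)
    (hs : ∀ j < k, ∀ t ∈ hc (τ j) κ, SingF (f0 (addT q t)) = ∅) (c : ℕ → Fin n → ℝ) :
    ∀ᶠ en in 𝓝[>] (0 : ℝ), ∀ᶠ eta in 𝓝[>] (0 : ℝ), ∀ P : Prm, P.en = en → P.eta = eta →
      ∀ j < k, ∀ t ∈ hc (τ j) κ, ∀ x y : ℝ, 0 ≤ x → x ≤ 1 → 0 ≤ y → y ≤ ω * x * (1 - x) →
        SingF (P.f (addT (shT (((x : ℂ) + Complex.I * y) • xC (c j)) q) t)) = ∅ := by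
  have h1 : ∀ᶠ en in 𝓝[>] (0 : ℝ), ∀ j ∈ {j | j < k}, ∀ᶠ eta in 𝓝[>] (0 : ℝ),
      ∀ t ∈ hc (τ j) κ, ∀ x y : ℝ, 0 ≤ x → x ≤ 1 → 0 ≤ y → y ≤ ω * x * (1 - x) →
        SingF (fpol en eta (addT (shT (((x : ℂ) + Complex.I * y) • xC (c j)) q) t)) = ∅ :=
    (eventually_all_finite (finite_lt_nat k)).2 fun j hj =>
      tame_frames h0 (isCompact_circ (τ j : ℂ) κ) (hs j hj) (xC (c j)) hω
  filter_upwards [h1] with en h2
  filter_upwards [(eventually_all_finite (finite_lt_nat k)).2 h2] with eta h3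
  rintro P rfl rfl j hj t ht x y hx0 hx1 hy0 hy1
  exact h3 j hj t ht x y hx0 hx1 hy0 hy1

end Pool.Agent.QC
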