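import Pool.Agent.QC.Asm.In0Defs
import Pool.Agent.QC.Asm.GeoTame

set_option autoImplicit false

/-!
# MP_7c50a9_lc: paths and levels for small `eta`
-/

namespace Pool.Agent.QC

open MvPolynomial Filter Topology Set

variable {n l : ℕ}

/-- Condition (N2) excludes singular points. -/
theorem N2.sing {p : Tup n l} (h : N2 p) : SingF (f0 p) = ∅ := by
  refine Set.eq_empty_of_forall_notMem fun x hx => ?_
  exact (h.1 x ⟨hx.1, fun i => hx.2 i.castSucc⟩).2 (hx.2 (Fin.last n))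

/-- A compact set of regular tuples: no singular points and no critical values in the annulus for
small `eta`. -/
theorem tame_ann {K : Set (Tup n l)} (hK : IsCompact K) (h0 : ∀ p ∈ K, T0 p)
    (h1 : ∀ p ∈ K, T1 p) (hs : ∀ p ∈ K, SingF (f0 p) = ∅) {R0 R1 : ℝ}
    (hb : ∀ p ∈ K, SigF (f0 p) ⊆ sq R0) :
    ∀ᶠ en in 𝓝[>] (0 : ℝ), ∀ᶠ eta in 𝓝[>] (0 : ℝ), ∀ p ∈ K, SingF (fpol en eta p) = ∅ ∧
      ∀ z ∈ sann R0 R1, z ∉ SigF (fpol en eta p) := by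
  have h2 := tame_sing hK h0 hs
  have h3 := tame_sig (K := K ×ˢ (csq R1 \ sq R0)) (hK.prod ((GeoT.isCompact_csq R1).diff
    (isOpen_sq R0))) (fun p hp => h1 _ hp.1) (fun p hp h4 => hp.2.2 (hb _ hp.1 h4))
  filter_upwards [h2, h3] with en h4 h5
  filter_upwards [h4, h5] with eta h6 h7
  intro p hp
  refine ⟨h6 p hp, fun z hz => h7 (p, z) ⟨hp, ⟨hz.1.1.le, hz.1.2.le⟩, fun h8 => hz.2 ?_⟩⟩
  exact ⟨h8.1.le, h8.2.le⟩

/-- One path. -/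
theorem tame_path {Phi : MvPolynomial (Ix n l) ℂ} (hPhi : GoodPhi Phi) {g : ℝ → Tup n l}
    (hg : ContinuousOn g (Icc 0 1)) (hr : ∀ s ∈ Icc (0 : ℝ) 1, eval (cfs (g s)) Phi ≠ 0)
    {R0 R1 : ℝ} (hb : ∀ s ∈ Icc (0 : ℝ) 1, SigF (f0 (g s)) ⊆ sq R0) :
    ∀ᶠ en in 𝓝[>] (0 : ℝ), ∀ᶠ eta in 𝓝[>] (0 : ℝ), ∀ s ∈ Icc (0 : ℝ) 1,
      SingF (fpol en eta (g s)) = ∅ ∧ ∀ z ∈ sann R0 R1, z ∉ SigF (fpol en eta (g s)) := by
  have h := tame_ann (R1 := R1) (isCompact_Icc.image_of_continuousOn hg)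
    (by rintro _ ⟨s, hs, rfl⟩; exact (hPhi _ (hr s hs)).1)
    (by rintro _ ⟨s, hs, rfl⟩; exact (hPhi _ (hr s hs)).2.1)
    (by rintro _ ⟨s, hs, rfl⟩; exact (hPhi _ (hr s hs)).2.2.1.sing)
    (by rintro _ ⟨s, hs, rfl⟩; exact hb s hs)
  filter_upwards [h] with en h1
  filter_upwards [h1] with eta h2 s hs
  exact h2 _ ⟨s, hs, rfl⟩

theorem continuous_gam (q₀ : Tup n l) (q : RTup n l) (t₀ ω t : ℝ) (c : Fin n → ℝ) (i : ℕ) :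
    Continuous (gam q₀ q t₀ ω t c i) := by
  rcases i with _ | _ | i
  · exact Lab.pathA_cont _ _ _
  · exact Lab.pathB_cont _ _ _ _
  · exact Lab.pathC_cont _ _ _

/-- The paths of the events for small `eta`. -/
theorem In0.pathsE' {Phi : MvPolynomial (Ix n l) ℂ} (hPhi : GoodPhi Phi) {q₀ : Tup n l}
    {q : RTup n l} {t₀ : ℝ} {k : ℕ} {τ : ℕ → ℝ} {κ ω : ℝ} {G : GD n}
    (h : In0 (Phi := Phi) q₀ q t₀ k τ κ ω G) {R0 R1 : ℝ}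
    (hB : Bd0 q₀ q t₀ k τ κ ω G R0) :
    ∀ᶠ en in 𝓝[>] (0 : ℝ), ∀ᶠ eta in 𝓝[>] (0 : ℝ), ∀ P : Prm, P.en = en → P.eta = eta →
      ∀ j < k, ∀ i ≤ 2, ∀ s ∈ Icc (0 : ℝ) 1,
        SingF (P.f (gam q₀ q t₀ ω (τ j + κ) (G.c j) i s)) = ∅ ∧
        ∀ z ∈ sann R0 R1, z ∉ SigF (P.f (gam q₀ q t₀ ω (τ j + κ) (G.c j) i s)) := by
  have h1 : ∀ᶠ en in 𝓝[>] (0 : ℝ), ∀ j ∈ {j | j < k}, ∀ i ∈ {i | i ≤ 2},
      ∀ᶠ eta in 𝓝[>] (0 : ℝ), ∀ s ∈ Icc (0 : ℝ) 1,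
        SingF (fpol en eta (gam q₀ q t₀ ω (τ j + κ) (G.c j) i s)) = ∅ ∧
        ∀ z ∈ sann R0 R1, z ∉ SigF (fpol en eta (gam q₀ q t₀ ω (τ j + κ) (G.c j) i s)) :=
    (eventually_all_finite (finite_lt_nat k)).2 fun j hj =>
      (eventually_all_finite (finite_le_nat 2)).2 fun i hi =>
        tame_path hPhi (continuous_gam _ _ _ _ _ _ _).continuousOn (h.paths j hj i hi)
          (hB.paths j hj i hi)
  filter_upwards [h1] with en h2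
  have h3 := (eventually_all_finite (finite_lt_nat k)).2 fun j hj =>
    (eventually_all_finite (finite_le_nat 2)).2 (h2 j hj)
  filter_upwards [h3] with eta h4
  rintro P rfl rfl j hj i hi s hs
  exact h4 j hj i hi s hs

/-- Regularity of path A and of the levels for small `eta`. -/
theorem In0.levReg' {Phi : MvPolynomial (Ix n l) ℂ} (hPhi : GoodPhi Phi) {q₀ : Tup n l}
    {q : RTup n l} {t₀ : ℝ} {k : ℕ} {τ : ℕ → ℝ} {κ ω : ℝ} {G : GD n}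
    (h : In0 (Phi := Phi) q₀ q t₀ k τ κ ω G) {R0 R1 : ℝ} {z₀ : ℂ}
    (hB : Bd0 q₀ q t₀ k τ κ ω G R0) (hR : 2 * R0 < R1) (hz : z₀ ∈ sann R0 R1)
    (hH : IsCompact (HH t₀ k τ κ ω))
    (hr : ∀ t ∈ HH t₀ k τ κ ω, SingF (f0 (addT (tC q) t)) = ∅) :
    ∀ᶠ en in 𝓝[>] (0 : ℝ), ∀ᶠ eta in 𝓝[>] (0 : ℝ), ∀ P : Prm, P.en = en → P.eta = eta →
      LevReg P q₀ z₀ R0 R1 q t₀ ω (HH t₀ k τ κ ω) := by
  have hA := tame_path (R1 := R1) hPhi (Lab.pathA_cont q₀ (tC (addT q t₀)) ω).continuousOn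
    h.pathA hB.regA
  have hq := hPhi _ h.good.nz
  have hL := tame_ann (R1 := R1) (hH.image (GeoT.continuous_addT_c (tC q)))
    (by rintro _ ⟨t, -, rfl⟩; exact GeoT.T0_addT hq.1 t)
    (by rintro _ ⟨t, -, rfl⟩; exact T1_addT hq.2.1 t)
    (by rintro _ ⟨t, ht, rfl⟩; exact hr t ht)
    (by rintro _ ⟨t, ht, rfl⟩; exact hB.lev t ht)
  filter_upwards [hA, hL] with en a1 a2
  filter_upwards [a1, a2] with eta b1 b2
  rintro P rfl rfl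
  refine ⟨hB.pos, hR, hz, ⟨_, ?_, starConvex_cone⟩, subset_cone (Or.inl rfl), b1,
    fun t ht => b2 _ ⟨t, ht, rfl⟩⟩
  exact ⟨((t₀ : ℂ), 0), ⟨Or.inl rfl, le_rfl, zero_le_one⟩, by simp⟩

end Pool.Agent.QC
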