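import Pool.Agent.QC.Asm.In0Defs
import Pool.Agent.QC.Asm.GeoTame
import Pool.Agent.QC.Lab.Paths

/-!
# MP_7c50a9_lc: assembly: the region of levels is compact and regular
-/

set_option autoImplicit false

namespace Pool.Agent.QC

open MvPolynomial Filter Topology Set

variable {n l : ℕ}

namespace RegH

theorem continuous_arc (ω : ℝ) (z : ℂ) : Continuous (arc ω z) := by
  unfold arc
  fun_prop

theorem isCompact_hc (a κ : ℝ) : IsCompact (hc a κ) := by
  have h1 : hc a κ = Metric.sphere (a : ℂ) κ ∩ {t | 0 ≤ t.im} := by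
    ext t
    simp [hc]
  rw [h1]
  exact (isCompact_sphere _ _).inter_right (isClosed_le continuous_const Complex.continuous_im)

theorem isCompact_KH (t₀ : ℝ) (k : ℕ) (τ : ℕ → ℝ) (κ ω : ℝ) :
    IsCompact (KH t₀ k τ κ ω) := by
  refine isCompact_singleton.union ((finite_lt_nat k).isCompact_biUnion fun j _ => ?_)
  refine ((isCompact_Icc.image ?_).union (isCompact_hc (τ j) κ)).union
    (isCompact_iUnion fun _ => isCompact_Icc.image Complex.continuous_ofReal)
  exact continuous_const.add (continuous_arc _ _)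

theorem isCompact_HH (t₀ : ℝ) (k : ℕ) (τ : ℕ → ℝ) (κ ω : ℝ) :
    IsCompact (HH t₀ k τ κ ω) := isCompact_cone (isCompact_KH t₀ k τ κ ω)

theorem SingF_empty_of_Nice {q : Tup n l} (h : Nice q) : SingF (f0 q) = ∅ := by
  refine Set.eq_empty_of_forall_notMem fun x hx => ?_
  have h1 : x ∈ CritF (f0 q) := ⟨hx.1, fun i => hx.2 _⟩
  exact (h.2.2.1.1 x h1).2 (hx.2 _)

section

variable {Phi : MvPolynomial (Ix n l) ℂ} {q₀ : Tup n l} {q : RTup n l} {t₀ : ℝ} {k : ℕ}
  {τ : ℕ → ℝ} {κ ω : ℝ} {G : GD n}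

theorem tau_le (h : Lst q t₀ k τ) {i j : ℕ} (hij : i ≤ j) (hj : j ≤ k) : τ i ≤ τ j := by
  induction j, hij using Nat.le_induction with
  | base => exact le_rfl
  | succ m hm ih => exact (ih (by omega)).trans (h.mono m (by omega)).le

/-- A real level which is not an event time is regular. -/
theorem reg_real {t : ℝ} (h0 : t₀ < t) (h1 : t < 0) (h2 : t ∉ EvT q t₀) :
    SingF (f0 (addT (tC q) (t : ℂ))) = ∅ := by
  by_contra h3
  refine h2 ⟨⟨h0, h1⟩, ?_⟩
  rw [Lab.tC_addT]
  exact Set.nonempty_iff_ne_empty.2 h3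

/-- A real level between two consecutive event times is regular. -/
theorem reg_between (h : Lst q t₀ k τ) {j : ℕ} (hj : j < k) {t : ℝ} (h0 : t₀ < t)
    (h1 : τ j < t) (h2 : t < τ (j + 1)) : SingF (f0 (addT (tC q) (t : ℂ))) = ∅ := by
  have h3 : τ (j + 1) ≤ 0 := by
    rw [← h.last]
    exact tau_le h (by omega) le_rfl
  refine reg_real h0 (h2.trans_le h3) fun h4 => ?_
  obtain ⟨i, hi, hit⟩ := (h.mem t).1 h4
  rcases le_or_gt i j with h5 | h5
  · have := tau_le h h5 hj.le
    linarith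
  · have := tau_le h (show j + 1 ≤ i by omega) hi.le
    linarith

/-- A real level before the first event time is regular. -/
theorem reg_first (h : Lst q t₀ k τ) (hk : 0 < k) {t : ℝ} (h0 : t₀ < t) (h1 : t < τ 0) :
    SingF (f0 (addT (tC q) (t : ℂ))) = ∅ := by
  have h3 : τ 0 ≤ 0 := by
    rw [← h.last]
    exact tau_le h (by omega) le_rfl
  refine reg_real h0 (h1.trans_le h3) fun h4 => ?_
  obtain ⟨i, hi, hit⟩ := (h.mem t).1 h4
  have := tau_le h (Nat.zero_le i) hi.le
  linarith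

/-- The points of the half circle. -/
theorem hc_im {a κ : ℝ} {t : ℂ} (ht : t ∈ hc a κ) : 0 ≤ t.im ∧ t.im ≤ κ ∧
    (t.im = 0 → t = ((a - κ : ℝ) : ℂ) ∨ t = ((a + κ : ℝ) : ℂ)) := by
  have h1 : t.im = (t - a).im := by simp
  refine ⟨ht.2, ?_, fun h0 => ?_⟩
  · rw [h1, ← ht.1]
    exact (le_abs_self _).trans (Complex.abs_im_le_norm _)
  · have h2 : t = (t.re : ℂ) := Complex.ext rfl (by simpa using h0)
    have h3 : |t.re - a| = κ := by
      have := ht.1
      rw [h2, ← Complex.ofReal_sub, Complex.norm_real, Real.norm_eq_abs] at this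
      exact this
    have h4 : t.re = a - κ ∨ t.re = a + κ := by
      rcases abs_choice (t.re - a) with h | h
      · right
        linarith
      · left
        linarith
    rcases h4 with h | h
    · left
      rw [h2, h]
    · right
      rw [h2, h]

theorem arc_im {ω : ℝ} (z : ℝ) (s : ℝ) : (arc ω (z : ℂ) s).im = ω * s * (1 - s) := by
  unfold arc
  simp

/-- The points of `KH`. -/
theorem mem_KH_im (h : In0 (Phi := Phi) q₀ q t₀ k τ κ ω G) {t : ℂ} (ht : t ∈ KH t₀ k τ κ ω) :
    0 ≤ t.im ∧ t.im ≤ κ := by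
  rcases ht with ht | ht
  · rw [mem_singleton_iff.1 ht]
    simp [h.κ_pos.le]
  · obtain ⟨j, hj, ht⟩ := mem_iUnion₂.1 ht
    rcases ht with (⟨s, hs, rfl⟩ | ht) | ht
    · have e : ((t₀ : ℂ) + arc ω (((τ j + κ : ℝ) : ℂ) - t₀) s).im = ω * s * (1 - s) := by
        rw [Complex.add_im, Complex.ofReal_im, zero_add, ← Complex.ofReal_sub, arc_im]
      simp only
      rw [e]
      have h1 := hs.1
      have h2 := hs.2
      have h3 := h.ω_pos
      have h4 : 0 ≤ s * (1 - s) := mul_nonneg h1 (by linarith)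
      have h5 : s * (1 - s) ≤ 1 := by nlinarith
      constructor
      · nlinarith
      · nlinarith [h.ω_le]
    · exact ⟨(hc_im ht).1, (hc_im ht).2.1⟩
    · obtain ⟨_, s, _, rfl⟩ := mem_iUnion.1 ht
      simp [h.κ_pos.le]

theorem reg_KH (hPhi : GoodPhi Phi) (h : In0 (Phi := Phi) q₀ q t₀ k τ κ ω G) {t : ℂ}
    (ht : t ∈ KH t₀ k τ κ ω) (h0 : t.im = 0) : SingF (f0 (addT (tC q) t)) = ∅ := by
  have hbase : SingF (f0 (addT (tC q) (t₀ : ℂ))) = ∅ := by
    rw [← Lab.tC_addT]
    exact SingF_empty_of_Nice (hPhi _ h.good.nz₀)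
  have hκ := h.κ_pos
  have hplus : ∀ j < k, SingF (f0 (addT (tC q) ((τ j + κ : ℝ) : ℂ))) = ∅ := fun j hj =>
    reg_between h.lst hj (by linarith [h.gap0 j hj]) (by linarith) (h.gap j hj)
  rcases ht with ht | ht
  · rw [mem_singleton_iff.1 ht]
    exact hbase
  · obtain ⟨j, hj, ht⟩ := mem_iUnion₂.1 ht
    have hj' : j < k := hj
    rcases ht with (⟨s, hs, rfl⟩ | ht) | ht
    · have e : ((t₀ : ℂ) + arc ω (((τ j + κ : ℝ) : ℂ) - t₀) s).im = ω * s * (1 - s) := by
        rw [Complex.add_im, Complex.ofReal_im, zero_add, ← Complex.ofReal_sub, arc_im]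
      simp only at h0
      rw [e] at h0
      have h3 : ω ≠ 0 := h.ω_pos.ne'
      rcases mul_eq_zero.1 h0 with h4 | h4
      · have h5 : s = 0 := (mul_eq_zero.1 h4).resolve_left h3
        subst h5
        simpa [arc] using hbase
      · have h5 : s = 1 := by linarith
        subst h5
        have h6 : (t₀ : ℂ) + arc ω (((τ j + κ : ℝ) : ℂ) - t₀) 1 = ((τ j + κ : ℝ) : ℂ) := by
          simp [arc]
        simp only
        rw [h6]
        exact hplus j hj'
    · rcases (hc_im ht).2.2 h0 with h1 | h1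
      · rw [h1]
        rcases Nat.eq_zero_or_pos j with hj0 | hj0
        · subst hj0
          exact reg_first h.lst hj' (h.gap0 0 hj') (by linarith)
        · obtain ⟨i, rfl⟩ : ∃ i, j = i + 1 := ⟨j - 1, by omega⟩
          have h2 := h.gap' i hj'
          exact reg_between h.lst (show i < k by omega) (h.gap0 _ hj') (by linarith)
            (by linarith)
      · rw [h1]
        exact hplus j hj'
    · obtain ⟨hj1, s, hs, rfl⟩ := mem_iUnion.1 ht
      refine reg_between h.lst hj' ?_ ?_ ?_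
      · linarith [h.gap0 j hj', hs.1]
      · linarith [hs.1]
      · linarith [hs.2]

/-- The levels in `HH` are regular. -/
theorem reg (hPhi : GoodPhi Phi) (h : In0 (Phi := Phi) q₀ q t₀ k τ κ ω G) {t : ℂ}
    (ht : t ∈ HH t₀ k τ κ ω) : SingF (f0 (addT (tC q) t)) = ∅ := by
  have h1 := cone_im h.κ_pos (fun t ht => (mem_KH_im h ht).1) ht
  have h2 := cone_im_le (b := κ) le_rfl (fun t ht => (mem_KH_im h ht).2) ht
  rcases h1.1.eq_or_lt with h3 | h3
  · exact reg_KH hPhi h (h1.2 h3.symm) h3.symm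
  · exact h.bad t h3 h2

end

end RegH

end Pool.Agent.QC
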