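import Pool.Agent.QC.Asm.In0Defs

/-!
# MP_7c50a9_lc: assembly: one input, from `eta = 0` to `eta > 0` (proof of `In0.inD`)
-/

namespace Pool.Agent.QC

open MvPolynomial Filter Topology Set Lab

variable {n l : ℕ}

private theorem ev2_all {ι : Type*} [Finite ι] {f g : Filter ℝ} {p : ι → ℝ → ℝ → Prop}
    (h : ∀ i, ∀ᶠ a in f, ∀ᶠ b in g, p i a b) : ∀ᶠ a in f, ∀ᶠ b in g, ∀ i, p i a b := by
  filter_upwards [eventually_all.2 h] with a ha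
  exact eventually_all.2 ha

private theorem mem_hd_end {tv κ : ℝ} (hκ : 0 < κ) : ((tv + κ : ℝ) : ℂ) ∈ hd tv κ := by
  refine ⟨?_, by simp⟩
  have : ((tv + κ : ℝ) : ℂ) - tv = ((κ : ℝ) : ℂ) := by push_cast; ring
  rw [this, Complex.norm_real, Real.norm_eq_abs, abs_of_pos hκ]

private theorem sqc_csqc {c : ℂ} {r s : ℝ} (h : r < s) : sqc c r ⊆ csqc c s := by
  rintro w ⟨a1, a2⟩
  exact ⟨by linarith, by linarith⟩

private theorem sq_sub {R0 R1 : ℝ} (h : R0 < R1) : sq R0 ⊆ sq R1 := by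
  rintro w ⟨a1, a2⟩
  exact ⟨by linarith, by linarith⟩

/-- the bound in a frame -/
private theorem bd_frame {q : RTup n l} {c : Fin n → ℝ} {R0 t : ℝ} (ht : t ≤ 0)
    (hb : ∀ x, inOm q x → 0 ≤ fR 0 0 q x → |shX c x (Fin.last n)| < R0)
    {x : Fin (n + 1) → ℝ} (hx : inOm (shT c q) x) (h0 : 0 ≤ fR 0 0 (addT (shT c q) t) x) :
    |x (Fin.last n)| < R0 := by
  have e := Ev.shX_neg' c x
  rw [← e] at hx h0 ⊢
  have h1 : inOm q (shX (-c) x) := (Ev.inOm_shX c q _).1 hx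
  refine hb _ h1 ?_
  rw [Ev.addT_shT, Ev.fR_shX] at h0
  have h2 : fR 0 0 (addT q t) (shX (-c) x) ≤ fR 0 0 (addT q 0) (shX (-c) x) :=
    Ev.ff_mono' (q := q) ht h1
  rw [addT_zero] at h2
  exact h0.trans h2

/-- what an event gives at `eta > 0` -/
private structure EvE (P : Prm) (q : RTup n l) (τ : ℕ → ℝ) (κ : ℝ) (G : GD n) (j : ℕ) (R0 R1 : ℝ)
    (a b : ℂ) : Prop where
  geo : Geo P (shT (G.c j) q) (τ j) κ (G.vn j) R0 R1 (G.r' j) (G.r j) (G.ρ0 j) (G.ρ1 j) (G.T j)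
  evc : EvC P (shT (G.c j) q) (τ j) κ (τ (j + 1)) (G.vn j) (G.r' j) (G.r j) (G.cls j) a b
  ha : a ∈ SigF (P.f (tC (addT (shT (G.c j) q) (τ j + κ)))) ∩ sq R1
  hb : b ∈ SigF (P.f (tC (addT (shT (G.c j) q) (τ j + κ)))) ∩ sq R1
  A : G.re j = false → GeoA P (shT (G.c j) q) (τ j) κ (G.vn j) (G.r' j) (G.r j) (G.μ j) a ∧
    b = (starRingEnd ℂ) a
  B : G.re j = true → ∃ x1 x2 : Fin (n + 1) → ℝ,
    GeoB P (shT (G.c j) q) (τ j) κ (G.vn j) (G.r' j) (G.r j) (G.N j) x1 x2 ∧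
      a = x1 (Fin.last n) ∧ b = x2 (Fin.last n)

/-- membership of the pair, case A -/
private theorem memAB {P : Prm} {q : RTup n l} {tv κ vn R0 R1 r' r ρ0 ρ1 μ : ℝ} {T : Set ℂ} {a : ℂ}
    (hR : R0 < R1) (G : Geo P q tv κ vn R0 R1 r' r ρ0 ρ1 T) (H : GeoA P q tv κ vn r' r μ a) :
    a ∈ SigF (P.f (tC (addT q (tv + κ)))) ∩ sq R1 ∧
      (starRingEnd ℂ) a ∈ SigF (P.f (tC (addT q (tv + κ)))) ∩ sq R1 := by
  have h1 := sqc_csqc G.sqs.r_lt H.a_sq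
  have h2 : (starRingEnd ℂ) a ∈ csqc (vn : ℂ) r := by
    refine ⟨?_, ?_⟩
    · rw [Complex.conj_re]
      exact h1.1
    · have h2 := h1.2
      rw [Complex.ofReal_im, sub_zero] at h2 ⊢
      rw [Complex.conj_im, abs_neg]
      exact h2
  exact ⟨⟨H.a_mem, sq_sub hR (G.sqs.Ksub h1)⟩, H.b_mem, sq_sub hR (G.sqs.Ksub h2)⟩

private theorem openCmp {q : RTup n l} {t : ℝ} {U : Set (Fin (n + 1) → ℝ)}
    (h : U ∈ Cmp (Wset q t)) : IsOpen U := by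
  rw [Ev.Cmp_eq_comps] at h
  exact S4.comps_isOpen (isOpen_Wset q t) h

/-- one event -/
private theorem ev_one_event {Phi : MvPolynomial (Ix n l) ℂ} (hPhi : GoodPhi Phi) {q₀ : Tup n l}
    {q : RTup n l} {t₀ : ℝ} {k : ℕ} {τ : ℕ → ℝ} {κ ω : ℝ} {G : GD n}
    (h : In0 (Phi := Phi) q₀ q t₀ k τ κ ω G) {a : ℝ} (ha : Irrational a) (ha2 : 2 < a)
    {R0 R1 : ℝ} (hB : Bd0 q₀ q t₀ k τ κ ω G R0) (hR : 2 * R0 < R1) (hle : ∀ j ≤ k, τ j ≤ 0)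
    {j : ℕ} (hj : j < k) :
    ∀ᶠ en in 𝓝[>] (0 : ℝ), ∀ᶠ eta in 𝓝[>] (0 : ℝ), ∀ P : Prm, P.en = en → P.eta = eta →
      P.a = a → ∃ x y, EvE P q τ κ G j R0 R1 x y := by
  have hev := h.ev j hj
  have hs := hev.sqs R0 (hB.K j hj) (hB.T j hj)
  have hN : Nice (tC (addT (shT (G.c j) q) (τ j + κ))) := by
    rw [← gam_end q₀ q t₀ ω (τ j + κ) (G.c j)]
    exact hPhi _ (h.paths j hj 2 le_rfl 1 (by simp))
  have hlt : R0 < R1 := by linarith [hB.pos]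
  have g1 := geo_of_geo0 ha ha2 (R1 := R1) hev.geo hR hs hN.2.2.1.1 hN.2.2.1.2
    (fun t ht x hx h0 => bd_frame (ht.trans ((h.gap j hj).le.trans (hle (j + 1) (by omega))))
      (hB.bddc j hj) hx h0)
  have hm := hev.mor
  generalize hre : G.re j = re at hm
  generalize hcl : G.cls j = cls at hm
  cases hm with
  | otherA hsc =>
    filter_upwards [g1, geoA_of_geoA0 hev.geo hs.r_lt (hev.caseA hre)] with en b1 b2
    filter_upwards [b1, b2] with eta d1 d2 P hP1 hP2 hP3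
    obtain ⟨x, hx⟩ := d2 P hP1 hP2
    have hg := d1 P hP1 hP2 hP3
    have hm := memAB hlt hg hx
    refine ⟨x, (starRingEnd ℂ) x, hg, ?_, hm.1, hm.2, fun _ => ⟨hx, rfl⟩, fun h' => ?_⟩
    · rw [hcl]
      exact EvC.otherA hx hsc
    · rw [hre] at h'
      exact absurd h' (by simp)
  | otherB hNo hsc =>
    obtain ⟨-, hopen, hB0⟩ := hev.caseB hre
    filter_upwards [g1, geoB_of_geoB0 hev.geo hs.r_lt hopen hB0] with en b1 b2
    filter_upwards [b1, b2] with eta d1 d2 P hP1 hP2 hP3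
    obtain ⟨x1, x2, hx⟩ := d2 P hP1 hP2
    have hg := d1 P hP1 hP2 hP3
    refine ⟨x1 (Fin.last n), x2 (Fin.last n), hg, ?_,
      ⟨⟨_, hx.mem1, rfl⟩, sq_sub hlt (hs.Ksub (sqc_csqc hs.r_lt hx.sq1))⟩,
      ⟨⟨_, hx.mem2, rfl⟩, sq_sub hlt (hs.Ksub (sqc_csqc hs.r_lt hx.sq2))⟩, fun h' => ?_,
      fun _ => ⟨x1, x2, hx, rfl, rfl⟩⟩
    · rw [hcl]
      exact EvC.otherB hx hNo hsc
    · rw [hre] at h'
      exact absurd h' (by simp)
  | zero hM hN0 =>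
    obtain ⟨-, hopen, hB0⟩ := hev.caseB hre
    filter_upwards [g1, geoB_of_geoB0 hev.geo hs.r_lt hopen hB0] with en b1 b2
    filter_upwards [b1, b2] with eta d1 d2 P hP1 hP2 hP3
    obtain ⟨x1, x2, hx⟩ := d2 P hP1 hP2
    have hg := d1 P hP1 hP2 hP3
    refine ⟨x1 (Fin.last n), x2 (Fin.last n), hg, ?_,
      ⟨⟨_, hx.mem1, rfl⟩, sq_sub hlt (hs.Ksub (sqc_csqc hs.r_lt hx.sq1))⟩,
      ⟨⟨_, hx.mem2, rfl⟩, sq_sub hlt (hs.Ksub (sqc_csqc hs.r_lt hx.sq2))⟩, fun h' => ?_,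
      fun _ => ⟨x1, x2, hx, rfl, rfl⟩⟩
    · rw [hcl]
      exact EvC.zero hx hM hN0
    · rw [hre] at h'
      exact absurd h' (by simp)
  | one GM hM =>
    filter_upwards [g1, geoA_of_geoA0 hev.geo hs.r_lt (hev.caseA hre),
      geoM_of_geoM0 hev.geo hs.r_lt (openCmp hM.mem1) (openCmp hM.mem2) GM] with en b1 b2 b3
    filter_upwards [b1, b2, b3] with eta d1 d2 d3 P hP1 hP2 hP3
    obtain ⟨x, hx⟩ := d2 P hP1 hP2
    obtain ⟨y1, y2, hy⟩ := d3 P hP1 hP2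
    have hg := d1 P hP1 hP2 hP3
    have hm := memAB hlt hg hx
    refine ⟨x, (starRingEnd ℂ) x, hg, ?_, hm.1, hm.2, fun _ => ⟨hx, rfl⟩, fun h' => ?_⟩
    · rw [hcl]
      exact EvC.one hx hy hM
    · rw [hre] at h'
      exact absurd h' (by simp)

/-- One input, from `eta = 0` to `eta > 0`. -/
theorem inD_aux {Phi : MvPolynomial (Ix n l) ℂ} (hPhi : GoodPhi Phi) {q₀ : Tup n l}
    {q : RTup n l} {t₀ : ℝ} {k : ℕ} {τ : ℕ → ℝ} {κ ω : ℝ} {G : GD n}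
    (h : In0 (Phi := Phi) q₀ q t₀ k τ κ ω G) {a : ℝ} (ha : Irrational a) (ha2 : 2 < a)
    {R0 R1 : ℝ} {z₀ : ℂ} (hB : Bd0 q₀ q t₀ k τ κ ω G R0) (hR : 2 * R0 < R1)
    (hz : z₀ ∈ sann R0 R1)
    (h1 : ∀ᶠ en in 𝓝[>] (0 : ℝ), ∀ᶠ eta in 𝓝[>] (0 : ℝ), ∀ P : Prm, P.en = en → P.eta = eta →
      LevReg P q₀ z₀ R0 R1 q t₀ ω (HH t₀ k τ κ ω))
    (h2 : ∀ᶠ en in 𝓝[>] (0 : ℝ), ∀ᶠ eta in 𝓝[>] (0 : ℝ), ∀ P : Prm, P.en = en → P.eta = eta →
      ∀ j < k, ∀ t ∈ hc (τ j) κ, ∀ x y : ℝ, 0 ≤ x → x ≤ 1 → 0 ≤ y → y ≤ ω * x * (1 - x) →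
        SingF (P.f (addT (shT (((x : ℂ) + Complex.I * y) • xC (G.c j)) (tC q)) t)) = ∅)
    (h3 : ∀ᶠ en in 𝓝[>] (0 : ℝ), ∀ᶠ eta in 𝓝[>] (0 : ℝ), ∀ P : Prm, P.en = en → P.eta = eta →
      ∀ j < k, ∀ i ≤ 2, ∀ s ∈ Icc (0 : ℝ) 1,
        SingF (P.f (gam q₀ q t₀ ω (τ j + κ) (G.c j) i s)) = ∅ ∧
        ∀ z ∈ sann R0 R1, z ∉ SigF (P.f (gam q₀ q t₀ ω (τ j + κ) (G.c j) i s)))
    (h4 : Cmp (Wset q (τ 0)) = ∅) :
    ∀ᶠ en in 𝓝[>] (0 : ℝ), ∀ᶠ eta in 𝓝[>] (0 : ℝ), ∀ P : Prm, P.en = en → P.eta = eta →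
      P.a = a → ∃ D : ∀ j : Fin k, EvD P q₀ z₀ R0 R1 2 (gam q₀ q t₀ ω (τ j + κ) (G.c j)),
        InD P q₀ z₀ R0 R1 q t₀ k τ G.c G.cls κ ω (HH t₀ k τ κ ω) D ∧ Lnk P G D := by
  have hle : ∀ j ≤ k, τ j ≤ 0 := by
    have key : ∀ i, ∀ j, j + i = k → τ j ≤ 0 := by
      intro i
      induction i with
      | zero =>
        intro j hj
        obtain rfl : j = k := by omega
        exact h.lst.last.le
      | succ i ih =>
        intro j hj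
        exact (h.lst.mono j (by omega)).le.trans (ih (j + 1) (by omega))
    exact fun j hj => key (k - j) j (by omega)
  have he := ev2_all (ι := Fin k) fun j => ev_one_event hPhi h ha ha2 hB hR hle j.2
  have hlt : R0 < R1 := by linarith [hB.pos]
  filter_upwards [h1, h2, h3, he] with en a1 a2 a3 a4
  filter_upwards [a1, a2, a3, a4] with eta b1 b2 b3 b4 P hP1 hP2 hP3
  have hex : ∀ j : Fin k, ∃ D : EvD P q₀ z₀ R0 R1 2 (gam q₀ q t₀ ω (τ j + κ) (G.c j)),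
      EvE P q τ κ G j R0 R1 D.a D.b := by
    intro j
    obtain ⟨x, y, E⟩ := b4 j P hP1 hP2 hP3
    have hend := gam_end q₀ q t₀ ω (τ j + κ) (G.c j)
    have hg := E.geo
    obtain ⟨D, hDa, hDb⟩ := exists_evD (P := P) (a := x) (b := y) hB.pos hR
      (γ := gam q₀ q t₀ ω (τ j + κ) (G.c j)) (m := 2)
      ⟨fun i _ => (gam_cont q₀ q t₀ ω (τ j + κ) (G.c j) i).continuousOn,
        gam_join q₀ q t₀ ω (τ j + κ) (G.c j)⟩
      (gam_start q₀ q t₀ ω (τ j + κ) (G.c j)) hz (fun i hi s hs => b3 P hP1 hP2 j j.2 i hi s hs)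
      (by rw [hend]; exact hg.fin)
      (by
        rw [hend]
        rintro w ⟨hw, hwR⟩
        have e : tC (addT (shT (G.c j) q) (τ j + κ)) =
            addT (tC (shT (G.c j) q)) ((τ j + κ : ℝ) : ℂ) := tC_addT _ _
        rw [e] at hw
        rcases hg.sig _ (mem_hd_end h.κ_pos) w hw hwR with h5 | ⟨c, hc, h5⟩
        · exact hg.sqs.Ksub (sqc_csqc hg.sqs.r_lt h5)
        · exact hg.sqs.Tsub c hc (sqc_csqc hg.sqs.ρ_lt h5))
      (by rw [hend]; exact hg.simple) (by rw [hend]; exact E.ha) (by rw [hend]; exact E.hb)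
    refine ⟨D, ?_⟩
    rw [hDa, hDb]
    exact E
  choose D hD using hex
  refine ⟨D, ?_, ⟨fun j hj => (hD j).A hj, fun j hj => (hD j).B hj⟩⟩
  have hsub : KH t₀ k τ κ ω ⊆ HH t₀ k τ κ ω := subset_cone
  exact {
    κ_pos := h.κ_pos
    ω_pos := h.ω_pos
    lev := b1 P hP1 hP2
    comp := compLev h.good.compact
    last := h.lst.last
    first := h4
    le := hle
    lt := h.gap
    ioo := fun j hj => ⟨h.gap' j hj, fun s hs => hsub (Or.inr (mem_biUnion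
      (show j ∈ {j | j < k} by show j < k; omega) (Or.inr (mem_iUnion.2 ⟨hj, s,
        ⟨hs.1.le, hs.2.le⟩, rfl⟩))))⟩
    plus := fun j hj => by
      have h5 : (t₀ : ℂ) + arc ω (((τ j + κ : ℝ) : ℂ) - t₀) 1 ∈ HH t₀ k τ κ ω :=
        hsub (Or.inr (mem_biUnion (show j ∈ {j | j < k} from hj)
          (Or.inl (Or.inl ⟨1, by simp, rfl⟩))))
      rw [arc_one, add_sub_cancel] at h5
      exact h5
    arcs := fun j hj s hs => hsub (Or.inr (mem_biUnion (show j ∈ {j | j < k} from hj)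
      (Or.inl (Or.inl ⟨s, hs, rfl⟩))))
    hcs := fun j hj t ht => hsub (Or.inr (mem_biUnion (show j ∈ {j | j < k} from hj)
      (Or.inl (Or.inr ht))))
    frames := b2 P hP1 hP2
    bdd := fun j hj x hx h0 => ⟨hB.bdd x hx h0, hB.bddc j hj x hx h0⟩
    ev := fun j => ⟨G.vn j, G.r' j, G.r j, G.ρ0 j, G.ρ1 j, G.T j, (hD j).geo, (hD j).evc⟩ }

end Pool.Agent.QC
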