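import Pool.Agent.QC.Asm.In0B
import Pool.Agent.QC.Asm.In0Defs
import Pool.Agent.QC.Asm.EvG33
import Pool.Agent.QC.Asm.In0Reg
import Pool.Agent.QC.Asm.In0Frames
import Pool.Agent.QC.Asm.In0Paths
import Pool.Agent.QC.Asm.InDP
import Pool.Agent.QC.Asm.In0First

/-!
# MP_7c50a9_lc: assembly: one input at `eta = 0`, and the passage to `eta > 0`

The definitions are in `Asm/In0Defs.lean`.
-/

namespace Pool.Agent.QC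

open MvPolynomial Filter Topology Set

variable {n l : ℕ}

theorem isCompact_HH (t₀ : ℝ) (k : ℕ) (τ : ℕ → ℝ) (κ ω : ℝ) :
    IsCompact (HH t₀ k τ κ ω) := RegH.isCompact_HH t₀ k τ κ ω

/-- The levels in `HH` are regular. -/
theorem In0.reg {Phi : MvPolynomial (Ix n l) ℂ} (hPhi : GoodPhi Phi) {q₀ : Tup n l}
    {q : RTup n l} {t₀ : ℝ} {k : ℕ} {τ : ℕ → ℝ} {κ ω : ℝ} {G : GD n}
    (h : In0 (Phi := Phi) q₀ q t₀ k τ κ ω G) {t : ℂ} (ht : t ∈ HH t₀ k τ κ ω) :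
    SingF (f0 (addT (tC q) t)) = ∅ := RegH.reg hPhi h ht

theorem In0.exists_bd {Phi : MvPolynomial (Ix n l) ℂ} (hPhi : GoodPhi Phi) {q₀ : Tup n l}
    {q : RTup n l} {t₀ : ℝ} {k : ℕ} {τ : ℕ → ℝ} {κ ω : ℝ} {G : GD n}
    (h : In0 (Phi := Phi) q₀ q t₀ k τ κ ω G) :
    ∃ Rm : ℝ, ∀ R0 ≥ Rm, Bd0 q₀ q t₀ k τ κ ω G R0 :=
  BdIn.exists_bd_aux hPhi (isCompact_HH t₀ k τ κ ω) h

/-- Regularity of path A and of the levels for small `eta`. -/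
theorem In0.levReg {Phi : MvPolynomial (Ix n l) ℂ} (hPhi : GoodPhi Phi) {q₀ : Tup n l}
    {q : RTup n l} {t₀ : ℝ} {k : ℕ} {τ : ℕ → ℝ} {κ ω : ℝ} {G : GD n}
    (h : In0 (Phi := Phi) q₀ q t₀ k τ κ ω G) {R0 R1 : ℝ} {z₀ : ℂ}
    (hB : Bd0 q₀ q t₀ k τ κ ω G R0) (hR : 2 * R0 < R1) (hz : z₀ ∈ sann R0 R1) :
    ∀ᶠ en in 𝓝[>] (0 : ℝ), ∀ᶠ eta in 𝓝[>] (0 : ℝ), ∀ P : Prm, P.en = en → P.eta = eta →
      LevReg P q₀ z₀ R0 R1 q t₀ ω (HH t₀ k τ κ ω) :=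
  h.levReg' hPhi hB hR hz (isCompact_HH t₀ k τ κ ω) fun _ ht => h.reg hPhi ht

/-- The frames for small `eta`. -/
theorem In0.frames {Phi : MvPolynomial (Ix n l) ℂ} (hPhi : GoodPhi Phi) {q₀ : Tup n l}
    {q : RTup n l} {t₀ : ℝ} {k : ℕ} {τ : ℕ → ℝ} {κ ω : ℝ} {G : GD n}
    (h : In0 (Phi := Phi) q₀ q t₀ k τ κ ω G) :
    ∀ᶠ en in 𝓝[>] (0 : ℝ), ∀ᶠ eta in 𝓝[>] (0 : ℝ), ∀ P : Prm, P.en = en → P.eta = eta →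
      ∀ j < k, ∀ t ∈ hc (τ j) κ, ∀ x y : ℝ, 0 ≤ x → x ≤ 1 → 0 ≤ y → y ≤ ω * x * (1 - x) →
        SingF (P.f (addT (shT (((x : ℂ) + Complex.I * y) • xC (G.c j)) (tC q)) t)) = ∅ :=
  tame_frames_all (hPhi _ h.good.nz).1 h.ω_pos.le (fun _ hj _ ht => h.reg hPhi (subset_cone
    (Or.inr (mem_biUnion (show _ ∈ {j | j < k} from hj) (Or.inl (Or.inr ht)))))) G.c

/-- The paths of the events for small `eta`. -/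
theorem In0.pathsE {Phi : MvPolynomial (Ix n l) ℂ} (hPhi : GoodPhi Phi) {q₀ : Tup n l}
    {q : RTup n l} {t₀ : ℝ} {k : ℕ} {τ : ℕ → ℝ} {κ ω : ℝ} {G : GD n}
    (h : In0 (Phi := Phi) q₀ q t₀ k τ κ ω G) {R0 R1 : ℝ}
    (hB : Bd0 q₀ q t₀ k τ κ ω G R0) (hR : 2 * R0 < R1) :
    ∀ᶠ en in 𝓝[>] (0 : ℝ), ∀ᶠ eta in 𝓝[>] (0 : ℝ), ∀ P : Prm, P.en = en → P.eta = eta →
      ∀ j < k, ∀ i ≤ 2, ∀ s ∈ Icc (0 : ℝ) 1,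
        SingF (P.f (gam q₀ q t₀ ω (τ j + κ) (G.c j) i s)) = ∅ ∧
        ∀ z ∈ sann R0 R1, z ∉ SigF (P.f (gam q₀ q t₀ ω (τ j + κ) (G.c j) i s)) :=
  h.pathsE' hPhi hB

/-- The first gap has no components. -/
theorem In0.first {Phi : MvPolynomial (Ix n l) ℂ} (hPhi : GoodPhi Phi) {q₀ : Tup n l}
    {q : RTup n l} {t₀ : ℝ} {k : ℕ} {τ : ℕ → ℝ} {κ ω : ℝ} {G : GD n}
    (h : In0 (Phi := Phi) q₀ q t₀ k τ κ ω G) : Cmp (Wset q (τ 0)) = ∅ :=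
  first_aux hPhi h.good h.lst

/-- One input, from `eta = 0` to `eta > 0`. -/
theorem In0.inD {Phi : MvPolynomial (Ix n l) ℂ} (hPhi : GoodPhi Phi) {q₀ : Tup n l}
    {q : RTup n l} {t₀ : ℝ} {k : ℕ} {τ : ℕ → ℝ} {κ ω : ℝ} {G : GD n}
    (h : In0 (Phi := Phi) q₀ q t₀ k τ κ ω G) {a : ℝ} (ha : Irrational a) (ha2 : 2 < a)
    {R0 R1 : ℝ} {z₀ : ℂ} (hB : Bd0 q₀ q t₀ k τ κ ω G R0) (hR : 2 * R0 < R1)
    (hz : z₀ ∈ sann R0 R1) :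
    ∀ᶠ en in 𝓝[>] (0 : ℝ), ∀ᶠ eta in 𝓝[>] (0 : ℝ), ∀ P : Prm, P.en = en → P.eta = eta →
      P.a = a → ∃ D : ∀ j : Fin k, EvD P q₀ z₀ R0 R1 2 (gam q₀ q t₀ ω (τ j + κ) (G.c j)),
        InD P q₀ z₀ R0 R1 q t₀ k τ G.c G.cls κ ω (HH t₀ k τ κ ω) D ∧ Lnk P G D :=
  inD_aux hPhi h ha ha2 hB hR hz (h.levReg hPhi hB hR hz) (h.frames hPhi)
    (h.pathsE hPhi hB hR) (h.first hPhi)

/-- One event: the squares do not depend on `κ`. -/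
theorem exists_evG0 {Phi : MvPolynomial (Ix n l) ℂ} (hPhi : GoodPhi Phi) (RS : RootSys Phi)
    {q₀ : Tup n l} {q : RTup n l} {t₀ : ℝ} (hq : Good Phi q t₀) {k : ℕ} {τ : ℕ → ℝ}
    (hl : Lst q t₀ k τ) {j : ℕ} (hj : j < k) {R : EvRec} (hR : HasEv RS q₀ q t₀ (τ j) R) :
    ∃ (c : Fin n → ℝ) (vn r' r ρ0 ρ1 : ℝ) (T : Set ℂ) (N : Set (Fin (n + 1) → ℝ)),
      eval (cfs (tC (shT c q))) Phi ≠ 0 ∧
      (∀ᶠ κ in 𝓝[>] (0 : ℝ), ∀ᶠ ω in 𝓝[>] (0 : ℝ),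
        word (fun s => RS.Rt (pathA q₀ (tC (addT q t₀)) ω s)) = R.wA ∧
        word (fun s => RS.Rt (pathB (tC q) t₀ ((τ j + κ : ℝ) : ℂ) ω s)) = R.wB ∧
        word (fun s => RS.Rt (pathC (tC (addT q (τ j + κ))) (xC c) ω s)) = R.wC ∧
        (R.real = true →
          {z ∈ RS.Rt (tC (addT q (τ j + κ))) | z.im = 0 ∧ z.re < vn}.ncard = R.cnt)) ∧
      ∀ᶠ κ in 𝓝[>] (0 : ℝ), ∃ μ : ℝ, ∀ G : GD n, G.c j = c → G.vn j = vn → G.r' j = r' →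
        G.r j = r → G.ρ0 j = ρ0 → G.ρ1 j = ρ1 → G.T j = T → G.N j = N → G.μ j = μ →
        G.re j = R.real → G.cls j = R.kl → EvG0 q τ κ G j :=
  Geo33.exists_evG0 hPhi RS hq hl hj hR

end Pool.Agent.QC
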