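import Pool.Agent.QC.Asm.In0Defs
import Pool.Agent.QC.Asm.GeoTame
import Pool.Agent.QC.S5.PairM

set_option autoImplicit false

/-!
# MP_7c50a9_lc: bounds for one input at `eta = 0`
-/

namespace Pool.Agent.QC.BdIn

open MvPolynomial Filter Topology Set

variable {n l : ℕ}

/-- bounds for the critical values of a compact family -/
theorem bd_compact {K : Set (Tup n l)} (hK : IsCompact K) (h : ∀ q ∈ K, T0 q ∧ T1 q) :
    ∀ᶠ R in atTop, ∀ q ∈ K, SigF (f0 q) ⊆ sq R := by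
  obtain ⟨R, hR⟩ := sig_bounded hK (fun q hq => (h q hq).1) (fun q hq => (h q hq).2)
  filter_upwards [eventually_ge_atTop R] with R' hR' q hq
  rintro _ ⟨x, hx, rfl⟩
  have h1 := (hR q hq x hx (Fin.last n)).trans_le hR'
  exact ⟨(Complex.abs_re_le_norm _).trans_lt h1, (Complex.abs_im_le_norm _).trans_lt h1⟩

/-- bounds for the critical values of a path -/
theorem bd_path {Phi : MvPolynomial (Ix n l) ℂ} (hPhi : GoodPhi Phi) {γ : ℝ → Tup n l}
    (hc : Continuous γ) (h : ∀ s ∈ Icc (0 : ℝ) 1, eval (cfs (γ s)) Phi ≠ 0) :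
    ∀ᶠ R in atTop, ∀ s ∈ Icc (0 : ℝ) 1, SigF (f0 (γ s)) ⊆ sq R := by
  have h1 := bd_compact (K := γ '' Icc 0 1) (isCompact_Icc.image hc) (by
    rintro _ ⟨s, hs, rfl⟩
    exact ⟨(hPhi _ (h s hs)).1, (hPhi _ (h s hs)).2.1⟩)
  filter_upwards [h1] with R hR s hs
  exact hR _ ⟨s, hs, rfl⟩

theorem continuous_arc' (ω : ℝ) (z : ℂ) : Continuous (arc ω z) := by
  unfold arc
  fun_prop

theorem continuous_pathA (q₀ q₁ : Tup n l) (ω : ℝ) : Continuous (pathA q₀ q₁ ω) :=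
  (Lab.poly_line q₀ q₁).continuous.comp (continuous_arc' ω 1)

theorem continuous_pathB (q : Tup n l) (t₀ t : ℂ) (ω : ℝ) : Continuous (pathB q t₀ t ω) :=
  (Lab.poly_addT q t₀).continuous.comp (continuous_arc' ω (t - t₀))

theorem continuous_pathC (q : Tup n l) (c : Fin n → ℂ) (ω : ℝ) : Continuous (pathC q c ω) :=
  (Lab.poly_shT q c).continuous.comp (continuous_arc' ω 1)

/-- square around a point of a bounded set -/
theorem csqc_sub_sq {w : ℂ} {ρ R : ℝ} (h1 : |w.re| + ρ < R) (h2 : |w.im| + ρ < R) :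
    csqc w ρ ⊆ sq R := by
  intro z hz
  have h3 : |z.re| ≤ |z.re - w.re| + |w.re| := by
    have := abs_add_le (z.re - w.re) w.re
    rwa [sub_add_cancel] at this
  have h4 : |z.im| ≤ |z.im - w.im| + |w.im| := by
    have := abs_add_le (z.im - w.im) w.im
    rwa [sub_add_cancel] at this
  exact ⟨by linarith [hz.1], by linarith [hz.2]⟩

/-- The squares of the other critical values are in a large square. -/
theorem bdT {q : RTup n l} {tv κ vn r' r ρ0 ρ1 : ℝ} {T : Set ℂ}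
    (h : Geo0 q tv κ vn r' r ρ0 ρ1 T) : ∀ᶠ R in atTop, ∀ w ∈ T, csqc w ρ1 ⊆ sq R := by
  have h1 := bd_compact (K := {tC (addT q (tv + κ))}) isCompact_singleton (by
    rintro _ rfl
    rw [Cyc.tC_addT]
    exact ⟨GeoT.T0_addT h.T0 _, S5.T1_addT h.T1 _⟩)
  obtain ⟨R, hR⟩ := h1.exists
  have hR' := hR _ rfl
  filter_upwards [eventually_gt_atTop (R + ρ0 + ρ1)] with R' hR2 w hw
  obtain ⟨x, hx, -, h3, -⟩ := h.one w hw
  have h4 := hR' ⟨x, hx, rfl⟩
  have h5 : |w.re| ≤ |(x (Fin.last n)).re - w.re| + |(x (Fin.last n)).re| := by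
    have := abs_sub_abs_le_abs_sub w.re (x (Fin.last n)).re
    rw [abs_sub_comm] at this
    linarith
  have h6 : |w.im| ≤ |(x (Fin.last n)).im - w.im| + |(x (Fin.last n)).im| := by
    have := abs_sub_abs_le_abs_sub w.im (x (Fin.last n)).im
    rw [abs_sub_comm] at this
    linarith
  have h7 : |(x (Fin.last n)).re| < R := h4.1
  have h8 : |(x (Fin.last n)).im| < R := h4.2
  exact csqc_sub_sq (by linarith [h3.1]) (by linarith [h3.2])

/-- A continuous function is bounded on the set `f >= 0` in `Omega`. -/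
theorem bd_real {Phi : MvPolynomial (Ix n l) ℂ} {q : RTup n l} {t₀ : ℝ} (h : Good Phi q t₀)
    {g : (Fin (n + 1) → ℝ) → ℝ} (hg : Continuous g) :
    ∀ᶠ R in atTop, ∀ x, inOm q x → 0 ≤ fR 0 0 q x → |g x| < R := by
  obtain ⟨C, hC⟩ := h.compact.exists_bound_of_continuousOn hg.continuousOn
  filter_upwards [eventually_gt_atTop C] with R hR x hx h0
  refine lt_of_le_of_lt ?_ hR
  refine hC x ?_
  show 0 ≤ qvR (q 0) x
  have h1 : 0 < ∏ m : Fin l, qvR (q m.succ) x := Finset.prod_pos fun m _ => hx m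
  have h2 : fR 0 0 q x = qvR (q 0) x * ∏ m : Fin l, qvR (q m.succ) x - 1 := by
    rw [fR, Fin.prod_univ_succ]
    ring
  rw [h2] at h0
  by_contra h3
  push Not at h3
  nlinarith [mul_neg_of_neg_of_pos h3 h1]

theorem continuous_shX (c : Fin n → ℝ) : Continuous (shX c) := by
  refine continuous_pi fun i => ?_
  refine Fin.lastCases ?_ (fun i => ?_) i
  · simp only [shX, Fin.snoc_last]
    fun_prop
  · simp only [shX, Fin.snoc_castSucc]
    fun_prop

theorem exists_bd_aux {Phi : MvPolynomial (Ix n l) ℂ} (hPhi : GoodPhi Phi) {q₀ : Tup n l}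
    {q : RTup n l} {t₀ : ℝ} {k : ℕ} {τ : ℕ → ℝ} {κ ω : ℝ} {G : GD n}
    (hH : IsCompact (HH t₀ k τ κ ω)) (h : In0 (Phi := Phi) q₀ q t₀ k τ κ ω G) :
    ∃ Rm : ℝ, ∀ R0 ≥ Rm, Bd0 q₀ q t₀ k τ κ ω G R0 := by
  rw [← eventually_atTop]
  have hnice := hPhi _ h.good.nz
  have e1 : ∀ᶠ R in atTop, ∀ s ∈ Icc (0 : ℝ) 1,
      SigF (f0 (pathA q₀ (tC (addT q t₀)) ω s)) ⊆ sq R :=
    bd_path hPhi (continuous_pathA _ _ _) h.pathA
  have e2 : ∀ᶠ R in atTop, ∀ j ∈ {j | j < k}, ∀ i ∈ {i | i ≤ 2}, ∀ s ∈ Icc (0 : ℝ) 1,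
      SigF (f0 (gam q₀ q t₀ ω (τ j + κ) (G.c j) i s)) ⊆ sq R := by
    rw [eventually_all_finite (Set.finite_lt_nat k)]
    intro j hj
    rw [eventually_all_finite (Set.finite_le_nat 2)]
    intro i hi
    refine bd_path hPhi ?_ (h.paths j hj i hi)
    match i with
    | 0 => exact continuous_pathA _ _ _
    | 1 => exact continuous_pathB _ _ _ _
    | (i + 2) => exact continuous_pathC _ _ _
  have e3 : ∀ᶠ R in atTop, ∀ t ∈ HH t₀ k τ κ ω, SigF (f0 (addT (tC q) t)) ⊆ sq R := by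
    have h1 := bd_compact (hH.image (S5.continuous_addTC (tC q))) (by
      rintro _ ⟨t, -, rfl⟩
      exact ⟨GeoT.T0_addT hnice.1 _, S5.T1_addT hnice.2.1 _⟩)
    filter_upwards [h1] with R hR t ht
    exact hR _ ⟨t, ht, rfl⟩
  have e4 : ∀ᶠ R in atTop, ∀ j ∈ {j | j < k}, csqc (G.vn j : ℂ) (G.r j) ⊆ sq R := by
    rw [eventually_all_finite (Set.finite_lt_nat k)]
    intro j _
    filter_upwards [eventually_gt_atTop (|G.vn j| + G.r j)] with R hR
    refine csqc_sub_sq ?_ ?_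
    · rw [Complex.ofReal_re]
      exact hR
    · rw [Complex.ofReal_im, abs_zero]
      linarith [abs_nonneg (G.vn j)]
  have e5 : ∀ᶠ R in atTop, ∀ j ∈ {j | j < k}, ∀ w ∈ G.T j, csqc w (G.ρ1 j) ⊆ sq R := by
    rw [eventually_all_finite (Set.finite_lt_nat k)]
    exact fun j hj => bdT (h.ev j hj).geo
  have e6 : ∀ᶠ R in atTop, ∀ x, inOm q x → 0 ≤ fR 0 0 q x → |x (Fin.last n)| < R :=
    bd_real h.good (continuous_apply _)
  have e7 : ∀ᶠ R in atTop, ∀ j ∈ {j | j < k}, ∀ x, inOm q x → 0 ≤ fR 0 0 q x →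
      |shX (G.c j) x (Fin.last n)| < R := by
    rw [eventually_all_finite (Set.finite_lt_nat k)]
    exact fun j _ => bd_real h.good ((continuous_apply _).comp (continuous_shX _))
  filter_upwards [eventually_gt_atTop 0, e1, e2, e3, e4, e5, e6, e7] with R h0 h1 h2 h3 h4 h5 h6 h7
  exact ⟨h0, h1, h2, h3, h4, h5, h6, h7⟩

end Pool.Agent.QC.BdIn
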