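import Pool.Agent.QC.Asm.Vec
import Pool.Agent.QC.Lab.Paths

/-!
# MP_7c50a9_lc: assembly: the history of one input at fixed parameters
-/

namespace Pool.Agent.QC

open MvPolynomial Filter Topology Set Lab

variable {n l : ℕ} {P : Prm} {q₀ : Tup n l} {z₀ : ℂ} {R0 R1 : ℝ}

/-! ## Components and cycles -/

theorem isOpen_diff_comp {m : ℕ} {W : Set (Fin m → ℝ)} (hW : IsOpen W) {O : Set (Fin m → ℝ)}
    (hO : O ∈ Cmp W) : IsOpen (W \ O) := by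
  rw [Ev.Cmp_eq_comps] at hO
  have : W \ O = ⋃ U ∈ {U | U ∈ S4.comps W ∧ U ≠ O}, U := by
    ext x
    simp only [Set.mem_sdiff, mem_iUnion, exists_prop]
    constructor
    · rintro ⟨h1, h2⟩
      refine ⟨connectedComponentIn W x, ⟨S4.mem_comps h1, fun h => h2 ?_⟩,
        mem_connectedComponentIn h1⟩
      rw [← h]
      exact mem_connectedComponentIn h1
    · rintro ⟨U, ⟨hU, hne⟩, hx⟩
      exact ⟨S4.comps_subset hU hx, fun h => hne (S4.comps_eq_of_mem hU hO hx h)⟩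
  rw [this]
  exact isOpen_biUnion fun U hU => S4.comps_isOpen hW hU.1

theorem pr_comp {q : RTup n l} (hc : CompLev q) {t t' : ℝ} (ht : t < t') (ht' : t' ≤ 0)
    {O : Set (Fin (n + 1) → ℝ)} (hO : O ∈ Cmp (Wset q t')) : Pr (addT q t) O where
  isOpen := by
    rw [Ev.Cmp_eq_comps] at hO
    exact S4.comps_isOpen (isOpen_Wset q t') hO
  sub := by
    intro x hx
    rw [inOm_addT]
    rw [Ev.Cmp_eq_comps] at hO
    exact (Ev.mem_Wset.1 (S4.comps_subset hO hx)).1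
  compact := by
    have h1 := hc t (ht.le.trans ht')
    have h2 := isOpen_diff_comp (isOpen_Wset q t') hO
    have hsub : ∀ x, inOm q x → 0 ≤ fR 0 0 (addT q t) x → x ∈ Wset q t' := fun x hx h0 =>
      Ev.mem_Wset.2 ⟨hx, lt_of_le_of_lt h0 (Ev.ff_mono (q := q) ht hx)⟩
    have hOW : O ⊆ Wset q t' := by
      rw [Ev.Cmp_eq_comps] at hO
      exact S4.comps_subset hO
    have : {x ∈ O | 0 ≤ fR 0 0 (addT q t) x} =
        {x | inOm q x ∧ 0 ≤ fR 0 0 (addT q t) x} \ (Wset q t' \ O) := by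
      ext x
      constructor
      · rintro ⟨h3, h4⟩
        exact ⟨⟨(Ev.mem_Wset.1 (hOW h3)).1, h4⟩, fun h => h.2 h3⟩
      · rintro ⟨⟨h3, h4⟩, h5⟩
        refine ⟨?_, h4⟩
        by_contra h6
        exact h5 ⟨hsub x h3 h4, h6⟩
    rw [this]
    exact h1.diff h2

/-! ## The case of an event -/

/-- The three paths of an event. -/
noncomputable def gam (q₀ : Tup n l) (q : RTup n l) (t₀ ω t : ℝ) (c : Fin n → ℝ) :
    ℕ → ℝ → Tup n l
  | 0 => pathA q₀ (tC (addT q t₀)) ω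
  | 1 => pathB (tC q) t₀ ((t : ℝ) : ℂ) ω
  | _ => pathC (tC (addT q t)) (xC c) ω

theorem gam_Gam (q₀ : Tup n l) (q : RTup n l) (t₀ ω t : ℝ) (c : Fin n → ℝ) :
    Gam q₀ q t₀ ω t c (gam q₀ q t₀ ω t c) := ⟨rfl, rfl, rfl⟩

/-- The cases of an event: class, upper (right) point, lower (left) point of the pair. -/
inductive EvC (P : Prm) (q : RTup n l) (tv κ t' vn r' r : ℝ) : Cls → ℂ → ℂ → Prop
  | otherA {μ : ℝ} {a : ℂ} (GA : GeoA P q tv κ vn r' r μ a) (hs : SameCmp q tv t') :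
      EvC P q tv κ t' vn r' r .other a ((starRingEnd ℂ) a)
  | otherB {N : Set (Fin (n + 1) → ℝ)} {x1 x2 : Fin (n + 1) → ℝ}
      (GB : GeoB P q tv κ vn r' r N x1 x2) (hN : ∀ x ∈ N, ¬ inOm q x) (hs : SameCmp q tv t') :
      EvC P q tv κ t' vn r' r .other (x1 (Fin.last n)) (x2 (Fin.last n))
  | zero {N O0 : Set (Fin (n + 1) → ℝ)} {x1 x2 : Fin (n + 1) → ℝ}
      (GB : GeoB P q tv κ vn r' r N x1 x2) (hM : MorZ q tv t' O0) (hN : N ⊆ O0) :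
      EvC P q tv κ t' vn r' r .zero (x1 (Fin.last n)) (x2 (Fin.last n))
  | one {μ : ℝ} {a : ℂ} {U1 U2 : Set (Fin (n + 1) → ℝ)} {x1 x2 : Fin (n + 1) → ℝ}
      (GA : GeoA P q tv κ vn r' r μ a) (GM : GeoM P q tv κ vn r' r U1 U2 x1 x2)
      (hM : MorO q tv t' U1 U2) : EvC P q tv κ t' vn r' r .one a ((starRingEnd ℂ) a)

theorem ev_trans {m : ℕ} {γ : ℕ → ℝ → Tup n l} {D : EvD P q₀ z₀ R0 R1 m γ} {q : RTup n l}
    {tv κ vn t' r' r ρ0 ρ1 : ℝ} {T : Set ℂ} {u : Cmp (Wset q tv) → Fnl (n + 1)}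
    {o : Cmp (Wset q t') → Fnl (n + 1)} (E : EvIn D q tv κ vn t' r' r ρ0 ρ1 T u o) {cls : Cls}
    (h : EvC P q tv κ t' vn r' r cls D.a D.b) :
    Trans ⟨cls, D.pl.EE, D.pl.UU, D.pl.LL⟩ u o := by
  generalize ha : D.a = a at h
  generalize hb : D.b = b at h
  cases h with
  | otherA GA hs => exact evIn_otherA E GA ha hb hs
  | otherB GB hN hs => exact evIn_otherB E GB ha hb hN hs
  | zero GB hM hN => exact evIn_zero E GB ha hb hM hN
  | one GA GM hM => exact evIn_one E GA ha hb GM hM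

/-! ## One input -/

/-- Everything about one input at fixed parameters. -/
structure InD (P : Prm) (q₀ : Tup n l) (z₀ : ℂ) (R0 R1 : ℝ) (q : RTup n l) (t₀ : ℝ) (k : ℕ)
    (τ : ℕ → ℝ) (c : ℕ → Fin n → ℝ) (cls : ℕ → Cls) (κ ω : ℝ) (H : Set ℂ)
    (D : ∀ j : Fin k, EvD P q₀ z₀ R0 R1 2 (gam q₀ q t₀ ω (τ j + κ) (c j))) : Prop where
  κ_pos : 0 < κ
  ω_pos : 0 < ω
  lev : LevReg P q₀ z₀ R0 R1 q t₀ ω H
  comp : CompLev q
  last : τ k = 0
  first : Cmp (Wset q (τ 0)) = ∅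
  le : ∀ j ≤ k, τ j ≤ 0
  lt : ∀ j < k, τ j + κ < τ (j + 1)
  ioo : ∀ j, j + 1 < k → τ j + κ < τ (j + 1) - κ ∧
    ∀ s ∈ Ioo (τ j + κ / 2) (τ (j + 1) - κ / 2), ((s : ℝ) : ℂ) ∈ H
  plus : ∀ j < k, ((τ j + κ : ℝ) : ℂ) ∈ H
  arcs : ∀ j < k, ∀ s ∈ Icc (0 : ℝ) 1, (t₀ : ℂ) + arc ω (((τ j + κ : ℝ) : ℂ) - t₀) s ∈ H
  hcs : ∀ j < k, hc (τ j) κ ⊆ H
  frames : ∀ j < k, ∀ t ∈ hc (τ j) κ, ∀ x y : ℝ, 0 ≤ x → x ≤ 1 → 0 ≤ y → y ≤ ω * x * (1 - x) →
    SingF (P.f (addT (shT (((x : ℂ) + Complex.I * y) • xC (c j)) (tC q)) t)) = ∅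
  bdd : ∀ j < k, ∀ x, inOm q x → 0 ≤ fR 0 0 q x →
    |x (Fin.last n)| < R0 ∧ |shX (c j) x (Fin.last n)| < R0
  ev : ∀ j : Fin k, ∃ (vn r' r ρ0 ρ1 : ℝ) (T : Set ℂ),
    Geo P (shT (c j) q) (τ j) κ vn R0 R1 r' r ρ0 ρ1 T ∧
    EvC P (shT (c j) q) (τ j) κ (τ (j + 1)) vn r' r (cls j) (D j).a (D j).b

/-- The data of the events. -/
noncomputable def evs {q : RTup n l} {t₀ : ℝ} {k : ℕ} {τ : ℕ → ℝ} {c : ℕ → Fin n → ℝ}
    (cls : ℕ → Cls) {κ ω : ℝ}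
    (D : ∀ j : Fin k, EvD P q₀ z₀ R0 R1 2 (gam q₀ q t₀ ω (τ j + κ) (c j))) (j : ℕ) :
    Ev (Fnl (n + 1)) :=
  if h : j < k then ⟨cls j, (D ⟨j, h⟩).pl.EE, (D ⟨j, h⟩).pl.UU, (D ⟨j, h⟩).pl.LL⟩
    else ⟨.other, ⊥, ⊥, ⊥⟩

/-- The list of the first `j` events, the last one first. -/
def evList {V : Type*} (e : ℕ → V) : ℕ → List V
  | 0 => []
  | j + 1 => e j :: evList e j

/-- Components in a frame. -/
noncomputable def cmpE (q : RTup n l) (c : Fin n → ℝ) (t : ℝ) :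
    Cmp (Wset q t) ≃ Cmp (Wset (shT c q) t) :=
  Equiv.ofBijective (fun O => ⟨shX c '' (O : Set (Fin (n + 1) → ℝ)), by
    rw [Wset_shT, Cmp_shX]
    exact ⟨O, O.2, rfl⟩⟩) (by
    constructor
    · intro O O' h
      have h1 : shX c '' (O : Set (Fin (n + 1) → ℝ)) = shX c '' (O' : Set (Fin (n + 1) → ℝ)) :=
        congrArg Subtype.val h
      exact Subtype.ext ((Ev.shHomeo c).injective.image_injective h1)
    · rintro ⟨O', hO'⟩
      have h1 := hO'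
      rw [Wset_shT, Cmp_shX] at h1
      obtain ⟨O, hO, he⟩ := h1
      exact ⟨⟨O, hO⟩, Subtype.ext he⟩)

theorem cmpE_coe (q : RTup n l) (c : Fin n → ℝ) (t : ℝ) (O : Cmp (Wset q t)) :
    (cmpE q c t O : Set (Fin (n + 1) → ℝ)) = shX c '' (O : Set (Fin (n + 1) → ℝ)) := rfl

theorem sann_cases {R0 R1 : ℝ} {z : ℂ} (hz : z ∈ sann R0 R1) : z.im ≠ 0 ∨ R0 < |z.re| := by
  by_contra hcon
  push Not at hcon
  refine hz.2 ⟨hcon.2, ?_⟩
  rw [hcon.1, abs_zero]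
  exact (abs_nonneg _).trans hcon.2

variable {q : RTup n l} {t₀ : ℝ} {k : ℕ} {τ : ℕ → ℝ} {c : ℕ → Fin n → ℝ} {cls : ℕ → Cls}
  {κ ω : ℝ} {H : Set ℂ} {D : ∀ j : Fin k, EvD P q₀ z₀ R0 R1 2 (gam q₀ q t₀ ω (τ j + κ) (c j))}

theorem InD.bd (h : InD P q₀ z₀ R0 R1 q t₀ k τ c cls κ ω H D) {j : ℕ} (hj : j < k) {t : ℝ}
    (ht : t ≤ 0) {x : Fin (n + 1) → ℝ} (hx : inOm q x) (h0 : 0 ≤ fR 0 0 (addT q t) x) :
    |x (Fin.last n)| < R0 ∧ |shX (c j) x (Fin.last n)| < R0 := by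
  refine h.bdd j hj x hx ?_
  have h1 : fR 0 0 (addT q t) x ≤ fR 0 0 (addT q 0) x := Ev.ff_mono' (q := q) ht hx
  rw [addT_zero] at h1
  exact h0.trans h1

/-- The step. -/
theorem InD.step (h : InD P q₀ z₀ R0 R1 q t₀ k τ c cls κ ω H D) {j : ℕ} (hj : j < k)
    {u : Cmp (Wset q (τ j)) → Fnl (n + 1)}
    (hu : ∀ O : Cmp (Wset q (τ j)),
      IsVec P q₀ z₀ R0 R1 q t₀ ω H (u O) (τ j - κ) (UJ P (addT q (τ j - κ)) O)) :
    ∃ o : Cmp (Wset q (τ (j + 1))) → Fnl (n + 1), Trans (evs cls D j) u o ∧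
      ∀ O : Cmp (Wset q (τ (j + 1))),
        IsVec P q₀ z₀ R0 R1 q t₀ ω H (o O) (τ j + κ) (UJ P (addT q (τ j + κ)) O) := by
  obtain ⟨vn, r', r, ρ0, ρ1, T, hgeo, hcase⟩ := h.ev ⟨j, hj⟩
  have hκ := h.κ_pos
  have hlt := h.lt j hj
  have hle := h.le (j + 1) (by omega)
  have hlej := h.le j hj.le
  have hsp := (h.lev.regH _ (h.plus j hj)).1
  have hsig := (h.lev.regH _ (h.plus j hj)).2
  rw [← tC_addT] at hsp hsig
  -- vectors after the event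
  have hpr : ∀ O : Cmp (Wset q (τ (j + 1))), Pr (addT q (τ j + κ)) O := fun O =>
    pr_comp h.comp hlt hle O.2
  have hom : ∀ O : Cmp (Wset q (τ (j + 1))), ∀ x ∈ (O : Set (Fin (n + 1) → ℝ)), inOm q x :=
    fun O x hx => (inOm_addT _ _ _).1 ((hpr O).sub x hx)
  have hbd : ∀ O : Cmp (Wset q (τ (j + 1))), ∀ x ∈ (O : Set (Fin (n + 1) → ℝ)),
      0 ≤ fR 0 0 (addT q (τ j + κ)) x →
        |x (Fin.last n)| < R0 ∧ |shX (c j) x (Fin.last n)| < R0 := fun O x hx h0 =>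
    h.bd hj (by linarith) (hom O x hx) h0
  have hex : ∀ O : Cmp (Wset q (τ (j + 1))), ∃ x,
      IsVec P q₀ z₀ R0 R1 q t₀ ω H x (τ j + κ) (UJ P (addT q (τ j + κ)) O) := by
    intro O
    refine exists_vec h.lev (h.plus j hj) ?_ ?_
    · refine (UJ_par P (hpr O) hsp (R := R0) fun x hx h0 => (hbd O x hx h0).1.le).mono ?_
      exact fun z hz => ⟨sann_cases hz, hsig z hz⟩
    · exact UJ_out P (hpr O) hsp h.lev.R0_pos h.lev.R_lt (fun x hx h0 => (hbd O x hx h0).1) hsig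
  choose o ho using hex
  refine ⟨o, ?_, ho⟩
  -- the cycles before the event
  have hpr' : ∀ O : Cmp (Wset q (τ j)), Pr (addT q (τ j - κ)) O := fun O =>
    pr_comp h.comp (by linarith) hlej O.2
  have hbd' : ∀ O : Cmp (Wset q (τ j)), ∀ x ∈ (O : Set (Fin (n + 1) → ℝ)),
      0 ≤ fR 0 0 (addT q (τ j - κ)) x →
        |x (Fin.last n)| < R0 ∧ |shX (c j) x (Fin.last n)| < R0 := fun O x hx h0 =>
    h.bd hj (by linarith) ((inOm_addT _ _ _).1 ((hpr' O).sub x hx)) h0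
  have hG := gam_Gam q₀ q t₀ ω (τ j + κ) (c j)
  have hcp : ((τ j + κ : ℝ) : ℂ) ∈ hc (τ j) κ := by
    constructor
    · rw [Complex.ofReal_add, add_sub_cancel_left, Complex.norm_real, Real.norm_of_nonneg hκ.le]
    · rw [Complex.ofReal_im]
  have hC1 : ∀ x y : ℝ, 0 ≤ x → x ≤ 1 → 0 ≤ y → y ≤ ω * x * (1 - x) →
      SingF (P.f (shT (((x : ℂ) + Complex.I * y) • xC (c j)) (tC (addT q (τ j + κ))))) = ∅ := by
    intro x y h1 h2 h3 h4
    have := h.frames j hj _ hcp x y h1 h2 h3 h4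
    rwa [← shT_addT, ← tC_addT] at this
  have hV : ∀ t ∈ hc (τ j) κ, ∀ z ∈ sann R0 R1,
      z ∉ SigF (P.f (addT (tC (shT (c j) q)) t)) := by
    intro t ht z hz hzs
    have ht' : t ∈ hd (τ j) κ := ⟨ht.1.le, ht.2⟩
    have hsub : ∀ z : ℂ, z ∈ sq R0 → z ∈ csq R0 := fun z hz => ⟨hz.1.le, hz.2.le⟩
    have hcs : ∀ (w : ℂ) (r s : ℝ), r ≤ s → sqc w r ⊆ csqc w s := fun w r s hrs z hz =>
      ⟨hz.1.le.trans hrs, hz.2.le.trans hrs⟩
    rcases hgeo.sig t ht' z hzs hz.1 with h1 | ⟨w, hw, h1⟩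
    · exact hz.2 (hsub _ (hgeo.sqs.Ksub (hcs _ _ _ hgeo.sqs.r_lt.le h1)))
    · exact hz.2 (hsub _ (hgeo.sqs.Tsub w hw (hcs _ _ _ hgeo.sqs.ρ_lt.le h1)))
  have E : EvIn (D ⟨j, hj⟩) (shT (c j) q) (τ j) κ vn (τ (j + 1)) r' r ρ0 ρ1 T
      (fun O => u ((cmpE q (c j) (τ j)).symm O))
      (fun O => o ((cmpE q (c j) (τ (j + 1))).symm O)) := by
    refine ⟨hgeo, h.lev.R0_pos, hlt, hle, h.comp.shT (c j), ?_, fun O => ?_, fun O => ?_⟩
    · show pathC (tC (addT q (τ j + κ))) (xC (c j)) ω 1 = _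
      rw [pathC_one, ← tC_shT, shT_addT]
    · have h1 := IsVec.befV (D := D ⟨j, hj⟩) h.ω_pos hκ hG h.lev (h.arcs j hj) (h.hcs j hj)
        (h.frames j hj) hV (hpr' ((cmpE q (c j) (τ j)).symm O))
        (hbd' ((cmpE q (c j) (τ j)).symm O)) (hu ((cmpE q (c j) (τ j)).symm O))
      rw [← cmpE_coe, Equiv.apply_symm_apply] at h1
      exact h1
    · have h1 := IsVec.endV (D := D ⟨j, hj⟩) h.ω_pos hG h.lev (h.arcs j hj) hC1
        (hpr ((cmpE q (c j) (τ (j + 1))).symm O))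
        (hbd ((cmpE q (c j) (τ (j + 1))).symm O)) (ho ((cmpE q (c j) (τ (j + 1))).symm O))
      rw [← cmpE_coe, Equiv.apply_symm_apply] at h1
      exact h1
  have h2 := (ev_trans E hcase).equiv (cmpE q (c j) (τ j)) (cmpE q (c j) (τ (j + 1)))
  simp only [Equiv.symm_apply_apply] at h2
  rw [evs, dif_pos hj]
  exact h2

theorem InD.hist_aux (h : InD P q₀ z₀ R0 R1 q t₀ k τ c cls κ ω H D) (j : ℕ) (hj : j ≤ k) :
    ∃ u : Cmp (Wset q (τ j)) → Fnl (n + 1), Hist (evList (evs cls D) j) u ∧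
      ∀ i, i + 1 = j → ∀ O : Cmp (Wset q (τ j)),
        IsVec P q₀ z₀ R0 R1 q t₀ ω H (u O) (τ i + κ) (UJ P (addT q (τ i + κ)) O) := by
  induction j with
  | zero =>
    have he : IsEmpty (Cmp (Wset q (τ 0))) := by
      rw [h.first]
      exact ⟨fun x => x.2⟩
    exact ⟨fun _ => 0, Hist.nil he _, fun i hi => by omega⟩
  | succ j ih =>
    obtain ⟨u, hu1, hu2⟩ := ih (by omega)
    have hκ := h.κ_pos
    have hu : ∀ O : Cmp (Wset q (τ j)),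
        IsVec P q₀ z₀ R0 R1 q t₀ ω H (u O) (τ j - κ) (UJ P (addT q (τ j - κ)) O) := by
      intro O
      rcases j with _ | i
      · exfalso
        have h1 : ((O : Set (Fin (n + 1) → ℝ))) ∈ Cmp (Wset q (τ 0)) := O.2
        exact (h.first ▸ h1 : ((O : Set (Fin (n + 1) → ℝ))) ∈ (∅ : Set (Set (Fin (n + 1) → ℝ))))
      · obtain ⟨h1, h2⟩ := h.ioo i (by omega)
        have hle := h.le (i + 1) (by omega)
        have hpr : ∀ t < τ (i + 1), Pr (addT q t) O := fun t ht => pr_comp h.comp ht hle O.2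
        have hom : ∀ x ∈ (O : Set (Fin (n + 1) → ℝ)), inOm q x := fun x hx =>
          (inOm_addT _ _ _).1 ((hpr (τ (i + 1) - 1) (by linarith)).sub x hx)
        refine IsVec.gap (a := τ i + κ / 2) (b := τ (i + 1) - κ / 2) ((hpr (τ (i + 1) - 1)
          (by linarith)).isOpen) hom (by linarith) (fun t ht => (hpr t (by linarith)).compact)
          (fun t ht x hx h0 => (h.bd (j := i) (by omega) (by linarith) (hom x hx) h0).1) h.lev h2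
          (t := τ i + κ) ⟨by linarith, by linarith⟩ ⟨by linarith, by linarith⟩ (hu2 i rfl O)
    obtain ⟨o, ho1, ho2⟩ := h.step (by omega : j < k) hu
    refine ⟨o, Hist.cons hu1 ho1, fun i hi O => ?_⟩
    obtain rfl : i = j := by omega
    exact ho2 O

theorem InD.hist (h : InD P q₀ z₀ R0 R1 q t₀ k τ c cls κ ω H D) :
    ∃ u : Cmp (Wset q 0) → Fnl (n + 1), Hist (evList (evs cls D) k) u := by
  obtain ⟨u, hu, -⟩ := h.hist_aux k le_rfl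
  have key : ∀ s, τ k = s → ∃ u : Cmp (Wset q s) → Fnl (n + 1),
      Hist (evList (evs cls D) k) u := by
    rintro s rfl
    exact ⟨u, hu⟩
  exact key 0 h.last

end Pool.Agent.QC
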