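import Pool.Agent.QC.Tame.Iface
import Pool.Agent.QC.An.Iface

set_option autoImplicit false

/-!
# MP_7c50a9_lc: cells round real critical points, and the case of two real points (5.1)
-/

namespace Pool.Agent.QC.Asm

open MvPolynomial Filter Topology Set Pool.Agent.QC

variable {n l : ℕ}

theorem eval_cj {m : ℕ} (f : Pol m) (x : Fin m → ℂ) :
    eval (fun i => (starRingEnd ℂ) (x i)) (map (starRingEnd ℂ) f) =
      (starRingEnd ℂ) (eval x f) := by
  induction f using MvPolynomial.induction_on with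
  | C a => simp
  | add p q hp hq => simp [hp, hq]
  | mul_X p i hp => simp [hp]

/-- The polynomials of real tuples have real coefficients. -/
theorem map_cj_fpol (en eta : ℝ) (q : RTup n l) :
    map (starRingEnd ℂ) (fpol en eta (tC q)) = fpol en eta (tC q) := by
  simp [fpol, f0, prodT, qpol, tC, Eform, map_prod, map_sum, Complex.conj_ofReal]

/-- The critical points are symmetric. -/
theorem cj_mem_CritF {en eta : ℝ} {q : RTup n l} {x : Fin (n + 1) → ℂ}
    (hx : x ∈ CritF (fpol en eta (tC q))) :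
    (fun i => (starRingEnd ℂ) (x i)) ∈ CritF (fpol en eta (tC q)) := by
  refine ⟨?_, fun i => ?_⟩
  · have h := eval_cj (fpol en eta (tC q)) x
    rw [map_cj_fpol, hx.1, map_zero] at h
    exact h
  · have h := eval_cj (pderiv i.castSucc (fpol en eta (tC q))) x
    rw [← pderiv_map, map_cj_fpol, hx.2 i, map_zero] at h
    exact h

/-- A point which equals its conjugate is real. -/
theorem eq_xC_of_cj {m : ℕ} {x : Fin m → ℂ} (h : (fun i => (starRingEnd ℂ) (x i)) = x) :
    x = xC (fun i => (x i).re) := by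
  funext i
  exact (Complex.conj_eq_iff_re.1 (congrFun h i)).symm

/-- Cells round a real critical point. -/
theorem real_cell {q : RTup n l} (h1 : T1 (tC q)) {x : Fin (n + 1) → ℝ}
    (hx : xC x ∈ CritF (f0 (tC q))) (hn : NonDegC (f0 (tC q)) (xC x)) {ε : ℝ} (hε : 0 < ε)
    (hu : ∀ y ∈ CritF (f0 (tC q)), y (Fin.last n) ∈ Metric.closedBall (x (Fin.last n) : ℂ) ε →
      y = xC x) {N : Set (Fin (n + 1) → ℝ)} (hN : N ∈ 𝓝 x) :
    ∀ᶠ en in 𝓝[>] (0 : ℝ), ∀ᶠ eta in 𝓝[>] (0 : ℝ), ∃ x' : Fin (n + 1) → ℝ,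
      xC x' ∈ CritF (fpol en eta (tC q)) ∧ x' ∈ N ∧
      (x' (Fin.last n) : ℂ) ∈ Metric.closedBall (x (Fin.last n) : ℂ) ε ∧
      NonDegC (fpol en eta (tC q)) (xC x') ∧
      ∀ y ∈ CritF (fpol en eta (tC q)),
        y (Fin.last n) ∈ Metric.closedBall (x (Fin.last n) : ℂ) ε → y = xC x' := by
  have hc : Continuous fun y : Fin (n + 1) → ℂ => (fun i => (y i).re : Fin (n + 1) → ℝ) := by
    fun_prop
  have hc' : Continuous fun y : Fin (n + 1) → ℂ => y (Fin.last n) := by fun_prop
  have hO1 : (fun y : Fin (n + 1) → ℂ => (fun i => (y i).re : Fin (n + 1) → ℝ)) ⁻¹' N ∈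
      𝓝 (xC x) := by
    refine hc.continuousAt.preimage_mem_nhds ?_
    have e : (fun i => (xC x i).re : Fin (n + 1) → ℝ) = x := by
      funext i
      simp [xC]
    rw [e]
    exact hN
  have hO2 : (fun y : Fin (n + 1) → ℂ => y (Fin.last n)) ⁻¹'
      Metric.closedBall (x (Fin.last n) : ℂ) ε ∈ 𝓝 (xC x) :=
    hc'.continuousAt.preimage_mem_nhds (Metric.closedBall_mem_nhds _ hε)
  have h := tame_cell h1 hx hn (isCompact_closedBall (x (Fin.last n) : ℂ) ε)
    (Metric.closedBall_mem_nhds _ hε) hu (inter_mem hO1 hO2)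
  refine h.mono fun en h2 => h2.mono fun eta h3 => ?_
  obtain ⟨y, hy, hyO, hyn, hyu⟩ := h3
  have hyb : y (Fin.last n) ∈ Metric.closedBall (x (Fin.last n) : ℂ) ε := hyO.2
  have hcj : (fun i => (starRingEnd ℂ) (y i)) = y := by
    refine hyu _ (cj_mem_CritF hy) ?_
    rw [Metric.mem_closedBall, dist_eq_norm] at hyb ⊢
    have e : (starRingEnd ℂ) (y (Fin.last n)) - (x (Fin.last n) : ℂ) =
        (starRingEnd ℂ) (y (Fin.last n) - (x (Fin.last n) : ℂ)) := by
      rw [map_sub, Complex.conj_ofReal]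
    rw [e, Complex.norm_conj]
    exact hyb
  have hy' := eq_xC_of_cj hcj
  have hyl : ((y (Fin.last n)).re : ℂ) = y (Fin.last n) := (congrFun hy' (Fin.last n)).symm
  refine ⟨fun i => (y i).re, ?_, hyO.1, ?_, ?_, ?_⟩
  · rw [← hy']
    exact hy
  · show ((y (Fin.last n)).re : ℂ) ∈ _
    rw [hyl]
    exact hyb
  · rw [← hy']
    exact hyn
  · rw [← hy']
    exact hyu

end Pool.Agent.QC.Asm
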